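import Pool.Agent.Lib.MP_d2b992_gt.Erg.Cap

section
/-!
# The profile of a cap and its radial conformal coordinate
-/
namespace Pool.Agent.Lib.MP_d2b992_gt.Erg

open Set Filter Topology MeasureTheory
open scoped ContDiff

theorem avg_aux (n : ℕ) : ∀ (k : ℕ) (f : ℝ → ℝ), ContDiff ℝ ∞ f → 
    ContDiff ℝ n (fun x => ∫ t in (0:ℝ)..1, t ^ k * f (t * x)) := by
  induction n with
  | zero =>
    intro k f hf
    have hc := hf.continuous
    rw [Nat.cast_zero, contDiff_zero]
    apply intervalIntegral.continuous_parametric_intervalIntegral_of_continuous'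
    fun_prop
  | succ n ih =>
    intro k f hf
    have hc := hf.continuous
    obtain ⟨hf1, hf2⟩ := contDiff_infty_iff_deriv.1 hf
    have hc2 := hf2.continuous
    have key : ∀ x, HasDerivAt (fun x => ∫ t in (0:ℝ)..1, t ^ k * f (t * x)) 
        (∫ t in (0:ℝ)..1, t ^ (k + 1) * deriv f (t * x)) x := by
      intro x
      obtain ⟨C, hC⟩ := (isCompact_Icc (a := -(|x| + 1)) (b := |x| + 1)).exists_bound_of_continuousOn
        hc2.continuousOn
      refine (intervalIntegral.hasDerivAt_integral_of_dominated_loc_of_deriv_le 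
        (F := fun x t => t ^ k * f (t * x)) (F' := fun x t => t ^ (k + 1) * deriv f (t * x)) 
        (s := Metric.ball x 1) (bound := fun _ => C) (Metric.ball_mem_nhds x one_pos) ?_ ?_ ?_ ?_ 
        ?_ ?_).2
      · refine Eventually.of_forall fun y => ?_
        exact (Continuous.aestronglyMeasurable (by fun_prop))
      · exact Continuous.intervalIntegrable (by fun_prop) _ _
      · exact (Continuous.aestronglyMeasurable (by fun_prop))
      · refine Eventually.of_forall fun t ht y hy => ?_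
        rw [uIoc_of_le zero_le_one] at ht
        have h1 : |t| ≤ 1 := abs_le.2 ⟨by linarith [ht.1], ht.2⟩
        have h2 : |y| ≤ |x| + 1 := by
          have h3 : |y - x| < 1 := by rw [← Real.dist_eq]; exact hy
          have h4 := abs_add_le (y - x) x
          have h5 : y - x + x = y := by ring
          rw [h5] at h4
          linarith
        have h3 : |t * y| ≤ |x| + 1 := by
          rw [abs_mul]
          calc |t| * |y| ≤ 1 * (|x| + 1) := mul_le_mul h1 h2 (abs_nonneg _) zero_le_one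
            _ = _ := one_mul _
        have h4 := hC (t * y) (abs_le.1 h3)
        rw [norm_mul]
        have h5 : ‖t ^ (k + 1)‖ ≤ 1 := by
          rw [norm_pow]; exact pow_le_one₀ (norm_nonneg _) h1
        calc ‖t ^ (k + 1)‖ * ‖deriv f (t * y)‖ ≤ 1 * C := 
              mul_le_mul h5 h4 (norm_nonneg _) zero_le_one
          _ = C := one_mul _
      · exact intervalIntegrable_const
      · refine Eventually.of_forall fun t _ y _ => ?_
        have h1 : HasDerivAt (fun y => t * y) t y := by simpa using (hasDerivAt_id y).const_mul t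
        have h2 := ((hf1 (t * y)).hasDerivAt.comp y h1).const_mul (t ^ k)
        refine h2.congr_deriv ?_
        ring
    have h1 : deriv (fun x => ∫ t in (0:ℝ)..1, t ^ k * f (t * x)) = 
        fun x => ∫ t in (0:ℝ)..1, t ^ (k + 1) * deriv f (t * x) := by
      funext x; exact (key x).deriv
    have h2 : ((n + 1 : ℕ) : WithTop ℕ∞) = (n : WithTop ℕ∞) + 1 := by push_cast; rfl
    rw [h2, contDiff_succ_iff_deriv]
    refine ⟨fun x => (key x).differentiableAt, ?_, ?_⟩
    · intro h; exact absurd h (by simp)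
    · rw [h1]; exact ih (k + 1) (deriv f) hf2

theorem contDiff_avg {f : ℝ → ℝ} (hf : ContDiff ℝ ∞ f) : 
    ContDiff ℝ ∞ (fun x => ∫ t in (0:ℝ)..1, f (t * x)) := by
  rw [contDiff_infty]
  intro n
  have := avg_aux n 0 f hf
  simpa using this

theorem contDiffAt_sqrt_one_sub {u : ℝ} (hu : u < 1) : ContDiffAt ℝ ∞ (fun v => √(1 - v)) u := 
  (contDiffAt_const.sub contDiffAt_id).sqrt (by simp; linarith)

theorem hasDerivAt_inv_sqrt {u : ℝ} (hu : u < 1) : 
    HasDerivAt (fun v => 1 / √(1 - v)) (1 / (2 * (1 - u) * √(1 - u))) u := by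
  have h1 : 0 < 1 - u := by linarith
  have h2 : HasDerivAt (fun v : ℝ => 1 - v) (-1) u := by
    simpa using (hasDerivAt_id u).const_sub 1
  have h3 := h2.sqrt h1.ne'
  have h4 := h3.inv (Real.sqrt_pos.2 h1).ne'
  simp only [one_div]
  refine h4.congr_deriv ?_
  have h5 := Real.sq_sqrt h1.le
  have h6 := (Real.sqrt_pos.2 h1).ne'
  rw [h5]
  field_simp

namespace Cap

variable (K : Cap)

theorem a_sq_lt : K.a ^ 2 < 1 := by
  have := K.a_pos; have := K.a_lt; nlinarith

theorem a_sq_pos : 0 < K.a ^ 2 := pow_pos K.a_pos 2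

theorem nR_pos : (0:ℝ) < K.n := Nat.cast_pos.2 K.n_pos

theorem hasDerivAt_D (u : ℝ) : HasDerivAt K.D (-K.σ u) u := by
  have hc := K.smooth.continuous
  have h1 : HasDerivAt (fun u => ∫ v in (0:ℝ)..u, K.σ v) (K.σ u) u := 
    intervalIntegral.integral_hasDerivAt_right (hc.intervalIntegrable _ _) 
      (hc.stronglyMeasurableAtFilter _ _) hc.continuousAt
  exact (h1.const_sub (2 / (K.n:ℝ) - 1))

theorem contDiff_D : ContDiff ℝ ∞ K.D := by
  rw [contDiff_infty_iff_deriv]
  refine ⟨fun u => (K.hasDerivAt_D u).differentiableAt, ?_⟩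
  have : deriv K.D = fun u => -K.σ u := by funext u; exact (K.hasDerivAt_D u).deriv
  rw [this]
  exact K.smooth.neg

theorem D_zero : K.D 0 = 2 / K.n - 1 := by simp [D]

theorem D_eq_zero {u : ℝ} (hu : K.a ^ 2 ≤ u) : K.D u = 0 := by
  have hc := K.smooth.continuous
  have h0 : ∀ x y : ℝ, K.a ^ 2 ≤ x → K.a ^ 2 ≤ y → ∫ v in x..y, K.σ v = 0 := by
    intro x y hx hy
    rw [intervalIntegral.integral_congr (g := fun _ => (0:ℝ))]
    · simp
    · intro v hv
      rw [uIcc, mem_Icc] at hv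
      exact K.zero v (le_trans (le_inf hx hy) hv.1)
  have h1 : (∫ v in (0:ℝ)..u, K.σ v) = ∫ v in (0:ℝ)..1, K.σ v := by
    rw [← intervalIntegral.integral_add_adjacent_intervals (hc.intervalIntegrable 0 1) 
      (hc.intervalIntegrable 1 u), h0 1 u K.a_sq_lt.le hu, add_zero]
  unfold D
  rw [h1, K.total]
  ring

theorem hasDerivAt_h {u : ℝ} (hu : u < 1) : 
    HasDerivAt K.h (1 / (2 * (1 - u) * √(1 - u)) - K.σ u) u := 
  ((hasDerivAt_inv_sqrt hu).add (K.hasDerivAt_D u)).congr_deriv (by ring)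

theorem contDiffAt_h {u : ℝ} (hu : u < 1) : ContDiffAt ℝ ∞ K.h u := by
  have h1 : ContDiffAt ℝ ∞ (fun v => 1 / √(1 - v)) u := 
    contDiffAt_const.div (contDiffAt_sqrt_one_sub hu) (Real.sqrt_pos.2 (by linarith)).ne'
  exact h1.add K.contDiff_D.contDiffAt

theorem h_zero : K.h 0 = 2 / K.n := by simp [h, D_zero]

theorem h_eq {u : ℝ} (hu : K.a ^ 2 ≤ u) : K.h u = 1 / √(1 - u) := by
  unfold h; rw [K.D_eq_zero hu, add_zero]

theorem deriv_h_pos {u : ℝ} (h0 : 0 ≤ u) (hu : u < 1) : 0 < deriv K.h u := by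
  rw [(K.hasDerivAt_h hu).deriv]
  linarith [K.lt u h0 hu]

theorem h_mono : StrictMonoOn K.h (Ico 0 1) := by
  apply strictMonoOn_of_deriv_pos (convex_Ico 0 1)
  · intro u hu; exact (K.contDiffAt_h hu.2).continuousAt.continuousWithinAt
  · intro u hu
    rw [interior_Ico] at hu
    exact K.deriv_h_pos hu.1.le hu.2

theorem h_pos {u : ℝ} (h0 : 0 ≤ u) (hu : u < 1) : 0 < K.h u := by
  have h1 : 0 < K.h 0 := by rw [K.h_zero]; have := K.nR_pos; positivity
  rcases h0.eq_or_lt with h | h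
  · rw [← h]; exact h1
  · exact h1.trans (K.h_mono ⟨le_rfl, by norm_num⟩ ⟨h0, hu⟩ h)

theorem exists_delta : ∃ δ > 0, ∀ u, -δ ≤ u → u < 1 → 0 < K.h u := by
  have h1 : 0 < K.h 0 := K.h_pos le_rfl one_pos
  have h2 : ContinuousAt K.h 0 := (K.contDiffAt_h one_pos).continuousAt
  obtain ⟨ε, hε, h3⟩ := Metric.eventually_nhds_iff.1 (h2.eventually (lt_mem_nhds h1))
  refine ⟨ε / 2, by positivity, fun u hu hu1 => ?_⟩
  rcases le_or_gt 0 u with h | h
  · exact K.h_pos h hu1
  · apply h3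
    rw [Real.dist_eq, sub_zero, abs_of_neg h]
    linarith

theorem contDiffAt_ell {u : ℝ} (hu : u < 1) : ContDiffAt ℝ ∞ K.ell u := by
  have h1 := contDiffAt_sqrt_one_sub hu
  have h2 : 0 < √(1 - u) := Real.sqrt_pos.2 (by linarith)
  have h3 : ContDiffAt ℝ ∞ (fun v => 1 / (√(1 - v) * (1 + √(1 - v)))) u := 
    contDiffAt_const.div (h1.mul (contDiffAt_const.add h1)) (by positivity)
  exact contDiffAt_const.mul (h3.sub (contDiff_avg K.smooth).contDiffAt)

theorem ell_eq {u : ℝ} (hu : u < 1) : 1 + u * K.ell u = K.n * K.h u / 2 := by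
  have h2 : 0 < √(1 - u) := Real.sqrt_pos.2 (by linarith)
  have h3 : √(1 - u) ^ 2 = 1 - u := Real.sq_sqrt (by linarith)
  have hn := K.nR_pos
  have h4 : u * ∫ t in (0:ℝ)..1, K.σ (t * u) = ∫ v in (0:ℝ)..u, K.σ v := by
    have := intervalIntegral.mul_integral_comp_mul_right (a := (0:ℝ)) (b := 1) (f := K.σ) u
    simpa using this
  have h5 : u * (1 / (√(1 - u) * (1 + √(1 - u)))) = 1 / √(1 - u) - 1 := by
    have : u = (1 - √(1 - u)) * (1 + √(1 - u)) := by nlinarith
    field_simp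
    linarith
  unfold ell h D
  rw [← h4]
  have : 1 + u * (K.n / 2 * (1 / (√(1 - u) * (1 + √(1 - u))) - ∫ t in (0:ℝ)..1, K.σ (t * u))) = 
      1 + K.n / 2 * (u * (1 / (√(1 - u) * (1 + √(1 - u)))) - 
        u * ∫ t in (0:ℝ)..1, K.σ (t * u)) := by ring
  rw [this, h5]
  field_simp
  ring

end Cap

end Pool.Agent.Lib.MP_d2b992_gt.Erg
end

section
/-!
# The radial conformal coordinate and its inverse
-/
namespace Pool.Agent.Lib.MP_d2b992_gt.Erg

open Set Filter Topology MeasureTheory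
open scoped ContDiff

namespace Cap

variable (K : Cap)

/-- The exponent. -/
noncomputable def EE (u : ℝ) : ℝ := ∫ v in (K.a ^ 2)..u, K.ell v

theorem continuousOn_ell : ContinuousOn K.ell (Iio 1) := fun _ hu => 
  (K.contDiffAt_ell hu).continuousAt.continuousWithinAt

theorem intervalIntegrable_ell {u v : ℝ} (hu : u < 1) (hv : v < 1) : 
    IntervalIntegrable K.ell volume u v := by
  apply ContinuousOn.intervalIntegrable
  apply K.continuousOn_ell.mono
  intro x hx
  rw [uIcc, mem_Icc] at hx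
  exact lt_of_le_of_lt hx.2 (max_lt hu hv)

theorem hasDerivAt_EE {u : ℝ} (hu : u < 1) : HasDerivAt K.EE (K.ell u) u := by
  refine intervalIntegral.integral_hasDerivAt_right (K.intervalIntegrable_ell K.a_sq_lt hu) 
    ?_ (K.contDiffAt_ell hu).continuousAt
  exact K.continuousOn_ell.stronglyMeasurableAtFilter isOpen_Iio u hu

theorem contDiffAt_EE {u : ℝ} (hu : u < 1) : ContDiffAt ℝ ∞ K.EE u := by
  have h : ContDiffOn ℝ ∞ K.EE (Iio 1) := by
    rw [contDiffOn_infty_iff_deriv_of_isOpen isOpen_Iio]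
    refine ⟨fun v hv => (K.hasDerivAt_EE hv).differentiableAt.differentiableWithinAt, ?_⟩
    have h1 : ContDiffOn ℝ ∞ K.ell (Iio 1) := fun v hv => (K.contDiffAt_ell hv).contDiffWithinAt
    exact h1.congr fun v hv => (K.hasDerivAt_EE hv).deriv
  exact h.contDiffAt (isOpen_Iio.mem_nhds hu)

theorem c0_pos : 0 < K.c0 := by
  have := K.a_pos
  unfold c0
  positivity

theorem N_def (u : ℝ) : K.N u = K.c0 * u * Real.exp (K.EE u) := rfl

theorem N_zero : K.N 0 = 0 := by rw [N_def]; ring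

theorem hasDerivAt_N {u : ℝ} (hu : u < 1) : 
    HasDerivAt K.N (K.c0 * Real.exp (K.EE u) * (K.n * K.h u / 2)) u := by
  have h1 := ((hasDerivAt_id u).const_mul K.c0).mul (K.hasDerivAt_EE hu).exp
  refine h1.congr_deriv ?_
  rw [← K.ell_eq hu]
  simp
  ring

theorem contDiffAt_N {u : ℝ} (hu : u < 1) : ContDiffAt ℝ ∞ K.N u := 
  (contDiffAt_const.mul contDiffAt_id).mul (K.contDiffAt_EE hu).exp

theorem deriv_N_pos {u : ℝ} (hu : u < 1) (hh : 0 < K.h u) : 0 < deriv K.N u := by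
  rw [(K.hasDerivAt_N hu).deriv]
  have := K.c0_pos; have := K.nR_pos; positivity

theorem N_strictMono {δ : ℝ} (hδ : ∀ u, -δ ≤ u → u < 1 → 0 < K.h u) : 
    StrictMonoOn K.N (Ico (-δ) 1) := by
  apply strictMonoOn_of_deriv_pos (convex_Ico _ _)
  · intro u hu; exact (K.contDiffAt_N hu.2).continuousAt.continuousWithinAt
  · intro u hu
    rw [interior_Ico] at hu
    exact K.deriv_N_pos hu.2 (hδ u hu.1.le hu.2)

theorem N_strictMono' : StrictMonoOn K.N (Ico 0 1) := by
  have := K.N_strictMono (δ := 0) (fun u hu hu1 => K.h_pos (by simpa using hu) hu1)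
  simpa using this

theorem N_pos {u : ℝ} (hu : 0 < u) : 0 < K.N u := by
  rw [N_def]; have := K.c0_pos; positivity


theorem log_ratio {u : ℝ} (hu : 0 < u) : 
    Real.log (√u / (1 + √(1 - u))) = 1 / 2 * Real.log u - Real.log (1 + √(1 - u)) := by
  have s1 : 0 < √u := Real.sqrt_pos.2 hu
  have s2 : 0 ≤ √(1 - u) := Real.sqrt_nonneg _
  rw [Real.log_div s1.ne' (by positivity), Real.log_sqrt hu.le]
  ring

/-- In the round region the conformal coordinate is explicit. -/
theorem N_eq {u : ℝ} (hu : K.a ^ 2 ≤ u) (hu1 : u < 1) : 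
    K.N u = (√u / (1 + √(1 - u))) ^ K.n := by
  have ha := K.a_sq_pos
  have hu0 : 0 < u := ha.trans_le hu
  set f : ℝ → ℝ := fun v => Real.log v + K.EE v - 
    K.n * (1 / 2 * Real.log v - Real.log (1 + √(1 - v))) with hf
  have hder : ∀ v, K.a ^ 2 ≤ v → v < 1 → HasDerivAt f 0 v := by
    intro v hv hv1
    have hv0 : 0 < v := ha.trans_le hv
    have s2 : 0 < √(1 - v) := Real.sqrt_pos.2 (by linarith)
    have q2 : √(1 - v) ^ 2 = 1 - v := Real.sq_sqrt (by linarith)
    have h1 : HasDerivAt (fun v : ℝ => 1 - v) (-1) v := by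
      simpa using (hasDerivAt_id v).const_sub 1
    have h2 := h1.sqrt (by linarith : (1:ℝ) - v ≠ 0)
    have h5 := (((Real.hasDerivAt_log hv0.ne').const_mul (1 / 2 : ℝ)).sub 
      ((h2.const_add 1).log (by positivity))).const_mul (K.n : ℝ)
    have h6 := ((Real.hasDerivAt_log hv0.ne').add (K.hasDerivAt_EE hv1)).sub h5
    refine h6.congr_deriv ?_
    have e1 := K.ell_eq hv1
    rw [K.h_eq hv] at e1
    have e2 : v⁻¹ + K.ell v = K.n / (2 * v * √(1 - v)) := by
      have : v⁻¹ + K.ell v = v⁻¹ * (1 + v * K.ell v) := by field_simp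
      rw [this, e1]
      field_simp
    rw [e2]
    set r := √(1 - v)
    have e3 : v = 1 - r ^ 2 := by linarith
    have e4 : (1 - r ^ 2) ≠ 0 := by rw [← e3]; exact hv0.ne'
    rw [e3]
    have e5 : 1 + r ≠ 0 := by positivity
    field_simp
    ring
  have hconst : f u = f (K.a ^ 2) := by
    have h1 : ∀ v ∈ Icc (K.a ^ 2) u, f v = f (K.a ^ 2) := by
      apply constant_of_has_deriv_right_zero
      · intro v hv
        exact (hder v hv.1 (lt_of_le_of_lt hv.2 hu1)).continuousAt.continuousWithinAt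
      · intro v hv
        exact (hder v hv.1 (hv.2.trans hu1)).hasDerivWithinAt
    exact h1 u ⟨hu, le_rfl⟩
  have hE : K.EE (K.a ^ 2) = 0 := by simp [EE]
  have r1 := log_ratio hu0
  have r2 := log_ratio ha
  simp only [hf, hE, ← r1, ← r2] at hconst
  rw [Real.sqrt_sq K.a_pos.le] at hconst
  have p1 : 0 < √u / (1 + √(1 - u)) := by
    have : 0 < √u := Real.sqrt_pos.2 hu0
    positivity
  have p2 : 0 < K.a / (1 + √(1 - K.a ^ 2)) := by have := K.a_pos; positivity
  rw [N_def]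
  have e1 : K.EE u = Real.log (K.a ^ 2) - K.n * Real.log (K.a / (1 + √(1 - K.a ^ 2))) - 
      Real.log u + K.n * Real.log (√u / (1 + √(1 - u))) := by linarith
  rw [e1, Real.exp_add, Real.exp_sub, Real.exp_sub, Real.exp_log ha, Real.exp_log hu0, 
    Real.exp_nat_mul, Real.exp_nat_mul, Real.exp_log p1, Real.exp_log p2]
  unfold c0
  have := K.a_pos
  field_simp

end Cap

end Pool.Agent.Lib.MP_d2b992_gt.Erg
end

section
/-!
# The inverse of the radial conformal coordinate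
-/
namespace Pool.Agent.Lib.MP_d2b992_gt.Erg

open Set Filter Topology MeasureTheory
open scoped ContDiff

namespace Cap

variable (K : Cap)

theorem continuousOn_N : ContinuousOn K.N (Iio 1) := fun _ hu => 
  (K.contDiffAt_N hu).continuousAt.continuousWithinAt

theorem ratio_lt {u : ℝ} (h1 : u < 1) : √u / (1 + √(1 - u)) < 1 := by
  have s2 : 0 < √(1 - u) := Real.sqrt_pos.2 (by linarith)
  have s1 : √u < 1 := by rw [Real.sqrt_lt' one_pos]; linarith
  rw [div_lt_one (by positivity)]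
  linarith

theorem N_lt_one {u : ℝ} (hu : u < 1) : K.N u < 1 := by
  rcases lt_or_ge u 0 with h | h
  · rw [N_def]
    have h1 := K.c0_pos
    have h2 : K.c0 * u * Real.exp (K.EE u) < 0 := by
      have : K.c0 * u < 0 := mul_neg_of_pos_of_neg h1 h
      exact mul_neg_of_neg_of_pos this (Real.exp_pos _)
    linarith
  · have key : ∀ v, K.a ^ 2 ≤ v → v < 1 → K.N v < 1 := by
      intro v hv hv1
      have hv0 : 0 ≤ v := K.a_sq_pos.le.trans hv
      rw [K.N_eq hv hv1]
      exact pow_lt_one₀ (by positivity) (ratio_lt hv1) K.n_pos.ne'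
    rcases le_or_gt (K.a ^ 2) u with h2 | h2
    · exact key u h2 hu
    · exact (K.N_strictMono' ⟨h, hu⟩ ⟨K.a_sq_pos.le, K.a_sq_lt⟩ h2).trans (key _ le_rfl K.a_sq_lt)

/-- Explicit values. -/
theorem N_expl {R : ℝ} (h0 : 0 < R) (h1 : R < 1) (h : K.a ^ 2 ≤ (2 * R / (1 + R ^ 2)) ^ 2) : 
    K.N ((2 * R / (1 + R ^ 2)) ^ 2) = R ^ K.n ∧ (2 * R / (1 + R ^ 2)) ^ 2 < 1 := by
  have e1 : √((2 * R / (1 + R ^ 2)) ^ 2) = 2 * R / (1 + R ^ 2) := Real.sqrt_sq (by positivity)
  have e2 : 1 - (2 * R / (1 + R ^ 2)) ^ 2 = ((1 - R ^ 2) / (1 + R ^ 2)) ^ 2 := by field_simp; ring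
  have h3 : 0 < 1 - R ^ 2 := by nlinarith
  have e3 : √(1 - (2 * R / (1 + R ^ 2)) ^ 2) = (1 - R ^ 2) / (1 + R ^ 2) := by
    rw [e2]; exact Real.sqrt_sq (by positivity)
  have h4 : (2 * R / (1 + R ^ 2)) ^ 2 < 1 := by
    have : 0 < ((1 - R ^ 2) / (1 + R ^ 2)) ^ 2 := by positivity
    linarith
  refine ⟨?_, h4⟩
  rw [K.N_eq h h4, e1, e3]
  congr 1
  field_simp
  ring

/-- The values of `N` approach `1`. -/
theorem exists_N_gt {x : ℝ} (hx : x < 1) : ∃ u, K.a ^ 2 ≤ u ∧ u < 1 ∧ x < K.N u := by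
  have hc : ContinuousAt (fun R : ℝ => R ^ K.n) 1 := by fun_prop
  have hc2 : ContinuousAt (fun R : ℝ => (2 * R / (1 + R ^ 2)) ^ 2) 1 := by
    apply ContinuousAt.pow
    exact ContinuousAt.div (by fun_prop) (by fun_prop) (by norm_num)
  have h1 : ∀ᶠ R : ℝ in 𝓝 1, x < R ^ K.n := hc.eventually (lt_mem_nhds (by simpa using hx))
  have h2 : ∀ᶠ R : ℝ in 𝓝 1, K.a ^ 2 < (2 * R / (1 + R ^ 2)) ^ 2 := 
    hc2.eventually (lt_mem_nhds (by norm_num; rw [abs_of_pos K.a_pos]; exact K.a_lt))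
  have h3 : ∀ᶠ R : ℝ in 𝓝[<] 1, x < R ^ K.n ∧ K.a ^ 2 < (2 * R / (1 + R ^ 2)) ^ 2 ∧ 0 < R ∧ R < 1 := by
    filter_upwards [nhdsWithin_le_nhds h1, nhdsWithin_le_nhds h2, 
      nhdsWithin_le_nhds (lt_mem_nhds (zero_lt_one' ℝ)), self_mem_nhdsWithin] with R a b c d
    exact ⟨a, b, c, d⟩
  obtain ⟨R, r1, r2, r3, r4⟩ := h3.exists
  obtain ⟨e1, e2⟩ := K.N_expl r3 r4 r2.le
  exact ⟨_, r2.le, e2, by rw [e1]; exact r1⟩

/-- A fixed margin. -/
noncomputable def del : ℝ := K.exists_delta.choose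

theorem del_pos : 0 < K.del := K.exists_delta.choose_spec.1

theorem h_pos' {u : ℝ} (h : -K.del ≤ u) (hu : u < 1) : 0 < K.h u := 
  K.exists_delta.choose_spec.2 u h hu

theorem N_mono : StrictMonoOn K.N (Ico (-K.del) 1) := 
  K.N_strictMono fun _ h1 h2 => K.h_pos' h1 h2

theorem exists_N_eq {x : ℝ} (h0 : K.N (-K.del) ≤ x) (h1 : x < 1) : 
    ∃ u, -K.del ≤ u ∧ u < 1 ∧ K.N u = x := by
  obtain ⟨v, v1, v2, v3⟩ := K.exists_N_gt h1
  have hd := K.del_pos
  have hv : -K.del ≤ v := by linarith [K.a_sq_pos]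
  have hc : ContinuousOn K.N (Icc (-K.del) v) := 
    K.continuousOn_N.mono fun w hw => lt_of_le_of_lt hw.2 v2
  obtain ⟨u, hu, hu2⟩ := intermediate_value_Icc hv hc ⟨h0, v3.le⟩
  exact ⟨u, hu.1, lt_of_le_of_lt hu.2 v2, hu2⟩

theorem U_N {u : ℝ} (h0 : -K.del ≤ u) (h1 : u < 1) : K.U (K.N u) = u := by
  have h : IsGreatest {v | v < 1 ∧ K.N v ≤ K.N u} u := by
    refine ⟨⟨h1, le_rfl⟩, fun v hv => ?_⟩
    rcases lt_or_ge v (-K.del) with h2 | h2
    · linarith
    · exact (K.N_mono.le_iff_le ⟨h2, hv.1⟩ ⟨h0, h1⟩).1 hv.2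
  exact h.csSup_eq

theorem U_N' {u : ℝ} (h0 : 0 ≤ u) (h1 : u < 1) : K.U (K.N u) = u := 
  K.U_N (by linarith [K.del_pos]) h1

theorem N_del_neg : K.N (-K.del) < 0 := by
  have := K.N_mono ⟨le_rfl, by linarith [K.del_pos]⟩ ⟨by linarith [K.del_pos], one_pos⟩ 
    (by linarith [K.del_pos] : -K.del < 0)
  rwa [K.N_zero] at this

theorem U_spec {x : ℝ} (h0 : 0 ≤ x) (h1 : x < 1) : 0 ≤ K.U x ∧ K.U x < 1 ∧ K.N (K.U x) = x := by
  obtain ⟨u, u1, u2, u3⟩ := K.exists_N_eq (K.N_del_neg.le.trans h0) h1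
  have hU : K.U x = u := by rw [← u3]; exact K.U_N u1 u2
  have hu0 : 0 ≤ u := by
    by_contra h
    push Not at h
    have := K.N_mono ⟨u1, u2⟩ ⟨by linarith [K.del_pos], one_pos⟩ h
    rw [K.N_zero, u3] at this
    linarith
  rw [hU]
  exact ⟨hu0, u2, u3⟩

theorem U_zero : K.U 0 = 0 := by
  have := K.U_N' le_rfl one_pos
  rwa [K.N_zero] at this

theorem U_pos {x : ℝ} (h0 : 0 < x) (h1 : x < 1) : 0 < K.U x := by
  obtain ⟨a, b, c⟩ := K.U_spec h0.le h1
  rcases a.eq_or_lt with h | h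
  · rw [← h, K.N_zero] at c
    linarith
  · exact h

theorem U_of_ge {x : ℝ} (h : 1 ≤ x) : K.U x = 1 := by
  have : {u : ℝ | u < 1 ∧ K.N u ≤ x} = Iio 1 := by
    ext u
    simp only [mem_ofPred_eq, mem_Iio]
    exact ⟨fun h => h.1, fun hu => ⟨hu, ((K.N_lt_one hu).le.trans h)⟩⟩
  unfold U
  rw [this, csSup_Iio]

theorem U_mono : StrictMonoOn K.U (Ico 0 1) := by
  intro x hx y hy hxy
  obtain ⟨a1, b1, c1⟩ := K.U_spec hx.1 hx.2
  obtain ⟨a2, b2, c2⟩ := K.U_spec hy.1 hy.2
  rw [← K.N_strictMono'.lt_iff_lt ⟨a1, b1⟩ ⟨a2, b2⟩, c1, c2]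
  exact hxy

/-- Explicit values of the inverse. -/
theorem U_expl {R : ℝ} (h0 : 0 < R) (h1 : R < 1) (h : K.a ^ 2 ≤ (2 * R / (1 + R ^ 2)) ^ 2) : 
    K.U (R ^ K.n) = (2 * R / (1 + R ^ 2)) ^ 2 := by
  obtain ⟨e1, e2⟩ := K.N_expl h0 h1 h
  rw [← e1]
  exact K.U_N' (by positivity) e2

theorem contDiffAt_U {x : ℝ} (h0 : 0 ≤ x) (h1 : x < 1) : ContDiffAt ℝ ∞ K.U x ∧ 
    HasDerivAt K.U (K.c0 * Real.exp (K.EE (K.U x)) * (K.n * K.h (K.U x) / 2))⁻¹ x := by
  obtain ⟨u0, u1, u2⟩ := K.U_spec h0 h1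
  set u := K.U x with hu
  have hone : (∞ : WithTop ℕ∞) ≠ 0 := by simp
  have hd := K.hasDerivAt_N u1
  have hne : K.c0 * Real.exp (K.EE u) * (K.n * K.h u / 2) ≠ 0 := by
    have := K.c0_pos; have := K.nR_pos; have := K.h_pos u0 u1; positivity
  have hs : ContDiffAt ℝ ∞ K.N u := K.contDiffAt_N u1
  have hf := hd.hasFDerivAt_equiv hne
  set f := hs.toOpenPartialHomeomorph K.N hf hone with hfdef
  have hmem : u ∈ f.source := hs.mem_toOpenPartialHomeomorph_source hf hone
  have hcoe : ∀ v, f v = K.N v := fun v => by rw [hfdef, hs.toOpenPartialHomeomorph_coe hf hone]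
  have hx : f u = x := by rw [hcoe]; exact u2
  have htar : x ∈ f.target := by rw [← hx]; exact f.map_source hmem
  have hsymm : f.symm x = u := by rw [← hx]; exact f.left_inv hmem
  have hsm : ContDiffAt ℝ ∞ f.symm x := by
    apply f.contDiffAt_symm_deriv hne htar
    · rw [hsymm]; exact hd
    · rw [hsymm]; exact hs
  have hev : K.U =ᶠ[𝓝 x] f.symm := by
    have c1 : ContinuousAt f.symm x := hsm.continuousAt
    have c2 : ∀ᶠ y in 𝓝 x, -K.del < f.symm y := 
      c1.eventually (lt_mem_nhds (by rw [hsymm]; linarith [K.del_pos]))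
    have c3 : ∀ᶠ y in 𝓝 x, f.symm y < 1 := c1.eventually (gt_mem_nhds (by rw [hsymm]; exact u1))
    filter_upwards [c2, c3, f.open_target.mem_nhds htar] with y y1 y2 y3
    have : y = K.N (f.symm y) := by rw [← hcoe, f.right_inv y3]
    nth_rw 1 [this]
    exact K.U_N y1.le y2
  refine ⟨hsm.congr_of_eventuallyEq hev, ?_⟩
  have h5 : HasDerivAt f.symm (K.c0 * Real.exp (K.EE u) * (K.n * K.h u / 2))⁻¹ x := by
    apply f.hasDerivAt_symm htar hne
    rw [hsymm]
    exact hd
  exact h5.congr_of_eventuallyEq hev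

theorem kap_pos (x : ℝ) : 0 < K.kap x := by
  unfold kap
  have := K.c0_pos
  positivity

theorem U_eq_mul_kap {x : ℝ} (h0 : 0 ≤ x) (h1 : x < 1) : K.U x = x * K.kap x := by
  obtain ⟨u0, u1, u2⟩ := K.U_spec h0 h1
  have hc := K.c0_pos
  have hE := Real.exp_pos (K.EE (K.U x))
  have hk : K.kap x = 1 / (K.c0 * Real.exp (K.EE (K.U x))) := rfl
  rw [hk]
  nth_rw 2 [← u2]
  rw [N_def]
  field_simp

theorem contDiffAt_kap {x : ℝ} (h0 : 0 ≤ x) (h1 : x < 1) : ContDiffAt ℝ ∞ K.kap x := by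
  obtain ⟨u0, u1, u2⟩ := K.U_spec h0 h1
  have h2 : ContDiffAt ℝ ∞ (fun y => K.EE (K.U y)) x := 
    (K.contDiffAt_EE u1).comp x (K.contDiffAt_U h0 h1).1
  have h3 : ContDiffAt ℝ ∞ (fun y => 1 / (K.c0 * Real.exp (K.EE (K.U y)))) x := by
    refine contDiffAt_const.div (contDiffAt_const.mul h2.exp) ?_
    have := K.c0_pos
    positivity
  exact h3

/-- The differential equation of the inverse. -/
theorem hasDerivAt_U {x : ℝ} (h0 : 0 < x) (h1 : x < 1) : 
    HasDerivAt K.U (2 * K.U x / (K.n * K.h (K.U x) * x)) x := by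
  obtain ⟨u0, u1, u2⟩ := K.U_spec h0.le h1
  have hU := K.U_pos h0 h1
  refine (K.contDiffAt_U h0.le h1).2.congr_deriv ?_
  have hc := K.c0_pos
  have hE := Real.exp_pos (K.EE (K.U x))
  have hh := K.h_pos u0 u1
  have hn := K.nR_pos
  have e : x = K.c0 * K.U x * Real.exp (K.EE (K.U x)) := by nth_rw 1 [← u2]; rw [N_def]
  have e2 : 2 * K.U x / (K.n * K.h (K.U x) * x) = 2 * K.U x / (K.n * K.h (K.U x) * 
      (K.c0 * K.U x * Real.exp (K.EE (K.U x)))) := by rw [← e]
  rw [e2]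
  field_simp

end Cap

end Pool.Agent.Lib.MP_d2b992_gt.Erg
end

section
/-!
# The metric

The conformal factor of the metric of the unit sphere. The variables are `S` (the sine of the
colatitude of the first cap), and `r = 2 ν / (1 + x₂)`, whose value is `|w|`; the caps are `S < 12/13`
and `r < 1/25`.
-/
namespace Pool.Agent.Lib.MP_d2b992_gt.Erg

open Set Filter Topology
open scoped ContDiff InnerProductSpace

/-- The two caps of the construction. -/
structure Caps where
  P : Cap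
  Q : Cap
  Pn : P.n = 1
  Pa : P.a = 12 / 13
  Qn : Q.n = 4
  Qa : Q.a = 5 / 13

noncomputable def nu (x : R3) : ℝ := √(x 1 ^ 2 + x 2 ^ 2)

noncomputable def SS (x : R3) : ℝ := (1 - x 2) / (1 + x 2 + 2 * nu x)

noncomputable def WW (x : R3) : ℝ := 4 * (x 1 ^ 2 + x 2 ^ 2) / (1 + x 2) ^ 2

namespace Caps

variable (C : Caps)

/-- The function `sin φ ^ 2 / S` of the first cap. -/
noncomputable def om (S : ℝ) : ℝ := C.P.kap (S / (1 + √(1 - S ^ 2))) / (1 + √(1 - S ^ 2))

/-- The formula of the conformal factor in the first cap. -/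
noncomputable def lamP (x : R3) : ℝ := 2 * C.om (SS x) / (nu x * (1 + x 2 + 2 * nu x))

/-- The formula of the conformal factor in the second caps. -/
noncomputable def lamQ (x : R3) : ℝ := (1 - x 2) * C.Q.kap (WW x) / (1 + x 2) ^ 3

end Caps

/-- The formula of the conformal factor in the round region. -/
noncomputable def lam1 (x : R3) : ℝ := 2 * (1 - x 2) / (nu x * (1 + x 2 + 2 * nu x) ^ 2)

namespace Caps

variable (C : Caps)

open Classical in
/-- The conformal factor of the metric. -/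
noncomputable def lam (x : R3) : ℝ := 
  if SS x < 12 / 13 then C.lamP x else if 2 * nu x < 1 / 25 * (1 + x 2) then C.lamQ x else lam1 x

end Caps

theorem nu_nonneg (x : R3) : 0 ≤ nu x := Real.sqrt_nonneg _

theorem nu_sq (x : R3) : nu x ^ 2 = x 1 ^ 2 + x 2 ^ 2 := Real.sq_sqrt (by positivity)

theorem abs_le_nu (x : R3) : |x 2| ≤ nu x := by
  unfold nu
  rw [← Real.sqrt_sq_eq_abs]
  exact Real.sqrt_le_sqrt (by nlinarith [sq_nonneg (x 1)])

theorem den_pos (x : R3) : 1 ≤ 1 + x 2 + 2 * nu x := by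
  have h1 := abs_le_nu x
  have h2 := neg_abs_le (x 2)
  have h3 := nu_nonneg x
  linarith

theorem continuous_nu : Continuous nu := by
  unfold nu
  fun_prop

theorem continuous_SS : Continuous SS := by
  unfold SS
  have := continuous_nu
  refine Continuous.div (by fun_prop) (by fun_prop) fun x => ?_
  linarith [den_pos x]

theorem sphere_le {x : R3} (hx : ‖x‖ = 1) : x 2 ≤ 1 ∧ -1 ≤ x 2 ∧ nu x ≤ 1 := by
  have h1 : x 0 ^ 2 + x 1 ^ 2 + x 2 ^ 2 = 1 := by
    have h := EuclideanSpace.norm_sq_eq x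
    rw [hx, Fin.sum_univ_three] at h
    simp only [Real.norm_eq_abs, sq_abs] at h
    linarith
  have h2 := nu_sq x
  have h3 := nu_nonneg x
  refine ⟨by nlinarith [sq_nonneg (x 0), sq_nonneg (x 1)], 
    by nlinarith [sq_nonneg (x 0), sq_nonneg (x 1)], ?_⟩
  nlinarith [sq_nonneg (x 0)]

theorem contDiffAt_nu {x : R3} (hx : 0 < nu x) : ContDiffAt ℝ ∞ nu x := by
  have h : x 1 ^ 2 + x 2 ^ 2 ≠ 0 := by
    rw [← nu_sq]; positivity
  have h3 : ContDiffAt ℝ ∞ (fun y : R3 => y 1 ^ 2 + y 2 ^ 2) x := by fun_prop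
  exact h3.sqrt h

theorem contDiffAt_SS {x : R3} (hx : 0 < nu x) : ContDiffAt ℝ ∞ SS x := by
  have h := contDiffAt_nu hx
  have h3 : ContDiffAt ℝ ∞ (fun y : R3 => y 2) x := by fun_prop
  exact (contDiffAt_const.sub h3).div ((contDiffAt_const.add h3).add (contDiffAt_const.mul h)) 
    (by linarith [den_pos x])

theorem contDiffAt_WW {x : R3} (hx : 0 < 1 + x 2) : ContDiffAt ℝ ∞ WW x := by
  have h3 : ContDiffAt ℝ ∞ (fun y : R3 => 4 * (y 1 ^ 2 + y 2 ^ 2)) x := by fun_prop
  have h4 : ContDiffAt ℝ ∞ (fun y : R3 => (1 + y 2) ^ 2) x := by fun_prop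
  exact h3.div h4 (by positivity)

theorem contDiffAt_lam1 {x : R3} (hx : 0 < nu x) : ContDiffAt ℝ ∞ lam1 x := by
  have h := contDiffAt_nu hx
  have h3 : ContDiffAt ℝ ∞ (fun y : R3 => y 2) x := by fun_prop
  refine (contDiffAt_const.mul (contDiffAt_const.sub h3)).div (h.mul 
    (((contDiffAt_const.add h3).add (contDiffAt_const.mul h)).pow 2)) ?_
  have := den_pos x
  positivity

/-- If `S < 12/13` then `r > 1/25`: the caps are disjoint. -/
theorem disj {x : R3} (h : SS x < 12 / 13) : 1 / 25 * (1 + x 2) < 2 * nu x := by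
  have h1 := den_pos x
  unfold SS at h
  rw [div_lt_iff₀ (by linarith)] at h
  have h2 := abs_le_nu x
  have h3 := le_abs_self (x 2)
  nlinarith

theorem disj' {x : R3} (h : SS x ≤ 12 / 13) : 1 / 25 * (1 + x 2) ≤ 2 * nu x := by
  have h1 := den_pos x
  unfold SS at h
  rw [div_le_iff₀ (by linarith)] at h
  have h2 := abs_le_nu x
  have h3 := le_abs_self (x 2)
  nlinarith

theorem nu_pos_of_SS {x : R3} (h : SS x ≤ 12 / 13) : 0 < nu x := by
  rcases (nu_nonneg x).eq_or_lt with h1 | h1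
  · exfalso
    have h2 : x 2 = 0 := by
      have := abs_le_nu x
      rw [← h1] at this
      exact abs_eq_zero.1 (le_antisymm this (abs_nonneg _))
    unfold SS at h
    rw [← h1, h2] at h
    norm_num at h
  · exact h1

/-- The change of variables in the first cap. -/
theorem var_P {S : ℝ} (h0 : 0 ≤ S) (h1 : S < 1) : 0 ≤ S / (1 + √(1 - S ^ 2)) ∧ 
    S / (1 + √(1 - S ^ 2)) < 1 := by
  have h2 : 0 ≤ √(1 - S ^ 2) := Real.sqrt_nonneg _
  refine ⟨by positivity, ?_⟩
  rw [div_lt_one (by positivity)]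
  linarith

theorem var_P' {S : ℝ} (h0 : 0 ≤ S) (h1 : S < 1) : 
    2 * (S / (1 + √(1 - S ^ 2))) / (1 + (S / (1 + √(1 - S ^ 2))) ^ 2) = S := by
  have h2 : 0 ≤ √(1 - S ^ 2) := Real.sqrt_nonneg _
  have h3 : √(1 - S ^ 2) ^ 2 = 1 - S ^ 2 := Real.sq_sqrt (by nlinarith)
  set r := √(1 - S ^ 2)
  have h4 : 0 < 1 + r := by positivity
  have h5 : S ^ 2 = 1 - r ^ 2 := by linarith
  have h6 : 1 + (S / (1 + r)) ^ 2 = 2 / (1 + r) := by
    rw [div_pow, h5]
    field_simp
    ring
  rw [h6]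
  field_simp

theorem contDiffAt_sqrt_one_sub_sq {S : ℝ} (h0 : -1 < S) (h1 : S < 1) : 
    ContDiffAt ℝ ∞ (fun v => √(1 - v ^ 2)) S := 
  (contDiffAt_const.sub (contDiffAt_id.pow 2)).sqrt (by simp; nlinarith)

namespace Caps

variable (C : Caps)

theorem contDiffAt_om {S : ℝ} (h0 : 0 ≤ S) (h1 : S < 1) : ContDiffAt ℝ ∞ C.om S := by
  have h2 := contDiffAt_sqrt_one_sub_sq (by linarith : -1 < S) h1
  have h3 : 0 ≤ √(1 - S ^ 2) := Real.sqrt_nonneg _
  obtain ⟨h4, h5⟩ := var_P h0 h1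
  have h6 : ContDiffAt ℝ ∞ (fun S : ℝ => S / (1 + √(1 - S ^ 2))) S := 
    contDiffAt_id.div (contDiffAt_const.add h2) (by positivity)
  have h7 : ContDiffAt ℝ ∞ (fun S : ℝ => C.P.kap (S / (1 + √(1 - S ^ 2)))) S := 
    ContDiffAt.comp (g := C.P.kap) S (C.P.contDiffAt_kap h4 h5) h6
  exact h7.div (contDiffAt_const.add h2) (by positivity)

theorem om_pos (S : ℝ) : 0 < C.om S := by
  unfold om
  have h3 : 0 ≤ √(1 - S ^ 2) := Real.sqrt_nonneg _
  have := C.P.kap_pos (S / (1 + √(1 - S ^ 2)))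
  positivity

/-- The relation with the inverse conformal coordinate. -/
theorem om_mul {S : ℝ} (h0 : 0 ≤ S) (h1 : S < 1) : 
    S * C.om S = C.P.U (S / (1 + √(1 - S ^ 2))) := by
  obtain ⟨h4, h5⟩ := var_P h0 h1
  rw [C.P.U_eq_mul_kap h4 h5]
  unfold om
  ring

theorem om_eq {S : ℝ} (h0 : 12 / 13 ≤ S) (h1 : S < 1) : C.om S = S := by
  have h00 : 0 ≤ S := by linarith
  have h2 := C.om_mul h00 h1
  obtain ⟨h4, h5⟩ := var_P h00 h1
  have h6 := var_P' h00 h1
  have h7 : 0 < S / (1 + √(1 - S ^ 2)) := by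
    have : 0 ≤ √(1 - S ^ 2) := Real.sqrt_nonneg _
    have : 0 < S := by linarith
    positivity
  have h8 := C.P.U_expl h7 h5 (by rw [h6, C.Pa]; nlinarith)
  rw [C.Pn, pow_one, h6] at h8
  rw [h8] at h2
  have h9 : S ≠ 0 := by linarith
  have h10 : S * (C.om S - S) = 0 := by linear_combination h2
  rcases mul_eq_zero.1 h10 with h | h
  · exact absurd h h9
  · linarith

theorem contDiffAt_lamP {x : R3} (h : 0 < nu x) (h0 : 0 ≤ SS x) (h1 : SS x < 1) : 
    ContDiffAt ℝ ∞ C.lamP x := by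
  have h2 := contDiffAt_nu h
  have h3 := contDiffAt_SS h
  have h4 : ContDiffAt ℝ ∞ (fun y : R3 => y 2) x := by fun_prop
  have h5 : ContDiffAt ℝ ∞ (fun y : R3 => C.om (SS y)) x := 
    ContDiffAt.comp (g := C.om) x (C.contDiffAt_om h0 h1) h3
  refine (contDiffAt_const.mul h5).div (h2.mul 
    ((contDiffAt_const.add h4).add (contDiffAt_const.mul h2))) ?_
  have := den_pos x
  positivity

/-- The formula of the first cap is the round one for `S ≥ 12 / 13`. -/
theorem lamP_eq {x : R3} (h0 : 12 / 13 ≤ SS x) (h1 : SS x < 1) : C.lamP x = lam1 x := by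
  unfold lamP lam1
  rw [C.om_eq h0 h1]
  have := den_pos x
  unfold SS
  rcases (nu_nonneg x).eq_or_lt with h | h
  · rw [← h]; simp
  · field_simp

theorem WW_eq (x : R3) : WW x = (2 * nu x / (1 + x 2)) ^ 2 := by
  unfold WW
  rw [div_pow, mul_pow, nu_sq]
  norm_num

theorem kapQ_eq {r : ℝ} (h0 : 1 / 25 ≤ r) (h1 : r < 1) : 
    C.Q.kap (r ^ 2) = 4 / (r * (1 + r) ^ 2) := by
  have hr : 0 < r := by linarith
  have hs : 0 < √r := Real.sqrt_pos.2 hr
  have hs1 : √r < 1 := by rw [Real.sqrt_lt' one_pos]; linarith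
  have hss : √r ^ 2 = r := Real.sq_sqrt hr.le
  have e1 : (2 * √r / (1 + √r ^ 2)) ^ 2 = 4 * r / (1 + r) ^ 2 := by
    rw [div_pow, mul_pow, hss]; norm_num
  have h2 := C.Q.U_expl hs hs1 (by 
    rw [e1, C.Qa, le_div_iff₀ (by positivity)]
    nlinarith)
  rw [e1, C.Qn] at h2
  have e2 : √r ^ 4 = r ^ 2 := by rw [show 4 = 2 * 2 from rfl, pow_mul, hss]
  rw [e2] at h2
  have h3 := C.Q.U_eq_mul_kap (x := r ^ 2) (by positivity) (by nlinarith)
  rw [h2] at h3
  field_simp at h3 ⊢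
  linarith

theorem lamQ_eq {x : R3} (h : 0 < 1 + x 2) (h0 : 1 / 25 * (1 + x 2) ≤ 2 * nu x) 
    (h1 : 2 * nu x < 1 + x 2) : C.lamQ x = lam1 x := by
  unfold lamQ lam1
  rw [WW_eq, C.kapQ_eq (by rw [le_div_iff₀ h]; linarith) (by rw [div_lt_one h]; exact h1)]
  have := den_pos x
  have h2 : 0 < nu x := by nlinarith
  have h3 : 1 + 2 * nu x / (1 + x 2) = (1 + x 2 + 2 * nu x) / (1 + x 2) := by field_simp
  rw [h3]
  field_simp
  norm_num

theorem contDiffAt_lamQ {x : R3} (h : 0 < 1 + x 2) (h0 : 2 * nu x < 1 + x 2) : 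
    ContDiffAt ℝ ∞ C.lamQ x := by
  have h1 := contDiffAt_WW h
  have h2 : 0 ≤ WW x := by rw [WW_eq]; positivity
  have h3 : WW x < 1 := by
    rw [WW_eq]
    have h4 := nu_nonneg x
    have : 2 * nu x / (1 + x 2) < 1 := by rw [div_lt_one h]; exact h0
    exact pow_lt_one₀ (by positivity) this two_ne_zero
  have h4 : ContDiffAt ℝ ∞ (fun y : R3 => C.Q.kap (WW y)) x := 
    ContDiffAt.comp (g := C.Q.kap) x (C.Q.contDiffAt_kap h2 h3) h1
  have h5 : ContDiffAt ℝ ∞ (fun y : R3 => 1 - y 2) x := by fun_prop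
  have h6 : ContDiffAt ℝ ∞ (fun y : R3 => (1 + y 2) ^ 3) x := by fun_prop
  exact (h5.mul h4).div h6 (by positivity)

theorem lam_of_P {x : R3} (h : SS x < 12 / 13) : C.lam x = C.lamP x := by
  unfold lam; rw [if_pos h]

theorem lam_of_Q {x : R3} (h : 2 * nu x < 1 / 25 * (1 + x 2)) : C.lam x = C.lamQ x := by
  unfold lam
  rw [if_neg, if_pos h]
  intro h2
  have := disj h2
  linarith

theorem lam_of_one {x : R3} (h : 12 / 13 ≤ SS x) (h2 : 1 / 25 * (1 + x 2) ≤ 2 * nu x) : 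
    C.lam x = lam1 x := by
  unfold lam
  rw [if_neg (not_lt.2 h), if_neg (not_lt.2 h2)]

theorem contDiffAt_lam {x : R3} (hx : ‖x‖ = 1) : ContDiffAt ℝ ∞ C.lam x := by
  obtain ⟨x1, x2, x3⟩ := sphere_le hx
  have hd := den_pos x
  have hS0 : 0 ≤ SS x := div_nonneg (by linarith) (by linarith)
  have cS := continuous_SS.continuousAt (x := x)
  have cn := continuous_nu.continuousAt (x := x)
  have c2 : ContinuousAt (fun y : R3 => y 2) x := by fun_prop
  have c3 : ContinuousAt (fun y : R3 => 2 * nu y) x := by fun_prop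
  have c4 : ContinuousAt (fun y : R3 => 1 / 25 * (1 + y 2)) x := by fun_prop
  have c5 : ContinuousAt (fun y : R3 => 1 + y 2) x := by fun_prop
  rcases lt_trichotomy (SS x) (12 / 13) with h | h | h
  · -- inside the first cap
    have h2 : C.lam =ᶠ[𝓝 x] C.lamP := by
      filter_upwards [cS.eventually (gt_mem_nhds h)] with y hy using C.lam_of_P hy
    exact (C.contDiffAt_lamP (nu_pos_of_SS h.le) hS0 (by linarith)).congr_of_eventuallyEq h2
  · -- on the boundary of the first cap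
    have hnu := nu_pos_of_SS h.le
    have hle := disj' h.le
    have hP := C.contDiffAt_lamP hnu hS0 (by linarith)
    have e1 : ∀ᶠ y in 𝓝 x, SS y < 1 := cS.eventually (gt_mem_nhds (by linarith))
    rcases hle.eq_or_lt with h2 | h2
    · -- the point of tangency
      have h3 : 0 < 1 + x 2 := by linarith
      have hQ := C.contDiffAt_lamQ h3 (by linarith)
      have h1 := contDiffAt_lam1 hnu
      have hx2 : x 2 < 1 := by
        by_contra h4
        push Not at h4
        have : x 2 = 1 := le_antisymm x1 h4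
        rw [SS, this] at h
        norm_num at h
      have hne : lam1 x ≠ 0 := by
        unfold lam1
        have : 0 < 1 - x 2 := by linarith
        positivity
      have e2 : ∀ᶠ y in 𝓝 x, 2 * nu y < 1 + y 2 := 
        c3.eventually_lt c5 (by linarith)
      have e3 : ∀ᶠ y in 𝓝 x, 0 < 1 + y 2 := c5.eventually (lt_mem_nhds h3)
      have e4 : ∀ᶠ y in 𝓝 x, lam1 y ≠ 0 := h1.continuousAt.eventually_ne hne
      have key : C.lam =ᶠ[𝓝 x] fun y => C.lamP y * C.lamQ y / lam1 y := by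
        filter_upwards [e1, e2, e3, e4] with y y1 y2 y3 y4
        rcases lt_or_ge (SS y) (12 / 13) with h5 | h5
        · rw [C.lam_of_P h5, C.lamQ_eq y3 (disj h5).le y2]
          field_simp
        · rw [C.lamP_eq h5 y1]
          rcases lt_or_ge (2 * nu y) (1 / 25 * (1 + y 2)) with h6 | h6
          · rw [C.lam_of_Q h6]
            field_simp
          · rw [C.lam_of_one h5 h6, C.lamQ_eq y3 h6 y2]
            field_simp
      exact ((hP.mul hQ).div h1 hne).congr_of_eventuallyEq key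
    · have e2 : ∀ᶠ y in 𝓝 x, 1 / 25 * (1 + y 2) < 2 * nu y := c4.eventually_lt c3 h2
      have key : C.lam =ᶠ[𝓝 x] C.lamP := by
        filter_upwards [e1, e2] with y y1 y2
        rcases lt_or_ge (SS y) (12 / 13) with h5 | h5
        · exact C.lam_of_P h5
        · rw [C.lam_of_one h5 y2.le, C.lamP_eq h5 y1]
      exact hP.congr_of_eventuallyEq key
  · -- outside of the first cap
    have e1 : ∀ᶠ y in 𝓝 x, 12 / 13 < SS y := cS.eventually (lt_mem_nhds h)
    rcases lt_trichotomy (2 * nu x) (1 / 25 * (1 + x 2)) with h2 | h2 | h2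
    · have h0 := nu_nonneg x
      have key : C.lam =ᶠ[𝓝 x] C.lamQ := by
        filter_upwards [c3.eventually_lt c4 h2] with y hy using C.lam_of_Q hy
      exact (C.contDiffAt_lamQ (by linarith) (by linarith)).congr_of_eventuallyEq key
    · have hx2 : 0 < 1 + x 2 := by
        by_contra h3
        push Not at h3
        have h4 : x 2 = -1 := by linarith
        have h5 := abs_le_nu x
        rw [h4] at h2 h5
        norm_num at h2 h5
        linarith
      have e2 : ∀ᶠ y in 𝓝 x, 2 * nu y < 1 + y 2 := c3.eventually_lt c5 (by linarith)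
      have e3 : ∀ᶠ y in 𝓝 x, 0 < 1 + y 2 := c5.eventually (lt_mem_nhds hx2)
      have key : C.lam =ᶠ[𝓝 x] C.lamQ := by
        filter_upwards [e1, e2, e3] with y y1 y2 y3
        rcases lt_or_ge (2 * nu y) (1 / 25 * (1 + y 2)) with h6 | h6
        · exact C.lam_of_Q h6
        · rw [C.lam_of_one y1.le h6, C.lamQ_eq y3 h6 y2]
      exact (C.contDiffAt_lamQ hx2 (by linarith)).congr_of_eventuallyEq key
    · have hnu : 0 < nu x := by linarith
      have key : C.lam =ᶠ[𝓝 x] lam1 := by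
        filter_upwards [e1, c4.eventually_lt c3 h2] with y y1 y2 using C.lam_of_one y1.le y2.le
      exact (contDiffAt_lam1 hnu).congr_of_eventuallyEq key

theorem lam_pos {x : R3} (hx : ‖x‖ = 1) : 0 < C.lam x := by
  obtain ⟨x1, x2, x3⟩ := sphere_le hx
  have hd := den_pos x
  rcases lt_or_ge (SS x) (12 / 13) with h | h
  · rw [C.lam_of_P h]
    have h1 := nu_pos_of_SS h.le
    have h2 := C.om_pos (SS x)
    unfold lamP
    positivity
  · have hx2 : 0 < 1 - x 2 := by
      by_contra h4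
      push Not at h4
      have : x 2 = 1 := le_antisymm x1 (by linarith)
      rw [SS, this] at h
      norm_num at h
    rcases lt_or_ge (2 * nu x) (1 / 25 * (1 + x 2)) with h2 | h2
    · rw [C.lam_of_Q h2]
      have h0 := nu_nonneg x
      have h3 : 0 < 1 + x 2 := by linarith
      have h4 := C.Q.kap_pos (WW x)
      unfold lamQ
      positivity
    · rw [C.lam_of_one h h2]
      have hnu : 0 < nu x := by
        by_contra h3
        have h4 : nu x = 0 := le_antisymm (not_lt.1 h3) (nu_nonneg x)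
        have h5 := abs_le_nu x
        rw [h4] at h5 h2
        have h6 : x 2 = 0 := abs_eq_zero.1 (le_antisymm h5 (abs_nonneg _))
        rw [h6] at h2
        norm_num at h2
      unfold lam1
      positivity

/-- **The metric.** -/
noncomputable def metric : SphereMetric where
  g x v w := C.lam x * ⟪v, w⟫_ℝ
  add x u v w := by rw [inner_add_left]; ring
  smul x a v w := by rw [real_inner_smul_left]; ring
  symm x v w := by rw [real_inner_comm]
  smooth v w x hx := (C.contDiffAt_lam hx).mul contDiffAt_const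
  pos x v hx _ hv := mul_pos (C.lam_pos hx) (real_inner_self_pos.2 hv)

@[simp] theorem metric_g (x v w : R3) : C.metric.g x v w = C.lam x * ⟪v, w⟫_ℝ := rfl

end Caps

end Pool.Agent.Lib.MP_d2b992_gt.Erg
end
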