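import Pool.Agent.Lib.MP_d2b992_gt.Erg.Lam

/-!
# The conformal radial coordinate as a function of the colatitude
-/

namespace Pool.Agent.Lib.MP_d2b992_gt.Erg

open Set Filter Topology MeasureTheory Real
open scoped ContDiff

namespace Cap

variable (K : Cap)

theorem sin_sq_lt_one {φ : ℝ} (h : cos φ ≠ 0) : sin φ ^ 2 < 1 := by
  have := sin_sq_add_cos_sq φ
  have : 0 < cos φ ^ 2 := by positivity
  linarith

theorem sqrt_one_sub_sin_sq (φ : ℝ) : √(1 - sin φ ^ 2) = |cos φ| := by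
  have : 1 - sin φ ^ 2 = cos φ ^ 2 := by have := sin_sq_add_cos_sq φ; linarith
  rw [this, sqrt_sq_eq_abs]

/-- The relation of `psi` and `h`. -/
theorem psi_eq {φ : ℝ} (h : cos φ ≠ 0) : K.psi φ = |cos φ| * K.h (sin φ ^ 2) := by
  unfold psi Cap.h
  rw [sqrt_one_sub_sin_sq]
  have : 0 < |cos φ| := abs_pos.2 h
  field_simp

theorem psi_eq_one {φ : ℝ} (h : K.a ^ 2 ≤ sin φ ^ 2) : K.psi φ = 1 := by
  unfold psi
  rw [K.D_eq_zero h]
  ring

theorem psi_of_cos_zero {φ : ℝ} (h : cos φ = 0) : K.psi φ = 1 := by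
  unfold psi; rw [h]; simp

theorem psi_pos (φ : ℝ) : 0 < K.psi φ := by
  by_cases h : cos φ = 0
  · rw [K.psi_of_cos_zero h]; exact one_pos
  · rw [K.psi_eq h]
    exact mul_pos (abs_pos.2 h) (K.h_pos (sq_nonneg _) (sin_sq_lt_one h))

theorem contDiff_psi : ContDiff ℝ ∞ K.psi := by
  rw [contDiff_iff_contDiffAt]
  intro φ
  by_cases h : cos φ = 0
  · have h1 : sin φ ^ 2 = 1 := by have := sin_sq_add_cos_sq φ; rw [h] at this; linarith
    have h2 : ∀ᶠ t in 𝓝 φ, K.a ^ 2 < sin t ^ 2 := by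
      have hc : Continuous fun t : ℝ => sin t ^ 2 := by fun_prop
      exact hc.continuousAt.eventually (lt_mem_nhds (by simp only [h1]; exact K.a_sq_lt))
    have h3 : K.psi =ᶠ[𝓝 φ] fun _ => 1 := by
      filter_upwards [h2] with t ht using K.psi_eq_one ht.le
    exact contDiffAt_const.congr_of_eventuallyEq h3
  · have h1 : ContDiffAt ℝ ∞ (fun t => |cos t|) φ := (contDiffAt_abs h).comp φ contDiff_cos.contDiffAt
    have h2 : ContDiff ℝ ∞ (fun t => K.D (sin t ^ 2)) := K.contDiff_D.comp (contDiff_sin.pow 2)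
    exact contDiffAt_const.add (h1.mul h2.contDiffAt)

theorem psi_pi_sub (φ : ℝ) : K.psi (π - φ) = K.psi φ := by
  unfold psi
  rw [cos_pi_sub, sin_pi_sub, abs_neg]

/-- The logarithm of the radial conformal coordinate. -/
noncomputable def rho (φ : ℝ) : ℝ := ∫ t in (π / 2)..φ, K.psi t / sin t

theorem sin_pos' {φ : ℝ} (h : φ ∈ Ioo 0 π) : 0 < sin φ := sin_pos_of_pos_of_lt_pi h.1 h.2

theorem half_mem : π / 2 ∈ Ioo 0 π := ⟨by positivity, by linarith [pi_pos]⟩

theorem continuousOn_psi_div : ContinuousOn (fun t => K.psi t / sin t) (Ioo 0 π) := by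
  intro t ht
  exact (K.contDiff_psi.continuous.continuousAt.div continuous_sin.continuousAt 
    (sin_pos' ht).ne').continuousWithinAt

theorem hasDerivAt_rho {φ : ℝ} (h : φ ∈ Ioo 0 π) : HasDerivAt K.rho (K.psi φ / sin φ) φ := by
  have hi : IntervalIntegrable (fun t => K.psi t / sin t) volume (π / 2) φ := by
    apply ContinuousOn.intervalIntegrable
    apply K.continuousOn_psi_div.mono
    intro t ht
    rw [uIcc, mem_Icc] at ht
    exact ⟨lt_of_lt_of_le (lt_min half_mem.1 h.1) ht.1, lt_of_le_of_lt ht.2 (max_lt half_mem.2 h.2)⟩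
  refine intervalIntegral.integral_hasDerivAt_right hi ?_ 
    (K.continuousOn_psi_div.continuousAt (isOpen_Ioo.mem_nhds h))
  exact K.continuousOn_psi_div.stronglyMeasurableAtFilter isOpen_Ioo φ h

theorem contDiffAt_rho {φ : ℝ} (h : φ ∈ Ioo 0 π) : ContDiffAt ℝ ∞ K.rho φ := by
  have h1 : ContDiffOn ℝ ∞ K.rho (Ioo 0 π) := by
    rw [contDiffOn_infty_iff_deriv_of_isOpen isOpen_Ioo]
    refine ⟨fun t ht => (K.hasDerivAt_rho ht).differentiableAt.differentiableWithinAt, ?_⟩
    have h2 : ContDiffOn ℝ ∞ (fun t => K.psi t / sin t) (Ioo 0 π) := 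
      K.contDiff_psi.contDiffOn.div contDiff_sin.contDiffOn fun t ht => (sin_pos' ht).ne'
    exact h2.congr fun t ht => (K.hasDerivAt_rho ht).deriv
  exact h1.contDiffAt (isOpen_Ioo.mem_nhds h)

@[simp] theorem rho_half : K.rho (π / 2) = 0 := by simp [rho]

theorem rho_pi_sub (φ : ℝ) : K.rho (π - φ) = -K.rho φ := by
  unfold rho
  have h1 := intervalIntegral.integral_comp_sub_left (a := π / 2) (b := φ) 
    (fun t => K.psi t / sin t) π
  have h2 : (fun t => K.psi (π - t) / sin (π - t)) = fun t => K.psi t / sin t := by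
    funext t
    rw [psi_pi_sub, sin_pi_sub]
  simp only [h2] at h1
  have h3 : π - π / 2 = π / 2 := by ring
  rw [h3] at h1
  rw [h1, intervalIntegral.integral_symm]

theorem rho_strictMono : StrictMonoOn K.rho (Ioo 0 π) := by
  apply strictMonoOn_of_deriv_pos (convex_Ioo 0 π)
  · intro t ht; exact (K.hasDerivAt_rho ht).continuousAt.continuousWithinAt
  · intro t ht
    rw [interior_Ioo] at ht
    rw [(K.hasDerivAt_rho ht).deriv]
    exact div_pos (K.psi_pos t) (sin_pos' ht)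

/-- The radial conformal coordinate in terms of the colatitude. -/
theorem N_sin {φ : ℝ} (h0 : 0 < φ) (h1 : φ < π / 2) : K.N (sin φ ^ 2) = exp (K.n * K.rho φ) := by
  have hc : ∀ t, 0 < t → t < π / 2 → 0 < cos t := fun t h0 h1 => 
    cos_pos_of_mem_Ioo ⟨by linarith, h1⟩
  have hs : ∀ t, 0 < t → t < π / 2 → 0 < sin t := fun t h0 h1 => 
    sin_pos_of_pos_of_lt_pi h0 (by linarith [pi_pos])
  have hlt : ∀ t, 0 < t → t < π / 2 → sin t ^ 2 < 1 := fun t h0 h1 => 
    sin_sq_lt_one (hc t h0 h1).ne'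
  set f : ℝ → ℝ := fun t => log (K.N (sin t ^ 2)) - K.n * K.rho t with hf
  have hder : ∀ t, 0 < t → t < π / 2 → HasDerivAt f 0 t := by
    intro t h0 h1
    have hst := hs t h0 h1
    have hct := hc t h0 h1
    have hl := hlt t h0 h1
    have e1 : HasDerivAt (fun t => sin t ^ 2) (2 * sin t * cos t) t := by
      exact ((hasDerivAt_sin t).pow 2).congr_deriv (by simp)
    have hN : 0 < K.N (sin t ^ 2) := K.N_pos (by positivity)
    have e2 := (HasDerivAt.comp (h₂ := K.N) t (K.hasDerivAt_N hl) e1).log hN.ne'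
    have e3 := e2.sub ((K.hasDerivAt_rho ⟨h0, by linarith [pi_pos]⟩).const_mul (K.n:ℝ))
    refine e3.congr_deriv ?_
    have hN2 : K.N (sin t ^ 2) = K.c0 * sin t ^ 2 * exp (K.EE (sin t ^ 2)) := K.N_def _
    simp only [Function.comp_apply]
    rw [hN2, K.psi_eq hct.ne', abs_of_pos hct]
    have := K.c0_pos
    have := exp_pos (K.EE (sin t ^ 2))
    field_simp
    ring
  -- the value at a point of the round region
  obtain ⟨R0, hR0, hR1⟩ : ∃ R0 : ℝ, 0 < R0 ∧ R0 < 1 := ⟨1 / 2, by norm_num, by norm_num⟩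
  have hlim : Tendsto f (𝓝[<] (π / 2)) (𝓝 0) := by
    have h2 : ∀ᶠ t in 𝓝[<] (π / 2), f t = log (sin t / (1 + cos t)) * K.n - K.n * K.rho t := by
      have hc1 : Continuous fun t : ℝ => sin t ^ 2 := by fun_prop
      have h3 : ∀ᶠ t in 𝓝 (π / 2), K.a ^ 2 < sin t ^ 2 := 
        hc1.continuousAt.eventually (lt_mem_nhds (by simp only [sin_pi_div_two, one_pow]; exact K.a_sq_lt))
      have h4 : ∀ᶠ t in 𝓝 (π / 2), 0 < t := lt_mem_nhds (by positivity)
      filter_upwards [nhdsWithin_le_nhds h3, nhdsWithin_le_nhds h4, self_mem_nhdsWithin] 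
        with t a b c
      have hst := hs t b c
      have hct := hc t b c
      simp only [hf]
      rw [K.N_eq a.le (hlt t b c), sqrt_one_sub_sin_sq, abs_of_pos hct, sqrt_sq hst.le, log_pow]
      ring
    have h3 : ContinuousAt (fun t => log (sin t / (1 + cos t)) * K.n - K.n * K.rho t) (π / 2) := by
      have h4 : ContinuousAt K.rho (π / 2) := (K.hasDerivAt_rho half_mem).continuousAt
      have h5 : ContinuousAt (fun t : ℝ => sin t / (1 + cos t)) (π / 2) := by
        refine ContinuousAt.div (by fun_prop) (by fun_prop) (by simp)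
      exact ((h5.log (by simp)).mul continuousAt_const).sub (continuousAt_const.mul h4)
    have h4 : Tendsto (fun t => log (sin t / (1 + cos t)) * K.n - K.n * K.rho t) (𝓝[<] (π / 2)) 
        (𝓝 0) := by
      have := h3.tendsto.mono_left (nhdsWithin_le_nhds (s := Iio (π / 2)))
      simpa using this
    exact h4.congr' (h2.mono fun t ht => ht.symm)
  have hconst : ∀ t ∈ Ioo 0 (π / 2), f t = f φ := by
    intro t ht
    have hpre : IsPreconnected (Ioo 0 (π / 2)) := isPreconnected_Ioo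
    exact IsOpen.is_const_of_deriv_eq_zero isOpen_Ioo hpre 
      (fun s hs => (hder s hs.1 hs.2).differentiableAt.differentiableWithinAt) 
      (fun s hs => (hder s hs.1 hs.2).deriv) ht ⟨h0, h1⟩
  have h5 : Tendsto f (𝓝[<] (π / 2)) (𝓝 (f φ)) := by
    apply tendsto_const_nhds.congr'
    have h4 : ∀ᶠ t in 𝓝 (π / 2), 0 < t := lt_mem_nhds (by positivity)
    filter_upwards [nhdsWithin_le_nhds h4, self_mem_nhdsWithin] with t a b
    exact (hconst t ⟨a, b⟩).symm
  have h6 : f φ = 0 := tendsto_nhds_unique h5 hlim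
  have h7 : 0 < K.N (sin φ ^ 2) := K.N_pos (by have := hs φ h0 h1; positivity)
  rw [← exp_log h7]
  congr 1
  simp only [hf] at h6
  linarith

theorem rho_neg {φ : ℝ} (h0 : 0 < φ) (h1 : φ < π / 2) : K.rho φ < 0 := by
  have := K.rho_strictMono ⟨h0, by linarith [pi_pos]⟩ half_mem h1
  rwa [rho_half] at this

/-- The inverse relation. -/
theorem U_exp_rho {φ : ℝ} (h : φ ∈ Ioo 0 π) : K.U (exp (-(K.n * |K.rho φ|))) = sin φ ^ 2 := by
  have key : ∀ φ, 0 < φ → φ < π / 2 → K.U (exp (-(K.n * |K.rho φ|))) = sin φ ^ 2 := by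
    intro φ h0 h1
    have h2 := K.rho_neg h0 h1
    have h3 : 0 < cos φ := cos_pos_of_mem_Ioo ⟨by linarith, h1⟩
    rw [abs_of_neg h2, mul_neg, neg_neg, ← K.N_sin h0 h1]
    exact K.U_N' (sq_nonneg _) (sin_sq_lt_one h3.ne')
  rcases lt_trichotomy φ (π / 2) with h1 | h1 | h1
  · exact key φ h.1 h1
  · rw [h1, rho_half, abs_zero, mul_zero, neg_zero, exp_zero, K.U_of_ge le_rfl, sin_pi_div_two]
    norm_num
  · have h2 := key (π - φ) (by linarith [h.2]) (by linarith)
    rwa [rho_pi_sub, abs_neg, sin_pi_sub] at h2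

end Cap

end Pool.Agent.Lib.MP_d2b992_gt.Erg
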