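import Mathlib
import Pool.Agent.Lib.MP_d2b992_gt.Defs
import Pool.Agent.Lib.MP_d2b992_gt.Erg.Rho
import Pool.Agent.Lib.MP_d2b992_gt.Erg.Lam

section
/-!
# The hedgehog family of great circles and the vector field `V`
-/
namespace Pool.Agent.Lib.MP_d2b992_gt

open Set Filter Topology Real
open scoped InnerProductSpace ContDiff

/-- Euclidean three-space. -/
abbrev E3 : Type := EuclideanSpace ℝ (Fin 3)

/-- The vector with given coordinates. -/
def vec (a b c : ℝ) : E3 := !₂[a, b, c]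

@[simp] theorem vec_zero' (a b c : ℝ) : vec a b c 0 = a := rfl
@[simp] theorem vec_one' (a b c : ℝ) : vec a b c 1 = b := rfl
@[simp] theorem vec_two' (a b c : ℝ) : vec a b c 2 = c := rfl

theorem ext3 {x y : E3} (h0 : x 0 = y 0) (h1 : x 1 = y 1) (h2 : x 2 = y 2) : x = y := by
  ext i
  fin_cases i
  · exact h0
  · exact h1
  · exact h2

theorem inner3 (x y : E3) : ⟪x, y⟫_ℝ = x 0 * y 0 + x 1 * y 1 + x 2 * y 2 := by
  rw [PiLp.inner_apply]
  simp [Fin.sum_univ_three]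
  ring

theorem normsq3 (x : E3) : ‖x‖ ^ 2 = x 0 ^ 2 + x 1 ^ 2 + x 2 ^ 2 := by
  rw [← real_inner_self_eq_norm_sq, inner3]
  ring

theorem vec_eq (a b c : ℝ) : vec a b c = a • vec 1 0 0 + b • vec 0 1 0 + c • vec 0 0 1 := by
  apply ext3 <;> simp

theorem hasDerivAt_vec {a b c : ℝ → ℝ} {a' b' c' t : ℝ} (ha : HasDerivAt a a' t)
    (hb : HasDerivAt b b' t) (hc : HasDerivAt c c' t) :
    HasDerivAt (fun s => vec (a s) (b s) (c s)) (vec a' b' c') t := by
  have h : (fun s => vec (a s) (b s) (c s)) = 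
      fun s => a s • vec 1 0 0 + b s • vec 0 1 0 + c s • vec 0 0 1 := by
    funext s
    exact vec_eq _ _ _
  rw [h, vec_eq a' b' c']
  exact ((ha.smul_const _).add (hb.smul_const _)).add (hc.smul_const _)

theorem contDiff_vec {E : Type*} [NormedAddCommGroup E] [NormedSpace ℝ E] {n : WithTop ℕ∞}
    {a b c : E → ℝ} (ha : ContDiff ℝ n a)
    (hb : ContDiff ℝ n b) (hc : ContDiff ℝ n c) :
    ContDiff ℝ n (fun s => vec (a s) (b s) (c s)) := by
  have h : (fun s => vec (a s) (b s) (c s)) = 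
      fun s => a s • vec 1 0 0 + b s • vec 0 1 0 + c s • vec 0 0 1 := by
    funext s
    exact vec_eq _ _ _
  rw [h]
  exact ((ha.smul contDiff_const).add (hb.smul contDiff_const)).add (hc.smul contDiff_const)

/-- The latitude of the pole of the great circle with label `φ`. -/
noncomputable def bet (φ : ℝ) : ℝ := 1 / 8 + 1 / 4 * cos (3 * φ)
/-- Its derivative. -/
noncomputable def bet' (φ : ℝ) : ℝ := -(3 / 4) * sin (3 * φ)

/-- pole of the great circle -/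
noncomputable def nn (φ : ℝ) : E3 := vec (cos (bet φ) * cos φ) (cos (bet φ) * sin φ) (sin (bet φ))
/-- equator crossing -/
noncomputable def aa (φ : ℝ) : E3 := vec (-sin φ) (cos φ) 0
/-- direction at the equator crossing -/
noncomputable def bb (φ : ℝ) : E3 := 
  vec (-(sin (bet φ) * cos φ)) (-(sin (bet φ) * sin φ)) (cos (bet φ))

/-- The great circle with label `φ`. -/
noncomputable def xx (φ t : ℝ) : E3 := cos t • aa φ + sin t • bb φ
/-- Its velocity. -/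
noncomputable def xt (φ t : ℝ) : E3 := -sin t • aa φ + cos t • bb φ
/-- The Jacobian. -/
noncomputable def DD (φ t : ℝ) : ℝ := cos (bet φ) * cos t + bet' φ * sin t

theorem hasDerivAt_bet (φ : ℝ) : HasDerivAt bet (bet' φ) φ := by
  have h1 : HasDerivAt (fun φ : ℝ => 3 * φ) 3 φ := by
    simpa using (hasDerivAt_id φ).const_mul 3
  have h2 := ((hasDerivAt_cos (3 * φ)).comp φ h1).const_mul (1 / 4)
  have h3 := h2.const_add (1 / 8)
  have e : bet' φ = 1 / 4 * (-sin (3 * φ) * 3) := by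
    unfold bet'
    ring
  rw [e]
  exact h3

theorem contDiff_bet : ContDiff ℝ ∞ bet := by
  unfold bet
  fun_prop

theorem contDiff_bet' : ContDiff ℝ ∞ bet' := by
  unfold bet'
  fun_prop

theorem contDiff_nn : ContDiff ℝ ∞ nn := by
  have := contDiff_bet
  exact contDiff_vec (by fun_prop) (by fun_prop) (by fun_prop)

theorem contDiff_aa : ContDiff ℝ ∞ aa := 
  contDiff_vec (by fun_prop) (by fun_prop) (by fun_prop)

theorem contDiff_bb : ContDiff ℝ ∞ bb := by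
  have := contDiff_bet
  exact contDiff_vec (by fun_prop) (by fun_prop) (by fun_prop)

theorem hasDerivAt_aa (φ : ℝ) : 
    HasDerivAt aa (-cos (bet φ) • nn φ + sin (bet φ) • bb φ) φ := by
  have h := hasDerivAt_vec (hasDerivAt_sin φ).neg (hasDerivAt_cos φ) (hasDerivAt_const φ (0:ℝ))
  have e : -cos (bet φ) • nn φ + sin (bet φ) • bb φ = vec (-cos φ) (-sin φ) 0 := by
    have h1 := sin_sq_add_cos_sq (bet φ)
    apply ext3
    · simp [nn, bb]
      linear_combination (-cos φ) * h1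
    · simp [nn, bb]
      linear_combination (-sin φ) * h1
    · simp [nn, bb]
      ring
  rw [e]
  exact h

theorem hasDerivAt_bb (φ : ℝ) : 
    HasDerivAt bb (-bet' φ • nn φ - sin (bet φ) • aa φ) φ := by
  have hs := (hasDerivAt_sin (bet φ)).comp φ (hasDerivAt_bet φ)
  have hc := (hasDerivAt_cos (bet φ)).comp φ (hasDerivAt_bet φ)
  have h := hasDerivAt_vec (hs.mul (hasDerivAt_cos φ)).neg (hs.mul (hasDerivAt_sin φ)).neg hc
  have e : -bet' φ • nn φ - sin (bet φ) • aa φ = 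
      vec (-(cos (bet φ) * bet' φ * cos φ + sin (bet φ) * -sin φ)) 
        (-(cos (bet φ) * bet' φ * sin φ + sin (bet φ) * cos φ)) (-sin (bet φ) * bet' φ) := by
    apply ext3
    · simp [nn, aa]
      ring
    · simp [nn, aa]
      ring
    · simp [nn, aa]
      ring
  rw [e]
  exact h

/-! ### Orthonormality -/

theorem in_aa (φ : ℝ) : ⟪aa φ, aa φ⟫_ℝ = 1 := by
  rw [inner3]; simp [aa]; linear_combination sin_sq_add_cos_sq φ
theorem in_ab (φ : ℝ) : ⟪aa φ, bb φ⟫_ℝ = 0 := by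
  rw [inner3]; simp [aa, bb]; ring
theorem in_ba (φ : ℝ) : ⟪bb φ, aa φ⟫_ℝ = 0 := by
  rw [real_inner_comm, in_ab]
theorem in_an (φ : ℝ) : ⟪aa φ, nn φ⟫_ℝ = 0 := by
  rw [inner3]; simp [aa, nn]; ring
theorem in_na (φ : ℝ) : ⟪nn φ, aa φ⟫_ℝ = 0 := by
  rw [real_inner_comm, in_an]
theorem in_bb (φ : ℝ) : ⟪bb φ, bb φ⟫_ℝ = 1 := by
  rw [inner3]; simp [bb]
  linear_combination (sin (bet φ)) ^ 2 * sin_sq_add_cos_sq φ + sin_sq_add_cos_sq (bet φ)
theorem in_bn (φ : ℝ) : ⟪bb φ, nn φ⟫_ℝ = 0 := by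
  rw [inner3]; simp [bb, nn]
  linear_combination (-sin (bet φ) * cos (bet φ)) * sin_sq_add_cos_sq φ 
theorem in_nb (φ : ℝ) : ⟪nn φ, bb φ⟫_ℝ = 0 := by
  rw [real_inner_comm, in_bn]
theorem in_nn (φ : ℝ) : ⟪nn φ, nn φ⟫_ℝ = 1 := by
  rw [inner3]; simp [nn]
  linear_combination (cos (bet φ)) ^ 2 * sin_sq_add_cos_sq φ + sin_sq_add_cos_sq (bet φ)

/-- Expansion in the frame. -/
theorem frame (φ : ℝ) (y : E3) : 
    y = ⟪y, aa φ⟫_ℝ • aa φ + ⟪y, bb φ⟫_ℝ • bb φ + ⟪y, nn φ⟫_ℝ • nn φ := by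
  have h1 := sin_sq_add_cos_sq φ
  have h2 := sin_sq_add_cos_sq (bet φ)
  simp only [inner3]
  apply ext3
  · simp [aa, bb, nn]
    linear_combination (-y 0 - cos φ ^ 2 * 0) * h1 + (-(y 0) * cos φ ^ 2 - y 1 * sin φ * cos φ) * h2
  · simp [aa, bb, nn]
    linear_combination (-y 1) * h1 + (-(y 0) * cos φ * sin φ - y 1 * sin φ ^ 2) * h2
  · simp [aa, bb, nn]
    linear_combination (-y 2) * h2 

/-! ### Bounds on `bet` -/

theorem bet_le (φ : ℝ) : bet φ ≤ 3 / 8 := by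
  unfold bet; linarith [cos_le_one (3 * φ)]
theorem le_bet (φ : ℝ) : -(1 / 8) ≤ bet φ := by
  unfold bet; linarith [neg_one_le_cos (3 * φ)]
theorem abs_bet_le (φ : ℝ) : |bet φ| ≤ 3 / 8 := by
  rw [abs_le]; constructor <;> linarith [bet_le φ, le_bet φ]
theorem cos_bet (φ : ℝ) : 9 / 10 ≤ cos (bet φ) := by
  have h1 := one_sub_sq_div_two_le_cos (x := bet φ)
  have h2 : bet φ ^ 2 ≤ (3 / 8) ^ 2 := sq_le_sq' (by linarith [le_bet φ]) (bet_le φ)
  nlinarith
theorem cos_bet_pos (φ : ℝ) : 0 < cos (bet φ) := by linarith [cos_bet φ]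
theorem sin_bet_sq (φ : ℝ) : sin (bet φ) ^ 2 ≤ 9 / 64 := by
  have h1 : |sin (bet φ)| ≤ |bet φ| := abs_sin_le_abs
  have h2 := abs_bet_le φ
  have h3 : |sin (bet φ)| ^ 2 ≤ (3 / 8) ^ 2 := pow_le_pow_left₀ (abs_nonneg _) (h1.trans h2) 2
  rw [sq_abs] at h3
  linarith
theorem abs_bet'_le (φ : ℝ) : |bet' φ| ≤ 3 / 4 := by
  unfold bet'
  rw [abs_mul]
  have : |sin (3 * φ)| ≤ 1 := abs_sin_le_one _
  rw [abs_neg, abs_of_pos (by norm_num : (0:ℝ) < 3 / 4)]
  linarith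

theorem bet_congr {φ φ' : ℝ} (hc : cos φ = cos φ') : bet φ = bet φ' := by
  unfold bet
  rw [cos_three_mul, cos_three_mul, hc]

/-- The label representation of a point (northward sheet). -/
def Rep (y : E3) (φ ξ η : ℝ) : Prop := 0 < ξ ∧ y = ξ • aa φ + η • bb φ

/-- The equatorial band. -/
def UU : Set E3 := {y | 100 * y 2 ^ 2 < y 0 ^ 2 + y 1 ^ 2}

theorem isOpen_UU : IsOpen UU := by
  apply isOpen_lt <;> fun_prop

theorem Rep.coords {y : E3} {φ ξ η : ℝ} (h : Rep y φ ξ η) : 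
    y 0 = -ξ * sin φ - η * sin (bet φ) * cos φ ∧ 
    y 1 = ξ * cos φ - η * sin (bet φ) * sin φ ∧ y 2 = η * cos (bet φ) := by
  obtain ⟨-, rfl⟩ := h
  refine ⟨?_, ?_, ?_⟩ <;> simp [aa, bb] <;> ring

theorem tt_alg {C S T H R η : ℝ} (hC : 9 / 10 ≤ C) (hS : S ^ 2 ≤ 9 / 64) (hT : T = η * S) 
    (hH : H = η * C) (hR : 100 * H ^ 2 < R) : T ^ 2 ≤ R / 500 := by
  have h1 : T ^ 2 * C ^ 2 = H ^ 2 * S ^ 2 := by rw [hT, hH]; ring
  have h3 : (81 / 100 : ℝ) ≤ C ^ 2 := by nlinarith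
  have hR0 : 0 ≤ R := by nlinarith [sq_nonneg H]
  have h4 : T ^ 2 * (81 / 100) ≤ R / 100 * (9 / 64) := by
    calc T ^ 2 * (81 / 100) ≤ T ^ 2 * C ^ 2 := mul_le_mul_of_nonneg_left h3 (sq_nonneg _)
      _ = H ^ 2 * S ^ 2 := h1
      _ ≤ R / 100 * (9 / 64) := by
          apply mul_le_mul (by linarith) hS (sq_nonneg _) (by positivity)
  linarith

theorem bet_diff (φ φ' : ℝ) : (bet φ - bet φ') ^ 2 ≤ 81 / 16 * (cos φ - cos φ') ^ 2 := by
  set c := cos φ with hc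
  set c' := cos φ' with hc'
  have e : bet φ - bet φ' = 1 / 4 * (c - c') * (4 * (c ^ 2 + c * c' + c' ^ 2) - 3) := by
    unfold bet
    rw [cos_three_mul, cos_three_mul]
    ring
  rw [e]
  have hc1 : c ^ 2 ≤ 1 := by rw [hc]; exact cos_sq_le_one φ
  have hc2 : c' ^ 2 ≤ 1 := by rw [hc']; exact cos_sq_le_one φ'
  have q1 : 0 ≤ c ^ 2 + c * c' + c' ^ 2 := by 
    nlinarith [sq_nonneg (c + c'), sq_nonneg c, sq_nonneg c']
  have q2 : c ^ 2 + c * c' + c' ^ 2 ≤ 3 := by nlinarith [sq_nonneg (c - c')]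
  have q3 : (4 * (c ^ 2 + c * c' + c' ^ 2) - 3) ^ 2 ≤ 9 ^ 2 := 
    sq_le_sq' (by linarith) (by linarith)
  have q4 : (c - c') ^ 2 * (4 * (c ^ 2 + c * c' + c' ^ 2) - 3) ^ 2 ≤ (c - c') ^ 2 * 9 ^ 2 := 
    mul_le_mul_of_nonneg_left q3 (sq_nonneg _)
  calc (1 / 4 * (c - c') * (4 * (c ^ 2 + c * c' + c' ^ 2) - 3)) ^ 2 
      = 1 / 16 * ((c - c') ^ 2 * (4 * (c ^ 2 + c * c' + c' ^ 2) - 3) ^ 2) := by ring
    _ ≤ 1 / 16 * ((c - c') ^ 2 * 9 ^ 2) := by linarith
    _ = _ := by ring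

theorem sin_sub_sq (x y : ℝ) : sin (x - y) ^ 2 ≤ (x - y) ^ 2 := by
  have h1 : |sin (x - y)| ≤ |x - y| := abs_sin_le_abs
  have h3 := pow_le_pow_left₀ (abs_nonneg _) h1 2
  rwa [sq_abs, sq_abs] at h3

theorem k1_alg {C S C' S' T T' H R η η' B q δ : ℝ} (hC : 9 / 10 ≤ C) (hC' : 9 / 10 ≤ C')
    (hT : T = η * S) (hT' : T' = η' * S') (hH : H = η * C) (hH' : H = η' * C') 
    (hR : 100 * H ^ 2 < R) (hB : B = S * C' - C * S') (hB2 : B ^ 2 ≤ 81 / 16 * q)
    (hq : q ≤ δ) (hδ : 0 ≤ δ) : (T - T') ^ 2 ≤ 8 / 100 * R * δ := by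
  have k1 : (T - T') * (C * C') = H * B := by
    rw [hT, hT', hB]
    linear_combination (-(S * C')) * hH + (C * S') * hH'
  have g1 : (81 / 100 : ℝ) ≤ C * C' := by nlinarith
  have g2 : (6561 / 10000 : ℝ) ≤ (C * C') ^ 2 := by nlinarith
  have g3 : (T - T') ^ 2 * (C * C') ^ 2 = H ^ 2 * B ^ 2 := by
    rw [← mul_pow, k1, mul_pow]
  have g4 : (T - T') ^ 2 * (6561 / 10000) ≤ H ^ 2 * (81 / 16 * δ) := by
    calc (T - T') ^ 2 * (6561 / 10000) ≤ (T - T') ^ 2 * (C * C') ^ 2 := 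
          mul_le_mul_of_nonneg_left g2 (sq_nonneg _)
      _ = H ^ 2 * B ^ 2 := g3
      _ ≤ H ^ 2 * (81 / 16 * δ) := by
          apply mul_le_mul_of_nonneg_left _ (sq_nonneg _)
          linarith
  have g5 : H ^ 2 * δ ≤ R / 100 * δ := mul_le_mul_of_nonneg_right (by linarith) hδ
  have g6 : 0 ≤ R * δ := mul_nonneg (by nlinarith [sq_nonneg H]) hδ
  nlinarith

theorem k6_alg {T T' ξ ξ' R : ℝ} (hξ : 0 < ξ) (hξ' : 0 < ξ') (hR : 0 < R) (r1 : R = ξ ^ 2 + T ^ 2) 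
    (r1' : R = ξ' ^ 2 + T' ^ 2) (t1 : T ^ 2 ≤ R / 500) (t2 : T' ^ 2 ≤ R / 500) : 
    (ξ - ξ') ^ 2 ≤ (T - T') ^ 2 := by
  have g1 : (ξ - ξ') ^ 2 * (ξ + ξ') ^ 2 = (T - T') ^ 2 * (T + T') ^ 2 := by
    have : (ξ - ξ') * (ξ + ξ') = -((T - T') * (T + T')) := by linear_combination r1' - r1
    rw [← mul_pow, this]
    ring
  have g2 : R ≤ (ξ + ξ') ^ 2 := by nlinarith [mul_pos hξ hξ']
  have g3 : (T + T') ^ 2 ≤ R := by nlinarith [sq_nonneg (T - T')]
  have g4 : (ξ - ξ') ^ 2 * R ≤ (T - T') ^ 2 * R := by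
    calc (ξ - ξ') ^ 2 * R ≤ (ξ - ξ') ^ 2 * (ξ + ξ') ^ 2 := 
          mul_le_mul_of_nonneg_left g2 (sq_nonneg _)
      _ = (T - T') ^ 2 * (T + T') ^ 2 := g1
      _ ≤ (T - T') ^ 2 * R := mul_le_mul_of_nonneg_left g3 (sq_nonneg _)
  exact le_of_mul_le_mul_right g4 hR

theorem key_alg {c s c' s' ξ ξ' T T' X Y R : ℝ} (hR : 0 < R) (hRR : R = X ^ 2 + Y ^ 2)
    (e1 : R * c = ξ * Y - T * X) (e2 : R * s = -(ξ * X + T * Y)) 
    (e1' : R * c' = ξ' * Y - T' * X) (e2' : R * s' = -(ξ' * X + T' * Y)) :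
    R * ((c - c') ^ 2 + (s - s') ^ 2) = (ξ - ξ') ^ 2 + (T - T') ^ 2 := by
  have : R * (R * ((c - c') ^ 2 + (s - s') ^ 2)) = R * ((ξ - ξ') ^ 2 + (T - T') ^ 2) := by
    have h : R * (R * ((c - c') ^ 2 + (s - s') ^ 2)) = 
      (R * c - R * c') ^ 2 + (R * s - R * s') ^ 2 := by ring
    rw [h, e1, e2, e1', e2', hRR]
    ring
  exact mul_left_cancel₀ hR.ne' this

theorem Rep.unique {y : E3} {φ ξ η φ' ξ' η' : ℝ} (hy : y ∈ UU) (h : Rep y φ ξ η) 
    (h' : Rep y φ' ξ' η') : cos φ = cos φ' ∧ sin φ = sin φ' ∧ ξ = ξ' ∧ η = η' := by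
  obtain ⟨a0, a1, a2⟩ := h.coords
  obtain ⟨b0, b1, b2⟩ := h'.coords
  have hξ := h.1
  have hξ' := h'.1
  have hU : 100 * y 2 ^ 2 < y 0 ^ 2 + y 1 ^ 2 := hy
  have p1 := sin_sq_add_cos_sq φ
  have p1' := sin_sq_add_cos_sq φ'
  have hRpos : 0 < y 0 ^ 2 + y 1 ^ 2 := by nlinarith [sq_nonneg (y 2)]
  have r1 : y 0 ^ 2 + y 1 ^ 2 = ξ ^ 2 + (η * sin (bet φ)) ^ 2 := by
    rw [a0, a1]; linear_combination (ξ ^ 2 + (η * sin (bet φ)) ^ 2) * p1
  have r1' : y 0 ^ 2 + y 1 ^ 2 = ξ' ^ 2 + (η' * sin (bet φ')) ^ 2 := by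
    rw [b0, b1]; linear_combination (ξ' ^ 2 + (η' * sin (bet φ')) ^ 2) * p1'
  have e1 : (y 0 ^ 2 + y 1 ^ 2) * cos φ = ξ * y 1 - (η * sin (bet φ)) * y 0 := by
    rw [r1, a0, a1]; ring
  have e2 : (y 0 ^ 2 + y 1 ^ 2) * sin φ = -(ξ * y 0 + (η * sin (bet φ)) * y 1) := by
    rw [r1, a0, a1]; ring
  have e1' : (y 0 ^ 2 + y 1 ^ 2) * cos φ' = ξ' * y 1 - (η' * sin (bet φ')) * y 0 := by
    rw [r1', b0, b1]; ring
  have e2' : (y 0 ^ 2 + y 1 ^ 2) * sin φ' = -(ξ' * y 0 + (η' * sin (bet φ')) * y 1) := by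
    rw [r1', b0, b1]; ring
  have key1 := key_alg hRpos rfl e1 e2 e1' e2'
  have hq : (cos φ - cos φ') ^ 2 ≤ (cos φ - cos φ') ^ 2 + (sin φ - sin φ') ^ 2 := by
    linarith [sq_nonneg (sin φ - sin φ')]
  have hδ0 : 0 ≤ (cos φ - cos φ') ^ 2 + (sin φ - sin φ') ^ 2 := by positivity
  have k5 := k1_alg (cos_bet φ) (cos_bet φ') rfl rfl a2 b2 hU (sin_sub (bet φ) (bet φ')) 
    ((sin_sub_sq _ _).trans (bet_diff φ φ')) hq hδ0
  have t1 := tt_alg (cos_bet φ) (sin_bet_sq φ) rfl a2 hU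
  have t2 := tt_alg (cos_bet φ') (sin_bet_sq φ') rfl b2 hU
  have k6 := k6_alg hξ hξ' hRpos r1 r1' t1 t2
  set δ := (cos φ - cos φ') ^ 2 + (sin φ - sin φ') ^ 2 with hδ
  set R := y 0 ^ 2 + y 1 ^ 2 with hR
  have hfin : R * δ ≤ 16 / 100 * (R * δ) := by linarith
  have hzero : δ = 0 := by
    have h2 : 0 ≤ R * δ := mul_nonneg hRpos.le hδ0
    have h3 : R * δ = 0 := le_antisymm (by linarith) h2
    rcases mul_eq_zero.1 h3 with h | h
    · exact absurd h hRpos.ne'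
    · exact h
  have hcc : cos φ = cos φ' := by
    have h4 : (cos φ - cos φ') ^ 2 = 0 := 
      le_antisymm (by rw [← hzero]; exact hq) (sq_nonneg _)
    have := pow_eq_zero_iff (two_ne_zero) |>.1 h4
    linarith
  have hss : sin φ = sin φ' := by
    have h4 : (sin φ - sin φ') ^ 2 = 0 := 
      le_antisymm (by rw [← hzero, hδ]; linarith [sq_nonneg (cos φ - cos φ')]) (sq_nonneg _)
    have := pow_eq_zero_iff (two_ne_zero) |>.1 h4
    linarith
  have hb : bet φ = bet φ' := bet_congr hcc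
  have hηη : η = η' := by
    have e3 : η * cos (bet φ) = η' * cos (bet φ) := by
      rw [← a2, b2, hb]
    exact mul_right_cancel₀ (cos_bet_pos φ).ne' e3
  refine ⟨hcc, hss, ?_, hηη⟩
  have x1 : ξ = -y 0 * sin φ + y 1 * cos φ := by rw [a0, a1]; linear_combination (-ξ) * p1
  have x2 : ξ' = -y 0 * sin φ' + y 1 * cos φ' := by rw [b0, b1]; linear_combination (-ξ') * p1'
  rw [x1, x2, hcc, hss]

end Pool.Agent.Lib.MP_d2b992_gt
end

section
/-!
# The smooth unit vector field `V` near the equator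
-/
namespace Pool.Agent.Lib.MP_d2b992_gt

open Set Filter Topology Real
open scoped InnerProductSpace ContDiff

theorem exists_rep {y : E3} (hy : y ∈ UU) : ∃ φ ξ η : ℝ, Rep y φ ξ η := by
  have hU : 100 * y 2 ^ 2 < y 0 ^ 2 + y 1 ^ 2 := hy
  have hRpos : 0 < y 0 ^ 2 + y 1 ^ 2 := by nlinarith [sq_nonneg (y 2)]
  -- polar coordinates
  obtain ⟨ρ, lam, hρ, h0, h1⟩ : ∃ ρ lam : ℝ, 0 < ρ ∧ y 0 = ρ * cos lam ∧ y 1 = ρ * sin lam := by
    refine ⟨‖(⟨y 0, y 1⟩ : ℂ)‖, Complex.arg ⟨y 0, y 1⟩, ?_, ?_, ?_⟩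
    · rw [norm_pos_iff]
      intro h
      have h1 := congrArg Complex.re h
      have h2 := congrArg Complex.im h
      simp at h1 h2
      rw [h1, h2] at hRpos
      norm_num at hRpos
    · exact (Complex.norm_mul_cos_arg ⟨y 0, y 1⟩).symm
    · exact (Complex.norm_mul_sin_arg ⟨y 0, y 1⟩).symm
  have hR2 : y 0 ^ 2 + y 1 ^ 2 = ρ ^ 2 := by
    rw [h0, h1]; linear_combination ρ ^ 2 * sin_sq_add_cos_sq lam
  set q : ℝ → ℝ := fun φ => y 0 * cos φ + y 1 * sin φ + y 2 * (sin (bet φ) / cos (bet φ)) with hq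
  have hbc : Continuous bet := contDiff_bet.continuous
  have hqc : Continuous q := by
    have : ∀ φ, cos (bet φ) ≠ 0 := fun φ => (cos_bet_pos φ).ne'
    simp only [hq]
    fun_prop (disch := assumption)
  have hsmall : ∀ φ, |y 2 * (sin (bet φ) / cos (bet φ))| < ρ := by
    intro φ
    apply abs_lt_of_sq_lt_sq _ hρ.le
    have h3 : (sin (bet φ) / cos (bet φ)) ^ 2 ≤ 1 := by
      rw [div_pow, div_le_one (by have := cos_bet_pos φ; positivity)]
      have := sin_bet_sq φ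
      have := cos_bet φ
      nlinarith
    rw [mul_pow]
    nlinarith [sq_nonneg (y 2)]
  have hlam : q lam = ρ + y 2 * (sin (bet lam) / cos (bet lam)) := by
    simp only [hq]
    rw [h0, h1]
    linear_combination ρ * sin_sq_add_cos_sq lam
  have hlam2 : q (lam - π) = -ρ + y 2 * (sin (bet (lam - π)) / cos (bet (lam - π))) := by
    simp only [hq]
    rw [h0, h1, cos_sub_pi, sin_sub_pi]
    linear_combination (-ρ) * sin_sq_add_cos_sq lam
  have s1 := abs_lt.1 (hsmall lam)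
  have s2 := abs_lt.1 (hsmall (lam - π))
  obtain ⟨φ, hφ, hφ0⟩ := intermediate_value_Ioo (by linarith [pi_pos] : lam - π ≤ lam) 
    hqc.continuousOn (show (0:ℝ) ∈ Ioo (q (lam - π)) (q lam) by
      rw [hlam, hlam2]
      constructor
      · linarith [s2.2]
      · linarith [s1.1])
  have hz : y 0 * cos φ + y 1 * sin φ + y 2 * (sin (bet φ) / cos (bet φ)) = 0 := hφ0
  have p1 := sin_sq_add_cos_sq φ
  refine ⟨φ, -y 0 * sin φ + y 1 * cos φ, y 2 / cos (bet φ), ?_, ?_⟩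
  · have : -y 0 * sin φ + y 1 * cos φ = ρ * sin (lam - φ) := by
      rw [h0, h1, sin_sub]; ring
    rw [this]
    apply mul_pos hρ
    apply sin_pos_of_pos_of_lt_pi
    · linarith [hφ.2]
    · linarith [hφ.1]
  · have hc := (cos_bet_pos φ).ne'
    have e : y 2 / cos (bet φ) * sin (bet φ) = -(y 0 * cos φ + y 1 * sin φ) := by
      have : y 2 / cos (bet φ) * sin (bet φ) = y 2 * (sin (bet φ) / cos (bet φ)) := by ring
      rw [this]
      linarith
    apply ext3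
    · simp [aa, bb]
      linear_combination cos φ * e - y 0 * p1 
    · simp [aa, bb]
      linear_combination sin φ * e - y 1 * p1
    · simp [aa, bb]
      field_simp

/-- The northward unit tangent at `y` of the great circle through `y` with positive label. -/
noncomputable def VV (y : E3) : E3 := by
  classical
  exact if h : ∃ p : ℝ × ℝ × ℝ, Rep y p.1 p.2.1 p.2.2 ∧ y ∈ UU then
    ‖y‖⁻¹ • (h.choose.2.1 • bb h.choose.1 - h.choose.2.2 • aa h.choose.1) else 0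

theorem aa_congr {φ φ' : ℝ} (hc : cos φ = cos φ') (hs : sin φ = sin φ') : aa φ = aa φ' := by
  unfold aa; rw [hc, hs]
theorem bb_congr {φ φ' : ℝ} (hc : cos φ = cos φ') (hs : sin φ = sin φ') : bb φ = bb φ' := by
  unfold bb; rw [hc, hs, bet_congr hc]
theorem nn_congr {φ φ' : ℝ} (hc : cos φ = cos φ') (hs : sin φ = sin φ') : nn φ = nn φ' := by
  unfold nn; rw [hc, hs, bet_congr hc]

theorem VV_eq {y : E3} (hy : y ∈ UU) {φ ξ η : ℝ} (h : Rep y φ ξ η) : 
    VV y = ‖y‖⁻¹ • (ξ • bb φ - η • aa φ) := by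
  have hex : ∃ p : ℝ × ℝ × ℝ, Rep y p.1 p.2.1 p.2.2 ∧ y ∈ UU := ⟨(φ, ξ, η), h, hy⟩
  unfold VV
  rw [dif_pos hex]
  obtain ⟨h1, h2, h3, h4⟩ := Rep.unique hy hex.choose_spec.1 h
  rw [aa_congr h1 h2, bb_congr h1 h2, h3, h4]

theorem VV_of_not {y : E3} (hy : y ∉ UU) : VV y = 0 := by
  unfold VV
  rw [dif_neg]
  rintro ⟨p, -, h⟩
  exact hy h

/-- The parametrization. -/
noncomputable def Psi (p : ℝ × ℝ × ℝ) : E3 := p.2.1 • aa p.1 + p.2.2 • bb p.1

theorem contDiff_Psi : ContDiff ℝ ∞ Psi := by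
  unfold Psi
  have h1 := contDiff_aa
  have h2 := contDiff_bb
  fun_prop

theorem hasDerivAt_nn (φ : ℝ) : 
    HasDerivAt nn (bet' φ • bb φ + cos (bet φ) • aa φ) φ := by
  have hs := (hasDerivAt_sin (bet φ)).comp φ (hasDerivAt_bet φ)
  have hc := (hasDerivAt_cos (bet φ)).comp φ (hasDerivAt_bet φ)
  have h := hasDerivAt_vec (hc.mul (hasDerivAt_cos φ)) (hc.mul (hasDerivAt_sin φ)) hs
  have e : bet' φ • bb φ + cos (bet φ) • aa φ = 
      vec (-sin (bet φ) * bet' φ * cos φ + cos (bet φ) * -sin φ)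
        (-sin (bet φ) * bet' φ * sin φ + cos (bet φ) * cos φ) (cos (bet φ) * bet' φ) := by
    apply ext3
    · simp [bb, aa]
      ring
    · simp [bb, aa]
      ring
    · simp [bb, aa]
      ring
  rw [e]
  exact h

theorem fderiv_Psi (φ ξ η : ℝ) (v : ℝ × ℝ × ℝ) : fderiv ℝ Psi (φ, ξ, η) v = 
    v.1 • (-(ξ * cos (bet φ) + η * bet' φ) • nn φ + sin (bet φ) • (ξ • bb φ - η • aa φ)) 
      + v.2.1 • aa φ + v.2.2 • bb φ := by
  have h1 : HasFDerivAt Psi (fderiv ℝ Psi (φ, ξ, η)) (φ, ξ, η) := 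
    (contDiff_Psi.differentiable (by norm_num) _).hasFDerivAt
  have h2 : HasDerivAt (fun s : ℝ => ((φ, ξ, η) : ℝ × ℝ × ℝ) + s • v) v 0 := by
    have := ((hasDerivAt_id (0:ℝ)).smul_const v).const_add ((φ, ξ, η) : ℝ × ℝ × ℝ)
    simpa using this
  have h3 : HasDerivAt (fun s : ℝ => Psi ((φ, ξ, η) + s • v)) (fderiv ℝ Psi (φ, ξ, η) v) 0 := by
    have h1' : HasFDerivAt Psi (fderiv ℝ Psi (φ, ξ, η)) ((φ, ξ, η) + (0:ℝ) • v) := by
      simpa using h1
    exact h1'.comp_hasDerivAt (0:ℝ) h2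
  have e : (fun s : ℝ => Psi ((φ, ξ, η) + s • v)) = 
      fun s => (ξ + s * v.2.1) • aa (φ + s * v.1) + (η + s * v.2.2) • bb (φ + s * v.1) := by
    funext s
    simp [Psi]
  have h4 : HasDerivAt (fun s : ℝ => φ + s * v.1) v.1 0 := by
    simpa using ((hasDerivAt_id (0:ℝ)).mul_const v.1).const_add φ
  have h5 : HasDerivAt (fun s : ℝ => ξ + s * v.2.1) v.2.1 0 := by
    simpa using ((hasDerivAt_id (0:ℝ)).mul_const v.2.1).const_add ξ
  have h6 : HasDerivAt (fun s : ℝ => η + s * v.2.2) v.2.2 0 := by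
    simpa using ((hasDerivAt_id (0:ℝ)).mul_const v.2.2).const_add η
  have h7 : HasDerivAt (fun s : ℝ => aa (φ + s * v.1)) 
      (v.1 • (-cos (bet φ) • nn φ + sin (bet φ) • bb φ)) 0 := by
    have : HasDerivAt aa (-cos (bet φ) • nn φ + sin (bet φ) • bb φ) (φ + 0 * v.1) := by
      simpa using hasDerivAt_aa φ
    exact this.scomp (0:ℝ) h4
  have h8 : HasDerivAt (fun s : ℝ => bb (φ + s * v.1)) 
      (v.1 • (-bet' φ • nn φ - sin (bet φ) • aa φ)) 0 := by
    have : HasDerivAt bb (-bet' φ • nn φ - sin (bet φ) • aa φ) (φ + 0 * v.1) := by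
      simpa using hasDerivAt_bb φ
    exact this.scomp (0:ℝ) h4
  have h9 := (h5.smul h7).add (h6.smul h8)
  rw [e] at h3
  have h10 := h3.unique h9
  rw [h10]
  simp only [zero_mul, add_zero]
  module

theorem nondeg {y : E3} (hy : y ∈ UU) {φ ξ η : ℝ} (h : Rep y φ ξ η) : 
    0 < ξ * cos (bet φ) + η * bet' φ := by
  obtain ⟨a0, a1, a2⟩ := h.coords
  have hU : 100 * y 2 ^ 2 < y 0 ^ 2 + y 1 ^ 2 := hy
  have r1 : y 0 ^ 2 + y 1 ^ 2 = ξ ^ 2 + (η * sin (bet φ)) ^ 2 := by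
    rw [a0, a1]; linear_combination (ξ ^ 2 + (η * sin (bet φ)) ^ 2) * sin_sq_add_cos_sq φ
  have hc := cos_bet φ
  have hs := sin_bet_sq φ
  rw [r1, a2] at hU
  have hξ := h.1
  -- η² ≤ ξ²/50
  have h1 : 81 * η ^ 2 ≤ 100 * (η * cos (bet φ)) ^ 2 := by
    rw [mul_pow]
    have : (81:ℝ) ≤ 100 * cos (bet φ) ^ 2 := by nlinarith
    nlinarith [sq_nonneg η]
  have h2 : (η * sin (bet φ)) ^ 2 ≤ 9 / 64 * η ^ 2 := by
    rw [mul_pow]
    nlinarith [sq_nonneg η]
  have h3 : η ^ 2 ≤ (ξ / 5) ^ 2 := by nlinarith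
  have h4 : |η| ≤ ξ / 5 := by
    have := abs_le_of_sq_le_sq' h3 (by linarith)
    rw [abs_le]
    exact this
  have h5 : |η * bet' φ| ≤ ξ / 5 * (3 / 4) := by
    rw [abs_mul]
    exact mul_le_mul h4 (abs_bet'_le φ) (abs_nonneg _) (by linarith)
  have h6 := (abs_le.1 h5).1
  nlinarith

theorem contDiffAt_VV {y : E3} (hy : y ∈ UU) : ContDiffAt ℝ ∞ VV y := by
  obtain ⟨φ, ξ, η, h⟩ := exists_rep hy
  have hnd := nondeg hy h
  have hfd : HasFDerivAt Psi (fderiv ℝ Psi (φ, ξ, η)) (φ, ξ, η) := 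
    (contDiff_Psi.differentiable (by norm_num) _).hasFDerivAt
  have hinj : Function.Injective (fderiv ℝ Psi (φ, ξ, η) : ℝ × ℝ × ℝ →ₗ[ℝ] E3) := by
    rw [← LinearMap.ker_eq_bot, LinearMap.ker_eq_bot']
    intro v hv
    have hv' : fderiv ℝ Psi (φ, ξ, η) v = 0 := hv
    rw [fderiv_Psi] at hv'
    have h1 := congrArg (fun z => ⟪z, nn φ⟫_ℝ) hv'
    simp only [inner_add_left, inner_smul_left, inner_sub_left, in_nn, in_bn, in_an, inner_zero_left,
      mul_zero, add_zero, sub_zero, mul_one, map_neg, conj_trivial] at h1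
    have hv1 : v.1 = 0 := by
      rcases mul_eq_zero.1 h1 with h | h
      · exact h
      · linarith
    rw [hv1] at hv'
    have h2 := congrArg (fun z => ⟪z, aa φ⟫_ℝ) hv'
    have h3 := congrArg (fun z => ⟪z, bb φ⟫_ℝ) hv'
    simp only [zero_smul, zero_add, inner_add_left, inner_smul_left, in_aa, in_ba, in_ab, in_bb,
      inner_zero_left, mul_zero, add_zero, mul_one, conj_trivial] at h2 h3
    exact Prod.ext hv1 (Prod.ext h2 h3)
  have hdim : Module.finrank ℝ (ℝ × ℝ × ℝ) = Module.finrank ℝ E3 := by simp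
  let e : (ℝ × ℝ × ℝ) ≃L[ℝ] E3 := 
    (LinearEquiv.ofInjectiveOfFinrankEq _ hinj hdim).toContinuousLinearEquiv
  have he : (e : ℝ × ℝ × ℝ →L[ℝ] E3) = fderiv ℝ Psi (φ, ξ, η) := by
    ext v <;> rfl
  have hcd : ContDiffAt ℝ ∞ Psi (φ, ξ, η) := contDiff_Psi.contDiffAt
  have hfd' : HasFDerivAt Psi (e : ℝ × ℝ × ℝ →L[ℝ] E3) (φ, ξ, η) := by rw [he]; exact hfd
  have hyΨ : Psi (φ, ξ, η) = y := by rw [h.2]; rfl
  have hn : (∞ : WithTop ℕ∞) ≠ 0 := by simp
  set g := hcd.localInverse hfd' hn with hg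
  have hgc : ContDiffAt ℝ ∞ g y := by
    have := hcd.to_localInverse hfd' hn
    rwa [hyΨ] at this
  have hgy : g y = (φ, ξ, η) := by
    have := hcd.localInverse_apply_image hfd' hn
    rwa [hyΨ] at this
  have hgr : ∀ᶠ z in 𝓝 y, Psi (g z) = z := by
    have := (hcd.hasStrictFDerivAt' hfd' hn).eventually_right_inverse
    rw [hyΨ] at this
    exact this
  have hpos : ∀ᶠ z in 𝓝 y, 0 < (g z).2.1 := by
    have hc : ContinuousAt (fun z => (g z).2.1) y := by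
      have := hgc.continuousAt
      fun_prop
    apply hc.eventually (lt_mem_nhds (a := 0) _)
    show 0 < (g y).2.1
    rw [hgy]
    exact h.1
  have hUU : ∀ᶠ z in 𝓝 y, z ∈ UU := isOpen_UU.mem_nhds hy
  have hev : VV =ᶠ[𝓝 y] fun z => ‖z‖⁻¹ • ((g z).2.1 • bb (g z).1 - (g z).2.2 • aa (g z).1) := by
    filter_upwards [hgr, hpos, hUU] with z h1 h2 h3
    apply VV_eq h3
    exact ⟨h2, h1.symm⟩
  apply ContDiffAt.congr_of_eventuallyEq _ hev
  have hy0 : y ≠ 0 := by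
    rintro rfl
    have hU : 100 * (0 : E3) 2 ^ 2 < (0 : E3) 0 ^ 2 + (0 : E3) 1 ^ 2 := hy
    simp at hU
  have hnorm : ContDiffAt ℝ ∞ (fun z : E3 => ‖z‖⁻¹) y := 
    (contDiffAt_norm ℝ hy0).inv (norm_ne_zero_iff.2 hy0)
  have hg1 : ContDiffAt ℝ ∞ (fun z => (g z).1) y := hgc.fst
  have hg2 : ContDiffAt ℝ ∞ (fun z => (g z).2.1) y := hgc.snd.fst
  have hg3 : ContDiffAt ℝ ∞ (fun z => (g z).2.2) y := hgc.snd.snd
  have hbb : ContDiffAt ℝ ∞ (fun z => bb (g z).1) y := contDiff_bb.contDiffAt.comp y hg1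
  have haa : ContDiffAt ℝ ∞ (fun z => aa (g z).1) y := contDiff_aa.contDiffAt.comp y hg1
  exact hnorm.smul ((hg2.smul hbb).sub (hg3.smul haa))

end Pool.Agent.Lib.MP_d2b992_gt
end

section
/-!
# The perturbed metrics
-/
namespace Pool.Agent.Lib.MP_d2b992_gt

open Set Filter Topology Real
open scoped InnerProductSpace ContDiff

theorem ne_zero_of_UU {y : E3} (hy : y ∈ UU) : y ≠ 0 := by
  rintro rfl
  have hU : 100 * (0 : E3) 2 ^ 2 < (0 : E3) 0 ^ 2 + (0 : E3) 1 ^ 2 := hy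
  simp at hU

theorem neg_mem_UU {y : E3} : -y ∈ UU ↔ y ∈ UU := by
  unfold UU
  simp

theorem Rep.normsq {y : E3} {φ ξ η : ℝ} (h : Rep y φ ξ η) : ‖y‖ ^ 2 = ξ ^ 2 + η ^ 2 := by
  rw [← real_inner_self_eq_norm_sq, h.2]
  simp only [inner_add_left, inner_add_right, inner_smul_left, inner_smul_right, in_aa, in_ab,
    in_ba, in_bb, conj_trivial]
  ring

theorem inner_VV_self {y : E3} (hy : y ∈ UU) : ⟪VV y, VV y⟫_ℝ = 1 := by
  obtain ⟨φ, ξ, η, h⟩ := exists_rep hy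
  have h1 := h.normsq
  have h2 : ‖y‖ ≠ 0 := norm_ne_zero_iff.2 (ne_zero_of_UU hy)
  rw [VV_eq hy h]
  simp only [inner_sub_left, inner_sub_right, inner_smul_left, inner_smul_right, in_aa, in_ab,
    in_ba, in_bb, conj_trivial]
  field_simp
  rw [h1]
  ring

theorem inner_VV_y {y : E3} (hy : y ∈ UU) : ⟪VV y, y⟫_ℝ = 0 := by
  obtain ⟨φ, ξ, η, h⟩ := exists_rep hy
  rw [VV_eq hy h]
  nth_rw 2 [h.2]
  simp only [inner_sub_left, inner_add_right, inner_smul_left, inner_smul_right, in_aa, in_ab,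
    in_ba, in_bb, conj_trivial]
  ring

theorem inner_VV_nn {y : E3} (hy : y ∈ UU) {φ ξ η : ℝ} (h : Rep y φ ξ η) : 
    ⟪VV y, nn φ⟫_ℝ = 0 := by
  rw [VV_eq hy h]
  simp only [inner_sub_left, inner_smul_left, in_an, in_bn, conj_trivial]
  ring

theorem inner_nn_y {y : E3} {φ ξ η : ℝ} (h : Rep y φ ξ η) : ⟪y, nn φ⟫_ℝ = 0 := by
  rw [h.2]
  simp only [inner_add_left, inner_smul_left, in_an, in_bn, conj_trivial]
  ring

theorem VV_two_pos {y : E3} (hy : y ∈ UU) : 0 < VV y 2 := by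
  obtain ⟨φ, ξ, η, h⟩ := exists_rep hy
  have h2 : 0 < ‖y‖ := norm_pos_iff.2 (ne_zero_of_UU hy)
  rw [VV_eq hy h]
  have : (‖y‖⁻¹ • (ξ • bb φ - η • aa φ)) 2 = ‖y‖⁻¹ * (ξ * cos (bet φ)) := by
    simp [aa, bb]
  rw [this]
  have := cos_bet_pos φ
  have := h.1
  positivity

/-- Vectors tangent to the sphere in the orthonormal frame `VV y`, `nn φ`. -/
theorem tan_frame {y : E3} (hy : y ∈ UU) {φ ξ η : ℝ} (h : Rep y φ ξ η) {v : E3} 
    (hv : ⟪v, y⟫_ℝ = 0) : v = ⟪v, VV y⟫_ℝ • VV y + ⟪v, nn φ⟫_ℝ • nn φ := by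
  have h1 := h.normsq
  have h2 : ‖y‖ ≠ 0 := norm_ne_zero_iff.2 (ne_zero_of_UU hy)
  have hf := frame φ v
  have hv' : ⟪v, aa φ⟫_ℝ * ξ + ⟪v, bb φ⟫_ℝ * η = 0 := by
    rw [h.2] at hv
    simp only [inner_add_right, inner_smul_right] at hv
    linarith
  have e1 : ⟪v, VV y⟫_ℝ = ‖y‖⁻¹ * (ξ * ⟪v, bb φ⟫_ℝ - η * ⟪v, aa φ⟫_ℝ) := by
    rw [VV_eq hy h]
    simp only [inner_sub_right, inner_smul_right]
  rw [e1, VV_eq hy h]
  nth_rw 1 [hf]
  congr 1
  set p := ⟪v, aa φ⟫_ℝ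
  set q := ⟪v, bb φ⟫_ℝ
  have e2 : (‖y‖⁻¹ * (ξ * q - η * p)) • ‖y‖⁻¹ • (ξ • bb φ - η • aa φ) = 
      ((‖y‖ ^ 2)⁻¹ * (ξ * q - η * p) * ξ) • bb φ - ((‖y‖ ^ 2)⁻¹ * (ξ * q - η * p) * η) • aa φ := by
    have : (‖y‖ ^ 2)⁻¹ = ‖y‖⁻¹ * ‖y‖⁻¹ := by
      rw [← mul_inv, sq]
    rw [this]
    module
  have hn : ‖y‖ ^ 2 ≠ 0 := pow_ne_zero 2 h2
  rw [e2]
  have e3 : (‖y‖ ^ 2)⁻¹ * (ξ * q - η * p) * ξ = q := by
    rw [mul_assoc, inv_mul_eq_iff_eq_mul₀ hn, h1]
    linear_combination (-η) * hv'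
  have e4 : (‖y‖ ^ 2)⁻¹ * (ξ * q - η * p) * η = -p := by
    rw [mul_assoc, inv_mul_eq_iff_eq_mul₀ hn, h1]
    linear_combination ξ * hv'
  rw [e3, e4]
  module

theorem sin_bet_inj {φ ψ : ℝ} (h : sin (bet φ) = sin (bet ψ)) : bet φ = bet ψ := by
  have := pi_gt_three
  apply injOn_sin _ _ h
  · constructor <;> linarith [le_bet φ, bet_le φ]
  · constructor <;> linarith [le_bet ψ, bet_le ψ]

/-- The two sheets are transversal. -/
theorem nonpar {y : E3} (hy : y ∈ UU) {φ ξ η : ℝ} (h : Rep y φ ξ η) : 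
    ⟪VV (-y), nn φ⟫_ℝ ≠ 0 := by
  intro h0
  have hy' : -y ∈ UU := neg_mem_UU.2 hy
  obtain ⟨ψ, ξ', η', h'⟩ := exists_rep hy'
  have hV'y : ⟪VV (-y), y⟫_ℝ = 0 := by
    have := inner_VV_y hy'
    rw [inner_neg_right] at this
    linarith
  -- `VV (-y)` is a multiple of `VV y`
  have e1 := tan_frame hy h hV'y
  rw [h0, zero_smul, add_zero] at e1
  -- the normal of the second great circle is a multiple of `nn φ`
  have hny : ⟪nn ψ, y⟫_ℝ = 0 := by
    have := inner_nn_y h'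
    rw [inner_neg_left] at this
    rw [real_inner_comm]
    linarith
  have e2 := tan_frame hy h hny
  have hnV : ⟪nn ψ, VV y⟫_ℝ = 0 := by
    have h3 := inner_VV_nn hy' h'
    rw [e1, inner_smul_left] at h3
    simp only [conj_trivial] at h3
    rcases mul_eq_zero.1 h3 with h4 | h4
    · exfalso
      rw [h4, zero_smul] at e1
      have := VV_two_pos hy'
      rw [e1] at this
      simp at this
    · rw [real_inner_comm]; exact h4
  rw [hnV, zero_smul, zero_add] at e2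
  set c := ⟪nn ψ, nn φ⟫_ℝ with hc
  have hc2 : c * c = 1 := by
    have h5 := in_nn ψ
    rw [e2, inner_smul_left, inner_smul_right, in_nn] at h5
    simpa using h5
  have n0 := congrArg (fun z : E3 => z 0) e2
  have n1 := congrArg (fun z : E3 => z 1) e2
  have n2 := congrArg (fun z : E3 => z 2) e2
  simp [nn] at n0 n1 n2
  have cpos := cos_bet_pos φ
  have cpos' := cos_bet_pos ψ
  have hcc : c = 1 ∨ c = -1 := by
    have : (c - 1) * (c + 1) = 0 := by linear_combination hc2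
    rcases mul_eq_zero.1 this with h6 | h6
    · left; linarith
    · right; linarith
  rcases hcc with h6 | h6
  · rw [h6] at n0 n1 n2
    simp only [one_mul] at n0 n1 n2
    have hb := sin_bet_inj n2
    rw [hb] at n0 n1
    have hcos : cos ψ = cos φ := mul_left_cancel₀ cpos.ne' n0
    have hsin : sin ψ = sin φ := mul_left_cancel₀ cpos.ne' n1
    have h7 := h'.2
    rw [aa_congr hcos hsin, bb_congr hcos hsin] at h7
    have h8 := congrArg (fun z => ⟪z, aa φ⟫_ℝ) h7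
    rw [h.2] at h8
    simp only [inner_neg_left, inner_add_left, inner_smul_left, in_aa, in_ba, conj_trivial] at h8
    linarith [h.1, h'.1]
  · rw [h6] at n0 n1 n2
    have hb : bet ψ = -bet φ := by
      have := pi_gt_three
      apply injOn_sin
      · constructor <;> linarith [le_bet ψ, bet_le ψ]
      · constructor <;> linarith [le_bet φ, bet_le φ]
      · rw [sin_neg]; linarith
    rw [hb, cos_neg] at n0
    have hcos : cos ψ = -cos φ := by
      apply mul_left_cancel₀ cpos.ne'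
      linarith
    have : bet ψ = 1 / 4 - bet φ := by
      unfold bet
      rw [cos_three_mul, cos_three_mul, hcos]
      ring
    linarith

/-- The cosine of the angle of the two sheets. -/
noncomputable def mm (y : E3) : ℝ := ⟪VV y, VV (-y)⟫_ℝ

theorem mm_neg (y : E3) : mm (-y) = mm y := by
  unfold mm
  rw [neg_neg, real_inner_comm]

theorem VV_neg_frame {y : E3} (hy : y ∈ UU) {φ ξ η : ℝ} (h : Rep y φ ξ η) : 
    VV (-y) = mm y • VV y + ⟪VV (-y), nn φ⟫_ℝ • nn φ := by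
  have hV'y : ⟪VV (-y), y⟫_ℝ = 0 := by
    have := inner_VV_y (neg_mem_UU.2 hy)
    rw [inner_neg_right] at this
    linarith
  have := tan_frame hy h hV'y
  rwa [real_inner_comm] at this

theorem mm_sq {y : E3} (hy : y ∈ UU) {φ ξ η : ℝ} (h : Rep y φ ξ η) : 
    1 - mm y ^ 2 = ⟪VV (-y), nn φ⟫_ℝ ^ 2 := by
  have e := VV_neg_frame hy h
  have h1 := inner_VV_self (neg_mem_UU.2 hy)
  set c := ⟪VV (-y), nn φ⟫_ℝ
  rw [e] at h1
  have h2 := inner_VV_nn hy h
  have h2' : ⟪nn φ, VV y⟫_ℝ = 0 := by rw [real_inner_comm]; exact h2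
  simp only [inner_add_left, inner_add_right, inner_smul_left, inner_smul_right,
    conj_trivial, h2, h2', inner_VV_self hy, in_nn] at h1
  linear_combination -h1

theorem mm_lt {y : E3} (hy : y ∈ UU) : 0 < 1 - mm y ^ 2 := by
  obtain ⟨φ, ξ, η, h⟩ := exists_rep hy
  rw [mm_sq hy h]
  have := nonpar hy h
  positivity

/-! ### The cutoff -/

/-- The cutoff function. -/
noncomputable def kap (y : E3) : ℝ := Real.smoothTransition (1 - 400 * (y 2 ^ 2 / ‖y‖ ^ 2))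

theorem kap_neg (y : E3) : kap (-y) = kap y := by
  unfold kap
  simp

theorem kap_nonneg (y : E3) : 0 ≤ kap y := Real.smoothTransition.nonneg _
theorem kap_le_one (y : E3) : kap y ≤ 1 := Real.smoothTransition.le_one _

theorem kap_one {y : E3} (h : y 2 = 0) : kap y = 1 := by
  unfold kap
  rw [h]
  apply Real.smoothTransition.one_of_one_le
  norm_num

theorem contDiffAt_kap {y : E3} (hy : y ≠ 0) : ContDiffAt ℝ ∞ kap y := by
  unfold kap
  have h1 : ContDiffAt ℝ ∞ (fun y : E3 => ‖y‖ ^ 2) y := contDiffAt_id.norm_sq ℝ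
  have h2 : ‖y‖ ^ 2 ≠ 0 := pow_ne_zero 2 (norm_ne_zero_iff.2 hy)
  have h3 : ContDiffAt ℝ ∞ (fun y : E3 => y 2) y := by fun_prop
  have h4 : ContDiffAt ℝ ∞ (fun y : E3 => 1 - 400 * (y 2 ^ 2 / ‖y‖ ^ 2)) y := 
    contDiffAt_const.sub (contDiffAt_const.mul ((h3.pow 2).div h1 h2))
  exact (Real.smoothTransition.contDiff (n := ⊤)).contDiffAt.comp y h4

theorem kap_eventually {y : E3} (hy : y ≠ 0) (hU : y ∉ UU) : ∀ᶠ z in 𝓝 y, kap z = 0 := by
  have hU' : y 0 ^ 2 + y 1 ^ 2 ≤ 100 * y 2 ^ 2 := not_lt.1 hU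
  have h2 : ‖y‖ ^ 2 ≠ 0 := pow_ne_zero 2 (norm_ne_zero_iff.2 hy)
  have h2' : 0 < ‖y‖ ^ 2 := lt_of_le_of_ne (sq_nonneg _) (Ne.symm h2)
  have hc : ContinuousAt (fun z : E3 => 1 - 400 * (z 2 ^ 2 / ‖z‖ ^ 2)) y := by
    have h3 : Continuous (fun z : E3 => z 2) := by fun_prop
    have h4 : Continuous (fun z : E3 => ‖z‖ ^ 2) := by fun_prop
    exact continuousAt_const.sub (continuousAt_const.mul 
      (((h3.pow 2).continuousAt).div h4.continuousAt h2))
  have hneg : 1 - 400 * (y 2 ^ 2 / ‖y‖ ^ 2) < 0 := by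
    rw [sub_neg, ← mul_div_assoc, lt_div_iff₀ h2', normsq3]
    have : 0 < y 2 ^ 2 := by
      rw [normsq3] at h2'
      nlinarith
    linarith
  filter_upwards [hc.eventually (gt_mem_nhds hneg)] with z hz
  exact Real.smoothTransition.zero_of_nonpos (le_of_lt hz)

theorem kap_of_not {y : E3} (hy : y ≠ 0) (hU : y ∉ UU) : kap y = 0 := 
  (kap_eventually hy hU).self_of_nhds

theorem kap_far {y : E3} (hy : ‖y‖ = 1) (h : 1 ≤ 400 * y 2 ^ 2) : kap y = 0 := by
  unfold kap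
  apply Real.smoothTransition.zero_of_nonpos
  rw [hy]
  linarith

/-! ### The deformation parameter -/

/-- The amplitude as function of the parameter. -/
noncomputable def hh (τ : ℝ) : ℝ := τ / (4 * (1 + τ ^ 2))

theorem hh_zero : hh 0 = 0 := by simp [hh]

theorem hh_pos {τ : ℝ} (h : 0 < τ) : 0 < hh τ := by unfold hh; positivity

theorem hh_abs (τ : ℝ) : |hh τ| ≤ 1 / 8 := by
  unfold hh
  rw [abs_div, abs_of_pos (by positivity : 0 < 4 * (1 + τ ^ 2)), div_le_iff₀ (by positivity)]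
  have := sq_nonneg (|τ| - 1)
  have h2 : |τ| ^ 2 = τ ^ 2 := sq_abs τ
  nlinarith

theorem contDiff_hh : ContDiff ℝ ∞ hh := by
  unfold hh
  apply ContDiff.div (by fun_prop) (by fun_prop)
  intro x
  positivity

theorem hh_lip (τ σ : ℝ) : |hh τ - hh σ| ≤ |τ - σ| := by
  have e : hh τ - hh σ = (τ - σ) * ((1 - τ * σ) / (4 * ((1 + τ ^ 2) * (1 + σ ^ 2)))) := by
    unfold hh
    have h1 : 1 + τ ^ 2 ≠ 0 := by positivity
    have h2 : 1 + σ ^ 2 ≠ 0 := by positivity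
    field_simp
    ring
  rw [e, abs_mul]
  have h3 : |(1 - τ * σ) / (4 * ((1 + τ ^ 2) * (1 + σ ^ 2)))| ≤ 1 := by
    rw [abs_div, abs_of_pos (by positivity : 0 < 4 * ((1 + τ ^ 2) * (1 + σ ^ 2))), 
      div_le_one (by positivity), abs_le]
    constructor <;> 
      nlinarith [sq_nonneg (τ - σ), sq_nonneg (τ + σ), sq_nonneg τ, sq_nonneg σ, 
        sq_nonneg (τ * σ)]
  exact mul_le_of_le_one_right (abs_nonneg _) h3

/-- The perturbed cosine. -/
noncomputable def mp (τ : ℝ) (y : E3) : ℝ := mm y - hh τ * kap y * (1 - mm y ^ 2)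

theorem mp_lt (τ : ℝ) {y : E3} (hy : y ∈ UU) : 0 < 1 - mp τ y ^ 2 := by
  have h1 := mm_lt hy
  have h2 : |mm y| < 1 := by
    rw [← sq_lt_one_iff_abs_lt_one]
    linarith
  obtain ⟨h3, h4⟩ := abs_lt.1 h2
  have h5 : |hh τ * kap y| ≤ 1 / 8 := by
    rw [abs_mul, abs_of_nonneg (kap_nonneg y)]
    have := hh_abs τ
    have := kap_le_one y
    have := kap_nonneg y
    have := abs_nonneg (hh τ)
    nlinarith
  obtain ⟨h6, h7⟩ := abs_le.1 h5
  unfold mp
  set c := hh τ * kap y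
  set m := mm y
  have h8 : 0 < 1 - (m - c * (1 - m ^ 2)) := by
    have : 1 - (m - c * (1 - m ^ 2)) = (1 - m) * (1 + c * (1 + m)) := by ring
    rw [this]
    apply mul_pos (by linarith)
    nlinarith
  have h9 : 0 < 1 + (m - c * (1 - m ^ 2)) := by
    have : 1 + (m - c * (1 - m ^ 2)) = (1 + m) * (1 - c * (1 - m)) := by ring
    rw [this]
    apply mul_pos (by linarith)
    nlinarith
  nlinarith

/-- First coefficient. -/
noncomputable def c1 (τ : ℝ) (y : E3) : ℝ := (1 - mp τ y ^ 2)⁻¹ - (1 - mm y ^ 2)⁻¹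
/-- Second coefficient. -/
noncomputable def c2 (τ : ℝ) (y : E3) : ℝ := 
  mm y * (1 - mm y ^ 2)⁻¹ - mp τ y * (1 - mp τ y ^ 2)⁻¹

/-- The metric. -/
noncomputable def GG (τ : ℝ) (y v w : E3) : ℝ := ⟪v, w⟫_ℝ + 
    c1 τ y * (⟪VV y, v⟫_ℝ * ⟪VV y, w⟫_ℝ + ⟪VV (-y), v⟫_ℝ * ⟪VV (-y), w⟫_ℝ) +
    c2 τ y * (⟪VV y, v⟫_ℝ * ⟪VV (-y), w⟫_ℝ + ⟪VV (-y), v⟫_ℝ * ⟪VV y, w⟫_ℝ)

theorem GG_symm (τ : ℝ) (y v w : E3) : GG τ y v w = GG τ y w v := by
  unfold GG
  rw [real_inner_comm]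
  ring

theorem GG_add (τ : ℝ) (y u v w : E3) : GG τ y (u + v) w = GG τ y u w + GG τ y v w := by
  unfold GG
  simp only [inner_add_left, inner_add_right]
  ring

theorem GG_smul (τ : ℝ) (y : E3) (a : ℝ) (v w : E3) : GG τ y (a • v) w = a * GG τ y v w := by
  unfold GG
  simp only [inner_smul_left, inner_smul_right, conj_trivial]
  ring

theorem GG_sub (τ : ℝ) (y u v w : E3) : GG τ y (u - v) w = GG τ y u w - GG τ y v w := by
  unfold GG
  simp only [inner_sub_left, inner_sub_right]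
  ring

theorem GG_neg_left (τ : ℝ) (y u w : E3) : GG τ y (-u) w = -GG τ y u w := by
  unfold GG
  simp only [inner_neg_left, inner_neg_right]
  ring

theorem mp_of_kap {τ : ℝ} {y : E3} (h : kap y = 0) : mp τ y = mm y := by
  unfold mp; rw [h]; ring

theorem GG_of_kap {τ : ℝ} {y : E3} (h : kap y = 0) (v w : E3) : GG τ y v w = ⟪v, w⟫_ℝ := by
  have h1 := mp_of_kap (τ := τ) h
  have e1 : c1 τ y = 0 := by unfold c1; rw [h1]; ring
  have e2 : c2 τ y = 0 := by unfold c2; rw [h1]; ring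
  unfold GG
  rw [e1, e2]
  ring

theorem GG_zero (y v w : E3) : GG 0 y v w = ⟪v, w⟫_ℝ := by
  have h1 : mp 0 y = mm y := by unfold mp; rw [hh_zero]; ring
  have e1 : c1 0 y = 0 := by unfold c1; rw [h1]; ring
  have e2 : c2 0 y = 0 := by unfold c2; rw [h1]; ring
  unfold GG
  rw [e1, e2]
  ring

theorem mp_neg (τ : ℝ) (y : E3) : mp τ (-y) = mp τ y := by
  unfold mp; rw [mm_neg, kap_neg]

theorem GG_neg (τ : ℝ) (y v w : E3) : GG τ (-y) v w = GG τ y v w := by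
  have e1 : c1 τ (-y) = c1 τ y := by unfold c1; rw [mp_neg, mm_neg]
  have e2 : c2 τ (-y) = c2 τ y := by unfold c2; rw [mp_neg, mm_neg]
  unfold GG
  rw [e1, e2, neg_neg]
  ring

theorem GG_pos (τ : ℝ) {y : E3} (hy : y ≠ 0) {v : E3} (hv : v ≠ 0) : 0 < GG τ y v v := by
  by_cases hU : y ∈ UU
  · have h1 := mm_lt hU
    have h2 := mp_lt τ hU
    set m := mm y with hm
    set p := mp τ y with hp
    set α := ⟪VV y, v⟫_ℝ with hα
    set β := ⟪VV (-y), v⟫_ℝ with hβ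
    set w : E3 := v - (1 - m ^ 2)⁻¹ • ((α - m * β) • VV y + (β - m * α) • VV (-y)) with hw
    have hw2 : ⟪w, w⟫_ℝ = ⟪v, v⟫_ℝ - (1 - m ^ 2)⁻¹ * (α ^ 2 - 2 * m * α * β + β ^ 2) := by
      have i1 := inner_VV_self hU
      have i2 := inner_VV_self (neg_mem_UU.2 hU)
      have i3 : ⟪VV y, VV (-y)⟫_ℝ = m := rfl
      have i4 : ⟪VV (-y), VV y⟫_ℝ = m := by rw [real_inner_comm]; rfl
      have i5 : ⟪v, VV y⟫_ℝ = α := by rw [real_inner_comm]
      have i6 : ⟪v, VV (-y)⟫_ℝ = β := by rw [real_inner_comm]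
      rw [hw]
      simp only [inner_sub_left, inner_sub_right, inner_smul_left, inner_smul_right, inner_add_left,
        inner_add_right, i1, i2, i3, i4, i5, i6, conj_trivial]
      have i7 : (1 - m ^ 2)⁻¹ * (1 - m ^ 2) = 1 := inv_mul_cancel₀ h1.ne'
      linear_combination (1 - m ^ 2)⁻¹ * (α ^ 2 - 2 * m * α * β + β ^ 2) * i7
    have hG : GG τ y v v = ⟪w, w⟫_ℝ + (1 - p ^ 2)⁻¹ * (α ^ 2 - 2 * p * α * β + β ^ 2) := by
      rw [hw2]
      unfold GG c1 c2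
      rw [← hm, ← hp, ← hα, ← hβ]
      ring
    have hq : 0 ≤ α ^ 2 - 2 * p * α * β + β ^ 2 := by
      have : α ^ 2 - 2 * p * α * β + β ^ 2 = (α - p * β) ^ 2 + (1 - p ^ 2) * β ^ 2 := by ring
      rw [this]
      positivity
    have hwn : 0 ≤ ⟪w, w⟫_ℝ := real_inner_self_nonneg
    rcases hq.lt_or_eq with hq' | hq'
    · rw [hG]
      have := inv_pos.2 h2
      have := mul_pos this hq'
      linarith
    · have hβ0 : β = 0 := by
        have e : α ^ 2 - 2 * p * α * β + β ^ 2 = (α - p * β) ^ 2 + (1 - p ^ 2) * β ^ 2 := by ring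
        rw [e] at hq'
        have g1 := sq_nonneg (α - p * β)
        have g2 := mul_nonneg h2.le (sq_nonneg β)
        have g3 : (1 - p ^ 2) * β ^ 2 = 0 := by linarith
        rcases mul_eq_zero.1 g3 with g | g
        · exact absurd g h2.ne'
        · exact pow_eq_zero_iff two_ne_zero |>.1 g
      have hα0 : α = 0 := by
        rw [hβ0] at hq'
        have : α ^ 2 = 0 := by linarith
        exact pow_eq_zero_iff two_ne_zero |>.1 this
      have hwv : w = v := by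
        rw [hw, hα0, hβ0]
        simp
      rw [hG, hwv, ← hq']
      have := real_inner_self_pos.2 hv
      linarith
  · rw [GG_of_kap (kap_of_not hy hU)]
    exact real_inner_self_pos.2 hv

/-! ### Smoothness -/

theorem contDiffAt_VVn {y : E3} (hy : y ∈ UU) : ContDiffAt ℝ ∞ (fun z => VV (-z)) y := 
  ContDiffAt.comp y (contDiffAt_VV (neg_mem_UU.2 hy)) contDiff_neg.contDiffAt

theorem contDiffAt_mm {y : E3} (hy : y ∈ UU) : ContDiffAt ℝ ∞ mm y := 
  (contDiffAt_VV hy).inner ℝ (contDiffAt_VVn hy)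

theorem contDiffAt_mp {τ : ℝ} {y : E3} (hy : y ∈ UU) : 
    ContDiffAt ℝ ∞ (fun p : ℝ × E3 => mp p.1 p.2) (τ, y) := by
  have h1 : ContDiffAt ℝ ∞ (fun p : ℝ × E3 => mm p.2) (τ, y) := 
    (contDiffAt_mm hy).comp (τ, y) contDiffAt_snd
  have h2 : ContDiffAt ℝ ∞ (fun p : ℝ × E3 => hh p.1) (τ, y) := 
    contDiff_hh.contDiffAt.comp (τ, y) contDiffAt_fst
  have h3 : ContDiffAt ℝ ∞ (fun p : ℝ × E3 => kap p.2) (τ, y) := 
    ContDiffAt.comp (g := kap) (τ, y) (contDiffAt_kap (ne_zero_of_UU hy)) contDiffAt_snd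
  exact h1.sub ((h2.mul h3).mul (contDiffAt_const.sub (h1.pow 2)))

/-- Joint smoothness of the metric coefficients. -/
theorem contDiffAt_GG {X : Type*} [NormedAddCommGroup X] [NormedSpace ℝ X] {x : X}
    {t : X → ℝ} {f v w : X → E3} (ht : ContDiffAt ℝ ∞ t x) (hf : ContDiffAt ℝ ∞ f x)
    (hv : ContDiffAt ℝ ∞ v x) (hw : ContDiffAt ℝ ∞ w x) (hy : f x ≠ 0) : 
    ContDiffAt ℝ ∞ (fun z => GG (t z) (f z) (v z) (w z)) x := by
  have hvw := hv.inner ℝ hw
  by_cases hU : f x ∈ UU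
  · have h1 : ContDiffAt ℝ ∞ (fun z => mm (f z)) x := (contDiffAt_mm hU).comp x hf
    have h2 : ContDiffAt ℝ ∞ (fun z => mp (t z) (f z)) x := 
      ContDiffAt.comp (g := fun p : ℝ × E3 => mp p.1 p.2) (f := fun z => (t z, f z)) x 
        (contDiffAt_mp (τ := t x) hU) (ht.prodMk hf)
    have h3 : ContDiffAt ℝ ∞ (fun z => (1 - mm (f z) ^ 2)⁻¹) x := 
      (contDiffAt_const.sub (h1.pow 2)).inv (mm_lt hU).ne'
    have h4 : ContDiffAt ℝ ∞ (fun z => (1 - mp (t z) (f z) ^ 2)⁻¹) x := 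
      (contDiffAt_const.sub (h2.pow 2)).inv (mp_lt (t x) hU).ne'
    have h5 : ContDiffAt ℝ ∞ (fun z => c1 (t z) (f z)) x := h4.sub h3
    have h6 : ContDiffAt ℝ ∞ (fun z => c2 (t z) (f z)) x := (h1.mul h3).sub (h2.mul h4)
    have h7 : ContDiffAt ℝ ∞ (fun z => VV (f z)) x := (contDiffAt_VV hU).comp x hf
    have h8 : ContDiffAt ℝ ∞ (fun z => VV (-f z)) x := (contDiffAt_VVn hU).comp x hf
    exact (hvw.add (h5.mul (((h7.inner ℝ hv).mul (h7.inner ℝ hw)).add 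
      ((h8.inner ℝ hv).mul (h8.inner ℝ hw))))).add 
      (h6.mul (((h7.inner ℝ hv).mul (h8.inner ℝ hw)).add ((h8.inner ℝ hv).mul (h7.inner ℝ hw))))
  · have : (fun z => GG (t z) (f z) (v z) (w z)) =ᶠ[𝓝 x] fun z => ⟪v z, w z⟫_ℝ := by
      have h1 : ∀ᶠ z in 𝓝 x, kap (f z) = 0 := 
        hf.continuousAt.eventually (kap_eventually hy hU)
      filter_upwards [h1] with z hz
      exact GG_of_kap hz _ _
    exact hvw.congr_of_eventuallyEq this

theorem contDiffAt_GG' (τ : ℝ) {y : E3} (hy : y ≠ 0) (v w : E3) : 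
    ContDiffAt ℝ ∞ (fun z => GG τ z v w) y := 
  contDiffAt_GG contDiffAt_const contDiffAt_id contDiffAt_const contDiffAt_const hy

end Pool.Agent.Lib.MP_d2b992_gt
end

section
/-!
# The curvature of the perturbed metrics
-/
namespace Pool.Agent.Lib.MP_d2b992_gt

open Set Filter Topology Real
open scoped InnerProductSpace ContDiff

/-! ### The chart -/

/-- The conformal weight. -/
noncomputable def II (p : ℝ × ℝ) : ℝ := (1 + p.1 ^ 2 + p.2 ^ 2)⁻¹

theorem II_mul (p : ℝ × ℝ) : II p * (1 + p.1 ^ 2 + p.2 ^ 2) = 1 := 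
  inv_mul_cancel₀ (by positivity)

theorem II_pos (p : ℝ × ℝ) : 0 < II p := by unfold II; positivity

theorem contDiff_II : ContDiff ℝ ∞ II := by
  unfold II
  apply ContDiff.inv (by fun_prop)
  intro p
  positivity

theorem stereo_eq (s : ℝ) (p : ℝ × ℝ) : 
    stereo s p = vec (2 * (p.1 * II p)) (2 * (p.2 * II p)) (s * (2 * II p - 1)) := by
  have h := II_mul p
  unfold stereo
  apply ext3
  · simp [II]
    ring
  · simp [II]
    ring
  · simp only [PiLp.smul_apply, smul_eq_mul, vec_two']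
    show (1 + p.1 ^ 2 + p.2 ^ 2)⁻¹ * (s * (1 - p.1 ^ 2 - p.2 ^ 2)) = _
    change II p * (s * (1 - p.1 ^ 2 - p.2 ^ 2)) = _
    linear_combination (-s) * h

theorem contDiff_stereo (s : ℝ) : ContDiff ℝ ∞ (stereo s) := by
  have h : stereo s = fun p => 
      vec (2 * (p.1 * II p)) (2 * (p.2 * II p)) (s * (2 * II p - 1)) := by
    funext p
    exact stereo_eq s p
  rw [h]
  have := contDiff_II
  exact contDiff_vec (by fun_prop) (by fun_prop) (by fun_prop)

theorem norm_stereo {s : ℝ} (hs : s = 1 ∨ s = -1) (p : ℝ × ℝ) : ‖stereo s p‖ = 1 := by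
  have h := II_mul p
  have hs2 : s ^ 2 = 1 := by rcases hs with rfl | rfl <;> norm_num
  have h2 : ‖stereo s p‖ ^ 2 = 1 := by
    rw [stereo_eq, normsq3]
    simp only [vec_zero', vec_one', vec_two']
    linear_combination (2 * II p - 1) ^ 2 * hs2 + 4 * II p * h
  exact (pow_eq_one_iff_of_nonneg (norm_nonneg _) two_ne_zero).1 h2

theorem stereo_ne {s : ℝ} (hs : s = 1 ∨ s = -1) (p : ℝ × ℝ) : stereo s p ≠ 0 := by
  rw [← norm_ne_zero_iff, norm_stereo hs]; norm_num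

/-! ### Partial derivatives -/

theorem du_eq {X : Type*} [NormedAddCommGroup X] [NormedSpace ℝ X] {f : ℝ × ℝ → X} {x : X} 
    {p : ℝ × ℝ} (hf : DifferentiableAt ℝ f p) (h : HasDerivAt (fun t => f (t, p.2)) x p.1) : 
    du f p = x := by
  have h1 : HasDerivAt (fun t : ℝ => ((t, p.2) : ℝ × ℝ)) ((1, 0) : ℝ × ℝ) p.1 := 
    (hasDerivAt_id p.1).prodMk (hasDerivAt_const p.1 p.2)
  have h2 : HasFDerivAt f (fderiv ℝ f p) ((p.1, p.2) : ℝ × ℝ) := hf.hasFDerivAt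
  exact (h2.comp_hasDerivAt p.1 h1).unique h

theorem dv_eq {X : Type*} [NormedAddCommGroup X] [NormedSpace ℝ X] {f : ℝ × ℝ → X} {x : X} 
    {p : ℝ × ℝ} (hf : DifferentiableAt ℝ f p) (h : HasDerivAt (fun t => f (p.1, t)) x p.2) : 
    dv f p = x := by
  have h1 : HasDerivAt (fun t : ℝ => ((p.1, t) : ℝ × ℝ)) ((0, 1) : ℝ × ℝ) p.2 := 
    (hasDerivAt_const p.2 p.1).prodMk (hasDerivAt_id p.2)
  have h2 : HasFDerivAt f (fderiv ℝ f p) ((p.1, p.2) : ℝ × ℝ) := hf.hasFDerivAt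
  exact (h2.comp_hasDerivAt p.2 h1).unique h

theorem hasDerivAt_II_u (u v : ℝ) : 
    HasDerivAt (fun t => II (t, v)) (-(2 * u) * II (u, v) ^ 2) u := by
  unfold II
  simp only
  have h1 : HasDerivAt (fun t : ℝ => 1 + t ^ 2 + v ^ 2) (2 * u) u := by
    have := (((hasDerivAt_id u).pow 2).const_add 1).add_const (v ^ 2)
    apply this.congr_deriv
    simp
  have h2 := h1.inv (by positivity : 1 + u ^ 2 + v ^ 2 ≠ 0)
  apply h2.congr_deriv
  field_simp

theorem hasDerivAt_II_v (u v : ℝ) : 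
    HasDerivAt (fun t => II (u, t)) (-(2 * v) * II (u, v) ^ 2) v := by
  unfold II
  simp only
  have h1 : HasDerivAt (fun t : ℝ => 1 + u ^ 2 + t ^ 2) (2 * v) v := by
    have := (((hasDerivAt_id v).pow 2).const_add (1 + u ^ 2))
    apply this.congr_deriv
    simp
  have h2 := h1.inv (by positivity : 1 + u ^ 2 + v ^ 2 ≠ 0)
  apply h2.congr_deriv
  field_simp

theorem du_stereo (s : ℝ) (p : ℝ × ℝ) : du (stereo s) p = 
    vec (2 * (II p + p.1 * (-(2 * p.1) * II p ^ 2))) (2 * (p.2 * (-(2 * p.1) * II p ^ 2)))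
      (s * (2 * (-(2 * p.1) * II p ^ 2))) := by
  apply du_eq ((contDiff_stereo s).differentiable (by simp) p)
  simp only [stereo_eq]
  have h := hasDerivAt_II_u p.1 p.2
  have h1 : HasDerivAt (fun t : ℝ => 2 * (t * II (t, p.2))) 
      (2 * (II p + p.1 * (-(2 * p.1) * II p ^ 2))) p.1 := by
    apply (((hasDerivAt_id p.1).mul h).const_mul 2).congr_deriv
    simp
  have h2 : HasDerivAt (fun t : ℝ => 2 * (p.2 * II (t, p.2))) 
      (2 * (p.2 * (-(2 * p.1) * II p ^ 2))) p.1 := (h.const_mul p.2).const_mul 2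
  have h3 : HasDerivAt (fun t : ℝ => s * (2 * II (t, p.2) - 1)) 
      (s * (2 * (-(2 * p.1) * II p ^ 2))) p.1 := ((h.const_mul 2).sub_const 1).const_mul s
  exact hasDerivAt_vec h1 h2 h3

theorem dv_stereo (s : ℝ) (p : ℝ × ℝ) : dv (stereo s) p = 
    vec (2 * (p.1 * (-(2 * p.2) * II p ^ 2))) (2 * (II p + p.2 * (-(2 * p.2) * II p ^ 2))) 
      (s * (2 * (-(2 * p.2) * II p ^ 2))) := by
  apply dv_eq ((contDiff_stereo s).differentiable (by simp) p)
  simp only [stereo_eq]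
  have h := hasDerivAt_II_v p.1 p.2
  have h1 : HasDerivAt (fun t : ℝ => 2 * (t * II (p.1, t))) 
      (2 * (II p + p.2 * (-(2 * p.2) * II p ^ 2))) p.2 := by
    apply (((hasDerivAt_id p.2).mul h).const_mul 2).congr_deriv
    simp
  have h2 : HasDerivAt (fun t : ℝ => 2 * (p.1 * II (p.1, t))) 
      (2 * (p.1 * (-(2 * p.2) * II p ^ 2))) p.2 := (h.const_mul p.1).const_mul 2
  have h3 : HasDerivAt (fun t : ℝ => s * (2 * II (p.1, t) - 1)) 
      (s * (2 * (-(2 * p.2) * II p ^ 2))) p.2 := ((h.const_mul 2).sub_const 1).const_mul s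
  exact hasDerivAt_vec h2 h1 h3

/-- The round metric in the chart. -/
theorem round_E {s : ℝ} (hs : s = 1 ∨ s = -1) (p : ℝ × ℝ) : 
    ⟪du (stereo s) p, du (stereo s) p⟫_ℝ = 4 * II p ^ 2 := by
  have h := II_mul p
  have hs2 : s ^ 2 = 1 := by rcases hs with rfl | rfl <;> norm_num
  rw [du_stereo, inner3]
  simp only [vec_zero', vec_one', vec_two']
  linear_combination 16 * p.1 ^ 2 * II p ^ 4 * hs2 + 16 * p.1 ^ 2 * II p ^ 3 * h

theorem round_G {s : ℝ} (hs : s = 1 ∨ s = -1) (p : ℝ × ℝ) : 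
    ⟪dv (stereo s) p, dv (stereo s) p⟫_ℝ = 4 * II p ^ 2 := by
  have h := II_mul p
  have hs2 : s ^ 2 = 1 := by rcases hs with rfl | rfl <;> norm_num
  rw [dv_stereo, inner3]
  simp only [vec_zero', vec_one', vec_two']
  linear_combination 16 * p.2 ^ 2 * II p ^ 4 * hs2 + 16 * p.2 ^ 2 * II p ^ 3 * h

theorem round_F {s : ℝ} (hs : s = 1 ∨ s = -1) (p : ℝ × ℝ) : 
    ⟪du (stereo s) p, dv (stereo s) p⟫_ℝ = 0 := by
  have h := II_mul p
  have hs2 : s ^ 2 = 1 := by rcases hs with rfl | rfl <;> norm_num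
  rw [du_stereo, dv_stereo, inner3]
  simp only [vec_zero', vec_one', vec_two']
  linear_combination 16 * p.1 * p.2 * II p ^ 4 * hs2 + 16 * p.1 * p.2 * II p ^ 3 * h

theorem du_lam (p : ℝ × ℝ) : du (fun q => 4 * II q ^ 2) p = -16 * (p.1 * II p ^ 3) := by
  have hd : ContDiff ℝ ∞ (fun q => 4 * II q ^ 2) := by
    have := contDiff_II
    fun_prop
  apply du_eq (hd.differentiable (by simp) p)
  have h := hasDerivAt_II_u p.1 p.2
  apply ((h.pow 2).const_mul 4).congr_deriv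
  simp
  ring

theorem dv_lam (p : ℝ × ℝ) : dv (fun q => 4 * II q ^ 2) p = -16 * (p.2 * II p ^ 3) := by
  have hd : ContDiff ℝ ∞ (fun q => 4 * II q ^ 2) := by
    have := contDiff_II
    fun_prop
  apply dv_eq (hd.differentiable (by simp) p)
  have h := hasDerivAt_II_v p.1 p.2
  apply ((h.pow 2).const_mul 4).congr_deriv
  simp
  ring

theorem du_du_lam (p : ℝ × ℝ) : du (fun q => -16 * (q.1 * II q ^ 3)) p = 
    -16 * II p ^ 3 + 96 * p.1 ^ 2 * II p ^ 4 := by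
  have hd : ContDiff ℝ ∞ (fun q : ℝ × ℝ => -16 * (q.1 * II q ^ 3)) := by
    have := contDiff_II
    fun_prop
  apply du_eq (hd.differentiable (by simp) p)
  have h := hasDerivAt_II_u p.1 p.2
  apply (((hasDerivAt_id p.1).mul (h.pow 3)).const_mul (-16)).congr_deriv
  simp
  ring

theorem dv_dv_lam (p : ℝ × ℝ) : dv (fun q => -16 * (q.2 * II q ^ 3)) p = 
    -16 * II p ^ 3 + 96 * p.2 ^ 2 * II p ^ 4 := by
  have hd : ContDiff ℝ ∞ (fun q : ℝ × ℝ => -16 * (q.2 * II q ^ 3)) := by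
    have := contDiff_II
    fun_prop
  apply dv_eq (hd.differentiable (by simp) p)
  have h := hasDerivAt_II_v p.1 p.2
  apply (((hasDerivAt_id p.2).mul (h.pow 3)).const_mul (-16)).congr_deriv
  simp
  ring

/-- The round metric has curvature one. -/
theorem brioschi_round (p : ℝ × ℝ) : 
    brioschi (fun q => 4 * II q ^ 2) (fun _ => 0) (fun q => 4 * II q ^ 2) p = 1 := by
  have h := II_mul p
  have hI := II_pos p
  have e1 : du (fun q => 4 * II q ^ 2) = fun p => -16 * (p.1 * II p ^ 3) := funext du_lam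
  have e2 : dv (fun q => 4 * II q ^ 2) = fun p => -16 * (p.2 * II p ^ 3) := funext dv_lam
  have e3 : dv (fun _ : ℝ × ℝ => (0:ℝ)) = fun _ => 0 := by
    funext q
    simp [dv]
  have e4 : du (fun _ : ℝ × ℝ => (0:ℝ)) = fun _ => 0 := by
    funext q
    simp [du]
  unfold brioschi
  rw [e1, e2, e3, e4, du_du_lam, dv_dv_lam]
  simp only [Matrix.det_fin_three, Matrix.of_apply, Matrix.cons_val', Matrix.cons_val_zero, 
    Matrix.cons_val_one, Matrix.cons_val]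
  have hne : (4 * II p ^ 2 * (4 * II p ^ 2) - 0 ^ 2) ^ 2 ≠ 0 := by
    have : 4 * II p ^ 2 * (4 * II p ^ 2) - 0 ^ 2 = 16 * II p ^ 4 := by ring
    rw [this]
    positivity
  rw [div_eq_one_iff_eq hne]
  set I := II p
  linear_combination (-256 * I ^ 7) * h

/-! ### Dependence on the parameter -/

theorem brioschi_congr {E F G E' F' G' : ℝ × ℝ → ℝ} {p : ℝ × ℝ} (hE : E =ᶠ[𝓝 p] E') 
    (hF : F =ᶠ[𝓝 p] F') (hG : G =ᶠ[𝓝 p] G') : brioschi E F G p = brioschi E' F' G' p := by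
  have hu : ∀ {f g : ℝ × ℝ → ℝ}, f =ᶠ[𝓝 p] g → du f =ᶠ[𝓝 p] du g := by
    intro f g h
    filter_upwards [h.fderiv (𝕜 := ℝ)] with q hq
    unfold du
    rw [hq]
  have hv : ∀ {f g : ℝ × ℝ → ℝ}, f =ᶠ[𝓝 p] g → dv f =ᶠ[𝓝 p] dv g := by
    intro f g h
    filter_upwards [h.fderiv (𝕜 := ℝ)] with q hq
    unfold dv
    rw [hq]
  unfold brioschi
  rw [hE.self_of_nhds, hF.self_of_nhds, hG.self_of_nhds, (hu hE).self_of_nhds, 
    (hv hE).self_of_nhds, (hu hF).self_of_nhds, (hv hF).self_of_nhds, (hu hG).self_of_nhds,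
    (hv hG).self_of_nhds, (hv (hv hE)).self_of_nhds, (hu (hv hF)).self_of_nhds, 
    (hu (hu hG)).self_of_nhds]

/-- Partial derivatives of families. -/
theorem contDiff_du {f : ℝ × (ℝ × ℝ) → ℝ} (hf : ContDiff ℝ ∞ f) : 
    ContDiff ℝ ∞ (fun z : ℝ × (ℝ × ℝ) => du (fun q => f (z.1, q)) z.2) := by
  have e : (fun z : ℝ × (ℝ × ℝ) => du (fun q => f (z.1, q)) z.2) = 
      fun z => fderiv ℝ f z (0, (1, 0)) := by
    funext z
    have h1 : HasFDerivAt f (fderiv ℝ f z) (z.1, z.2) := (hf.differentiable (by simp) z).hasFDerivAt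
    have h2 := h1.comp z.2 (hasFDerivAt_prodMk_right z.1 z.2)
    have h3 : fderiv ℝ (fun q => f (z.1, q)) z.2 = 
      (fderiv ℝ f z).comp (ContinuousLinearMap.inr ℝ ℝ (ℝ × ℝ)) := h2.fderiv
    unfold du
    rw [h3]
    simp
  rw [e]
  exact (hf.fderiv_right (m := ∞) (by simp)).clm_apply contDiff_const

theorem contDiff_dv {f : ℝ × (ℝ × ℝ) → ℝ} (hf : ContDiff ℝ ∞ f) : 
    ContDiff ℝ ∞ (fun z : ℝ × (ℝ × ℝ) => dv (fun q => f (z.1, q)) z.2) := by
  have e : (fun z : ℝ × (ℝ × ℝ) => dv (fun q => f (z.1, q)) z.2) = 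
      fun z => fderiv ℝ f z (0, (0, 1)) := by
    funext z
    have h1 : HasFDerivAt f (fderiv ℝ f z) (z.1, z.2) := (hf.differentiable (by simp) z).hasFDerivAt
    have h2 := h1.comp z.2 (hasFDerivAt_prodMk_right z.1 z.2)
    have h3 : fderiv ℝ (fun q => f (z.1, q)) z.2 = 
      (fderiv ℝ f z).comp (ContinuousLinearMap.inr ℝ ℝ (ℝ × ℝ)) := h2.fderiv
    unfold dv
    rw [h3]
    simp
  rw [e]
  exact (hf.fderiv_right (m := ∞) (by simp)).clm_apply contDiff_const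

theorem continuousAt_brioschi {E F G : ℝ × (ℝ × ℝ) → ℝ} (hE : ContDiff ℝ ∞ E) 
    (hF : ContDiff ℝ ∞ F) (hG : ContDiff ℝ ∞ G) {z : ℝ × (ℝ × ℝ)} 
    (hz : E z * G z - F z ^ 2 ≠ 0) : 
    ContinuousAt (fun z : ℝ × (ℝ × ℝ) => brioschi (fun q => E (z.1, q)) (fun q => F (z.1, q)) 
      (fun q => G (z.1, q)) z.2) z := by
  have c1 := (contDiff_du hE).continuous
  have c2 := (contDiff_dv hE).continuous
  have c3 := (contDiff_du hF).continuous
  have c4 := (contDiff_dv hF).continuous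
  have c5 := (contDiff_du hG).continuous
  have c6 := (contDiff_dv hG).continuous
  have c7 := (contDiff_dv (contDiff_dv hE)).continuous
  have c8 := (contDiff_du (contDiff_dv hF)).continuous
  have c9 := (contDiff_du (contDiff_du hG)).continuous
  have b1 := hE.continuous
  have b2 := hF.continuous
  have b3 := hG.continuous
  simp only at c7 c8 c9
  unfold brioschi
  simp only [Matrix.det_fin_three, Matrix.of_apply, Matrix.cons_val', Matrix.cons_val_zero, 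
    Matrix.cons_val_one, Matrix.cons_val]
  apply ContinuousAt.div
  · apply Continuous.continuousAt
    fun_prop
  · apply Continuous.continuousAt
    fun_prop
  · exact pow_ne_zero 2 hz

/-- The perturbed metrics. -/
noncomputable def MM (τ : ℝ) : SphereMetric where
  g := GG τ
  add := GG_add τ
  smul := GG_smul τ
  symm := GG_symm τ
  smooth := by
    intro v w x hx
    exact contDiffAt_GG' τ (norm_ne_zero_iff.1 (by rw [hx]; norm_num)) v w
  pos := by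
    intro x v hx _ hv
    exact GG_pos τ (norm_ne_zero_iff.1 (by rw [hx]; norm_num)) hv

theorem contDiff_du_stereo (s : ℝ) : ContDiff ℝ ∞ (du (stereo s)) := by
  unfold du
  exact ((contDiff_stereo s).fderiv_right (m := ∞) (by simp)).clm_apply contDiff_const

theorem contDiff_dv_stereo (s : ℝ) : ContDiff ℝ ∞ (dv (stereo s)) := by
  unfold dv
  exact ((contDiff_stereo s).fderiv_right (m := ∞) (by simp)).clm_apply contDiff_const

theorem contDiff_coef {s : ℝ} (hs : s = 1 ∨ s = -1) {a b : ℝ × ℝ → E3} (ha : ContDiff ℝ ∞ a) 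
    (hb : ContDiff ℝ ∞ b) : 
    ContDiff ℝ ∞ (fun z : ℝ × (ℝ × ℝ) => GG z.1 (stereo s z.2) (a z.2) (b z.2)) := by
  rw [contDiff_iff_contDiffAt]
  intro z
  apply contDiffAt_GG
  · exact contDiffAt_fst
  · exact ContDiffAt.comp (g := stereo s) (f := fun z : ℝ × (ℝ × ℝ) => z.2) z 
      (contDiff_stereo s).contDiffAt contDiffAt_snd
  · exact ContDiffAt.comp (g := a) (f := fun z : ℝ × (ℝ × ℝ) => z.2) z 
      ha.contDiffAt contDiffAt_snd
  · exact ContDiffAt.comp (g := b) (f := fun z : ℝ × (ℝ × ℝ) => z.2) z 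
      hb.contDiffAt contDiffAt_snd
  · exact stereo_ne hs z.2

theorem cE_zero {s : ℝ} (hs : s = 1 ∨ s = -1) : (MM 0).cE s = fun q => 4 * II q ^ 2 := by
  funext q
  exact (GG_zero _ _ _).trans (round_E hs q)

theorem cF_zero {s : ℝ} (hs : s = 1 ∨ s = -1) : (MM 0).cF s = fun _ => 0 := by
  funext q
  exact (GG_zero _ _ _).trans (round_F hs q)

theorem cG_zero {s : ℝ} (hs : s = 1 ∨ s = -1) : (MM 0).cG s = fun q => 4 * II q ^ 2 := by
  funext q
  exact (GG_zero _ _ _).trans (round_G hs q)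

theorem curvature_zero {s : ℝ} (hs : s = 1 ∨ s = -1) (p : ℝ × ℝ) : (MM 0).curvature s p = 1 := by
  unfold SphereMetric.curvature
  rw [cE_zero hs, cF_zero hs, cG_zero hs, brioschi_round]

theorem kap_stereo_far {s : ℝ} (hs : s = 1 ∨ s = -1) {p : ℝ × ℝ} 
    (hp : p ∉ Metric.closedBall (0 : ℝ × ℝ) 2) : kap (stereo s p) = 0 := by
  have h1 : 2 < ‖p‖ := by
    rw [Metric.mem_closedBall, dist_zero_right] at hp
    exact not_le.1 hp
  have h2 : 4 < p.1 ^ 2 + p.2 ^ 2 := by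
    rw [Prod.norm_def, lt_max_iff, Real.norm_eq_abs, Real.norm_eq_abs] at h1
    rcases h1 with h | h
    · have : (2:ℝ) ^ 2 < |p.1| ^ 2 := pow_lt_pow_left₀ h (by norm_num) two_ne_zero
      rw [sq_abs] at this
      nlinarith [sq_nonneg p.2]
    · have : (2:ℝ) ^ 2 < |p.2| ^ 2 := pow_lt_pow_left₀ h (by norm_num) two_ne_zero
      rw [sq_abs] at this
      nlinarith [sq_nonneg p.1]
  apply kap_far (norm_stereo hs p)
  have hs2 : s ^ 2 = 1 := by rcases hs with rfl | rfl <;> norm_num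
  rw [stereo_eq, vec_two', mul_pow, hs2, one_mul]
  have h3 := II_mul p
  have h4 := II_pos p
  have h5 : II p ≤ 1 / 5 := by nlinarith
  nlinarith

theorem curvature_far {s : ℝ} (hs : s = 1 ∨ s = -1) (τ : ℝ) {p : ℝ × ℝ} 
    (hp : p ∉ Metric.closedBall (0 : ℝ × ℝ) 2) : (MM τ).curvature s p = 1 := by
  rw [← curvature_zero hs p]
  have hev : ∀ᶠ q in 𝓝 p, q ∉ Metric.closedBall (0 : ℝ × ℝ) 2 := 
    (Metric.isClosed_closedBall.isOpen_compl).mem_nhds hp
  unfold SphereMetric.curvature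
  apply brioschi_congr
  · filter_upwards [hev] with q hq
    exact (GG_of_kap (kap_stereo_far hs hq) _ _).trans (GG_of_kap (kap_stereo_far hs hq) _ _).symm
  · filter_upwards [hev] with q hq
    exact (GG_of_kap (kap_stereo_far hs hq) _ _).trans (GG_of_kap (kap_stereo_far hs hq) _ _).symm
  · filter_upwards [hev] with q hq
    exact (GG_of_kap (kap_stereo_far hs hq) _ _).trans (GG_of_kap (kap_stereo_far hs hq) _ _).symm

theorem curvature_near {s : ℝ} (hs : s = 1 ∨ s = -1) (p : ℝ × ℝ) : 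
    ContinuousAt (fun z : ℝ × (ℝ × ℝ) => (MM z.1).curvature s z.2) ((0, p) : ℝ × (ℝ × ℝ)) := by
  have hE := contDiff_coef hs (contDiff_du_stereo s) (contDiff_du_stereo s)
  have hF := contDiff_coef hs (contDiff_du_stereo s) (contDiff_dv_stereo s)
  have hG := contDiff_coef hs (contDiff_dv_stereo s) (contDiff_dv_stereo s)
  apply continuousAt_brioschi hE hF hG
  have hI := II_pos p
  simp only [GG_zero]
  rw [round_E hs, round_F hs, round_G hs]
  have : 4 * II p ^ 2 * (4 * II p ^ 2) - 0 ^ 2 = 16 * II p ^ 4 := by ring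
  rw [this]
  positivity

/-- The curvature is close to one for small parameters. -/
theorem curvature_close {ε : ℝ} (hε : 0 < ε) : ∃ τ0 > 0, ∀ τ ∈ Ioc 0 τ0, 
    ∀ s, (s = 1 ∨ s = -1) → ∀ p, |(MM τ).curvature s p - 1| < ε := by
  have key : ∀ s : ℝ, (s = 1 ∨ s = -1) → ∀ᶠ τ : ℝ in 𝓝 0, ∀ p ∈ Metric.closedBall (0 : ℝ × ℝ) 2, 
      |(MM τ).curvature s p - 1| < ε := by
    intro s hs
    apply (isCompact_closedBall (0 : ℝ × ℝ) 2).eventually_forall_of_forall_eventually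
    intro p _
    have h1 := curvature_near hs p
    have h2 : ∀ᶠ z : ℝ × (ℝ × ℝ) in 𝓝 ((0, p) : ℝ × (ℝ × ℝ)), 
        dist ((MM z.1).curvature s z.2) ((MM 0).curvature s p) < ε := 
      h1.eventually (Metric.ball_mem_nhds _ hε)
    filter_upwards [h2] with z hz
    rw [curvature_zero hs, Real.dist_eq] at hz
    exact hz
  have k1 := key 1 (Or.inl rfl)
  have k2 := key (-1) (Or.inr rfl)
  obtain ⟨δ, hδ, hδ2⟩ := Metric.eventually_nhds_iff.1 (k1.and k2)
  refine ⟨δ / 2, by positivity, ?_⟩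
  intro τ hτ s hs p
  by_cases hp : p ∈ Metric.closedBall (0 : ℝ × ℝ) 2
  · have h3 : dist τ 0 < δ := by
      rw [Real.dist_eq, sub_zero, abs_of_pos hτ.1]
      linarith [hτ.2]
    obtain ⟨h4, h5⟩ := hδ2 h3
    rcases hs with rfl | rfl
    · exact h4 p hp
    · exact h5 p hp
  · rw [curvature_far hs τ hp]
    simpa using hε

end Pool.Agent.Lib.MP_d2b992_gt
end

section
/-!
# The Euler equation along the perturbed geodesics
-/
namespace Pool.Agent.Lib.MP_d2b992_gt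

open Set Filter Topology Real
open scoped InnerProductSpace ContDiff

/-- The perturbed vector field. -/
noncomputable def VP (τ : ℝ) (y : E3) : E3 := 
  (1 + hh τ * kap y * mm y) • VV y - (hh τ * kap y) • VV (-y)

theorem inner_VV_VP (τ : ℝ) {y : E3} (hy : y ∈ UU) : ⟪VV y, VP τ y⟫_ℝ = 1 := by
  have i1 := inner_VV_self hy
  have i3 : ⟪VV y, VV (-y)⟫_ℝ = mm y := rfl
  unfold VP
  simp only [inner_sub_right, inner_smul_right, i1, i3]
  ring

theorem inner_VVn_VP (τ : ℝ) {y : E3} (hy : y ∈ UU) : ⟪VV (-y), VP τ y⟫_ℝ = mp τ y := by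
  have i2 := inner_VV_self (neg_mem_UU.2 hy)
  have i4 : ⟪VV (-y), VV y⟫_ℝ = mm y := by rw [real_inner_comm]; rfl
  unfold VP mp
  simp only [inner_sub_right, inner_smul_right, i2, i4]
  ring

/-- The key identity. -/
theorem GG_VP (τ : ℝ) {y : E3} (hy : y ∈ UU) (u : E3) : GG τ y (VP τ y) u = ⟪VV y, u⟫_ℝ := by
  have h1 := mm_lt hy
  have h2 := mp_lt τ hy
  have h3 := inner_VV_VP τ hy
  have h4 := inner_VVn_VP τ hy
  have h5 : ⟪VP τ y, u⟫_ℝ = (1 + hh τ * kap y * mm y) * ⟪VV y, u⟫_ℝ - 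
      (hh τ * kap y) * ⟪VV (-y), u⟫_ℝ := by
    unfold VP
    simp only [inner_sub_left, inner_smul_left, conj_trivial]
  have h6 : mp τ y = mm y - hh τ * kap y * (1 - mm y ^ 2) := rfl
  unfold GG c1 c2
  rw [h3, h4, h5]
  have i1 : (1 - mm y ^ 2)⁻¹ * (1 - mm y ^ 2) = 1 := inv_mul_cancel₀ h1.ne'
  have i2 : (1 - mp τ y ^ 2)⁻¹ * (1 - mp τ y ^ 2) = 1 := inv_mul_cancel₀ h2.ne'
  set a := hh τ * kap y
  set m := mm y
  set p := mp τ y
  set I := (1 - m ^ 2)⁻¹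
  set J := (1 - p ^ 2)⁻¹
  set α := ⟪VV y, u⟫_ℝ
  set β := ⟪VV (-y), u⟫_ℝ
  -- coefficient comparison
  linear_combination (α) * i2 + (m * I * α - I * β) * h6 + (-α - a * m * α + a * β) * i1

theorem GG_VP_VP (τ : ℝ) {y : E3} (hy : y ∈ UU) : GG τ y (VP τ y) (VP τ y) = 1 := by
  rw [GG_VP τ hy, inner_VV_VP τ hy]

theorem differentiableAt_VV {y : E3} (hy : y ∈ UU) : DifferentiableAt ℝ VV y := 
  (contDiffAt_VV hy).differentiableAt (by norm_num)

theorem inner_fderiv_VV {y : E3} (hy : y ∈ UU) (v : E3) : ⟪fderiv ℝ VV y v, VV y⟫_ℝ = 0 := by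
  have h1 := (differentiableAt_VV hy).hasFDerivAt
  have h2 := h1.inner ℝ h1
  have h3 : (fun z => ⟪VV z, VV z⟫_ℝ) =ᶠ[𝓝 y] fun _ => (1:ℝ) := by
    filter_upwards [isOpen_UU.mem_nhds hy] with z hz
    exact inner_VV_self hz
  have h4 : HasFDerivAt (fun z => ⟪VV z, VV z⟫_ℝ) (0 : E3 →L[ℝ] ℝ) y := 
    (hasFDerivAt_const (1:ℝ) y).congr_of_eventuallyEq h3
  have h5 := congrArg (fun L : E3 →L[ℝ] ℝ => L v) (h2.unique h4)
  simp at h5
  have h6 : ⟪VV y, fderiv ℝ VV y v⟫_ℝ = ⟪fderiv ℝ VV y v, VV y⟫_ℝ := real_inner_comm _ _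
  linarith

theorem fderiv_VV_VV {y : E3} (hy : y ∈ UU) (hn : ‖y‖ = 1) : fderiv ℝ VV y (VV y) = -y := by
  obtain ⟨φ, ξ, η, h⟩ := exists_rep hy
  have hsq := h.normsq
  rw [hn] at hsq
  have hV : VV y = ξ • bb φ - η • aa φ := by
    rw [VV_eq hy h, hn]; simp
  have h1 := (differentiableAt_VV hy).hasFDerivAt
  have hcurve : HasDerivAt (fun r : ℝ => cos r • y + sin r • VV y) (VV y) 0 := 
    (((hasDerivAt_cos 0).smul_const y).add 
      ((hasDerivAt_sin 0).smul_const (VV y))).congr_deriv (by simp)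
  have h2 : HasDerivAt (fun r : ℝ => VV (cos r • y + sin r • VV y)) (fderiv ℝ VV y (VV y)) 0 := by
    have h1' : HasFDerivAt VV (fderiv ℝ VV y) (cos (0:ℝ) • y + sin (0:ℝ) • VV y) := by
      simpa using h1
    exact h1'.comp_hasDerivAt (0:ℝ) hcurve
  have hcont : Continuous (fun r : ℝ => cos r • y + sin r • VV y) := by fun_prop
  have hU : ∀ᶠ r : ℝ in 𝓝 0, cos r • y + sin r • VV y ∈ UU := by
    have h0 : cos (0:ℝ) • y + sin (0:ℝ) • VV y = y := by simp
    have h00 : UU ∈ 𝓝 (cos (0:ℝ) • y + sin (0:ℝ) • VV y) := by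
      rw [h0]; exact isOpen_UU.mem_nhds hy
    exact hcont.continuousAt.eventually h00
  have hp : ∀ᶠ r : ℝ in 𝓝 0, 0 < ξ * cos r - η * sin r := by
    have : ContinuousAt (fun r : ℝ => ξ * cos r - η * sin r) 0 := by fun_prop
    apply this.eventually (lt_mem_nhds (a := 0) _)
    simpa using h.1
  have h3 : (fun r : ℝ => VV (cos r • y + sin r • VV y)) =ᶠ[𝓝 0] 
      fun r => cos r • VV y - sin r • y := by
    filter_upwards [hU, hp] with r hr hr2
    have hrep : Rep (cos r • y + sin r • VV y) φ (ξ * cos r - η * sin r) 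
        (η * cos r + ξ * sin r) := by
      refine ⟨hr2, ?_⟩
      rw [hV, h.2]
      module
    have hnr : ‖cos r • y + sin r • VV y‖ = 1 := by
      have h5 := hrep.normsq
      have h6 : ‖cos r • y + sin r • VV y‖ ^ 2 = 1 := by
        rw [h5]
        linear_combination (ξ ^ 2 + η ^ 2) * sin_sq_add_cos_sq r - hsq
      exact (pow_eq_one_iff_of_nonneg (norm_nonneg _) two_ne_zero).1 h6
    have hy2 : y = ξ • aa φ + η • bb φ := h.2
    rw [VV_eq hr hrep, hnr, hV]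
    have e5 : cos r • (ξ • bb φ - η • aa φ) - sin r • y = 
        cos r • (ξ • bb φ - η • aa φ) - sin r • (ξ • aa φ + η • bb φ) := by rw [← hy2]
    rw [e5, inv_one]
    module
  have h4 : HasDerivAt (fun r : ℝ => cos r • VV y - sin r • y) (-y) 0 := 
    (((hasDerivAt_cos 0).smul_const (VV y)).sub 
      ((hasDerivAt_sin 0).smul_const y)).congr_deriv (by simp)
  exact h2.unique (h4.congr_of_eventuallyEq h3)

/-- The one form dual to `VV` is closed. -/
theorem closed_VV {y : E3} (hy : y ∈ UU) (hn : ‖y‖ = 1) {v w : E3} (hv : ⟪v, y⟫_ℝ = 0)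
    (hw : ⟪w, y⟫_ℝ = 0) : ⟪fderiv ℝ VV y v, w⟫_ℝ = ⟪fderiv ℝ VV y w, v⟫_ℝ := by
  obtain ⟨φ, ξ, η, h⟩ := exists_rep hy
  have key : ∀ {v w : E3}, ⟪v, y⟫_ℝ = 0 → ⟪w, y⟫_ℝ = 0 → 
      ⟪fderiv ℝ VV y v, w⟫_ℝ = ⟪v, nn φ⟫_ℝ * ⟪w, nn φ⟫_ℝ * ⟪fderiv ℝ VV y (nn φ), nn φ⟫_ℝ := by
    intro v w hv hw
    have ev := tan_frame hy h hv
    have ew := tan_frame hy h hw
    have e1 : ⟪fderiv ℝ VV y v, w⟫_ℝ = ⟪w, nn φ⟫_ℝ * ⟪fderiv ℝ VV y v, nn φ⟫_ℝ := by
      nth_rw 1 [ew]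
      rw [inner_add_right, inner_smul_right, inner_smul_right, inner_fderiv_VV hy]
      ring
    have e2 : fderiv ℝ VV y v = ⟪v, VV y⟫_ℝ • (-y) + ⟪v, nn φ⟫_ℝ • fderiv ℝ VV y (nn φ) := by
      nth_rw 1 [ev]
      rw [map_add, map_smul, map_smul, fderiv_VV_VV hy hn]
    rw [e1, e2, inner_add_left, inner_smul_left, inner_smul_left, inner_neg_left, inner_nn_y h]
    simp only [conj_trivial]
    ring
  rw [key hv hw, key hw hv]
  ring

theorem hasFDerivAt_mul_zero {p q : E3 → ℝ} {y : E3} (hp : DifferentiableAt ℝ p y) 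
    (hq : DifferentiableAt ℝ q y) (hp0 : p y = 0) (hq0 : q y = 0) : 
    HasFDerivAt (fun z => p z * q z) (0 : E3 →L[ℝ] ℝ) y := 
  (hp.hasFDerivAt.mul hq.hasFDerivAt).congr_fderiv (by rw [hp0, hq0]; simp)

theorem hasFDerivAt_mul_zero' {p q : E3 → ℝ} {y : E3} (hp : DifferentiableAt ℝ p y) 
    (hq : HasFDerivAt q (0 : E3 →L[ℝ] ℝ) y) (hq0 : q y = 0) : 
    HasFDerivAt (fun z => p z * q z) (0 : E3 →L[ℝ] ℝ) y := 
  (hp.hasFDerivAt.mul hq).congr_fderiv (by rw [hq0]; simp)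

theorem contDiffAt_VP (τ : ℝ) {y : E3} (hy : y ∈ UU) : ContDiffAt ℝ ∞ (VP τ) y := by
  have h1 := contDiffAt_VV hy
  have h2 := contDiffAt_VVn hy
  have h3 := contDiffAt_mm hy
  have h4 := contDiffAt_kap (ne_zero_of_UU hy)
  have h5 : ContDiffAt ℝ ∞ (fun z => hh τ * kap z) y := contDiffAt_const.mul h4
  exact ((contDiffAt_const.add (h5.mul h3)).smul h1).sub (h5.smul h2)

theorem hasFDerivAt_GG (τ : ℝ) {y : E3} (hy : y ∈ UU) : 
    ∃ L : E3 →L[ℝ] ℝ, HasFDerivAt (fun z => GG τ z (VP τ y) (VP τ y)) L y ∧ 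
      ∀ w, L w = 2 * ⟪fderiv ℝ VV y w, VP τ y⟫_ℝ := by
  set u := VP τ y with hu
  set e : E3 → E3 := fun z => u - VP τ z with he
  have he0 : e y = 0 := by simp [he, hu]
  have hone : (∞ : WithTop ℕ∞) ≠ 0 := by simp
  have hVP : DifferentiableAt ℝ (VP τ) y := (contDiffAt_VP τ hy).differentiableAt hone
  have hed : DifferentiableAt ℝ e y := (differentiableAt_const u).sub hVP
  have hV := differentiableAt_VV hy
  have hVn : DifferentiableAt ℝ (fun z => VV (-z)) y := (contDiffAt_VVn hy).differentiableAt hone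
  have hα : DifferentiableAt ℝ (fun z => ⟪VV z, e z⟫_ℝ) y := hV.inner ℝ hed
  have hβ : DifferentiableAt ℝ (fun z => ⟪VV (-z), e z⟫_ℝ) y := hVn.inner ℝ hed
  have hα0 : ⟪VV y, e y⟫_ℝ = 0 := by rw [he0, inner_zero_right]
  have hβ0 : ⟪VV (-y), e y⟫_ℝ = 0 := by rw [he0, inner_zero_right]
  have hc1 : DifferentiableAt ℝ (fun z => c1 τ z) y := by
    have h1 := contDiffAt_mm hy
    have h2 : ContDiffAt ℝ ∞ (fun z => mp τ z) y := 
      h1.sub ((contDiffAt_const.mul (contDiffAt_kap (ne_zero_of_UU hy))).mul 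
        (contDiffAt_const.sub (h1.pow 2)))
    have h3 : ContDiffAt ℝ ∞ (fun z => (1 - mm z ^ 2)⁻¹) y := 
      (contDiffAt_const.sub (h1.pow 2)).inv (mm_lt hy).ne'
    have h4 : ContDiffAt ℝ ∞ (fun z => (1 - mp τ z ^ 2)⁻¹) y := 
      (contDiffAt_const.sub (h2.pow 2)).inv (mp_lt τ hy).ne'
    exact (h4.sub h3).differentiableAt hone
  have hc2 : DifferentiableAt ℝ (fun z => c2 τ z) y := by
    have h1 := contDiffAt_mm hy
    have h2 : ContDiffAt ℝ ∞ (fun z => mp τ z) y := 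
      h1.sub ((contDiffAt_const.mul (contDiffAt_kap (ne_zero_of_UU hy))).mul 
        (contDiffAt_const.sub (h1.pow 2)))
    have h3 : ContDiffAt ℝ ∞ (fun z => (1 - mm z ^ 2)⁻¹) y := 
      (contDiffAt_const.sub (h1.pow 2)).inv (mm_lt hy).ne'
    have h4 : ContDiffAt ℝ ∞ (fun z => (1 - mp τ z ^ 2)⁻¹) y := 
      (contDiffAt_const.sub (h2.pow 2)).inv (mp_lt τ hy).ne'
    exact ((h1.mul h3).sub (h2.mul h4)).differentiableAt hone
  -- the quadratic part has zero derivative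
  have q1 : HasFDerivAt (fun z => ⟪e z, e z⟫_ℝ) (0 : E3 →L[ℝ] ℝ) y := by
    have := hed.hasFDerivAt.inner ℝ hed.hasFDerivAt
    rw [he0] at this
    have h0 : (fderivInnerCLM ℝ ((0 : E3), (0 : E3))) ∘SL 
        ((fderiv ℝ e y).prod (fderiv ℝ e y)) = 0 := by
      ext v
      simp [fderivInnerCLM_apply]
    rwa [h0] at this
  have q2 := hasFDerivAt_mul_zero hα hα hα0 hα0
  have q3 := hasFDerivAt_mul_zero hβ hβ hβ0 hβ0
  have q4 := hasFDerivAt_mul_zero hα hβ hα0 hβ0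
  have q5 := hasFDerivAt_mul_zero hβ hα hβ0 hα0
  have q6 : HasFDerivAt (fun z => c1 τ z * (⟪VV z, e z⟫_ℝ * ⟪VV z, e z⟫_ℝ + 
      ⟪VV (-z), e z⟫_ℝ * ⟪VV (-z), e z⟫_ℝ)) (0 : E3 →L[ℝ] ℝ) y := 
    hasFDerivAt_mul_zero' hc1 ((q2.add q3).congr_fderiv (by simp)) (by simp [hα0, hβ0])
  have q7 : HasFDerivAt (fun z => c2 τ z * (⟪VV z, e z⟫_ℝ * ⟪VV (-z), e z⟫_ℝ + 
      ⟪VV (-z), e z⟫_ℝ * ⟪VV z, e z⟫_ℝ)) (0 : E3 →L[ℝ] ℝ) y := 
    hasFDerivAt_mul_zero' hc2 ((q4.add q5).congr_fderiv (by simp)) (by simp [hα0, hβ0])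
  have q8 : HasFDerivAt (fun z => GG τ z (e z) (e z)) (0 : E3 →L[ℝ] ℝ) y := 
    ((q1.add q6).add q7).congr_fderiv (by simp)
  have q9 : HasFDerivAt (fun z => ⟪VV z, u⟫_ℝ) 
      ((fderivInnerCLM ℝ (VV y, u)) ∘SL ((fderiv ℝ VV y).prod (0 : E3 →L[ℝ] E3))) y := 
    hV.hasFDerivAt.inner ℝ (hasFDerivAt_const u y)
  have q10 := (q8.add (q9.const_mul 2)).sub_const 1
  have hev : (fun z => GG τ z u u) =ᶠ[𝓝 y] 
      fun z => GG τ z (e z) (e z) + 2 * ⟪VV z, u⟫_ℝ - 1 := by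
    filter_upwards [isOpen_UU.mem_nhds hy] with z hz
    have g1 : u = e z + VP τ z := by simp [he]
    have g2 : ⟪VV z, u⟫_ℝ = ⟪VV z, e z⟫_ℝ + 1 := by
      nth_rw 1 [g1]
      rw [inner_add_right, inner_VV_VP τ hz]
    have g3 : GG τ z u u = GG τ z (e z + VP τ z) (e z + VP τ z) := by rw [← g1]
    rw [g2, g3, GG_add, GG_symm τ z (e z), GG_add, GG_VP τ hz (e z + VP τ z), inner_add_right, 
      inner_VV_VP τ hz, GG_VP τ hz (e z)]
    ring
  refine ⟨_, q10.congr_of_eventuallyEq hev, ?_⟩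
  intro w
  simp [fderivInnerCLM_apply]

/-- The Euler equation at one time. -/
def EL (g : E3 → E3 → E3 → ℝ) (γ : ℝ → E3) (s : ℝ) : Prop := 
  ∀ w, ⟪γ s, w⟫_ℝ = 0 → deriv (fun r => g (γ r) (deriv γ r) w) s = 
    1 / 2 * fderiv ℝ (fun y => g y (deriv γ s) (deriv γ s)) (γ s) w

theorem EL_VP {τ : ℝ} {γ : ℝ → E3} {s : ℝ} (hn : ‖γ s‖ = 1) (h : ∀ᶠ r in 𝓝 s, γ r ∈ UU)
    (hd : ∀ᶠ r in 𝓝 s, HasDerivAt γ (VP τ (γ r)) r) : EL (GG τ) γ s := by
  intro w hw
  have hU := h.self_of_nhds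
  have hds := hd.self_of_nhds
  obtain ⟨L, hL, hLw⟩ := hasFDerivAt_GG τ hU
  rw [hds.deriv, hL.fderiv, hLw]
  have h1 : (fun r => GG τ (γ r) (deriv γ r) w) =ᶠ[𝓝 s] fun r => ⟪VV (γ r), w⟫_ℝ := by
    filter_upwards [h, hd] with r h2 h3
    rw [h3.deriv, GG_VP τ h2]
  have h2 : HasDerivAt (fun r => VV (γ r)) (fderiv ℝ VV (γ s) (VP τ (γ s))) s := 
    (differentiableAt_VV hU).hasFDerivAt.comp_hasDerivAt s hds
  have h3 : HasDerivAt (fun r => ⟪VV (γ r), w⟫_ℝ) ⟪fderiv ℝ VV (γ s) (VP τ (γ s)), w⟫_ℝ s := by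
    have := h2.inner ℝ (hasDerivAt_const s w)
    simpa using this
  rw [h1.deriv_eq, h3.deriv]
  have hVPy : ⟪VP τ (γ s), γ s⟫_ℝ = 0 := by
    have hV'y : ⟪VV (-(γ s)), γ s⟫_ℝ = 0 := by
      have := inner_VV_y (neg_mem_UU.2 hU)
      rw [inner_neg_right] at this
      linarith
    unfold VP
    rw [inner_sub_left, inner_smul_left, inner_smul_left, inner_VV_y hU, hV'y]
    simp
  have hwy : ⟪w, γ s⟫_ℝ = 0 := by rw [real_inner_comm]; exact hw
  rw [closed_VV hU hn hVPy hwy]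
  ring

/-- Off the support of the cutoff the great circles solve the Euler equation. -/
theorem EL_flat {τ : ℝ} {γ : ℝ → E3} {s : ℝ} (hk : ∀ᶠ y in 𝓝 (γ s), kap y = 0)
    (hc : ContinuousAt γ s) (hd : HasDerivAt (deriv γ) (-γ s) s) : EL (GG τ) γ s := by
  intro w hw
  have h1 : (fun y => GG τ y (deriv γ s) (deriv γ s)) =ᶠ[𝓝 (γ s)] 
      fun _ => ⟪deriv γ s, deriv γ s⟫_ℝ := by
    filter_upwards [hk] with y hy
    exact GG_of_kap hy _ _
  have h2 : (fun r => GG τ (γ r) (deriv γ r) w) =ᶠ[𝓝 s] fun r => ⟪deriv γ r, w⟫_ℝ := by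
    filter_upwards [hc.eventually hk] with r hr
    exact GG_of_kap hr _ _
  have h3 : HasDerivAt (fun r => ⟪deriv γ r, w⟫_ℝ) (⟪-γ s, w⟫_ℝ) s := by
    have := hd.inner ℝ (hasDerivAt_const s w)
    simpa using this
  rw [h1.fderiv_eq, h2.deriv_eq, h3.deriv, inner_neg_left, hw]
  simp

/-- The Euler equation is invariant under the antipodal map. -/
theorem EL_neg {τ : ℝ} {γ : ℝ → E3} {s : ℝ} (hne : γ s ≠ 0) 
    (h : EL (GG τ) (fun r => -γ r) s) : EL (GG τ) γ s := by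
  intro w hw
  have h1 := h w (by simp only [inner_neg_left, hw, neg_zero])
  have h2 : deriv (fun r => -γ r) = fun r => -deriv γ r := by
    funext r
    exact deriv.fun_neg
  simp only [h2] at h1
  have h3 : (fun r => GG τ (-γ r) (-deriv γ r) w) = fun r => -GG τ (γ r) (deriv γ r) w := by
    funext r
    rw [GG_neg, GG_neg_left]
  have h4 : (fun y => GG τ y (-deriv γ s) (-deriv γ s)) = 
      fun y => GG τ (-y) (deriv γ s) (deriv γ s) := by
    funext y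
    rw [GG_neg, GG_neg_left, GG_symm, GG_neg_left]
    ring
  rw [h3, h4, deriv.fun_neg] at h1
  set v := deriv γ s with hv
  have h5 : DifferentiableAt ℝ (fun z => GG τ z v v) (γ s) := 
    (contDiffAt_GG' τ hne v v).differentiableAt (by simp)
  have h6 : HasFDerivAt (fun z => GG τ z v v) (fderiv ℝ (fun z => GG τ z v v) (γ s)) (-(-γ s)) := by
    rw [neg_neg]; exact h5.hasFDerivAt
  have h7 : HasFDerivAt (fun z : E3 => -z) (-ContinuousLinearMap.id ℝ E3) (-γ s) := 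
    (hasFDerivAt_id (-γ s)).neg
  have h8 := h6.comp (-γ s) h7
  have h9 : fderiv ℝ (fun y => GG τ (-y) v v) (-γ s) w = -fderiv ℝ (fun z => GG τ z v v) (γ s) w := by
    have h10 : fderiv ℝ (fun y => GG τ (-y) v v) (-γ s) = 
      (fderiv ℝ (fun z => GG τ z v v) (γ s)).comp (-ContinuousLinearMap.id ℝ E3) := h8.fderiv
    rw [h10]
    simp
  rw [h9] at h1
  linarith

end Pool.Agent.Lib.MP_d2b992_gt
end

section
/-!
# Geodesic arcs and local isometries

The Euler equation of a metric on the sphere is transported by local isometries.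
-/
namespace Pool.Agent.Lib.MP_d2b992_gt.Erg

open Set Filter Topology
open scoped InnerProductSpace ContDiff

/-- The Euler equation at the time `t`. -/
def EulerAt (M : SphereMetric) (γ : ℝ → R3) (t : ℝ) : Prop := 
  ∀ w, ⟪γ t, w⟫_ℝ = 0 → deriv (fun s => M.g (γ s) (deriv γ s) w) t = 
    1 / 2 * fderiv ℝ (fun y => M.g y (deriv γ t) (deriv γ t)) (γ t) w

/-- Unit speed geodesic arcs, defined on a set `I` of times (which is open in the applications). -/
structure IsGeodesicOn (M : SphereMetric) (γ : ℝ → R3) (I : Set ℝ) : Prop where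
  smooth : ContDiffOn ℝ ∞ γ I
  mem : ∀ t ∈ I, ‖γ t‖ = 1
  unit_speed : ∀ t ∈ I, M.g (γ t) (deriv γ t) (deriv γ t) = 1
  euler : ∀ t ∈ I, EulerAt M γ t

variable (M : SphereMetric)

theorem g_zero (x w : R3) : M.g x 0 w = 0 := by
  have := M.smul x 0 0 w
  simpa using this

theorem g_add_right (x u v w : R3) : M.g x u (v + w) = M.g x u v + M.g x u w := by
  rw [M.symm, M.add, M.symm x v, M.symm x w]

theorem g_smul_right (x : R3) (a : ℝ) (v w : R3) : M.g x v (a • w) = a * M.g x v w := by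
  rw [M.symm, M.smul, M.symm]

theorem g_sum (x : R3) {ι : Type*} (s : Finset ι) (f : ι → R3) (w : R3) : 
    M.g x (∑ i ∈ s, f i) w = ∑ i ∈ s, M.g x (f i) w := by
  classical
  induction s using Finset.induction_on with
  | empty => simp [g_zero]
  | insert a s ha ih => rw [Finset.sum_insert ha, Finset.sum_insert ha, M.add, ih]

/-- The standard basis. -/
noncomputable def ee (i : Fin 3) : R3 := EuclideanSpace.single i (1:ℝ)

theorem sum_ee (v : R3) : v = ∑ i, v i • ee i := by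
  ext j
  simp [ee, Fin.sum_univ_three]
  fin_cases j <;> simp

theorem g_expand (x v w : R3) : M.g x v w = ∑ i, ∑ j, v i * w j * M.g x (ee i) (ee j) := by
  nth_rw 1 [sum_ee v]
  rw [g_sum]
  refine Finset.sum_congr rfl fun i _ => ?_
  rw [M.smul, M.symm]
  nth_rw 1 [sum_ee w]
  rw [g_sum, Finset.mul_sum]
  refine Finset.sum_congr rfl fun j _ => ?_
  rw [M.smul, M.symm]
  ring

variable {E : Type*} [NormedAddCommGroup E] [NormedSpace ℝ E]

theorem hasFDerivAt_coord {V : E → R3} {V' : E →L[ℝ] R3} {a : E} (hV : HasFDerivAt V V' a) 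
    (i : Fin 3) : HasFDerivAt (fun b => V b i) ((EuclideanSpace.proj i).comp V') a := 
  (EuclideanSpace.proj (𝕜 := ℝ) i).hasFDerivAt.comp a hV

theorem differentiableAt_g {x : R3} (hx : ‖x‖ = 1) (v w : R3) : 
    DifferentiableAt ℝ (fun y => M.g y v w) x := 
  (M.smooth v w x hx).differentiableAt (by simp)

theorem fderiv_g_expand {x : R3} (hx : ‖x‖ = 1) (v w ξ : R3) : 
    fderiv ℝ (fun y => M.g y v w) x ξ = 
      ∑ i, ∑ j, v i * w j * fderiv ℝ (fun y => M.g y (ee i) (ee j)) x ξ := by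
  have h1 : (fun y => M.g y v w) = fun y => ∑ i, ∑ j, v i * w j * M.g y (ee i) (ee j) := by
    funext y; exact g_expand M y v w
  have h2 : HasFDerivAt (fun y => ∑ i, ∑ j, v i * w j * M.g y (ee i) (ee j)) 
      (∑ i, ∑ j, (v i * w j) • fderiv ℝ (fun y => M.g y (ee i) (ee j)) x) x := by
    refine HasFDerivAt.fun_sum fun i _ => HasFDerivAt.fun_sum fun j _ => ?_
    exact (differentiableAt_g M hx (ee i) (ee j)).hasFDerivAt.const_mul _
  rw [h1, h2.fderiv]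
  simp only [_root_.sum_apply, _root_.smul_apply, smul_eq_mul]

/-- The Leibniz rule for the metric. -/
theorem hasFDerivAt_g_comp {F V W : E → R3} {F' V' W' : E →L[ℝ] R3} {a : E} (hn : ‖F a‖ = 1)
    (hF : HasFDerivAt F F' a) (hV : HasFDerivAt V V' a) (hW : HasFDerivAt W W' a) : 
    ∃ L : E →L[ℝ] ℝ, HasFDerivAt (fun b => M.g (F b) (V b) (W b)) L a ∧ 
      ∀ e, L e = fderiv ℝ (fun y => M.g y (V a) (W a)) (F a) (F' e) + M.g (F a) (V' e) (W a) + 
        M.g (F a) (V a) (W' e) := by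
  have h1 : (fun b => M.g (F b) (V b) (W b)) = 
      fun b => ∑ i, ∑ j, V b i * W b j * M.g (F b) (ee i) (ee j) := by
    funext b; exact g_expand M _ _ _
  have h2 : ∀ i j, HasFDerivAt (fun b => M.g (F b) (ee i) (ee j)) 
      ((fderiv ℝ (fun y => M.g y (ee i) (ee j)) (F a)).comp F') a := fun i j => 
    (differentiableAt_g M hn (ee i) (ee j)).hasFDerivAt.comp a hF
  rw [h1]
  refine ⟨_, HasFDerivAt.fun_sum fun i _ => HasFDerivAt.fun_sum fun j _ => 
    ((hasFDerivAt_coord hV i).mul (hasFDerivAt_coord hW j)).mul (h2 i j), ?_⟩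
  intro e
  rw [fderiv_g_expand M hn, g_expand M (F a) (V' e), g_expand M (F a) (V a) (W' e)]
  simp only [_root_.sum_apply, _root_.add_apply, 
    _root_.smul_apply, smul_eq_mul, ContinuousLinearMap.comp_apply, 
    ← Finset.sum_add_distrib]
  refine Finset.sum_congr rfl fun i _ => Finset.sum_congr rfl fun j _ => ?_
  have e1 : (EuclideanSpace.proj (𝕜 := ℝ) j) (W' e) = (W' e) j := rfl
  have e2 : (EuclideanSpace.proj (𝕜 := ℝ) i) (V' e) = (V' e) i := rfl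
  simp only [Pi.mul_apply, e1, e2]
  ring

/-- The Leibniz rule along a curve. -/
theorem hasDerivAt_g_comp {F V W : ℝ → R3} {F' V' W' : R3} {t : ℝ} (hn : ‖F t‖ = 1)
    (hF : HasDerivAt F F' t) (hV : HasDerivAt V V' t) (hW : HasDerivAt W W' t) : 
    HasDerivAt (fun b => M.g (F b) (V b) (W b)) 
      (fderiv ℝ (fun y => M.g y (V t) (W t)) (F t) F' + M.g (F t) V' (W t) + 
        M.g (F t) (V t) W') t := by
  obtain ⟨L, hL, hL2⟩ := hasFDerivAt_g_comp M hn hF.hasFDerivAt hV.hasFDerivAt hW.hasFDerivAt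
  have h1 := hL.hasDerivAt
  rw [hL2] at h1
  simpa using h1

theorem two_le_inf : (1 + 1 : WithTop ℕ∞) ≤ ∞ := by
  have : (1 + 1 : WithTop ℕ∞) = ((2 : ℕ∞) : WithTop ℕ∞) := by norm_num
  rw [this]
  exact WithTop.coe_le_coe.mpr le_top

/-- **Local isometries transport the Euler equation.** -/
theorem euler_iff {Φ : E → R3} {U : Set E} (hU : IsOpen U) (hΦ : ContDiffOn ℝ ∞ Φ U) 
    (hn : ∀ a ∈ U, ‖Φ a‖ = 1) {B : E → E → E → ℝ} 
    (hB : ∀ a ∈ U, ∀ u v, M.g (Φ a) (fderiv ℝ Φ a u) (fderiv ℝ Φ a v) = B a u v) 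
    {a : ℝ → E} {t : ℝ} (ha : ContDiffAt ℝ ∞ a t) (hat : a t ∈ U) (e : E) : 
    (deriv (fun s => M.g (Φ (a s)) (deriv (fun r => Φ (a r)) s) (fderiv ℝ Φ (a t) e)) t = 
      1 / 2 * fderiv ℝ (fun y => M.g y (deriv (fun r => Φ (a r)) t) 
        (deriv (fun r => Φ (a r)) t)) (Φ (a t)) (fderiv ℝ Φ (a t) e)) ↔ 
    deriv (fun s => B (a s) (deriv a s) e) t = 
      1 / 2 * fderiv ℝ (fun y => B y (deriv a t) (deriv a t)) (a t) e := by
  have hone : (∞ : WithTop ℕ∞) ≠ 0 := by simp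
  have hdiffΦ : ∀ b ∈ U, DifferentiableAt ℝ Φ b := fun b hb => 
    (hΦ.contDiffAt (hU.mem_nhds hb)).differentiableAt hone
  have hdiffa : ∀ᶠ s in 𝓝 t, DifferentiableAt ℝ a s := by
    have h1 : ∀ᶠ s in 𝓝 t, ContDiffAt ℝ 1 a s := 
      (ha.of_le (by exact_mod_cast le_top)).eventually (by simp)
    filter_upwards [h1] with s hs using hs.differentiableAt one_ne_zero
  have hUt : ∀ᶠ s in 𝓝 t, a s ∈ U := ha.continuousAt.eventually (hU.mem_nhds hat)
  have hder : ∀ᶠ s in 𝓝 t, HasDerivAt (fun r => Φ (a r)) (fderiv ℝ Φ (a s) (deriv a s)) s := by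
    filter_upwards [hdiffa, hUt] with s h1 h2
    exact (hdiffΦ _ h2).hasFDerivAt.comp_hasDerivAt s h1.hasDerivAt
  -- second derivatives
  have hD : DifferentiableAt ℝ (fderiv ℝ Φ) (a t) := by
    have h1 : ContDiffAt ℝ ∞ Φ (a t) := hΦ.contDiffAt (hU.mem_nhds hat)
    have h2 : ContDiffAt ℝ 1 (fderiv ℝ Φ) (a t) := 
      h1.fderiv_right (m := 1) two_le_inf
    exact h2.differentiableAt one_ne_zero
  have hda : HasDerivAt a (deriv a t) t := (ha.differentiableAt hone).hasDerivAt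
  have hdda : HasDerivAt (deriv a) (deriv (deriv a) t) t := by
    have h1 : ContDiffAt ℝ 1 (deriv a) t := by
      have h2 : ContDiffAt ℝ 1 (fderiv ℝ a) t := ha.fderiv_right (m := 1) two_le_inf
      have h3 : ContDiffAt ℝ 1 (fun s => fderiv ℝ a s 1) t := h2.clm_apply contDiffAt_const
      exact h3
    exact (h1.differentiableAt one_ne_zero).hasDerivAt
  have hsymm : ∀ u v : E, fderiv ℝ (fderiv ℝ Φ) (a t) u v = fderiv ℝ (fderiv ℝ Φ) (a t) v u := by
    have h1 : ContDiffAt ℝ ∞ Φ (a t) := hΦ.contDiffAt (hU.mem_nhds hat)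
    have h2 : IsSymmSndFDerivAt ℝ Φ (a t) := h1.isSymmSndFDerivAt (by
      rw [minSmoothness_of_isRCLikeNormedField]
      exact WithTop.coe_le_coe.mpr (le_top : (2 : ENat) ≤ ⊤))
    exact fun u v => h2 u v
  set γ : ℝ → R3 := fun r => Φ (a r) with hγ
  set D2 := fderiv ℝ (fderiv ℝ Φ) (a t) with hD2
  have hγt : HasDerivAt γ (fderiv ℝ Φ (a t) (deriv a t)) t := hder.self_of_nhds
  have hγ' : deriv γ t = fderiv ℝ Φ (a t) (deriv a t) := hγt.deriv
  -- derivative of the velocity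
  have hevel : deriv γ =ᶠ[𝓝 t] fun s => fderiv ℝ Φ (a s) (deriv a s) := by
    filter_upwards [hder] with s hs using hs.deriv
  have hDa : HasDerivAt (fun s => fderiv ℝ Φ (a s)) (D2 (deriv a t)) t := 
    hD.hasFDerivAt.comp_hasDerivAt t hda
  have hvel : HasDerivAt (deriv γ) (D2 (deriv a t) (deriv a t) + 
      fderiv ℝ Φ (a t) (deriv (deriv a) t)) t := 
    (hDa.clm_apply hdda).congr_of_eventuallyEq hevel
  -- the field
  have hWt : HasDerivAt (fun s => fderiv ℝ Φ (a s) e) (D2 (deriv a t) e) t := by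
    have := hDa.clm_apply (hasDerivAt_const t e)
    simpa using this
  have hnt : ‖γ t‖ = 1 := hn _ hat
  -- first identity
  have e1 := hasDerivAt_g_comp M hnt hγt hvel hWt
  have e2 := hasDerivAt_g_comp M hnt hγt hvel (hasDerivAt_const t (fderiv ℝ Φ (a t) e))
  have e3 : (fun s => M.g (γ s) (deriv γ s) (fderiv ℝ Φ (a s) e)) =ᶠ[𝓝 t] 
      fun s => B (a s) (deriv a s) e := by
    filter_upwards [hevel, hUt] with s h1 h2
    rw [h1]
    exact hB _ h2 _ _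
  have e4 : deriv (fun s => B (a s) (deriv a s) e) t = 
      deriv (fun s => M.g (γ s) (deriv γ s) (fderiv ℝ Φ (a t) e)) t + 
        M.g (γ t) (deriv γ t) (D2 (deriv a t) e) := by
    rw [← e3.deriv_eq, e1.deriv, e2.deriv]
    have : M.g (γ t) (deriv γ t) (0:R3) = 0 := by rw [M.symm]; exact g_zero M _ _
    rw [this]
    ring
  -- second identity
  have f1 : HasFDerivAt Φ (fderiv ℝ Φ (a t)) (a t) := (hdiffΦ _ hat).hasFDerivAt
  have f2 : HasFDerivAt (fun b => fderiv ℝ Φ b (deriv a t)) (D2.flip (deriv a t)) (a t) := by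
    have := hD.hasFDerivAt.clm_apply (hasFDerivAt_const (deriv a t) (a t))
    simpa using this
  obtain ⟨L, hL, hL2⟩ := hasFDerivAt_g_comp M (F := Φ) hnt f1 f2 f2
  have f3 : (fun b => M.g (Φ b) (fderiv ℝ Φ b (deriv a t)) (fderiv ℝ Φ b (deriv a t))) =ᶠ[𝓝 (a t)] 
      fun b => B b (deriv a t) (deriv a t) := by
    filter_upwards [hU.mem_nhds hat] with b hb
    exact hB b hb _ _
  have f4 : fderiv ℝ (fun y => B y (deriv a t) (deriv a t)) (a t) e = 
      fderiv ℝ (fun y => M.g y (deriv γ t) (deriv γ t)) (γ t) (fderiv ℝ Φ (a t) e) + 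
        2 * M.g (γ t) (deriv γ t) (D2 (deriv a t) e) := by
    rw [← f3.fderiv_eq, hL.fderiv, hL2, hγ', M.symm _ (D2.flip (deriv a t) e)]
    have : D2.flip (deriv a t) e = D2 (deriv a t) e := by
      rw [ContinuousLinearMap.flip_apply, hsymm]
    rw [this]
    ring
  rw [e4, f4]
  constructor
  · intro h
    linear_combination h
  · intro h
    linear_combination h

end Pool.Agent.Lib.MP_d2b992_gt.Erg
end

section
/-!
# Curvature of conformal metrics

If `L = |f' / f| ^ 2 * exp (g (log |f|))` with `f` holomorphic then the curvature of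
`L (du ^ 2 + dv ^ 2)` is `-g'' / (2 * exp g)` at `log |f|`.
-/
namespace Pool.Agent.Lib.MP_d2b992_gt.Erg

open Set Filter Topology
open scoped ContDiff InnerProductSpace

/-- The directional derivative. -/
noncomputable def dd (e : ℝ × ℝ) (f : ℝ × ℝ → ℝ) (p : ℝ × ℝ) : ℝ := fderiv ℝ f p e

theorem du_eq_dd (f : ℝ × ℝ → ℝ) : du f = dd (1, 0) f := rfl
theorem dv_eq_dd (f : ℝ × ℝ → ℝ) : dv f = dd (0, 1) f := rfl

theorem brioschi_conf {L : ℝ × ℝ → ℝ} {p : ℝ × ℝ} (hL : L p ≠ 0) : 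
    brioschi L (fun _ => 0) L p = (du L p ^ 2 + dv L p ^ 2 - 
      L p * (du (du L) p + dv (dv L) p)) / (2 * L p ^ 3) := by
  have h1 : du (fun _ : ℝ × ℝ => (0:ℝ)) = fun _ => 0 := by funext q; simp [du]
  have h2 : dv (fun _ : ℝ × ℝ => (0:ℝ)) = fun _ => 0 := by funext q; simp [dv]
  unfold brioschi
  rw [h1, h2, h1]
  simp only [Matrix.det_fin_three, Matrix.of_apply, Matrix.cons_val', Matrix.cons_val_zero, 
    Matrix.cons_val_one, Matrix.cons_val, Matrix.cons_val_fin_one]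
  field_simp
  ring

theorem dd_congr {e : ℝ × ℝ} {f g : ℝ × ℝ → ℝ} {p : ℝ × ℝ} (h : f =ᶠ[𝓝 p] g) : 
    dd e f =ᶠ[𝓝 p] dd e g := by
  filter_upwards [h.fderiv (𝕜 := ℝ)] with q hq
  unfold dd
  rw [hq]

theorem contDiffAt_dd {e : ℝ × ℝ} {f : ℝ × ℝ → ℝ} {p : ℝ × ℝ} (h : ContDiffAt ℝ 2 f p) : 
    ContDiffAt ℝ 1 (dd e f) p := 
  (h.fderiv_right (m := 1) (by norm_num)).clm_apply contDiffAt_const

theorem eventually_contDiffAt {f : ℝ × ℝ → ℝ} {p : ℝ × ℝ} (h : ContDiffAt ℝ 2 f p) : 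
    ∀ᶠ q in 𝓝 p, ContDiffAt ℝ 2 f q := h.eventually (by simp)

/-- First and second derivatives of an exponential. -/
theorem dd_exp {e : ℝ × ℝ} {l : ℝ × ℝ → ℝ} {p : ℝ × ℝ} (h : ContDiffAt ℝ 2 l p) : 
    dd e (fun q => Real.exp (l q)) p = Real.exp (l p) * dd e l p ∧ 
    dd e (dd e (fun q => Real.exp (l q))) p = 
      Real.exp (l p) * (dd e l p ^ 2 + dd e (dd e l) p) := by
  have h1 : ∀ q, ContDiffAt ℝ 2 l q → 
      HasFDerivAt (fun q => Real.exp (l q)) (Real.exp (l q) • fderiv ℝ l q) q := fun q hq => 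
    (hq.differentiableAt two_ne_zero).hasFDerivAt.exp
  have h2 : ∀ q, ContDiffAt ℝ 2 l q → 
      dd e (fun q => Real.exp (l q)) q = Real.exp (l q) * dd e l q := by
    intro q hq
    unfold dd
    rw [(h1 q hq).fderiv]
    simp
  refine ⟨h2 p h, ?_⟩
  have h3 : dd e (fun q => Real.exp (l q)) =ᶠ[𝓝 p] fun q => Real.exp (l q) * dd e l q := by
    filter_upwards [eventually_contDiffAt h] with q hq using h2 q hq
  rw [(dd_congr h3).self_of_nhds]
  have h4 : DifferentiableAt ℝ (dd e l) p := (contDiffAt_dd h).differentiableAt one_ne_zero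
  have h5 := (h1 p h).mul h4.hasFDerivAt
  have h6 : dd e (fun q => Real.exp (l q) * dd e l q) p = 
      (Real.exp (l p) • fderiv ℝ (dd e l) p + dd e l p • (Real.exp (l p) • fderiv ℝ l p)) e := by
    rw [← h5.fderiv]; rfl
  rw [h6]
  simp only [_root_.add_apply, _root_.smul_apply, smul_eq_mul]
  have h7 : fderiv ℝ (dd e l) p e = dd e (dd e l) p := rfl
  have h8 : fderiv ℝ l p e = dd e l p := rfl
  rw [h7, h8]
  ring

/-- First and second derivatives of a sum with a composition. -/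
theorem dd_comp {e : ℝ × ℝ} {m v : ℝ × ℝ → ℝ} {g : ℝ → ℝ} {p : ℝ × ℝ} (hm : ContDiffAt ℝ 2 m p) 
    (hv : ContDiffAt ℝ 2 v p) (hg : ContDiffAt ℝ 2 g (v p)) : 
    dd e (dd e (fun q => m q + g (v q))) p = dd e (dd e m) p + 
      (deriv (deriv g) (v p) * dd e v p ^ 2 + deriv g (v p) * dd e (dd e v) p) := by
  have h1 : ∀ q, ContDiffAt ℝ 2 m q → ContDiffAt ℝ 2 v q → ContDiffAt ℝ 2 g (v q) → 
      dd e (fun q => m q + g (v q)) q = dd e m q + deriv g (v q) * dd e v q := by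
    intro q a b c
    have h2 := (a.differentiableAt two_ne_zero).hasFDerivAt.add 
      ((c.differentiableAt two_ne_zero).hasDerivAt.comp_hasFDerivAt q 
        (b.differentiableAt two_ne_zero).hasFDerivAt)
    have h3 : dd e (fun q => m q + g (v q)) q = (fderiv ℝ m q + deriv g (v q) • fderiv ℝ v q) e := by
      rw [← h2.fderiv]; rfl
    rw [h3]
    rfl
  have hge : ∀ᶠ q in 𝓝 p, ContDiffAt ℝ 2 g (v q) := 
    hv.continuousAt.eventually (hg.eventually (by simp))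
  have h3 : dd e (fun q => m q + g (v q)) =ᶠ[𝓝 p] fun q => dd e m q + deriv g (v q) * dd e v q := by
    filter_upwards [eventually_contDiffAt hm, eventually_contDiffAt hv, hge] with q a b c 
      using h1 q a b c
  rw [(dd_congr h3).self_of_nhds]
  have h4 : DifferentiableAt ℝ (dd e m) p := (contDiffAt_dd hm).differentiableAt one_ne_zero
  have h5 : DifferentiableAt ℝ (dd e v) p := (contDiffAt_dd hv).differentiableAt one_ne_zero
  have hg1 : ContDiffAt ℝ 1 (deriv g) (v p) := 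
    (hg.fderiv_right (m := 1) (by norm_num)).clm_apply contDiffAt_const
  have h6 := (hg1.differentiableAt one_ne_zero).hasDerivAt.comp_hasFDerivAt p 
    (hv.differentiableAt two_ne_zero).hasFDerivAt
  have h7 := h4.hasFDerivAt.add (h6.mul h5.hasFDerivAt)
  have h8 : dd e (fun q => dd e m q + deriv g (v q) * dd e v q) p = 
      (fderiv ℝ (dd e m) p + (deriv g (v p) • fderiv ℝ (dd e v) p + 
        dd e v p • (deriv (deriv g) (v p) • fderiv ℝ v p))) e := by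
    exact congrArg (fun A : ℝ × ℝ →L[ℝ] ℝ => A e) h7.fderiv
  rw [h8]
  simp only [_root_.add_apply, _root_.smul_apply, smul_eq_mul]
  have e1 : fderiv ℝ (dd e m) p e = dd e (dd e m) p := rfl
  have e2 : fderiv ℝ (dd e v) p e = dd e (dd e v) p := rfl
  have e3 : fderiv ℝ v p e = dd e v p := rfl
  rw [e1, e2, e3]
  ring

/-- The curvature of a conformal metric with a harmonic parameter. -/
theorem curv_harm {L m v : ℝ × ℝ → ℝ} {g : ℝ → ℝ} {p : ℝ × ℝ} (hm : ContDiffAt ℝ 2 m p) 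
    (hv : ContDiffAt ℝ 2 v p) (hg : ContDiffAt ℝ 2 g (v p)) 
    (hL : L =ᶠ[𝓝 p] fun q => Real.exp (m q + g (v q))) 
    (hm0 : dd (1, 0) (dd (1, 0) m) p + dd (0, 1) (dd (0, 1) m) p = 0)
    (hv0 : dd (1, 0) (dd (1, 0) v) p + dd (0, 1) (dd (0, 1) v) p = 0)
    (hv1 : dd (1, 0) v p ^ 2 + dd (0, 1) v p ^ 2 = Real.exp (m p)) : 
    brioschi L (fun _ => 0) L p = -deriv (deriv g) (v p) / (2 * Real.exp (g (v p))) := by
  have hl : ContDiffAt ℝ 2 (fun q => m q + g (v q)) p := hm.add (hg.comp p hv)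
  have hLp : L p = Real.exp (m p + g (v p)) := hL.self_of_nhds
  have h0 : L p ≠ 0 := by rw [hLp]; exact (Real.exp_pos _).ne'
  rw [brioschi_conf h0, du_eq_dd, dv_eq_dd, du_eq_dd, dv_eq_dd]
  have a1 := (dd_congr (e := (1, 0)) hL).self_of_nhds
  have a2 := (dd_congr (e := (0, 1)) hL).self_of_nhds
  have a3 := (dd_congr (e := (1, 0)) (dd_congr (e := (1, 0)) hL)).self_of_nhds
  have a4 := (dd_congr (e := (0, 1)) (dd_congr (e := (0, 1)) hL)).self_of_nhds
  rw [a1, a2, a3, a4, (dd_exp hl).1, (dd_exp hl).1, (dd_exp hl).2, (dd_exp hl).2, hLp, 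
    dd_comp hm hv hg, dd_comp hm hv hg]
  set E := Real.exp (m p + g (v p)) with hE
  have hE0 : E ≠ 0 := (Real.exp_pos _).ne'
  have hE2 : E = Real.exp (m p) * Real.exp (g (v p)) := Real.exp_add _ _
  set X := dd (1, 0) (fun q => m q + g (v q)) p
  set Y := dd (0, 1) (fun q => m q + g (v q)) p
  have key : (E * X) ^ 2 + (E * Y) ^ 2 - E * (E * (X ^ 2 + (dd (1, 0) (dd (1, 0) m) p + 
      (deriv (deriv g) (v p) * dd (1, 0) v p ^ 2 + deriv g (v p) * dd (1, 0) (dd (1, 0) v) p))) + 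
      E * (Y ^ 2 + (dd (0, 1) (dd (0, 1) m) p + 
      (deriv (deriv g) (v p) * dd (0, 1) v p ^ 2 + 
        deriv g (v p) * dd (0, 1) (dd (0, 1) v) p)))) = 
      -E ^ 2 * (deriv (deriv g) (v p) * Real.exp (m p)) := by
    rw [← hv1]
    linear_combination (-E ^ 2) * hm0 - E ^ 2 * deriv g (v p) * hv0
  rw [key]
  have hG : Real.exp (g (v p)) ≠ 0 := (Real.exp_pos _).ne'
  have hM : Real.exp (m p) ≠ 0 := (Real.exp_pos _).ne'
  rw [hE2]
  field_simp

/-! ### Holomorphic functions -/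

/-- The identification of the plane with the complex numbers. -/
noncomputable def cc (p : ℝ × ℝ) : ℂ := Complex.equivRealProdCLM.symm p

theorem cc_apply (p : ℝ × ℝ) : cc p = p.1 + p.2 * Complex.I := 
  Complex.equivRealProdCLM_symm_apply p

theorem cc_re (p : ℝ × ℝ) : (cc p).re = p.1 := by rw [cc_apply]; simp
theorem cc_im (p : ℝ × ℝ) : (cc p).im = p.2 := by rw [cc_apply]; simp

theorem hasFDerivAt_cc (p : ℝ × ℝ) : 
    HasFDerivAt cc (Complex.equivRealProdCLM.symm : ℝ × ℝ →L[ℝ] ℂ) p := 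
  (Complex.equivRealProdCLM.symm : ℝ × ℝ →L[ℝ] ℂ).hasFDerivAt

theorem continuous_cc : Continuous cc := Complex.equivRealProdCLM.symm.continuous

theorem dd_cc {F : ℂ → ℝ} {q e : ℝ × ℝ} (h : DifferentiableAt ℝ F (cc q)) : 
    dd e (fun p => F (cc p)) q = fderiv ℝ F (cc q) (cc e) := by
  have h1 := h.hasFDerivAt.comp q (hasFDerivAt_cc q)
  unfold dd
  have h2 : fderiv ℝ (fun p => F (cc p)) q = 
      (fderiv ℝ F (cc q)).comp (Complex.equivRealProdCLM.symm : ℝ × ℝ →L[ℝ] ℂ) := h1.fderiv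
  rw [h2]
  rfl

theorem dd_dd_cc {F : ℂ → ℝ} {q e : ℝ × ℝ} (h : ContDiffAt ℝ 2 F (cc q)) : 
    dd e (dd e (fun p => F (cc p))) q = fderiv ℝ (fderiv ℝ F) (cc q) (cc e) (cc e) := by
  have h1 : ∀ᶠ p in 𝓝 q, ContDiffAt ℝ 2 F (cc p) := 
    continuous_cc.continuousAt.eventually (h.eventually (by simp))
  have h2 : dd e (fun p => F (cc p)) =ᶠ[𝓝 q] fun p => fderiv ℝ F (cc p) (cc e) := by
    filter_upwards [h1] with p hp using dd_cc (hp.differentiableAt two_ne_zero)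
  rw [(dd_congr h2).self_of_nhds]
  have h3 : DifferentiableAt ℝ (fun z => fderiv ℝ F z (cc e)) (cc q) := 
    ((h.fderiv_right (m := 1) (by norm_num)).clm_apply contDiffAt_const).differentiableAt 
      one_ne_zero
  rw [dd_cc (F := fun z => fderiv ℝ F z (cc e)) h3]
  have h4 : DifferentiableAt ℝ (fderiv ℝ F) (cc q) := 
    (h.fderiv_right (m := 1) (by norm_num)).differentiableAt one_ne_zero
  have h5 := h4.hasFDerivAt.clm_apply (hasFDerivAt_const (cc e) (cc q))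
  rw [h5.fderiv]
  simp

theorem harm_sum {F : ℂ → ℝ} {q : ℝ × ℝ} (h : InnerProductSpace.HarmonicAt F (cc q)) : 
    dd (1, 0) (dd (1, 0) (fun p => F (cc p))) q + dd (0, 1) (dd (0, 1) (fun p => F (cc p))) q = 0 := by
  rw [dd_dd_cc h.1, dd_dd_cc h.1]
  have h1 := h.2.self_of_nhds
  rw [InnerProductSpace.laplacian_eq_iteratedFDeriv_complexPlane] at h1
  simp only [iteratedFDeriv_two_apply, Pi.zero_apply] at h1
  have e1 : cc (1, 0) = 1 := by rw [cc_apply]; simp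
  have e2 : cc (0, 1) = Complex.I := by rw [cc_apply]; simp
  rw [e1, e2]
  simpa using h1

/-- The derivative of `log |f|`. -/
theorem fderiv_log_norm {f : ℂ → ℂ} {f' z : ℂ} (h : HasDerivAt f f' z) (h0 : f z ≠ 0) : 
    HasFDerivAt (fun z => Real.log ‖f z‖) 
      (Complex.reCLM.comp ((f' / f z) • (ContinuousLinearMap.id ℝ ℂ))) z := by
  have h1 : HasFDerivAt f ((f' : ℂ) • (ContinuousLinearMap.id ℝ ℂ)) z := by
    have := h.hasFDerivAt.restrictScalars ℝ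
    refine this.congr_fderiv ?_
    ext w
    all_goals simp [mul_comm]
  have hn : (fun z => Real.log ‖f z‖) = fun z => 1 / 2 * Real.log ((f z).re ^ 2 + (f z).im ^ 2) := by
    funext z
    rw [show (f z).re ^ 2 + (f z).im ^ 2 = ‖f z‖ ^ 2 by 
      rw [← Complex.normSq_eq_norm_sq, Complex.normSq_apply]; ring]
    rw [Real.log_pow]
    push_cast
    ring
  rw [hn]
  have h2 : HasFDerivAt (fun z => (f z).re) (Complex.reCLM.comp ((f' : ℂ) • 
      (ContinuousLinearMap.id ℝ ℂ))) z := Complex.reCLM.hasFDerivAt.comp z h1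
  have h3 : HasFDerivAt (fun z => (f z).im) (Complex.imCLM.comp ((f' : ℂ) • 
      (ContinuousLinearMap.id ℝ ℂ))) z := Complex.imCLM.hasFDerivAt.comp z h1
  have h4 : (f z).re ^ 2 + (f z).im ^ 2 ≠ 0 := by
    have : (f z).re ^ 2 + (f z).im ^ 2 = Complex.normSq (f z) := by 
      rw [Complex.normSq_apply]; ring
    rw [this]
    exact (Complex.normSq_pos.2 h0).ne'
  have h5 := (((h2.pow 2).add (h3.pow 2)).log h4).const_mul (1 / 2 : ℝ)
  refine h5.congr_fderiv ?_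
  refine ContinuousLinearMap.ext fun w => ?_
  have e1 : f' / f z * w = (f' * w) / f z := by ring
  have h6 : (f z).re * (f z).re + (f z).im * (f z).im ≠ 0 := by
    intro h7; apply h4; rw [← h7]; ring
  simp only [ContinuousLinearMap.comp_apply, _root_.smul_apply, _root_.add_apply,
    ContinuousLinearMap.coe_id', id_eq, Complex.reCLM_apply, Complex.imCLM_apply, smul_eq_mul, 
    Pi.add_apply]
  rw [e1, Complex.div_re, Complex.normSq_apply]
  simp only [nsmul_eq_mul]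
  have h7 : (f z).re ^ 2 + (f z).im ^ 2 = (f z).re * (f z).re + (f z).im * (f z).im := by ring
  rw [h7]
  push_cast
  field_simp

/-- **The curvature of a conformal metric in a holomorphic radial form.** -/
theorem curv_hol {L : ℝ × ℝ → ℝ} {f : ℂ → ℂ} {g : ℝ → ℝ} {p : ℝ × ℝ} 
    (hf : AnalyticAt ℂ f (cc p)) (h0 : f (cc p) ≠ 0) (h1 : deriv f (cc p) ≠ 0) 
    (hg : ContDiffAt ℝ 2 g (Real.log ‖f (cc p)‖)) 
    (hL : ∀ᶠ q in 𝓝 p, L q = (‖deriv f (cc q)‖ / ‖f (cc q)‖) ^ 2 * 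
      Real.exp (g (Real.log ‖f (cc q)‖))) : 
    brioschi L (fun _ => 0) L p = -deriv (deriv g) (Real.log ‖f (cc p)‖) / 
      (2 * Real.exp (g (Real.log ‖f (cc p)‖))) := by
  set G : ℂ → ℂ := fun z => (deriv f z / f z) ^ 2 with hG
  have hGa : AnalyticAt ℂ G (cc p) := (hf.deriv.div hf h0).pow 2
  have hG0 : G (cc p) ≠ 0 := pow_ne_zero 2 (div_ne_zero h1 h0)
  have hv := hf.harmonicAt_log_norm h0
  have hm := hGa.harmonicAt_log_norm hG0
  have hGn : ∀ z, ‖G z‖ = (‖deriv f z‖ / ‖f z‖) ^ 2 := fun z => by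
    rw [hG]; simp only [norm_pow, norm_div]
  have hcc : ContDiffAt ℝ 2 cc p := 
    (Complex.equivRealProdCLM.symm : ℝ × ℝ →L[ℝ] ℂ).contDiff.contDiffAt
  have hv2 : ContDiffAt ℝ 2 (fun q => Real.log ‖f (cc q)‖) p := 
    ContDiffAt.comp (g := fun z => Real.log ‖f z‖) p hv.1 hcc
  have hm2 : ContDiffAt ℝ 2 (fun q => Real.log ‖G (cc q)‖) p := 
    ContDiffAt.comp (g := fun z => Real.log ‖G z‖) p hm.1 hcc
  have hGe : ∀ᶠ q in 𝓝 p, G (cc q) ≠ 0 := 
    continuous_cc.continuousAt.eventually (hGa.continuousAt.eventually_ne hG0)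
  refine curv_harm (m := fun q => Real.log ‖G (cc q)‖) (v := fun q => Real.log ‖f (cc q)‖) 
    hm2 hv2 hg ?_ (harm_sum hm) (harm_sum hv) ?_
  · filter_upwards [hL, hGe] with q h2 h3
    rw [h2, Real.exp_add, Real.exp_log (norm_pos_iff.2 h3), hGn]
  · have h5 := fderiv_log_norm hf.differentiableAt.hasDerivAt h0
    have h6 : DifferentiableAt ℝ (fun z => Real.log ‖f z‖) (cc p) := h5.differentiableAt
    rw [dd_cc h6, dd_cc h6, h5.fderiv, Real.exp_log (norm_pos_iff.2 hG0), hGn]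
    have e1 : cc (1, 0) = 1 := by rw [cc_apply]; simp
    have e2 : cc (0, 1) = Complex.I := by rw [cc_apply]; simp
    rw [e1, e2]
    set a := deriv f (cc p) / f (cc p) with ha
    have e3 : ‖deriv f (cc p)‖ / ‖f (cc p)‖ = ‖a‖ := by rw [ha, norm_div]
    rw [e3, ← Complex.normSq_eq_norm_sq, Complex.normSq_apply]
    simp [ContinuousLinearMap.comp_apply]
    ring

end Pool.Agent.Lib.MP_d2b992_gt.Erg
end

section
/-!
# The first chart

The chart `Xi (ρ, Θ)`, `ρ = log R`, is `Φ (η)` with `η = exp ((ρ + i Θ) / 2)`. In terms of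
`X = x + i y = 2 (η + |η|² conj η) * 2 / N` one finds the formulas below. 
-/
namespace Pool.Agent.Lib.MP_d2b992_gt.Erg

open Set Filter Topology MeasureTheory Real
open scoped ContDiff InnerProductSpace

/-- The denominator. -/
noncomputable def Wd (p : ℝ × ℝ) : ℝ := cosh (p.1 / 2) ^ 2 + cos (p.2 / 2) ^ 2

/-- The first chart in conformal coordinates. -/
noncomputable def Xi (p : ℝ × ℝ) : R3 := 
  vec (2 * cosh (p.1 / 2) * cos (p.2 / 2) / Wd p) (-(2 * sinh (p.1 / 2) * sin (p.2 / 2)) / Wd p) 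
    (1 - 2 / Wd p)

theorem Wd_pos (p : ℝ × ℝ) : 0 < Wd p := by
  unfold Wd
  have := cosh_pos (p.1 / 2)
  positivity

theorem Wd_ge (p : ℝ × ℝ) : 1 ≤ Wd p := by
  unfold Wd
  have := one_le_cosh (p.1 / 2)
  nlinarith [sq_nonneg (cos (p.2 / 2))]

theorem Wd_eq (p : ℝ × ℝ) : Wd p = (cosh p.1 + cos p.2 + 2) / 2 := by
  have h1 := cosh_sq (p.1 / 2)
  have h2 : cosh p.1 = 2 * cosh (p.1 / 2) ^ 2 - 1 := by
    have := cosh_two_mul (p.1 / 2)
    rw [mul_div_cancel₀ _ (two_ne_zero' ℝ)] at this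
    linarith
  have h3 : cos p.2 = 2 * cos (p.2 / 2) ^ 2 - 1 := by
    have := cos_two_mul (p.2 / 2)
    rwa [mul_div_cancel₀ _ (two_ne_zero' ℝ)] at this
  unfold Wd
  linarith

theorem contDiff_Wd : ContDiff ℝ ∞ Wd := by
  unfold Wd
  have h1 : ContDiff ℝ ∞ (fun p : ℝ × ℝ => cosh (p.1 / 2)) := contDiff_cosh.comp (by fun_prop)
  have h2 : ContDiff ℝ ∞ (fun p : ℝ × ℝ => cos (p.2 / 2)) := contDiff_cos.comp (by fun_prop)
  exact (h1.pow 2).add (h2.pow 2)

theorem contDiff_Xi : ContDiff ℝ ∞ Xi := by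
  unfold Xi
  have h0 := contDiff_Wd
  have hne : ∀ p, Wd p ≠ 0 := fun p => (Wd_pos p).ne'
  have h1 : ContDiff ℝ ∞ (fun p : ℝ × ℝ => cosh (p.1 / 2)) := contDiff_cosh.comp (by fun_prop)
  have h2 : ContDiff ℝ ∞ (fun p : ℝ × ℝ => cos (p.2 / 2)) := contDiff_cos.comp (by fun_prop)
  have h3 : ContDiff ℝ ∞ (fun p : ℝ × ℝ => sinh (p.1 / 2)) := contDiff_sinh.comp (by fun_prop)
  have h4 : ContDiff ℝ ∞ (fun p : ℝ × ℝ => sin (p.2 / 2)) := contDiff_sin.comp (by fun_prop)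
  exact contDiff_vec (((contDiff_const.mul h1).mul h2).div h0 hne) 
    ((((contDiff_const.mul h3).mul h4).neg).div h0 hne) 
    (contDiff_const.sub (contDiff_const.div h0 hne))

theorem norm_Xi (p : ℝ × ℝ) : ‖Xi p‖ = 1 := by
  have h1 := cosh_sq (p.1 / 2)
  have h2 := sin_sq_add_cos_sq (p.2 / 2)
  have hW := Wd_pos p
  have hWd : Wd p = cosh (p.1 / 2) ^ 2 + cos (p.2 / 2) ^ 2 := rfl
  have h3 : ‖Xi p‖ ^ 2 = 1 := by
    rw [normsq3]
    unfold Xi
    rw [vec_zero', vec_one', vec_two']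
    field_simp
    rw [hWd]
    set a := cosh (p.1 / 2)
    set b := sinh (p.1 / 2)
    set c := cos (p.2 / 2)
    set d := sin (p.2 / 2)
    have h1' : a ^ 2 = b ^ 2 + 1 := h1
    have h2' : d ^ 2 = 1 - c ^ 2 := by linarith
    linear_combination (4 * c ^ 2 - 4) * h1' + 4 * b ^ 2 * h2'
  exact (pow_eq_one_iff_of_nonneg (norm_nonneg _) two_ne_zero).1 h3

theorem hasDerivAt_half (f : ℝ → ℝ) {f' t : ℝ} (h : HasDerivAt f f' (t / 2)) : 
    HasDerivAt (fun s => f (s / 2)) (f' / 2) t := by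
  have h1 : HasDerivAt (fun s : ℝ => s / 2) (1 / 2) t := (hasDerivAt_id t).div_const 2
  exact (HasDerivAt.comp t h h1).congr_deriv (by ring)

/-- The partial derivatives of the chart. -/
theorem du_Xi (p : ℝ × ℝ) : du Xi p = 
    vec (sinh (p.1 / 2) * cos (p.2 / 2) * (cos (p.2 / 2) ^ 2 - cosh (p.1 / 2) ^ 2) / Wd p ^ 2)
      (cosh (p.1 / 2) * sin (p.2 / 2) * (sinh (p.1 / 2) ^ 2 - 1 - cos (p.2 / 2) ^ 2) / Wd p ^ 2)
      (2 * cosh (p.1 / 2) * sinh (p.1 / 2) / Wd p ^ 2) := by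
  apply du_eq (contDiff_Xi.differentiable (by simp) p)
  have hW := Wd_pos p
  have hWd : Wd p = cosh (p.1 / 2) ^ 2 + cos (p.2 / 2) ^ 2 := rfl
  have hs := cosh_sq (p.1 / 2)
  have e1 : HasDerivAt (fun t => cosh (t / 2)) (sinh (p.1 / 2) / 2) p.1 := 
    hasDerivAt_half cosh (hasDerivAt_cosh _)
  have e2 : HasDerivAt (fun t => sinh (t / 2)) (cosh (p.1 / 2) / 2) p.1 := 
    hasDerivAt_half sinh (hasDerivAt_sinh _)
  have e3 : HasDerivAt (fun t => Wd (t, p.2)) (cosh (p.1 / 2) * sinh (p.1 / 2)) p.1 := by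
    have e4 : HasDerivAt (fun t => cosh (t / 2) ^ 2) (cosh (p.1 / 2) * sinh (p.1 / 2)) p.1 := by
      refine (e1.pow 2).congr_deriv ?_
      simp only [Nat.cast_ofNat, Nat.add_one_sub_one, pow_one]
      ring
    exact e4.add_const (cos (p.2 / 2) ^ 2)
  have hW' : Wd (p.1, p.2) ≠ 0 := hW.ne'
  unfold Xi
  refine hasDerivAt_vec ?_ ?_ ?_
  · refine (((e1.const_mul 2).mul_const (cos (p.2 / 2))).div e3 hW').congr_deriv ?_
    have : Wd (p.1, p.2) = Wd p := rfl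
    rw [this]
    congr 1
    rw [hWd]
    ring
  · refine ((((e2.const_mul 2).mul_const (sin (p.2 / 2))).neg).div e3 hW').congr_deriv ?_
    have : Wd (p.1, p.2) = Wd p := rfl
    rw [this]
    congr 1
    rw [hWd]
    simp only [Pi.neg_apply]
    linear_combination (-(cosh (p.1 / 2) * sin (p.2 / 2))) * hs
  · refine ((hasDerivAt_const p.1 (2:ℝ)).div e3 hW').const_sub 1 |>.congr_deriv ?_
    have : Wd (p.1, p.2) = Wd p := rfl
    rw [this]
    ring

theorem dv_Xi (p : ℝ × ℝ) : dv Xi p = 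
    vec (cosh (p.1 / 2) * sin (p.2 / 2) * (cos (p.2 / 2) ^ 2 - cosh (p.1 / 2) ^ 2) / Wd p ^ 2)
      (-(sinh (p.1 / 2) * cos (p.2 / 2) * (cosh (p.1 / 2) ^ 2 + 1 + sin (p.2 / 2) ^ 2)) / Wd p ^ 2)
      (-(2 * cos (p.2 / 2) * sin (p.2 / 2)) / Wd p ^ 2) := by
  apply dv_eq (contDiff_Xi.differentiable (by simp) p)
  have hW := Wd_pos p
  have hWd : Wd p = cosh (p.1 / 2) ^ 2 + cos (p.2 / 2) ^ 2 := rfl
  have hs := sin_sq_add_cos_sq (p.2 / 2)
  have e1 : HasDerivAt (fun t => cos (t / 2)) (-sin (p.2 / 2) / 2) p.2 := 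
    hasDerivAt_half cos (hasDerivAt_cos _)
  have e2 : HasDerivAt (fun t => sin (t / 2)) (cos (p.2 / 2) / 2) p.2 := 
    hasDerivAt_half sin (hasDerivAt_sin _)
  have e3 : HasDerivAt (fun t => Wd (p.1, t)) (-(cos (p.2 / 2) * sin (p.2 / 2))) p.2 := by
    have e4 : HasDerivAt (fun t => cos (t / 2) ^ 2) (-(cos (p.2 / 2) * sin (p.2 / 2))) p.2 := by
      refine (e1.pow 2).congr_deriv ?_
      simp only [Nat.cast_ofNat, Nat.add_one_sub_one, pow_one]
      ring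
    exact e4.const_add (cosh (p.1 / 2) ^ 2)
  have hW' : Wd (p.1, p.2) ≠ 0 := hW.ne'
  unfold Xi
  refine hasDerivAt_vec ?_ ?_ ?_
  · refine ((e1.const_mul (2 * cosh (p.1 / 2))).div e3 hW').congr_deriv ?_
    have : Wd (p.1, p.2) = Wd p := rfl
    rw [this]
    congr 1
    rw [hWd]
    ring
  · refine (((e2.const_mul (2 * sinh (p.1 / 2))).neg).div e3 hW').congr_deriv ?_
    have : Wd (p.1, p.2) = Wd p := rfl
    rw [this]
    congr 1
    rw [hWd]
    simp only [Pi.neg_apply]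
    linear_combination (-(sinh (p.1 / 2) * cos (p.2 / 2))) * hs
  · refine ((hasDerivAt_const p.2 (2:ℝ)).div e3 hW').const_sub 1 |>.congr_deriv ?_
    have : Wd (p.1, p.2) = Wd p := rfl
    rw [this]
    ring

/-- The conformal factor of the chart. -/
noncomputable def kx (p : ℝ × ℝ) : ℝ := (cosh (p.1 / 2) ^ 2 - cos (p.2 / 2) ^ 2) / Wd p ^ 2

theorem in_uu (p : ℝ × ℝ) : ⟪du Xi p, du Xi p⟫_ℝ = kx p := by
  have h1 := cosh_sq (p.1 / 2)
  have h2 := sin_sq_add_cos_sq (p.2 / 2)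
  have hW := Wd_pos p
  have hWd : Wd p = cosh (p.1 / 2) ^ 2 + cos (p.2 / 2) ^ 2 := rfl
  rw [du_Xi, inner3]
  simp only [vec_zero', vec_one', vec_two']
  unfold kx
  field_simp
  rw [hWd]
  set a := cosh (p.1 / 2)
  set b := sinh (p.1 / 2)
  set c := cos (p.2 / 2)
  set d := sin (p.2 / 2)
  have h1' : b ^ 2 = a ^ 2 - 1 := by linarith
  have h2' : d ^ 2 = 1 - c ^ 2 := by linarith
  have e1 : (b ^ 2) = a ^ 2 - 1 := h1'
  ring_nf
  simp only [show b ^ 4 = (b ^ 2) ^ 2 by ring, h1', h2']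
  ring

theorem in_vv (p : ℝ × ℝ) : ⟪dv Xi p, dv Xi p⟫_ℝ = kx p := by
  have h1 := cosh_sq (p.1 / 2)
  have h2 := sin_sq_add_cos_sq (p.2 / 2)
  have hW := Wd_pos p
  have hWd : Wd p = cosh (p.1 / 2) ^ 2 + cos (p.2 / 2) ^ 2 := rfl
  rw [dv_Xi, inner3]
  simp only [vec_zero', vec_one', vec_two']
  unfold kx
  field_simp
  rw [hWd]
  set a := cosh (p.1 / 2)
  set b := sinh (p.1 / 2)
  set c := cos (p.2 / 2)
  set d := sin (p.2 / 2)
  have h1' : b ^ 2 = a ^ 2 - 1 := by linarith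
  have h2' : d ^ 2 = 1 - c ^ 2 := by linarith
  ring_nf
  simp only [show d ^ 4 = (d ^ 2) ^ 2 by ring, h1', h2']
  ring

theorem in_uv (p : ℝ × ℝ) : ⟪du Xi p, dv Xi p⟫_ℝ = 0 := by
  have h1 := cosh_sq (p.1 / 2)
  have h2 := sin_sq_add_cos_sq (p.2 / 2)
  have hW := Wd_pos p
  rw [du_Xi, dv_Xi, inner3]
  simp only [vec_zero', vec_one', vec_two']
  field_simp
  set a := cosh (p.1 / 2)
  set b := sinh (p.1 / 2)
  set c := cos (p.2 / 2)
  set d := sin (p.2 / 2)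
  have h1' : b ^ 2 = a ^ 2 - 1 := by linarith
  have h2' : d ^ 2 = 1 - c ^ 2 := by linarith
  have e : (c ^ 2 - a ^ 2) ^ 2 + -((b ^ 2 - 1 - c ^ 2) * (a ^ 2 + 1 + d ^ 2)) + -2 ^ 2 = 0 := by
    rw [h1', h2']
    ring
  rw [e]
  ring

end Pool.Agent.Lib.MP_d2b992_gt.Erg
end

section
/-!
# The metric in the stereographic charts
-/
namespace Pool.Agent.Lib.MP_d2b992_gt.Erg

open Set Filter Topology
open scoped ContDiff InnerProductSpace

theorem norm_cc_sq (p : ℝ × ℝ) : ‖cc p‖ ^ 2 = p.1 ^ 2 + p.2 ^ 2 := by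
  rw [← Complex.normSq_eq_norm_sq, Complex.normSq_apply, cc_re, cc_im]
  ring

theorem stereo_one_apply (s : ℝ) (p : ℝ × ℝ) : 
    stereo s p 0 = 2 * p.1 * II p ∧ stereo s p 1 = 2 * p.2 * II p ∧ 
      stereo s p 2 = s * (2 * II p - 1) := by
  rw [stereo_eq]
  refine ⟨?_, ?_, ?_⟩
  · rw [vec_zero']; ring
  · rw [vec_one']; ring
  · rw [vec_two']

theorem norm_one_sub_sq (p : ℝ × ℝ) : 
    ‖1 - cc p ^ 2‖ ^ 2 = (1 - p.1 ^ 2 + p.2 ^ 2) ^ 2 + 4 * p.1 ^ 2 * p.2 ^ 2 := by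
  rw [← Complex.normSq_eq_norm_sq, Complex.normSq_apply]
  have h1 : (1 - cc p ^ 2).re = 1 - p.1 ^ 2 + p.2 ^ 2 := by
    rw [pow_two]
    simp [cc_re, cc_im]
    ring
  have h2 : (1 - cc p ^ 2).im = -(2 * p.1 * p.2) := by
    rw [pow_two]
    simp [cc_re, cc_im]
    ring
  rw [h1, h2]
  ring

theorem nu_stereo {s : ℝ} (hs : s = 1 ∨ s = -1) (p : ℝ × ℝ) : 
    nu (stereo s p) = ‖1 - cc p ^ 2‖ * II p := by
  obtain ⟨h0, h1, h2⟩ := stereo_one_apply s p
  have hs2 : s ^ 2 = 1 := by rcases hs with rfl | rfl <;> norm_num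
  have hI := II_mul p
  have hIp := II_pos p
  have h3 : nu (stereo s p) ^ 2 = (‖1 - cc p ^ 2‖ * II p) ^ 2 := by
    rw [nu_sq, h1, h2, mul_pow (‖1 - cc p ^ 2‖), norm_one_sub_sq, mul_pow s, hs2]
    have h4 : (2 * II p - 1) = (1 - p.1 ^ 2 - p.2 ^ 2) * II p := by linear_combination hI
    rw [h4]
    ring
  exact (pow_left_inj₀ (nu_nonneg _) (by positivity) two_ne_zero).1 h3

theorem one_add_stereo (p : ℝ × ℝ) : 1 + stereo 1 p 2 = 2 * II p := by
  rw [(stereo_one_apply 1 p).2.2]; ring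

theorem one_sub_stereo (p : ℝ × ℝ) : 1 - stereo 1 p 2 = 2 * II p * ‖cc p‖ ^ 2 := by
  have hI := II_mul p
  rw [(stereo_one_apply 1 p).2.2, norm_cc_sq]
  linear_combination (-2) * hI

theorem den_stereo (p : ℝ × ℝ) : 1 + stereo 1 p 2 + 2 * nu (stereo 1 p) = 
    2 * II p * (1 + ‖1 - cc p ^ 2‖) := by
  rw [one_add_stereo, nu_stereo (Or.inl rfl)]; ring

theorem SS_stereo (p : ℝ × ℝ) : SS (stereo 1 p) = ‖cc p‖ ^ 2 / (1 + ‖1 - cc p ^ 2‖) := by
  unfold SS
  rw [den_stereo, one_sub_stereo]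
  have hIp := II_pos p
  field_simp

/-- The conformal factor in the chart. -/
noncomputable def LL (C : Caps) (s : ℝ) (p : ℝ × ℝ) : ℝ := C.lam (stereo s p) * (4 * II p ^ 2)

theorem curvature_eq (C : Caps) {s : ℝ} (hs : s = 1 ∨ s = -1) (p : ℝ × ℝ) : 
    C.metric.curvature s p = brioschi (LL C s) (fun _ => 0) (LL C s) p := by
  unfold SphereMetric.curvature
  have h1 : C.metric.cE s = LL C s := by
    funext q
    unfold SphereMetric.cE LL
    rw [Caps.metric_g, round_E hs]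
  have h2 : C.metric.cG s = LL C s := by
    funext q
    unfold SphereMetric.cG LL
    rw [Caps.metric_g, round_G hs]
  have h3 : C.metric.cF s = fun _ => 0 := by
    funext q
    unfold SphereMetric.cF
    rw [Caps.metric_g, round_F hs, mul_zero]
  rw [h1, h2, h3]

/-! ### The inversion -/

/-- The inversion `z ↦ 1 / z`. -/
noncomputable def inv2 (p : ℝ × ℝ) : ℝ × ℝ := 
  (p.1 / (p.1 ^ 2 + p.2 ^ 2), -p.2 / (p.1 ^ 2 + p.2 ^ 2))

theorem cc_inv2 (p : ℝ × ℝ) : cc (inv2 p) = (cc p)⁻¹ := by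
  apply Complex.ext
  · rw [cc_re, Complex.inv_re, cc_re, Complex.normSq_apply, cc_re, cc_im, inv2]
    simp only
    ring_nf
  · rw [cc_im, Complex.inv_im, cc_im, Complex.normSq_apply, cc_re, cc_im, inv2]
    simp only
    ring_nf

theorem sq_pos_of_ne {p : ℝ × ℝ} (hp : p ≠ 0) : 0 < p.1 ^ 2 + p.2 ^ 2 := by
  by_contra h
  push Not at h
  have h1 : p.1 = 0 := by nlinarith [sq_nonneg p.1, sq_nonneg p.2]
  have h2 : p.2 = 0 := by nlinarith [sq_nonneg p.1, sq_nonneg p.2]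
  exact hp (Prod.ext h1 h2)

theorem II_inv2 {p : ℝ × ℝ} (hp : p ≠ 0) : II (inv2 p) = (p.1 ^ 2 + p.2 ^ 2) * II p := by
  have h := sq_pos_of_ne hp
  unfold II inv2
  simp only
  have h2 : 0 < 1 + p.1 ^ 2 + p.2 ^ 2 := by positivity
  rw [div_pow, div_pow]
  field_simp
  ring

theorem lam_congr (C : Caps) {x y : R3} (h1 : x 1 ^ 2 = y 1 ^ 2) (h2 : x 2 = y 2) : 
    C.lam x = C.lam y := by
  have e1 : nu x = nu y := by unfold nu; rw [h1, h2]
  have e2 : SS x = SS y := by unfold SS; rw [e1, h2]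
  have e3 : WW x = WW y := by unfold WW; rw [h1, h2]
  unfold Caps.lam Caps.lamP Caps.lamQ lam1
  rw [e1, e2, e3, h2]

theorem LL_neg_one (C : Caps) {p : ℝ × ℝ} (hp : p ≠ 0) : 
    LL C (-1) p = LL C 1 (inv2 p) / (p.1 ^ 2 + p.2 ^ 2) ^ 2 := by
  have h := sq_pos_of_ne hp
  have hI := II_mul p
  obtain ⟨a0, a1, a2⟩ := stereo_one_apply (-1) p
  obtain ⟨b0, b1, b2⟩ := stereo_one_apply 1 (inv2 p)
  have e1 : C.lam (stereo (-1) p) = C.lam (stereo 1 (inv2 p)) := by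
    apply lam_congr
    · rw [a1, b1, II_inv2 hp]
      unfold inv2
      simp only
      field_simp
    · rw [a2, b2, II_inv2 hp]
      linear_combination (-2) * hI
  unfold LL
  rw [e1, II_inv2 hp]
  field_simp

end Pool.Agent.Lib.MP_d2b992_gt.Erg
end

section
/-!
# The curvature of the metric: the radial functions
-/
namespace Pool.Agent.Lib.MP_d2b992_gt.Erg

open Set Filter Topology
open scoped ContDiff InnerProductSpace

namespace Cap

variable (K : Cap)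

/-- The curvature of a cap as a function of `u`. -/
noncomputable def curv (u : ℝ) : ℝ := 2 * deriv K.h u / K.h u ^ 3

theorem curv_pos {u : ℝ} (h0 : 0 ≤ u) (h1 : u < 1) : 0 < K.curv u := by
  have := K.deriv_h_pos h0 h1
  have := K.h_pos h0 h1
  unfold curv
  positivity

theorem contDiffAt_deriv_h {u : ℝ} (hu : u < 1) : ContDiffAt ℝ ∞ (deriv K.h) u := by
  have h1 : ContDiffOn ℝ ∞ K.h (Iio 1) := fun v hv => (K.contDiffAt_h hv).contDiffWithinAt
  exact ((contDiffOn_infty_iff_deriv_of_isOpen isOpen_Iio).1 h1).2.contDiffAt 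
    (isOpen_Iio.mem_nhds hu)

theorem curv_round {u : ℝ} (hu : K.a ^ 2 < u) (h1 : u < 1) : K.curv u = 1 := by
  have h2 : 0 < 1 - u := by linarith
  have h3 := Real.sqrt_pos.2 h2
  have h4 := Real.sq_sqrt h2.le
  unfold curv
  rw [K.h_eq hu.le, (K.hasDerivAt_h h1).deriv, K.zero u hu.le, div_pow]
  set r := √(1 - u)
  rw [← h4]
  field_simp
  ring

theorem exists_curv_lb : ∃ ε > 0, ∀ u, 0 ≤ u → u < 1 → ε ≤ K.curv u := by
  have hc : ContinuousOn K.curv (Icc 0 (K.a ^ 2)) := by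
    intro u hu
    have hu1 : u < 1 := lt_of_le_of_lt hu.2 K.a_sq_lt
    have h1 := (K.contDiffAt_deriv_h hu1).continuousAt
    have h2 := (K.contDiffAt_h hu1).continuousAt
    have h3 : K.h u ^ 3 ≠ 0 := pow_ne_zero 3 (K.h_pos hu.1 hu1).ne'
    exact ((continuousAt_const.mul h1).div (h2.pow 3) h3).continuousWithinAt
  obtain ⟨m, hm, hmin⟩ := isCompact_Icc.exists_isMinOn ⟨0, le_rfl, K.a_sq_pos.le⟩ hc
  have hm0 := K.curv_pos hm.1 (lt_of_le_of_lt hm.2 K.a_sq_lt)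
  refine ⟨min (K.curv m) 1, lt_min hm0 one_pos, fun u h0 h1 => ?_⟩
  rcases le_or_gt u (K.a ^ 2) with h | h
  · exact (min_le_left _ _).trans (hmin ⟨h0, h⟩)
  · rw [K.curv_round h h1]
    exact min_le_right _ _

/-- The radial function. -/
noncomputable def gg (k : ℕ) (κ t : ℝ) : ℝ := Real.log (K.U (Real.exp (k * t)) / κ)

theorem exp_mem {k : ℕ} (hk : 0 < k) {t : ℝ} (ht : t < 0) : 0 < Real.exp (k * t) ∧ 
    Real.exp (k * t) < 1 := by
  refine ⟨Real.exp_pos _, ?_⟩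
  rw [Real.exp_lt_one_iff]
  have : (0:ℝ) < k := Nat.cast_pos.2 hk
  exact mul_neg_of_pos_of_neg this ht

theorem hasDerivAt_Uexp {k : ℕ} (hk : 0 < k) {t : ℝ} (ht : t < 0) : 
    HasDerivAt (fun t => K.U (Real.exp (k * t))) 
      (2 * k * K.U (Real.exp (k * t)) / (K.n * K.h (K.U (Real.exp (k * t))))) t := by
  obtain ⟨h0, h1⟩ := exp_mem hk ht
  have h2 : HasDerivAt (fun t : ℝ => Real.exp (k * t)) (Real.exp (k * t) * k) t := by
    have : HasDerivAt (fun t : ℝ => (k:ℝ) * t) k t := by simpa using (hasDerivAt_id t).const_mul (k:ℝ)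
    exact this.exp
  have h3 := (K.hasDerivAt_U h0 h1).comp t h2
  obtain ⟨u0, u1, u2⟩ := K.U_spec h0.le h1
  have hh := K.h_pos u0 u1
  have hn := K.nR_pos
  refine h3.congr_deriv ?_
  field_simp

theorem gg_spec {k : ℕ} {κ : ℝ} (hk : 0 < k) (hκ : 0 < κ) {t : ℝ} (ht : t < 0) : 
    ContDiffAt ℝ 2 (K.gg k κ) t ∧ Real.exp (K.gg k κ t) = K.U (Real.exp (k * t)) / κ ∧ 
    -deriv (deriv (K.gg k κ)) t / (2 * Real.exp (K.gg k κ t)) = 
      κ * k ^ 2 / K.n ^ 2 * K.curv (K.U (Real.exp (k * t))) := by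
  obtain ⟨h0, h1⟩ := exp_mem hk ht
  have hU := K.U_pos h0 h1
  have hn := K.nR_pos
  obtain ⟨u0, u1, u2⟩ := K.U_spec h0.le h1
  have hh := K.h_pos u0 u1
  have hkR : (0:ℝ) < k := Nat.cast_pos.2 hk
  -- first derivative
  have d1 : ∀ s < 0, HasDerivAt (K.gg k κ) (2 * k / (K.n * K.h (K.U (Real.exp (k * s))))) s := by
    intro s hs
    obtain ⟨a0, a1⟩ := exp_mem hk hs
    have aU := K.U_pos a0 a1
    obtain ⟨b0, b1, b2⟩ := K.U_spec a0.le a1
    have hh := K.h_pos b0 b1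
    have h3 := ((K.hasDerivAt_Uexp hk hs).div_const κ).log (by positivity)
    refine h3.congr_deriv ?_
    field_simp
  have hev : deriv (K.gg k κ) =ᶠ[𝓝 t] fun s => 2 * k / (K.n * K.h (K.U (Real.exp (k * s)))) := by
    filter_upwards [isOpen_Iio.mem_nhds ht] with s hs using (d1 s hs).deriv
  have hd2 : HasDerivAt (fun s => 2 * k / (K.n * K.h (K.U (Real.exp (k * s)))))
      (-(4 * k ^ 2 * deriv K.h (K.U (Real.exp (k * t))) * K.U (Real.exp (k * t))) / 
        (K.n ^ 2 * K.h (K.U (Real.exp (k * t))) ^ 3)) t := by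
    have h3 : HasDerivAt (fun s => K.h (K.U (Real.exp (k * s)))) 
        (deriv K.h (K.U (Real.exp (k * t))) * (2 * k * K.U (Real.exp (k * t)) / 
          (K.n * K.h (K.U (Real.exp (k * t)))))) t := 
      HasDerivAt.comp (h₂ := K.h) t (K.hasDerivAt_h u1).differentiableAt.hasDerivAt 
        (K.hasDerivAt_Uexp hk ht)
    have h4 := (hasDerivAt_const t (2 * (k:ℝ))).div (h3.const_mul (K.n:ℝ)) (by positivity)
    refine h4.congr_deriv ?_
    field_simp
    ring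
  have hsm : ContDiffAt ℝ ∞ (K.gg k κ) t := by
    have h3 : ContDiffAt ℝ ∞ (fun s : ℝ => Real.exp (k * s)) t := by fun_prop
    have h4 : ContDiffAt ℝ ∞ (fun s : ℝ => K.U (Real.exp (k * s))) t := 
      ContDiffAt.comp (g := K.U) t (K.contDiffAt_U h0.le h1).1 h3
    exact (h4.div_const κ).log (by positivity)
  have he : Real.exp (K.gg k κ t) = K.U (Real.exp (k * t)) / κ := by
    unfold gg; exact Real.exp_log (by positivity)
  refine ⟨hsm.of_le (WithTop.coe_le_coe.mpr (le_top : (2 : ENat) ≤ ⊤)), he, ?_⟩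
  rw [he, hev.deriv_eq, hd2.deriv]
  unfold curv
  field_simp
  ring

end Cap

/-- The radial function of the round sphere. -/
noncomputable def g1 (t : ℝ) : ℝ := t - 2 * Real.log (1 + Real.exp t)

theorem g1_spec (t : ℝ) : ContDiffAt ℝ 2 g1 t ∧ 
    Real.exp (g1 t) = Real.exp t / (1 + Real.exp t) ^ 2 ∧ 
    -deriv (deriv g1) t / (2 * Real.exp (g1 t)) = 1 := by
  have hE := Real.exp_pos t
  have d1 : ∀ s, HasDerivAt g1 (1 - 2 * (Real.exp s / (1 + Real.exp s))) s := by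
    intro s
    have hE := Real.exp_pos s
    exact (hasDerivAt_id s).sub ((((Real.hasDerivAt_exp s).const_add 1).log 
      (by positivity)).const_mul 2)
  have hd : deriv g1 = fun s => 1 - 2 * (Real.exp s / (1 + Real.exp s)) := by
    funext s; exact (d1 s).deriv
  have d2 : HasDerivAt (fun s => 1 - 2 * (Real.exp s / (1 + Real.exp s))) 
      (-2 * (Real.exp t / (1 + Real.exp t) ^ 2)) t := by
    have h1 := (Real.hasDerivAt_exp t).div ((Real.hasDerivAt_exp t).const_add 1) 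
      (by positivity : 1 + Real.exp t ≠ 0)
    refine ((h1.const_mul 2).const_sub 1).congr_deriv ?_
    field_simp
    ring
  have he : Real.exp (g1 t) = Real.exp t / (1 + Real.exp t) ^ 2 := by
    unfold g1
    rw [Real.exp_sub, two_mul, Real.exp_add, Real.exp_log (by positivity)]
    ring
  refine ⟨?_, he, ?_⟩
  · have h1 : ContDiffAt ℝ 2 (fun s : ℝ => 1 + Real.exp s) t := by fun_prop
    exact contDiffAt_id.sub (contDiffAt_const.mul (h1.log (by positivity)))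
  · rw [he, hd, d2.deriv]
    field_simp

end Pool.Agent.Lib.MP_d2b992_gt.Erg
end

section
/-!
# The curvature of the metric: the local radial forms
-/
namespace Pool.Agent.Lib.MP_d2b992_gt.Erg

open Set Filter Topology
open scoped ContDiff InnerProductSpace

/-- A local radial form in the chart. -/
structure Form (C : Caps) (p : ℝ × ℝ) (f : ℂ → ℂ) (g : ℝ → ℝ) : Prop where
  an : AnalyticAt ℂ f (cc p)
  ne : f (cc p) ≠ 0
  dne : deriv f (cc p) ≠ 0
  smooth : ContDiffAt ℝ 2 g (Real.log ‖f (cc p)‖)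
  eq : ∀ᶠ q in 𝓝 p, LL C 1 q = (‖deriv f (cc q)‖ / ‖f (cc q)‖) ^ 2 * 
    Real.exp (g (Real.log ‖f (cc q)‖))

theorem Form.curv_one {C : Caps} {p : ℝ × ℝ} {f : ℂ → ℂ} {g : ℝ → ℝ} (h : Form C p f g) : 
    C.metric.curvature 1 p = -deriv (deriv g) (Real.log ‖f (cc p)‖) / 
      (2 * Real.exp (g (Real.log ‖f (cc p)‖))) := by
  rw [curvature_eq C (Or.inl rfl)]
  exact curv_hol h.an h.ne h.dne h.smooth h.eq

theorem cc_ne_zero {p : ℝ × ℝ} (hp : p ≠ 0) : cc p ≠ 0 := by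
  unfold cc
  exact (map_ne_zero_iff _ Complex.equivRealProdCLM.symm.injective).2 hp

theorem continuousAt_inv2 {p : ℝ × ℝ} (hp : p ≠ 0) : ContinuousAt inv2 p := by
  have h := (sq_pos_of_ne hp).ne'
  unfold inv2
  exact ContinuousAt.prodMk (ContinuousAt.div (by fun_prop) (by fun_prop) h) 
    (ContinuousAt.div (by fun_prop) (by fun_prop) h)

theorem Form.curv_neg_one {C : Caps} {p : ℝ × ℝ} {f : ℂ → ℂ} {g : ℝ → ℝ} (hp : p ≠ 0)
    (h : Form C (inv2 p) f g) : 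
    C.metric.curvature (-1) p = -deriv (deriv g) (Real.log ‖f (cc (inv2 p))‖) / 
      (2 * Real.exp (g (Real.log ‖f (cc (inv2 p))‖))) := by
  rw [curvature_eq C (Or.inr rfl)]
  have hz := cc_ne_zero hp
  have han := h.an
  have hne := h.ne
  have hdne := h.dne
  have hsm := h.smooth
  rw [cc_inv2] at han hne hdne hsm ⊢
  set F : ℂ → ℂ := fun z => f z⁻¹ with hF
  have hFa : AnalyticAt ℂ F (cc p) := by
    have h1 : AnalyticAt ℂ (fun z : ℂ => z⁻¹) (cc p) := analyticAt_inv hz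
    exact AnalyticAt.fun_comp han h1
  have hev : ∀ᶠ z in 𝓝 (cc p), AnalyticAt ℂ f z⁻¹ := by
    have hc : ContinuousAt (fun z : ℂ => z⁻¹) (cc p) := continuousAt_inv₀ hz
    exact hc.eventually han.eventually_analyticAt
  have hdF : ∀ᶠ z in 𝓝 (cc p), deriv F z = deriv f z⁻¹ * (-(z ^ 2)⁻¹) := by
    filter_upwards [hev, continuousAt_id.eventually_ne hz] with z h1 h2
    have h3 := h1.differentiableAt.hasDerivAt.comp z (hasDerivAt_inv h2)
    exact h3.deriv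
  have hdF0 := hdF.self_of_nhds
  have h5 := curv_hol (L := LL C (-1)) (f := F) (g := g) (p := p) hFa hne (by
    rw [hdF0]
    exact mul_ne_zero hdne (neg_ne_zero.2 (inv_ne_zero (pow_ne_zero 2 hz)))) hsm ?_
  · exact h5
  · have h6 : ∀ᶠ q in 𝓝 p, deriv F (cc q) = deriv f (cc q)⁻¹ * (-(cc q ^ 2)⁻¹) := 
      continuous_cc.continuousAt.eventually hdF
    have h7 := (continuousAt_inv2 hp).eventually h.eq
    have h8 : ∀ᶠ q in 𝓝 p, q ≠ 0 := eventually_ne_nhds hp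
    filter_upwards [h6, h7, h8] with q a b c
    have hq := sq_pos_of_ne c
    rw [LL_neg_one C c, b, a, cc_inv2, ← norm_cc_sq, norm_mul, norm_neg, norm_inv, norm_pow]
    have hcq := norm_pos_iff.2 (cc_ne_zero c)
    have e1 : F (cc q) = f (cc q)⁻¹ := rfl
    rw [e1]
    ring_nf

/-! ### The round region and the second caps -/

theorem hasDerivAt_one_sub_sq (z : ℂ) : HasDerivAt (fun z : ℂ => 1 - z ^ 2) (-(2 * z)) z := by
  have := (hasDerivAt_pow 2 z).const_sub 1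
  simpa using this

theorem continuous_stereo (s : ℝ) : Continuous (stereo s) := (contDiff_stereo s).continuous

theorem form_one {C : Caps} {p : ℝ × ℝ} (hp : p ≠ 0) (hw : 1 - cc p ^ 2 ≠ 0)
    (h : C.lam =ᶠ[𝓝 (stereo 1 p)] lam1) : Form C p (fun z => 1 - z ^ 2) g1 where
  an := analyticAt_const.sub (analyticAt_id.pow 2)
  ne := hw
  dne := by
    rw [(hasDerivAt_one_sub_sq _).deriv]
    exact neg_ne_zero.2 (mul_ne_zero two_ne_zero (cc_ne_zero hp))
  smooth := (g1_spec _).1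
  eq := by
    have h1 := (continuous_stereo 1).continuousAt.eventually h
    have h2 : ∀ᶠ q in 𝓝 p, 1 - cc q ^ 2 ≠ 0 := by
      have hc : Continuous fun q => 1 - cc q ^ 2 := by
        have := continuous_cc; fun_prop
      exact hc.continuousAt.eventually_ne hw
    filter_upwards [h1, h2] with q a b
    have hr := norm_pos_iff.2 b
    have hI := II_pos q
    rw [(hasDerivAt_one_sub_sq _).deriv, (g1_spec _).2.1, Real.exp_log hr, norm_neg, norm_mul, 
      Complex.norm_ofNat]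
    unfold LL
    rw [a, lam1, den_stereo, one_sub_stereo, nu_stereo (Or.inl rfl)]
    set r := ‖1 - cc q ^ 2‖
    field_simp
    ring

theorem WW_stereo (q : ℝ × ℝ) : WW (stereo 1 q) = ‖1 - cc q ^ 2‖ ^ 2 := by
  have hI := II_pos q
  rw [Caps.WW_eq, one_add_stereo, nu_stereo (Or.inl rfl)]
  congr 1
  field_simp

theorem form_Q {C : Caps} {p : ℝ × ℝ} (hp : p ≠ 0) (hw : 1 - cc p ^ 2 ≠ 0)
    (hr : ‖1 - cc p ^ 2‖ < 1) (h : C.lam =ᶠ[𝓝 (stereo 1 p)] C.lamQ) : 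
    Form C p (fun z => 1 - z ^ 2) (C.Q.gg 2 4) where
  an := analyticAt_const.sub (analyticAt_id.pow 2)
  ne := hw
  dne := by
    rw [(hasDerivAt_one_sub_sq _).deriv]
    exact neg_ne_zero.2 (mul_ne_zero two_ne_zero (cc_ne_zero hp))
  smooth := (C.Q.gg_spec two_pos four_pos (Real.log_neg (norm_pos_iff.2 hw) hr)).1
  eq := by
    have h1 := (continuous_stereo 1).continuousAt.eventually h
    have hc : Continuous fun q => 1 - cc q ^ 2 := by
      have := continuous_cc; fun_prop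
    have h2 : ∀ᶠ q in 𝓝 p, 1 - cc q ^ 2 ≠ 0 := hc.continuousAt.eventually_ne hw
    have h3 : ∀ᶠ q in 𝓝 p, ‖1 - cc q ^ 2‖ < 1 := 
      hc.norm.continuousAt.eventually (gt_mem_nhds hr)
    filter_upwards [h1, h2, h3] with q a b c
    have hr := norm_pos_iff.2 b
    have hI := II_pos q
    have hlog : Real.log ‖1 - cc q ^ 2‖ < 0 := Real.log_neg hr c
    rw [(hasDerivAt_one_sub_sq _).deriv, (C.Q.gg_spec two_pos four_pos hlog).2.1, norm_neg, 
      norm_mul, Complex.norm_ofNat]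
    have e1 : Real.exp ((2:ℕ) * Real.log ‖1 - cc q ^ 2‖) = ‖1 - cc q ^ 2‖ ^ 2 := by
      rw [Real.exp_nat_mul, Real.exp_log hr]
    rw [e1, C.Q.U_eq_mul_kap (by positivity) (pow_lt_one₀ hr.le c two_ne_zero)]
    unfold LL
    rw [a, Caps.lamQ, one_sub_stereo, one_add_stereo, WW_stereo]
    set r := ‖1 - cc q ^ 2‖
    field_simp
    ring

/-! ### The first cap -/

/-- The square root of `1 - z ^ 2`. -/
noncomputable def csq (z : ℂ) : ℂ := Complex.exp (Complex.log (1 - z ^ 2) / 2)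

/-- The coordinate `y`. -/
noncomputable def yy (z : ℂ) : ℂ := (1 - csq z) / (1 + csq z)

theorem csq_sq {z : ℂ} (h : 1 - z ^ 2 ≠ 0) : csq z ^ 2 = 1 - z ^ 2 := by
  unfold csq
  rw [← Complex.exp_nat_mul]
  push_cast
  rw [mul_div_cancel₀ _ (two_ne_zero' ℂ), Complex.exp_log h]

theorem csq_re {z : ℂ} (h : 1 - z ^ 2 ∈ Complex.slitPlane) : 0 < (csq z).re := by
  unfold csq
  rw [Complex.exp_re]
  have h1 : (Complex.log (1 - z ^ 2) / 2).im = Complex.arg (1 - z ^ 2) / 2 := by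
    rw [Complex.div_ofNat_im, Complex.log_im]
  rw [h1]
  have h2 := Complex.neg_pi_lt_arg (1 - z ^ 2)
  have h3 := Complex.arg_le_pi (1 - z ^ 2)
  have h4 := Complex.slitPlane_arg_ne_pi h
  have h5 : Complex.arg (1 - z ^ 2) < Real.pi := lt_of_le_of_ne h3 h4
  exact mul_pos (Real.exp_pos _) (Real.cos_pos_of_mem_Ioo ⟨by linarith, by linarith⟩)

theorem csq_ne_zero (z : ℂ) : csq z ≠ 0 := Complex.exp_ne_zero _

theorem one_add_csq_ne {z : ℂ} (h : 1 - z ^ 2 ∈ Complex.slitPlane) : 1 + csq z ≠ 0 := by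
  intro h2
  have h3 := congrArg Complex.re h2
  have := csq_re h
  simp at h3
  linarith

theorem one_sub_csq_ne {z : ℂ} (h : 1 - z ^ 2 ≠ 0) (hz : z ≠ 0) : 1 - csq z ≠ 0 := by
  intro h2
  have h3 : csq z = 1 := by linear_combination -h2
  have h4 := csq_sq h
  rw [h3] at h4
  have : z ^ 2 = 0 := by linear_combination h4
  exact hz (pow_eq_zero_iff two_ne_zero |>.1 this)

theorem hasDerivAt_csq {z : ℂ} (h : 1 - z ^ 2 ∈ Complex.slitPlane) : 
    HasDerivAt csq (-z / csq z) z := by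
  have h0 := Complex.slitPlane_ne_zero h
  have h1 := (((hasDerivAt_one_sub_sq z).clog h).div_const 2).cexp
  refine h1.congr_deriv ?_
  have h2 := csq_sq h0
  have h3 := csq_ne_zero z
  have h4 : Complex.exp (Complex.log (1 - z ^ 2) / 2) = csq z := rfl
  rw [h4, ← h2]
  field_simp

theorem analyticAt_csq {z : ℂ} (h : 1 - z ^ 2 ∈ Complex.slitPlane) : AnalyticAt ℂ csq z := by
  have h1 : AnalyticAt ℂ (fun z : ℂ => 1 - z ^ 2) z := analyticAt_const.sub (analyticAt_id.pow 2)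
  have h2 : AnalyticAt ℂ (fun z : ℂ => Complex.log (1 - z ^ 2)) z := h1.clog h
  exact ((h2.div analyticAt_const two_ne_zero)).cexp

theorem hasDerivAt_yy {z : ℂ} (h : 1 - z ^ 2 ∈ Complex.slitPlane) : 
    HasDerivAt yy (2 * z / (csq z * (1 + csq z) ^ 2)) z := by
  have h1 := hasDerivAt_csq h
  have h2 := one_add_csq_ne h
  have h3 := (h1.const_sub 1).div (h1.const_add 1) h2
  refine h3.congr_deriv ?_
  have h4 := csq_ne_zero z
  field_simp
  ring

theorem norm_yy_log_deriv {z : ℂ} (h : 1 - z ^ 2 ∈ Complex.slitPlane) (hz : z ≠ 0) : 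
    (‖deriv yy z‖ / ‖yy z‖) ^ 2 = 4 / (‖z‖ ^ 2 * ‖1 - z ^ 2‖) := by
  have h0 := Complex.slitPlane_ne_zero h
  have h1 := one_add_csq_ne h
  have h2 := one_sub_csq_ne h0 hz
  have h3 := csq_ne_zero z
  have h4 := csq_sq h0
  have h6 : deriv yy z / yy z = 2 / (csq z * z) := by
    rw [(hasDerivAt_yy h).deriv]
    unfold yy
    have h5 : z ^ 2 = (1 - csq z) * (1 + csq z) := by linear_combination h4
    field_simp
    linear_combination h5
  rw [← norm_div, h6, norm_div, norm_mul, Complex.norm_ofNat, ← h4, norm_pow]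
  have := norm_pos_iff.2 h3
  have := norm_pos_iff.2 hz
  field_simp
  norm_num

theorem norm_yy {z : ℂ} (h : 1 - z ^ 2 ∈ Complex.slitPlane) : 
    ‖yy z‖ = (‖z‖ ^ 2 / (1 + ‖1 - z ^ 2‖)) / 
      (1 + √(1 - (‖z‖ ^ 2 / (1 + ‖1 - z ^ 2‖)) ^ 2)) := by
  have h0 := Complex.slitPlane_ne_zero h
  have h1 := one_add_csq_ne h
  have h4 := csq_sq h0
  have h5 := csq_re h
  set c := csq z with hc
  have hA : 0 < 1 + ‖1 - z ^ 2‖ := by positivity
  have e1 : ‖1 - z ^ 2‖ = ‖c‖ ^ 2 := by rw [← h4, norm_pow]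
  have e2 : ‖1 - c‖ ^ 2 = 1 + ‖c‖ ^ 2 - 2 * c.re := by
    rw [← Complex.normSq_eq_norm_sq, ← Complex.normSq_eq_norm_sq, Complex.normSq_apply, 
      Complex.normSq_apply]
    simp
    ring
  have e3 : ‖1 + c‖ ^ 2 = 1 + ‖c‖ ^ 2 + 2 * c.re := by
    rw [← Complex.normSq_eq_norm_sq, ← Complex.normSq_eq_norm_sq, Complex.normSq_apply, 
      Complex.normSq_apply]
    simp
    ring
  have e4 : ‖1 - c‖ * ‖1 + c‖ = ‖z‖ ^ 2 := by
    rw [← norm_mul, ← norm_pow]
    congr 1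
    linear_combination -h4
  set A := 1 + ‖1 - z ^ 2‖ with hAdef
  have e5 : (‖z‖ ^ 2) ^ 2 = A ^ 2 - (2 * c.re) ^ 2 := by
    rw [← e4, mul_pow, e2, e3, hAdef, e1]
    ring
  have e6 : √(1 - (‖z‖ ^ 2 / A) ^ 2) = 2 * c.re / A := by
    have : 1 - (‖z‖ ^ 2 / A) ^ 2 = (2 * c.re / A) ^ 2 := by
      rw [div_pow, e5]
      field_simp
      ring
    rw [this]
    exact Real.sqrt_sq (by positivity)
  rw [e6]
  unfold yy
  rw [norm_div, ← hc]
  have h7 : 0 < ‖1 + c‖ := norm_pos_iff.2 h1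
  have e7 : ‖1 + c‖ ^ 2 = A + 2 * c.re := by rw [e3, hAdef, e1]
  have e8 : ‖z‖ ^ 2 / A / (1 + 2 * c.re / A) = ‖z‖ ^ 2 / (A + 2 * c.re) := by
    field_simp
  rw [e8, ← e7, ← e4]
  field_simp

/-- If `S < 1` then `1 - z ^ 2` is not a nonpositive real number. -/
theorem slit_of_SS {z : ℂ} (h : ‖z‖ ^ 2 / (1 + ‖1 - z ^ 2‖) < 1) : 1 - z ^ 2 ∈ Complex.slitPlane := by
  by_contra h1
  rw [Complex.mem_slitPlane_iff] at h1
  push Not at h1
  obtain ⟨h2, h3⟩ := h1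
  have hA : 0 < 1 + ‖1 - z ^ 2‖ := by positivity
  rw [div_lt_one hA] at h
  have h4 : 1 - z ^ 2 = ((1 - z ^ 2).re : ℂ) := Complex.ext (by simp) (by simpa using h3)
  have h5 : ‖1 - z ^ 2‖ = -(1 - z ^ 2).re := by
    rw [h4, Complex.norm_real, Real.norm_eq_abs, abs_of_nonpos]
    · simp
    · simpa using h2
  have h6 : ‖z‖ ^ 2 = 1 - (1 - z ^ 2).re := by
    rw [← norm_pow]
    have : z ^ 2 = ((1 - (1 - z ^ 2).re : ℝ) : ℂ) := by
      push_cast
      rw [← h4]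
      ring
    rw [this, Complex.norm_real, Real.norm_eq_abs, abs_of_nonneg (by linarith)]
    simp
  linarith

theorem form_P {C : Caps} {p : ℝ × ℝ} (hp : p ≠ 0) (hS : SS (stereo 1 p) < 1) 
    (h : C.lam =ᶠ[𝓝 (stereo 1 p)] C.lamP) : Form C p yy (C.P.gg 1 1) := by
  have hz := cc_ne_zero hp
  have hS' := hS
  rw [SS_stereo] at hS'
  have hsl := slit_of_SS hS'
  have hw := Complex.slitPlane_ne_zero hsl
  have key : ∀ q : ℝ × ℝ, cc q ≠ 0 → SS (stereo 1 q) < 1 → 0 < ‖yy (cc q)‖ ∧ ‖yy (cc q)‖ < 1 := by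
    intro q hq h1
    rw [SS_stereo] at h1
    have h2 := slit_of_SS h1
    have h3 := Complex.slitPlane_ne_zero h2
    refine ⟨norm_pos_iff.2 (div_ne_zero (one_sub_csq_ne h3 hq) (one_add_csq_ne h2)), ?_⟩
    rw [norm_yy h2]
    exact (var_P (by positivity) h1).2
  obtain ⟨k1, k2⟩ := key p hz hS
  refine ⟨?_, norm_pos_iff.1 k1, ?_, ?_, ?_⟩
  · have h1 := analyticAt_csq hsl
    exact (analyticAt_const.sub h1).div (analyticAt_const.add h1) (one_add_csq_ne hsl)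
  · rw [(hasDerivAt_yy hsl).deriv]
    exact div_ne_zero (mul_ne_zero two_ne_zero hz) (mul_ne_zero (csq_ne_zero _) 
      (pow_ne_zero 2 (one_add_csq_ne hsl)))
  · exact (C.P.gg_spec one_pos one_pos (Real.log_neg k1 k2)).1
  · have h1 := (continuous_stereo 1).continuousAt.eventually h
    have h2 : ∀ᶠ q in 𝓝 p, cc q ≠ 0 := continuous_cc.continuousAt.eventually_ne hz
    have h3 : ∀ᶠ q in 𝓝 p, SS (stereo 1 q) < 1 := 
      (continuous_SS.comp (continuous_stereo 1)).continuousAt.eventually (gt_mem_nhds hS)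
    filter_upwards [h1, h2, h3] with q a b c
    obtain ⟨k1, k2⟩ := key q b c
    have c' := c
    rw [SS_stereo] at c'
    have hsl := slit_of_SS c'
    have hI := II_pos q
    have hr : 0 < ‖1 - cc q ^ 2‖ := norm_pos_iff.2 (Complex.slitPlane_ne_zero hsl)
    have hb := norm_pos_iff.2 b
    rw [norm_yy_log_deriv hsl b, (C.P.gg_spec one_pos one_pos (Real.log_neg k1 k2)).2.1, 
      Nat.cast_one, one_mul, Real.exp_log k1, div_one]
    unfold LL
    rw [a, Caps.lamP, den_stereo, nu_stereo (Or.inl rfl)]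
    have hS0 : 0 < SS (stereo 1 q) := by rw [SS_stereo]; positivity
    have e1 := C.om_mul hS0.le c
    rw [SS_stereo, ← norm_yy hsl, ← SS_stereo] at e1
    have e2 : C.om (SS (stereo 1 q)) = C.P.U ‖yy (cc q)‖ / SS (stereo 1 q) := by
      field_simp
      linarith
    rw [e2, SS_stereo]
    set r := ‖1 - cc q ^ 2‖
    field_simp

end Pool.Agent.Lib.MP_d2b992_gt.Erg
end
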