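import Pool.Agent.Lib.MP_d2b992_gt.Erg.GeoDefs

/-!
# Geodesic half of the ergodic sphere: specifications of the modules

A module NAME is a file `Erg/<Name>.lean` with `theorem specNAME : SpecNAME`, own lemmas in the
namespace `Pool.Agent.Lib.MP_d2b992_gt.Erg.<Name>M`. A module which needs other Specs takes them as
hypotheses `(h : SpecXXX)`. Available: everything in `Erg/*.lean` (`arcP`, `arcQ` in `ArcS`, `pull_P'`,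
`pull_Q`, `trans`, `chP_fold`, `chP_period`, `chQ_period`, `phc_mem`, `K.hasDerivAt_th`, `K.arc`,
`psi_eq_one`, `null_image` ...).
-/

set_option autoImplicit false

namespace Pool.Agent.Lib.MP_d2b992_gt.Erg

open Set Real MeasureTheory Dyn
open scoped ContDiff InnerProductSpace

/-- PARC. Invariance along the explicit geodesics of the first chart, as long as they stay outside of
the `Q`-caps: `arcP` (`Erg/ArcS.lean`), with `γ t = chP C (C.P.arc c Θ t)` on `tt '' (l, r)`. -/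
def SpecPARC : Prop := ∀ (C : Caps) (A : Set (R3 × R3)), InvariantArc C.metric A → 
  ∀ c : ℝ, c ≠ 0 → |c| < 1 → ∀ Θ l r : ℝ, 
    (∀ τ ∈ Ioo l r, (phc c τ, C.P.th c Θ τ) ∈ DomP) → 
    ∀ τ₁ ∈ Ioo l r, ∀ τ₂ ∈ Ioo l r, vecP C Θ c τ₁ ∈ A → vecP C Θ c τ₂ ∈ A

/-- QARC. The same in the second charts (`arcQ`). -/
def SpecQARC : Prop := ∀ (C : Caps) (A : Set (R3 × R3)), InvariantArc C.metric A → 
  ∀ e : ℝ, (e = 1 ∨ e = -1) → ∀ x : ℝ, x ≠ 0 → |x| < 1 → ∀ Ψ l r : ℝ, 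
    (∀ τ ∈ Ioo l r, (phc x τ, C.Q.th x Ψ τ) ∈ DomQ) → 
    ∀ τ₁ ∈ Ioo l r, ∀ τ₂ ∈ Ioo l r, vecQ C e Ψ x τ₁ ∈ A → vecQ C e Ψ x τ₂ ∈ A

/-- KTH. Where `psi = 1` (that is `K.a ≤ sin φ`) the explicit geodesics are great circles:
(1) formula of `th` up to `|τ| < π/2`, (2) after `π`, (3) symmetry, (4) shift of `Θ`, 
(5) developed point (for all `τ` if `K.a ≤ |c|`), (6) `th` is continuous, (7) formulas of `phc`. -/
def SpecKTH : Prop := ∀ (K : Cap) (c : ℝ), c ≠ 0 → |c| < 1 → 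
  (∀ Θ τ, |τ| < π / 2 → (1 - c ^ 2) * sin τ ^ 2 ≤ 1 - K.a ^ 2 → 
    K.th c Θ τ = Θ + arctan (c * tan τ)) ∧ 
  (∀ Θ τ, K.th c Θ (π + τ) = Θ + KW K c + K.th c 0 τ) ∧ 
  (∀ Θ τ, K.th (-c) (-Θ) τ = -K.th c Θ τ ∧ K.th c (-Θ) (-τ) = -K.th c Θ τ ∧ 
    KW K (-c) = -KW K c) ∧ 
  (∀ Θ τ, K.th c Θ τ = Θ + K.th c 0 τ) ∧ 
  (∀ Θ τ, (K.a ≤ |c| ∨ |τ| ≤ π / 2 ∧ (1 - c ^ 2) * sin τ ^ 2 ≤ 1 - K.a ^ 2) → 
    sin (phc c τ) * cos (K.th c Θ τ) = xK Θ c τ ∧ 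
    sin (phc c τ) * sin (K.th c Θ τ) = cos τ * sin Θ + c * sin τ * cos Θ) ∧ 
  (∀ Θ, Continuous (K.th c Θ)) ∧ 
  (∀ τ, cos (phc c τ) = √(1 - c ^ 2) * sin τ ∧ phc c τ ∈ Ioo 0 π ∧ 
    sin (phc c τ) ^ 2 = 1 - (1 - c ^ 2) * sin τ ^ 2)

/-- FOLD. The seam `φ = π/2`: the fold `chP (π-φ, -Θ) = chP (φ, Θ)` (`chP_fold`, differentiate it),
and the periods. -/
def SpecFOLD : Prop := 
  (∀ (C : Caps) (c : ℝ), c ≠ 0 → |c| < 1 → ∀ Θ τ : ℝ, 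
    vecP C Θ c (π + τ) = vecP C (-Θ - KW C.P c) (-c) τ) ∧ 
  (∀ (C : Caps) (c : ℝ), c ≠ 0 → |c| < 1 → ∀ (Θ τ : ℝ) (k : ℤ), 
    vecP C (Θ + k * (4 * π)) c τ = vecP C Θ c τ) ∧ 
  (∀ (C : Caps) (x : ℝ), x ≠ 0 → |x| < 1 → ∀ (e Ψ τ : ℝ) (k : ℤ), 
    vecQ C e (Ψ + k * π) x τ = vecQ C e Ψ x τ)

/-- TRI (plane trigonometry of the states, no geometry). 
(1) `xK` as a function of the distance to the closest point: for near states `cos Θ > 0`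
`xK = √(1-x²) cos (τ - tauc)`, for far states `-√(1-x²) cos (τ - tauc)`; `|tauc| < π/2`.
(2) far states with `|c| < 12/13` do not meet `q` for `|τ| ≤ tau3` (`|c|/(1-c²) < s/b²`).
(3) near states, `|c| < 12/13`, `inQ`, not tangent: `tauc + sigb < tau3`, `-tau3 < tauc - sigb`
(because `y·q ≥ 12/13` implies `|y·p| < 5/13` but for the points of tangency, where `12 x = ± 5 c`).
(4) `tau3`: `√(1-c²) sin (tau3 c) = 5/13`, `0 < tau3 c < π/2` for `|c| < 12/13`, and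
`(1-c²) sin² τ < (5/13)²` iff `|τ| < tau3 c` (for `|τ| ≤ π/2`). (5) `0 < sigb < π/2`,
`√(1-x²) cos sigb = 12/13` for `|x| < 5/13`. -/
def SpecTRI : Prop := ∀ z : St, |z.2| < 1 → 
  (0 < cos z.1 → ∀ τ, xK z.1 z.2 τ = √(1 - xx z ^ 2) * cos (τ - tauc z)) ∧ 
  (cos z.1 < 0 → ∀ τ, xK z.1 z.2 τ = -(√(1 - xx z ^ 2) * cos (τ - tauc z))) ∧ 
  |tauc z| < π / 2 ∧ 
  (cos z.1 < 0 → |z.2| < 12 / 13 → ∀ τ, |τ| ≤ tau3 z.2 → xK z.1 z.2 τ < 12 / 13) ∧ 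
  (inQ z → z ∉ Bad → |z.2| < 12 / 13 → 
    tauc z + sigb z < tau3 z.2 ∧ -tau3 z.2 < tauc z - sigb z) ∧ 
  (|z.2| < 12 / 13 → 0 < tau3 z.2 ∧ tau3 z.2 < π / 2 ∧ √(1 - z.2 ^ 2) * sin (tau3 z.2) = 5 / 13 ∧ 
    ∀ τ, |τ| ≤ π / 2 → ((1 - z.2 ^ 2) * sin τ ^ 2 < (5 / 13) ^ 2 ↔ |τ| < tau3 z.2)) ∧ 
  (|xx z| < 5 / 13 → 0 < sigb z ∧ sigb z < π / 2 ∧ √(1 - xx z ^ 2) * cos (sigb z) = 12 / 13) ∧ 
  (12 / 13 ≤ |z.2| → |xx z| ≤ 5 / 13)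

/-- LINKP. The base vectors of `z` (after the `Q`-event) and of `P z` are on one explicit geodesic of
the first chart: parameters from `tauP z` to `π + tauM (P z)`, by FOLD. In between it stays in `DomP`:
`psi = 1` part by KTH (5) and TRI (for `|c| ≥ 12/13` for all `τ`; `tauc (P z) = tauc z`), in the first
cap `sin φ < 12/13`. `pMap F z = (red (π - Θ - F c), -c)`, and `-Θ - KW = π - Θ - F c` mod `4π`. -/
def SpecLINKP : Prop := ∀ (C : Caps) (F G : ℝ → ℝ), Defl C F G → ∀ A, InvariantArc C.metric A → 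
  ∀ z : St, |z.2| < 1 → z ∉ Bad → pMap F z ∉ Bad → (vPl C z ∈ A ↔ vM C (pMap F z) ∈ A)

/-- TRV (transition of unit vectors). Before the `Q`-cap (first part) and after it (second part; here
`z` is the state after the `Q`-event). Positions by `trans` (developed points by KTH (5) in both charts:
`τ_q = τ - tauc + π/2`), on an open interval of `τ` (or by continuity at its end), velocities by
differentiation with respect to `τ` (`d/dt = d/dτ` because `psi = 1`). `esgn`: `cos (Θ(τ)/2)` does not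
vanish along the path because `cos Θ(τ) > 0`. -/
def SpecTRV : Prop := ∀ (C : Caps) (z : St), |z.2| < 1 → inQ z → z ∉ Bad → 
  (∀ τ, tauc z - π / 2 < τ → τ < tauc z - sigb z → (|z.2| < 12 / 13 → -tau3 z.2 < τ) → 
    vecP C z.1 z.2 τ = vecQ C (esgn z) (Psi z) (xx z) (τ - tauc z + π / 2)) ∧ 
  (∀ Ψ₀, (∃ k : ℤ, Ψ₀ + KW C.Q (xx z) = Psi z + k * π) → 
    ∀ τ, tauc z + sigb z < τ → τ < tauc z + π / 2 → (|z.2| < 12 / 13 → τ < tau3 z.2) → 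
      vecP C z.1 z.2 τ = vecQ C (esgn z) Ψ₀ (xx z) (τ - tauc z + π / 2))

/-- QKICK (plane trigonometry). The state after the `Q`-event. -/
def SpecQKICK : Prop := ∀ (G : ℝ → ℝ) (z : St), |z.2| < 1 → inQ z → z ∉ Bad → 
  qMap (5 / 13) G z ∉ Bad → xx (qMap (5 / 13) G z) = xx z ∧ esgn (qMap (5 / 13) G z) = esgn z ∧ 
    inQ (qMap (5 / 13) G z) ∧ |(qMap (5 / 13) G z).2| < 1 ∧ 
    ∃ k : ℤ, Psi z + G (xx z) = Psi (qMap (5 / 13) G z) + k * π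

/-- LINKQ. The base vectors of `z` before the `Q`-event and of `Q z` after it are on one explicit
geodesic of the second chart (QARC, TRV, QKICK; `DomQ`: outside of the cap `|sin φ_q cos Θ_q|` is
`|√(1-c²) sin τ| < 5/13` for `|τ| < tau3 c`, in the cap `sin φ_q < 5/13`). -/
def SpecLINKQ : Prop := ∀ (C : Caps) (F G : ℝ → ℝ), Defl C F G → ∀ A, InvariantArc C.metric A → 
  ∀ z : St, |z.2| < 1 → inQ z → z ∉ Bad → qMap (5 / 13) G z ∉ Bad → 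
    (vM C z ∈ A ↔ vPl C (qMap (5 / 13) G z) ∈ A)

/-- FAMK: unit vectors over the round region. -/
def SpecFAMK : Prop := ∀ (C : Caps) (A : Set (R3 × R3)), InvariantArc C.metric A → 
  ∀ z : St, |z.2| < 1 → 
  z ∉ Bad → ∀ τ, |τ| ≤ π / 2 → (|z.2| < 12 / 13 → |τ| < tau3 z.2) → xK z.1 z.2 τ < 12 / 13 → 
  vecP C z.1 z.2 τ ∈ A → (vM C z ∈ A ∨ vPl C z ∈ A)

/-- FAMP: unit vectors over the first cap. -/
def SpecFAMP : Prop := ∀ (C : Caps) (A : Set (R3 × R3)), InvariantArc C.metric A → ∀ z : St, 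
  z ∉ Bad → |z.2| < 12 / 13 → ∀ τ ∈ Ioo (tau3 z.2) (π - tau3 z.2), 
  vecP C z.1 z.2 τ ∈ A → vPl C z ∈ A

/-- FAMQ: unit vectors over the `Q`-caps. -/
def SpecFAMQ : Prop := ∀ (C : Caps) (A : Set (R3 × R3)), InvariantArc C.metric A → 
  ∀ z : St, |z.2| < 1 → 
  inQ z → z ∉ Bad → ∀ τ, |τ - π / 2| < sigb z → 
  vecQ C (esgn z) (Psi z) (xx z) τ ∈ A → vM C z ∈ A

/-- SURJ: every unit vector over the round region, over the first cap minus its centre, over the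
`Q`-caps minus their centres comes from a chart. -/
def SpecSURJ : Prop := ∀ (C : Caps) (v : R3 × R3), v ∈ UM C.metric → v.1 2 ≠ -1 → 
  (12 / 13 < SS v.1 → 1 / 25 * (1 + v.1 2) < 2 * nu v.1 → ∃ φ ∈ Ioo 0 π, ∃ Θ : ℝ, ∃ u : ℝ × ℝ, 
    |cos φ| < 5 / 13 ∧ sin φ * cos Θ < 12 / 13 ∧ chP C (φ, Θ) = v.1 ∧ 
    fderiv ℝ (chP C) (φ, Θ) u = v.2 ∧ BB C.P (φ, Θ) u u = 1) ∧ 
  (SS v.1 < 12 / 13 → v.1 2 ≠ 1 → ∃ φ ∈ Ioo 0 (π / 2), ∃ Θ : ℝ, ∃ u : ℝ × ℝ, 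
    5 / 13 < cos φ ∧ chP C (φ, Θ) = v.1 ∧ fderiv ℝ (chP C) (φ, Θ) u = v.2 ∧ 
    BB C.P (φ, Θ) u u = 1) ∧ 
  (2 * nu v.1 < 1 / 25 * (1 + v.1 2) → nu v.1 ≠ 0 → ∃ e : ℝ, (e = 1 ∨ e = -1) ∧ 
    ∃ φ ∈ Ioo 0 (π / 2), ∃ Θ : ℝ, ∃ u : ℝ × ℝ, sin φ < 5 / 13 ∧ chQ C e (φ, Θ) = v.1 ∧ 
    fderiv ℝ (chQ C e) (φ, Θ) u = v.2 ∧ BB C.Q (φ, Θ) u u = 1)

/-- FAMX (plane calculus): a unit vector `u` at `(φ, Θ)` with `u.2 ≠ 0` is the velocity of exactly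
the explicit geodesic with `c = sin² φ u.2`; `τ ∈ (-π/2, π/2)` if `u.1 < 0`, `τ ∈ (0, π)` if `φ < π/2`.
-/
def SpecFAMX : Prop := ∀ (K : Cap) (φ Θ : ℝ) (u : ℝ × ℝ), φ ∈ Ioo 0 π → BB K (φ, Θ) u u = 1 → 
  u.2 ≠ 0 → ∃ c Θ₀ : ℝ, c ≠ 0 ∧ |c| ≤ sin φ ∧ 
    (u.1 < 0 → |c| < sin φ ∧ ∃ τ, |τ| < π / 2 ∧ phc c τ = φ ∧ K.th c Θ₀ τ = Θ ∧ velK K c τ = u) ∧ 
    (φ < π / 2 → ∃ Θ₁ : ℝ, ∃ τ ∈ Ioo 0 π, phc c τ = φ ∧ K.th c Θ₁ τ = Θ ∧ velK K c τ = u)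

/-- COV: every nondegenerate unit vector of `A` comes from a state with a base vector in `A`. 
From SURJ, FAMX, FAMK, FAMP, FAMQ, FOLD (reduction of `Θ` to `[-π/2, 7π/2)`). In the round region 
replace `(φ, Θ, u)` by `(π - φ, -Θ, -u)` if `u.1 > 0`. In the `Q`-caps: `cos Ψ ≠ 0` by `Deg`, replace
`Ψ` by `Ψ + π` if `cos Ψ > 0`; `c = √(1-x²) sin Ψ`, `Θ = arcsin (x/√(1-c²))` (plus `2π` if `e = -1`),
then `Ψ = Psi z` mod `2π`. -/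
def SpecCOV : Prop := ∀ (C : Caps) (A : Set (R3 × R3)), InvariantArc C.metric A → 
  ∀ v ∈ UM C.metric, 
  v ∈ A → v ∉ Deg C → ∃ z ∈ Dom, ∃ τ : ℝ, (z ∈ Bad ∨ vM C z ∈ A ∨ vPl C z ∈ A) ∧ 
    (z.2 ≠ 0 ∧ v = vecP C z.1 z.2 τ ∨ 
      0 < cos z.1 ∧ xx z ≠ 0 ∧ τ ∈ Ioo 0 π ∧ v = vecQ C (esgn z) (Psi z) (xx z) τ)

/-- The conclusion of COV. -/
def Covd (C : Caps) (A : Set (R3 × R3)) (v : R3 × R3) : Prop := ∃ z ∈ Dom, ∃ τ : ℝ, 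
  (z ∈ Bad ∨ vM C z ∈ A ∨ vPl C z ∈ A) ∧ 
    (z.2 ≠ 0 ∧ v = vecP C z.1 z.2 τ ∨ 
      0 < cos z.1 ∧ xx z ≠ 0 ∧ τ ∈ Ioo 0 π ∧ v = vecQ C (esgn z) (Psi z) (xx z) τ)

/-- COVK: round region (from SURJ FAMX FAMK FOLD KTH TRI). -/
def SpecCOVK : Prop := ∀ (C : Caps) (A : Set (R3 × R3)), InvariantArc C.metric A → 
  ∀ v ∈ UM C.metric, v ∈ A → v ∉ Deg C → v.1 2 ≠ -1 → 12 / 13 < SS v.1 → 
    1 / 25 * (1 + v.1 2) < 2 * nu v.1 → Covd C A v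

/-- COVP: first cap (from SURJ FAMX FAMP FOLD KTH TRI). -/
def SpecCOVP : Prop := ∀ (C : Caps) (A : Set (R3 × R3)), InvariantArc C.metric A → 
  ∀ v ∈ UM C.metric, v ∈ A → v ∉ Deg C → v.1 2 ≠ -1 → SS v.1 < 12 / 13 → Covd C A v

/-- COVQ: `Q`-caps (from SURJ FAMX FAMQ FOLD KTH TRI). -/
def SpecCOVQ : Prop := ∀ (C : Caps) (A : Set (R3 × R3)), InvariantArc C.metric A → 
  ∀ v ∈ UM C.metric, v ∈ A → v ∉ Deg C → v.1 2 ≠ -1 → 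
    2 * nu v.1 < 1 / 25 * (1 + v.1 2) → Covd C A v

/-- SMP: smoothness of the families. -/
def SpecSMP : Prop := ∀ C : Caps, 
  (∀ q : (ℝ × ℝ) × ℝ, q.1.2 ≠ 0 → |q.1.2| < 1 → 
    DifferentiableAt ℝ (fun q : (ℝ × ℝ) × ℝ => vecP C q.1.1 q.1.2 q.2) q) ∧ 
  (∀ e : ℝ, (e = 1 ∨ e = -1) → 
    (∀ q : (ℝ × ℝ) × ℝ, q.1.2 ≠ 0 → |q.1.2| < 1 → q.2 ∈ Ioo 0 π → 
      DifferentiableAt ℝ (fun q : (ℝ × ℝ) × ℝ => vecQ C e q.1.1 q.1.2 q.2) q) ∧ 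
    (∀ q : (ℝ × ℝ) × ℝ, |q.1.2| < 1 → 0 < cos q.1.1 → xx q.1 ≠ 0 → q.2 ∈ Ioo 0 π → 
      DifferentiableAt ℝ (fun q : (ℝ × ℝ) × ℝ => vecQ C e (Psi q.1) (xx q.1) q.2) q))

/-- LNUL: null sets of the Liouville measure in terms of `preim` (as in `liouville_null`). -/
def SpecLNUL : Prop := ∀ C : Caps, 
  (∀ A : Set (R3 × R3), MeasurableSet A → volume (preim C A) = 0 → liouville C.metric A = 0) ∧ 
  (∀ q, uvec C.metric q ∈ UM C.metric)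

/-- DEG: the degenerate vectors are null (from `null_image` with two-dimensional families, and
`uvec` itself over the null sets of points; `SMP` for the last family). -/
def SpecDEG : Prop := ∀ C : Caps, volume (preim C (Deg C)) = 0

/-- BAD: the exceptional states are null (each piece: Fubini, or a one-parameter set). -/
def SpecBAD : Prop := volume (Bad ∩ {z : St | |z.2| < 1}) = 0 ∧ MeasurableSet Bad

/-- MEAS: the set of states. -/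
def SpecMEAS : Prop := ∀ (C : Caps) (A : Set (R3 × R3)), MeasurableSet A → 
  MeasurableSet {z : St | |z.2| < 1 ∧ z ∉ Bad ∧ vM C z ∈ A} ∧ 
  MeasurableSet {z : St | |z.2| < 1 ∧ z ∉ Bad ∧ vPl C z ∈ A}

/-- GEOM: reduction of the ergodicity of the geodesic flow to the one of `T = P ∘ Q`. -/
def SpecGEOM : Prop := ∀ (C : Caps) (F G : ℝ → ℝ), Defl C F G → 
  MeasurePreserving (pMap F) muY muY → MeasurePreserving (qMap (5 / 13) G) muY muY → 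
  ∀ A, MeasurableSet A → InvariantArc C.metric A → ∃ E, MeasurableSet E ∧ 
    (tMap (5 / 13) F G ⁻¹' E =ᵐ[muY] E) ∧ (muY E = 0 → liouville C.metric A = 0) ∧ 
    (muY Eᶜ = 0 → liouville C.metric Aᶜ = 0)

end Pool.Agent.Lib.MP_d2b992_gt.Erg
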