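import Pool.Agent.Lib.MP_d2b992_gt.Erg.CurvF

/-!
# The two charts: definitions
-/

namespace Pool.Agent.Lib.MP_d2b992_gt.Erg

open Set Real

/-- A metric of revolution. -/
noncomputable def BB (K : Cap) (p u v : ℝ × ℝ) : ℝ := 
  K.psi p.1 ^ 2 * (u.1 * v.1) + sin p.1 ^ 2 * (u.2 * v.2)

/-- The first chart. -/
noncomputable def chP (C : Caps) (p : ℝ × ℝ) : R3 := Xi (C.P.rho p.1, p.2)

/-- The first chart is isometric outside of the second caps. -/
def DomP : Set (ℝ × ℝ) := {q | q.1 ∈ Ioo 0 π ∧ sin q.1 * cos q.2 < 12 / 13}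

/-- The square root `√ (1 - exp (2 z))`. -/
noncomputable def zq (z : ℂ) : ℂ := Complex.exp (Complex.log (1 - Complex.exp (2 * z)) / 2)

/-- The point with the stereographic coordinate `z`. -/
noncomputable def stc (z : ℂ) : R3 := stereo 1 (Complex.equivRealProdCLM z)

/-- The second charts (`e = 1` and `e = -1`). -/
noncomputable def chQ (C : Caps) (e : ℝ) (p : ℝ × ℝ) : R3 := 
  stc ((e : ℂ) * zq (cc (C.Q.rho p.1, p.2)))

/-- The second charts are isometric on this set. -/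
def DomQ : Set (ℝ × ℝ) := {q | q.1 ∈ Ioo 0 (π / 2) ∧ |sin q.1 * cos q.2| < 5 / 13}

end Pool.Agent.Lib.MP_d2b992_gt.Erg
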