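import Pool.Agent.Lib.MP_d2b992_gt.Erg.Rho
import Pool.Agent.Lib.MP_d2b992_gt.Erg.CurvF
import Pool.Agent.Lib.MP_d2b992_gt.Erg.ChDefs
import Pool.Agent.Lib.MP_d2b992_gt.T.Defl

section
/-!
# The explicit geodesics of a metric of revolution

`cos φ = √(1 - c²) sin τ`, `dΘ/dτ = ψ c / sin² φ`, `dt/dτ = ψ`, where `t` is the arc length and `c`
is Clairaut's constant.
-/
set_option autoImplicit false

namespace Pool.Agent.Lib.MP_d2b992_gt.Erg

open Set Filter Topology MeasureTheory Real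
open scoped ContDiff

/-! ### the colatitude -/

/-- The colatitude as a function of the parameter `τ`. -/
noncomputable def phc (c τ : ℝ) : ℝ := arccos (√(1 - c ^ 2) * sin τ)

/-- The derivative of the colatitude with respect to `τ`. -/
noncomputable def dphc (c τ : ℝ) : ℝ := -(√(1 - c ^ 2) * cos τ) / sin (phc c τ)

section

variable {c : ℝ}

theorem X_sq (hc1 : c ^ 2 < 1) (τ : ℝ) : (√(1 - c ^ 2) * sin τ) ^ 2 = (1 - c ^ 2) * sin τ ^ 2 := by
  rw [mul_pow, sq_sqrt (by linarith)]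

theorem arc_den_pos (hc0 : c ≠ 0) (hc1 : c ^ 2 < 1) (τ : ℝ) : 0 < 1 - (1 - c ^ 2) * sin τ ^ 2 := by
  have h1 : 0 < c ^ 2 := by positivity
  have h2 := sin_sq_le_one τ
  nlinarith [sq_nonneg (sin τ)]

theorem X_lt (hc0 : c ≠ 0) (hc1 : c ^ 2 < 1) (τ : ℝ) : |√(1 - c ^ 2) * sin τ| < 1 := by
  rw [← sq_lt_one_iff_abs_lt_one, X_sq hc1]
  linarith [arc_den_pos hc0 hc1 τ]

theorem phc_mem (hc0 : c ≠ 0) (hc1 : c ^ 2 < 1) (τ : ℝ) : phc c τ ∈ Ioo 0 π := by
  have h := abs_lt.1 (X_lt hc0 hc1 τ)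
  constructor
  · exact arccos_pos.2 h.2
  · have h1 : arccos (√(1 - c ^ 2) * sin τ) < arccos (-1) :=
      arccos_lt_arccos (le_refl _) h.1 h.2.le
    rwa [arccos_neg_one] at h1

theorem cos_phc (hc0 : c ≠ 0) (hc1 : c ^ 2 < 1) (τ : ℝ) : cos (phc c τ) = √(1 - c ^ 2) * sin τ := by
  have h := abs_lt.1 (X_lt hc0 hc1 τ)
  exact cos_arccos h.1.le h.2.le

theorem sin_phc_pos (hc0 : c ≠ 0) (hc1 : c ^ 2 < 1) (τ : ℝ) : 0 < sin (phc c τ) :=
  sin_pos_of_mem_Ioo (phc_mem hc0 hc1 τ)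

theorem sin_phc_sq (hc0 : c ≠ 0) (hc1 : c ^ 2 < 1) (τ : ℝ) :
    sin (phc c τ) ^ 2 = 1 - (1 - c ^ 2) * sin τ ^ 2 := by
  have h1 := sin_sq_add_cos_sq (phc c τ)
  rw [cos_phc hc0 hc1, X_sq hc1] at h1
  linarith

theorem sin_phc_eq (c τ : ℝ) : sin (phc c τ) = √(1 - (√(1 - c ^ 2) * sin τ) ^ 2) := sin_arccos _

theorem contDiff_phc (hc0 : c ≠ 0) (hc1 : c ^ 2 < 1) : ContDiff ℝ ∞ (phc c) := by
  rw [contDiff_iff_contDiffAt]
  intro τ
  have h := abs_lt.1 (X_lt hc0 hc1 τ)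
  have h1 : ContDiffAt ℝ ∞ arccos (√(1 - c ^ 2) * sin τ) := contDiffAt_arccos h.1.ne' h.2.ne
  exact h1.comp τ (contDiff_const.mul contDiff_sin).contDiffAt

theorem hasDerivAt_phc (hc0 : c ≠ 0) (hc1 : c ^ 2 < 1) (τ : ℝ) :
    HasDerivAt (phc c) (dphc c τ) τ := by
  have h := abs_lt.1 (X_lt hc0 hc1 τ)
  have h1 := hasDerivAt_arccos h.1.ne' h.2.ne
  have h2 : HasDerivAt (fun τ => √(1 - c ^ 2) * sin τ) (√(1 - c ^ 2) * cos τ) τ :=
    (hasDerivAt_sin τ).const_mul _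
  have h3 := h1.comp τ h2
  have e : -(1 / √(1 - (√(1 - c ^ 2) * sin τ) ^ 2)) * (√(1 - c ^ 2) * cos τ) = dphc c τ := by
    unfold dphc
    rw [sin_phc_eq]
    ring
  rw [e] at h3
  exact h3

theorem dphc_sq (hc0 : c ≠ 0) (hc1 : c ^ 2 < 1) (τ : ℝ) :
    dphc c τ ^ 2 = 1 - c ^ 2 / sin (phc c τ) ^ 2 := by
  have h1 := (sin_phc_pos hc0 hc1 τ).ne'
  have h2 := sin_phc_sq hc0 hc1 τ
  unfold dphc
  rw [div_pow, neg_sq, mul_pow, sq_sqrt (by linarith)]
  rw [eq_sub_iff_add_eq, ← add_div, div_eq_one_iff_eq (pow_ne_zero 2 h1), h2]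
  linear_combination (1 - c ^ 2) * sin_sq_add_cos_sq τ

theorem hasDerivAt_dphc (hc0 : c ≠ 0) (hc1 : c ^ 2 < 1) (τ : ℝ) :
    HasDerivAt (dphc c) (cos (phc c τ) * c ^ 2 / sin (phc c τ) ^ 3) τ := by
  have h1 : HasDerivAt (fun τ => -(√(1 - c ^ 2) * cos τ)) (√(1 - c ^ 2) * sin τ) τ := by
    refine (((hasDerivAt_cos τ).const_mul (-√(1 - c ^ 2))).congr_deriv (by ring)).congr_of_eventuallyEq
      (Eventually.of_forall fun y => by ring)
  have h2 : HasDerivAt (fun τ => sin (phc c τ)) (cos (phc c τ) * dphc c τ) τ :=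
    (hasDerivAt_sin _).comp τ (hasDerivAt_phc hc0 hc1 τ)
  have hs := sin_phc_pos hc0 hc1 τ
  have h3 := h1.div h2 hs.ne'
  have hd := dphc_sq hc0 hc1 τ
  have e0 : -(√(1 - c ^ 2) * cos τ) = dphc c τ * sin (phc c τ) := by
    unfold dphc
    field_simp
  have e : (√(1 - c ^ 2) * sin τ * sin (phc c τ) - -(√(1 - c ^ 2) * cos τ) *
      (cos (phc c τ) * dphc c τ)) / sin (phc c τ) ^ 2 = cos (phc c τ) * c ^ 2 / sin (phc c τ) ^ 3 := by
    rw [e0, ← cos_phc hc0 hc1 τ]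
    have e1 : cos (phc c τ) * sin (phc c τ) - dphc c τ * sin (phc c τ) * (cos (phc c τ) * dphc c τ)
        = cos (phc c τ) * sin (phc c τ) * (1 - dphc c τ ^ 2) := by ring
    rw [e1, hd]
    field_simp
    ring
  rw [e] at h3
  exact h3

theorem contDiff_dphc (hc0 : c ≠ 0) (hc1 : c ^ 2 < 1) : ContDiff ℝ ∞ (dphc c) := by
  apply ContDiff.div
  · exact (contDiff_const.mul contDiff_cos).neg
  · exact contDiff_sin.comp (contDiff_phc hc0 hc1)
  · intro τ
    exact (sin_phc_pos hc0 hc1 τ).ne'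

end

/-! ### arc length and longitude -/

namespace Cap

variable (K : Cap)

/-- The arc length as a function of `τ`. -/
noncomputable def tt (c τ : ℝ) : ℝ := ∫ s in (0 : ℝ)..τ, K.psi (phc c s)

/-- The longitude as a function of `τ`. -/
noncomputable def th (c Θ₀ τ : ℝ) : ℝ :=
  Θ₀ + ∫ s in (0 : ℝ)..τ, K.psi (phc c s) * (c / (1 - (1 - c ^ 2) * sin s ^ 2))

/-- The parameter `τ` as a function of the arc length. -/
noncomputable def tau (c t : ℝ) : ℝ := Function.invFun (K.tt c) t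

/-- The explicit geodesic with Clairaut's constant `c`. -/
noncomputable def arc (c Θ₀ t : ℝ) : ℝ × ℝ := (phc c (K.tau c t), K.th c Θ₀ (K.tau c t))

variable {c : ℝ}

theorem cont_psi_phc (hc0 : c ≠ 0) (hc1 : c ^ 2 < 1) : Continuous fun s => K.psi (phc c s) :=
  K.contDiff_psi.continuous.comp (contDiff_phc hc0 hc1).continuous

theorem hasDerivAt_tt (hc0 : c ≠ 0) (hc1 : c ^ 2 < 1) (τ : ℝ) :
    HasDerivAt (K.tt c) (K.psi (phc c τ)) τ :=
  intervalIntegral.integral_hasDerivAt_right ((K.cont_psi_phc hc0 hc1).intervalIntegrable _ _)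
    ((K.cont_psi_phc hc0 hc1).stronglyMeasurableAtFilter _ _) (K.cont_psi_phc hc0 hc1).continuousAt

theorem cont_th (hc0 : c ≠ 0) (hc1 : c ^ 2 < 1) :
    Continuous fun s => K.psi (phc c s) * (c / (1 - (1 - c ^ 2) * sin s ^ 2)) := by
  apply (K.cont_psi_phc hc0 hc1).mul
  apply continuous_const.div (by fun_prop)
  intro s
  exact (arc_den_pos hc0 hc1 s).ne'

theorem hasDerivAt_th (hc0 : c ≠ 0) (hc1 : c ^ 2 < 1) (Θ₀ τ : ℝ) :
    HasDerivAt (K.th c Θ₀) (K.psi (phc c τ) * (c / sin (phc c τ) ^ 2)) τ := by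
  have h1 : HasDerivAt (fun τ => ∫ s in (0 : ℝ)..τ, K.psi (phc c s) *
      (c / (1 - (1 - c ^ 2) * sin s ^ 2)))
      (K.psi (phc c τ) * (c / (1 - (1 - c ^ 2) * sin τ ^ 2))) τ :=
    intervalIntegral.integral_hasDerivAt_right ((K.cont_th hc0 hc1).intervalIntegrable _ _)
      ((K.cont_th hc0 hc1).stronglyMeasurableAtFilter _ _) (K.cont_th hc0 hc1).continuousAt
  rw [← sin_phc_sq hc0 hc1] at h1
  exact h1.const_add Θ₀

theorem tt_strictMono (hc0 : c ≠ 0) (hc1 : c ^ 2 < 1) : StrictMono (K.tt c) := by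
  apply strictMono_of_deriv_pos
  intro τ
  rw [(K.hasDerivAt_tt hc0 hc1 τ).deriv]
  exact K.psi_pos _

theorem tt_zero (c : ℝ) : K.tt c 0 = 0 := by simp [tt]

theorem exists_psi_lower : ∃ δ : ℝ, 0 < δ ∧ ∀ φ, δ ≤ K.psi φ := by
  obtain ⟨x, _, hx⟩ := (isCompact_Icc (a := (0 : ℝ)) (b := 2 * π)).exists_isMinOn
    ⟨0, by constructor <;> [exact le_refl _; positivity]⟩ K.contDiff_psi.continuous.continuousOn
  refine ⟨K.psi x, K.psi_pos x, fun φ => ?_⟩
  have hper : Function.Periodic K.psi (2 * π) := by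
    intro y
    unfold psi
    rw [cos_add_two_pi, sin_add_two_pi]
  obtain ⟨y, hy, hy2⟩ := hper.exists_mem_Ico₀ (by positivity : (0 : ℝ) < 2 * π) φ
  rw [hy2]
  exact hx ⟨hy.1, hy.2.le⟩

theorem tt_surj (hc0 : c ≠ 0) (hc1 : c ^ 2 < 1) : Function.Surjective (K.tt c) := by
  obtain ⟨δ, hδ, h⟩ := K.exists_psi_lower
  have hcont : Continuous (K.tt c) :=
    continuous_iff_continuousAt.2 fun τ => (K.hasDerivAt_tt hc0 hc1 τ).continuousAt
  have hd : ∀ τ, HasDerivAt (fun τ => K.tt c τ - δ * τ) (K.psi (phc c τ) - δ) τ := by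
    intro τ
    have h1 : HasDerivAt (fun τ : ℝ => δ * τ) δ τ := by
      simpa using (hasDerivAt_id τ).const_mul δ
    exact (K.hasDerivAt_tt hc0 hc1 τ).sub h1
  have hmono : Monotone fun τ => K.tt c τ - δ * τ := by
    apply monotone_of_deriv_nonneg
    · intro τ
      exact (hd τ).differentiableAt
    · intro τ
      rw [(hd τ).deriv]
      have := h (phc c τ)
      linarith
  apply hcont.surjective
  · refine tendsto_atTop_mono' atTop ?_ (tendsto_id.const_mul_atTop hδ)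
    filter_upwards [eventually_ge_atTop 0] with τ hτ
    have := hmono hτ
    simp only [tt_zero, mul_zero, sub_zero] at this
    simp only [id]
    linarith
  · refine tendsto_atBot_mono' atBot ?_ (tendsto_id.const_mul_atBot hδ)
    filter_upwards [eventually_le_atBot 0] with τ hτ
    have := hmono hτ
    simp only [tt_zero, mul_zero, sub_zero] at this
    simp only [id]
    linarith

theorem tt_tau (hc0 : c ≠ 0) (hc1 : c ^ 2 < 1) (t : ℝ) : K.tt c (K.tau c t) = t :=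
  Function.invFun_eq (K.tt_surj hc0 hc1 t)

theorem tau_tt (hc0 : c ≠ 0) (hc1 : c ^ 2 < 1) (τ : ℝ) : K.tau c (K.tt c τ) = τ :=
  (K.tt_strictMono hc0 hc1).injective (K.tt_tau hc0 hc1 _)

theorem tau_zero (hc0 : c ≠ 0) (hc1 : c ^ 2 < 1) : K.tau c 0 = 0 := by
  have := K.tau_tt hc0 hc1 0
  rwa [tt_zero] at this

theorem tau_strictMono (hc0 : c ≠ 0) (hc1 : c ^ 2 < 1) : StrictMono (K.tau c) := by
  intro x y hxy
  rw [← (K.tt_strictMono hc0 hc1).lt_iff_lt, K.tt_tau hc0 hc1, K.tt_tau hc0 hc1]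
  exact hxy

theorem tau_surj (hc0 : c ≠ 0) (hc1 : c ^ 2 < 1) : Function.Surjective (K.tau c) := fun τ =>
  ⟨K.tt c τ, K.tau_tt hc0 hc1 τ⟩

theorem tau_cont (hc0 : c ≠ 0) (hc1 : c ^ 2 < 1) : Continuous (K.tau c) :=
  (K.tau_strictMono hc0 hc1).monotone.continuous_of_surjective (K.tau_surj hc0 hc1)

theorem hasDerivAt_tau (hc0 : c ≠ 0) (hc1 : c ^ 2 < 1) (t : ℝ) :
    HasDerivAt (K.tau c) (K.psi (phc c (K.tau c t)))⁻¹ t :=
  HasDerivAt.of_local_left_inverse (K.tau_cont hc0 hc1).continuousAt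
    (K.hasDerivAt_tt hc0 hc1 _) (K.psi_pos _).ne' (Eventually.of_forall fun y => K.tt_tau hc0 hc1 y)

theorem contDiff_tau (hc0 : c ≠ 0) (hc1 : c ^ 2 < 1) : ContDiff ℝ ∞ (K.tau c) := by
  have h : ∀ n : ℕ, ContDiff ℝ n (K.tau c) := by
    intro n
    induction n with
    | zero =>
      rw [Nat.cast_zero, contDiff_zero]
      exact K.tau_cont hc0 hc1
    | succ n ih =>
      rw [Nat.cast_succ, contDiff_succ_iff_deriv]
      refine ⟨fun t => (K.hasDerivAt_tau hc0 hc1 t).differentiableAt, fun h => ?_, ?_⟩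
      · exact absurd h (by simp)
      · have : deriv (K.tau c) = fun t => (K.psi (phc c (K.tau c t)))⁻¹ := by
          funext t
          exact (K.hasDerivAt_tau hc0 hc1 t).deriv
        rw [this]
        apply ContDiff.inv
        · exact ((K.contDiff_psi.comp (contDiff_phc hc0 hc1)).of_le (by
            exact_mod_cast le_top)).comp ih
        · intro t
          exact (K.psi_pos _).ne'
  exact contDiff_infty.2 h

theorem contDiff_th (hc0 : c ≠ 0) (hc1 : c ^ 2 < 1) (Θ₀ : ℝ) : ContDiff ℝ ∞ (K.th c Θ₀) := by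
  rw [contDiff_infty_iff_deriv]
  refine ⟨fun τ => (K.hasDerivAt_th hc0 hc1 Θ₀ τ).differentiableAt, ?_⟩
  have : deriv (K.th c Θ₀) = fun τ => K.psi (phc c τ) * (c / sin (phc c τ) ^ 2) := by
    funext τ
    exact (K.hasDerivAt_th hc0 hc1 Θ₀ τ).deriv
  rw [this]
  apply (K.contDiff_psi.comp (contDiff_phc hc0 hc1)).mul
  apply contDiff_const.div ((contDiff_sin.comp (contDiff_phc hc0 hc1)).pow 2)
  intro τ
  exact pow_ne_zero 2 (sin_phc_pos hc0 hc1 τ).ne'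

/-! ### the geodesic -/

theorem contDiff_arc (hc0 : c ≠ 0) (hc1 : c ^ 2 < 1) (Θ₀ : ℝ) : ContDiff ℝ ∞ (K.arc c Θ₀) :=
  ((contDiff_phc hc0 hc1).comp (K.contDiff_tau hc0 hc1)).prodMk
    ((K.contDiff_th hc0 hc1 Θ₀).comp (K.contDiff_tau hc0 hc1))

theorem arc_fst_mem (hc0 : c ≠ 0) (hc1 : c ^ 2 < 1) (Θ₀ t : ℝ) : (K.arc c Θ₀ t).1 ∈ Ioo 0 π :=
  phc_mem hc0 hc1 _

theorem hasDerivAt_arc (hc0 : c ≠ 0) (hc1 : c ^ 2 < 1) (Θ₀ t : ℝ) :
    HasDerivAt (K.arc c Θ₀) (dphc c (K.tau c t) / K.psi (K.arc c Θ₀ t).1,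
      c / sin (K.arc c Θ₀ t).1 ^ 2) t := by
  have hp := (K.psi_pos (phc c (K.tau c t))).ne'
  have h1 := (hasDerivAt_phc hc0 hc1 (K.tau c t)).comp t (K.hasDerivAt_tau hc0 hc1 t)
  have h2 := (K.hasDerivAt_th hc0 hc1 Θ₀ (K.tau c t)).comp t (K.hasDerivAt_tau hc0 hc1 t)
  have h3 := h1.prodMk h2
  have e : (dphc c (K.tau c t) * (K.psi (phc c (K.tau c t)))⁻¹,
      K.psi (phc c (K.tau c t)) * (c / sin (phc c (K.tau c t)) ^ 2) *
        (K.psi (phc c (K.tau c t)))⁻¹) = (dphc c (K.tau c t) / K.psi (K.arc c Θ₀ t).1,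
      c / sin (K.arc c Θ₀ t).1 ^ 2) := by
    simp only [arc]
    rw [Prod.mk.injEq]
    constructor
    · rfl
    · field_simp
  rw [e] at h3
  exact h3

/-- Clairaut's relation. -/
theorem clairaut (hc0 : c ≠ 0) (hc1 : c ^ 2 < 1) (Θ₀ t : ℝ) :
    sin (K.arc c Θ₀ t).1 ^ 2 * (deriv (K.arc c Θ₀) t).2 = c := by
  rw [(K.hasDerivAt_arc hc0 hc1 Θ₀ t).deriv]
  have := (sin_phc_pos hc0 hc1 (K.tau c t)).ne'
  simp only [arc]
  field_simp

/-- Unit speed. -/
theorem arc_speed (hc0 : c ≠ 0) (hc1 : c ^ 2 < 1) (Θ₀ t : ℝ) :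
    BB K (K.arc c Θ₀ t) (deriv (K.arc c Θ₀) t) (deriv (K.arc c Θ₀) t) = 1 := by
  rw [(K.hasDerivAt_arc hc0 hc1 Θ₀ t).deriv]
  have h1 := (sin_phc_pos hc0 hc1 (K.tau c t)).ne'
  have h2 := (K.psi_pos (phc c (K.tau c t))).ne'
  have h3 := dphc_sq hc0 hc1 (K.tau c t)
  simp only [arc, BB]
  have e : K.psi (phc c (K.tau c t)) ^ 2 * (dphc c (K.tau c t) / K.psi (phc c (K.tau c t)) *
      (dphc c (K.tau c t) / K.psi (phc c (K.tau c t)))) = dphc c (K.tau c t) ^ 2 := by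
    field_simp
  rw [e, h3]
  field_simp
  ring

/-- The Euler-Lagrange equation. -/
theorem arc_euler (hc0 : c ≠ 0) (hc1 : c ^ 2 < 1) (Θ₀ t : ℝ) (e : ℝ × ℝ) :
    deriv (fun s => BB K (K.arc c Θ₀ s) (deriv (K.arc c Θ₀) s) e) t =
      1 / 2 * fderiv ℝ (fun y => BB K y (deriv (K.arc c Θ₀) t) (deriv (K.arc c Θ₀) t))
        (K.arc c Θ₀ t) e := by
  set τ := K.tau c t with hτ
  set φ := phc c τ with hφ
  have hs := (sin_phc_pos hc0 hc1 τ).ne'
  have hp := (K.psi_pos φ).ne'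
  have hpd : HasDerivAt K.psi (deriv K.psi φ) φ :=
    (K.contDiff_psi.differentiable (by simp)).differentiableAt.hasDerivAt
  -- left hand side
  have h1 : (fun s => BB K (K.arc c Θ₀ s) (deriv (K.arc c Θ₀) s) e)
      = fun s => K.psi (phc c (K.tau c s)) * dphc c (K.tau c s) * e.1 + c * e.2 := by
    funext s
    rw [(K.hasDerivAt_arc hc0 hc1 Θ₀ s).deriv]
    have h1 := (sin_phc_pos hc0 hc1 (K.tau c s)).ne'
    have h2 := (K.psi_pos (phc c (K.tau c s))).ne'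
    simp only [arc, BB]
    field_simp
  have h2 : HasDerivAt (fun s => K.psi (phc c (K.tau c s)) * dphc c (K.tau c s) * e.1 + c * e.2)
      ((deriv K.psi φ * (dphc c τ * (K.psi φ)⁻¹) * dphc c τ
        + K.psi φ * (cos φ * c ^ 2 / sin φ ^ 3 * (K.psi φ)⁻¹)) * e.1) t := by
    have h3 : HasDerivAt (fun s => phc c (K.tau c s)) (dphc c τ * (K.psi φ)⁻¹) t :=
      HasDerivAt.comp (h₂ := phc c) (h := K.tau c) t (hasDerivAt_phc hc0 hc1 τ)
        (K.hasDerivAt_tau hc0 hc1 t)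
    have h4 : HasDerivAt (fun s => K.psi (phc c (K.tau c s)))
        (deriv K.psi φ * (dphc c τ * (K.psi φ)⁻¹)) t :=
      HasDerivAt.comp (h₂ := K.psi) (h := fun s => phc c (K.tau c s)) t hpd h3
    have h5 : HasDerivAt (fun s => dphc c (K.tau c s))
        (cos φ * c ^ 2 / sin φ ^ 3 * (K.psi φ)⁻¹) t :=
      HasDerivAt.comp (h₂ := dphc c) (h := K.tau c) t (hasDerivAt_dphc hc0 hc1 τ)
        (K.hasDerivAt_tau hc0 hc1 t)
    exact ((h4.mul h5).mul_const e.1).add_const (c * e.2)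
  rw [h1, h2.deriv]
  -- right hand side
  set v := deriv (K.arc c Θ₀) t with hv
  have hv1 : v = (dphc c τ / K.psi φ, c / sin φ ^ 2) := (K.hasDerivAt_arc hc0 hc1 Θ₀ t).deriv
  have h3 : HasFDerivAt (fun y : ℝ × ℝ => BB K y v v)
      (((2 * K.psi φ * deriv K.psi φ * (v.1 * v.1)) + (2 * sin φ * cos φ * (v.2 * v.2))) •
        ContinuousLinearMap.fst ℝ ℝ ℝ) (K.arc c Θ₀ t) := by
    have h4 : HasDerivAt (fun x : ℝ => K.psi x ^ 2 * (v.1 * v.1) + sin x ^ 2 * (v.2 * v.2))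
        ((2 * K.psi φ * deriv K.psi φ * (v.1 * v.1)) + (2 * sin φ * cos φ * (v.2 * v.2))) φ := by
      have h5 := ((hpd.pow 2).mul_const (v.1 * v.1)).add
        (((hasDerivAt_sin φ).pow 2).mul_const (v.2 * v.2))
      refine h5.congr_deriv ?_
      norm_num
    have h6 : HasFDerivAt (fun y : ℝ × ℝ => y.1) (ContinuousLinearMap.fst ℝ ℝ ℝ) (K.arc c Θ₀ t) :=
      hasFDerivAt_fst
    have h7 := HasDerivAt.comp_hasFDerivAt (K.arc c Θ₀ t) (h₂ := fun x : ℝ =>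
      K.psi x ^ 2 * (v.1 * v.1) + sin x ^ 2 * (v.2 * v.2)) h4 h6
    exact h7
  rw [h3.fderiv]
  simp only [smul_apply, ContinuousLinearMap.coe_fst', smul_eq_mul]
  rw [hv1]
  simp only
  field_simp

end Cap

end Pool.Agent.Lib.MP_d2b992_gt.Erg
end

section
/-!
# The pullback of the metric under the first chart
-/
namespace Pool.Agent.Lib.MP_d2b992_gt.Erg

open Set Filter Topology MeasureTheory Real
open scoped ContDiff InnerProductSpace

theorem Xi_apply (p : ℝ × ℝ) : Xi p 0 = 2 * cosh (p.1 / 2) * cos (p.2 / 2) / Wd p ∧ 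
    Xi p 1 = -(2 * sinh (p.1 / 2) * sin (p.2 / 2)) / Wd p ∧ Xi p 2 = 1 - 2 / Wd p := by
  unfold Xi
  exact ⟨vec_zero' _ _ _, vec_one' _ _ _, vec_two' _ _ _⟩

theorem cosh_half (x : ℝ) : cosh (x / 2) ^ 2 = (cosh x + 1) / 2 := by
  have := cosh_two_mul (x / 2)
  have h1 := cosh_sq (x / 2)
  rw [mul_div_cancel₀ _ (two_ne_zero' ℝ)] at this
  linarith

theorem cos_half_sq (x : ℝ) : cos (x / 2) ^ 2 = (cos x + 1) / 2 := by
  have := cos_two_mul (x / 2)
  rw [mul_div_cancel₀ _ (two_ne_zero' ℝ)] at this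
  linarith

theorem nu_Xi (p : ℝ × ℝ) : nu (Xi p) = (cosh (p.1 / 2) ^ 2 - cos (p.2 / 2) ^ 2) / Wd p := by
  obtain ⟨h0, h1, h2⟩ := Xi_apply p
  have hW := Wd_pos p
  have hWd : Wd p = cosh (p.1 / 2) ^ 2 + cos (p.2 / 2) ^ 2 := rfl
  have s1 := cosh_sq (p.1 / 2)
  have s2 := sin_sq_add_cos_sq (p.2 / 2)
  have h3 : 0 ≤ cosh (p.1 / 2) ^ 2 - cos (p.2 / 2) ^ 2 := by
    have := one_le_cosh (p.1 / 2)
    have := cos_sq_le_one (p.2 / 2)
    nlinarith
  have h4 : nu (Xi p) ^ 2 = ((cosh (p.1 / 2) ^ 2 - cos (p.2 / 2) ^ 2) / Wd p) ^ 2 := by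
    rw [nu_sq, h1, h2]
    field_simp
    rw [hWd]
    set a := cosh (p.1 / 2)
    set b := sinh (p.1 / 2)
    set c := cos (p.2 / 2)
    set d := sin (p.2 / 2)
    have h1' : b ^ 2 = a ^ 2 - 1 := by linarith
    have h2' : d ^ 2 = 1 - c ^ 2 := by linarith
    linear_combination (4 * d ^ 2) * h1' + (4 * (a ^ 2 - 1)) * h2'
  exact (pow_left_inj₀ (nu_nonneg _) (by positivity) two_ne_zero).1 h4

theorem den_Xi (p : ℝ × ℝ) : 1 + Xi p 2 + 2 * nu (Xi p) = 2 * cosh p.1 / Wd p := by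
  have hW := Wd_pos p
  have hWd : Wd p = cosh (p.1 / 2) ^ 2 + cos (p.2 / 2) ^ 2 := rfl
  rw [nu_Xi, (Xi_apply p).2.2]
  have h1 := cosh_half p.1
  field_simp
  rw [hWd]
  linear_combination 4 * h1

theorem SS_Xi (p : ℝ × ℝ) : SS (Xi p) = 1 / cosh p.1 := by
  have hW := Wd_pos p
  have hc := cosh_pos p.1
  unfold SS
  rw [den_Xi, (Xi_apply p).2.2]
  field_simp
  ring

theorem kx_pos {p : ℝ × ℝ} (h : cos p.2 < cosh p.1) : 0 < cosh (p.1 / 2) ^ 2 - cos (p.2 / 2) ^ 2 := by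
  rw [cosh_half, cos_half_sq]; linarith

theorem lamP_Xi (C : Caps) {p : ℝ × ℝ} (h : cos p.2 < cosh p.1) : 
    C.lamP (Xi p) * kx p = 1 / cosh p.1 * C.om (1 / cosh p.1) := by
  have hW := Wd_pos p
  have hc := cosh_pos p.1
  have hk := kx_pos h
  unfold Caps.lamP kx
  rw [den_Xi, SS_Xi, nu_Xi]
  field_simp

theorem lam1_Xi {p : ℝ × ℝ} (h : cos p.2 < cosh p.1) : 
    lam1 (Xi p) * kx p = (1 / cosh p.1) ^ 2 := by
  have hW := Wd_pos p
  have hc := cosh_pos p.1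
  have hk := kx_pos h
  unfold lam1 kx
  rw [den_Xi, nu_Xi, (Xi_apply p).2.2]
  field_simp
  ring

/-- The variable of the first cap is `exp (-|ρ|)`. -/
theorem var_exp {ρ : ℝ} : 1 / cosh ρ / (1 + √(1 - (1 / cosh ρ) ^ 2)) = exp (-|ρ|) := by
  have hc := cosh_pos ρ
  have hs := cosh_sq ρ
  have h1 : 1 - (1 / cosh ρ) ^ 2 = (sinh |ρ| / cosh ρ) ^ 2 := by
    have : sinh |ρ| ^ 2 = sinh ρ ^ 2 := by
      rcases abs_choice ρ with h | h <;> rw [h]
      rw [sinh_neg, neg_sq]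
    rw [div_pow, div_pow, this]
    field_simp
    linarith
  have h2 : 0 ≤ sinh |ρ| := sinh_nonneg_iff.2 (abs_nonneg _)
  rw [h1, sqrt_sq (by positivity)]
  have h3 : cosh ρ + sinh |ρ| = exp |ρ| := by
    rw [← cosh_abs]; exact cosh_add_sinh _
  have h4 : 1 / cosh ρ / (1 + sinh |ρ| / cosh ρ) = 1 / (cosh ρ + sinh |ρ|) := by
    field_simp
  rw [h4, h3, exp_neg, one_div]

theorem one_div_cosh_lt {ρ : ℝ} (h : ρ ≠ 0) : 1 / cosh ρ < 1 := by
  rw [div_lt_one (cosh_pos ρ)]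
  exact one_lt_cosh.2 h

/-- **The conformal factor in the first chart.** -/
theorem lam_Xi (C : Caps) {p : ℝ × ℝ} (h : 13 * cos p.2 ≤ 12 * cosh p.1) : 
    C.lam (Xi p) * kx p = C.P.U (exp (-|p.1|)) := by
  have hc := cosh_pos p.1
  have hlt : cos p.2 < cosh p.1 := by linarith
  have hW := Wd_pos p
  have hWd : Wd p = cosh (p.1 / 2) ^ 2 + cos (p.2 / 2) ^ 2 := rfl
  rcases lt_or_ge (SS (Xi p)) (12 / 13) with h1 | h1
  · rw [C.lam_of_P h1, lamP_Xi C hlt]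
    rw [SS_Xi] at h1
    rw [C.om_mul (by positivity) (by linarith), var_exp]
  · have h2 : 1 / 25 * (1 + Xi p 2) ≤ 2 * nu (Xi p) := by
      rw [nu_Xi, (Xi_apply p).2.2]
      field_simp
      rw [hWd, cosh_half, cos_half_sq]
      linarith
    rw [C.lam_of_one h1 h2, lam1_Xi hlt]
    rw [SS_Xi] at h1
    by_cases h0 : p.1 = 0
    · rw [h0, cosh_zero, abs_zero, neg_zero, exp_zero, C.P.U_of_ge le_rfl]
      norm_num
    · have h3 := one_div_cosh_lt h0
      have h4 := C.om_mul (by positivity) h3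
      rw [C.om_eq h1 h3, var_exp] at h4
      rw [← h4]
      ring

theorem hasFDerivAt_rho_prod (K : Cap) {p : ℝ × ℝ} (h : p.1 ∈ Ioo 0 π) : 
    HasFDerivAt (fun q : ℝ × ℝ => (K.rho q.1, q.2)) 
      (((K.psi p.1 / sin p.1) • ContinuousLinearMap.fst ℝ ℝ ℝ).prod 
        (ContinuousLinearMap.snd ℝ ℝ ℝ)) p := 
  ((K.hasDerivAt_rho h).comp_hasFDerivAt p hasFDerivAt_fst).prodMk hasFDerivAt_snd

theorem fderiv_decomp {X : Type*} [NormedAddCommGroup X] [NormedSpace ℝ X] {f : ℝ × ℝ → X} 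
    (q : ℝ × ℝ) (a b : ℝ) : fderiv ℝ f q (a, b) = a • du f q + b • dv f q := by
  have : ((a, b) : ℝ × ℝ) = a • (1, 0) + b • (0, 1) := by simp
  rw [this, map_add, map_smul, map_smul]
  rfl

theorem hasFDerivAt_chP (C : Caps) {p : ℝ × ℝ} (h : p.1 ∈ Ioo 0 π) : 
    HasFDerivAt (chP C) ((fderiv ℝ Xi (C.P.rho p.1, p.2)).comp 
      (((C.P.psi p.1 / sin p.1) • ContinuousLinearMap.fst ℝ ℝ ℝ).prod 
        (ContinuousLinearMap.snd ℝ ℝ ℝ))) p := by
  have h1 : DifferentiableAt ℝ Xi (C.P.rho p.1, p.2) := contDiff_Xi.differentiable (by simp) _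
  exact HasFDerivAt.comp (g := Xi) p h1.hasFDerivAt (hasFDerivAt_rho_prod C.P h)

theorem fderiv_chP (C : Caps) {p : ℝ × ℝ} (h : p.1 ∈ Ioo 0 π) (u : ℝ × ℝ) : 
    fderiv ℝ (chP C) p u = (C.P.psi p.1 / sin p.1 * u.1) • du Xi (C.P.rho p.1, p.2) + 
      u.2 • dv Xi (C.P.rho p.1, p.2) := by
  rw [(hasFDerivAt_chP C h).fderiv, ← fderiv_decomp]
  rfl

theorem contDiffOn_chP (C : Caps) : ContDiffOn ℝ ∞ (chP C) {p | p.1 ∈ Ioo 0 π} := by
  intro p hp
  have h1 : ContDiffAt ℝ ∞ (fun q : ℝ × ℝ => (C.P.rho q.1, q.2)) p := 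
    ((C.P.contDiffAt_rho hp).comp p contDiffAt_fst).prodMk contDiffAt_snd
  exact (ContDiffAt.comp (g := Xi) p contDiff_Xi.contDiffAt h1).contDiffWithinAt

theorem norm_chP (C : Caps) (p : ℝ × ℝ) : ‖chP C p‖ = 1 := norm_Xi _

/-- **The pullback of the metric under the first chart.** -/
theorem pull_P (C : Caps) {p : ℝ × ℝ} (h : p.1 ∈ Ioo 0 π) 
    (hq : 13 * cos p.2 ≤ 12 * cosh (C.P.rho p.1)) (u v : ℝ × ℝ) : 
    C.metric.g (chP C p) (fderiv ℝ (chP C) p u) (fderiv ℝ (chP C) p v) = BB C.P p u v := by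
  have h1 := lam_Xi C (p := (C.P.rho p.1, p.2)) hq
  have h2 := C.P.U_exp_rho h
  rw [C.Pn, Nat.cast_one, one_mul] at h2
  simp only at h1
  rw [h2] at h1
  have hs := sin_pos_of_pos_of_lt_pi h.1 h.2
  rw [fderiv_chP C h, fderiv_chP C h, Caps.metric_g]
  simp only [inner_add_left, inner_add_right, real_inner_smul_left, real_inner_smul_right]
  have e1 : ⟪dv Xi (C.P.rho p.1, p.2), du Xi (C.P.rho p.1, p.2)⟫_ℝ = 0 := by
    rw [real_inner_comm]; exact in_uv _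
  rw [in_uu, in_vv, in_uv, e1]
  unfold chP BB
  have e2 : C.lam (Xi (C.P.rho p.1, p.2)) * (C.P.psi p.1 / sin p.1 * u.1 * (C.P.psi p.1 / sin p.1 * 
      v.1 * kx (C.P.rho p.1, p.2)) + u.2 * (C.P.psi p.1 / sin p.1 * v.1 * 0) + 
      (C.P.psi p.1 / sin p.1 * u.1 * (v.2 * 0) + u.2 * (v.2 * kx (C.P.rho p.1, p.2)))) = 
      (C.lam (Xi (C.P.rho p.1, p.2)) * kx (C.P.rho p.1, p.2)) * 
        ((C.P.psi p.1 / sin p.1) ^ 2 * (u.1 * v.1) + u.2 * v.2) := by ring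
  have e3 : sin p.1 ^ 2 * ((C.P.psi p.1 / sin p.1) ^ 2 * (u.1 * v.1) + u.2 * v.2) = 
      C.P.psi p.1 ^ 2 * (u.1 * v.1) + sin p.1 ^ 2 * (u.2 * v.2) := by
    field_simp
  rw [← e3, ← h1, ← e2]
  ring

/-! ### Symmetries -/

theorem Xi_neg (a b : ℝ) : Xi (-a, -b) = Xi (a, b) := by
  unfold Xi Wd
  simp only [neg_div, cosh_neg, cos_neg, sinh_neg, sin_neg]
  congr 2
  ring

theorem Xi_period (a b : ℝ) : Xi (a, b + 4 * π) = Xi (a, b) := by
  unfold Xi Wd
  have : (b + 4 * π) / 2 = b / 2 + 2 * π := by ring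
  simp only [this, cos_add_two_pi, sin_add_two_pi]

/-- The fold. -/
theorem chP_fold (C : Caps) (φ Θ : ℝ) : chP C (π - φ, -Θ) = chP C (φ, Θ) := by
  unfold chP
  simp only [Cap.rho_pi_sub]
  exact Xi_neg _ _

theorem chP_period (C : Caps) (φ Θ : ℝ) : chP C (φ, Θ + 4 * π) = chP C (φ, Θ) := Xi_period _ _

end Pool.Agent.Lib.MP_d2b992_gt.Erg
end

section
/-!
# The pullback of the metric under the second charts
-/
namespace Pool.Agent.Lib.MP_d2b992_gt.Erg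

open Set Filter Topology MeasureTheory Real
open scoped ContDiff InnerProductSpace

namespace Cap

variable (K : Cap)

/-- In the round region the conformal coordinate is `tan (φ / 2)`. -/
theorem exp_rho {φ : ℝ} (h : φ ∈ Ioo 0 π) (ha : K.a ≤ sin φ) : 
    exp (K.rho φ) = sin φ / (1 + cos φ) := by
  have hn : K.n ≠ 0 := K.n_pos.ne'
  have key : ∀ φ, 0 < φ → φ < π / 2 → K.a ≤ sin φ → exp (K.rho φ) = sin φ / (1 + cos φ) := by
    intro φ h0 h1 ha
    have hc : 0 < cos φ := cos_pos_of_mem_Ioo ⟨by linarith, h1⟩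
    have hs : 0 < sin φ := sin_pos_of_pos_of_lt_pi h0 (by linarith [pi_pos])
    have e1 := K.N_sin h0 h1
    rw [K.N_eq (pow_le_pow_left₀ K.a_pos.le ha 2) (sin_sq_lt_one hc.ne'), sqrt_one_sub_sin_sq, 
      abs_of_pos hc, sqrt_sq hs.le, exp_nat_mul] at e1
    exact ((pow_left_inj₀ (by positivity) (exp_pos _).le hn).1 e1).symm
  rcases lt_trichotomy φ (π / 2) with h1 | h1 | h1
  · exact key φ h.1 h1 ha
  · rw [h1, rho_half, exp_zero, sin_pi_div_two, cos_pi_div_two]; norm_num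
  · have h2 := key (π - φ) (by linarith [h.2]) (by linarith) (by rwa [sin_pi_sub])
    rw [rho_pi_sub, sin_pi_sub, cos_pi_sub, exp_neg] at h2
    have hs : 0 < sin φ := sin_pos_of_pos_of_lt_pi h.1 h.2
    have h3 : exp (K.rho φ) = (1 + -cos φ) / sin φ := by
      rw [← inv_inv (exp (K.rho φ)), h2, inv_div]
    have h4 := sin_sq_add_cos_sq φ
    have h5 : 0 < 1 + cos φ := by
      have h6 := neg_one_le_cos φ
      rcases h6.eq_or_lt with h7 | h7
      · rw [← h7] at h4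
        have : sin φ ^ 2 = 0 := by linarith
        have := pow_eq_zero_iff (two_ne_zero) |>.1 this
        linarith
      · linarith
    rw [h3, div_eq_div_iff hs.ne' h5.ne']
    linarith

theorem cosh_rho {φ : ℝ} (h : φ ∈ Ioo 0 π) (ha : K.a ≤ sin φ) : cosh (K.rho φ) = 1 / sin φ := by
  have h1 := K.exp_rho h ha
  have hs : 0 < sin φ := sin_pos_of_pos_of_lt_pi h.1 h.2
  have h4 := sin_sq_add_cos_sq φ
  have h5 : 0 < 1 + cos φ := by
    have : 0 < sin φ / (1 + cos φ) := by rw [← h1]; exact exp_pos _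
    rcases (div_pos_iff.1 this) with h6 | h6
    · exact h6.2
    · linarith [h6.1]
  rw [cosh_eq, exp_neg, h1, inv_div]
  field_simp
  nlinarith

/-- Inside the cap the conformal coordinate is farther from the equator. -/
theorem inv_cosh_rho_le {φ : ℝ} (h : φ ∈ Ioo 0 π) (ha : sin φ ≤ K.a) : 
    1 / cosh (K.rho φ) ≤ K.a := by
  have key : ∀ φ, 0 < φ → φ < π / 2 → sin φ ≤ K.a → 1 / cosh (K.rho φ) ≤ K.a := by
    intro φ h0 h1 ha
    set φ1 := arcsin K.a with hφ1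
    have a0 := K.a_pos
    have a1 := K.a_lt
    have h2 : sin φ1 = K.a := sin_arcsin (by linarith) a1.le
    have h3 : 0 < φ1 := arcsin_pos.2 a0
    have h4 : φ1 < π / 2 := arcsin_lt_pi_div_two.2 a1
    have h5 : φ ≤ φ1 := by
      rw [hφ1, le_arcsin_iff_sin_le ⟨by linarith, h1.le⟩ ⟨by linarith, a1.le⟩]
      exact ha
    have h6 : K.rho φ ≤ K.rho φ1 := 
      K.rho_strictMono.monotoneOn ⟨h0, by linarith [pi_pos]⟩ ⟨h3, by linarith [pi_pos]⟩ h5
    have h7 := K.rho_neg h3 h4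
    have h8 : cosh (K.rho φ1) ≤ cosh (K.rho φ) := by
      rw [cosh_le_cosh, abs_of_neg h7, abs_of_neg (K.rho_neg h0 h1)]
      linarith
    rw [K.cosh_rho ⟨h3, by linarith [pi_pos]⟩ h2.ge, h2] at h8
    rw [div_le_iff₀ (cosh_pos _)]
    rw [div_le_iff₀ a0] at h8
    linarith
  rcases lt_trichotomy φ (π / 2) with h1 | h1 | h1
  · exact key φ h.1 h1 ha
  · rw [h1, sin_pi_div_two] at ha
    linarith [K.a_lt]
  · have h2 := key (π - φ) (by linarith [h.2]) (by linarith) (by rwa [sin_pi_sub])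
    rwa [rho_pi_sub, cosh_neg] at h2

/-- The quantity `sin φ cos Θ` against its conformal version. -/
theorem cos_le_cosh {φ Θ m : ℝ} (h : φ ∈ Ioo 0 π) (h0 : K.a ≤ m) (h1 : sin φ * cos Θ ≤ m) : 
    cos Θ ≤ m * cosh (K.rho φ) := by
  have hs : 0 < sin φ := sin_pos_of_pos_of_lt_pi h.1 h.2
  have hc := cosh_pos (K.rho φ)
  rcases le_or_gt (K.a) (sin φ) with h2 | h2
  · rw [K.cosh_rho h h2]
    rw [mul_one_div, le_div_iff₀ hs]
    linarith
  · have h3 := K.inv_cosh_rho_le h h2.le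
    rw [div_le_iff₀ hc] at h3
    have h4 := cos_le_one Θ
    nlinarith

end Cap

/-- **The pullback of the metric under the first chart.** -/
theorem pull_P' (C : Caps) {p : ℝ × ℝ} (h : p ∈ DomP) (u v : ℝ × ℝ) : 
    C.metric.g (chP C p) (fderiv ℝ (chP C) p u) (fderiv ℝ (chP C) p v) = BB C.P p u v := by
  refine pull_P C h.1 ?_ u v
  have := C.P.cos_le_cosh (m := 12 / 13) h.1 (by rw [C.Pa]) h.2.le
  linarith

/-! ### Holomorphic maps into the stereographic chart -/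

theorem cc_symm (z : ℂ) : cc (Complex.equivRealProdCLM z) = z := 
  Complex.equivRealProdCLM.symm_apply_apply z

theorem fderiv_stereo_inner (C : Caps) (q x y : ℝ × ℝ) : 
    C.metric.g (stereo 1 q) (fderiv ℝ (stereo 1) q x) (fderiv ℝ (stereo 1) q y) = 
      LL C 1 q * (x.1 * y.1 + x.2 * y.2) := by
  have e1 : fderiv ℝ (stereo 1) q x = x.1 • du (stereo 1) q + x.2 • dv (stereo 1) q := 
    fderiv_decomp q x.1 x.2
  have e2 : fderiv ℝ (stereo 1) q y = y.1 • du (stereo 1) q + y.2 • dv (stereo 1) q := 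
    fderiv_decomp q y.1 y.2
  have e3 : ⟪dv (stereo 1) q, du (stereo 1) q⟫_ℝ = 0 := by
    rw [real_inner_comm]; exact round_F (Or.inl rfl) q
  rw [e1, e2, Caps.metric_g]
  simp only [inner_add_left, inner_add_right, real_inner_smul_left, real_inner_smul_right]
  rw [round_E (Or.inl rfl), round_G (Or.inl rfl), round_F (Or.inl rfl), e3]
  unfold LL
  ring

theorem mul_cc_inner (a : ℂ) (u v : ℝ × ℝ) : 
    (Complex.equivRealProdCLM (a * cc u)).1 * (Complex.equivRealProdCLM (a * cc v)).1 + 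
      (Complex.equivRealProdCLM (a * cc u)).2 * (Complex.equivRealProdCLM (a * cc v)).2 = 
      ‖a‖ ^ 2 * (u.1 * v.1 + u.2 * v.2) := by
  have h1 : ∀ z : ℂ, (Complex.equivRealProdCLM z).1 = z.re := fun z => rfl
  have h2 : ∀ z : ℂ, (Complex.equivRealProdCLM z).2 = z.im := fun z => rfl
  rw [h1, h1, h2, h2, ← Complex.normSq_eq_norm_sq, Complex.normSq_apply]
  simp only [Complex.mul_re, Complex.mul_im, cc_re, cc_im]
  ring

theorem contDiff_stc : ContDiff ℝ ∞ stc := 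
  (contDiff_stereo 1).comp (Complex.equivRealProdCLM : ℂ →L[ℝ] ℝ × ℝ).contDiff

theorem norm_stc (z : ℂ) : ‖stc z‖ = 1 := norm_stereo (Or.inl rfl) _

/-- The pullback of the metric under a holomorphic map. -/
theorem pull_hol (C : Caps) {F : ℝ × ℝ → ℂ} {a : ℂ} {F' : ℝ × ℝ →L[ℝ] ℂ} {p : ℝ × ℝ}
    (hF : HasFDerivAt F F' p) (hF' : ∀ u, F' u = a * cc u) (u v : ℝ × ℝ) : 
    C.metric.g (stc (F p)) (fderiv ℝ (fun q => stc (F q)) p u) 
      (fderiv ℝ (fun q => stc (F q)) p v) = 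
      LL C 1 (Complex.equivRealProdCLM (F p)) * (‖a‖ ^ 2 * (u.1 * v.1 + u.2 * v.2)) := by
  have h1 : HasFDerivAt (stereo 1) (fderiv ℝ (stereo 1) (Complex.equivRealProdCLM (F p))) 
      (Complex.equivRealProdCLM (F p)) := 
    ((contDiff_stereo 1).differentiable (by simp) _).hasFDerivAt
  have h2 : HasFDerivAt (fun q => Complex.equivRealProdCLM (F q)) 
      ((Complex.equivRealProdCLM : ℂ →L[ℝ] ℝ × ℝ).comp F') p := 
    (Complex.equivRealProdCLM : ℂ →L[ℝ] ℝ × ℝ).hasFDerivAt.comp p hF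
  have h3 := h1.comp p h2
  have h4 : ∀ u, fderiv ℝ (fun q => stc (F q)) p u = 
      fderiv ℝ (stereo 1) (Complex.equivRealProdCLM (F p)) (Complex.equivRealProdCLM (a * cc u)) := by
    intro u
    have h5 : fderiv ℝ (fun q => stc (F q)) p = _ := h3.fderiv
    rw [h5, ← hF']
    rfl
  rw [h4, h4]
  unfold stc
  rw [fderiv_stereo_inner, mul_cc_inner]

/-! ### The second charts -/

theorem norm_exp_two (z : ℂ) : ‖Complex.exp (2 * z)‖ = exp (2 * z.re) := by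
  rw [Complex.norm_exp]; simp

theorem zq_slit {z : ℂ} (h : z.re < 0) : 1 - Complex.exp (2 * z) ∈ Complex.slitPlane := by
  rw [Complex.mem_slitPlane_iff]
  left
  have h1 := Complex.re_le_norm (Complex.exp (2 * z))
  rw [norm_exp_two] at h1
  have h2 : exp (2 * z.re) < 1 := by rw [exp_lt_one_iff]; linarith
  simp
  linarith

theorem zq_sq {z : ℂ} (h : z.re < 0) : zq z ^ 2 = 1 - Complex.exp (2 * z) := by
  unfold zq
  rw [← Complex.exp_nat_mul]
  push_cast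
  rw [mul_div_cancel₀ _ (two_ne_zero' ℂ), Complex.exp_log (Complex.slitPlane_ne_zero (zq_slit h))]

theorem zq_re {z : ℂ} (h : z.re < 0) : 0 < (zq z).re := by
  unfold zq
  rw [Complex.exp_re]
  have h1 : (Complex.log (1 - Complex.exp (2 * z)) / 2).im = 
      Complex.arg (1 - Complex.exp (2 * z)) / 2 := by
    rw [Complex.div_ofNat_im, Complex.log_im]
  rw [h1]
  have h2 := Complex.neg_pi_lt_arg (1 - Complex.exp (2 * z))
  have h3 := Complex.arg_le_pi (1 - Complex.exp (2 * z))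
  have h4 := Complex.slitPlane_arg_ne_pi (zq_slit h)
  have h5 : Complex.arg (1 - Complex.exp (2 * z)) < Real.pi := lt_of_le_of_ne h3 h4
  exact mul_pos (Real.exp_pos _) (Real.cos_pos_of_mem_Ioo ⟨by linarith, by linarith⟩)

theorem zq_ne_zero (z : ℂ) : zq z ≠ 0 := Complex.exp_ne_zero _

theorem hasDerivAt_zq {z : ℂ} (h : z.re < 0) : 
    HasDerivAt zq (-Complex.exp (2 * z) / zq z) z := by
  have h0 := zq_slit h
  have h1 : HasDerivAt (fun z : ℂ => Complex.exp (2 * z)) (Complex.exp (2 * z) * 2) z := by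
    have : HasDerivAt (fun z : ℂ => 2 * z) 2 z := by simpa using (hasDerivAt_id z).const_mul 2
    exact this.cexp
  have h2 := (((h1.const_sub 1).clog h0).div_const 2).cexp
  refine h2.congr_deriv ?_
  have h3 : Complex.exp (Complex.log (1 - Complex.exp (2 * z)) / 2) = zq z := rfl
  have h4 := zq_ne_zero z
  rw [h3, ← zq_sq h]
  field_simp

theorem contDiffAt_zq {z : ℂ} (h : z.re < 0) : ContDiffAt ℝ ∞ zq z := by
  have h0 := zq_slit h
  have h1 : AnalyticAt ℂ (fun z : ℂ => Complex.exp (2 * z)) z := by fun_prop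
  have h2 : AnalyticAt ℂ (fun z : ℂ => 1 - Complex.exp (2 * z)) z := analyticAt_const.sub h1
  have h3 : AnalyticAt ℂ (fun z : ℂ => Complex.log (1 - Complex.exp (2 * z))) z := h2.clog h0
  have h4 : AnalyticAt ℂ zq z := ((h3.div analyticAt_const two_ne_zero)).cexp
  have h5 : ContDiffAt ℂ ∞ zq z := h4.contDiffAt
  exact h5.restrict_scalars ℝ

/-- The conformal factor outside of the first cap and for `|w| < 1`. -/
theorem LL_Q (C : Caps) {q : ℝ × ℝ} (h0 : ‖1 - cc q ^ 2‖ < 1) 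
    (h : 12 / 13 ≤ ‖cc q‖ ^ 2 / (1 + ‖1 - cc q ^ 2‖)) : 
    LL C 1 q = ‖cc q‖ ^ 2 * C.Q.kap (‖1 - cc q ^ 2‖ ^ 2) := by
  have hI := II_pos q
  have hx2 : 0 < 1 + stereo 1 q 2 := by rw [one_add_stereo]; positivity
  have h1 : C.lam (stereo 1 q) = C.lamQ (stereo 1 q) := by
    rcases lt_or_ge (2 * nu (stereo 1 q)) (1 / 25 * (1 + stereo 1 q 2)) with h2 | h2
    · exact C.lam_of_Q h2
    · rw [C.lam_of_one (by rw [SS_stereo]; exact h) h2, C.lamQ_eq hx2 h2]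
      rw [one_add_stereo, nu_stereo (Or.inl rfl)]
      nlinarith
  have hWW : WW (stereo 1 q) = ‖1 - cc q ^ 2‖ ^ 2 := by
    rw [Caps.WW_eq, one_add_stereo, nu_stereo (Or.inl rfl)]
    congr 1
    field_simp
  unfold LL
  rw [h1, Caps.lamQ, one_sub_stereo, one_add_stereo, hWW]
  field_simp
  ring

/-- The sine of the first colatitude in the second chart. -/
theorem SS_zq {z : ℂ} (h : z.re < 0) : 
    (‖zq z‖ ^ 2 / (1 + ‖Complex.exp (2 * z)‖)) ^ 2 = 1 - (cos z.im / cosh z.re) ^ 2 := by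
  have h1 : ‖zq z‖ ^ 2 = ‖1 - Complex.exp (2 * z)‖ := by rw [← norm_pow, zq_sq h]
  have h2 : ‖1 - Complex.exp (2 * z)‖ ^ 2 = 1 - 2 * (exp (2 * z.re) * cos (2 * z.im)) + 
      exp (2 * z.re) ^ 2 := by
    rw [← Complex.normSq_eq_norm_sq, Complex.normSq_apply]
    have e1 : (1 - Complex.exp (2 * z)).re = 1 - exp (2 * z.re) * cos (2 * z.im) := by
      simp [Complex.exp_re]
    have e2 : (1 - Complex.exp (2 * z)).im = -(exp (2 * z.re) * sin (2 * z.im)) := by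
      simp [Complex.exp_im]
    rw [e1, e2]
    have := sin_sq_add_cos_sq (2 * z.im)
    linear_combination (exp (2 * z.re) ^ 2) * this
  have h3 := cos_two_mul z.im
  have h4 : (2 * cosh z.re) ^ 2 * exp (2 * z.re) = (1 + exp (2 * z.re)) ^ 2 := by
    have e1 : exp (2 * z.re) = exp z.re ^ 2 := by rw [← exp_nat_mul]; norm_num
    have e2 : 2 * cosh z.re = exp z.re + exp (-z.re) := by rw [cosh_eq]; ring
    have e3 : exp z.re * exp (-z.re) = 1 := by rw [← exp_add]; simp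
    rw [e1, e2]
    have : (exp z.re + exp (-z.re)) ^ 2 * exp z.re ^ 2 = 
        (exp z.re ^ 2 + exp z.re * exp (-z.re)) ^ 2 := by ring
    rw [this, e3]
    ring
  have hE := exp_pos (2 * z.re)
  have hc := cosh_pos z.re
  rw [div_pow, div_pow, h1, h2, norm_exp_two, h3]
  have h5 : (1 + exp (2 * z.re)) ^ 2 ≠ 0 := by positivity
  rw [← h4]
  rw [← h4] at h5
  field_simp
  linear_combination -h4

theorem cc_mul_e {e : ℝ} (he : e = 1 ∨ e = -1) (z : ℂ) : ((e : ℂ) * z) ^ 2 = z ^ 2 ∧ 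
    ‖(e : ℂ) * z‖ = ‖z‖ := by
  rcases he with rfl | rfl <;> simp

theorem hasFDerivAt_chQ_aux (C : Caps) (e : ℝ) {p : ℝ × ℝ} (h : p.1 ∈ Ioo 0 (π / 2)) : 
    HasFDerivAt (fun q : ℝ × ℝ => (e : ℂ) * zq (cc q)) 
      ((((e : ℂ) * (-Complex.exp (2 * cc (C.Q.rho p.1, p.2)) / zq (cc (C.Q.rho p.1, p.2)))) • 
        (ContinuousLinearMap.id ℝ ℂ)).comp 
        (Complex.equivRealProdCLM.symm : ℝ × ℝ →L[ℝ] ℂ)) (C.Q.rho p.1, p.2) := by
  have hre : (cc (C.Q.rho p.1, p.2)).re < 0 := by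
    rw [cc_re]; exact C.Q.rho_neg h.1 h.2
  have h1 := (hasDerivAt_zq hre).const_mul (e : ℂ)
  have h2 : HasFDerivAt (fun z => (e : ℂ) * zq z) 
      (((e : ℂ) * (-Complex.exp (2 * cc (C.Q.rho p.1, p.2)) / zq (cc (C.Q.rho p.1, p.2)))) • 
        (ContinuousLinearMap.id ℝ ℂ)) (cc (C.Q.rho p.1, p.2)) := by
    refine (h1.hasFDerivAt.restrictScalars ℝ).congr_fderiv ?_
    refine ContinuousLinearMap.ext fun w => ?_
    simp [mul_comm]
  exact h2.comp (C.Q.rho p.1, p.2) (hasFDerivAt_cc _)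

theorem contDiffOn_chQ (C : Caps) (e : ℝ) : ContDiffOn ℝ ∞ (chQ C e) {p | p.1 ∈ Ioo 0 (π / 2)} := by
  intro p hp
  have hp' : p.1 ∈ Ioo 0 π := ⟨hp.1, by linarith [hp.2, pi_pos]⟩
  have h1 : ContDiffAt ℝ ∞ (fun q : ℝ × ℝ => (C.Q.rho q.1, q.2)) p := 
    ((C.Q.contDiffAt_rho hp').comp p contDiffAt_fst).prodMk contDiffAt_snd
  have h2 : ContDiffAt ℝ ∞ (fun q : ℝ × ℝ => cc (C.Q.rho q.1, q.2)) p := 
    ((Complex.equivRealProdCLM.symm : ℝ × ℝ →L[ℝ] ℂ).contDiff.contDiffAt).comp p h1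
  have hre : (cc (C.Q.rho p.1, p.2)).re < 0 := by
    rw [cc_re]; exact C.Q.rho_neg hp.1 hp.2
  have h3 : ContDiffAt ℝ ∞ (fun q : ℝ × ℝ => zq (cc (C.Q.rho q.1, q.2))) p := 
    ContDiffAt.comp (g := zq) p (contDiffAt_zq hre) h2
  exact (ContDiffAt.comp (g := stc) p contDiff_stc.contDiffAt 
    (contDiffAt_const.mul h3)).contDiffWithinAt

theorem norm_chQ (C : Caps) (e : ℝ) (p : ℝ × ℝ) : ‖chQ C e p‖ = 1 := norm_stc _

/-- **The pullback of the metric under the second charts.** -/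
theorem pull_Q (C : Caps) {e : ℝ} (he : e = 1 ∨ e = -1) {p : ℝ × ℝ} (h : p ∈ DomQ) 
    (u v : ℝ × ℝ) : 
    C.metric.g (chQ C e p) (fderiv ℝ (chQ C e) p u) (fderiv ℝ (chQ C e) p v) = BB C.Q p u v := by
  obtain ⟨hp, hd⟩ := h
  have hp' : p.1 ∈ Ioo 0 π := ⟨hp.1, by linarith [hp.2, pi_pos]⟩
  have hs := sin_pos_of_pos_of_lt_pi hp'.1 hp'.2
  have hρ := C.Q.rho_neg hp.1 hp.2
  set q : ℝ × ℝ := (C.Q.rho p.1, p.2) with hq
  have hre : (cc q).re < 0 := by rw [cc_re]; exact hρ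
  -- the chain rule
  have h1 := hasFDerivAt_chQ_aux C e hp
  rw [← hq] at h1
  set a : ℂ := (e : ℂ) * (-Complex.exp (2 * cc q) / zq (cc q)) with ha
  have hdiff : DifferentiableAt ℝ (fun r : ℝ × ℝ => stc ((e : ℂ) * zq (cc r))) q := 
    (contDiff_stc.differentiable (by simp) _).comp q h1.differentiableAt
  have h2 : ∀ u : ℝ × ℝ, fderiv ℝ (chQ C e) p u = 
      fderiv ℝ (fun r : ℝ × ℝ => stc ((e : ℂ) * zq (cc r))) q (C.Q.psi p.1 / sin p.1 * u.1, u.2) := by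
    intro u
    have h3 := hdiff.hasFDerivAt.comp p (hasFDerivAt_rho_prod C.Q hp')
    have h4 : fderiv ℝ (chQ C e) p = _ := h3.fderiv
    rw [h4]
    rfl
  rw [h2, h2]
  have h5 := pull_hol C (a := a) h1 (fun u => by
    simp only [ContinuousLinearMap.comp_apply, _root_.smul_apply, ContinuousLinearMap.coe_id', 
      id_eq, smul_eq_mul]
    rfl) (C.Q.psi p.1 / sin p.1 * u.1, u.2) (C.Q.psi p.1 / sin p.1 * v.1, v.2)
  have e0 : chQ C e p = stc ((e : ℂ) * zq (cc q)) := rfl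
  rw [e0, h5]
  -- the value of the conformal factor
  obtain ⟨f1, f2⟩ := cc_mul_e he (zq (cc q))
  have hw : 1 - cc (Complex.equivRealProdCLM ((e : ℂ) * zq (cc q))) ^ 2 = Complex.exp (2 * cc q) := by
    rw [cc_symm, f1, zq_sq hre]; ring
  have hwn : ‖Complex.exp (2 * cc q)‖ = exp (2 * C.Q.rho p.1) := by
    rw [norm_exp_two, cc_re]
  have hwlt : ‖Complex.exp (2 * cc q)‖ < 1 := by
    rw [hwn, exp_lt_one_iff]; linarith
  have hSS : 12 / 13 ≤ ‖zq (cc q)‖ ^ 2 / (1 + ‖Complex.exp (2 * cc q)‖) := by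
    have g1 := SS_zq hre
    rw [cc_re, cc_im] at g1
    have g2 : |cos p.2 / cosh (C.Q.rho p.1)| ≤ 5 / 13 := by
      have hc := cosh_pos (C.Q.rho p.1)
      have k1 := C.Q.cos_le_cosh (Θ := p.2) (m := 5 / 13) hp' (by rw [C.Qa]) 
        ((le_abs_self _).trans hd.le)
      have k2 := C.Q.cos_le_cosh (Θ := p.2 + π) (m := 5 / 13) hp' (by rw [C.Qa]) 
        (by rw [cos_add_pi]; have := (neg_abs_le (sin p.1 * cos p.2)); linarith)
      rw [cos_add_pi] at k2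
      rw [abs_le]
      constructor
      · rw [le_div_iff₀ hc]; linarith
      · rw [div_le_iff₀ hc]; exact k1
    have g3 : (cos p.2 / cosh (C.Q.rho p.1)) ^ 2 ≤ (5 / 13) ^ 2 := by
      rw [← sq_abs]; exact pow_le_pow_left₀ (abs_nonneg _) g2 2
    have g4 : (12 / 13 : ℝ) ^ 2 ≤ (‖zq (cc q)‖ ^ 2 / (1 + ‖Complex.exp (2 * cc q)‖)) ^ 2 := by
      rw [g1]
      have : (q.2) = p.2 := rfl
      norm_num at g3 ⊢
      linarith
    exact (pow_le_pow_iff_left₀ (by norm_num) (by positivity) two_ne_zero).1 g4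
  have hLL := LL_Q C (q := Complex.equivRealProdCLM ((e : ℂ) * zq (cc q))) (by rw [hw]; exact hwlt) 
    (by rw [hw, cc_symm, f2]; exact hSS)
  rw [hw, cc_symm, f2] at hLL
  rw [hLL]
  have ha2 : ‖a‖ ^ 2 = ‖Complex.exp (2 * cc q)‖ ^ 2 / ‖zq (cc q)‖ ^ 2 := by
    rw [ha, (cc_mul_e he _).2, norm_div, norm_neg, div_pow]
  have hU : ‖Complex.exp (2 * cc q)‖ ^ 2 * C.Q.kap (‖Complex.exp (2 * cc q)‖ ^ 2) = sin p.1 ^ 2 := by
    rw [← C.Q.U_eq_mul_kap (by positivity) (pow_lt_one₀ (norm_nonneg _) hwlt two_ne_zero)]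
    have := C.Q.U_exp_rho hp'
    rw [← this, C.Qn, hwn, abs_of_neg hρ, ← exp_nat_mul]
    congr 2
    push_cast
    ring
  have hz : ‖zq (cc q)‖ ≠ 0 := (norm_pos_iff.2 (zq_ne_zero _)).ne'
  rw [ha2]
  have e3 : ‖zq (cc q)‖ ^ 2 * C.Q.kap (‖Complex.exp (2 * cc q)‖ ^ 2) * 
      (‖Complex.exp (2 * cc q)‖ ^ 2 / ‖zq (cc q)‖ ^ 2 * 
        (C.Q.psi p.1 / sin p.1 * u.1 * (C.Q.psi p.1 / sin p.1 * v.1) + u.2 * v.2)) = 
      (‖Complex.exp (2 * cc q)‖ ^ 2 * C.Q.kap (‖Complex.exp (2 * cc q)‖ ^ 2)) * 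
        (C.Q.psi p.1 / sin p.1 * u.1 * (C.Q.psi p.1 / sin p.1 * v.1) + u.2 * v.2) := by
    field_simp
  simp only
  rw [e3, hU]
  unfold BB
  field_simp

theorem chQ_period (C : Caps) (e φ Θ : ℝ) : chQ C e (φ, Θ + π) = chQ C e (φ, Θ) := by
  unfold chQ zq
  have : Complex.exp (2 * cc (C.Q.rho φ, Θ + π)) = Complex.exp (2 * cc (C.Q.rho φ, Θ)) := by
    rw [cc_apply, cc_apply, Complex.exp_eq_exp_iff_exists_int]
    refine ⟨1, ?_⟩
    push_cast
    ring
  simp only [this]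

end Pool.Agent.Lib.MP_d2b992_gt.Erg
end

section
/-!
# The caps of the profiles of part T, and the half turns of the explicit geodesics
-/
set_option autoImplicit false

namespace Pool.Agent.Lib.MP_d2b992_gt.Erg

open Set Filter Topology MeasureTheory Real
open scoped ContDiff

section

variable {b s : ℝ} {χp χq : ℝ → ℝ}

theorem wgt_eq {u : ℝ} (hu : u < 1) : 1 / 2 * (1 - u) ^ (-(3 / 2) : ℝ) = 1 / (2 * (1 - u) * √(1 - u)) := by
  have h : 0 < 1 - u := by linarith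
  have h1 : (1 - u) ^ (-(3 / 2) : ℝ) = ((1 - u) * √(1 - u))⁻¹ := by
    rw [rpow_neg h.le, sqrt_eq_rpow]
    congr 1
    rw [show (3 / 2 : ℝ) = 1 + 1 / 2 by norm_num, rpow_add h, rpow_one]
  rw [h1]
  have h2 : √(1 - u) ≠ 0 := (sqrt_pos.2 h).ne'
  field_simp

/-- The first cap. -/
noncomputable def capP (h : T.Prof b s χp χq) : Cap where
  n := 1
  a := s
  σ := χp
  n_pos := one_pos
  a_pos := h.s0
  a_lt := by nlinarith [h.s0, h.sb, pow_pos h.b0 2]
  smooth := h.p.smooth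
  lt := fun u _ hu => by
    rw [← wgt_eq hu]
    exact h.ltp u hu
  zero := h.p.zero
  total := by
    rw [h.intp]
    norm_num

/-- The second cap. -/
noncomputable def capQ (h : T.Prof b s χp χq) : Cap where
  n := 4
  a := b
  σ := fun u => -χq u
  n_pos := by norm_num
  a_pos := h.b0
  a_lt := by linarith [h.b1]
  smooth := h.q.smooth.neg
  lt := fun u _ hu => by
    have h1 := T.wgt_pos hu
    unfold T.wgt at h1
    rw [wgt_eq hu] at h1
    linarith [h.q.nonneg u]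
  zero := fun u hu => by rw [h.q.zero u hu, neg_zero]
  total := by
    rw [intervalIntegral.integral_neg, h.intq]
    norm_num

/-- Both caps for `b = 5 / 13`, `s = 12 / 13`. -/
noncomputable def caps (h : T.Prof (5 / 13) (12 / 13) χp χq) : Caps where
  P := capP h
  Q := capQ h
  Pn := rfl
  Pa := rfl
  Qn := rfl
  Qa := rfl

theorem capP_D (h : T.Prof b s χp χq) (u : ℝ) : (capP h).D u = T.Del χp u := by
  unfold Cap.D T.Del
  have h1 := intervalIntegral.integral_add_adjacent_intervals (a := 0) (b := u) (c := 1)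
    (h.p.cont.intervalIntegrable (μ := volume) _ _) (h.p.cont.intervalIntegrable (μ := volume) _ _)
  have h2 := (capP h).total
  change ∫ u in (0 : ℝ)..1, χp u = 2 / ((capP h).n : ℝ) - 1 at h2
  change (2 / ((capP h).n : ℝ) - 1) - ∫ v in (0 : ℝ)..u, χp v = _
  linarith

theorem capQ_D (h : T.Prof b s χp χq) (u : ℝ) : (capQ h).D u = -T.Del χq u := by
  unfold Cap.D T.Del
  have h1 := intervalIntegral.integral_add_adjacent_intervals (a := 0) (b := u) (c := 1)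
    (h.q.cont.intervalIntegrable (μ := volume) _ _) (h.q.cont.intervalIntegrable (μ := volume) _ _)
  have h2 := (capQ h).total
  change ∫ u in (0 : ℝ)..1, -χq u = 2 / ((capQ h).n : ℝ) - 1 at h2
  change (2 / ((capQ h).n : ℝ) - 1) - ∫ v in (0 : ℝ)..u, -χq v = _
  rw [intervalIntegral.integral_neg] at h2 ⊢
  linarith

theorem capP_psi (h : T.Prof b s χp χq) (φ : ℝ) : (capP h).psi φ = T.psi χp 1 (cos φ) := by
  unfold Cap.psi T.psi
  rw [capP_D]
  have : 1 - cos φ ^ 2 = sin φ ^ 2 := by linarith [sin_sq_add_cos_sq φ]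
  rw [this]
  ring

theorem capQ_psi (h : T.Prof b s χp χq) (φ : ℝ) : (capQ h).psi φ = T.psi χq (-1) (cos φ) := by
  unfold Cap.psi T.psi
  rw [capQ_D]
  have : 1 - cos φ ^ 2 = sin φ ^ 2 := by linarith [sin_sq_add_cos_sq φ]
  rw [this]
  ring

theorem capP_th (h : T.Prof b s χp χq) {c : ℝ} (hc0 : c ≠ 0) (hc1 : c ^ 2 < 1) (Θ₀ : ℝ) :
    (capP h).th c Θ₀ π = Θ₀ + T.W χp 1 c := by
  unfold Cap.th T.W
  congr 1
  apply intervalIntegral.integral_congr
  intro τ _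
  simp only
  rw [capP_psi, cos_phc hc0 hc1]

theorem capQ_th (h : T.Prof b s χp χq) {c : ℝ} (hc0 : c ≠ 0) (hc1 : c ^ 2 < 1) (Θ₀ : ℝ) :
    (capQ h).th c Θ₀ π = Θ₀ + T.W χq (-1) c := by
  unfold Cap.th T.W
  congr 1
  apply intervalIntegral.integral_congr
  intro τ _
  simp only
  rw [capQ_psi, cos_phc hc0 hc1]

/-- **Half a turn around the first cap.** -/
theorem thP_pos (h : T.Prof b s χp χq) {c : ℝ} (hc0 : 0 < c) (hc1 : c < 1) (Θ₀ : ℝ) :
    (capP h).th c Θ₀ π = Θ₀ + T.FF χp c + 3 * π := by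
  rw [capP_th h hc0.ne' (by nlinarith), T.Wp_pos h hc0 hc1]
  ring

theorem thP_neg (h : T.Prof b s χp χq) {c : ℝ} (hc0 : c < 0) (hc1 : -1 < c) (Θ₀ : ℝ) :
    (capP h).th c Θ₀ π = Θ₀ + T.FF χp c - π := by
  rw [capP_th h hc0.ne (by nlinarith), T.Wp_neg h hc0 hc1]
  ring

/-- **Half a turn around a second cap.** -/
theorem thQ_pos (h : T.Prof b s χp χq) {x : ℝ} (hx0 : 0 < x) (hx1 : x < 1) (Θ₀ : ℝ) :
    (capQ h).th x Θ₀ π = Θ₀ + T.GG χq x := by
  rw [capQ_th h hx0.ne' (by nlinarith), T.Wq_pos h hx0 hx1]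

theorem thQ_neg (h : T.Prof b s χp χq) {x : ℝ} (hx0 : x < 0) (hx1 : -1 < x) (Θ₀ : ℝ) :
    (capQ h).th x Θ₀ π = Θ₀ + T.GG χq x - π := by
  rw [capQ_th h hx0.ne (by nlinarith), T.Wq_neg h hx0 hx1]
  ring

end

/-! ### the round part: the developed point runs along a great circle -/

/-- The longitude of the point of the round sphere. -/
noncomputable def lon (c τ : ℝ) : ℝ := ∫ s in (0 : ℝ)..τ, c / (1 - (1 - c ^ 2) * sin s ^ 2)

section

variable {c : ℝ}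

theorem cont_lon (hc0 : c ≠ 0) (hc1 : c ^ 2 < 1) :
    Continuous fun s => c / (1 - (1 - c ^ 2) * sin s ^ 2) := by
  apply continuous_const.div (by fun_prop)
  intro s
  exact (arc_den_pos hc0 hc1 s).ne'

theorem hasDerivAt_lon (hc0 : c ≠ 0) (hc1 : c ^ 2 < 1) (τ : ℝ) :
    HasDerivAt (lon c) (c / sin (phc c τ) ^ 2) τ := by
  have h1 : HasDerivAt (lon c) (c / (1 - (1 - c ^ 2) * sin τ ^ 2)) τ :=
    intervalIntegral.integral_hasDerivAt_right ((cont_lon hc0 hc1).intervalIntegrable _ _)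
      ((cont_lon hc0 hc1).stronglyMeasurableAtFilter _ _) (cont_lon hc0 hc1).continuousAt
  rwa [← sin_phc_sq hc0 hc1] at h1

/-- `cos τ + i c sin τ = sin φ e^{i δ}`. -/
theorem dev (hc0 : c ≠ 0) (hc1 : c ^ 2 < 1) (τ : ℝ) :
    sin (phc c τ) * cos (lon c τ) = cos τ ∧ sin (phc c τ) * sin (lon c τ) = c * sin τ := by
  -- the two functions
  set A : ℝ → ℝ := fun τ => (cos τ * cos (lon c τ) + c * sin τ * sin (lon c τ)) / sin (phc c τ)
    with hA
  set B : ℝ → ℝ := fun τ => (c * sin τ * cos (lon c τ) - cos τ * sin (lon c τ)) / sin (phc c τ)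
    with hB
  have hd : ∀ τ, HasDerivAt A 0 τ ∧ HasDerivAt B 0 τ := by
    intro τ
    have hs := sin_phc_pos hc0 hc1 τ
    have hs2 := sin_phc_sq hc0 hc1 τ
    have hq := sin_sq_add_cos_sq τ
    have d1 := hasDerivAt_lon hc0 hc1 τ
    have dC : HasDerivAt (fun τ => cos (lon c τ)) (-sin (lon c τ) * (c / sin (phc c τ) ^ 2)) τ :=
      (hasDerivAt_cos _).comp τ d1
    have dS : HasDerivAt (fun τ => sin (lon c τ)) (cos (lon c τ) * (c / sin (phc c τ) ^ 2)) τ :=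
      (hasDerivAt_sin _).comp τ d1
    have dc := hasDerivAt_cos τ
    have ds : HasDerivAt (fun τ => c * sin τ) (c * cos τ) τ := (hasDerivAt_sin τ).const_mul c
    have dφ : HasDerivAt (fun τ => sin (phc c τ)) (cos (phc c τ) * dphc c τ) τ :=
      (hasDerivAt_sin _).comp τ (hasDerivAt_phc hc0 hc1 τ)
    have e0 : cos (phc c τ) * dphc c τ = -((1 - c ^ 2) * sin τ * cos τ) / sin (phc c τ) := by
      unfold dphc
      rw [cos_phc hc0 hc1]
      have h1 := mul_self_sqrt (show (0 : ℝ) ≤ 1 - c ^ 2 by linarith)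
      have h2 : √(1 - c ^ 2) * sin τ * (-(√(1 - c ^ 2) * cos τ) / sin (phc c τ))
          = -((√(1 - c ^ 2) * √(1 - c ^ 2)) * sin τ * cos τ) / sin (phc c τ) := by ring
      rw [h2, h1]
    rw [e0] at dφ
    constructor
    · have h := ((dc.mul dC).add (ds.mul dS)).div dφ hs.ne'
      refine h.congr_deriv ?_
      rw [div_eq_zero_iff]
      left
      simp only [Pi.add_apply, Pi.mul_apply]
      field_simp
      rw [hs2]
      linear_combination (sin τ * cos (lon c τ) * (1 - c ^ 2)) * hq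
    · have h := ((ds.mul dC).sub (dc.mul dS)).div dφ hs.ne'
      refine h.congr_deriv ?_
      rw [div_eq_zero_iff]
      left
      simp only [Pi.sub_apply, Pi.mul_apply]
      field_simp
      rw [hs2]
      linear_combination (-(sin τ * sin (lon c τ)) * (1 - c ^ 2)) * hq
  have h0 : sin (phc c 0) = 1 := by
    have h1 := sin_phc_sq hc0 hc1 0
    have h2 := sin_phc_pos hc0 hc1 0
    rw [sin_zero] at h1
    nlinarith
  have hA1 : A τ = 1 := by
    have h1 := is_const_of_deriv_eq_zero (f := A) (fun x => (hd x).1.differentiableAt)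
      (fun x => (hd x).1.deriv) τ 0
    rw [h1]
    simp [hA, lon, h0]
  have hB1 : B τ = 0 := by
    have h1 := is_const_of_deriv_eq_zero (f := B) (fun x => (hd x).2.differentiableAt)
      (fun x => (hd x).2.deriv) τ 0
    rw [h1]
    simp [hB, lon]
  have hs := (sin_phc_pos hc0 hc1 τ).ne'
  simp only [hA] at hA1
  simp only [hB] at hB1
  rw [div_eq_one_iff_eq hs] at hA1
  rw [div_eq_zero_iff, or_iff_left hs] at hB1
  have hq := sin_sq_add_cos_sq (lon c τ)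
  constructor
  · linear_combination -cos (lon c τ) * hA1 + sin (lon c τ) * hB1 * (1 : ℝ) + cos τ * hq
  · linear_combination -sin (lon c τ) * hA1 - cos (lon c τ) * hB1 + c * sin τ * hq

theorem lon_pi_pos (hc0 : 0 < c) : lon c π = π := T.round_int hc0

theorem lon_pi_neg (hc0 : c < 0) : lon c π = -π := by
  have h1 := T.round_int (c := -c) (by linarith)
  unfold lon
  have h2 : ∀ s : ℝ, c / (1 - (1 - c ^ 2) * sin s ^ 2)
      = -((-c) / (1 - (1 - (-c) ^ 2) * sin s ^ 2)) := by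
    intro s
    rw [neg_sq, neg_div, neg_neg]
  simp only [h2]
  rw [intervalIntegral.integral_neg, h1]

/-- In the round part before the cap. -/
theorem Cap.th_round (K : Cap) {c : ℝ} (hc0 : c ≠ 0) (hc1 : c ^ 2 < 1) (Θ₀ : ℝ) {τ₁ τ₂ : ℝ}
    (h : ∀ s ∈ uIcc τ₁ τ₂, K.a ^ 2 ≤ 1 - (1 - c ^ 2) * sin s ^ 2) :
    K.th c Θ₀ τ₂ - K.th c Θ₀ τ₁ = lon c τ₂ - lon c τ₁ ∧ K.tt c τ₂ - K.tt c τ₁ = τ₂ - τ₁ := by
  have hψ : ∀ s ∈ uIcc τ₁ τ₂, K.psi (phc c s) = 1 := by
    intro s hs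
    apply K.psi_eq_one
    rw [sin_phc_sq hc0 hc1]
    exact h s hs
  constructor
  · have e1 : K.th c Θ₀ τ₂ - K.th c Θ₀ τ₁ = ∫ s in τ₁..τ₂, K.psi (phc c s) *
        (c / (1 - (1 - c ^ 2) * sin s ^ 2)) := by
      unfold Cap.th
      rw [add_sub_add_left_eq_sub]
      exact intervalIntegral.integral_interval_sub_left
        ((K.cont_th hc0 hc1).intervalIntegrable _ _) ((K.cont_th hc0 hc1).intervalIntegrable _ _)
    have e2 : lon c τ₂ - lon c τ₁ = ∫ s in τ₁..τ₂, (c / (1 - (1 - c ^ 2) * sin s ^ 2)) :=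
      intervalIntegral.integral_interval_sub_left
        ((cont_lon hc0 hc1).intervalIntegrable _ _) ((cont_lon hc0 hc1).intervalIntegrable _ _)
    rw [e1, e2]
    apply intervalIntegral.integral_congr
    intro s hs
    simp only
    rw [hψ s hs, one_mul]
  · have e1 : K.tt c τ₂ - K.tt c τ₁ = ∫ s in τ₁..τ₂, K.psi (phc c s) :=
      intervalIntegral.integral_interval_sub_left
        ((K.cont_psi_phc hc0 hc1).intervalIntegrable _ _)
        ((K.cont_psi_phc hc0 hc1).intervalIntegrable _ _)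
    rw [e1, intervalIntegral.integral_congr (g := fun _ => (1 : ℝ)) (fun s hs => hψ s hs)]
    simp

end

end Pool.Agent.Lib.MP_d2b992_gt.Erg
end

section
/-!
# Geodesic arcs on the sphere
-/
set_option autoImplicit false

namespace Pool.Agent.Lib.MP_d2b992_gt.Erg

open Set Filter Topology MeasureTheory Real
open scoped ContDiff InnerProductSpace

/-- The derivative of a chart is onto the tangent plane. -/
theorem chart_surj {Φ : ℝ × ℝ → R3} {a : ℝ × ℝ} (hΦ : DifferentiableAt ℝ Φ a)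
    (hn : ∀ᶠ b in 𝓝 a, ‖Φ b‖ = 1) (hinj : ∀ u, fderiv ℝ Φ a u = 0 → u = 0) {w : R3}
    (hw : ⟪Φ a, w⟫_ℝ = 0) : ∃ e, fderiv ℝ Φ a e = w := by
  set L := fderiv ℝ Φ a with hL
  have hna : ‖Φ a‖ = 1 := hn.self_of_nhds
  have h1 : ∀ u, ⟪Φ a, L u⟫_ℝ = 0 := by
    intro u
    have h2 : HasFDerivAt (fun b => ‖Φ b‖ ^ 2) _ a := hΦ.hasFDerivAt.norm_sq
    have h3 : (fun b => ‖Φ b‖ ^ 2) =ᶠ[𝓝 a] fun _ => (1 : ℝ) := by
      filter_upwards [hn] with b hb
      rw [hb, one_pow]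
    have h4 := h2.fderiv
    rw [h3.fderiv_eq, fderiv_fun_const] at h4
    have h5 := congrArg (fun T : ℝ × ℝ →L[ℝ] ℝ => T u) h4
    simp at h5
    exact h5
  have hne : Φ a ≠ 0 := by
    intro h
    rw [h, norm_zero] at hna
    exact zero_ne_one hna
  have : Fact (Module.finrank ℝ R3 = 2 + 1) := ⟨by simp⟩
  have hle : LinearMap.range (L : ℝ × ℝ →ₗ[ℝ] R3) ≤ (Submodule.span ℝ {Φ a})ᗮ := by
    rintro _ ⟨u, rfl⟩
    rw [Submodule.mem_orthogonal_singleton_iff_inner_right]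
    exact h1 u
  have hf1 : Module.finrank ℝ (LinearMap.range (L : ℝ × ℝ →ₗ[ℝ] R3)) = 2 := by
    rw [LinearMap.finrank_range_of_inj]
    · simp
    · intro u v huv
      have : L (u - v) = 0 := by
        rw [map_sub]
        exact sub_eq_zero.2 huv
      exact sub_eq_zero.1 (hinj _ this)
  have hf2 : Module.finrank ℝ ((Submodule.span ℝ {Φ a})ᗮ : Submodule ℝ R3) = 2 :=
    Submodule.finrank_orthogonal_span_singleton hne
  have heq := Submodule.eq_of_le_of_finrank_eq hle (hf1.trans hf2.symm)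
  have hmem : w ∈ LinearMap.range (L : ℝ × ℝ →ₗ[ℝ] R3) := by
    rw [heq, Submodule.mem_orthogonal_singleton_iff_inner_right]
    exact hw
  obtain ⟨e, he⟩ := hmem
  exact ⟨e, he⟩

/-- **Charts map solutions of the Euler-Lagrange equation to geodesic arcs.** -/
theorem geodesicOn_of_chart (M : SphereMetric) {Φ : ℝ × ℝ → R3} {U : Set (ℝ × ℝ)}
    (hU : IsOpen U) (hΦ : ContDiffOn ℝ ∞ Φ U) (hn : ∀ a ∈ U, ‖Φ a‖ = 1)
    {B : ℝ × ℝ → ℝ × ℝ → ℝ × ℝ → ℝ}
    (hB : ∀ a ∈ U, ∀ u v, M.g (Φ a) (fderiv ℝ Φ a u) (fderiv ℝ Φ a v) = B a u v)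
    (hpos : ∀ a ∈ U, ∀ u, u ≠ 0 → 0 < B a u u)
    {a : ℝ → ℝ × ℝ} {I : Set ℝ} (hI : IsOpen I) (ha : ContDiffOn ℝ ∞ a I)
    (haU : ∀ t ∈ I, a t ∈ U)
    (hsp : ∀ t ∈ I, B (a t) (deriv a t) (deriv a t) = 1)
    (hEL : ∀ t ∈ I, ∀ e, deriv (fun s => B (a s) (deriv a s) e) t =
      1 / 2 * fderiv ℝ (fun y => B y (deriv a t) (deriv a t)) (a t) e) :
    IsGeodesicOn M (fun t => Φ (a t)) I := by
  have hd : ∀ t ∈ I, deriv (fun t => Φ (a t)) t = fderiv ℝ Φ (a t) (deriv a t) := by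
    intro t ht
    have h1 : DifferentiableAt ℝ Φ (a t) :=
      (hΦ.contDiffAt (hU.mem_nhds (haU t ht))).differentiableAt (by simp)
    have h2 : DifferentiableAt ℝ a t := (ha.contDiffAt (hI.mem_nhds ht)).differentiableAt (by simp)
    exact (h1.hasFDerivAt.comp_hasDerivAt t h2.hasDerivAt).deriv
  refine ⟨hΦ.comp ha haU, fun t ht => hn _ (haU t ht), ?_, ?_⟩
  · intro t ht
    rw [hd t ht, hB _ (haU t ht)]
    exact hsp t ht
  · intro t ht w hw
    have h1 : DifferentiableAt ℝ Φ (a t) :=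
      (hΦ.contDiffAt (hU.mem_nhds (haU t ht))).differentiableAt (by simp)
    obtain ⟨e, he⟩ := chart_surj h1 (by
      filter_upwards [hU.mem_nhds (haU t ht)] with b hb using hn b hb) (by
      intro u hu
      by_contra h2
      have h3 := hpos _ (haU t ht) u h2
      rw [← hB _ (haU t ht), hu, g_zero] at h3
      exact lt_irrefl _ h3) hw
    rw [← he]
    exact (euler_iff M hU hΦ hn hB (ha.contDiffAt (hI.mem_nhds ht)) (haU t ht) e).2 (hEL t ht e)

theorem isOpen_DomP : IsOpen DomP := by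
  have h1 : IsOpen {q : ℝ × ℝ | q.1 ∈ Ioo 0 π} := isOpen_Ioo.preimage continuous_fst
  have h2 : IsOpen {q : ℝ × ℝ | sin q.1 * cos q.2 < 12 / 13} :=
    isOpen_lt (by fun_prop) continuous_const
  exact h1.inter h2

theorem isOpen_DomQ : IsOpen DomQ := by
  have h1 : IsOpen {q : ℝ × ℝ | q.1 ∈ Ioo 0 (π / 2)} := isOpen_Ioo.preimage continuous_fst
  have h2 : IsOpen {q : ℝ × ℝ | |sin q.1 * cos q.2| < 5 / 13} :=
    isOpen_lt (by fun_prop) continuous_const
  exact h1.inter h2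

theorem BB_pos (K : Cap) {p : ℝ × ℝ} (hp : p.1 ∈ Ioo 0 π) {u : ℝ × ℝ} (hu : u ≠ 0) :
    0 < BB K p u u := by
  unfold BB
  have h1 := K.psi_pos p.1
  have h2 : 0 < sin p.1 := sin_pos_of_mem_Ioo hp
  have h3 : 0 ≤ K.psi p.1 ^ 2 * (u.1 * u.1) := mul_nonneg (sq_nonneg _) (mul_self_nonneg _)
  have h4 : 0 ≤ sin p.1 ^ 2 * (u.2 * u.2) := mul_nonneg (sq_nonneg _) (mul_self_nonneg _)
  by_cases h5 : u.1 = 0
  · have h6 : u.2 ≠ 0 := fun h6 => hu (Prod.ext h5 h6)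
    have : 0 < sin p.1 ^ 2 * (u.2 * u.2) := mul_pos (by positivity) (mul_self_pos.2 h6)
    linarith
  · have : 0 < K.psi p.1 ^ 2 * (u.1 * u.1) := mul_pos (by positivity) (mul_self_pos.2 h5)
    linarith

/-- The explicit geodesic arcs in the first chart. -/
theorem arcP (C : Caps) {c : ℝ} (hc0 : c ≠ 0) (hc1 : c ^ 2 < 1) (Θ₀ : ℝ) :
    IsGeodesicOn C.metric (fun t => chP C (C.P.arc c Θ₀ t)) {t | C.P.arc c Θ₀ t ∈ DomP} := by
  apply geodesicOn_of_chart C.metric isOpen_DomP ((contDiffOn_chP C).mono fun q hq => hq.1)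
    (fun a _ => norm_chP C a) (B := BB C.P) (fun a ha u v => pull_P' C ha u v)
    (fun a ha u hu => BB_pos C.P ha.1 hu)
  · exact isOpen_DomP.preimage (C.P.contDiff_arc hc0 hc1 Θ₀).continuous
  · exact (C.P.contDiff_arc hc0 hc1 Θ₀).contDiffOn
  · exact fun t ht => ht
  · exact fun t _ => C.P.arc_speed hc0 hc1 Θ₀ t
  · exact fun t _ e => C.P.arc_euler hc0 hc1 Θ₀ t e

/-- The explicit geodesic arcs in the second charts. -/
theorem arcQ (C : Caps) {e : ℝ} (he : e = 1 ∨ e = -1) {c : ℝ} (hc0 : c ≠ 0) (hc1 : c ^ 2 < 1)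
    (Θ₀ : ℝ) :
    IsGeodesicOn C.metric (fun t => chQ C e (C.Q.arc c Θ₀ t)) {t | C.Q.arc c Θ₀ t ∈ DomQ} := by
  apply geodesicOn_of_chart C.metric isOpen_DomQ ((contDiffOn_chQ C e).mono fun q hq => hq.1)
    (fun a _ => norm_chQ C e a) (B := BB C.Q) (fun a ha u v => pull_Q C he ha u v)
    (fun a ha u hu => BB_pos C.Q ⟨ha.1.1, by linarith [ha.1.2, pi_pos]⟩ hu)
  · exact isOpen_DomQ.preimage (C.Q.contDiff_arc hc0 hc1 Θ₀).continuous
  · exact (C.Q.contDiff_arc hc0 hc1 Θ₀).contDiffOn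
  · exact fun t ht => ht
  · exact fun t _ => C.Q.arc_speed hc0 hc1 Θ₀ t
  · exact fun t _ e => C.Q.arc_euler hc0 hc1 Θ₀ t e

end Pool.Agent.Lib.MP_d2b992_gt.Erg
end

section
/-!
# The transition between the two charts
-/
namespace Pool.Agent.Lib.MP_d2b992_gt.Erg

open Set Filter Topology MeasureTheory Real
open scoped ContDiff InnerProductSpace

theorem cosh_cc (p : ℝ × ℝ) : (Complex.cosh (cc p / 2)).re = cosh (p.1 / 2) * cos (p.2 / 2) ∧ 
    (Complex.cosh (cc p / 2)).im = sinh (p.1 / 2) * sin (p.2 / 2) := by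
  have h : cc p / 2 = ((p.1 / 2 : ℝ) : ℂ) + ((p.2 / 2 : ℝ) : ℂ) * Complex.I := by
    rw [cc_apply]; push_cast; ring
  rw [h, Complex.cosh_add, Complex.cosh_mul_I, Complex.sinh_mul_I]
  generalize p.1 / 2 = x
  generalize p.2 / 2 = t
  rw [← Complex.ofReal_cosh, ← Complex.ofReal_sinh, ← Complex.ofReal_cos, ← Complex.ofReal_sin]
  constructor
  · simp only [Complex.add_re, Complex.mul_re, Complex.ofReal_re, Complex.ofReal_im, Complex.I_re, 
      Complex.I_im, Complex.mul_im]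
    ring
  · simp only [Complex.add_im, Complex.mul_re, Complex.ofReal_re, Complex.ofReal_im, Complex.I_re, 
      Complex.I_im, Complex.mul_im]
    ring

/-- The first chart in terms of the stereographic coordinate. -/
theorem Xi_eq_stc (p : ℝ × ℝ) (h : Complex.cosh (cc p / 2) ≠ 0) : 
    Xi p = stc (1 / Complex.cosh (cc p / 2)) := by
  obtain ⟨h1, h2⟩ := cosh_cc p
  obtain ⟨x0, x1, x2⟩ := Xi_apply p
  have hW := Wd_pos p
  have hWd : Wd p = cosh (p.1 / 2) ^ 2 + cos (p.2 / 2) ^ 2 := rfl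
  have s1 := cosh_sq (p.1 / 2)
  have s2 := sin_sq_add_cos_sq (p.2 / 2)
  set c := Complex.cosh (cc p / 2) with hc
  have hn : c.re * c.re + c.im * c.im = Wd p - 1 := by
    rw [h1, h2, hWd]
    set a := cosh (p.1 / 2)
    set b := sinh (p.1 / 2)
    set x := cos (p.2 / 2)
    set d := sin (p.2 / 2)
    have s1' : b ^ 2 = a ^ 2 - 1 := by linarith
    have s2' : d ^ 2 = 1 - x ^ 2 := by linarith
    have : a * x * (a * x) + b * d * (b * d) = a ^ 2 * x ^ 2 + b ^ 2 * d ^ 2 := by ring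
    rw [this, s1', s2']
    ring
  have hnpos : 0 < Wd p - 1 := by
    rw [← hn, ← Complex.normSq_apply]
    exact Complex.normSq_pos.2 h
  set q : ℝ × ℝ := Complex.equivRealProdCLM (1 / c) with hq
  have q1 : q.1 = c.re / (Wd p - 1) := by
    have : q.1 = (1 / c).re := rfl
    rw [this, one_div, Complex.inv_re, Complex.normSq_apply, hn]
  have q2 : q.2 = -c.im / (Wd p - 1) := by
    have : q.2 = (1 / c).im := rfl
    rw [this, one_div, Complex.inv_im, Complex.normSq_apply, hn]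
  have hI : II q = (Wd p - 1) / Wd p := by
    have h3 : 1 + q.1 ^ 2 + q.2 ^ 2 = Wd p / (Wd p - 1) := by
      rw [q1, q2, div_pow, div_pow]
      have : c.re ^ 2 + (-c.im) ^ 2 = Wd p - 1 := by rw [← hn]; ring
      have h4 : 1 + c.re ^ 2 / (Wd p - 1) ^ 2 + (-c.im) ^ 2 / (Wd p - 1) ^ 2 = 
          1 + (c.re ^ 2 + (-c.im) ^ 2) / (Wd p - 1) ^ 2 := by ring
      rw [h4, this]
      field_simp
      ring
    unfold II
    rw [h3, inv_div]
  obtain ⟨y0, y1, y2⟩ := stereo_one_apply 1 q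
  have hst : stc (1 / c) = stereo 1 q := rfl
  rw [hst]
  apply ext3
  · rw [x0, y0, q1, hI, h1]
    field_simp
  · rw [x1, y1, q2, hI, h2]
    field_simp
  · rw [x2, y2, hI]
    field_simp
    ring

/-- The conformal coordinates in terms of the developed point. -/
theorem exp_cc {K : Cap} {φ Θ : ℝ} (h : φ ∈ Ioo 0 π) (ha : K.a ≤ sin φ) : 
    Complex.exp (cc (K.rho φ, Θ)) = 
      ((sin φ * cos Θ : ℝ) + (sin φ * sin Θ : ℝ) * Complex.I) / ((1 + cos φ : ℝ) : ℂ) := by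
  rw [cc_apply, Complex.exp_add, ← Complex.ofReal_exp, K.exp_rho h ha, Complex.exp_mul_I]
  push_cast
  ring

/-- **The transition between the charts.** -/
theorem trans (C : Caps) {φ Θ φ' Θ' e : ℝ} (h : φ ∈ Ioo 0 π) (h1 : |cos φ| ≤ 5 / 13) 
    (h2 : sin φ * cos Θ ≤ 12 / 13) (h' : φ' ∈ Ioo 0 (π / 2)) 
    (e1 : sin φ * cos Θ = cos φ') (e2 : sin φ * sin Θ = -(sin φ' * sin Θ')) 
    (e3 : cos φ = sin φ' * cos Θ') (he : e = 1 ∨ e = -1) (hs : 0 < e * cos (Θ / 2)) : 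
    chP C (φ, Θ) = chQ C e (φ', Θ') := by
  have hφ' : φ' ∈ Ioo 0 π := ⟨h'.1, by linarith [h'.2, pi_pos]⟩
  have s0 : 0 < sin φ := sin_pos_of_pos_of_lt_pi h.1 h.2
  have s0' : 0 < sin φ' := sin_pos_of_pos_of_lt_pi hφ'.1 hφ'.2
  have c0' : 0 < cos φ' := cos_pos_of_mem_Ioo ⟨by linarith [h'.1, pi_pos], h'.2⟩
  have t1 := sin_sq_add_cos_sq φ
  have t2 := sin_sq_add_cos_sq φ'
  have t3 := sin_sq_add_cos_sq Θ
  have hsin : C.P.a ≤ sin φ := by
    rw [C.Pa]
    obtain ⟨a1, a2⟩ := abs_le.1 h1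
    have : cos φ ^ 2 ≤ (5 / 13) ^ 2 := by nlinarith
    nlinarith
  have hsin' : C.Q.a ≤ sin φ' := by
    rw [C.Qa]
    have : cos φ' ^ 2 ≤ (12 / 13) ^ 2 := by nlinarith
    nlinarith
  have c1 : 0 < 1 + cos φ := by
    have := (abs_le.1 h1).1
    linarith
  -- the conformal coordinates
  set y := Complex.exp (cc (C.P.rho φ, Θ)) with hy
  set z := Complex.exp (cc (C.Q.rho φ', Θ')) with hz
  have hy2 := exp_cc (K := C.P) (Θ := Θ) h hsin
  have hz2 := exp_cc (K := C.Q) (Θ := Θ') hφ' hsin'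
  rw [← hy] at hy2
  rw [← hz] at hz2
  have hsum : (sin φ * cos Θ) ^ 2 + (sin φ * sin Θ) ^ 2 + cos φ ^ 2 = 1 := by
    have : (sin φ * cos Θ) ^ 2 + (sin φ * sin Θ) ^ 2 = sin φ ^ 2 * (sin Θ ^ 2 + cos Θ ^ 2) := by ring
    rw [this, t3]; linarith
  have c1C : ((1 + cos φ : ℝ) : ℂ) ≠ 0 := by exact_mod_cast c1.ne'
  have c2C : ((1 + cos φ' : ℝ) : ℂ) ≠ 0 := by exact_mod_cast (by linarith : (1:ℝ) + cos φ' ≠ 0)
  have hrel : z * (1 + y) = 1 - y := by
    rw [hy2, hz2]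
    have e2' : sin φ' * sin Θ' = -(sin φ * sin Θ) := by linarith
    rw [e2', ← e3, ← e1]
    set Y1 := sin φ * cos Θ
    set Y2 := sin φ * sin Θ
    set Y3 := cos φ
    have c3 : ((1 + Y1 : ℝ) : ℂ) ≠ 0 := by rw [e1]; exact c2C
    have hsumC : (Y1 : ℂ) ^ 2 + (Y2 : ℂ) ^ 2 + (Y3 : ℂ) ^ 2 = 1 := by exact_mod_cast hsum
    have hI : Complex.I ^ 2 = -1 := Complex.I_sq
    field_simp
    push_cast
    linear_combination hsumC - (Y2 : ℂ) ^ 2 * hI
  -- the square of the stereographic coordinate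
  have hyne : y ≠ 0 := Complex.exp_ne_zero _
  have hy1 : 1 + y ≠ 0 := by
    intro h3
    rw [h3, mul_zero] at hrel
    have : (2 : ℂ) = 0 := by linear_combination h3 - hrel
    norm_num at this
  have hcosh : Complex.cosh (cc (C.P.rho φ, Θ) / 2) ^ 2 * (4 * y) = (1 + y) ^ 2 := by
    rw [Complex.cosh]
    set v := cc (C.P.rho φ, Θ) / 2 with hv
    have g1 : y = Complex.exp v ^ 2 := by
      rw [hy, ← Complex.exp_nat_mul, hv]
      congr 1
      push_cast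
      ring
    have g2 : Complex.exp v * Complex.exp (-v) = 1 := by rw [← Complex.exp_add]; simp
    rw [g1]
    have : ((Complex.exp v + Complex.exp (-v)) / 2) ^ 2 * (4 * Complex.exp v ^ 2) = 
        (Complex.exp v ^ 2 + Complex.exp v * Complex.exp (-v)) ^ 2 := by ring
    rw [this, g2]
    ring
  have hcne : Complex.cosh (cc (C.P.rho φ, Θ) / 2) ≠ 0 := by
    intro h3
    rw [h3] at hcosh
    have : (1 + y) ^ 2 = 0 := by linear_combination -hcosh
    exact hy1 (pow_eq_zero_iff two_ne_zero |>.1 this)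
  have hre : (cc (C.Q.rho φ', Θ')).re < 0 := by
    rw [cc_re]; exact C.Q.rho_neg h'.1 h'.2
  have hsq : (1 / Complex.cosh (cc (C.P.rho φ, Θ) / 2)) ^ 2 = 
      ((e : ℂ) * zq (cc (C.Q.rho φ', Θ'))) ^ 2 := by
    rw [(cc_mul_e he _).1, zq_sq hre]
    have g1 : Complex.exp (2 * cc (C.Q.rho φ', Θ')) = z ^ 2 := by
      rw [hz, ← Complex.exp_nat_mul]; push_cast; rfl
    rw [g1]
    have g2 : z = (1 - y) / (1 + y) := by rw [eq_div_iff hy1]; exact hrel
    rw [g2, one_div, inv_pow]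
    have g3 : Complex.cosh (cc (C.P.rho φ, Θ) / 2) ^ 2 = (1 + y) ^ 2 / (4 * y) := by
      rw [eq_div_iff (by simpa using hyne)]; exact hcosh
    rw [g3, inv_div]
    field_simp
    ring
  have hkey : 1 / Complex.cosh (cc (C.P.rho φ, Θ) / 2) = (e : ℂ) * zq (cc (C.Q.rho φ', Θ')) := by
    rcases sq_eq_sq_iff_eq_or_eq_neg.1 hsq with h3 | h3
    · exact h3
    · exfalso
      have h4 : e * (1 / Complex.cosh (cc (C.P.rho φ, Θ) / 2)).re = 
          e * (-((e : ℂ) * zq (cc (C.Q.rho φ', Θ')))).re := by rw [h3]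
      have h5 := zq_re hre
      obtain ⟨g1, g2⟩ := cosh_cc (C.P.rho φ, Θ)
      rw [one_div, Complex.inv_re, g1] at h4
      have h6 : e * (cosh (C.P.rho φ / 2) * cos (Θ / 2) / 
          Complex.normSq (Complex.cosh (cc (C.P.rho φ, Θ) / 2))) = 
          (e * cos (Θ / 2)) * (cosh (C.P.rho φ / 2) / 
            Complex.normSq (Complex.cosh (cc (C.P.rho φ, Θ) / 2))) := by ring
      have h7 : 0 < cosh (C.P.rho φ / 2) / 
          Complex.normSq (Complex.cosh (cc (C.P.rho φ, Θ) / 2)) := 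
        div_pos (cosh_pos _) (Complex.normSq_pos.2 hcne)
      have h8 : e * (-((e : ℂ) * zq (cc (C.Q.rho φ', Θ')))).re = -(zq (cc (C.Q.rho φ', Θ'))).re := by
        rcases he with rfl | rfl <;> simp
      rw [h8] at h4
      rw [h6] at h4
      have h9 := mul_pos hs h7
      linarith
  have : chP C (φ, Θ) = Xi (C.P.rho φ, Θ) := rfl
  rw [this, Xi_eq_stc _ hcne, hkey]
  rfl

end Pool.Agent.Lib.MP_d2b992_gt.Erg
end
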