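import Mathlib
import Pool.Agent.Lib.MP_d2b992_gt.Erg.Trans
import Pool.Agent.Lib.MP_d2b992_gt.Erg.GeoSpec

section
/-!
# Integrals which depend smoothly on parameters
-/
set_option autoImplicit false

namespace Pool.Agent.Lib.MP_d2b992_gt.Erg

open Set Filter Topology MeasureTheory Real
open scoped ContDiff

variable {E : Type} [NormedAddCommGroup E] [NormedSpace ℝ E] {U : Set E}

theorem param_cont {F : Type} [NormedAddCommGroup F] {g : E × ℝ → F}
    (hg : ContinuousOn g (U ×ˢ univ)) {y : E} (hy : y ∈ U) : Continuous fun s : ℝ => g (y, s) := by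
  rw [← continuousOn_univ]
  exact hg.comp (by fun_prop) (fun s _ => ⟨hy, mem_univ _⟩)

theorem param_hasFDerivAt [ProperSpace E] (hU : IsOpen U) {F : Type} [NormedAddCommGroup F]
    [NormedSpace ℝ F] {f : E × ℝ → F} (hf : ContDiffOn ℝ ∞ f (U ×ˢ univ)) {x : E} (hx : x ∈ U) :
    HasFDerivAt (fun x => ∫ s in (0 : ℝ)..1, f (x, s))
      (∫ s in (0 : ℝ)..1, (fderiv ℝ f (x, s)).comp (ContinuousLinearMap.inl ℝ E ℝ)) x := by
  have hO : IsOpen (U ×ˢ (univ : Set ℝ)) := hU.prod isOpen_univ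
  obtain ⟨ε, hε, hball⟩ := Metric.nhds_basis_closedBall.mem_iff.1 (hU.mem_nhds hx)
  set g : E × ℝ → E →L[ℝ] F := fun p => (fderiv ℝ f p).comp (ContinuousLinearMap.inl ℝ E ℝ)
    with hg
  have hgc : ContinuousOn g (U ×ˢ univ) := by
    have h1 : ContinuousOn (fderiv ℝ f) (U ×ˢ univ) :=
      hf.continuousOn_fderiv_of_isOpen hO (by exact_mod_cast le_top)
    exact h1.clm_comp continuousOn_const
  have hK : IsCompact (Metric.closedBall x ε ×ˢ Icc (0 : ℝ) 1) :=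
    (isCompact_closedBall x ε).prod isCompact_Icc
  obtain ⟨C, hC⟩ := hK.exists_bound_of_continuousOn
    (hgc.mono (prod_mono hball (subset_univ _)))
  apply intervalIntegral.hasFDerivAt_integral_of_dominated_of_fderiv_le
    (F := fun x s => f (x, s)) (F' := fun x s => g (x, s)) (bound := fun _ => C)
    (s := Metric.ball x ε) (Metric.ball_mem_nhds x hε)
  · filter_upwards [hU.mem_nhds hx] with y hy
    exact (param_cont hf.continuousOn hy).aestronglyMeasurable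
  · exact (param_cont hf.continuousOn hx).intervalIntegrable _ _
  · exact (param_cont hgc hx).aestronglyMeasurable
  · refine Eventually.of_forall fun s hs y hy => ?_
    rw [uIoc_of_le zero_le_one, mem_Ioc] at hs
    exact hC (y, s) ⟨Metric.ball_subset_closedBall hy, ⟨hs.1.le, hs.2⟩⟩
  · exact intervalIntegrable_const
  · refine Eventually.of_forall fun s _ y hy => ?_
    have hyU : y ∈ U := hball (Metric.ball_subset_closedBall hy)
    have h1 : HasFDerivAt f (fderiv ℝ f (y, s)) (y, s) :=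
      ((hf.contDiffAt (hO.mem_nhds ⟨hyU, mem_univ _⟩)).differentiableAt (by simp)).hasFDerivAt
    have h2 : HasFDerivAt (fun y : E => (y, s)) (ContinuousLinearMap.inl ℝ E ℝ) y :=
      hasFDerivAt_prodMk_left y s
    exact h1.comp y h2

theorem param_aux [ProperSpace E] (hU : IsOpen U) (n : ℕ) : ∀ (F : Type) [NormedAddCommGroup F]
    [NormedSpace ℝ F] (f : E × ℝ → F), ContDiffOn ℝ ∞ f (U ×ˢ univ) →
      ContDiffOn ℝ n (fun x => ∫ s in (0 : ℝ)..1, f (x, s)) U := by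
  induction n with
  | zero =>
    intro F _ _ f hf
    rw [Nat.cast_zero, contDiffOn_zero]
    exact fun x hx => (param_hasFDerivAt hU hf hx).continuousAt.continuousWithinAt
  | succ n ih =>
    intro F _ _ f hf
    have hO : IsOpen (U ×ˢ (univ : Set ℝ)) := hU.prod isOpen_univ
    rw [Nat.cast_succ, contDiffOn_succ_iff_fderiv_of_isOpen hU]
    refine ⟨fun x hx => (param_hasFDerivAt hU hf hx).differentiableAt.differentiableWithinAt,
      fun h => absurd h (by simp), ?_⟩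
    have h1 : ContDiffOn ℝ ∞ (fun p => (fderiv ℝ f p).comp (ContinuousLinearMap.inl ℝ E ℝ))
        (U ×ˢ univ) := by
      have h2 : ContDiffOn ℝ ∞ (fderiv ℝ f) (U ×ˢ univ) := hf.fderiv_of_isOpen hO (by simp)
      exact h2.clm_comp contDiffOn_const
    exact (ih _ _ h1).congr fun x hx => (param_hasFDerivAt hU hf hx).fderiv

/-- **Integrals over `[0, 1]` depend smoothly on the parameters.** -/
theorem param [ProperSpace E] (hU : IsOpen U) {F : Type} [NormedAddCommGroup F]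
    [NormedSpace ℝ F] {f : E × ℝ → F} (hf : ContDiffOn ℝ ∞ f (U ×ˢ univ)) :
    ContDiffOn ℝ ∞ (fun x => ∫ s in (0 : ℝ)..1, f (x, s)) U :=
  contDiffOn_infty.2 fun n => param_aux hU n F f hf

/-- **Integrals from `0` to `t` depend smoothly on `t` and on the parameters.** -/
theorem param_primitive {V : Set ℝ} (hV : IsOpen V) {f : ℝ × ℝ → ℝ}
    (hf : ContDiffOn ℝ ∞ f (V ×ˢ univ)) :
    ContDiffOn ℝ ∞ (fun q : ℝ × ℝ => ∫ s in (0 : ℝ)..q.2, f (q.1, s)) (V ×ˢ univ) := by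
  have hO : IsOpen (V ×ˢ (univ : Set ℝ)) := hV.prod isOpen_univ
  have h1 : ContDiffOn ℝ ∞ (fun p : (ℝ × ℝ) × ℝ => p.1.2 * f (p.1.1, p.2 * p.1.2))
      ((V ×ˢ univ) ×ˢ univ) := by
    apply ContDiffOn.mul
    · exact (contDiff_snd.comp contDiff_fst).contDiffOn
    · apply hf.comp (t := V ×ˢ univ)
      · exact ((contDiff_fst.comp contDiff_fst).prodMk
          (contDiff_snd.mul (contDiff_snd.comp contDiff_fst))).contDiffOn
      · intro p hp
        exact ⟨hp.1.1, mem_univ _⟩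
  have h2 := param hO h1
  refine h2.congr fun q _ => ?_
  simp only
  rw [intervalIntegral.integral_const_mul]
  have := intervalIntegral.mul_integral_comp_mul_right (a := (0 : ℝ)) (b := 1)
    (f := fun s => f (q.1, s)) q.2
  simpa using this.symm

end Pool.Agent.Lib.MP_d2b992_gt.Erg
end

section
/-!
# The explicit geodesics: smooth dependence on all variables, all unit vectors are reached
-/
set_option autoImplicit false

namespace Pool.Agent.Lib.MP_d2b992_gt.Erg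

open Set Filter Topology MeasureTheory Real
open scoped ContDiff

/-- Clairaut's constants of the explicit geodesics. -/
def VV : Set ℝ := {c | c ≠ 0 ∧ c ^ 2 < 1}

theorem isOpen_VV : IsOpen VV := by
  have h1 : IsOpen {c : ℝ | c ≠ 0} := isOpen_ne
  have h2 : IsOpen {c : ℝ | c ^ 2 < 1} := isOpen_lt (by fun_prop) continuous_const
  exact h1.inter h2

theorem contDiffAt_X {q : ℝ × ℝ} (hq : q.1 ∈ VV) :
    ContDiffAt ℝ ∞ (fun q : ℝ × ℝ => √(1 - q.1 ^ 2)) q := by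
  apply ContDiffAt.sqrt
  · exact (contDiff_const.sub (contDiff_fst.pow 2)).contDiffAt
  · have := hq.2
    intro h
    linarith

theorem contDiffOn_phc : ContDiffOn ℝ ∞ (fun q : ℝ × ℝ => phc q.1 q.2) (VV ×ˢ univ) := by
  rintro q ⟨hq, _⟩
  have h := abs_lt.1 (X_lt hq.1 hq.2 q.2)
  have h1 : ContDiffAt ℝ ∞ arccos (√(1 - q.1 ^ 2) * sin q.2) := contDiffAt_arccos h.1.ne' h.2.ne
  have h2 : ContDiffAt ℝ ∞ (fun q : ℝ × ℝ => √(1 - q.1 ^ 2) * sin q.2) q :=
    (contDiffAt_X hq).mul (contDiff_sin.comp contDiff_snd).contDiffAt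
  exact (ContDiffAt.comp (g := arccos) q h1 h2).contDiffWithinAt

theorem contDiffOn_sin_phc :
    ContDiffOn ℝ ∞ (fun q : ℝ × ℝ => sin (phc q.1 q.2)) (VV ×ˢ univ) :=
  contDiff_sin.comp_contDiffOn contDiffOn_phc

theorem contDiffOn_dphc : ContDiffOn ℝ ∞ (fun q : ℝ × ℝ => dphc q.1 q.2) (VV ×ˢ univ) := by
  apply ContDiffOn.div
  · rintro q ⟨hq, _⟩
    exact ((contDiffAt_X hq).mul (contDiff_cos.comp contDiff_snd).contDiffAt).neg.contDiffWithinAt
  · exact contDiffOn_sin_phc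
  · rintro q ⟨hq, _⟩
    exact (sin_phc_pos hq.1 hq.2 q.2).ne'

namespace Cap

variable (K : Cap)

theorem contDiffOn_psi_phc :
    ContDiffOn ℝ ∞ (fun q : ℝ × ℝ => K.psi (phc q.1 q.2)) (VV ×ˢ univ) :=
  K.contDiff_psi.comp_contDiffOn contDiffOn_phc

theorem contDiffOn_tt : ContDiffOn ℝ ∞ (fun q : ℝ × ℝ => K.tt q.1 q.2) (VV ×ˢ univ) :=
  param_primitive isOpen_VV K.contDiffOn_psi_phc

theorem th_eq (c Θ₀ τ : ℝ) : K.th c Θ₀ τ = Θ₀ + K.th c 0 τ := by
  unfold th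
  ring

theorem contDiffOn_th : ContDiffOn ℝ ∞ (fun q : ℝ × ℝ => K.th q.1 0 q.2) (VV ×ˢ univ) := by
  have h1 : ContDiffOn ℝ ∞ (fun q : ℝ × ℝ => K.psi (phc q.1 q.2) *
      (q.1 / (1 - (1 - q.1 ^ 2) * sin q.2 ^ 2))) (VV ×ˢ univ) := by
    apply K.contDiffOn_psi_phc.mul
    apply ContDiffOn.div contDiff_fst.contDiffOn
    · exact (contDiff_const.sub ((contDiff_const.sub (contDiff_fst.pow 2)).mul
        ((contDiff_sin.comp contDiff_snd).pow 2))).contDiffOn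
    · rintro q ⟨hq, _⟩
      exact (arc_den_pos hq.1 hq.2 q.2).ne'
  have h2 := param_primitive isOpen_VV h1
  refine h2.congr fun q _ => ?_
  simp only [th, zero_add]

/-- The point and the velocity of the explicit geodesic: `q = (c, Θ₀, τ)`. -/
noncomputable def pv (q : ℝ × ℝ × ℝ) : (ℝ × ℝ) × (ℝ × ℝ) :=
  ((phc q.1 q.2.2, K.th q.1 q.2.1 q.2.2),
    (dphc q.1 q.2.2 / K.psi (phc q.1 q.2.2), q.1 / sin (phc q.1 q.2.2) ^ 2))

theorem pv_arc {c : ℝ} (hc : c ∈ VV) (Θ₀ t : ℝ) :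
    K.pv (c, Θ₀, K.tau c t) = (K.arc c Θ₀ t, deriv (K.arc c Θ₀) t) := by
  rw [(K.hasDerivAt_arc hc.1 hc.2 Θ₀ t).deriv]
  rfl

theorem pv_tt {c : ℝ} (hc : c ∈ VV) (Θ₀ τ : ℝ) :
    K.pv (c, Θ₀, τ) = (K.arc c Θ₀ (K.tt c τ), deriv (K.arc c Θ₀) (K.tt c τ)) := by
  rw [← K.pv_arc hc, K.tau_tt hc.1 hc.2]

theorem contDiffOn_pv : ContDiffOn ℝ ∞ K.pv {q | q.1 ∈ VV} := by
  have hm : ContDiffOn ℝ ∞ (fun q : ℝ × ℝ × ℝ => (q.1, q.2.2)) {q | q.1 ∈ VV} :=
    (contDiff_fst.prodMk (contDiff_snd.comp contDiff_snd)).contDiffOn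
  have hmap : MapsTo (fun q : ℝ × ℝ × ℝ => (q.1, q.2.2)) {q | q.1 ∈ VV} (VV ×ˢ univ) :=
    fun q hq => ⟨hq, mem_univ _⟩
  have h1 := contDiffOn_phc.comp hm hmap
  have h2 := K.contDiffOn_th.comp hm hmap
  have h3 := contDiffOn_dphc.comp hm hmap
  have h4 := K.contDiffOn_psi_phc.comp hm hmap
  have h5 := contDiffOn_sin_phc.comp hm hmap
  apply ContDiffOn.prodMk
  · apply ContDiffOn.prodMk
    · exact h1
    · have h6 : ContDiffOn ℝ ∞ (fun q : ℝ × ℝ × ℝ => q.2.1 + K.th q.1 0 q.2.2) {q | q.1 ∈ VV} :=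
        (contDiff_fst.comp contDiff_snd).contDiffOn.add h2
      exact h6.congr fun q _ => K.th_eq _ _ _
  · apply ContDiffOn.prodMk
    · exact h3.div h4 fun q _ => (K.psi_pos _).ne'
    · exact contDiff_fst.contDiffOn.div (h5.pow 2) fun q hq =>
        pow_ne_zero 2 (sin_phc_pos hq.1 hq.2 _).ne'

/-- **All unit vectors which are not meridional and not equatorial are reached.** -/
theorem pv_surj {p v : ℝ × ℝ} (hp : p.1 ∈ Ioo 0 π) (hv : BB K p v v = 1)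
    (hc : sin p.1 ^ 2 * v.2 ∈ VV) : ∃ Θ₀ τ, K.pv (sin p.1 ^ 2 * v.2, Θ₀, τ) = (p, v) := by
  set c := sin p.1 ^ 2 * v.2 with hcdef
  have hs : 0 < sin p.1 := sin_pos_of_mem_Ioo hp
  have hr2 : √(1 - c ^ 2) ^ 2 = 1 - c ^ 2 := sq_sqrt (by linarith [hc.2])
  have hr : 0 < √(1 - c ^ 2) := sqrt_pos.2 (by linarith [hc.2])
  have hq := sin_sq_add_cos_sq p.1
  have hv' : K.psi p.1 ^ 2 * (v.1 * v.1) + sin p.1 ^ 2 * (v.2 * v.2) = 1 := hv
  -- the angle
  set x : ℝ := -(K.psi p.1 * v.1 * sin p.1) / √(1 - c ^ 2) with hx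
  set y : ℝ := cos p.1 / √(1 - c ^ 2) with hy
  have hxy : x ^ 2 + y ^ 2 = 1 := by
    rw [hx, hy, div_pow, div_pow, hr2, ← add_div, div_eq_one_iff_eq (by linarith [hc.2])]
    rw [hcdef]
    linear_combination sin p.1 ^ 2 * hv' + hq
  obtain ⟨τ, hτ1, hτ2⟩ : ∃ τ : ℝ, cos τ = x ∧ sin τ = y := by
    refine ⟨Complex.arg ⟨x, y⟩, ?_, ?_⟩
    · rw [Complex.cos_arg]
      · have : ‖(⟨x, y⟩ : ℂ)‖ = 1 := by
          rw [Complex.norm_def, Complex.normSq_mk]
          rw [show x * x + y * y = 1 by linarith, sqrt_one]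
        rw [this, div_one]
      · intro h
        have h1 := congrArg Complex.re h
        have h2 := congrArg Complex.im h
        simp only [Complex.zero_re, Complex.zero_im] at h1 h2
        rw [h1, h2] at hxy
        norm_num at hxy
    · rw [Complex.sin_arg]
      have : ‖(⟨x, y⟩ : ℂ)‖ = 1 := by
        rw [Complex.norm_def, Complex.normSq_mk]
        rw [show x * x + y * y = 1 by linarith, sqrt_one]
      rw [this, div_one]
  have hφ : phc c τ = p.1 := by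
    unfold phc
    rw [hτ2, hy, mul_div_cancel₀ _ hr.ne', arccos_cos hp.1.le hp.2.le]
  refine ⟨p.2 - K.th c 0 τ, τ, ?_⟩
  unfold pv
  simp only
  rw [hφ, K.th_eq]
  apply Prod.ext
  · apply Prod.ext
    · rfl
    · simp
  · apply Prod.ext
    · simp only
      unfold dphc
      rw [hφ, hτ1, hx]
      have h1 := (K.psi_pos p.1).ne'
      have h2 := hr.ne'
      field_simp
    · simp only
      rw [hcdef]
      field_simp

end Cap

end Pool.Agent.Lib.MP_d2b992_gt.Erg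
end

section
/-!
# SMP: smoothness of the families of unit vectors
-/
set_option autoImplicit false

namespace Pool.Agent.Lib.MP_d2b992_gt.Erg

open Set Filter Topology Real MeasureTheory Dyn
open scoped ContDiff InnerProductSpace

namespace SmpM

theorem isOpen_VV3 : IsOpen {q : ℝ × ℝ × ℝ | q.1 ∈ VV} := isOpen_VV.preimage continuous_fst

/-- the general family -/
theorem gen (K : Cap) {Φ : ℝ × ℝ → R3} {U : Set (ℝ × ℝ)} (hU : IsOpen U)
    (hΦ : ContDiffOn ℝ ∞ Φ U) {q : ℝ × ℝ × ℝ} (hq : q.1 ∈ VV)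
    (hqU : (phc q.1 q.2.2, K.th q.1 q.2.1 q.2.2) ∈ U) :
    ContDiffAt ℝ 1 (fun q : ℝ × ℝ × ℝ => (Φ (phc q.1 q.2.2, K.th q.1 q.2.1 q.2.2),
      fderiv ℝ Φ (phc q.1 q.2.2, K.th q.1 q.2.1 q.2.2) (velK K q.1 q.2.2))) q := by
  have h1 : ContDiffAt ℝ ∞ K.pv q := (K.contDiffOn_pv).contDiffAt (isOpen_VV3.mem_nhds hq)
  have h1' : ContDiffAt ℝ 1 K.pv q := h1.of_le (by exact_mod_cast le_top)
  have hpos : ContDiffAt ℝ 1 (fun q : ℝ × ℝ × ℝ => (K.pv q).1) q := h1'.fst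
  have hvel : ContDiffAt ℝ 1 (fun q : ℝ × ℝ × ℝ => (K.pv q).2) q := h1'.snd
  have hΦ1 : ContDiffAt ℝ ∞ Φ (K.pv q).1 := hΦ.contDiffAt (hU.mem_nhds hqU)
  have hΦ2 : ContDiffAt ℝ 1 (fderiv ℝ Φ) (K.pv q).1 := hΦ1.fderiv_right (m := 1) two_le_inf
  have h2 : ContDiffAt ℝ 1 (fun q => Φ (K.pv q).1) q :=
    ContDiffAt.comp q (hΦ1.of_le (by exact_mod_cast le_top)) hpos
  have h3 : ContDiffAt ℝ 1 (fun q => fderiv ℝ Φ (K.pv q).1) q := ContDiffAt.comp q hΦ2 hpos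
  exact h2.prodMk (h3.clm_apply hvel)

theorem abs_lt' {c : ℝ} (hc0 : c ≠ 0) (hc : |c| < 1) : c ∈ VV :=
  ⟨hc0, (sq_lt_one_iff_abs_lt_one c).2 hc⟩

theorem phc_half {x τ : ℝ} (hx : x ∈ VV) (hτ : τ ∈ Ioo 0 π) : phc x τ ∈ Ioo 0 (π / 2) := by
  have h1 := phc_mem hx.1 hx.2 τ
  refine ⟨h1.1, ?_⟩
  have h2 : 0 < cos (phc x τ) := by
    rw [cos_phc hx.1 hx.2]
    exact mul_pos (sqrt_pos.2 (by linarith [hx.2])) (sin_pos_of_mem_Ioo hτ)
  by_contra h3
  push Not at h3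
  have h4 := cos_nonpos_of_pi_div_two_le_of_le h3 (by linarith [h1.2])
  linarith

theorem xx_sq {z : St} (hz : |z.2| < 1) : xx z ^ 2 = (1 - z.2 ^ 2) * sin z.1 ^ 2 := by
  have := (sq_lt_one_iff_abs_lt_one z.2).2 hz
  unfold xx
  rw [mul_pow, sq_sqrt (by linarith)]

end SmpM

open SmpM

theorem specSMP : SpecSMP := by
  intro C
  have hP : ∀ q : ℝ × ℝ × ℝ, q.1 ∈ VV → ContDiffAt ℝ 1 (fun q : ℝ × ℝ × ℝ =>
      vecP C q.2.1 q.1 q.2.2) q := fun q hq =>
    gen C.P (U := {p | p.1 ∈ Ioo 0 π}) (isOpen_Ioo.preimage continuous_fst) (contDiffOn_chP C) hq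
      (phc_mem hq.1 hq.2 _)
  have hQ : ∀ e : ℝ, ∀ q : ℝ × ℝ × ℝ, q.1 ∈ VV → q.2.2 ∈ Ioo 0 π → ContDiffAt ℝ 1
      (fun q : ℝ × ℝ × ℝ => vecQ C e q.2.1 q.1 q.2.2) q := fun e q hq hq2 =>
    gen C.Q (U := {p | p.1 ∈ Ioo 0 (π / 2)}) (isOpen_Ioo.preimage continuous_fst)
      (contDiffOn_chQ C e) hq (phc_half hq hq2)
  refine ⟨?_, ?_⟩
  · intro q hq0 hq1
    have h1 := (hP (q.1.2, q.1.1, q.2) (abs_lt' hq0 hq1)).differentiableAt one_ne_zero
    have h2 : DifferentiableAt ℝ (fun q : (ℝ × ℝ) × ℝ => (q.1.2, q.1.1, q.2)) q := by fun_prop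
    exact DifferentiableAt.comp q h1 h2
  · intro e _
    constructor
    · intro q hq0 hq1 hq2
      have h1 := (hQ e (q.1.2, q.1.1, q.2) (abs_lt' hq0 hq1) hq2).differentiableAt one_ne_zero
      have h2 : DifferentiableAt ℝ (fun q : (ℝ × ℝ) × ℝ => (q.1.2, q.1.1, q.2)) q := by fun_prop
      exact DifferentiableAt.comp q h1 h2
    · intro q hq1 hcos hx hq2
      have hc2 := (sq_lt_one_iff_abs_lt_one q.1.2).2 hq1
      have hsc := sin_sq_add_cos_sq q.1.1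
      have hcos2 : 0 < cos q.1.1 ^ 2 := by positivity
      have hxs := xx_sq hq1
      have hx1 : xx q.1 ^ 2 < 1 := by
        rw [hxs]
        nlinarith [sq_nonneg q.1.2, sq_nonneg (sin q.1.1)]
      have hV : xx q.1 ∈ VV := ⟨hx, hx1⟩
      have h1 := (hQ e (xx q.1, Psi q.1, q.2) hV hq2).differentiableAt one_ne_zero
      have hs : DifferentiableAt ℝ (fun q : (ℝ × ℝ) × ℝ => √(1 - q.1.2 ^ 2)) q := by
        apply DifferentiableAt.sqrt (by fun_prop)
        linarith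
      have hxd : DifferentiableAt ℝ (fun q : (ℝ × ℝ) × ℝ => xx q.1) q := by
        unfold xx
        exact hs.mul (by fun_prop)
      have hr : DifferentiableAt ℝ (fun q : (ℝ × ℝ) × ℝ => √(1 - xx q.1 ^ 2)) q := by
        apply DifferentiableAt.sqrt
        · exact (differentiableAt_const _).sub (hxd.pow 2)
        · linarith
      have hrp : 0 < √(1 - xx q.1 ^ 2) := sqrt_pos.2 (by linarith)
      have hc' : DifferentiableAt ℝ (fun q : (ℝ × ℝ) × ℝ => q.1.2) q := by fun_prop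
      have hdiv : DifferentiableAt ℝ (fun q : (ℝ × ℝ) × ℝ => q.1.2 / √(1 - xx q.1 ^ 2)) q :=
        by
        simp only [div_eq_mul_inv]
        exact hc'.mul (hr.inv hrp.ne')
      have hlt : |q.1.2 / √(1 - xx q.1 ^ 2)| < 1 := by
        rw [← sq_lt_one_iff_abs_lt_one, div_pow, sq_sqrt (by linarith), div_lt_one (by linarith),
          hxs]
        nlinarith
      have hlt' := abs_lt.1 hlt
      have hPsi : DifferentiableAt ℝ (fun q : (ℝ × ℝ) × ℝ => Psi q.1) q := by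
        unfold Psi
        apply (differentiableAt_const _).sub
        exact DifferentiableAt.comp (g := arcsin) q
          (differentiableAt_arcsin.2 ⟨hlt'.1.ne', hlt'.2.ne⟩) hdiv
      have h2 : DifferentiableAt ℝ (fun q : (ℝ × ℝ) × ℝ => (xx q.1, Psi q.1, q.2)) q :=
        hxd.prodMk (hPsi.prodMk (by fun_prop))
      exact DifferentiableAt.comp q h1 h2

end Pool.Agent.Lib.MP_d2b992_gt.Erg
end

section
/-!
# Every unit vector over the regions of the charts comes from a chart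
-/
set_option autoImplicit false

namespace Pool.Agent.Lib.MP_d2b992_gt.Erg

open Set Filter Topology MeasureTheory Real
open scoped ContDiff InnerProductSpace

namespace SurjM

/-! ### Tangent vectors -/

/-- Four pairwise orthogonal vectors of `R3`, three of them nonzero. -/
theorem zero_of_orth {x a b w : R3} (hx : x ≠ 0) (ha : a ≠ 0) (hb : b ≠ 0) 
    (xa : ⟪x, a⟫_ℝ = 0) (xb : ⟪x, b⟫_ℝ = 0) (ab : ⟪a, b⟫_ℝ = 0) (xw : ⟪x, w⟫_ℝ = 0) 
    (aw : ⟪a, w⟫_ℝ = 0) (bw : ⟪b, w⟫_ℝ = 0) : w = 0 := by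
  by_contra hw
  have ax := xa; have bx := xb; have ba := ab; have wx := xw; have wa := aw; have wb := bw
  rw [real_inner_comm] at ax bx ba wx wa wb
  have h1 : LinearIndependent ℝ ![x, a, b, w] := by
    apply linearIndependent_of_ne_zero_of_inner_eq_zero
    · intro i
      fin_cases i
      · exact hx
      · exact ha
      · exact hb
      · exact hw
    · intro i j hij
      fin_cases i <;> fin_cases j <;> first | exact absurd rfl hij | assumption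
  have h2 := h1.fintype_card_le_finrank
  simp at h2

/-- Tangent vectors come from the chart. -/
theorem tangent (C : Caps) (K : Cap) {f : ℝ × ℝ → R3} {p : ℝ × ℝ} {x v : R3} 
    (hf : DifferentiableAt ℝ f p) (hn : ∀ q, ‖f q‖ = 1) (hx : f p = x) (hs : 0 < sin p.1) 
    (hpull : ∀ u v, C.metric.g (f p) (fderiv ℝ f p u) (fderiv ℝ f p v) = BB K p u v) 
    (h1 : ⟪x, v⟫_ℝ = 0) (h2 : C.metric.g x v v = 1) : 
    ∃ u : ℝ × ℝ, fderiv ℝ f p u = v ∧ BB K p u u = 1 := by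
  have hxn : ‖x‖ = 1 := by rw [← hx]; exact hn p
  have hort : ∀ w : ℝ × ℝ, ⟪x, fderiv ℝ f p w⟫_ℝ = 0 := by
    intro w
    have h2 := hf.hasFDerivAt.norm_sq
    have h3 : HasFDerivAt (fun p => ‖f p‖ ^ 2) (0 : ℝ × ℝ →L[ℝ] ℝ) p := by
      have : (fun p => ‖f p‖ ^ 2) = fun _ => (1:ℝ) := funext fun q => by rw [hn q]; norm_num
      rw [this]; exact hasFDerivAt_const _ _
    have h4 := congrArg (fun L : ℝ × ℝ →L[ℝ] ℝ => L w) (h2.unique h3)
    rw [← hx]
    simpa using h4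
  have hlam : 0 < C.lam x := C.lam_pos hxn
  have hpsi := K.psi_pos p.1
  set a := fderiv ℝ f p (1, 0) with ha
  set b := fderiv ℝ f p (0, 1) with hb
  have paa : C.lam x * ⟪a, a⟫_ℝ = K.psi p.1 ^ 2 := by
    have := hpull (1, 0) (1, 0)
    rw [hx, Caps.metric_g] at this
    rw [ha, this]
    simp [BB]
  have pbb : C.lam x * ⟪b, b⟫_ℝ = sin p.1 ^ 2 := by
    have := hpull (0, 1) (0, 1)
    rw [hx, Caps.metric_g] at this
    rw [hb, this]
    simp [BB]
  have pab : C.lam x * ⟪a, b⟫_ℝ = 0 := by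
    have := hpull (1, 0) (0, 1)
    rw [hx, Caps.metric_g] at this
    rw [ha, hb, this]
    simp [BB]
  have hab : ⟪a, b⟫_ℝ = 0 := by
    rcases mul_eq_zero.1 pab with h | h
    · exact absurd h hlam.ne'
    · exact h
  have haa : ⟪a, a⟫_ℝ ≠ 0 := by
    intro h
    rw [h, mul_zero] at paa
    exact (pow_pos hpsi 2).ne paa
  have hbb : ⟪b, b⟫_ℝ ≠ 0 := by
    intro h
    rw [h, mul_zero] at pbb
    exact (pow_pos hs 2).ne pbb
  have ha0 : a ≠ 0 := fun h => haa (by rw [h]; simp)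
  have hb0 : b ≠ 0 := fun h => hbb (by rw [h]; simp)
  have hx0 : x ≠ 0 := fun h => by rw [h] at hxn; simp at hxn
  have hba : ⟪b, a⟫_ℝ = 0 := by rw [real_inner_comm]; exact hab
  set α := ⟪a, v⟫_ℝ / ⟪a, a⟫_ℝ with hα
  set β := ⟪b, v⟫_ℝ / ⟪b, b⟫_ℝ with hβ
  have hw : v - (α • a + β • b) = 0 := by
    apply zero_of_orth hx0 ha0 hb0 (hort _) (hort _) hab
    · rw [inner_sub_right, inner_add_right, real_inner_smul_right, real_inner_smul_right, h1, 
        hort, hort]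
      ring
    · rw [inner_sub_right, inner_add_right, real_inner_smul_right, real_inner_smul_right, hab, hα]
      field_simp
      ring
    · rw [inner_sub_right, inner_add_right, real_inner_smul_right, real_inner_smul_right, hba, hβ]
      field_simp
      ring
  have hv : fderiv ℝ f p (α, β) = v := by
    rw [fderiv_decomp]
    exact (sub_eq_zero.1 hw).symm
  refine ⟨(α, β), hv, ?_⟩
  rw [← hpull, hv, hx]
  exact h2

/-! ### Points -/

/-- The stereographic coordinate. -/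
theorem exists_stereo {x : R3} (hx : ‖x‖ = 1) (h2 : x 2 ≠ -1) : ∃ q : ℝ × ℝ, stereo 1 q = x := by
  have h3 := normsq3 x
  rw [hx] at h3
  have h4 : 1 + x 2 ≠ 0 := fun h => h2 (by linarith)
  refine ⟨(x 0 / (1 + x 2), x 1 / (1 + x 2)), ?_⟩
  have hI : II (x 0 / (1 + x 2), x 1 / (1 + x 2)) = (1 + x 2) / 2 := by
    have h5 : 1 + (x 0 / (1 + x 2)) ^ 2 + (x 1 / (1 + x 2)) ^ 2 = 2 / (1 + x 2) := by
      field_simp
      linarith
    unfold II
    simp only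
    rw [h5, inv_div]
  obtain ⟨y0, y1, y2⟩ := stereo_one_apply 1 (x 0 / (1 + x 2), x 1 / (1 + x 2))
  apply ext3
  · rw [y0, hI]; simp only; field_simp
  · rw [y1, hI]; simp only; field_simp
  · rw [y2, hI]; ring

theorem stc_cc (q : ℝ × ℝ) : stc (cc q) = stereo 1 q := by
  unfold stc
  congr 1

/-- The first chart in conformal coordinates is onto. -/
theorem exists_Xi {x : R3} (hx : ‖x‖ = 1) (h2 : x 2 ≠ -1) (h1 : x 2 ≠ 1) : 
    ∃ p : ℝ × ℝ, Xi p = x := by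
  obtain ⟨q, hq⟩ := exists_stereo hx h2
  have hz : cc q ≠ 0 := by
    intro h
    have h3 := one_sub_stereo q
    rw [h, hq] at h3
    simp at h3
    exact h1 (by linarith)
  obtain ⟨t, ht⟩ := Complex.cos_surjective (1 / cc q)
  have hc : Complex.cosh (-(t * Complex.I)) = 1 / cc q := by
    rw [← ht, Complex.cosh_neg, Complex.cosh_mul_I]
  set w : ℂ := 2 * (-(t * Complex.I)) with hw
  have hcc : cc (Complex.equivRealProdCLM w) / 2 = -(t * Complex.I) := by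
    rw [cc_symm, hw]; ring
  refine ⟨Complex.equivRealProdCLM w, ?_⟩
  have hne : Complex.cosh (cc (Complex.equivRealProdCLM w) / 2) ≠ 0 := by
    rw [hcc, hc]; exact one_div_ne_zero hz
  rw [Xi_eq_stc _ hne, hcc, hc, one_div_one_div, stc_cc, hq]

/-- The radial coordinate is onto. -/
theorem exists_rho_neg (K : Cap) {r : ℝ} (hr : r < 0) : ∃ φ ∈ Ioo 0 (π / 2), K.rho φ = r := by
  have hn := K.nR_pos
  have h0 : 0 < exp (K.n * r) := exp_pos _
  have h1 : exp (K.n * r) < 1 := by rw [exp_lt_one_iff]; nlinarith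
  obtain ⟨a1, a2, a3⟩ := K.U_spec h0.le h1
  have a4 := K.U_pos h0 h1
  set u := K.U (exp (K.n * r)) with hu
  have s0 : 0 < √u := sqrt_pos.2 a4
  have s1 : √u < 1 := by rw [sqrt_lt' one_pos]; linarith
  have hφ0 : 0 < arcsin (√u) := arcsin_pos.2 s0
  have hφ1 : arcsin (√u) < π / 2 := arcsin_lt_pi_div_two.2 s1
  have hs : sin (arcsin (√u)) = √u := sin_arcsin (by linarith) s1.le
  refine ⟨arcsin (√u), ⟨hφ0, hφ1⟩, ?_⟩
  have h3 := K.N_sin hφ0 hφ1
  rw [hs, sq_sqrt a4.le, a3] at h3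
  have h4 := exp_injective h3
  exact (mul_left_cancel₀ hn.ne' h4).symm

theorem exists_rho (K : Cap) (r : ℝ) : ∃ φ ∈ Ioo 0 π, K.rho φ = r := by
  have hpi := pi_pos
  rcases lt_trichotomy r 0 with h | h | h
  · obtain ⟨φ, h1, h2⟩ := exists_rho_neg K h
    exact ⟨φ, ⟨h1.1, by linarith [h1.2]⟩, h2⟩
  · exact ⟨π / 2, ⟨by linarith, by linarith⟩, by rw [K.rho_half, h]⟩
  · obtain ⟨φ, h1, h2⟩ := exists_rho_neg K (r := -r) (by linarith)
    exact ⟨π - φ, ⟨by linarith [h1.2], by linarith [h1.1]⟩, by rw [K.rho_pi_sub, h2, neg_neg]⟩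

theorem two_ne {x : R3} (h : 12 / 13 < SS x) : x 2 ≠ 1 := by
  intro h1
  unfold SS at h
  rw [h1] at h
  norm_num at h

/-- The second condition in the conformal coordinates. -/
theorem cond_Xi {p : ℝ × ℝ} (h : 1 / 25 * (1 + Xi p 2) < 2 * nu (Xi p)) : 
    cos p.2 < 12 / 13 * cosh p.1 := by
  have hW := Wd_pos p
  have hW2 := Wd_eq p
  rw [nu_Xi, (Xi_apply p).2.2, cosh_half, cos_half_sq] at h
  have h1 : 1 / 25 * (1 + (1 - 2 / Wd p)) * Wd p < 
      2 * (((cosh p.1 + 1) / 2 - (cos p.2 + 1) / 2) / Wd p) * Wd p := 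
    mul_lt_mul_of_pos_right h hW
  have h2 : 1 / 25 * (1 + (1 - 2 / Wd p)) * Wd p = 2 / 25 * (Wd p - 1) := by
    field_simp
    ring
  have h3 : 2 * (((cosh p.1 + 1) / 2 - (cos p.2 + 1) / 2) / Wd p) * Wd p = 
      cosh p.1 - cos p.2 := by
    field_simp
    ring
  rw [h2, h3, hW2] at h1
  linarith

/-- Case of the round region. -/
theorem case_K (C : Caps) {x v : R3} (hx : ‖x‖ = 1) (hxv : ⟪x, v⟫_ℝ = 0) 
    (hg : C.metric.g x v v = 1) (h2 : x 2 ≠ -1) (hS : 12 / 13 < SS x) 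
    (hnu : 1 / 25 * (1 + x 2) < 2 * nu x) : ∃ φ ∈ Ioo 0 π, ∃ Θ : ℝ, ∃ u : ℝ × ℝ, 
    |cos φ| < 5 / 13 ∧ sin φ * cos Θ < 12 / 13 ∧ chP C (φ, Θ) = x ∧ 
    fderiv ℝ (chP C) (φ, Θ) u = v ∧ BB C.P (φ, Θ) u u = 1 := by
  obtain ⟨p, hp⟩ := exists_Xi hx h2 (two_ne hS)
  obtain ⟨φ, hφ, hr⟩ := exists_rho C.P p.1
  have hs : 0 < sin φ := sin_pos_of_pos_of_lt_pi hφ.1 hφ.2
  have hch : chP C (φ, p.2) = x := by
    unfold chP
    simp only
    rw [hr]
    exact hp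
  have hsin : 12 / 13 < sin φ := by
    by_contra h
    push Not at h
    have h3 := C.P.inv_cosh_rho_le hφ (by rw [C.Pa]; exact h)
    rw [hr, ← SS_Xi, hp, C.Pa] at h3
    linarith
  have hcosh : cosh p.1 = 1 / sin φ := by
    rw [← hr]
    exact C.P.cosh_rho hφ (by rw [C.Pa]; exact hsin.le)
  have hcos : |cos φ| < 5 / 13 := by
    rw [← sq_lt_sq₀ (abs_nonneg _) (by norm_num), sq_abs]
    have := sin_sq_add_cos_sq φ
    nlinarith
  have hdom : sin φ * cos p.2 < 12 / 13 := by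
    have h3 := cond_Xi (p := p) (by rw [hp]; exact hnu)
    rw [hcosh, mul_one_div, lt_div_iff₀ hs] at h3
    linarith
  have hD : ((φ, p.2) : ℝ × ℝ) ∈ DomP := ⟨hφ, hdom⟩
  obtain ⟨u, hu1, hu2⟩ := tangent C C.P (hasFDerivAt_chP C (p := (φ, p.2)) hφ).differentiableAt 
    (norm_chP C) hch hs (pull_P' C hD) hxv hg
  exact ⟨φ, hφ, p.2, u, hcos, hdom, hch, hu1, hu2⟩

/-- Case of the first cap. -/
theorem case_P (C : Caps) {x v : R3} (hx : ‖x‖ = 1) (hxv : ⟪x, v⟫_ℝ = 0) 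
    (hg : C.metric.g x v v = 1) (h2 : x 2 ≠ -1) (hS : SS x < 12 / 13) (h1 : x 2 ≠ 1) : 
    ∃ φ ∈ Ioo 0 (π / 2), ∃ Θ : ℝ, ∃ u : ℝ × ℝ, 
    5 / 13 < cos φ ∧ chP C (φ, Θ) = x ∧ fderiv ℝ (chP C) (φ, Θ) u = v ∧ 
    BB C.P (φ, Θ) u u = 1 := by
  have hpi := pi_pos
  obtain ⟨p, hp, hp1⟩ : ∃ p : ℝ × ℝ, Xi p = x ∧ p.1 < 0 := by
    obtain ⟨p, hp⟩ := exists_Xi hx h2 h1
    have h3 : p.1 ≠ 0 := by
      intro h
      rw [← hp, SS_Xi, h, cosh_zero] at hS
      norm_num at hS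
    rcases lt_or_gt_of_ne h3 with h4 | h4
    · exact ⟨p, hp, h4⟩
    · exact ⟨(-p.1, -p.2), by rw [Xi_neg]; exact hp, by simp only; linarith⟩
  obtain ⟨φ, hφ, hr⟩ := exists_rho_neg C.P hp1
  have hφ' : φ ∈ Ioo 0 π := ⟨hφ.1, by linarith [hφ.2]⟩
  have hs : 0 < sin φ := sin_pos_of_pos_of_lt_pi hφ'.1 hφ'.2
  have hc : 0 < cos φ := cos_pos_of_mem_Ioo ⟨by linarith [hφ.1], hφ.2⟩
  have hch : chP C (φ, p.2) = x := by
    unfold chP
    simp only
    rw [hr]
    exact hp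
  have hsin : sin φ < 12 / 13 := by
    by_contra h
    push Not at h
    have h3 := C.P.cosh_rho hφ' (by rw [C.Pa]; exact h)
    rw [← hp, SS_Xi, ← hr, h3, one_div_one_div] at hS
    linarith
  have hcos : 5 / 13 < cos φ := by
    rw [← sq_lt_sq₀ (by norm_num) hc.le]
    have := sin_sq_add_cos_sq φ
    nlinarith
  have hdom : sin φ * cos p.2 < 12 / 13 := by
    have := cos_le_one p.2
    nlinarith
  have hD : ((φ, p.2) : ℝ × ℝ) ∈ DomP := ⟨hφ', hdom⟩
  obtain ⟨u, hu1, hu2⟩ := tangent C C.P (hasFDerivAt_chP C (p := (φ, p.2)) hφ').differentiableAt 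
    (norm_chP C) hch hs (pull_P' C hD) hxv hg
  exact ⟨φ, hφ, p.2, u, hcos, hch, hu1, hu2⟩

/-- Case of the second caps. -/
theorem case_Q (C : Caps) {x v : R3} (hx : ‖x‖ = 1) (hxv : ⟪x, v⟫_ℝ = 0) 
    (hg : C.metric.g x v v = 1) (h2 : x 2 ≠ -1) (hnu : 2 * nu x < 1 / 25 * (1 + x 2)) 
    (h1 : nu x ≠ 0) : ∃ e : ℝ, (e = 1 ∨ e = -1) ∧ 
    ∃ φ ∈ Ioo 0 (π / 2), ∃ Θ : ℝ, ∃ u : ℝ × ℝ, sin φ < 5 / 13 ∧ chQ C e (φ, Θ) = x ∧ 
    fderiv ℝ (chQ C e) (φ, Θ) u = v ∧ BB C.Q (φ, Θ) u u = 1 := by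
  have hpi := pi_pos
  obtain ⟨q, hq⟩ := exists_stereo hx h2
  have hI := II_pos q
  have hw0 : 1 - cc q ^ 2 ≠ 0 := by
    intro h
    apply h1
    rw [← hq, nu_stereo (Or.inl rfl), h]
    simp
  have hw1 : ‖1 - cc q ^ 2‖ < 1 / 25 := by
    rw [← hq, nu_stereo (Or.inl rfl), one_add_stereo] at hnu
    have h3 : ‖1 - cc q ^ 2‖ * (2 * II q) < 1 / 25 * (2 * II q) := by linarith
    exact lt_of_mul_lt_mul_right h3 (by positivity)
  set w := 1 - cc q ^ 2 with hw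
  have hwp : 0 < ‖w‖ := norm_pos_iff.2 hw0
  set y : ℂ := Complex.log w / 2 with hy
  have hexp : Complex.exp (2 * y) = w := by
    rw [hy, mul_div_cancel₀ _ (two_ne_zero' ℂ), Complex.exp_log hw0]
  have hyre : exp (2 * y.re) = ‖w‖ := by rw [← norm_exp_two, hexp]
  have hneg : y.re < 0 := by
    have h3 : exp (2 * y.re) < 1 := by rw [hyre]; linarith
    rw [exp_lt_one_iff] at h3
    linarith
  obtain ⟨φ, hφ, hr⟩ := exists_rho_neg C.Q hneg
  have hφ' : φ ∈ Ioo 0 π := ⟨hφ.1, by linarith [hφ.2]⟩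
  have hs : 0 < sin φ := sin_pos_of_pos_of_lt_pi hφ'.1 hφ'.2
  have hc : 0 < cos φ := cos_pos_of_mem_Ioo ⟨by linarith [hφ.1], hφ.2⟩
  have hcc : cc (C.Q.rho φ, y.im) = y := by
    rw [hr]
    apply Complex.ext
    · rw [cc_re]
    · rw [cc_im]
  have hsq : zq y ^ 2 = cc q ^ 2 := by
    rw [zq_sq hneg, hexp, hw]; ring
  obtain ⟨e, he, hez⟩ : ∃ e : ℝ, (e = 1 ∨ e = -1) ∧ (e : ℂ) * zq y = cc q := by
    rcases sq_eq_sq_iff_eq_or_eq_neg.1 hsq with h | h
    · exact ⟨1, Or.inl rfl, by rw [h]; simp⟩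
    · exact ⟨-1, Or.inr rfl, by rw [h]; simp⟩
  have hch : chQ C e (φ, y.im) = x := by
    unfold chQ
    simp only
    rw [hcc, hez, stc_cc, hq]
  have hsin : sin φ < 5 / 13 := by
    by_contra h
    push Not at h
    have h3 := C.Q.exp_rho hφ' (by rw [C.Qa]; exact h)
    have hcos : cos φ ≤ 12 / 13 := by
      rw [← sq_le_sq₀ hc.le (by norm_num)]
      have := sin_sq_add_cos_sq φ
      nlinarith
    have h4 : 1 / 5 ≤ exp (C.Q.rho φ) := by
      rw [h3, le_div_iff₀ (by positivity)]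
      linarith
    have h5 : exp (2 * y.re) = exp (C.Q.rho φ) ^ 2 := by
      rw [hr, ← exp_nat_mul]; norm_num
    have h6 : exp (C.Q.rho φ) ^ 2 < 1 / 25 := by rw [← h5, hyre]; exact hw1
    nlinarith
  have hdom : |sin φ * cos y.im| < 5 / 13 := by
    rw [abs_mul, abs_of_pos hs]
    have h3 := abs_cos_le_one y.im
    have h4 := abs_nonneg (cos y.im)
    nlinarith
  have hD : ((φ, y.im) : ℝ × ℝ) ∈ DomQ := ⟨hφ, hdom⟩
  have hopen : IsOpen {p : ℝ × ℝ | p.1 ∈ Ioo 0 (π / 2)} := isOpen_Ioo.preimage continuous_fst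
  have hdiff : DifferentiableAt ℝ (chQ C e) (φ, y.im) := 
    ((contDiffOn_chQ C e).contDiffAt (hopen.mem_nhds hφ)).differentiableAt (by simp)
  obtain ⟨u, hu1, hu2⟩ := tangent C C.Q hdiff (norm_chQ C e) hch hs (pull_Q C he hD) hxv hg
  exact ⟨e, he, φ, hφ, y.im, u, hsin, hch, hu1, hu2⟩

end SurjM

theorem specSURJ : SpecSURJ := by
  rintro C v ⟨hx, hxv, hg⟩ h2
  refine ⟨?_, ?_, ?_⟩
  · intro hS hnu
    exact SurjM.case_K C hx hxv hg h2 hS hnu
  · intro hS h1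
    exact SurjM.case_P C hx hxv hg h2 hS h1
  · intro hnu h1
    exact SurjM.case_Q C hx hxv hg h2 hnu h1

end Pool.Agent.Lib.MP_d2b992_gt.Erg
end

section
/-!
# TRI: plane trigonometry of the states
-/
set_option autoImplicit false

namespace Pool.Agent.Lib.MP_d2b992_gt.Erg

open Set Real MeasureTheory Dyn

namespace TriM

theorem one_sub_pos {c : ℝ} (h : |c| < 1) : 0 < 1 - c ^ 2 := by
  have : c ^ 2 < 1 := by rw [← sq_abs]; nlinarith [abs_nonneg c]
  linarith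

theorem xx_sq (z : St) (h : |z.2| < 1) : xx z ^ 2 = (1 - z.2 ^ 2) * sin z.1 ^ 2 := by
  unfold xx
  rw [mul_pow, Real.sq_sqrt (one_sub_pos h).le]

theorem one_sub_xx (z : St) (h : |z.2| < 1) :
    1 - xx z ^ 2 = cos z.1 ^ 2 + (z.2 * sin z.1) ^ 2 := by
  rw [xx_sq z h]
  have := Real.sin_sq_add_cos_sq z.1
  linear_combination this * (-1)

/-- The closest point: `√(1-x²) cos tauc = |cos Θ|`, `√(1-x²) sin tauc = ∓ c sin Θ`. -/
theorem base (z : St) (h : |z.2| < 1) (hc : cos z.1 ≠ 0) :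
    √(1 - xx z ^ 2) * cos (tauc z) = |cos z.1| ∧
      √(1 - xx z ^ 2) * sin (tauc z) * cos z.1 = -(|cos z.1| * (z.2 * sin z.1)) := by
  have h1 : 1 - xx z ^ 2 = cos z.1 ^ 2 * (1 + (z.2 * tan z.1) ^ 2) := by
    rw [one_sub_xx z h, Real.tan_eq_sin_div_cos]
    field_simp
  have h2 : 0 < 1 + (z.2 * tan z.1) ^ 2 := by positivity
  have h3 : √(1 - xx z ^ 2) = |cos z.1| * √(1 + (z.2 * tan z.1) ^ 2) := by
    rw [h1, Real.sqrt_mul (sq_nonneg _), Real.sqrt_sq_eq_abs]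
  have h4 : √(1 + (z.2 * tan z.1) ^ 2) ≠ 0 := (Real.sqrt_pos.2 h2).ne'
  have h5 : cos (tauc z) = 1 / √(1 + (z.2 * tan z.1) ^ 2) := by
    unfold tauc
    rw [Real.cos_neg, Real.cos_arctan]
  have h6 : sin (tauc z) = -((z.2 * tan z.1) / √(1 + (z.2 * tan z.1) ^ 2)) := by
    unfold tauc
    rw [Real.sin_neg, Real.sin_arctan]
  refine ⟨?_, ?_⟩
  · rw [h3, h5]
    field_simp
  · rw [h3, h6]
    have h7 : tan z.1 * cos z.1 = sin z.1 := Real.tan_mul_cos hc
    have h8 : |cos z.1| * √(1 + (z.2 * tan z.1) ^ 2) *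
        -((z.2 * tan z.1) / √(1 + (z.2 * tan z.1) ^ 2)) * cos z.1 =
        -(|cos z.1| * (z.2 * (tan z.1 * cos z.1))) := by
      field_simp
    rw [h8, h7]

theorem near (z : St) (h : |z.2| < 1) (hc : 0 < cos z.1) (τ : ℝ) :
    xK z.1 z.2 τ = √(1 - xx z ^ 2) * cos (τ - tauc z) := by
  obtain ⟨h1, h2⟩ := base z h hc.ne'
  rw [abs_of_pos hc] at h1 h2
  have h3 : √(1 - xx z ^ 2) * sin (tauc z) = -(z.2 * sin z.1) := by
    have : (√(1 - xx z ^ 2) * sin (tauc z) + z.2 * sin z.1) * cos z.1 = 0 := by linarith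
    rcases mul_eq_zero.1 this with h4 | h4
    · linarith
    · exact absurd h4 hc.ne'
  unfold xK
  rw [Real.cos_sub]
  linear_combination (-cos τ) * h1 - sin τ * h3

theorem far (z : St) (h : |z.2| < 1) (hc : cos z.1 < 0) (τ : ℝ) :
    xK z.1 z.2 τ = -(√(1 - xx z ^ 2) * cos (τ - tauc z)) := by
  obtain ⟨h1, h2⟩ := base z h hc.ne
  rw [abs_of_neg hc] at h1 h2
  have h3 : √(1 - xx z ^ 2) * sin (tauc z) = z.2 * sin z.1 := by
    have : (√(1 - xx z ^ 2) * sin (tauc z) - z.2 * sin z.1) * cos z.1 = 0 := by linarith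
    rcases mul_eq_zero.1 this with h4 | h4
    · linarith
    · exact absurd h4 hc.ne
  unfold xK
  rw [Real.cos_sub]
  linear_combination cos τ * h1 + sin τ * h3

theorem tauc_lt (z : St) : |tauc z| < π / 2 := by
  unfold tauc
  rw [abs_neg, abs_lt]
  exact ⟨Real.neg_pi_div_two_lt_arctan _, Real.arctan_lt_pi_div_two _⟩

theorem big {c : ℝ} (h : |c| < 12 / 13) : (5 / 13) ^ 2 < 1 - c ^ 2 := by
  have : c ^ 2 < (12 / 13) ^ 2 := by
    rw [← sq_abs]; exact pow_lt_pow_left₀ h (abs_nonneg _) (by norm_num)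
  linarith

theorem arg {c : ℝ} (h : |c| < 12 / 13) : 0 < 5 / 13 / √(1 - c ^ 2) ∧ 5 / 13 / √(1 - c ^ 2) < 1 := by
  have h1 := big h
  have h2 : 5 / 13 < √(1 - c ^ 2) := by
    rw [Real.lt_sqrt (by norm_num)]; exact h1
  have h3 : 0 < √(1 - c ^ 2) := by linarith
  exact ⟨by positivity, by rw [div_lt_one h3]; exact h2⟩

theorem tau3_facts {c : ℝ} (h : |c| < 12 / 13) : 0 < tau3 c ∧ tau3 c < π / 2 ∧
    √(1 - c ^ 2) * sin (tau3 c) = 5 / 13 := by
  obtain ⟨h1, h2⟩ := arg h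
  refine ⟨?_, ?_, ?_⟩
  · unfold tau3; exact Real.arcsin_pos.2 h1
  · unfold tau3; exact Real.arcsin_lt_pi_div_two.2 h2
  · unfold tau3
    rw [Real.sin_arcsin (by linarith) h2.le]
    have h3 : √(1 - c ^ 2) ≠ 0 := (Real.sqrt_pos.2 (by linarith [big h])).ne'
    field_simp

theorem iff3 {c : ℝ} (h : |c| < 12 / 13) (τ : ℝ) (hτ : |τ| ≤ π / 2) :
    (1 - c ^ 2) * sin τ ^ 2 < (5 / 13) ^ 2 ↔ |τ| < tau3 c := by
  obtain ⟨h1, h2, h3⟩ := tau3_facts h
  have h0 : 0 < 1 - c ^ 2 := by linarith [big h]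
  have h4 : 0 ≤ sin |τ| := Real.sin_nonneg_of_nonneg_of_le_pi (abs_nonneg _)
    (by linarith [Real.pi_pos])
  have h5 : sin |τ| ^ 2 = sin τ ^ 2 := by
    rcases abs_choice τ with h | h <;> rw [h]
    rw [Real.sin_neg, neg_sq]
  have h6 : 0 < sin (tau3 c) := Real.sin_pos_of_pos_of_lt_pi h1 (by linarith [Real.pi_pos])
  have h7 : (1 - c ^ 2) * sin (tau3 c) ^ 2 = (5 / 13) ^ 2 := by
    rw [← h3, mul_pow, Real.sq_sqrt h0.le]
  have hmono := Real.strictMonoOn_sin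
  have m1 : |τ| ∈ Icc (-(π / 2)) (π / 2) := ⟨by linarith [abs_nonneg τ, Real.pi_pos], hτ⟩
  have m2 : tau3 c ∈ Icc (-(π / 2)) (π / 2) := ⟨by linarith, h2.le⟩
  rw [← hmono.lt_iff_lt m1 m2, ← h5, ← h7, mul_lt_mul_iff_right₀ h0,
    pow_lt_pow_iff_left₀ h4 h6.le (by norm_num)]

theorem sigb_facts (z : St) (h : |xx z| < 5 / 13) : 0 < sigb z ∧ sigb z < π / 2 ∧
    √(1 - xx z ^ 2) * cos (sigb z) = 12 / 13 := by
  have h1 : xx z ^ 2 < (5 / 13) ^ 2 := by
    rw [← sq_abs]; exact pow_lt_pow_left₀ h (abs_nonneg _) (by norm_num)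
  have h2 : 12 / 13 < √(1 - xx z ^ 2) := by
    rw [Real.lt_sqrt (by norm_num)]; linarith
  have h3 : 0 < √(1 - xx z ^ 2) := by linarith
  have h4 : 12 / 13 / √(1 - xx z ^ 2) < 1 := by rw [div_lt_one h3]; exact h2
  have h5 : 0 < 12 / 13 / √(1 - xx z ^ 2) := by positivity
  refine ⟨?_, ?_, ?_⟩
  · unfold sigb; exact Real.arccos_pos.2 h4
  · unfold sigb; exact Real.arccos_lt_pi_div_two.2 h5
  · unfold sigb
    rw [Real.cos_arccos (by linarith) h4.le]
    field_simp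

theorem far_lt (z : St) (hc : cos z.1 < 0) (h : |z.2| < 12 / 13) (τ : ℝ)
    (hτ : |τ| ≤ tau3 z.2) : xK z.1 z.2 τ < 12 / 13 := by
  obtain ⟨h1, h2, h3⟩ := tau3_facts h
  have h0 : 0 < 1 - z.2 ^ 2 := by linarith [big h]
  have hτ' : |τ| ≤ π / 2 := hτ.trans h2.le
  have h4 : 0 ≤ cos τ := by
    apply Real.cos_nonneg_of_neg_pi_div_two_le_of_le
    · linarith [(abs_le.1 hτ').1]
    · linarith [(abs_le.1 hτ').2]
  have h5 : (1 - z.2 ^ 2) * sin τ ^ 2 ≤ (5 / 13) ^ 2 := by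
    have h6 : sin |τ| ≤ sin (tau3 z.2) :=
      Real.strictMonoOn_sin.monotoneOn ⟨by linarith [abs_nonneg τ, Real.pi_pos], hτ'⟩
        ⟨by linarith, h2.le⟩ hτ
    have h7 : 0 ≤ sin |τ| := Real.sin_nonneg_of_nonneg_of_le_pi (abs_nonneg _)
      (by linarith [Real.pi_pos])
    have h8 : sin |τ| ^ 2 = sin τ ^ 2 := by
      rcases abs_choice τ with h | h <;> rw [h]
      rw [Real.sin_neg, neg_sq]
    have h9 : (1 - z.2 ^ 2) * sin (tau3 z.2) ^ 2 = (5 / 13) ^ 2 := by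
      rw [← h3, mul_pow, Real.sq_sqrt h0.le]
    rw [← h8, ← h9]
    exact mul_le_mul_of_nonneg_left (pow_le_pow_left₀ h7 h6 2) h0.le
  have hz : z.2 ^ 2 < (12 / 13) ^ 2 := by
    rw [← sq_abs]; exact pow_lt_pow_left₀ h (abs_nonneg _) (by norm_num)
  -- `(c sin τ)² < (12/13)²`
  have h10 : (z.2 * sin τ) ^ 2 < (12 / 13) ^ 2 := by
    rw [mul_pow]
    by_contra hcon
    push Not at hcon
    have h11 : 0 ≤ sin τ ^ 2 := sq_nonneg _
    -- `sin² τ ≤ 25/169 / (1-c²)`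
    nlinarith
  have h12 : |z.2 * sin τ| < 12 / 13 := abs_lt_of_sq_lt_sq h10 (by norm_num)
  have h13 : -(z.2 * sin τ * sin z.1) ≤ |z.2 * sin τ| := by
    calc -(z.2 * sin τ * sin z.1) ≤ |z.2 * sin τ * sin z.1| := neg_le_abs _
      _ = |z.2 * sin τ| * |sin z.1| := abs_mul _ _
      _ ≤ |z.2 * sin τ| * 1 := mul_le_mul_of_nonneg_left (Real.abs_sin_le_one _) (abs_nonneg _)
      _ = |z.2 * sin τ| := mul_one _
  have h14 : cos τ * cos z.1 ≤ 0 := mul_nonpos_of_nonneg_of_nonpos h4 hc.le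
  unfold xK
  have h15 : z.2 * sin τ * sin z.1 = z.2 * sin τ * sin z.1 := rfl
  linarith

/-- Off the interval `|τ - tauc| ≤ sigb`: `xK < 12/13` implies `sigb < |τ - tauc|`. -/
theorem sig_lt (z : St) (h : |z.2| < 1) (hq : inQ z) (τ : ℝ) (hx : xK z.1 z.2 τ < 12 / 13) :
    sigb z < |τ - tauc z| := by
  obtain ⟨h1, h2, h3⟩ := sigb_facts z hq.2
  by_contra hcon
  push Not at hcon
  rw [near z h hq.1] at hx
  have h4 : cos (sigb z) ≤ cos |τ - tauc z| :=
    Real.cos_le_cos_of_nonneg_of_le_pi (abs_nonneg _) (by linarith [Real.pi_pos]) hcon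
  rw [Real.cos_abs] at h4
  have h5 := mul_le_mul_of_nonneg_left h4 (Real.sqrt_nonneg (1 - xx z ^ 2))
  linarith

theorem end_lt (z : St) (h : |z.2| < 1) (hq : inQ z) (hb : z ∉ Bad) (hc : |z.2| < 12 / 13) :
    tauc z + sigb z < tau3 z.2 ∧ -tau3 z.2 < tauc z - sigb z := by
  obtain ⟨h1, h2, h3⟩ := sigb_facts z hq.2
  have ht := abs_lt.1 (tauc_lt z)
  have hz := abs_lt.1 hc
  have hs1 := Real.abs_sin_le_one z.1
  have habs : |z.2 * sin z.1| < 12 / 13 := by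
    rw [abs_mul]
    calc |z.2| * |sin z.1| ≤ |z.2| * 1 := mul_le_mul_of_nonneg_left hs1 (abs_nonneg _)
      _ < 12 / 13 := by linarith
  have hab := abs_lt.1 habs
  have e1 : tauc z + sigb z < π / 2 := by
    have h4 : xK z.1 z.2 (π / 2) < 12 / 13 := by
      unfold xK
      rw [Real.cos_pi_div_two, Real.sin_pi_div_two]
      linarith
    have := sig_lt z h hq (π / 2) h4
    rw [abs_of_pos (by linarith)] at this
    linarith
  have e2 : -(π / 2) < tauc z - sigb z := by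
    have h4 : xK z.1 z.2 (-(π / 2)) < 12 / 13 := by
      unfold xK
      rw [Real.cos_neg, Real.sin_neg, Real.cos_pi_div_two, Real.sin_pi_div_two]
      linarith
    have := sig_lt z h hq (-(π / 2)) h4
    rw [abs_of_neg (by linarith)] at this
    linarith
  have h0 : 0 < 1 - z.2 ^ 2 := by linarith [big hc]
  -- the general point of the boundary
  have key : ∀ τ : ℝ, xK z.1 z.2 τ = 12 / 13 → |τ| ≤ π / 2 → |τ| < tau3 z.2 := by
    intro τ hx hτ
    rw [← iff3 hc τ hτ]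
    have hid : xK z.1 z.2 τ ^ 2 + (1 - z.2 ^ 2) * sin τ ^ 2 +
        (cos τ * sin z.1 + z.2 * sin τ * cos z.1) ^ 2 = 1 := by
      unfold xK
      have a1 := Real.sin_sq_add_cos_sq z.1
      have a2 := Real.sin_sq_add_cos_sq τ
      linear_combination (cos τ ^ 2 + z.2 ^ 2 * sin τ ^ 2) * a1 + a2
    rw [hx] at hid
    rcases lt_or_ge ((1 - z.2 ^ 2) * sin τ ^ 2) ((5 / 13) ^ 2) with h4 | h4
    · exact h4
    · exfalso
      have h5 : (cos τ * sin z.1 + z.2 * sin τ * cos z.1) ^ 2 = 0 := by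
        have := sq_nonneg (cos τ * sin z.1 + z.2 * sin τ * cos z.1)
        linarith
      have h6 : cos τ * sin z.1 + z.2 * sin τ * cos z.1 = 0 := by
        rcases pow_eq_zero_iff (two_ne_zero) |>.1 h5 with h; exact h
      have h7 : (√(1 - z.2 ^ 2) * sin τ) ^ 2 = (5 / 13) ^ 2 := by
        rw [mul_pow, Real.sq_sqrt h0.le]
        rw [h5] at hid
        linarith
      have h8 : xx z * (12 / 13) + z.2 * (√(1 - z.2 ^ 2) * sin τ) = 0 := by
        rw [← hx]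
        unfold xx xK
        have a1 := Real.sin_sq_add_cos_sq z.1
        linear_combination √(1 - z.2 ^ 2) * (cos z.1) * h6 - √(1 - z.2 ^ 2) * z.2 * sin τ * a1
      have h9 : (√(1 - z.2 ^ 2) * sin τ - 5 / 13) * (√(1 - z.2 ^ 2) * sin τ + 5 / 13) = 0 := by
        linear_combination h7
      apply hb
      rcases mul_eq_zero.1 h9 with h10 | h10
      · have h11 : √(1 - z.2 ^ 2) * sin τ = 5 / 13 := by linarith
        rw [h11] at h8
        right; right; right; right; right; right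
        linarith
      · have h11 : √(1 - z.2 ^ 2) * sin τ = -(5 / 13) := by linarith
        rw [h11] at h8
        right; right; right; right; right; left
        linarith
  have hx1 : xK z.1 z.2 (tauc z + sigb z) = 12 / 13 := by
    rw [near z h hq.1, show tauc z + sigb z - tauc z = sigb z by ring, h3]
  have hx2 : xK z.1 z.2 (tauc z - sigb z) = 12 / 13 := by
    rw [near z h hq.1, show tauc z - sigb z - tauc z = -sigb z by ring, Real.cos_neg, h3]
  constructor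
  · exact (le_abs_self _).trans_lt (key _ hx1 (abs_le.2 ⟨by linarith, e1.le⟩))
  · have := (neg_le_abs _).trans_lt (key _ hx2 (abs_le.2 ⟨e2.le, by linarith⟩))
    linarith

theorem xx_le (z : St) (h : |z.2| < 1) (hc : 12 / 13 ≤ |z.2|) : |xx z| ≤ 5 / 13 := by
  have h1 : (12 / 13) ^ 2 ≤ z.2 ^ 2 := by
    rw [← sq_abs z.2]; exact pow_le_pow_left₀ (by norm_num) hc 2
  have h2 : xx z ^ 2 ≤ (5 / 13) ^ 2 := by
    rw [xx_sq z h]
    have h3 : sin z.1 ^ 2 ≤ 1 := Real.sin_sq_le_one _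
    have h4 := one_sub_pos h
    nlinarith [sq_nonneg (sin z.1)]
  exact abs_le_of_sq_le_sq h2 (by norm_num)

theorem all : SpecTRI := by
  intro z h
  refine ⟨near z h, far z h, tauc_lt z, far_lt z, end_lt z h, ?_, sigb_facts z, xx_le z h⟩
  intro hc
  obtain ⟨h1, h2, h3⟩ := tau3_facts hc
  exact ⟨h1, h2, h3, iff3 hc⟩

end TriM

/-- TRI: plane trigonometry of the states. -/
theorem specTRI : SpecTRI := TriM.all

end Pool.Agent.Lib.MP_d2b992_gt.Erg
end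

section
/-!
# TRV: transition of the unit vectors between the two charts
-/
set_option autoImplicit false

namespace Pool.Agent.Lib.MP_d2b992_gt.Erg

open Set Real MeasureTheory Dyn Filter Topology
open scoped ContDiff InnerProductSpace

namespace TrvM

theorem smul_velK (K : Cap) (c τ : ℝ) : K.psi (phc c τ) • velK K c τ =
    (dphc c τ, K.psi (phc c τ) * (c / sin (phc c τ) ^ 2)) := by
  have h := (K.psi_pos (phc c τ)).ne'
  unfold velK
  ext
  · simp only [Prod.smul_mk, smul_eq_mul]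
    field_simp
  · simp only [Prod.smul_mk, smul_eq_mul]

theorem isOpen_strip (a b : ℝ) : IsOpen {p : ℝ × ℝ | p.1 ∈ Ioo a b} :=
  isOpen_Ioo.preimage continuous_fst

theorem hasDerivAt_P (C : Caps) {c : ℝ} (hc0 : c ≠ 0) (hc1 : c ^ 2 < 1) (Θ τ : ℝ) :
    HasDerivAt (fun t => chP C (phc c t, C.P.th c Θ t))
      (C.P.psi (phc c τ) • (vecP C Θ c τ).2) τ := by
  have h1 : HasDerivAt (fun t => (phc c t, C.P.th c Θ t))
      (dphc c τ, C.P.psi (phc c τ) * (c / sin (phc c τ) ^ 2)) τ :=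
    (hasDerivAt_phc hc0 hc1 τ).prodMk (C.P.hasDerivAt_th hc0 hc1 Θ τ)
  have hmem : (phc c τ, C.P.th c Θ τ) ∈ {p : ℝ × ℝ | p.1 ∈ Ioo 0 π} := phc_mem hc0 hc1 τ
  have h2 : DifferentiableAt ℝ (chP C) (phc c τ, C.P.th c Θ τ) :=
    ((contDiffOn_chP C).contDiffAt ((isOpen_strip 0 π).mem_nhds hmem)).differentiableAt (by simp)
  have h3 := h2.hasFDerivAt.comp_hasDerivAt τ h1
  rw [← smul_velK, map_smul] at h3
  exact h3

theorem hasDerivAt_Q (C : Caps) (e : ℝ) {x : ℝ} (hx0 : x ≠ 0) (hx1 : x ^ 2 < 1) (Ψ τ : ℝ)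
    (hφ : phc x τ < π / 2) :
    HasDerivAt (fun t => chQ C e (phc x t, C.Q.th x Ψ t))
      (C.Q.psi (phc x τ) • (vecQ C e Ψ x τ).2) τ := by
  have h1 : HasDerivAt (fun t => (phc x t, C.Q.th x Ψ t))
      (dphc x τ, C.Q.psi (phc x τ) * (x / sin (phc x τ) ^ 2)) τ :=
    (hasDerivAt_phc hx0 hx1 τ).prodMk (C.Q.hasDerivAt_th hx0 hx1 Ψ τ)
  have hmem : (phc x τ, C.Q.th x Ψ τ) ∈ {p : ℝ × ℝ | p.1 ∈ Ioo 0 (π / 2)} :=
    ⟨(phc_mem hx0 hx1 τ).1, hφ⟩
  have h2 : DifferentiableAt ℝ (chQ C e) (phc x τ, C.Q.th x Ψ τ) :=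
    ((contDiffOn_chQ C e).contDiffAt
      ((isOpen_strip 0 (π / 2)).mem_nhds hmem)).differentiableAt (by simp)
  have h3 := h2.hasFDerivAt.comp_hasDerivAt τ h1
  rw [← smul_velK, map_smul] at h3
  exact h3

/-- equality of the positions near `τ` implies equality of the unit vectors -/
theorem vec_eq (C : Caps) {e Θ c Ψ x τ a : ℝ} (hc0 : c ≠ 0) (hc1 : c ^ 2 < 1) (hx0 : x ≠ 0)
    (hx1 : x ^ 2 < 1) (hφ : phc x (τ - a + π / 2) < π / 2)
    (hP : C.P.psi (phc c τ) = 1) (hQ : C.Q.psi (phc x (τ - a + π / 2)) = 1)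
    (hpos : ∀ᶠ t in 𝓝 τ, chP C (phc c t, C.P.th c Θ t) =
      chQ C e (phc x (t - a + π / 2), C.Q.th x Ψ (t - a + π / 2))) :
    vecP C Θ c τ = vecQ C e Ψ x (τ - a + π / 2) := by
  have h1 := hasDerivAt_P C hc0 hc1 Θ τ
  have h2 := hasDerivAt_Q C e hx0 hx1 Ψ (τ - a + π / 2) hφ
  have h3 : HasDerivAt (fun t => t - a + π / 2) 1 τ := by
    simpa using ((hasDerivAt_id τ).sub_const a).add_const (π / 2)
  have h4 := HasDerivAt.scomp τ h2 h3
  rw [hP, one_smul] at h1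
  rw [hQ, one_smul, one_smul] at h4
  have h5 : (fun t => chP C (phc c t, C.P.th c Θ t)) =ᶠ[𝓝 τ]
      ((fun t => chQ C e (phc x t, C.Q.th x Ψ t)) ∘ fun t => t - a + π / 2) := hpos
  have h6 := h1.unique (h4.congr_of_eventuallyEq h5)
  refine Prod.ext ?_ h6
  exact hpos.self_of_nhds

theorem chQ_period_int (C : Caps) (e φ Θ : ℝ) (k : ℤ) :
    chQ C e (φ, Θ + k * π) = chQ C e (φ, Θ) := by
  have h : Function.Periodic (fun Θ => chQ C e (φ, Θ)) π := fun Θ => chQ_period C e φ Θ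
  exact h.int_mul k Θ

/-- The data of a near state which meets the cap `q`. -/
theorem data {z : St} (hz : |z.2| < 1) (hq : inQ z) (hb : z ∉ Bad) :
    z.2 ≠ 0 ∧ z.2 ^ 2 < 1 ∧ xx z ≠ 0 ∧ xx z ^ 2 < 1 ∧ 0 < cos z.1 ∧ |xx z| < 5 / 13 := by
  have h1 : z.2 ≠ 0 := fun h => hb (Or.inl h)
  have h2 : xx z ≠ 0 := fun h => hb (Or.inr (Or.inr (Or.inl h)))
  refine ⟨h1, (sq_lt_one_iff_abs_lt_one _).2 hz, h2, (sq_lt_one_iff_abs_lt_one _).2 ?_, hq.1, hq.2⟩
  linarith [hq.2]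

/-- trigonometry: the angle `Psi` -/
theorem psi_trig {z : St} (hz : |z.2| < 1) (hq : inQ z) (hb : z ∉ Bad) :
    0 < √(1 - xx z ^ 2) ∧ √(1 - xx z ^ 2) * sin (Psi z) = z.2 ∧
      √(1 - xx z ^ 2) * cos (Psi z) = -(√(1 - z.2 ^ 2) * cos z.1) ∧
      1 - xx z ^ 2 = cos z.1 ^ 2 + z.2 ^ 2 * sin z.1 ^ 2 := by
  obtain ⟨h1, h2, h3, h4, h5, h6⟩ := data hz hq hb
  have hr : 0 < √(1 - xx z ^ 2) := sqrt_pos.2 (by linarith)
  have hw : 0 ≤ √(1 - z.2 ^ 2) := sqrt_nonneg _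
  have hw2 : √(1 - z.2 ^ 2) ^ 2 = 1 - z.2 ^ 2 := sq_sqrt (by linarith)
  have hr2 : √(1 - xx z ^ 2) ^ 2 = 1 - xx z ^ 2 := sq_sqrt (by linarith)
  have hs := sin_sq_add_cos_sq z.1
  have hx2 : 1 - xx z ^ 2 = cos z.1 ^ 2 + z.2 ^ 2 * sin z.1 ^ 2 := by
    unfold xx
    rw [mul_pow, hw2]
    linear_combination -hs
  set r := √(1 - xx z ^ 2) with hrdef
  -- |c / r| ≤ 1
  have hcr : (z.2 / r) ^ 2 ≤ 1 := by
    rw [div_pow, div_le_one (by positivity), hr2, hx2]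
    have : z.2 ^ 2 * (1 - sin z.1 ^ 2) ≤ 1 * (1 - sin z.1 ^ 2) := by
      apply mul_le_mul_of_nonneg_right h2.le
      linarith [sin_sq_le_one z.1]
    linarith
  obtain ⟨c1, c2⟩ := abs_le.1 ((sq_le_one_iff_abs_le_one _).1 hcr)
  have e1 : sin (Psi z) = z.2 / r := by
    unfold Psi
    rw [sin_pi_sub, sin_arcsin c1 c2]
  have e2 : cos (Psi z) = -√(1 - (z.2 / r) ^ 2) := by
    unfold Psi
    rw [cos_pi_sub, cos_arcsin]
  refine ⟨hr, ?_, ?_, hx2⟩
  · rw [e1]; field_simp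
  · rw [e2]
    have e3 : r * √(1 - (z.2 / r) ^ 2) = √(1 - z.2 ^ 2) * cos z.1 := by
      have e4 : 0 ≤ √(1 - z.2 ^ 2) * cos z.1 := mul_nonneg hw h5.le
      have e5 : 0 ≤ r * √(1 - (z.2 / r) ^ 2) := mul_nonneg hr.le (sqrt_nonneg _)
      have e6 : (r * √(1 - (z.2 / r) ^ 2)) ^ 2 = (√(1 - z.2 ^ 2) * cos z.1) ^ 2 := by
        have e7 : √(1 - (z.2 / r) ^ 2) ^ 2 = 1 - (z.2 / r) ^ 2 := sq_sqrt (by linarith)
        rw [mul_pow, mul_pow, e7, hw2, div_pow]
        have : r ^ 2 * (1 - z.2 ^ 2 / r ^ 2) = r ^ 2 - z.2 ^ 2 := by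
          field_simp
        rw [this, hr2, hx2]
        linear_combination z.2 ^ 2 * hs
      exact (pow_left_inj₀ e5 e4 two_ne_zero).1 e6
    linarith

/-- trigonometry: the same great circle around `q` and around `p` -/
theorem circ_trig {z : St} (hz : |z.2| < 1) (hq : inQ z) (hb : z ∉ Bad)
    (h1 : ∀ τ, xK z.1 z.2 τ = √(1 - xx z ^ 2) * cos (τ - tauc z)) (τ : ℝ) :
    xK (Psi z) (xx z) (τ - tauc z + π / 2) = √(1 - z.2 ^ 2) * sin τ ∧
    cos (τ - tauc z + π / 2) * sin (Psi z) + xx z * sin (τ - tauc z + π / 2) * cos (Psi z) =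
      -(cos τ * sin z.1 + z.2 * sin τ * cos z.1) := by
  obtain ⟨hr, s1, s2, s3⟩ := psi_trig hz hq hb
  obtain ⟨d1, d2, d3, d4, d5, d6⟩ := data hz hq hb
  have a1 := h1 τ
  have a2 := h1 (τ + π / 2)
  have a3 : cos (τ + π / 2 - tauc z) = -sin (τ - tauc z) := by
    rw [show τ + π / 2 - tauc z = (τ - tauc z) + π / 2 by ring, cos_add_pi_div_two]
  rw [a3] at a2
  unfold xK at a1 a2
  rw [cos_add_pi_div_two, sin_add_pi_div_two] at a2
  rw [cos_add_pi_div_two, sin_add_pi_div_two]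
  unfold xK
  rw [cos_add_pi_div_two, sin_add_pi_div_two]
  set r := √(1 - xx z ^ 2) with hrdef
  set w := √(1 - z.2 ^ 2) with hwdef
  have hxx : xx z = w * sin z.1 := rfl
  have hr2 : r ^ 2 = 1 - xx z ^ 2 := sq_sqrt (by linarith)
  have hw2 : w ^ 2 = 1 - z.2 ^ 2 := sq_sqrt (by linarith)
  have hsc := sin_sq_add_cos_sq z.1
  have hrr : r ^ 2 ≠ 0 := by positivity
  constructor
  · apply mul_left_cancel₀ hrr
    have : r ^ 2 * (-sin (τ - tauc z) * cos (Psi z) - xx z * cos (τ - tauc z) * sin (Psi z)) =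
        (-(r * sin (τ - tauc z))) * (r * cos (Psi z)) -
          xx z * (r * cos (τ - tauc z)) * (r * sin (Psi z)) := by ring
    rw [this, s1, s2, ← a1]
    have b2 : r * sin (τ - tauc z) = sin τ * cos z.1 + z.2 * cos τ * sin z.1 := by linarith
    rw [b2, hr2, s3, hxx]
    ring
  · apply mul_left_cancel₀ hrr
    have : r ^ 2 * (-sin (τ - tauc z) * sin (Psi z) + xx z * cos (τ - tauc z) * cos (Psi z)) =
        (-(r * sin (τ - tauc z))) * (r * sin (Psi z)) +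
          xx z * (r * cos (τ - tauc z)) * (r * cos (Psi z)) := by ring
    rw [this, s1, s2, ← a1]
    have b2 : r * sin (τ - tauc z) = sin τ * cos z.1 + z.2 * cos τ * sin z.1 := by linarith
    rw [b2, hr2, s3, hxx]
    linear_combination (-(sin z.1 * cos z.1 * (cos τ * cos z.1 - z.2 * sin τ * sin z.1))) * hw2 +
      (z.2 * cos z.1 * sin τ + z.2 ^ 2 * sin z.1 * cos τ) * hsc

/-- The region of the parameters where the first chart is round. -/
structure Reg (z : St) (τ : ℝ) : Prop where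
  hi : |τ - tauc z| < π / 2
  cap : |z.2| < 12 / 13 → |τ| < tau3 z.2

theorem Reg.cond (hT : SpecTRI) {z : St} (hz : |z.2| < 1) {τ : ℝ} (h : Reg z τ) :
    12 / 13 ≤ |z.2| ∨ |τ| ≤ π / 2 ∧ (1 - z.2 ^ 2) * sin τ ^ 2 ≤ 1 - (12 / 13) ^ 2 := by
  obtain ⟨-, -, -, -, -, T6, -, -⟩ := hT z hz
  rcases le_or_gt (12 / 13) |z.2| with h1 | h1
  · exact Or.inl h1
  · obtain ⟨t1, t2, -, t4⟩ := T6 h1
    have h2 := h.cap h1
    have h3 : |τ| ≤ π / 2 := by linarith
    refine Or.inr ⟨h3, ?_⟩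
    have := (t4 τ h3).2 h2
    norm_num at this ⊢
    linarith

theorem Reg.posP (hK : SpecKTH) (hT : SpecTRI) (C : Caps) {z : St} (hz : |z.2| < 1) (hq : inQ z)
    (hb : z ∉ Bad) {τ : ℝ} (h : Reg z τ) :
    sin (phc z.2 τ) * cos (C.P.th z.2 z.1 τ) = √(1 - xx z ^ 2) * cos (τ - tauc z) ∧
    sin (phc z.2 τ) * sin (C.P.th z.2 z.1 τ) = cos τ * sin z.1 + z.2 * sin τ * cos z.1 ∧
    cos (phc z.2 τ) = √(1 - z.2 ^ 2) * sin τ ∧ (12 / 13) ^ 2 ≤ sin (phc z.2 τ) ^ 2 := by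
  obtain ⟨T1, -, -, -, -, -, -, -⟩ := hT z hz
  obtain ⟨d1, d2, d3, d4, d5, d6⟩ := data hz hq hb
  obtain ⟨-, -, -, -, K5, -, K7⟩ := hK C.P z.2 d1 hz
  have hc := h.cond hT hz
  rw [← C.Pa] at hc
  obtain ⟨k1, k2⟩ := K5 z.1 τ hc
  obtain ⟨k3, -, k4⟩ := K7 τ
  refine ⟨k1.trans (T1 d5 τ), k2, k3, ?_⟩
  rw [k4]
  rcases h.cond hT hz with h1 | ⟨-, h1⟩
  · have h2 : (12 / 13 : ℝ) ^ 2 ≤ z.2 ^ 2 := by
      rw [← sq_abs z.2]
      exact pow_le_pow_left₀ (by norm_num) h1 2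
    have h3 : (1 - z.2 ^ 2) * sin τ ^ 2 ≤ (1 - z.2 ^ 2) * 1 :=
      mul_le_mul_of_nonneg_left (sin_sq_le_one τ) (by linarith)
    linarith
  · linarith

theorem Reg.esgn_pos (hK : SpecKTH) (hT : SpecTRI) (C : Caps) {z : St} (hz : |z.2| < 1)
    (hq : inQ z) (hb : z ∉ Bad) {τ : ℝ} (h : Reg z τ) :
    0 < esgn z * cos (C.P.th z.2 z.1 τ / 2) := by
  obtain ⟨-, -, T3, -, -, T6, -, -⟩ := hT z hz
  obtain ⟨d1, d2, d3, d4, d5, d6⟩ := data hz hq hb
  obtain ⟨hr, -⟩ := psi_trig hz hq hb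
  obtain ⟨-, -, -, -, -, K6, -⟩ := hK C.P z.2 d1 hz
  have hreg : ∀ σ ∈ uIcc 0 τ, Reg z σ := by
    intro σ hσ
    have hh := abs_lt.1 h.hi
    have ht := abs_lt.1 T3
    have h1 : min 0 τ ≤ σ := hσ.1
    have h2 : σ ≤ max 0 τ := hσ.2
    constructor
    · rw [abs_lt]
      constructor
      · rcases min_choice 0 τ with h3 | h3 <;> rw [h3] at h1 <;> linarith
      · rcases max_choice 0 τ with h3 | h3 <;> rw [h3] at h2 <;> linarith
    · intro h4
      have h5 := abs_lt.1 (h.cap h4)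
      have h6 := (T6 h4).1
      rw [abs_lt]
      constructor
      · rcases min_choice 0 τ with h3 | h3 <;> rw [h3] at h1 <;> linarith
      · rcases max_choice 0 τ with h3 | h3 <;> rw [h3] at h2 <;> linarith
  have hne : ∀ σ ∈ uIcc 0 τ, esgn z * cos (C.P.th z.2 z.1 σ / 2) ≠ 0 := by
    intro σ hσ h0
    have h1 := (hreg σ hσ).posP hK hT C hz hq hb
    have h2 : 0 < cos (σ - tauc z) := cos_pos_of_mem_Ioo (by
      have := abs_lt.1 (hreg σ hσ).hi
      exact ⟨by linarith, by linarith⟩)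
    have h3 : 0 < sin (phc z.2 σ) := sin_phc_pos d1 d2 σ
    have h4 : 0 < cos (C.P.th z.2 z.1 σ) := by
      have h5 : 0 < sin (phc z.2 σ) * cos (C.P.th z.2 z.1 σ) := by
        rw [h1.1]; exact mul_pos hr h2
      exact (pos_iff_pos_of_mul_pos h5).1 h3
    have h6 : esgn z ≠ 0 := by
      unfold esgn
      split_ifs <;> norm_num
    have h7 : cos (C.P.th z.2 z.1 σ / 2) = 0 := (mul_eq_zero.1 h0).resolve_left h6
    have h8 := cos_sq' (C.P.th z.2 z.1 σ / 2)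
    have h9 := cos_two_mul (C.P.th z.2 z.1 σ / 2)
    rw [h7, show 2 * (C.P.th z.2 z.1 σ / 2) = C.P.th z.2 z.1 σ by ring] at h9
    norm_num at h9
    linarith
  have h0 : 0 < esgn z * cos (C.P.th z.2 z.1 0 / 2) := by
    have hne0 := hne 0 left_mem_uIcc
    have e0 : C.P.th z.2 z.1 0 = z.1 := by simp [Cap.th]
    rw [e0] at hne0 ⊢
    unfold esgn at hne0 ⊢
    split_ifs at hne0 ⊢ with h1
    · linarith
    · push Not at h1
      rcases h1.lt_or_eq with h2 | h2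
      · linarith
      · rw [h2] at hne0; simp at hne0
  by_contra hcon
  push Not at hcon
  have hcont : ContinuousOn (fun σ => esgn z * cos (C.P.th z.2 z.1 σ / 2)) (uIcc 0 τ) := by
    have := K6 z.1
    fun_prop
  have h1 := intermediate_value_uIcc hcont
  have h2 : (0 : ℝ) ∈ uIcc (esgn z * cos (C.P.th z.2 z.1 0 / 2))
      (esgn z * cos (C.P.th z.2 z.1 τ / 2)) := by
    rw [uIcc_of_ge (by linarith)]
    exact ⟨hcon, h0.le⟩
  obtain ⟨σ, hσ, h3⟩ := h1 h2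
  exact hne σ hσ h3

/-- the position in the second chart -/
theorem Reg.position (hK : SpecKTH) (hT : SpecTRI) (C : Caps) {z : St} (hz : |z.2| < 1)
    (hq : inQ z) (hb : z ∉ Bad) {τ : ℝ} (h : Reg z τ) (h1 : sigb z < |τ - tauc z|)
    {Θ' : ℝ} (hc : sin (phc (xx z) (τ - tauc z + π / 2)) * cos Θ' =
      xK (Psi z) (xx z) (τ - tauc z + π / 2))
    (hs : sin (phc (xx z) (τ - tauc z + π / 2)) * sin Θ' =
      cos (τ - tauc z + π / 2) * sin (Psi z) + xx z * sin (τ - tauc z + π / 2) * cos (Psi z)) :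
    chP C (phc z.2 τ, C.P.th z.2 z.1 τ) =
      chQ C (esgn z) (phc (xx z) (τ - tauc z + π / 2), Θ') := by
  obtain ⟨T1, -, T3, -, -, T6, T7, -⟩ := hT z hz
  obtain ⟨d1, d2, d3, d4, d5, d6⟩ := data hz hq hb
  obtain ⟨hr, -⟩ := psi_trig hz hq hb
  obtain ⟨p1, p2, p3, p4⟩ := h.posP hK hT C hz hq hb
  obtain ⟨c1, c2⟩ := circ_trig hz hq hb (T1 d5) τ
  obtain ⟨s1, s2, s3⟩ := T7 d6
  have hcos : 0 < cos (τ - tauc z) := cos_pos_of_mem_Ioo (by
    have := abs_lt.1 h.hi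
    exact ⟨by linarith, by linarith⟩)
  have hle : √(1 - xx z ^ 2) * cos (τ - tauc z) ≤ 12 / 13 := by
    rw [← s3]
    apply mul_le_mul_of_nonneg_left _ hr.le
    rw [← cos_abs (τ - tauc z)]
    exact cos_le_cos_of_nonneg_of_le_pi s1.le (by linarith [h.hi, pi_pos]) h1.le
  have hφ : cos (phc (xx z) (τ - tauc z + π / 2)) = √(1 - xx z ^ 2) * cos (τ - tauc z) := by
    rw [cos_phc d3 d4, sin_add_pi_div_two]
  have hφ2 : phc (xx z) (τ - tauc z + π / 2) ∈ Ioo 0 (π / 2) := by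
    have hm := phc_mem d3 d4 (τ - tauc z + π / 2)
    refine ⟨hm.1, ?_⟩
    by_contra hcon
    push Not at hcon
    have := cos_nonpos_of_pi_div_two_le_of_le hcon (by linarith [hm.2, pi_pos])
    rw [hφ] at this
    have := mul_pos hr hcos
    linarith
  apply trans C (phc_mem d1 d2 τ) _ _ hφ2 _ _ _ _ (h.esgn_pos hK hT C hz hq hb)
  · have h3 := sin_sq_add_cos_sq (phc z.2 τ)
    apply abs_le_of_sq_le_sq _ (by norm_num)
    norm_num at p4 ⊢
    linarith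
  · rw [p1]; exact hle
  · rw [p1, hφ]
  · rw [p2, hs, c2]; ring
  · rw [p3, hc, c1]
  · unfold esgn
    split_ifs
    · exact Or.inl rfl
    · exact Or.inr rfl

end TrvM

open TrvM in
/-- TRV -/
theorem specTRV (hK : SpecKTH) (hT : SpecTRI) : SpecTRV := by
  intro C z hz hq hb
  obtain ⟨T1, -, T3, -, T5, T6, T7, -⟩ := hT z hz
  obtain ⟨d1, d2, d3, d4, d5, d6⟩ := data hz hq hb
  obtain ⟨hr, -⟩ := psi_trig hz hq hb
  obtain ⟨s1, s2, s3⟩ := T7 d6
  have hx1 : |xx z| < 1 := by linarith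
  obtain ⟨-, Q2, -, Q4, Q5, -, Q7⟩ := hK C.Q (xx z) d3 hx1
  -- common facts in the region
  have common : ∀ τ, Reg z τ → sigb z < |τ - tauc z| →
      phc (xx z) (τ - tauc z + π / 2) < π / 2 ∧ C.P.psi (phc z.2 τ) = 1 ∧
      C.Q.psi (phc (xx z) (τ - tauc z + π / 2)) = 1 ∧
      (1 - xx z ^ 2) * sin (τ - tauc z + π / 2) ^ 2 ≤ 1 - C.Q.a ^ 2 := by
    intro τ h h1
    have hcos : 0 < cos (τ - tauc z) := cos_pos_of_mem_Ioo (by
      have := abs_lt.1 h.hi
      exact ⟨by linarith, by linarith⟩)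
    have hle : √(1 - xx z ^ 2) * cos (τ - tauc z) ≤ 12 / 13 := by
      rw [← s3]
      apply mul_le_mul_of_nonneg_left _ hr.le
      rw [← cos_abs (τ - tauc z)]
      exact cos_le_cos_of_nonneg_of_le_pi s1.le (by linarith [h.hi, pi_pos]) h1.le
    have hφ : cos (phc (xx z) (τ - tauc z + π / 2)) = √(1 - xx z ^ 2) * cos (τ - tauc z) := by
      rw [cos_phc d3 d4, sin_add_pi_div_two]
    have hm := phc_mem d3 d4 (τ - tauc z + π / 2)
    have hsq : (√(1 - xx z ^ 2) * cos (τ - tauc z)) ^ 2 ≤ (12 / 13) ^ 2 :=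
      pow_le_pow_left₀ (mul_pos hr hcos).le hle 2
    have hin : (1 - xx z ^ 2) * sin (τ - tauc z + π / 2) ^ 2 ≤ 1 - C.Q.a ^ 2 := by
      rw [sin_add_pi_div_two, C.Qa]
      rw [mul_pow, sq_sqrt (by linarith)] at hsq
      norm_num at hsq ⊢
      linarith
    refine ⟨?_, ?_, ?_, hin⟩
    · by_contra hcon
      push Not at hcon
      have := cos_nonpos_of_pi_div_two_le_of_le hcon (by linarith [hm.2, pi_pos])
      rw [hφ] at this
      have := mul_pos hr hcos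
      linarith
    · apply C.P.psi_eq_one
      rw [C.Pa]
      exact (h.posP hK hT C hz hq hb).2.2.2
    · apply C.Q.psi_eq_one
      rw [sin_phc_sq d3 d4]
      linarith
  constructor
  · intro τ h1 h2 h3
    have hev : ∀ᶠ t in 𝓝 τ, tauc z - π / 2 < t ∧ t < tauc z - sigb z ∧
        (|z.2| < 12 / 13 → -tau3 z.2 < t) := by
      filter_upwards [lt_mem_nhds h1, gt_mem_nhds h2,
        (if h : |z.2| < 12 / 13 then (lt_mem_nhds (h3 h)).mono (fun t ht _ => ht)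
          else Filter.Eventually.of_forall (fun t h' => absurd h' h) :
          ∀ᶠ t in 𝓝 τ, |z.2| < 12 / 13 → -tau3 z.2 < t)] with t a1 a2 a3
      exact ⟨a1, a2, a3⟩
    have hR : ∀ t, tauc z - π / 2 < t → t < tauc z - sigb z →
        (|z.2| < 12 / 13 → -tau3 z.2 < t) → Reg z t ∧ sigb z < |t - tauc z| ∧
          |t - tauc z + π / 2| ≤ π / 2 := by
      intro t a1 a2 a3
      have e1 : |t - tauc z| = tauc z - t := by
        rw [abs_of_neg (by linarith)]; ring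
      refine ⟨⟨by rw [e1]; linarith, ?_⟩, by rw [e1]; linarith, ?_⟩
      · intro h4
        obtain ⟨b1, b2⟩ := T5 hq hb h4
        rw [abs_lt]
        exact ⟨a3 h4, by linarith⟩
      · rw [abs_le]
        constructor <;> linarith
    have hpos : ∀ᶠ t in 𝓝 τ, chP C (phc z.2 t, C.P.th z.2 z.1 t) =
        chQ C (esgn z) (phc (xx z) (t - tauc z + π / 2),
          C.Q.th (xx z) (Psi z) (t - tauc z + π / 2)) := by
      filter_upwards [hev] with t ht
      obtain ⟨r1, r2, r3⟩ := hR t ht.1 ht.2.1 ht.2.2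
      obtain ⟨q1, q2⟩ := Q5 (Psi z) (t - tauc z + π / 2) (Or.inr ⟨r3, (common t r1 r2).2.2.2⟩)
      exact r1.position hK hT C hz hq hb r2 q1 q2
    obtain ⟨r1, r2, r3⟩ := hR τ h1 h2 h3
    obtain ⟨c1, c2, c3, -⟩ := common τ r1 r2
    exact TrvM.vec_eq C d1 d2 d3 d4 c1 c2 c3 hpos
  · intro Ψ₀ hΨ τ h1 h2 h3
    obtain ⟨k, hk⟩ := hΨ
    have hev : ∀ᶠ t in 𝓝 τ, tauc z + sigb z < t ∧ t < tauc z + π / 2 ∧
        (|z.2| < 12 / 13 → t < tau3 z.2) := by
      filter_upwards [lt_mem_nhds h1, gt_mem_nhds h2,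
        (if h : |z.2| < 12 / 13 then (gt_mem_nhds (h3 h)).mono (fun t ht _ => ht)
          else Filter.Eventually.of_forall (fun t h' => absurd h' h) :
          ∀ᶠ t in 𝓝 τ, |z.2| < 12 / 13 → t < tau3 z.2)] with t a1 a2 a3
      exact ⟨a1, a2, a3⟩
    have hR : ∀ t, tauc z + sigb z < t → t < tauc z + π / 2 →
        (|z.2| < 12 / 13 → t < tau3 z.2) → Reg z t ∧ sigb z < |t - tauc z| ∧
          |t - tauc z - π / 2| ≤ π / 2 := by
      intro t a1 a2 a3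
      have e1 : |t - tauc z| = t - tauc z := abs_of_pos (by linarith)
      refine ⟨⟨by rw [e1]; linarith, ?_⟩, by rw [e1]; linarith, ?_⟩
      · intro h4
        obtain ⟨b1, b2⟩ := T5 hq hb h4
        rw [abs_lt]
        exact ⟨by linarith, a3 h4⟩
      · rw [abs_le]
        constructor <;> linarith
    have hpos : ∀ᶠ t in 𝓝 τ, chP C (phc z.2 t, C.P.th z.2 z.1 t) =
        chQ C (esgn z) (phc (xx z) (t - tauc z + π / 2),
          C.Q.th (xx z) Ψ₀ (t - tauc z + π / 2)) := by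
      filter_upwards [hev] with t ht
      obtain ⟨r1, r2, r3⟩ := hR t ht.1 ht.2.1 ht.2.2
      have e1 : sin (t - tauc z + π / 2) = -sin (t - tauc z - π / 2) := by
        rw [show t - tauc z + π / 2 = (t - tauc z - π / 2) + π by ring, sin_add_pi]
      have e2 : cos (t - tauc z + π / 2) = -cos (t - tauc z - π / 2) := by
        rw [show t - tauc z + π / 2 = (t - tauc z - π / 2) + π by ring, cos_add_pi]
      have hin := (common t r1 r2).2.2.2
      rw [e1, neg_sq] at hin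
      obtain ⟨q1, q2⟩ := Q5 (Psi z) (t - tauc z - π / 2) (Or.inr ⟨r3, hin⟩)
      have hsin : sin (phc (xx z) (t - tauc z + π / 2)) =
          sin (phc (xx z) (t - tauc z - π / 2)) := by
        rw [sin_phc_eq, sin_phc_eq, e1]
        congr 2
        ring
      have hth : C.Q.th (xx z) Ψ₀ (t - tauc z + π / 2) =
          (C.Q.th (xx z) (Psi z) (t - tauc z - π / 2) + π) + ((k - 1 : ℤ) : ℝ) * π := by
        have e3 := Q2 Ψ₀ (t - tauc z - π / 2)
        rw [show π + (t - tauc z - π / 2) = t - tauc z + π / 2 by ring] at e3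
        rw [e3, hk, Q4 (Psi z)]
        push_cast
        ring
      rw [hth, chQ_period_int]
      apply r1.position hK hT C hz hq hb r2
      · rw [hsin, cos_add_pi, mul_neg, q1]
        unfold xK
        rw [e1, e2]
        ring
      · rw [hsin, sin_add_pi, mul_neg, q2, e1, e2]
        ring
    obtain ⟨r1, r2, r3⟩ := hR τ h1 h2 h3
    obtain ⟨c1, c2, c3, -⟩ := common τ r1 r2
    exact TrvM.vec_eq C d1 d2 d3 d4 c1 c2 c3 hpos

end Pool.Agent.Lib.MP_d2b992_gt.Erg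
end
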