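import Pool.Agent.Lib.MP_d2b992_gt.Erg.CurvF

/-!
# The Liouville measure and ergodicity of the geodesic flow
-/

namespace Pool.Agent.Lib.MP_d2b992_gt.Erg

open Set Filter Topology MeasureTheory Real
open scoped ContDiff InnerProductSpace

/-- The unit tangent bundle: the pairs of a point of the unit sphere and a tangent vector of length
one at this point. -/
def UM (M : SphereMetric) : Set (R3 × R3) := 
  {z | ‖z.1‖ = 1 ∧ ⟪z.1, z.2⟫_ℝ = 0 ∧ M.g z.1 z.2 z.2 = 1}

/-- The density `√(E G - F ^ 2)` of the area of the metric in the stereographic chart. -/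
noncomputable def dens (M : SphereMetric) (p : ℝ × ℝ) : ℝ := 
  √(M.cE 1 p * M.cG 1 p - M.cF 1 p ^ 2)

/-- The unit tangent vector at the point `stereo 1 p` which makes the angle `θ` with the first
coordinate direction of the chart; `q = (p, θ)`. -/
noncomputable def uvec (M : SphereMetric) (q : (ℝ × ℝ) × ℝ) : R3 × R3 := 
  (stereo 1 q.1, (cos q.2 / √(M.cE 1 q.1)) • du (stereo 1) q.1 + 
    (sin q.2 / (√(M.cE 1 q.1) * dens M q.1)) • 
      (M.cE 1 q.1 • dv (stereo 1) q.1 - M.cF 1 q.1 • du (stereo 1) q.1))

/-- The Liouville measure of the unit tangent bundle, the product of the area of the metric and of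
the arc length of the circles of unit tangent vectors. -/
noncomputable def liouville (M : SphereMetric) : Measure (R3 × R3) := 
  (((volume : Measure ((ℝ × ℝ) × ℝ)).restrict (univ ×ˢ Ioc 0 (2 * π))).withDensity 
    fun q => ENNReal.ofReal (dens M q.1)).map (uvec M)

/-- The Liouville measure, normalised to total mass one. -/
noncomputable def mu (M : SphereMetric) : Measure (R3 × R3) := (liouville M univ)⁻¹ • liouville M

/-- Sets of tangent vectors which are invariant under the geodesic flow. -/
def Invariant (M : SphereMetric) (A : Set (R3 × R3)) : Prop := 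
  ∀ γ : ℝ → R3, M.IsGeodesic γ → ∀ t, ((γ 0, deriv γ 0) ∈ A ↔ (γ t, deriv γ t) ∈ A)

/-- Sets of tangent vectors which are invariant along all geodesic arcs. -/
def InvariantArc (M : SphereMetric) (A : Set (R3 × R3)) : Prop := 
  ∀ (γ : ℝ → R3) (a b : ℝ), IsGeodesicOn M γ (Ioo a b) → ∀ s ∈ Ioo a b, ∀ t ∈ Ioo a b, 
    ((γ s, deriv γ s) ∈ A ↔ (γ t, deriv γ t) ∈ A)

/-- The geodesic flow is ergodic. -/
def IsErgodic (M : SphereMetric) : Prop := 
  ∀ A : Set (R3 × R3), MeasurableSet A → Invariant M A → mu M A = 0 ∨ mu M A = 1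

end Pool.Agent.Lib.MP_d2b992_gt.Erg
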