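import Pool.Agent.Lib.MP_d2b992_gt.Erg.CurvF
import Pool.Agent.Lib.MP_d2b992_gt.Erg.Stmt

section
/-!
# The metric has positive curvature
-/
namespace Pool.Agent.Lib.MP_d2b992_gt.Erg

open Set Filter Topology
open scoped ContDiff InnerProductSpace

/-- The local formulas of the conformal factor. -/
theorem lam_ev (C : Caps) {x : R3} (hx : ‖x‖ = 1) : 
    (C.lam =ᶠ[𝓝 x] C.lamP ∧ SS x < 1) ∨ 
    (C.lam =ᶠ[𝓝 x] C.lamQ ∧ 0 < 1 + x 2 ∧ 2 * nu x < 1 + x 2) ∨
    (C.lam =ᶠ[𝓝 x] lam1 ∧ 0 < nu x) ∨ (SS x = 12 / 13 ∧ 2 * nu x = 1 / 25 * (1 + x 2)) := by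
  obtain ⟨x1, x2, x3⟩ := sphere_le hx
  have hd := den_pos x
  have cS := continuous_SS.continuousAt (x := x)
  have cn := continuous_nu.continuousAt (x := x)
  have c2 : ContinuousAt (fun y : R3 => y 2) x := by fun_prop
  have c3 : ContinuousAt (fun y : R3 => 2 * nu y) x := by fun_prop
  have c4 : ContinuousAt (fun y : R3 => 1 / 25 * (1 + y 2)) x := by fun_prop
  have c5 : ContinuousAt (fun y : R3 => 1 + y 2) x := by fun_prop
  rcases lt_trichotomy (SS x) (12 / 13) with h | h | h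
  · left
    refine ⟨?_, by linarith⟩
    filter_upwards [cS.eventually (gt_mem_nhds h)] with y hy using C.lam_of_P hy
  · have hle := disj' h.le
    have e1 : ∀ᶠ y in 𝓝 x, SS y < 1 := cS.eventually (gt_mem_nhds (by linarith))
    rcases hle.eq_or_lt with h2 | h2
    · right; right; right
      exact ⟨h, h2.symm⟩
    · left
      refine ⟨?_, by linarith⟩
      have e2 : ∀ᶠ y in 𝓝 x, 1 / 25 * (1 + y 2) < 2 * nu y := c4.eventually_lt c3 h2
      filter_upwards [e1, e2] with y y1 y2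
      rcases lt_or_ge (SS y) (12 / 13) with h5 | h5
      · exact C.lam_of_P h5
      · rw [C.lam_of_one h5 y2.le, C.lamP_eq h5 y1]
  · have e1 : ∀ᶠ y in 𝓝 x, 12 / 13 < SS y := cS.eventually (lt_mem_nhds h)
    rcases lt_trichotomy (2 * nu x) (1 / 25 * (1 + x 2)) with h2 | h2 | h2
    · right; left
      have h0 := nu_nonneg x
      refine ⟨?_, by linarith, by linarith⟩
      filter_upwards [c3.eventually_lt c4 h2] with y hy using C.lam_of_Q hy
    · right; left
      have hx2 : 0 < 1 + x 2 := by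
        by_contra h3
        push Not at h3
        have h4 : x 2 = -1 := by linarith
        have h5 := abs_le_nu x
        rw [h4] at h2 h5
        norm_num at h2 h5
        linarith
      refine ⟨?_, hx2, by linarith⟩
      have e2 : ∀ᶠ y in 𝓝 x, 2 * nu y < 1 + y 2 := c3.eventually_lt c5 (by linarith)
      have e3 : ∀ᶠ y in 𝓝 x, 0 < 1 + y 2 := c5.eventually (lt_mem_nhds hx2)
      filter_upwards [e1, e2, e3] with y y1 y2 y3
      rcases lt_or_ge (2 * nu y) (1 / 25 * (1 + y 2)) with h6 | h6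
      · exact C.lam_of_Q h6
      · rw [C.lam_of_one y1.le h6, C.lamQ_eq y3 h6 y2]
    · right; right; left
      refine ⟨?_, by linarith⟩
      filter_upwards [e1, c4.eventually_lt c3 h2] with y y1 y2 using C.lam_of_one y1.le y2.le

/-- Points at which there is a radial form with curvature at least `ε`. -/
def Good (C : Caps) (ε : ℝ) (p : ℝ × ℝ) : Prop := ∃ f g, Form C p f g ∧ 
  ε ≤ -deriv (deriv g) (Real.log ‖f (cc p)‖) / (2 * Real.exp (g (Real.log ‖f (cc p)‖)))

theorem exists_good (C : Caps) : ∃ ε > 0, ∀ p : ℝ × ℝ, p ≠ 0 → 1 - cc p ^ 2 ≠ 0 → 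
    1 - cc p ^ 2 ≠ 1 / 25 → Good C ε p := by
  obtain ⟨ε1, h1, b1⟩ := C.P.exists_curv_lb
  obtain ⟨ε2, h2, b2⟩ := C.Q.exists_curv_lb
  refine ⟨min (min ε1 ε2) 1, lt_min (lt_min h1 h2) one_pos, fun p hp hw ht => ?_⟩
  have hn : ‖stereo 1 p‖ = 1 := norm_stereo (Or.inl rfl) p
  rcases lam_ev C hn with ⟨a, b⟩ | ⟨a, b, c⟩ | ⟨a, b⟩ | ⟨a, b⟩
  · have hf := form_P hp b a
    refine ⟨yy, C.P.gg 1 1, hf, ?_⟩
    have hz := cc_ne_zero hp
    have b' := b
    rw [SS_stereo] at b'
    have hsl := slit_of_SS b'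
    have k1 : 0 < ‖yy (cc p)‖ := norm_pos_iff.2 hf.ne
    have k2 : ‖yy (cc p)‖ < 1 := by
      rw [norm_yy hsl]
      exact (var_P (by positivity) b').2
    rw [(C.P.gg_spec one_pos one_pos (Real.log_neg k1 k2)).2.2, C.Pn, Nat.cast_one, one_mul, 
      one_mul, Real.exp_log k1]
    obtain ⟨u0, u1, u2⟩ := C.P.U_spec k1.le k2
    have := b1 _ u0 u1
    refine ((min_le_left _ _).trans (min_le_left _ _)).trans ?_
    simpa using this
  · have hr : ‖1 - cc p ^ 2‖ < 1 := by
      rw [one_add_stereo, nu_stereo (Or.inl rfl)] at c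
      have hI := II_pos p
      nlinarith
    have hf := form_Q hp hw hr a
    refine ⟨fun z => 1 - z ^ 2, C.Q.gg 2 4, hf, ?_⟩
    have k1 : 0 < ‖1 - cc p ^ 2‖ := norm_pos_iff.2 hw
    have e1 : Real.exp ((2:ℕ) * Real.log ‖1 - cc p ^ 2‖) = ‖1 - cc p ^ 2‖ ^ 2 := by
      rw [Real.exp_nat_mul, Real.exp_log k1]
    rw [(C.Q.gg_spec two_pos four_pos (Real.log_neg k1 hr)).2.2, C.Qn, e1]
    obtain ⟨u0, u1, u2⟩ := C.Q.U_spec (x := ‖1 - cc p ^ 2‖ ^ 2) (by positivity) 
      (pow_lt_one₀ k1.le hr two_ne_zero)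
    have := b2 _ u0 u1
    refine ((min_le_left _ _).trans (min_le_right _ _)).trans ?_
    norm_num
    linarith
  · have hf := form_one (C := C) hp hw a
    refine ⟨fun z => 1 - z ^ 2, g1, hf, ?_⟩
    rw [(g1_spec _).2.2]
    exact min_le_right _ _
  · exfalso
    have hI := II_pos p
    rw [one_add_stereo, nu_stereo (Or.inl rfl)] at b
    have r1 : ‖1 - cc p ^ 2‖ = 1 / 25 := by
      have : II p * (‖1 - cc p ^ 2‖ - 1 / 25) = 0 := by linear_combination b / 2
      rcases mul_eq_zero.1 this with h | h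
      · exact absurd h hI.ne'
      · linarith
    rw [SS_stereo, r1] at a
    have r2 : ‖cc p‖ ^ 2 = 24 / 25 := by
      rw [div_eq_iff (by norm_num)] at a
      linarith
    set w := 1 - cc p ^ 2 with hwdef
    have r3 : ‖1 - w‖ = 24 / 25 := by
      rw [← r2, ← norm_pow]
      congr 1
      rw [hwdef]
      ring
    have s1 : w.re * w.re + w.im * w.im = (1 / 25) ^ 2 := by
      rw [← r1, ← Complex.normSq_eq_norm_sq, Complex.normSq_apply]
    have s2 : (1 - w.re) * (1 - w.re) + w.im * w.im = (24 / 25) ^ 2 := by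
      rw [← r3, ← Complex.normSq_eq_norm_sq, Complex.normSq_apply]
      simp
    have s3 : w.re = 1 / 25 := by linarith
    have s4 : w.im = 0 := by
      rw [s3] at s1
      have : w.im * w.im = 0 := by linarith
      exact mul_self_eq_zero.1 this
    apply ht
    apply Complex.ext
    · rw [s3]; simp
    · rw [s4]; simp

theorem finite_sq (a : ℂ) : {z : ℂ | z ^ 2 = a}.Finite := by
  by_cases h : ∃ z0 : ℂ, z0 ^ 2 = a
  · obtain ⟨z0, hz0⟩ := h
    apply Set.Finite.subset (Set.toFinite {z0, -z0})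
    intro z hz
    have h1 : z ^ 2 = z0 ^ 2 := by rw [hz0]; exact hz
    rcases sq_eq_sq_iff_eq_or_eq_neg.1 h1 with h2 | h2
    · exact Or.inl h2
    · exact Or.inr h2
  · have : {z : ℂ | z ^ 2 = a} = ∅ := by
      ext z
      simp only [mem_ofPred_eq, mem_empty_iff_false, iff_false]
      exact fun hz => h ⟨z, hz⟩
    rw [this]
    exact Set.finite_empty

theorem cc_injective : Function.Injective cc := Complex.equivRealProdCLM.symm.injective

theorem countable_exc1 (a : ℂ) : {p : ℝ × ℝ | cc p ^ 2 = a}.Countable := 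
  ((finite_sq a).preimage cc_injective.injOn).countable

theorem countable_exc2 (a : ℂ) : {p : ℝ × ℝ | (cc p)⁻¹ ^ 2 = a}.Countable := by
  have h := (finite_sq a).preimage (f := fun p => (cc p)⁻¹) 
    (fun x _ y _ hxy => cc_injective (inv_injective hxy))
  exact h.countable

theorem contDiff_LL (C : Caps) {s : ℝ} (hs : s = 1 ∨ s = -1) : ContDiff ℝ ∞ (LL C s) := by
  have h1 : ContDiff ℝ ∞ (fun p => C.lam (stereo s p)) := by
    rw [contDiff_iff_contDiffAt]
    intro p
    exact ContDiffAt.comp (g := C.lam) p (C.contDiffAt_lam (norm_stereo hs p)) 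
      (contDiff_stereo s).contDiffAt
  exact h1.mul (contDiff_const.mul (contDiff_II.pow 2))

theorem LL_pos (C : Caps) {s : ℝ} (hs : s = 1 ∨ s = -1) (p : ℝ × ℝ) : 0 < LL C s p := by
  have h1 := C.lam_pos (norm_stereo hs p)
  have h2 := II_pos p
  unfold LL
  positivity

theorem continuous_curvature (C : Caps) {s : ℝ} (hs : s = 1 ∨ s = -1) : 
    Continuous (C.metric.curvature s) := by
  have h0 : C.metric.curvature s = fun p => brioschi (LL C s) (fun _ => 0) (LL C s) p := by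
    funext p; exact curvature_eq C hs p
  rw [h0, continuous_iff_continuousAt]
  intro p
  have hE : ContDiff ℝ ∞ (fun z : ℝ × (ℝ × ℝ) => LL C s z.2) := (contDiff_LL C hs).comp contDiff_snd
  have hF : ContDiff ℝ ∞ (fun _ : ℝ × (ℝ × ℝ) => (0:ℝ)) := contDiff_const
  have h1 := continuousAt_brioschi (z := (0, p)) hE hF hE (by
    have := LL_pos C hs p
    simp only
    nlinarith [mul_pos this this])
  exact ContinuousAt.comp (g := fun z : ℝ × (ℝ × ℝ) => brioschi (LL C s) (fun _ => 0) (LL C s) z.2) 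
    (f := fun q : ℝ × ℝ => ((0:ℝ), q)) (x := p) h1 (by fun_prop)

/-- **The curvature is bounded below by a positive constant.** -/
theorem exists_curvature_lb (C : Caps) : ∃ ε > 0, ∀ s, (s = 1 ∨ s = -1) → 
    ∀ p, ε ≤ C.metric.curvature s p := by
  obtain ⟨ε, hε, hgood⟩ := exists_good C
  refine ⟨ε, hε, fun s hs => ?_⟩
  have hcl : IsClosed {p | ε ≤ C.metric.curvature s p} := 
    isClosed_le continuous_const (continuous_curvature C hs)
  have key : ∃ S : Set (ℝ × ℝ), S.Countable ∧ ∀ p ∈ Sᶜ, ε ≤ C.metric.curvature s p := by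
    rcases hs with rfl | rfl
    · refine ⟨{p | cc p ^ 2 = 0} ∪ {p | cc p ^ 2 = 1} ∪ {p | cc p ^ 2 = 24 / 25}, 
        ((countable_exc1 _).union (countable_exc1 _)).union (countable_exc1 _), fun p hp => ?_⟩
      simp only [mem_compl_iff, mem_union, mem_ofPred_eq, not_or] at hp
      obtain ⟨⟨p1, p2⟩, p3⟩ := hp
      have q1 : p ≠ 0 := by
        rintro rfl
        apply p1
        rw [cc_apply]; simp
      obtain ⟨f, g, hf, hb⟩ := hgood p q1 (fun h => p2 (by linear_combination -h)) 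
        (fun h => p3 (by linear_combination -h))
      rw [hf.curv_one]
      exact hb
    · refine ⟨{p | cc p ^ 2 = 0} ∪ {p | (cc p)⁻¹ ^ 2 = 1} ∪ {p | (cc p)⁻¹ ^ 2 = 24 / 25}, 
        ((countable_exc1 _).union (countable_exc2 _)).union (countable_exc2 _), fun p hp => ?_⟩
      simp only [mem_compl_iff, mem_union, mem_ofPred_eq, not_or] at hp
      obtain ⟨⟨p1, p2⟩, p3⟩ := hp
      have q1 : p ≠ 0 := by
        rintro rfl
        apply p1
        rw [cc_apply]; simp
      have q2 : inv2 p ≠ 0 := by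
        intro h
        have h1 := cc_inv2 p
        rw [h] at h1
        have h2 : cc (0 : ℝ × ℝ) = 0 := by rw [cc_apply]; simp
        rw [h2] at h1
        exact inv_ne_zero (cc_ne_zero q1) h1.symm
      obtain ⟨f, g, hf, hb⟩ := hgood (inv2 p) q2 
        (fun h => p2 (by rw [cc_inv2] at h; linear_combination -h)) 
        (fun h => p3 (by rw [cc_inv2] at h; linear_combination -h))
      rw [hf.curv_neg_one q1]
      exact hb
  obtain ⟨S, hS, hS2⟩ := key
  have hd : Dense Sᶜ := hS.dense_compl ℝ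
  intro p
  have h1 : closure Sᶜ ⊆ {p | ε ≤ C.metric.curvature s p} := closure_minimal hS2 hcl
  exact h1 (hd p)

/-- **The metric has positive curvature.** -/
theorem positiveCurvature (C : Caps) : C.metric.PositiveCurvature := by
  obtain ⟨ε, hε, h⟩ := exists_curvature_lb C
  exact fun s hs p => hε.trans_le (h s hs p)

end Pool.Agent.Lib.MP_d2b992_gt.Erg
end

section
/-!
# Null sets of the Liouville measure
-/
namespace Pool.Agent.Lib.MP_d2b992_gt.Erg

open Set Filter Topology MeasureTheory Real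
open scoped ContDiff InnerProductSpace

variable (C : Caps)

theorem cE_metric (p : ℝ × ℝ) : C.metric.cE 1 p = LL C 1 p := by
  unfold SphereMetric.cE LL
  rw [Caps.metric_g, round_E (Or.inl rfl)]

theorem cG_metric (p : ℝ × ℝ) : C.metric.cG 1 p = LL C 1 p := by
  unfold SphereMetric.cG LL
  rw [Caps.metric_g, round_G (Or.inl rfl)]

theorem cF_metric (p : ℝ × ℝ) : C.metric.cF 1 p = 0 := by
  unfold SphereMetric.cF
  rw [Caps.metric_g, round_F (Or.inl rfl), mul_zero]

theorem dens_metric (p : ℝ × ℝ) : dens C.metric p = LL C 1 p := by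
  unfold dens
  rw [cE_metric, cG_metric, cF_metric]
  have h : LL C 1 p * LL C 1 p - 0 ^ 2 = LL C 1 p ^ 2 := by ring
  rw [h, sqrt_sq (LL_pos C (Or.inl rfl) p).le]

theorem uvec_metric (q : (ℝ × ℝ) × ℝ) : uvec C.metric q = (stereo 1 q.1, 
    (cos q.2 / √(LL C 1 q.1)) • du (stereo 1) q.1 + 
      (sin q.2 / √(LL C 1 q.1)) • dv (stereo 1) q.1) := by
  have h := LL_pos C (Or.inl rfl) q.1
  have hs : 0 < √(LL C 1 q.1) := sqrt_pos.2 h
  unfold uvec
  rw [cE_metric, cF_metric, dens_metric, zero_smul, sub_zero, smul_smul]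
  congr 2
  field_simp

theorem continuous_uvec : Continuous (uvec C.metric) := by
  have h : uvec C.metric = fun q => (stereo 1 q.1, 
    (cos q.2 / √(LL C 1 q.1)) • du (stereo 1) q.1 + 
      (sin q.2 / √(LL C 1 q.1)) • dv (stereo 1) q.1) := funext (uvec_metric C)
  rw [h]
  have h1 := continuous_stereo 1
  have h2 := (contDiff_du_stereo 1).continuous
  have h3 := (contDiff_dv_stereo 1).continuous
  have h4 := (contDiff_LL C (Or.inl rfl)).continuous
  have h5 : ∀ q : (ℝ × ℝ) × ℝ, √(LL C 1 q.1) ≠ 0 := fun q => 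
    (sqrt_pos.2 (LL_pos C (Or.inl rfl) q.1)).ne'
  refine Continuous.prodMk (by fun_prop) (Continuous.add ?_ ?_)
  · exact Continuous.smul (Continuous.div (by fun_prop) (by fun_prop) h5) (by fun_prop)
  · exact Continuous.smul (Continuous.div (by fun_prop) (by fun_prop) h5) (by fun_prop)

/-- The left inverse of the parametrization. -/
noncomputable def lin (z : R3 × R3) : (ℝ × ℝ) × ℝ := 
  ((z.1 0 / (1 + z.1 2), z.1 1 / (1 + z.1 2)), 
    π + (Complex.log (-((⟪z.2, du (stereo 1) (z.1 0 / (1 + z.1 2), z.1 1 / (1 + z.1 2))⟫_ℝ : ℝ) + 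
      (⟪z.2, dv (stereo 1) (z.1 0 / (1 + z.1 2), z.1 1 / (1 + z.1 2))⟫_ℝ : ℝ) * Complex.I))).im)

/-- The domain of the left inverse. -/
def dlin : Set (R3 × R3) := {z | 1 + z.1 2 ≠ 0 ∧ 
  (-((⟪z.2, du (stereo 1) (z.1 0 / (1 + z.1 2), z.1 1 / (1 + z.1 2))⟫_ℝ : ℝ) + 
      (⟪z.2, dv (stereo 1) (z.1 0 / (1 + z.1 2), z.1 1 / (1 + z.1 2))⟫_ℝ : ℝ) * Complex.I) : ℂ) ∈ 
      Complex.slitPlane}

theorem differentiableAt_lin {z : R3 × R3} (h : z ∈ dlin) : DifferentiableAt ℝ lin z := by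
  obtain ⟨h1, h2⟩ := h
  have d0 : ContDiffAt ℝ 1 (fun z : R3 × R3 => z.1 0) z := by fun_prop
  have d1 : ContDiffAt ℝ 1 (fun z : R3 × R3 => z.1 1) z := by fun_prop
  have d2 : ContDiffAt ℝ 1 (fun z : R3 × R3 => 1 + z.1 2) z := by fun_prop
  have dp : DifferentiableAt ℝ (fun z : R3 × R3 => (z.1 0 / (1 + z.1 2), z.1 1 / (1 + z.1 2))) z := 
    ((d0.div d2 h1).prodMk (d1.div d2 h1)).differentiableAt one_ne_zero
  have hone : (∞ : WithTop ℕ∞) ≠ 0 := by simp
  have du1 : DifferentiableAt ℝ (fun z : R3 × R3 => 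
      du (stereo 1) (z.1 0 / (1 + z.1 2), z.1 1 / (1 + z.1 2))) z := 
    DifferentiableAt.comp (g := du (stereo 1)) z 
      ((contDiff_du_stereo 1).differentiable hone _) dp
  have dv1 : DifferentiableAt ℝ (fun z : R3 × R3 => 
      dv (stereo 1) (z.1 0 / (1 + z.1 2), z.1 1 / (1 + z.1 2))) z := 
    DifferentiableAt.comp (g := dv (stereo 1)) z 
      ((contDiff_dv_stereo 1).differentiable hone _) dp
  have i1 : DifferentiableAt ℝ (fun z : R3 × R3 => 
      ⟪z.2, du (stereo 1) (z.1 0 / (1 + z.1 2), z.1 1 / (1 + z.1 2))⟫_ℝ) z := 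
    (differentiableAt_snd).inner ℝ du1
  have i2 : DifferentiableAt ℝ (fun z : R3 × R3 => 
      ⟪z.2, dv (stereo 1) (z.1 0 / (1 + z.1 2), z.1 1 / (1 + z.1 2))⟫_ℝ) z := 
    (differentiableAt_snd).inner ℝ dv1
  have i3 : DifferentiableAt ℝ (fun z : R3 × R3 => 
      ((⟪z.2, du (stereo 1) (z.1 0 / (1 + z.1 2), z.1 1 / (1 + z.1 2))⟫_ℝ : ℝ) : ℂ)) z := 
    (Complex.ofRealCLM.differentiableAt).comp z i1
  have i4 : DifferentiableAt ℝ (fun z : R3 × R3 => 
      ((⟪z.2, dv (stereo 1) (z.1 0 / (1 + z.1 2), z.1 1 / (1 + z.1 2))⟫_ℝ : ℝ) : ℂ)) z := 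
    (Complex.ofRealCLM.differentiableAt).comp z i2
  have i5 := (i3.add (i4.mul_const Complex.I)).neg
  have l1 : DifferentiableAt ℝ Complex.log (-((⟪z.2, du (stereo 1) 
      (z.1 0 / (1 + z.1 2), z.1 1 / (1 + z.1 2))⟫_ℝ : ℝ) + 
      (⟪z.2, dv (stereo 1) (z.1 0 / (1 + z.1 2), z.1 1 / (1 + z.1 2))⟫_ℝ : ℝ) * Complex.I) : ℂ) := 
    (Complex.hasDerivAt_log h2).differentiableAt.restrictScalars ℝ
  have l2 := l1.comp z i5
  have l3 := (Complex.imCLM.differentiableAt).comp z l2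
  exact dp.prodMk ((differentiableAt_const π).add l3)

/-- The chart and its inverse. -/
theorem lin_uvec {q : (ℝ × ℝ) × ℝ} (h : q.2 ∈ Ioo 0 (2 * π)) : 
    uvec C.metric q ∈ dlin ∧ lin (uvec C.metric q) = q := by
  obtain ⟨p, θ⟩ := q
  simp only at h
  have hL := LL_pos C (Or.inl rfl) p
  have hs : 0 < √(LL C 1 p) := sqrt_pos.2 hL
  have hI := II_pos p
  obtain ⟨x0, x1, x2⟩ := stereo_one_apply 1 p
  have hx2 : 1 + stereo 1 p 2 = 2 * II p := one_add_stereo p
  have hp : (stereo 1 p 0 / (1 + stereo 1 p 2), stereo 1 p 1 / (1 + stereo 1 p 2)) = p := by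
    rw [hx2, x0, x1]
    refine Prod.ext ?_ ?_
    · simp only; field_simp
    · simp only; field_simp
  have e1 : (uvec C.metric (p, θ)).1 = stereo 1 p := by rw [uvec_metric]
  have e2 : (uvec C.metric (p, θ)).2 = (cos θ / √(LL C 1 p)) • du (stereo 1) p + 
      (sin θ / √(LL C 1 p)) • dv (stereo 1) p := by rw [uvec_metric]
  have i1 : ⟪(uvec C.metric (p, θ)).2, du (stereo 1) p⟫_ℝ = 4 * II p ^ 2 / √(LL C 1 p) * cos θ := by
    have : ⟪dv (stereo 1) p, du (stereo 1) p⟫_ℝ = 0 := by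
      rw [real_inner_comm]; exact round_F (Or.inl rfl) p
    rw [e2, inner_add_left, real_inner_smul_left, real_inner_smul_left, round_E (Or.inl rfl), this]
    ring
  have i2 : ⟪(uvec C.metric (p, θ)).2, dv (stereo 1) p⟫_ℝ = 4 * II p ^ 2 / √(LL C 1 p) * sin θ := by
    rw [e2, inner_add_left, real_inner_smul_left, real_inner_smul_left, round_G (Or.inl rfl), 
      round_F (Or.inl rfl)]
    ring
  have hr : 0 < 4 * II p ^ 2 / √(LL C 1 p) := by positivity
  set r := 4 * II p ^ 2 / √(LL C 1 p) with hrdef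
  have hneg : (-(((r * cos θ : ℝ) : ℂ) + ((r * sin θ : ℝ) : ℂ) * Complex.I) : ℂ) = 
      (r : ℂ) * (Complex.cos ((θ - π : ℝ) : ℂ) + Complex.sin ((θ - π : ℝ) : ℂ) * Complex.I) := by
    push_cast
    rw [Complex.cos_sub_pi, Complex.sin_sub_pi]
    ring
  have harg : Complex.arg (-(((r * cos θ : ℝ) : ℂ) + ((r * sin θ : ℝ) : ℂ) * Complex.I) : ℂ) = 
      θ - π := by
    rw [hneg]
    exact Complex.arg_mul_cos_add_sin_mul_I hr ⟨by linarith [h.1], by linarith [h.2]⟩
  refine ⟨⟨?_, ?_⟩, ?_⟩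
  · rw [e1, hx2]; positivity
  · rw [e1, hp, i1, i2, Complex.mem_slitPlane_iff_arg]
    refine ⟨?_, ?_⟩
    · rw [harg]
      have := h.2
      intro h3
      linarith
    · rw [hneg]
      have : (r : ℂ) ≠ 0 := by exact_mod_cast hr.ne'
      refine mul_ne_zero this ?_
      rw [← Complex.exp_mul_I]
      exact Complex.exp_ne_zero _
  · unfold lin
    rw [e1, hp, i1, i2, Complex.log_im, harg]
    refine Prod.ext rfl ?_
    simp

/-- **Images of null sets are null.** -/
theorem null_image {N : Set ((ℝ × ℝ) × ℝ)} (hN : volume N = 0) 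
    {Ψ : (ℝ × ℝ) × ℝ → R3 × R3} (hΨ : ∀ n ∈ N, DifferentiableAt ℝ Ψ n) : 
    volume (uvec C.metric ⁻¹' (Ψ '' N) ∩ univ ×ˢ Ioo 0 (2 * π)) = 0 := by
  set S : Set ((ℝ × ℝ) × ℝ) := {n | n ∈ N ∧ Ψ n ∈ dlin} with hS
  have hS0 : volume S = 0 := measure_mono_null (fun n hn => hn.1) hN
  have hd : DifferentiableOn ℝ (fun n => lin (Ψ n)) S := fun n hn => 
    (DifferentiableAt.comp (g := lin) n (differentiableAt_lin hn.2) (hΨ n hn.1)).differentiableWithinAt
  have h1 : volume ((fun n => lin (Ψ n)) '' S) = 0 := by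
    have hh : (volume : Measure ((ℝ × ℝ) × ℝ)).IsAddHaarMeasure := 
      inferInstanceAs ((volume : Measure (ℝ × ℝ)).prod (volume : Measure ℝ)).IsAddHaarMeasure
    exact addHaar_image_eq_zero_of_differentiableOn_of_addHaar_eq_zero volume hd hS0
  refine measure_mono_null ?_ h1
  rintro q ⟨⟨n, hn, hnq⟩, -, hq⟩
  obtain ⟨h2, h3⟩ := lin_uvec C hq
  refine ⟨n, ⟨hn, ?_⟩, ?_⟩
  · rw [hnq]; exact h2
  · simp only [hnq]; exact h3

/-- **A Borel set which is covered by countably many smooth images of null sets is null.** -/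
theorem liouville_null {A : Set (R3 × R3)} (hA : MeasurableSet A) {ι : Type*} [Countable ι] 
    (N : ι → Set ((ℝ × ℝ) × ℝ)) (hN : ∀ i, volume (N i) = 0) (Ψ : ι → (ℝ × ℝ) × ℝ → R3 × R3)
    (hΨ : ∀ i, ∀ n ∈ N i, DifferentiableAt ℝ (Ψ i) n) 
    (hcov : A ∩ UM C.metric ⊆ ⋃ i, Ψ i '' N i) : liouville C.metric A = 0 := by
  unfold liouville
  rw [Measure.map_apply (continuous_uvec C).measurable hA]
  apply withDensity_absolutelyContinuous
  rw [Measure.restrict_apply ((continuous_uvec C).measurable hA)]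
  have hUM : ∀ q, uvec C.metric q ∈ UM C.metric := by
    intro q
    have hL := LL_pos C (Or.inl rfl) q.1
    have hs : √(LL C 1 q.1) ^ 2 = LL C 1 q.1 := sq_sqrt hL.le
    have hs0 : 0 < √(LL C 1 q.1) := sqrt_pos.2 hL
    have hI := II_pos q.1
    rw [uvec_metric]
    have hnorm : ∀ p, ‖stereo 1 p‖ ^ 2 = 1 := fun p => by rw [norm_stereo (Or.inl rfl)]; norm_num
    have hort : ∀ w : ℝ × ℝ, ⟪stereo 1 q.1, fderiv ℝ (stereo 1) q.1 w⟫_ℝ = 0 := by
      intro w
      have h1 : HasFDerivAt (stereo 1) (fderiv ℝ (stereo 1) q.1) q.1 := 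
        ((contDiff_stereo 1).differentiable (by simp) _).hasFDerivAt
      have h2 := h1.norm_sq
      have h3 : HasFDerivAt (fun p => ‖stereo 1 p‖ ^ 2) (0 : ℝ × ℝ →L[ℝ] ℝ) q.1 := by
        have : (fun p => ‖stereo 1 p‖ ^ 2) = fun _ => (1:ℝ) := funext hnorm
        rw [this]; exact hasFDerivAt_const _ _
      have h4 := congrArg (fun L : ℝ × ℝ →L[ℝ] ℝ => L w) (h2.unique h3)
      simpa using h4
    refine ⟨norm_stereo (Or.inl rfl) _, ?_, ?_⟩
    · simp only [inner_add_right, real_inner_smul_right]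
      have a1 : ⟪stereo 1 q.1, du (stereo 1) q.1⟫_ℝ = 0 := hort _
      have a2 : ⟪stereo 1 q.1, dv (stereo 1) q.1⟫_ℝ = 0 := hort _
      rw [a1, a2]
      ring
    · rw [Caps.metric_g]
      simp only [inner_add_left, inner_add_right, real_inner_smul_left, real_inner_smul_right]
      have a3 : ⟪dv (stereo 1) q.1, du (stereo 1) q.1⟫_ℝ = 0 := by
        rw [real_inner_comm]; exact round_F (Or.inl rfl) q.1
      rw [round_E (Or.inl rfl), round_G (Or.inl rfl), round_F (Or.inl rfl), a3]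
      have hlam : C.lam (stereo 1 q.1) * (4 * II q.1 ^ 2) = √(LL C 1 q.1) ^ 2 := by
        rw [hs]; rfl
      have e : C.lam (stereo 1 q.1) * (cos q.2 / √(LL C 1 q.1) * 
          (cos q.2 / √(LL C 1 q.1) * (4 * II q.1 ^ 2)) + sin q.2 / √(LL C 1 q.1) * 
          (cos q.2 / √(LL C 1 q.1) * 0) + (cos q.2 / √(LL C 1 q.1) * 
          (sin q.2 / √(LL C 1 q.1) * 0) + sin q.2 / √(LL C 1 q.1) * 
          (sin q.2 / √(LL C 1 q.1) * (4 * II q.1 ^ 2)))) = 
          (C.lam (stereo 1 q.1) * (4 * II q.1 ^ 2)) * (sin q.2 ^ 2 + cos q.2 ^ 2) / 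
            √(LL C 1 q.1) ^ 2 := by
        field_simp
        ring
      have e' := e
      rw [hlam, sin_sq_add_cos_sq, mul_one, div_self (by positivity)] at e'
      refine Eq.trans ?_ e'
      ring
  have h2 : uvec C.metric ⁻¹' A ∩ univ ×ˢ Ioc 0 (2 * π) ⊆ 
      (⋃ i, (uvec C.metric ⁻¹' (Ψ i '' N i) ∩ univ ×ˢ Ioo 0 (2 * π))) ∪ univ ×ˢ {2 * π} := by
    rintro q ⟨hq, -, hq2⟩
    rcases hq2.2.eq_or_lt with h3 | h3
    · right; exact ⟨mem_univ _, h3⟩
    · left
      obtain ⟨i, hi⟩ := mem_iUnion.1 (hcov ⟨hq, hUM q⟩)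
      exact mem_iUnion.2 ⟨i, hi, mem_univ _, hq2.1, h3⟩
  refine measure_mono_null h2 (measure_union_null ?_ ?_)
  · exact measure_iUnion_null fun i => null_image C (hN i) (hΨ i)
  · rw [Measure.volume_eq_prod, Measure.prod_prod, volume_singleton, mul_zero]

end Pool.Agent.Lib.MP_d2b992_gt.Erg
end

section
/-!
# The total mass of the Liouville measure
-/
namespace Pool.Agent.Lib.MP_d2b992_gt.Erg

open Set Filter Topology MeasureTheory Real
open scoped ContDiff InnerProductSpace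

variable (C : Caps)

theorem exists_lam_le : ∃ B > 0, ∀ x : R3, ‖x‖ = 1 → C.lam x ≤ B := by
  have hc : ContinuousOn C.lam (Metric.sphere (0 : R3) 1) := fun x hx => 
    (C.contDiffAt_lam (by simpa using hx)).continuousAt.continuousWithinAt
  obtain ⟨B, hB⟩ := (isCompact_sphere (0 : R3) 1).exists_bound_of_continuousOn hc
  refine ⟨max B 1, by positivity, fun x hx => ?_⟩
  have h1 := hB x (by simpa using hx)
  exact ((le_abs_self _).trans h1).trans (le_max_left _ _)

theorem II_le (p : ℝ × ℝ) : II p ≤ 2 * ((1 + ‖p‖) ^ 2)⁻¹ := by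
  have h1 : ‖p‖ ^ 2 ≤ p.1 ^ 2 + p.2 ^ 2 := by
    have h2 : ‖p‖ = max |p.1| |p.2| := rfl
    rw [h2]
    rcases max_choice |p.1| |p.2| with h | h <;> rw [h, sq_abs]
    · nlinarith [sq_nonneg p.2]
    · nlinarith [sq_nonneg p.1]
  have h2 : (1 + ‖p‖) ^ 2 ≤ 2 * (1 + p.1 ^ 2 + p.2 ^ 2) := by nlinarith [sq_nonneg (1 - ‖p‖)]
  unfold II
  have h3 : 0 < (1 + ‖p‖) ^ 2 := by positivity
  rw [← div_eq_mul_inv, inv_eq_one_div, div_le_div_iff₀ (by positivity) h3]
  linarith

theorem integrable_LL : Integrable (LL C 1) := by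
  obtain ⟨B, hB, hB2⟩ := exists_lam_le C
  have h1 : Integrable (fun p : ℝ × ℝ => (1 + ‖p‖) ^ (-(4:ℝ))) := by
    apply integrable_one_add_norm
    rw [Module.finrank_prod]
    simp
    norm_num
  have h2 := h1.const_mul (16 * B)
  refine h2.mono' (contDiff_LL C (Or.inl rfl)).continuous.aestronglyMeasurable 
    (Eventually.of_forall fun p => ?_)
  have hL := LL_pos C (Or.inl rfl) p
  rw [norm_of_nonneg hL.le]
  have hI := II_pos p
  have h3 := II_le p
  have h4 : (1 + ‖p‖) ^ (-(4:ℝ)) = ((1 + ‖p‖) ^ 2)⁻¹ ^ 2 := by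
    rw [rpow_neg (by positivity), inv_pow, ← pow_mul]
    norm_cast
  have h5 : II p ^ 2 ≤ (2 * ((1 + ‖p‖) ^ 2)⁻¹) ^ 2 := pow_le_pow_left₀ hI.le h3 2
  have h6 := hB2 _ (norm_stereo (Or.inl rfl) p)
  have h7 := C.lam_pos (norm_stereo (Or.inl rfl) p)
  unfold LL
  rw [h4]
  calc C.lam (stereo 1 p) * (4 * II p ^ 2) ≤ B * (4 * (2 * ((1 + ‖p‖) ^ 2)⁻¹) ^ 2) := by
        apply mul_le_mul h6 _ (by positivity) hB.le
        linarith
    _ = 16 * B * ((1 + ‖p‖) ^ 2)⁻¹ ^ 2 := by ring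

theorem liouville_univ : liouville C.metric univ = 
    (∫⁻ p, ENNReal.ofReal (LL C 1 p)) * ENNReal.ofReal (2 * π) := by
  unfold liouville
  rw [Measure.map_apply (continuous_uvec C).measurable MeasurableSet.univ, preimage_univ, 
    withDensity_apply _ MeasurableSet.univ, Measure.restrict_univ]
  have h1 : (volume : Measure ((ℝ × ℝ) × ℝ)).restrict (univ ×ˢ Ioc 0 (2 * π)) = 
      (volume : Measure (ℝ × ℝ)).prod ((volume : Measure ℝ).restrict (Ioc 0 (2 * π))) := by
    rw [Measure.volume_eq_prod (ℝ × ℝ) ℝ, ← Measure.prod_restrict, Measure.restrict_univ]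
  rw [h1]
  have hm : Measurable (fun p : ℝ × ℝ => ENNReal.ofReal (LL C 1 p)) := 
    (contDiff_LL C (Or.inl rfl)).continuous.measurable.ennreal_ofReal
  have h2 : (fun q : (ℝ × ℝ) × ℝ => ENNReal.ofReal (dens C.metric q.1)) = 
      fun q => ENNReal.ofReal (LL C 1 q.1) := by
    funext q; rw [dens_metric]
  rw [h2, lintegral_prod (fun q : (ℝ × ℝ) × ℝ => ENNReal.ofReal (LL C 1 q.1)) 
    (hm.comp measurable_fst).aemeasurable]
  simp only [lintegral_const, Measure.restrict_apply MeasurableSet.univ, univ_inter, volume_Ioc, 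
    sub_zero]
  rw [lintegral_mul_const _ hm]

theorem liouville_univ_ne_top : liouville C.metric univ ≠ ⊤ := by
  rw [liouville_univ]
  have h := (integrable_LL C).lintegral_lt_top
  exact ENNReal.mul_ne_top h.ne ENNReal.ofReal_ne_top

theorem liouville_univ_ne_zero : liouville C.metric univ ≠ 0 := by
  rw [liouville_univ]
  have hm : Measurable (fun p : ℝ × ℝ => ENNReal.ofReal (LL C 1 p)) := 
    (contDiff_LL C (Or.inl rfl)).continuous.measurable.ennreal_ofReal
  have h1 : (∫⁻ p, ENNReal.ofReal (LL C 1 p)) ≠ 0 := by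
    rw [← pos_iff_ne_zero, lintegral_pos_iff_support hm]
    have h2 : Function.support (fun p : ℝ × ℝ => ENNReal.ofReal (LL C 1 p)) = univ := by
      ext p
      simp only [Function.mem_support, mem_univ, iff_true]
      exact (ENNReal.ofReal_pos.2 (LL_pos C (Or.inl rfl) p)).ne'
    rw [h2]
    simp
  have h2 : ENNReal.ofReal (2 * π) ≠ 0 := (ENNReal.ofReal_pos.2 (by positivity)).ne'
  exact mul_ne_zero h1 h2

/-- The normalised form of the dichotomy. -/
theorem mu_dichotomy {A : Set (R3 × R3)} (hA : MeasurableSet A) 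
    (h : liouville C.metric A = 0 ∨ liouville C.metric Aᶜ = 0) : 
    mu C.metric A = 0 ∨ mu C.metric A = 1 := by
  have h0 := liouville_univ_ne_zero C
  have h1 := liouville_univ_ne_top C
  rcases h with h | h
  · left
    unfold mu
    rw [Measure.smul_apply, h, smul_zero]
  · right
    unfold mu
    have h2 : liouville C.metric A = liouville C.metric univ := by
      have := measure_add_measure_compl (μ := liouville C.metric) hA
      rw [h, add_zero] at this
      exact this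
    rw [Measure.smul_apply, h2, smul_eq_mul]
    exact ENNReal.inv_mul_cancel h0 h1

end Pool.Agent.Lib.MP_d2b992_gt.Erg
end
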