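import Mathlib
import Pool.Agent.Lib.MP_d2b992_gt.Erg.Mass
import Pool.Agent.Lib.MP_d2b992_gt.Erg.GeoSpec
import Pool.Agent.Lib.MP_d2b992_gt.Erg.Trans
import Pool.Agent.Lib.MP_d2b992_gt.T.Total
import Pool.Agent.Lib.MP_d2b992_gt.Dyn.Spec5

section
/-!
# Global solutions of ordinary differential equations with Lipschitz right hand side
-/
namespace Pool.Agent.Lib.MP_d2b992_gt.Erg

open Set Filter Topology
open scoped ContDiff

variable {E : Type*} [NormedAddCommGroup E] [NormedSpace ℝ E] [CompleteSpace E]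

theorem ode_local {F : E → E} {L K : NNReal} (hL : ∀ x, ‖F x‖ ≤ L) (hK : LipschitzWith K F) 
    (x0 : E) (n : ℕ) : ∃ α : ℝ → E, α 0 = x0 ∧ 
      ∀ t ∈ Ioo (-((n:ℝ) + 1)) ((n:ℝ) + 1), HasDerivAt α (F (α t)) t := by
  have hn : (0:ℝ) ≤ n := n.cast_nonneg
  have ht0 : (0:ℝ) ∈ Icc (-((n:ℝ) + 1)) ((n:ℝ) + 1) := ⟨by linarith, by linarith⟩
  have hP : IsPicardLindelof (fun _ => F) (⟨0, ht0⟩ : Icc (-((n:ℝ) + 1)) ((n:ℝ) + 1)) x0 
      (L * ⟨(n:ℝ) + 1, by positivity⟩) 0 L K := by
    refine ⟨fun t _ => hK.lipschitzOnWith, fun x _ => continuousOn_const, 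
      fun t _ x _ => hL x, ?_⟩
    simp only [sub_zero, sub_neg_eq_add, zero_add, max_self, NNReal.coe_zero]
    exact le_rfl
  obtain ⟨α, hα1, hα2⟩ := hP.exists_eq_forall_mem_Icc_hasDerivWithinAt₀
  refine ⟨α, hα1, fun t ht => ?_⟩
  exact (hα2 t (Ioo_subset_Icc_self ht)).hasDerivAt (Icc_mem_nhds ht.1 ht.2)

/-- Global solutions. -/
theorem ode_global {F : E → E} {L K : NNReal} (hL : ∀ x, ‖F x‖ ≤ L) (hK : LipschitzWith K F) 
    (x0 : E) : ∃ α : ℝ → E, α 0 = x0 ∧ ∀ t, HasDerivAt α (F (α t)) t := by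
  choose β hβ1 hβ2 using fun n : ℕ => ode_local hL hK x0 n
  have hagree : ∀ m n : ℕ, m ≤ n → ∀ t ∈ Ioo (-((m:ℝ) + 1)) ((m:ℝ) + 1), β m t = β n t := by
    intro m n hmn t ht
    have hmn' : (m:ℝ) ≤ n := by exact_mod_cast hmn
    have hm : (0:ℝ) ≤ m := m.cast_nonneg
    have ht0 : (0:ℝ) ∈ Ioo (-((m:ℝ) + 1)) ((m:ℝ) + 1) := ⟨by linarith, by linarith⟩
    exact ODE_solution_unique_of_mem_Ioo (v := fun _ => F) (s := fun _ => univ) (K := K)
      (fun t _ => hK.lipschitzOnWith) ht0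
      (fun t ht => ⟨hβ2 m t ht, mem_univ _⟩)
      (fun t ht => ⟨hβ2 n t ⟨by linarith [ht.1], by linarith [ht.2]⟩, mem_univ _⟩)
      (by rw [hβ1, hβ1]) ht
  refine ⟨fun t => β ⌈|t|⌉₊ t, ?_, ?_⟩
  · simp [hβ1]
  · intro t
    set N := ⌈|t|⌉₊ + 1 with hN
    have hlt : |t| < N := by
      have := Nat.le_ceil (|t|)
      rw [hN]
      push_cast
      linarith
    have hev : (fun s => β ⌈|s|⌉₊ s) =ᶠ[𝓝 t] β N := by
      have hop : IsOpen {s : ℝ | |s| < N} := isOpen_lt (by fun_prop) continuous_const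
      have hopen : {s : ℝ | |s| < N} ∈ 𝓝 t := hop.mem_nhds hlt
      filter_upwards [hopen] with s hs
      apply hagree
      · exact Nat.ceil_le.2 hs.le
      · have := Nat.le_ceil (|s|)
        rw [abs_le] at this
        constructor <;> linarith [this.1, this.2]
    have hd := hβ2 N t (by
      rw [abs_lt] at hlt
      constructor <;> linarith [hlt.1, hlt.2])
    have he : β ⌈|t|⌉₊ t = β N t := hev.eq_of_nhds
    simp only [he]
    exact hd.congr_of_eventuallyEq hev

omit [CompleteSpace E] in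
/-- Solutions are smooth. -/
theorem ode_smooth {F : E → E} (hF : ContDiff ℝ ∞ F) {z : ℝ → E} 
    (hz : ∀ t, HasDerivAt z (F (z t)) t) : ContDiff ℝ ∞ z := by
  rw [contDiff_infty]
  intro n
  induction n with
  | zero =>
    rw [Nat.cast_zero, contDiff_zero]
    exact continuous_iff_continuousAt.2 fun t => (hz t).continuousAt
  | succ n ih =>
    have h2 : ((n + 1 : ℕ) : WithTop ℕ∞) = (n : WithTop ℕ∞) + 1 := by push_cast; rfl
    rw [h2, contDiff_succ_iff_deriv]
    refine ⟨fun x => (hz x).differentiableAt, fun h => absurd h (by simp), ?_⟩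
    have h3 : deriv z = fun t => F (z t) := by funext t; exact (hz t).deriv
    rw [h3]
    exact (hF.of_le (by exact_mod_cast le_top)).comp ih

/-- A solution of a linear equation which vanishes at one time vanishes identically. -/
theorem linear_zero {a b p q : ℝ → ℝ} {B : ℝ} (hp : ∀ t, |p t| ≤ B) (hq : ∀ t, |q t| ≤ B) 
    {χ : ℝ → ℝ} (hχ : ∀ t, |χ t| ≤ B)
    (ha : ∀ t, HasDerivAt a (2 * χ t * b t) t) 
    (hb : ∀ t, HasDerivAt b (-(p t * a t) - q t * b t) t) (ha0 : a 0 = 0) (hb0 : b 0 = 0) (t : ℝ) : 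
    a t = 0 ∧ b t = 0 := by
  have hB : 0 ≤ B := (abs_nonneg _).trans (hp 0)
  have key : ∀ T : ℝ, 0 < T → ∀ t ∈ Ioo (-T) T, a t = 0 ∧ b t = 0 := by
    intro T hT t ht
    have h1 := ODE_solution_unique_of_mem_Ioo (E := ℝ × ℝ) 
      (v := fun t y => (2 * χ t * y.2, -(p t * y.1) - q t * y.2)) (s := fun _ => univ) 
      (K := Real.toNNReal (2 * B)) (f := fun t => (a t, b t)) (g := fun _ => (0, 0)) (a := -T) 
      (b := T) (t₀ := 0) ?_ ⟨by linarith, hT⟩ ?_ ?_ ?_
    · have h2 := h1 ht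
      simp only [Prod.mk.injEq] at h2
      exact h2
    · intro t _
      apply LipschitzWith.lipschitzOnWith
      apply LipschitzWith.of_dist_le_mul
      intro x y
      rw [Real.coe_toNNReal _ (by positivity)]
      have hx : |x.1 - y.1| ≤ dist x y := by
        rw [← Real.dist_eq]; exact le_max_left _ _
      have hy : |x.2 - y.2| ≤ dist x y := by
        rw [← Real.dist_eq]; exact le_max_right _ _
      have hd : 0 ≤ dist x y := dist_nonneg
      show max (dist (2 * χ t * x.2) (2 * χ t * y.2)) 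
        (dist (-(p t * x.1) - q t * x.2) (-(p t * y.1) - q t * y.2)) ≤ 2 * B * dist x y
      apply max_le
      · rw [Real.dist_eq, ← mul_sub, abs_mul, abs_mul]
        have : |(2:ℝ)| = 2 := by norm_num
        rw [this]
        have h3 : |χ t| * |x.2 - y.2| ≤ B * dist x y := mul_le_mul (hχ t) hy (abs_nonneg _) hB
        linarith
      · rw [Real.dist_eq]
        have e : -(p t * x.1) - q t * x.2 - (-(p t * y.1) - q t * y.2) = 
            -(p t * (x.1 - y.1)) + -(q t * (x.2 - y.2)) := by ring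
        rw [e]
        refine (abs_add_le _ _).trans ?_
        rw [abs_neg, abs_neg, abs_mul, abs_mul]
        have h3 : |p t| * |x.1 - y.1| ≤ B * dist x y := mul_le_mul (hp t) hx (abs_nonneg _) hB
        have h4 : |q t| * |x.2 - y.2| ≤ B * dist x y := mul_le_mul (hq t) hy (abs_nonneg _) hB
        linarith
    · intro t _
      exact ⟨(ha t).prodMk (hb t), mem_univ _⟩
    · intro t _
      refine ⟨?_, mem_univ _⟩
      have : HasDerivAt (fun _ : ℝ => ((0:ℝ), (0:ℝ))) 0 t := hasDerivAt_const t _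
      refine this.congr_deriv ?_
      simp only [mul_zero, neg_zero, sub_zero]
      rfl
    · simp only [ha0, hb0]
  exact key (|t| + 1) (by positivity) t ⟨by linarith [neg_abs_le t], by linarith [le_abs_self t]⟩

end Pool.Agent.Lib.MP_d2b992_gt.Erg
end

section
/-!
# Completeness of the geodesics
-/
namespace Pool.Agent.Lib.MP_d2b992_gt.Erg

open Set Filter Topology MeasureTheory Real
open scoped ContDiff InnerProductSpace

variable (C : Caps)

/-- The homogeneous extension of the conformal factor. -/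
noncomputable def lh (x : R3) : ℝ := C.lam (‖x‖⁻¹ • x)

theorem norm_normalize {x : R3} (hx : x ≠ 0) : ‖‖x‖⁻¹ • x‖ = 1 := by
  rw [norm_smul, norm_inv, norm_norm, inv_mul_cancel₀ (norm_ne_zero_iff.2 hx)]

theorem contDiffAt_normalize {x : R3} (hx : x ≠ 0) : 
    ContDiffAt ℝ ∞ (fun y : R3 => ‖y‖⁻¹ • y) x := 
  ((contDiffAt_norm ℝ hx).inv (norm_ne_zero_iff.2 hx)).smul contDiffAt_id

theorem contDiffAt_lh {x : R3} (hx : x ≠ 0) : ContDiffAt ℝ ∞ (lh C) x := 
  ContDiffAt.comp (g := C.lam) x (C.contDiffAt_lam (norm_normalize hx)) (contDiffAt_normalize hx)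

theorem lh_pos {x : R3} (hx : x ≠ 0) : 0 < lh C x := C.lam_pos (norm_normalize hx)

theorem lh_of_norm {x : R3} (hx : ‖x‖ = 1) : lh C x = C.lam x := by
  unfold lh; rw [hx, inv_one, one_smul]

/-- The derivative along the ray vanishes. -/
theorem fderiv_lh_self {x : R3} (hx : x ≠ 0) : fderiv ℝ (lh C) x x = 0 := by
  have h1 : HasFDerivAt (lh C) (fderiv ℝ (lh C) x) ((1:ℝ) • x) := by
    rw [one_smul]
    exact ((contDiffAt_lh C hx).differentiableAt (by simp)).hasFDerivAt
  have h2 : HasDerivAt (fun t : ℝ => t • x) x 1 := by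
    simpa using (hasDerivAt_id (1:ℝ)).smul_const x
  have h3 := h1.comp_hasDerivAt (1:ℝ) h2
  have h4 : (fun t : ℝ => lh C (t • x)) =ᶠ[𝓝 1] fun _ => lh C x := by
    filter_upwards [lt_mem_nhds (zero_lt_one' ℝ)] with t ht
    unfold lh
    congr 1
    rw [norm_smul, Real.norm_eq_abs, abs_of_pos ht, smul_smul]
    congr 1
    have := norm_ne_zero_iff.2 hx
    field_simp
  exact h3.unique ((hasDerivAt_const (1:ℝ) (lh C x)).congr_of_eventuallyEq h4)

/-- The derivatives of the extension in tangential directions. -/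
theorem fderiv_lh {x w : R3} (hx : ‖x‖ = 1) (hw : ⟪x, w⟫_ℝ = 0) : 
    fderiv ℝ (lh C) x w = fderiv ℝ C.lam x w := by
  have hx0 : x ≠ 0 := by rw [← norm_ne_zero_iff, hx]; exact one_ne_zero
  have h1 : HasFDerivAt C.lam (fderiv ℝ C.lam x) (‖x‖⁻¹ • x) := by
    rw [hx, inv_one, one_smul]
    exact ((C.contDiffAt_lam hx).differentiableAt (by simp)).hasFDerivAt
  have h2 : HasFDerivAt (fun y : R3 => ‖y‖⁻¹ • y) (fderiv ℝ (fun y : R3 => ‖y‖⁻¹ • y) x) x := 
    ((contDiffAt_normalize hx0).differentiableAt (by simp)).hasFDerivAt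
  have h3 := HasFDerivAt.comp (g := C.lam) (f := fun y : R3 => ‖y‖⁻¹ • y) x h1 h2
  have h4 : fderiv ℝ (lh C) x = _ := h3.fderiv
  rw [h4, ContinuousLinearMap.comp_apply]
  congr 1
  -- the derivative of the normalization
  have h5 : HasFDerivAt (fun y : R3 => ‖y‖ ^ 2) (2 • (innerSL ℝ x)) x := 
    hasStrictFDerivAt_norm_sq x |>.hasFDerivAt
  have h6 : ‖x‖ ^ 2 ≠ 0 := by rw [hx]; norm_num
  have hne : √(‖x‖ ^ 2) ≠ 0 := by rw [hx]; norm_num
  have h7 := (hasDerivAt_inv hne).comp_hasFDerivAt x (h5.sqrt h6)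
  have h8 : HasFDerivAt (fun y : R3 => ‖y‖⁻¹) (-(√(‖x‖ ^ 2) ^ 2)⁻¹ • 
      (1 / (2 * √(‖x‖ ^ 2))) • 2 • (innerSL ℝ x)) x := by
    refine HasFDerivAt.congr_of_eventuallyEq h7 (Eventually.of_forall fun y => ?_)
    simp only [Function.comp_apply, sqrt_sq (norm_nonneg y)]
  have h9 := h8.smul (hasFDerivAt_id x)
  have h10 : fderiv ℝ (fun y : R3 => ‖y‖⁻¹ • y) x = _ := h9.fderiv
  rw [h10]
  simp [hx, hw]

/-- The gradient of the extension. -/
noncomputable def gr (x : R3) : R3 := ∑ i, (fderiv ℝ (lh C) x (ee i)) • ee i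

theorem inner_gr (x w : R3) : ⟪gr C x, w⟫_ℝ = fderiv ℝ (lh C) x w := by
  have h1 : ∀ i, ⟪ee i, w⟫_ℝ = w i := by
    intro i
    unfold ee
    rw [EuclideanSpace.inner_single_left]
    simp
  unfold gr
  rw [sum_inner]
  simp only [real_inner_smul_left, h1]
  nth_rw 2 [sum_ee w]
  rw [map_sum]
  refine Finset.sum_congr rfl fun i _ => ?_
  rw [map_smul, smul_eq_mul, mul_comm]

theorem contDiffAt_gr {x : R3} (hx : x ≠ 0) : ContDiffAt ℝ ∞ (gr C) x := by
  unfold gr
  refine ContDiffAt.sum fun i _ => ?_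
  have h : ContDiffAt ℝ ∞ (fun y => fderiv ℝ (lh C) y (ee i)) x := 
    ((contDiffAt_lh C hx).fderiv_right (m := ∞) (by simp)).clm_apply contDiffAt_const
  exact h.smul (contDiffAt_const (c := ee i))

/-- The acceleration. -/
noncomputable def acc (z : R3 × R3) : R3 := 
  -(⟪gr C z.1, z.2⟫_ℝ / lh C z.1) • z.2 + (‖z.2‖ ^ 2 / (2 * lh C z.1)) • gr C z.1 - 
    ‖z.2‖ ^ 2 • z.1

theorem contDiffAt_acc {z : R3 × R3} (hz : z.1 ≠ 0) : ContDiffAt ℝ ∞ (acc C) z := by
  have h1 : ContDiffAt ℝ ∞ (fun z : R3 × R3 => lh C z.1) z := 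
    ContDiffAt.comp (g := lh C) z (contDiffAt_lh C hz) contDiffAt_fst
  have h2 : ContDiffAt ℝ ∞ (fun z : R3 × R3 => gr C z.1) z := 
    ContDiffAt.comp (g := gr C) z (contDiffAt_gr C hz) contDiffAt_fst
  have h3 : ContDiffAt ℝ ∞ (fun z : R3 × R3 => z.2) z := contDiffAt_snd
  have h4 : ContDiffAt ℝ ∞ (fun z : R3 × R3 => ‖z.2‖ ^ 2) z := h3.norm_sq ℝ
  have h5 := (lh_pos C hz).ne'
  unfold acc
  refine ((((h2.inner ℝ h3).div h1 h5).neg.smul h3).add ((h4.div (contDiffAt_const.mul h1) 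
    (mul_ne_zero two_ne_zero h5)).smul h2)).sub (h4.smul contDiffAt_fst)

/-- A lower bound of the conformal factor. -/
theorem exists_lam_ge : ∃ m > 0, ∀ x : R3, ‖x‖ = 1 → m ≤ C.lam x := by
  have hc : ContinuousOn C.lam (Metric.sphere (0 : R3) 1) := fun x hx => 
    (C.contDiffAt_lam (by simpa using hx)).continuousAt.continuousWithinAt
  obtain ⟨x, hx, hmin⟩ := (isCompact_sphere (0 : R3) 1).exists_isMinOn 
    ⟨ee 0, by simp [ee]⟩ hc
  exact ⟨C.lam x, C.lam_pos (by simpa using hx), fun y hy => hmin (by simpa using hy)⟩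

/-- A bound for the Euclidean length of the unit vectors. -/
noncomputable def Bv : ℝ := 1 / (exists_lam_ge C).choose

theorem norm_sq_le {z : R3 × R3} (hz : z ∈ UM C.metric) : ‖z.2‖ ^ 2 ≤ Bv C := by
  obtain ⟨h1, h2, h3⟩ := hz
  have h4 := (exists_lam_ge C).choose_spec.1
  have h5 := (exists_lam_ge C).choose_spec.2 z.1 h1
  rw [Caps.metric_g, real_inner_self_eq_norm_sq] at h3
  unfold Bv
  rw [le_div_iff₀ h4]
  nlinarith [sq_nonneg ‖z.2‖]

/-- The cutoff. -/
noncomputable def ct (z : R3 × R3) : ℝ := 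
  Real.smoothTransition (4 * ‖z.1‖ ^ 2 - 2) * Real.smoothTransition (4 - 2 * ‖z.1‖ ^ 2) * 
    Real.smoothTransition (Bv C + 2 - ‖z.2‖ ^ 2)

theorem contDiff_ct : ContDiff ℝ ∞ (ct C) := by
  have h1 : ContDiff ℝ ∞ (fun z : R3 × R3 => ‖z.1‖ ^ 2) := contDiff_fst.norm_sq ℝ
  have h2 : ContDiff ℝ ∞ (fun z : R3 × R3 => ‖z.2‖ ^ 2) := contDiff_snd.norm_sq ℝ
  have h3 : ContDiff ℝ ∞ Real.smoothTransition := Real.smoothTransition.contDiff
  exact ((h3.comp ((contDiff_const.mul h1).sub contDiff_const)).mul 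
    (h3.comp (contDiff_const.sub (contDiff_const.mul h1)))).mul 
    (h3.comp (contDiff_const.sub h2))

theorem ct_one {z : R3 × R3} (hz : z ∈ UM C.metric) : ct C z = 1 := by
  unfold ct
  rw [hz.1, Real.smoothTransition.one_of_one_le (by norm_num), 
    Real.smoothTransition.one_of_one_le (by norm_num), 
    Real.smoothTransition.one_of_one_le (by linarith [norm_sq_le C hz])]
  norm_num

theorem ct_zero {z : R3 × R3} (h : ‖z.1‖ ^ 2 ≤ 1 / 2 ∨ 2 ≤ ‖z.1‖ ^ 2 ∨ Bv C + 2 ≤ ‖z.2‖ ^ 2) : 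
    ct C z = 0 := by
  unfold ct
  rcases h with h | h | h
  · rw [Real.smoothTransition.zero_of_nonpos (by linarith)]; ring
  · rw [Real.smoothTransition.zero_of_nonpos (x := 4 - 2 * ‖z.1‖ ^ 2) (by linarith)]; ring
  · rw [Real.smoothTransition.zero_of_nonpos (x := Bv C + 2 - ‖z.2‖ ^ 2) (by linarith)]; ring

theorem hasCompactSupport_ct : HasCompactSupport (ct C) := by
  apply HasCompactSupport.of_support_subset_isCompact 
    (K := Metric.closedBall (0 : R3 × R3) (max 2 (|Bv C| + 2)))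
  · exact isCompact_closedBall _ _
  · intro z hz
    rw [Function.mem_support] at hz
    rw [mem_closedBall_zero_iff]
    by_contra h
    push Not at h
    apply hz
    apply ct_zero
    have h1 : ‖z‖ = max ‖z.1‖ ‖z.2‖ := rfl
    rw [h1] at h
    have h2 : (2:ℝ) ≤ max 2 (|Bv C| + 2) := le_max_left _ _
    have h3 : |Bv C| + 2 ≤ max 2 (|Bv C| + 2) := le_max_right _ _
    rcases lt_max_iff.1 h with h4 | h4
    · right; left
      nlinarith
    · right; right
      have h5 : |Bv C| + 2 < ‖z.2‖ := by linarith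
      have h6 := le_abs_self (Bv C)
      have h7 := abs_nonneg (Bv C)
      nlinarith

/-- The vector field. -/
noncomputable def vf (z : R3 × R3) : R3 × R3 := ct C z • (z.2, acc C z)

theorem ct_eventually {z : R3 × R3} (hz : z.1 = 0) : ∀ᶠ y in 𝓝 z, ct C y = 0 := by
  have hc : Continuous fun y : R3 × R3 => ‖y.1‖ ^ 2 := by fun_prop
  have h1 : ∀ᶠ y : R3 × R3 in 𝓝 z, ‖y.1‖ ^ 2 < 1 / 2 := 
    hc.continuousAt.eventually (gt_mem_nhds (by simp only [hz]; norm_num))
  filter_upwards [h1] with y hy using ct_zero C (Or.inl hy.le)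

theorem contDiff_vf : ContDiff ℝ ∞ (vf C) := by
  rw [contDiff_iff_contDiffAt]
  intro z
  by_cases hz : z.1 = 0
  · have h2 : vf C =ᶠ[𝓝 z] fun _ => 0 := by
      filter_upwards [ct_eventually C hz] with y hy
      unfold vf
      rw [hy, zero_smul]
    exact contDiffAt_const.congr_of_eventuallyEq h2
  · exact (contDiff_ct C).contDiffAt.smul (contDiffAt_snd.prodMk (contDiffAt_acc C hz))

/-- The coefficient of the linear equation of the constraints. -/
noncomputable def qf (z : R3 × R3) : ℝ := ct C z * (⟪gr C z.1, z.2⟫_ℝ / lh C z.1)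

theorem continuous_qf : Continuous (qf C) := by
  rw [continuous_iff_continuousAt]
  intro z
  by_cases hz : z.1 = 0
  · have h2 : qf C =ᶠ[𝓝 z] fun _ => 0 := by
      filter_upwards [ct_eventually C hz] with y hy
      unfold qf
      rw [hy, zero_mul]
    exact continuousAt_const.congr h2.symm
  · have h1 : ContinuousAt (fun z : R3 × R3 => lh C z.1) z := 
      (ContDiffAt.comp (g := lh C) z (contDiffAt_lh C hz) contDiffAt_fst).continuousAt
    have h2 : ContinuousAt (fun z : R3 × R3 => gr C z.1) z := 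
      (ContDiffAt.comp (g := gr C) z (contDiffAt_gr C hz) contDiffAt_fst).continuousAt
    exact (contDiff_ct C).continuous.continuousAt.mul 
      ((h2.inner continuousAt_snd).div h1 (lh_pos C hz).ne')

end Pool.Agent.Lib.MP_d2b992_gt.Erg
end

section
/-!
# Completeness of the geodesics: existence and uniqueness
-/
namespace Pool.Agent.Lib.MP_d2b992_gt.Erg

open Set Filter Topology MeasureTheory Real
open scoped ContDiff InnerProductSpace

variable (C : Caps)

theorem exists_bound_ct {f : R3 × R3 → ℝ} (hf : Continuous f) 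
    (h : ∀ z, ct C z = 0 → f z = 0) : ∃ B, ∀ z, |f z| ≤ B := by
  have hs : HasCompactSupport f := by
    apply HasCompactSupport.mono (hasCompactSupport_ct C)
    intro z hz
    rw [Function.mem_support] at hz ⊢
    exact fun h0 => hz (h z h0)
  obtain ⟨B, hB⟩ := hs.exists_bound_of_continuous hf
  exact ⟨B, hB⟩

theorem ct_mul_inner (z : R3 × R3) : ct C z * ⟪z.1, gr C z.1⟫_ℝ = 0 := by
  by_cases hz : z.1 = 0
  · rw [ct_zero C (Or.inl (by rw [hz, norm_zero]; norm_num)), zero_mul]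
  · rw [real_inner_comm, inner_gr, fderiv_lh_self C hz, mul_zero]

theorem exists_sol {z0 : R3 × R3} (h0 : z0 ∈ UM C.metric) : ∃ z : ℝ → R3 × R3, z 0 = z0 ∧ 
    ContDiff ℝ ∞ z ∧ ∀ t, HasDerivAt z (vf C (z t)) t ∧ z t ∈ UM C.metric := by
  have hsm := contDiff_vf C
  have hcs : HasCompactSupport (vf C) := by
    apply HasCompactSupport.mono (hasCompactSupport_ct C)
    intro z hz
    rw [Function.mem_support] at hz ⊢
    intro h1
    apply hz
    unfold vf
    rw [h1, zero_smul]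
  obtain ⟨K, hK⟩ := hsm.lipschitzWith_of_hasCompactSupport hcs (by simp)
  obtain ⟨L, hL⟩ := hcs.exists_bound_of_continuous hsm.continuous
  have hL0 : 0 ≤ L := (norm_nonneg _).trans (hL z0)
  obtain ⟨z, hz0, hz⟩ := ode_global (L := Real.toNNReal L) (fun x => by 
    rw [Real.coe_toNNReal _ hL0]; exact hL x) hK z0
  refine ⟨z, hz0, ode_smooth hsm hz, fun t => ⟨hz t, ?_⟩⟩
  -- the derivatives of the components
  have hx : ∀ t, HasDerivAt (fun s => (z s).1) (ct C (z t) • (z t).2) t := fun t => 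
    (hasFDerivAt_fst (𝕜 := ℝ) (E := R3) (F := R3) (p := z t)).comp_hasDerivAt t (hz t)
  have hv : ∀ t, HasDerivAt (fun s => (z s).2) (ct C (z t) • acc C (z t)) t := fun t => 
    (hasFDerivAt_snd (𝕜 := ℝ) (E := R3) (F := R3) (p := z t)).comp_hasDerivAt t (hz t)
  -- bounds
  have c1 : Continuous (fun z : R3 × R3 => ct C z * ‖z.2‖ ^ 2) := by
    have := (contDiff_ct C).continuous
    fun_prop
  obtain ⟨B1, hB1⟩ := exists_bound_ct C c1 (fun z h => by rw [h, zero_mul])
  obtain ⟨B2, hB2⟩ := exists_bound_ct C (continuous_qf C) (fun z h => by unfold qf; rw [h, zero_mul])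
  obtain ⟨B3, hB3⟩ := exists_bound_ct C (contDiff_ct C).continuous (fun z h => h)
  set B := max (max B1 B2) B3 with hB
  have g1 : B1 ≤ B := (le_max_left _ _).trans (le_max_left _ _)
  have g2 : B2 ≤ B := (le_max_right _ _).trans (le_max_left _ _)
  have g3 : B3 ≤ B := le_max_right _ _
  have key : ∀ t, ‖(z t).1‖ ^ 2 - 1 = 0 ∧ ⟪(z t).1, (z t).2⟫_ℝ = 0 := by
    intro t
    refine linear_zero (a := fun t => ‖(z t).1‖ ^ 2 - 1) (b := fun t => ⟪(z t).1, (z t).2⟫_ℝ) 
      (p := fun t => ct C (z t) * ‖(z t).2‖ ^ 2) (q := fun t => qf C (z t)) 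
      (χ := fun t => ct C (z t)) (B := B) (fun t => (hB1 _).trans g1) (fun t => (hB2 _).trans g2) 
      (fun t => (hB3 _).trans g3) (fun t => ?_) (fun t => ?_) ?_ ?_ t
    · have h1 := ((hx t).norm_sq).sub_const 1
      refine h1.congr_deriv ?_
      rw [real_inner_smul_right]
      ring
    · have h1 := (hx t).inner ℝ (hv t)
      refine h1.congr_deriv ?_
      simp only [real_inner_smul_left, real_inner_smul_right, acc, inner_add_right, 
        inner_sub_right, real_inner_self_eq_norm_sq]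
      have h2 := ct_mul_inner C (z t)
      unfold qf
      linear_combination (‖(z t).2‖ ^ 2 / (2 * lh C (z t).1)) * h2
    · show ‖(z 0).1‖ ^ 2 - 1 = 0
      rw [hz0, h0.1]; norm_num
    · show ⟪(z 0).1, (z 0).2⟫_ℝ = 0
      rw [hz0, h0.2.1]
  have hn : ∀ t, ‖(z t).1‖ = 1 := fun t => by
    have h1 := (key t).1
    have h2 : ‖(z t).1‖ ^ 2 = 1 := by linarith
    exact (pow_eq_one_iff_of_nonneg (norm_nonneg _) two_ne_zero).1 h2
  have hne : ∀ t, (z t).1 ≠ 0 := fun t => by
    rw [← norm_ne_zero_iff, hn t]; exact one_ne_zero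
  -- the energy
  have hE : ∀ t, HasDerivAt (fun s => lh C (z s).1 * ‖(z s).2‖ ^ 2) 0 t := by
    intro t
    have h1 : HasDerivAt (fun s => lh C (z s).1) 
        (fderiv ℝ (lh C) (z t).1 (ct C (z t) • (z t).2)) t := 
      HasFDerivAt.comp_hasDerivAt (l := lh C) t 
        ((contDiffAt_lh C (hne t)).differentiableAt (by simp)).hasFDerivAt (hx t)
    have h2 := h1.mul ((hv t).norm_sq)
    refine h2.congr_deriv ?_
    have h3 := (lh_pos C (hne t)).ne'
    have h4 := (key t).2
    rw [← inner_gr]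
    simp only [real_inner_smul_right, acc, inner_add_right, inner_sub_right, 
      real_inner_self_eq_norm_sq]
    have e1 : ⟪(z t).2, gr C (z t).1⟫_ℝ = ⟪gr C (z t).1, (z t).2⟫_ℝ := real_inner_comm _ _
    have e2 : ⟪(z t).2, (z t).1⟫_ℝ = 0 := by rw [real_inner_comm]; exact h4
    rw [e1, e2]
    field_simp
    ring
  have hconst : ∀ t, lh C (z t).1 * ‖(z t).2‖ ^ 2 = lh C (z 0).1 * ‖(z 0).2‖ ^ 2 := fun t => 
    is_const_of_deriv_eq_zero (fun s => (hE s).differentiableAt) (fun s => (hE s).deriv) t 0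
  refine ⟨hn t, (key t).2, ?_⟩
  rw [Caps.metric_g, real_inner_self_eq_norm_sq, ← lh_of_norm C (hn t), hconst t, hz0, 
    lh_of_norm C h0.1]
  have h5 := h0.2.2
  rwa [Caps.metric_g, real_inner_self_eq_norm_sq] at h5

/-- The derivative of the conformal factor along curves of the sphere. -/
theorem hasDerivAt_lam {γ : ℝ → R3} {v : R3} {t : ℝ} (hγ : HasDerivAt γ v t) (hn : ‖γ t‖ = 1) 
    (hv : ⟪γ t, v⟫_ℝ = 0) : HasDerivAt (fun s => C.lam (γ s)) ⟪gr C (γ t), v⟫_ℝ t := by
  have h1 : HasDerivAt (fun s => C.lam (γ s)) (fderiv ℝ C.lam (γ t) v) t := 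
    HasFDerivAt.comp_hasDerivAt (l := C.lam) t 
      ((C.contDiffAt_lam hn).differentiableAt (by simp)).hasFDerivAt hγ
  rwa [← fderiv_lh C hn hv, ← inner_gr] at h1

/-- **Existence of complete geodesics.** -/
theorem exists_geodesic {z0 : R3 × R3} (h0 : z0 ∈ UM C.metric) : ∃ γ : ℝ → R3, 
    C.metric.IsGeodesic γ ∧ γ 0 = z0.1 ∧ deriv γ 0 = z0.2 ∧ 
    ∀ t, HasDerivAt (fun s => (γ s, deriv γ s)) (vf C (γ t, deriv γ t)) t := by
  obtain ⟨z, hz0, hsm, hz⟩ := exists_sol C h0
  have hct : ∀ t, ct C (z t) = 1 := fun t => ct_one C (hz t).2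
  have hx : ∀ t, HasDerivAt (fun s => (z s).1) (z t).2 t := fun t => by
    have := (hasFDerivAt_fst (𝕜 := ℝ) (E := R3) (F := R3) (p := z t)).comp_hasDerivAt t (hz t).1
    have h2 : vf C (z t) = ((z t).2, acc C (z t)) := by unfold vf; rw [hct, one_smul]
    rw [h2] at this
    exact this
  have hv : ∀ t, HasDerivAt (fun s => (z s).2) (acc C (z t)) t := fun t => by
    have := (hasFDerivAt_snd (𝕜 := ℝ) (E := R3) (F := R3) (p := z t)).comp_hasDerivAt t (hz t).1
    have h2 : vf C (z t) = ((z t).2, acc C (z t)) := by unfold vf; rw [hct, one_smul]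
    rw [h2] at this
    exact this
  have hd : deriv (fun s => (z s).1) = fun s => (z s).2 := by funext s; exact (hx s).deriv
  refine ⟨fun s => (z s).1, ⟨contDiff_fst.comp hsm, fun t => (hz t).2.1, fun t => ?_, ?_⟩, 
    by simp only [hz0], by rw [hd]; simp only [hz0], ?_⟩
  · rw [hd]; exact (hz t).2.2.2
  · intro t w hw
    rw [hd]
    simp only [Caps.metric_g]
    have hn := (hz t).2.1
    have hne : (z t).1 ≠ 0 := by rw [← norm_ne_zero_iff, hn]; exact one_ne_zero
    have h1 := (hasDerivAt_lam C (hx t) hn (hz t).2.2.1).mul 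
      ((hv t).inner ℝ (hasDerivAt_const t w))
    have h2 : deriv (fun s => C.lam (z s).1 * ⟪(z s).2, w⟫_ℝ) t = _ := h1.deriv
    rw [h2]
    have h3 : HasFDerivAt (fun y => C.lam y * ⟪(z t).2, (z t).2⟫_ℝ) 
        (⟪(z t).2, (z t).2⟫_ℝ • fderiv ℝ C.lam (z t).1) (z t).1 := 
      ((C.contDiffAt_lam hn).differentiableAt (by simp)).hasFDerivAt.mul_const _
    rw [h3.fderiv, _root_.smul_apply, ← fderiv_lh C hn hw, ← inner_gr]
    rw [← lh_of_norm C hn]
    have h4 := (lh_pos C hne).ne'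
    simp only [inner_zero_right, real_inner_smul_left, acc, inner_add_left, inner_sub_left, 
      real_inner_self_eq_norm_sq, smul_eq_mul, zero_add, neg_smul, inner_neg_left]
    rw [hw]
    field_simp
    ring
  · intro t
    rw [hd]
    exact (hz t).1

/-- Geodesic arcs solve the differential equation. -/
theorem arc_sol {γ : ℝ → R3} {a b : ℝ} (h : IsGeodesicOn C.metric γ (Ioo a b)) {t : ℝ} 
    (ht : t ∈ Ioo a b) : (γ t, deriv γ t) ∈ UM C.metric ∧ 
      HasDerivAt (fun s => (γ s, deriv γ s)) (vf C (γ t, deriv γ t)) t := by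
  have hnt : ∀ t ∈ Ioo a b, Ioo a b ∈ 𝓝 t := fun t ht => isOpen_Ioo.mem_nhds ht
  have hsm : ∀ t ∈ Ioo a b, ContDiffAt ℝ ∞ γ t := fun t ht => h.smooth.contDiffAt (hnt t ht)
  have hx : ∀ t ∈ Ioo a b, HasDerivAt γ (deriv γ t) t := fun t ht => 
    ((hsm t ht).differentiableAt (by simp)).hasDerivAt
  have hv : ∀ t ∈ Ioo a b, HasDerivAt (deriv γ) (deriv (deriv γ) t) t := by
    intro t ht
    have h1 : ContDiffAt ℝ 1 (deriv γ) t := by
      have h2 : ContDiffAt ℝ 1 (fderiv ℝ γ) t := (hsm t ht).fderiv_right (m := 1) two_le_inf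
      have h3 : ContDiffAt ℝ 1 (fun s => fderiv ℝ γ s 1) t := h2.clm_apply contDiffAt_const
      exact h3
    exact (h1.differentiableAt one_ne_zero).hasDerivAt
  have hort : ∀ t ∈ Ioo a b, ⟪γ t, deriv γ t⟫_ℝ = 0 := by
    intro t ht
    have h1 := (hx t ht).norm_sq
    have h2 : (fun s => ‖γ s‖ ^ 2) =ᶠ[𝓝 t] fun _ => 1 := by
      filter_upwards [hnt t ht] with s hs
      rw [h.mem s hs]; norm_num
    have h3 := h1.unique ((hasDerivAt_const t (1:ℝ)).congr_of_eventuallyEq h2)
    linarith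
  have hort2 : ⟪γ t, deriv (deriv γ) t⟫_ℝ = -‖deriv γ t‖ ^ 2 := by
    have h1 := (hx t ht).inner ℝ (hv t ht)
    have h2 : (fun s => ⟪γ s, deriv γ s⟫_ℝ) =ᶠ[𝓝 t] fun _ => 0 := by
      filter_upwards [hnt t ht] with s hs using hort s hs
    have h3 := h1.unique ((hasDerivAt_const t (0:ℝ)).congr_of_eventuallyEq h2)
    rw [real_inner_self_eq_norm_sq] at h3
    linarith
  have hn := h.mem t ht
  have hne : γ t ≠ 0 := by rw [← norm_ne_zero_iff, hn]; exact one_ne_zero
  have hUM : (γ t, deriv γ t) ∈ UM C.metric := ⟨hn, hort t ht, h.unit_speed t ht⟩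
  refine ⟨hUM, ?_⟩
  have hl := (lh_pos C hne).ne'
  have e0 : ⟪gr C (γ t), γ t⟫_ℝ = 0 := by rw [inner_gr]; exact fderiv_lh_self C hne
  -- the acceleration
  have hacc : deriv (deriv γ) t = acc C (γ t, deriv γ t) := by
    set w := deriv (deriv γ) t - acc C (γ t, deriv γ t) with hwdef
    have hw : ⟪γ t, w⟫_ℝ = 0 := by
      rw [hwdef, inner_sub_right, hort2]
      unfold acc
      simp only [inner_add_right, inner_sub_right, real_inner_smul_right, 
        real_inner_self_eq_norm_sq]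
      rw [hort t ht, real_inner_comm (gr C (γ t)) (γ t), e0, hn]
      ring
    have h1 := h.euler t ht w hw
    simp only [Caps.metric_g] at h1
    have h2 := (hasDerivAt_lam C (hx t ht) hn (hort t ht)).mul 
      ((hv t ht).inner ℝ (hasDerivAt_const t w))
    have h3 : deriv (fun s => C.lam (γ s) * ⟪deriv γ s, w⟫_ℝ) t = _ := h2.deriv
    rw [h3] at h1
    have h4 : HasFDerivAt (fun y => C.lam y * ⟪deriv γ t, deriv γ t⟫_ℝ) 
        (⟪deriv γ t, deriv γ t⟫_ℝ • fderiv ℝ C.lam (γ t)) (γ t) := 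
      ((C.contDiffAt_lam hn).differentiableAt (by simp)).hasFDerivAt.mul_const _
    rw [h4.fderiv, _root_.smul_apply, ← fderiv_lh C hn hw, ← inner_gr, ← lh_of_norm C hn, 
      inner_zero_right, zero_add, real_inner_self_eq_norm_sq, smul_eq_mul] at h1
    have h5 : ⟪w, w⟫_ℝ = 0 := by
      nth_rw 1 [hwdef]
      rw [inner_sub_left]
      unfold acc
      simp only [inner_add_left, inner_sub_left, real_inner_smul_left]
      rw [hw]
      field_simp
      linear_combination 2 * h1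
    have h6 : w = 0 := inner_self_eq_zero.1 h5
    exact sub_eq_zero.1 h6
  have h7 : vf C (γ t, deriv γ t) = (deriv γ t, acc C (γ t, deriv γ t)) := by
    unfold vf; rw [ct_one C hUM, one_smul]
  rw [h7, ← hacc]
  exact (hx t ht).prodMk (hv t ht)

/-- **Every geodesic arc is a piece of a complete geodesic.** -/
theorem invariantArc {A : Set (R3 × R3)} (hA : Invariant C.metric A) : 
    InvariantArc C.metric A := by
  intro γ a b h s hs t ht
  obtain ⟨hUM, -⟩ := arc_sol C h hs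
  obtain ⟨Γ, hΓ, h0, h1, h2⟩ := exists_geodesic C hUM
  have hcs : HasCompactSupport (vf C) := by
    apply HasCompactSupport.mono (hasCompactSupport_ct C)
    intro z hz
    rw [Function.mem_support] at hz ⊢
    intro h1
    apply hz
    unfold vf
    rw [h1, zero_smul]
  obtain ⟨K, hK⟩ := (contDiff_vf C).lipschitzWith_of_hasCompactSupport hcs (by simp)
  have key := ODE_solution_unique_of_mem_Ioo (v := fun _ => vf C) (s := fun _ => univ) (K := K)
    (f := fun r => (γ r, deriv γ r)) (g := fun r => (Γ (r - s), deriv Γ (r - s))) (a := a) (b := b)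
    (t₀ := s) (fun _ _ => hK.lipschitzOnWith) hs (fun r hr => ⟨(arc_sol C h hr).2, mem_univ _⟩) 
    (fun r _ => ⟨?_, mem_univ _⟩) ?_
  · have h3 := hA Γ hΓ (t - s)
    have h4 := key ht
    simp only at h4
    rw [h0, h1, ← h4] at h3
    exact h3
  · have h3 := HasDerivAt.scomp (g₁ := fun s => (Γ s, deriv Γ s)) r (h2 (r - s)) 
      ((hasDerivAt_id r).sub_const s)
    rw [one_smul] at h3
    exact h3
  · simp only [sub_self]
    rw [h0, h1]

end Pool.Agent.Lib.MP_d2b992_gt.Erg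
end

section
/-!
# FINAL: the positively curved two-sphere with ergodic geodesic flow
-/
set_option autoImplicit false

namespace Pool.Agent.Lib.MP_d2b992_gt.Erg

open Set Real MeasureTheory Dyn
open scoped ContDiff InnerProductSpace

/-- The deflections of the two caps. -/
theorem defl {χp χq : ℝ → ℝ} (h : T.Prof (5 / 13) (12 / 13) χp χq) : 
    Defl (caps h) (T.FF χp) (T.GG χq) := by
  refine ⟨?_, ?_, ?_, ?_⟩
  · intro c h0 h1
    have := thP_pos h h0 h1 0
    rw [zero_add] at this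
    exact this
  · intro c h0 h1
    have := thP_neg h h1 h0 0
    rw [zero_add] at this
    exact this
  · intro c h0 h1
    have := thQ_pos h h0 h1 0
    rw [zero_add] at this
    exact this
  · intro c h0 h1
    have := thQ_neg h h1 h0 0
    rw [zero_add] at this
    exact this

/-- The caps of the construction. -/
theorem exists_caps : ∃ (C : Caps) (F G : ℝ → ℝ), Defl C F G ∧ T.Tw (5 / 13) (12 / 13) F G := by
  obtain ⟨χp, χq, h⟩ := T.exists_prof (b := 5 / 13) (s := 12 / 13) (by norm_num) (by norm_num) 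
    (by norm_num) (by norm_num)
  exact ⟨caps h, T.FF χp, T.GG χq, defl h, T.tw h⟩

/-- **Ergodicity of the geodesic flow.** -/
theorem isErgodic (hG : SpecGEOM) (hP : SpecMPP) (hQ : SpecMPQ) (hE : SpecERG) {C : Caps} 
    {F G : ℝ → ℝ} (hD : Defl C F G) (hT : T.Tw (5 / 13) (12 / 13) F G) : IsErgodic C.metric := by
  intro A hm hA
  apply mu_dichotomy C hm
  obtain ⟨E, h1, h2, h3, h4⟩ := hG C F G hD (hP _ _ F G hT) (hQ _ _ F G hT) A hm 
    (invariantArc C hA)
  rcases (hE _ _ F G hT).2 E h1 h2 with h | h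
  · exact Or.inl (h3 h)
  · exact Or.inr (h4 h)

end Pool.Agent.Lib.MP_d2b992_gt.Erg
end

section
/-!
# Existence and uniqueness of the geodesics; the Liouville measure is a probability measure
-/
namespace Pool.Agent.Lib.MP_d2b992_gt.Erg

open Set Filter Topology MeasureTheory Real
open scoped ContDiff InnerProductSpace

variable (C : Caps)

theorem lipschitz_vf : ∃ K, LipschitzWith K (vf C) := by
  have hcs : HasCompactSupport (vf C) := by
    apply HasCompactSupport.mono (hasCompactSupport_ct C)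
    intro z hz
    rw [Function.mem_support] at hz ⊢
    intro h1
    apply hz
    unfold vf
    rw [h1, zero_smul]
  exact (contDiff_vf C).lipschitzWith_of_hasCompactSupport hcs (by simp)

theorem geodesic_on {γ : ℝ → R3} (h : C.metric.IsGeodesic γ) (a b : ℝ) : 
    IsGeodesicOn C.metric γ (Ioo a b) := 
  ⟨h.smooth.contDiffOn, fun t _ => h.mem t, fun t _ => h.unit_speed t, fun t _ => h.euler t⟩

/-- A geodesic is determined by its initial unit tangent vector. -/
theorem geodesic_unique {γ Γ : ℝ → R3} (h : C.metric.IsGeodesic γ) (H : C.metric.IsGeodesic Γ) 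
    (h0 : γ 0 = Γ 0) (h1 : deriv γ 0 = deriv Γ 0) : γ = Γ := by
  obtain ⟨K, hK⟩ := lipschitz_vf C
  funext t
  have ht : t ∈ Ioo (-(|t| + 1)) (|t| + 1) := 
    ⟨by linarith [neg_abs_le t], by linarith [le_abs_self t]⟩
  have h00 : (0:ℝ) ∈ Ioo (-(|t| + 1)) (|t| + 1) := 
    ⟨by linarith [abs_nonneg t], by linarith [abs_nonneg t]⟩
  have key := ODE_solution_unique_of_mem_Ioo (v := fun _ => vf C) (s := fun _ => univ) (K := K)
    (f := fun r => (γ r, deriv γ r)) (g := fun r => (Γ r, deriv Γ r)) (a := -(|t| + 1)) 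
    (b := |t| + 1) (t₀ := 0) (fun _ _ => hK.lipschitzOnWith) h00 
    (fun r hr => ⟨(arc_sol C (geodesic_on C h _ _) hr).2, mem_univ _⟩) 
    (fun r hr => ⟨(arc_sol C (geodesic_on C H _ _) hr).2, mem_univ _⟩) 
    (by simp only [h0, h1])
  exact congrArg Prod.fst (key ht)

/-- **Existence and uniqueness of the complete geodesic with given initial unit vector.** -/
theorem existsUnique_geodesic {z : R3 × R3} (h : z ∈ UM C.metric) : 
    ∃! γ : ℝ → R3, C.metric.IsGeodesic γ ∧ γ 0 = z.1 ∧ deriv γ 0 = z.2 := by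
  obtain ⟨γ, h1, h2, h3, -⟩ := exists_geodesic C h
  refine ⟨γ, ⟨h1, h2, h3⟩, ?_⟩
  rintro Γ ⟨H1, H2, H3⟩
  exact geodesic_unique C H1 h1 (H2.trans h2.symm) (H3.trans h3.symm)

/-- The normalised Liouville measure is a probability measure. -/
theorem isProb : IsProbabilityMeasure (mu C.metric) := by
  refine ⟨?_⟩
  unfold mu
  rw [Measure.smul_apply, smul_eq_mul]
  exact ENNReal.inv_mul_cancel (liouville_univ_ne_zero C) (liouville_univ_ne_top C)

end Pool.Agent.Lib.MP_d2b992_gt.Erg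
end
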