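import Mathlib
import Pool.Agent.Lib.MP_d2b992_gt.Dyn.Spec5
import Pool.Agent.Lib.MP_d2b992_gt.Dyn.Leaf
import Pool.Agent.Lib.MP_d2b992_gt.Dyn.Uc
import Pool.Agent.Lib.MP_d2b992_gt.Dyn.Sys
import Pool.Agent.Lib.MP_d2b992_gt.Dyn.Ret
import Pool.Agent.Lib.MP_d2b992_gt.Dyn.Vis
import Pool.Agent.Lib.MP_d2b992_gt.Dyn.Stepp
import Pool.Agent.Lib.MP_d2b992_gt.Dyn.Crs
import Pool.Agent.Lib.MP_d2b992_gt.Dyn.S02
import Pool.Agent.Lib.MP_d2b992_gt.Dyn.Norm
import Pool.Agent.Lib.MP_d2b992_gt.Erg.Uniq
import Pool.Agent.Lib.MP_d2b992_gt.Erg.Qkick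
import Pool.Agent.Lib.MP_d2b992_gt.Erg.Trv

section
/-!
# Assembly of the dynamics: the abstract theorem and the ergodicity of `tMap`
-/
set_option autoImplicit false

open MeasureTheory Filter Topology Set

namespace Pool.Agent.Lib.MP_d2b992_gt.Dyn

open Pool.Agent.Lib.MP_d2b992_gt.T (Tw)

theorem specABS (h1 : SpecHOPF) (h2 : SpecSQC) (h3 : SpecFIN) : SpecABS := by
  intro X _ μ T e b s hS A hA hAT
  refine h3 X μ T e b s hS ?_ A hA hAT
  intro a d g φ f n B hT hL j
  exact h2 X μ T e b s f hS (fun j x0 c0 hx hc =>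
    h1 X μ T e b s a d g φ f n B hS hT hL j x0 c0 hx hc) j

theorem specERG (h1 : SpecABS) (h2 : SpecSYS) : SpecERG := by
  intro b s F G hTw
  obtain ⟨X, mX, μ, T, e, π, hS, hπ, hT, hm⟩ := h2 b s F G hTw
  have hcomp : (fun z => π (T z)) =ᵐ[μ] fun z => tMap b F G (π z) := hT
  refine ⟨⟨hm, ?_⟩, ?_⟩
  · have e1 : Measure.map (tMap b F G) muY = Measure.map (fun z => tMap b F G (π z)) μ := by
      rw [← hπ.map_eq, Measure.map_map hm hπ.measurable]; rfl
    rw [e1, ← Measure.map_congr hcomp]
    have e2 : Measure.map (fun z => π (T z)) μ = Measure.map π (Measure.map T μ) := by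
      rw [Measure.map_map hπ.measurable T.measurable]; rfl
    rw [e2, hS.mp.map_eq, hπ.map_eq]
  · intro A hA hAT
    have hA' : MeasurableSet (π ⁻¹' A) := hπ.measurable hA
    have key : (T ⁻¹' (π ⁻¹' A) : Set X) =ᵐ[μ] (π ⁻¹' A : Set X) := by
      have h3 : (π ⁻¹' ((tMap b F G) ⁻¹' A) : Set X) =ᵐ[μ] (π ⁻¹' A : Set X) :=
        hπ.quasiMeasurePreserving.preimage_ae_eq hAT
      have h4 : (T ⁻¹' (π ⁻¹' A) : Set X) =ᵐ[μ] (π ⁻¹' ((tMap b F G) ⁻¹' A) : Set X) := by
        filter_upwards [hT] with z hz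
        apply propext
        show π (T z) ∈ A ↔ tMap b F G (π z) ∈ A
        rw [hz]
      exact h4.trans h3
    rcases h1 X μ T e b s hS (π ⁻¹' A) hA' key with h | h
    · left
      rw [← hπ.measure_preimage hA.nullMeasurableSet]
      exact h
    · right
      rw [← hπ.measure_preimage hA.compl.nullMeasurableSet]
      exact h

end Pool.Agent.Lib.MP_d2b992_gt.Dyn
end

section
/-!
# The abstract ergodicity theorem
-/
set_option autoImplicit false

namespace Pool.Agent.Lib.MP_d2b992_gt.Dyn

/-- Every abstract system (`IsSys`) is ergodic. -/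
theorem absThm : SpecABS :=
  specABS (specHOPF (specLEAF specUC specDIST specCLOS) (specEXIST specCROSS)
    (specACT specAREA) specCLF specRET specLEB) specSQC (specFIN specVN)

end Pool.Agent.Lib.MP_d2b992_gt.Dyn
end

section
/-!
# Assembly of the dynamics of the ergodic sphere
-/
set_option autoImplicit false

namespace Pool.Agent.Lib.MP_d2b992_gt.Dyn

theorem evoAll : SpecEVO :=
  specEVO specJET specNORM specL1 specSTEPP (specSTEPQ specL1) (specCHRT specL1)
    (specPTH specL1) specINI specSX1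

theorem crsAll : SpecCRS := specCRS specL1 specSTEPP (specSTEPQ specL1) specSX1

theorem visAll : SpecVIS := specVIS specMPP specMPQ

theorem sysAll : SpecSYS :=
  specSYS specSX1 specSX2 specSX3 specMPP specMPQ evoAll crsAll visAll specS02

/-- For every twist pair the map `tMap` preserves the area and is ergodic. -/
theorem ergAll : SpecERG := specERG absThm sysAll

end Pool.Agent.Lib.MP_d2b992_gt.Dyn
end

section
/-!
# The geodesic half: assembly
-/
set_option autoImplicit false

namespace Pool.Agent.Lib.MP_d2b992_gt.Erg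

/-- The reduction of the geodesic flow to the dynamics of `T = P ∘ Q`. -/
theorem geomAll : SpecGEOM := by
  have hLQ : SpecLINKQ := specLINKQ specQARC specKTH specTRI (specTRV specKTH specTRI) specQKICK
  have hLP : SpecLINKP := specLINKP specPARC specKTH specFOLD specTRI
  have hK : SpecCOVK := specCOVK specSURJ specFAMX (specFAMK specPARC specKTH specTRI) specFOLD 
    specTRI specKTH
  have hP : SpecCOVP := specCOVP specSURJ specFAMX (specFAMP specPARC specKTH specTRI) specFOLD 
    specKTH specTRI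
  have hQ : SpecCOVQ := specCOVQ specSURJ specFAMX 
    (specFAMQ specQARC specKTH specTRI (specTRV specKTH specTRI)) specFOLD specKTH
  exact specGEOM hLP hLQ (specCOV hK hP hQ) specSMP specLNUL (specDEG specSMP) specBAD 
    (specMEAS specSMP)

/-- The metrics of the construction are ergodic. -/
theorem ergodic_of {C : Caps} {F G : ℝ → ℝ} (hD : Defl C F G) 
    (hT : T.Tw (5 / 13) (12 / 13) F G) : IsErgodic C.metric := 
  isErgodic geomAll Dyn.specMPP Dyn.specMPQ Dyn.ergAll hD hT

end Pool.Agent.Lib.MP_d2b992_gt.Erg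
end
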