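import Pool.Agent.Lib.MP_d2b992_gt.Defs

/-!
# Rotationally symmetric caps

A cap is given by a profile `σ`. With `D u = (2 / n - 1) - ∫ v in 0..u, σ v` and
`h u = 1 / √(1 - u) + D u` its metric is `h (r ^ 2) ^ 2 dr ^ 2 + r ^ 2 dΘ ^ 2`, or, with
`r = sin φ`, `psi φ ^ 2 dφ ^ 2 + sin φ ^ 2 dΘ ^ 2`, where `psi φ = 1 + |cos φ| * D (sin φ ^ 2)`. It
is round for `u = r ^ 2 ≥ a ^ 2`, and `h 0 = 2 / n`. The radial conformal coordinate is `N u`,
which satisfies `N' = n * h * N / (2 * u)`, and `U` is the inverse function of `N`.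
-/

namespace Pool.Agent.Lib.MP_d2b992_gt.Erg

open Set
open scoped ContDiff

/-- The data of a rotationally symmetric cap. -/
structure Cap where
  /-- The angle `Θ` has the period `n' * π` with `n' = 4 / n`. -/
  n : ℕ
  /-- The metric is round for `sin φ ≥ a`. -/
  a : ℝ
  /-- The profile. -/
  σ : ℝ → ℝ
  n_pos : 0 < n
  a_pos : 0 < a
  a_lt : a < 1
  smooth : ContDiff ℝ ∞ σ
  lt : ∀ u, 0 ≤ u → u < 1 → σ u < 1 / (2 * (1 - u) * √(1 - u))
  zero : ∀ u, a ^ 2 ≤ u → σ u = 0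
  total : ∫ u in (0:ℝ)..1, σ u = 2 / n - 1

namespace Cap

variable (K : Cap)

/-- The difference of the profiles `h` of the cap and of the round sphere. -/
noncomputable def D (u : ℝ) : ℝ := (2 / K.n - 1) - ∫ v in (0:ℝ)..u, K.σ v

/-- The profile `h`. -/
noncomputable def h (u : ℝ) : ℝ := 1 / √(1 - u) + K.D u

/-- The coefficient `psi`. -/
noncomputable def psi (φ : ℝ) : ℝ := 1 + |Real.cos φ| * K.D (Real.sin φ ^ 2)

/-- The smooth function `(n * h v / 2 - 1) / v`. -/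
noncomputable def ell (v : ℝ) : ℝ := 
  K.n / 2 * (1 / (√(1 - v) * (1 + √(1 - v))) - ∫ t in (0:ℝ)..1, K.σ (t * v))

/-- The radial conformal coordinate at the boundary of the cap, divided by `a ^ 2`. -/
noncomputable def c0 : ℝ := (K.a / (1 + √(1 - K.a ^ 2))) ^ K.n / K.a ^ 2

/-- The radial conformal coordinate. -/
noncomputable def N (u : ℝ) : ℝ := K.c0 * u * Real.exp (∫ v in (K.a ^ 2)..u, K.ell v)

/-- The inverse function of `N`. -/
noncomputable def U (x : ℝ) : ℝ := sSup {u | u < 1 ∧ K.N u ≤ x}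

/-- The smooth function `U x / x`. -/
noncomputable def kap (x : ℝ) : ℝ := 1 / (K.c0 * Real.exp (∫ v in (K.a ^ 2)..(K.U x), K.ell v))

end Cap

end Pool.Agent.Lib.MP_d2b992_gt.Erg
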