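import Pool.Agent.Lib.MP_d2b992_gt.Erg.Trans
import Pool.Agent.Lib.MP_d2b992_gt.Erg.Stmt
import Pool.Agent.Lib.MP_d2b992_gt.Erg.Mass
import Pool.Agent.Lib.MP_d2b992_gt.Dyn.Defs
import Pool.Agent.Lib.MP_d2b992_gt.T.Defs

/-!
# Geodesic half of the ergodic sphere: definitions

Text: `/team-store/MP_d2b992_gt_ERG.md` (part G). Parameters `b = 5/13`, `s = 12/13`.

All geodesics of a metric of revolution `psi² dφ² + sin² φ dΘ²` are explicit (`Erg/Arc.lean`):
`cos φ = √(1-c²) sin τ`, `dΘ/dτ = psi c / sin² φ`, `dt/dτ = psi` (`t` = arc length); `φ = phc c τ`,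
`Θ = K.th c Θ₀ τ`, `t = K.tt c τ`.
The parameter `τ` is used everywhere; `vecP C Θ c τ` is the UNIT VECTOR of the explicit geodesic of
the first chart with `Θ(0) = Θ`, `vecQ C e Ψ x τ` the one of the second charts.
A state is `z = (Θ, c)` as in `Dyn/Defs.lean`.
-/

namespace Pool.Agent.Lib.MP_d2b992_gt.Erg

open Set Real MeasureTheory
open scoped ContDiff InnerProductSpace

/-- The increment of `Θ` between two consecutive crossings of the seam `φ = π/2`. -/
noncomputable def KW (K : Cap) (c : ℝ) : ℝ := K.th c 0 π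

/-- The velocity (with respect to the arc length) in the coordinates `(φ, Θ)`. -/
noncomputable def velK (K : Cap) (c τ : ℝ) : ℝ × ℝ := 
  (dphc c τ / K.psi (phc c τ), c / sin (phc c τ) ^ 2)

/-- The unit vector at the parameter `τ` of the explicit geodesic `(Θ, c)` of the first chart. -/
noncomputable def vecP (C : Caps) (Θ c τ : ℝ) : R3 × R3 := 
  (chP C (phc c τ, C.P.th c Θ τ), fderiv ℝ (chP C) (phc c τ, C.P.th c Θ τ) (velK C.P c τ))

/-- The unit vector at the parameter `τ` of the explicit geodesic `(Ψ, x)` of the second charts. -/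
noncomputable def vecQ (C : Caps) (e Ψ x τ : ℝ) : R3 × R3 := 
  (chQ C e (phc x τ, C.Q.th x Ψ τ), fderiv ℝ (chQ C e) (phc x τ, C.Q.th x Ψ τ) (velK C.Q x τ))

/-- The relation of the deflections with the twist functions `F` and `G`. -/
structure Defl (C : Caps) (F G : ℝ → ℝ) : Prop where
  P_pos : ∀ c, 0 < c → c < 1 → KW C.P c = F c + 3 * π
  P_neg : ∀ c, -1 < c → c < 0 → KW C.P c = F c - π
  Q_pos : ∀ x, 0 < x → x < 1 → KW C.Q x = G x
  Q_neg : ∀ x, -1 < x → x < 0 → KW C.Q x = G x - π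

/-! ### States `z = (Θ, c)` -/

open Dyn

/-- `x = n · q`. -/
noncomputable def xx (z : St) : ℝ := √(1 - z.2 ^ 2) * sin z.1

/-- The state is near and meets the cap `q`. -/
def inQ (z : St) : Prop := 0 < cos z.1 ∧ |xx z| < 5 / 13

/-- Entry of the first cap: for `|c| < 12/13` the cap is `τ ∈ (tau3 c, π - tau3 c)`. -/
noncomputable def tau3 (c : ℝ) : ℝ := arcsin (5 / 13 / √(1 - c ^ 2))

open Classical in
/-- `tau3 c`, and `2π` when the first cap is not met. -/
noncomputable def t3' (c : ℝ) : ℝ := if |c| < 12 / 13 then tau3 c else 2 * π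

/-- The parameter of the point closest to `q` (near states), to `-q` (far states). -/
noncomputable def tauc (z : St) : ℝ := -arctan (z.2 * tan z.1)

/-- Near states meet the cap `q` for `|τ - tauc z| < sigb z`. -/
noncomputable def sigb (z : St) : ℝ := arccos (12 / 13 / √(1 - xx z ^ 2))

open Classical in
/-- The parameter of the base point before the `Q`-event. -/
noncomputable def tauM (z : St) : ℝ := 
  if inQ z then (tauc z - sigb z + max (-t3' z.2) (tauc z - π / 2)) / 2 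
  else if |z.2| < 12 / 13 then 0 else tauc z

open Classical in
/-- The parameter of the base point after the `Q`-event. -/
noncomputable def tauP (z : St) : ℝ := 
  if inQ z then (tauc z + sigb z + min (t3' z.2) (tauc z + π / 2)) / 2 
  else if |z.2| < 12 / 13 then 0 else tauc z

/-- The unit vector of a state before the `Q`-event. -/
noncomputable def vM (C : Caps) (z : St) : R3 × R3 := vecP C z.1 z.2 (tauM z)

/-- The unit vector of a state after the `Q`-event. -/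
noncomputable def vPl (C : Caps) (z : St) : R3 × R3 := vecP C z.1 z.2 (tauP z)

/-- The `q`-coordinate of the point of the great circle `(Θ, c)` at the parameter `τ`. -/
noncomputable def xK (Θ c τ : ℝ) : ℝ := cos τ * cos Θ - c * sin τ * sin Θ

/-- The exceptional states. -/
def Bad : Set St := {z | z.2 = 0 ∨ |z.2| = 12 / 13 ∨ xx z = 0 ∨ |xx z| = 5 / 13 ∨ cos z.1 = 0 ∨ 
  12 * xx z = 5 * z.2 ∨ 12 * xx z = -(5 * z.2)}

open Classical in
/-- The sign of the second chart: near `q₁` or near `q₂`. -/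
noncomputable def esgn (z : St) : ℝ := if 0 < cos (z.1 / 2) then 1 else -1

/-- The angle around `q` of a near state: `c = √(1-x²) sin Psi`, `D = √(1-x²) cos Psi < 0`. -/
noncomputable def Psi (z : St) : ℝ := π - arcsin (z.2 / √(1 - xx z ^ 2))

/-- The parameters `(point of the chart, angle)` of the unit vectors of `V`. -/
def preim (C : Caps) (V : Set (R3 × R3)) : Set ((ℝ × ℝ) × ℝ) := 
  uvec C.metric ⁻¹' V ∩ univ ×ˢ Ioo 0 (2 * π)

/-- The degenerate unit vectors. -/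
def Deg (C : Caps) : Set (R3 × R3) := {v | SS v.1 = 12 / 13 ∨ 2 * nu v.1 = 1 / 25 * (1 + v.1 2) ∨ 
  v.1 2 = 1 ∨ v.1 2 = -1 ∨ nu v.1 = 0 ∨ 
  (∃ φ ∈ Ioo 0 π, ∃ Θ : ℝ, ∃ u : ℝ × ℝ, chP C (φ, Θ) = v.1 ∧ fderiv ℝ (chP C) (φ, Θ) u = v.2 ∧ 
    (φ, Θ) ∈ DomP ∧ BB C.P (φ, Θ) u u = 1 ∧ (u.1 = 0 ∨ u.2 = 0)) ∨ 
  (∃ e : ℝ, (e = 1 ∨ e = -1) ∧ ∃ φ ∈ Ioo 0 (π / 2), ∃ Θ : ℝ, ∃ u : ℝ × ℝ, chQ C e (φ, Θ) = v.1 ∧ 
    fderiv ℝ (chQ C e) (φ, Θ) u = v.2 ∧ BB C.Q (φ, Θ) u u = 1 ∧ u.2 = 0) ∨ 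
  (∃ e : ℝ, (e = 1 ∨ e = -1) ∧ ∃ x τ : ℝ, x ≠ 0 ∧ |x| < 1 ∧ τ ∈ Ioo 0 π ∧ 
    v = vecQ C e (π / 2) x τ)}

end Pool.Agent.Lib.MP_d2b992_gt.Erg
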