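import Pool.Agent.Lib.MP_d2b992_gt.Erg.GeoSpec
import Pool.Agent.Lib.MP_d2b992_gt.Erg.Mass
import Pool.Agent.Lib.MP_d2b992_gt.Erg.Trans

section
/-!
# BAD: the exceptional states are a measurable null set
-/
set_option autoImplicit false

namespace Pool.Agent.Lib.MP_d2b992_gt.Erg

open Set Real MeasureTheory Dyn

namespace BadM

theorem countable_sin (y : ℝ) : {T : ℝ | sin T = y}.Countable := by
  by_cases hy : y ∈ Icc (-1 : ℝ) 1
  · have hsub : {T : ℝ | sin T = y} ⊆ range (fun k : ℤ => arcsin y - 2 * (k : ℝ) * π) ∪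
        range (fun k : ℤ => (2 * (k : ℝ) + 1) * π - arcsin y) := by
      intro T hT
      have h1 : sin T = sin (arcsin y) := by
        rw [sin_arcsin hy.1 hy.2]
        exact hT
      rw [Real.sin_eq_sin_iff] at h1
      obtain ⟨k, hk | hk⟩ := h1
      · exact Or.inl ⟨k, by simp only; linarith⟩
      · exact Or.inr ⟨k, by simp only; linarith⟩
    exact ((countable_range _).union (countable_range _)).mono hsub
  · have hsub : {T : ℝ | sin T = y} ⊆ ∅ := by
      intro T hT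
      apply hy
      have hT' : sin T = y := hT
      rw [← hT']
      exact ⟨neg_one_le_sin T, sin_le_one T⟩
    exact countable_empty.mono hsub

theorem countable_cos : {T : ℝ | cos T = 0}.Countable := by
  have hsub : {T : ℝ | cos T = 0} ⊆ range (fun k : ℤ => (2 * (k : ℝ) + 1) * π / 2) := by
    intro T hT
    have hT' : cos T = 0 := hT
    obtain ⟨k, hk⟩ := Real.cos_eq_zero_iff.mp hT'
    exact ⟨k, hk.symm⟩
  exact (countable_range _).mono hsub

theorem null_of_sections {S : Set St} (hS : MeasurableSet S)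
    (h : ∀ c : ℝ, {T : ℝ | (T, c) ∈ S}.Countable) : volume S = 0 := by
  have hsw : MeasurePreserving (Prod.swap : ℝ × ℝ → ℝ × ℝ)
      ((volume : Measure ℝ).prod (volume : Measure ℝ))
      ((volume : Measure ℝ).prod (volume : Measure ℝ)) := Measure.measurePreserving_swap
  have h5 : ((volume : Measure ℝ).prod (volume : Measure ℝ)) (Prod.swap ⁻¹' S) = 0 := by
    rw [Measure.measure_prod_null (hS.preimage measurable_swap)]
    filter_upwards with c
    exact (h c).measure_zero volume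
  have h6 : ((volume : Measure ℝ).prod (volume : Measure ℝ)) (Prod.swap ⁻¹' S) =
      ((volume : Measure ℝ).prod (volume : Measure ℝ)) S :=
    hsw.measure_preimage hS.nullMeasurableSet
  rw [← h5, h6]
  rfl

theorem null_line (c : ℝ) : volume {z : St | z.2 = c} = 0 := by
  have h1 : {z : St | z.2 = c} = (univ : Set ℝ) ×ˢ ({c} : Set ℝ) := by
    ext z
    simp
  have h2 : (volume : Measure (ℝ × ℝ)) = (volume : Measure ℝ).prod (volume : Measure ℝ) := rfl
  rw [h1, h2, Measure.prod_prod, volume_singleton, mul_zero]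

theorem meas_xx : Measurable (xx : St → ℝ) := by
  unfold xx
  fun_prop

theorem meas_lt : MeasurableSet {z : St | |z.2| < 1} :=
  measurableSet_lt (by fun_prop) measurable_const

theorem sqrt_pos' {c : ℝ} (h : |c| < 1) : 0 < √(1 - c ^ 2) := by
  apply Real.sqrt_pos.mpr
  have := (sq_lt_one_iff_abs_lt_one c).mpr h
  linarith

/-- for each `c` the section is countable -/
theorem null_xx (p : ℝ → ℝ) (hp : Measurable p) :
    volume ({z : St | xx z = p z.2} ∩ {z : St | |z.2| < 1}) = 0 := by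
  apply null_of_sections
  · exact (measurableSet_eq_fun meas_xx (by fun_prop)).inter meas_lt
  · intro c
    by_cases hc : |c| < 1
    · refine (countable_sin (p c / √(1 - c ^ 2))).mono ?_
      rintro T ⟨h1, _⟩
      have h2 : √(1 - c ^ 2) * sin T = p c := h1
      have h3 := sqrt_pos' hc
      show sin T = p c / √(1 - c ^ 2)
      rw [eq_div_iff h3.ne']
      linarith
    · refine countable_empty.mono ?_
      rintro T ⟨_, h2⟩
      exact hc h2

theorem null_cos : volume {z : St | cos z.1 = 0} = 0 := by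
  apply null_of_sections
  · exact measurableSet_eq_fun (by fun_prop) measurable_const
  · intro c
    exact countable_cos

end BadM

open BadM in
theorem specBAD : SpecBAD := by
  constructor
  · have h1 := null_line 0
    have h2 := null_line (12 / 13)
    have h3 := null_line (-(12 / 13))
    have h4 := null_xx (fun _ => 0) measurable_const
    have h5 := null_xx (fun _ => 5 / 13) measurable_const
    have h6 := null_xx (fun _ => -(5 / 13)) measurable_const
    have h7 := null_cos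
    have h8 := null_xx (fun c => 5 * c / 12) (by fun_prop)
    have h9 := null_xx (fun c => -(5 * c) / 12) (by fun_prop)
    refine measure_mono_null ?_ (measure_union_null (measure_union_null (measure_union_null
      (measure_union_null (measure_union_null (measure_union_null (measure_union_null
      (measure_union_null h1 h2) h3) h4) h5) h6) h7) h8) h9)
    rintro z ⟨hz, hz1⟩
    rcases hz with hz | hz | hz | hz | hz | hz | hz
    · exact Or.inl (Or.inl (Or.inl (Or.inl (Or.inl (Or.inl (Or.inl (Or.inl hz)))))))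
    · rcases eq_or_eq_neg_of_abs_eq hz with h | h
      · exact Or.inl (Or.inl (Or.inl (Or.inl (Or.inl (Or.inl (Or.inl (Or.inr h)))))))
      · exact Or.inl (Or.inl (Or.inl (Or.inl (Or.inl (Or.inl (Or.inr h))))))
    · exact Or.inl (Or.inl (Or.inl (Or.inl (Or.inl (Or.inr ⟨hz, hz1⟩)))))
    · rcases eq_or_eq_neg_of_abs_eq hz with h | h
      · exact Or.inl (Or.inl (Or.inl (Or.inl (Or.inr ⟨h, hz1⟩))))
      · exact Or.inl (Or.inl (Or.inl (Or.inr ⟨h, hz1⟩)))
    · exact Or.inl (Or.inl (Or.inr hz))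
    · refine Or.inl (Or.inr ⟨?_, hz1⟩)
      show xx z = 5 * z.2 / 12
      linarith
    · refine Or.inr ⟨?_, hz1⟩
      show xx z = -(5 * z.2) / 12
      linarith
  · have m2 : Measurable fun z : St => z.2 := measurable_snd
    have a1 : MeasurableSet {z : St | z.2 = 0} := measurableSet_eq_fun m2 measurable_const
    have a2 : MeasurableSet {z : St | |z.2| = 12 / 13} :=
      measurableSet_eq_fun (by fun_prop) measurable_const
    have a3 : MeasurableSet {z : St | xx z = 0} := measurableSet_eq_fun meas_xx measurable_const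
    have a4 : MeasurableSet {z : St | |xx z| = 5 / 13} :=
      measurableSet_eq_fun (meas_xx.norm) measurable_const
    have a5 : MeasurableSet {z : St | cos z.1 = 0} :=
      measurableSet_eq_fun (by fun_prop) measurable_const
    have a6 : MeasurableSet {z : St | 12 * xx z = 5 * z.2} :=
      measurableSet_eq_fun (meas_xx.const_mul 12) (by fun_prop)
    have a7 : MeasurableSet {z : St | 12 * xx z = -(5 * z.2)} :=
      measurableSet_eq_fun (meas_xx.const_mul 12) (by fun_prop)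
    exact a1.union (a2.union (a3.union (a4.union (a5.union (a6.union a7)))))

end Pool.Agent.Lib.MP_d2b992_gt.Erg
end

section
/-!
# COV: assembly and COVK (the round region)
-/
set_option autoImplicit false

namespace Pool.Agent.Lib.MP_d2b992_gt.Erg

open Set Real MeasureTheory Dyn
open scoped ContDiff InnerProductSpace

theorem specCOV (h1 : SpecCOVK) (h2 : SpecCOVP) (h3 : SpecCOVQ) : SpecCOV := by
  intro C A hA v hv hvA hd
  have hd' := hd
  simp only [Deg, mem_setOf_eq, not_or] at hd'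
  obtain ⟨d1, d2, -, d4, -⟩ := hd'
  rcases lt_trichotomy (SS v.1) (12 / 13) with h | h | h
  · exact h2 C A hA v hv hvA hd d4 h
  · exact absurd h d1
  · rcases lt_trichotomy (2 * nu v.1) (1 / 25 * (1 + v.1 2)) with h' | h' | h'
    · exact h3 C A hA v hv hvA hd d4 h'
    · exact absurd h' d2
    · exact h1 C A hA v hv hvA hd d4 h h'

namespace CovkM

theorem fderiv_fold (C : Caps) {p : ℝ × ℝ} (hp : p.1 ∈ Ioo 0 π) (u : ℝ × ℝ) : 
    fderiv ℝ (chP C) (π - p.1, -p.2) (-u) = fderiv ℝ (chP C) p u := by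
  have hp' : ((π - p.1, -p.2) : ℝ × ℝ).1 ∈ Ioo 0 π := ⟨by simp only; linarith [hp.2], by 
    simp only; linarith [hp.1]⟩
  have hopen : IsOpen {q : ℝ × ℝ | q.1 ∈ Ioo 0 π} := isOpen_Ioo.preimage continuous_fst
  have hd : DifferentiableAt ℝ (chP C) (π - p.1, -p.2) := 
    ((contDiffOn_chP C).contDiffAt (hopen.mem_nhds hp')).differentiableAt (by simp)
  have hR : HasFDerivAt (fun q : ℝ × ℝ => ((π - q.1, -q.2) : ℝ × ℝ)) 
      (-(ContinuousLinearMap.id ℝ (ℝ × ℝ))) p := by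
    have h1 : HasFDerivAt (fun q : ℝ × ℝ => π - q.1) (-(ContinuousLinearMap.fst ℝ ℝ ℝ)) p := 
      hasFDerivAt_fst.const_sub π
    have h2 : HasFDerivAt (fun q : ℝ × ℝ => -q.2) (-(ContinuousLinearMap.snd ℝ ℝ ℝ)) p := 
      hasFDerivAt_snd.neg
    refine (h1.prodMk h2).congr_fderiv ?_
    ext <;> simp
  have h3 := hd.hasFDerivAt.comp p hR
  have h4 : (chP C ∘ fun q : ℝ × ℝ => ((π - q.1, -q.2) : ℝ × ℝ)) = chP C := by
    funext q
    exact chP_fold C q.1 q.2
  rw [h4] at h3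
  rw [h3.fderiv]
  simp

theorem BB_fold (K : Cap) (p u : ℝ × ℝ) : BB K (π - p.1, -p.2) (-u) (-u) = BB K p u u := by
  unfold BB
  simp only [K.psi_pi_sub, sin_pi_sub, Prod.fst_neg, Prod.snd_neg]
  ring

theorem exists_red (Θ : ℝ) : ∃ k : ℤ, Θ = red Θ + k * (4 * π) := by
  refine ⟨toIcoDiv four_pi_pos (-(π / 2)) Θ, ?_⟩
  unfold red
  have := toIcoMod_add_toIcoDiv_zsmul four_pi_pos (-(π / 2)) Θ
  rw [zsmul_eq_mul] at this
  exact this.symm

theorem red_mem (Θ : ℝ) : -(π / 2) ≤ red Θ ∧ red Θ < 7 * π / 2 := by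
  have := toIcoMod_mem_Ico four_pi_pos (-(π / 2)) Θ
  refine ⟨this.1, ?_⟩
  have h := this.2
  unfold red
  linarith

/-- A unit vector of the first chart over the round region, going up. -/
theorem covd_of_neg (hX : SpecFAMX) (hK : SpecFAMK) (hF : SpecFOLD) (hT : SpecTRI) (hKT : SpecKTH)
    {C : Caps} {A : Set (R3 × R3)} (hA : InvariantArc C.metric A) {v : R3 × R3} (hvA : v ∈ A)
    {φ Θ : ℝ} {u : ℝ × ℝ} (hφ : φ ∈ Ioo 0 π) (h1 : |cos φ| < 5 / 13) (h2 : sin φ * cos Θ < 12 / 13)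
    (h3 : chP C (φ, Θ) = v.1) (h4 : fderiv ℝ (chP C) (φ, Θ) u = v.2) 
    (h5 : BB C.P (φ, Θ) u u = 1) (h6 : u.1 < 0) (h7 : u.2 ≠ 0) : Covd C A v := by
  obtain ⟨c, Θ₀, hc0, -, hx, -⟩ := hX C.P φ Θ u hφ h5 h7
  obtain ⟨hc1, τ, hτ, e1, e2, e3⟩ := hx h6
  have hc1' : |c| < 1 := hc1.trans_le (sin_le_one φ)
  obtain ⟨k, hk⟩ := exists_red Θ₀
  have hv : v = vecP C (red Θ₀) c τ := by
    rw [← hF.2.1 C c hc0 hc1' (red Θ₀) τ k, ← hk]
    refine Prod.ext ?_ ?_
    · simp only [vecP]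
      rw [e1, e2]
      exact h3.symm
    · simp only [vecP]
      rw [e1, e2, e3]
      exact h4.symm
  have hz : ((red Θ₀, c) : St) ∈ Dom := ⟨(red_mem Θ₀).1, (red_mem Θ₀).2, hc1'⟩
  refine ⟨(red Θ₀, c), hz, τ, ?_, Or.inl ⟨hc0, hv⟩⟩
  by_cases hb : ((red Θ₀, c) : St) ∈ Bad
  · exact Or.inl hb
  right
  obtain ⟨-, -, -, -, t5, -, t7⟩ := hKT C.P c hc0 hc1'
  have hcos : (1 - c ^ 2) * sin τ ^ 2 = cos φ ^ 2 := by
    have := (t7 τ).2.2
    rw [e1] at this
    have h8 := sin_sq_add_cos_sq φ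
    linarith
  have hsq : (1 - c ^ 2) * sin τ ^ 2 < (5 / 13) ^ 2 := by
    rw [hcos, ← sq_abs]
    exact pow_lt_pow_left₀ h1 (abs_nonneg _) (by norm_num)
  refine hK C A hA (red Θ₀, c) hc1' hb τ hτ.le ?_ ?_ ?_
  · intro h8
    exact (((hT (red Θ₀, c) hc1').2.2.2.2.2.1 h8).2.2.2 τ hτ.le).1 hsq
  · have h8 := (t5 (red Θ₀) τ (Or.inr ⟨hτ.le, by rw [C.Pa]; linarith⟩)).1
    show xK (red Θ₀) c τ < 12 / 13
    rw [← h8, e1]
    have h9 : C.P.th c (red Θ₀) τ = Θ - k * (4 * π) := by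
      rw [← e2]
      have a1 : C.P.th c Θ₀ τ = Θ₀ + C.P.th c 0 τ := (hKT C.P c hc0 hc1').2.2.2.1 Θ₀ τ
      have a2 : C.P.th c (red Θ₀) τ = red Θ₀ + C.P.th c 0 τ := 
        (hKT C.P c hc0 hc1').2.2.2.1 (red Θ₀) τ
      rw [a1, a2]
      linarith
    have h10 : cos (Θ - k * (4 * π)) = cos Θ := by
      have : Θ - k * (4 * π) = Θ - (2 * k : ℤ) * (2 * π) := by
        push_cast
        ring
      rw [this, cos_sub_int_mul_two_pi]
    rw [h9, h10]
    exact h2
  · rw [← hv]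
    exact hvA

end CovkM

open CovkM

theorem specCOVK (hS : SpecSURJ) (hX : SpecFAMX) (hK : SpecFAMK) (hF : SpecFOLD) (hT : SpecTRI) 
    (hKT : SpecKTH) : SpecCOVK := by
  intro C A hA v hv hvA hd d4 h h'
  obtain ⟨φ, hφ, Θ, u, h1, h2, h3, h4, h5⟩ := (hS C v hv d4).1 h h'
  have hdeg : u.1 ≠ 0 ∧ u.2 ≠ 0 := by
    rw [← not_or]
    intro h6
    apply hd
    right; right; right; right; right; left
    exact ⟨φ, hφ, Θ, u, h3, h4, ⟨hφ, h2⟩, h5, h6⟩
  rcases lt_or_gt_of_ne hdeg.1 with h6 | h6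
  · exact covd_of_neg hX hK hF hT hKT hA hvA hφ h1 h2 h3 h4 h5 h6 hdeg.2
  · have hφ' : π - φ ∈ Ioo 0 π := ⟨by linarith [hφ.2], by linarith [hφ.1]⟩
    refine covd_of_neg hX hK hF hT hKT hA hvA (φ := π - φ) (Θ := -Θ) (u := -u) hφ' ?_ ?_ ?_ ?_ ?_ 
      ?_ ?_
    · rw [cos_pi_sub, abs_neg]
      exact h1
    · rw [sin_pi_sub, cos_neg]
      exact h2
    · rw [chP_fold]
      exact h3
    · rw [← h4]
      exact fderiv_fold C (p := (φ, Θ)) hφ u
    · rw [← h5]
      exact BB_fold C.P (φ, Θ) u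
    · simp only [Prod.fst_neg]
      linarith
    · simpa using hdeg.2

end Pool.Agent.Lib.MP_d2b992_gt.Erg
end

section
/-!
# COVP: unit vectors over the first cap
-/
set_option autoImplicit false

namespace Pool.Agent.Lib.MP_d2b992_gt.Erg

open Set Real MeasureTheory Dyn
open scoped ContDiff InnerProductSpace

namespace CovpM

theorem exists_red (Θ : ℝ) : ∃ k : ℤ, Θ = red Θ + k * (4 * π) := by
  refine ⟨toIcoDiv four_pi_pos (-(π / 2)) Θ, ?_⟩
  unfold red
  have := toIcoMod_add_toIcoDiv_zsmul four_pi_pos (-(π / 2)) Θ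
  rw [zsmul_eq_mul] at this
  exact this.symm

theorem red_mem (Θ : ℝ) : -(π / 2) ≤ red Θ ∧ red Θ < 7 * π / 2 := by
  have := toIcoMod_mem_Ico four_pi_pos (-(π / 2)) Θ
  refine ⟨this.1, ?_⟩
  have h := this.2
  unfold red
  linarith

theorem mem_of_sin {a t τ : ℝ} (ha : 0 ≤ a) (ht : 0 < t) (ht' : t < π / 2) (hτ : τ ∈ Ioo 0 π)
    (h : a * sin t < a * sin τ) : τ ∈ Ioo t (π - t) := by
  have key : ∀ s : ℝ, 0 < s → s ≤ t → a * sin s ≤ a * sin t := by
    intro s hs0 hs
    exact mul_le_mul_of_nonneg_left (sin_le_sin_of_le_of_le_pi_div_two (by linarith) ht'.le hs) ha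
  constructor
  · by_contra hn
    have := key τ hτ.1 (not_lt.mp hn)
    linarith
  · by_contra hn
    have h1 := key (π - τ) (by linarith [hτ.2]) (by linarith [not_lt.mp hn])
    rw [sin_pi_sub] at h1
    linarith

end CovpM

open CovpM

theorem specCOVP (hS : SpecSURJ) (hX : SpecFAMX) (hP : SpecFAMP) (hF : SpecFOLD) (hKT : SpecKTH)
    (hT : SpecTRI) : SpecCOVP := by
  intro C A hA v hv hvA hd d4 h
  have hd3 : v.1 2 ≠ 1 := by
    intro h1
    exact hd (Or.inr (Or.inr (Or.inl h1)))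
  obtain ⟨φ, hφ, Θ, u, h1, h3, h4, h5⟩ := (hS C v hv d4).2.1 h hd3
  have hφ' : φ ∈ Ioo 0 π := ⟨hφ.1, by linarith [hφ.2, pi_pos]⟩
  have hs0 : 0 < sin φ := sin_pos_of_mem_Ioo hφ'
  have hs : sin φ < 12 / 13 := by
    have h6 := sin_sq_add_cos_sq φ
    nlinarith
  have hdom : (φ, Θ) ∈ DomP := ⟨hφ', by
    show sin φ * cos Θ < 12 / 13
    nlinarith [cos_le_one Θ]⟩
  have h7 : u.2 ≠ 0 := by
    intro h6
    apply hd
    right; right; right; right; right; left
    exact ⟨φ, hφ', Θ, u, h3, h4, hdom, h5, Or.inr h6⟩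
  obtain ⟨c, Θ₀, hc0, hc, -, hx⟩ := hX C.P φ Θ u hφ' h5 h7
  obtain ⟨Θ₁, τ, hτ, e1, e2, e3⟩ := hx hφ.2
  have hc12 : |c| < 12 / 13 := hc.trans_lt hs
  have hc1' : |c| < 1 := hc12.trans (by norm_num)
  obtain ⟨k, hk⟩ := exists_red Θ₁
  have hv' : v = vecP C (red Θ₁) c τ := by
    rw [← hF.2.1 C c hc0 hc1' (red Θ₁) τ k, ← hk]
    refine Prod.ext ?_ ?_
    · simp only [vecP]
      rw [e1, e2]
      exact h3.symm
    · simp only [vecP]
      rw [e1, e2, e3]
      exact h4.symm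
  have hz : ((red Θ₁, c) : St) ∈ Dom := ⟨(red_mem Θ₁).1, (red_mem Θ₁).2, hc1'⟩
  refine ⟨(red Θ₁, c), hz, τ, ?_, Or.inl ⟨hc0, hv'⟩⟩
  by_cases hb : ((red Θ₁, c) : St) ∈ Bad
  · exact Or.inl hb
  right; right
  have hcos := ((hKT C.P c hc0 hc1').2.2.2.2.2.2 τ).1
  rw [e1] at hcos
  obtain ⟨t1, t2, t3, -⟩ := (hT (red Θ₁, c) hc1').2.2.2.2.2.1 hc12
  refine hP C A hA (red Θ₁, c) hb hc12 τ ?_ ?_
  · refine mem_of_sin (sqrt_nonneg (1 - c ^ 2)) t1 t2 hτ ?_
    have t3' : √(1 - c ^ 2) * sin (tau3 c) = 5 / 13 := t3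
    show √(1 - c ^ 2) * sin (tau3 c) < √(1 - c ^ 2) * sin τ
    rw [t3', ← hcos]
    exact h1
  · show vecP C (red Θ₁) c τ ∈ A
    rw [← hv']
    exact hvA

end Pool.Agent.Lib.MP_d2b992_gt.Erg
end

section
/-!
# Module COVQ: the unit vectors over the `Q`-caps come from near states
-/
set_option autoImplicit false

namespace Pool.Agent.Lib.MP_d2b992_gt.Erg

open Set Real MeasureTheory Dyn
open scoped ContDiff InnerProductSpace

namespace CovqM

/-- reduction mod `π` -/
theorem exK (Ψ : ℝ) : ∃ k : ℤ, π / 2 ≤ Ψ + k * π ∧ Ψ + k * π < 3 * π / 2 := by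
  refine ⟨-⌊(Ψ - π / 2) / π⌋, ?_, ?_⟩
  · have h := Int.floor_le ((Ψ - π / 2) / π)
    rw [le_div_iff₀ pi_pos] at h
    push_cast
    linarith
  · have h := Int.lt_floor_add_one ((Ψ - π / 2) / π)
    rw [div_lt_iff₀ pi_pos] at h
    push_cast
    linarith

/-- the state of a near geodesic -/
theorem state (x Ψ e : ℝ) (hx : |x| < 5 / 13) (h1 : π / 2 < Ψ) (h2 : Ψ < 3 * π / 2)
    (he : e = 1 ∨ e = -1) : ∃ z ∈ Dom, xx z = x ∧ Psi z = Ψ ∧ esgn z = e ∧ inQ z := by
  have hx2 : x ^ 2 < 1 := by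
    have := sq_abs x
    nlinarith [abs_nonneg x]
  have hcos : cos Ψ < 0 := cos_neg_of_pi_div_two_lt_of_lt h1 (by linarith)
  have hsx : 0 < √(1 - x ^ 2) := sqrt_pos.2 (by linarith)
  have hsx2 : √(1 - x ^ 2) ^ 2 = 1 - x ^ 2 := sq_sqrt (by linarith)
  set c : ℝ := √(1 - x ^ 2) * sin Ψ with hc
  have hc2 : 1 - c ^ 2 = x ^ 2 + (1 - x ^ 2) * cos Ψ ^ 2 := by
    rw [hc, mul_pow, hsx2, sin_sq]
    ring
  have hpos : x ^ 2 < 1 - c ^ 2 := by
    rw [hc2]
    have : 0 < cos Ψ ^ 2 := by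
      have hc0 : cos Ψ ≠ 0 := hcos.ne
      positivity
    nlinarith
  have hc1 : c ^ 2 < 1 := by nlinarith [sq_nonneg x]
  have hcabs : |c| < 1 := by
    rw [← sq_lt_one_iff_abs_lt_one]
    exact hc1
  have hsc : 0 < √(1 - c ^ 2) := sqrt_pos.2 (by linarith)
  have hlt : |x / √(1 - c ^ 2)| < 1 := by
    rw [abs_div, abs_of_pos hsc, div_lt_one hsc]
    exact lt_sqrt_of_sq_lt (by rwa [sq_abs])
  have hlt' := abs_lt.1 hlt
  set t : ℝ := arcsin (x / √(1 - c ^ 2)) with ht
  have ht1 : -(π / 2) < t := neg_pi_div_two_lt_arcsin.2 hlt'.1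
  have ht2 : t < π / 2 := arcsin_lt_pi_div_two.2 hlt'.2
  have hst : sin t = x / √(1 - c ^ 2) := sin_arcsin hlt'.1.le hlt'.2.le
  have hct : 0 < cos t := cos_pos_of_mem_Ioo ⟨ht1, ht2⟩
  have hpi := pi_pos
  have key : ∀ s : ℝ, sin s = sin t → cos s = cos t → xx (s, c) = x ∧ Psi (s, c) = Ψ ∧
      inQ (s, c) := by
    intro s hs hs'
    have hxx : xx (s, c) = x := by
      unfold xx
      simp only
      rw [hs, hst]
      field_simp
    refine ⟨hxx, ?_, ?_, ?_⟩
    · unfold Psi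
      rw [hxx]
      simp only
      have h3 : c / √(1 - x ^ 2) = sin (π - Ψ) := by
        rw [hc, sin_pi_sub]
        field_simp
      rw [h3, arcsin_sin (by linarith) (by linarith)]
      ring
    · simp only
      rw [hs']
      exact hct
    · rw [hxx]
      exact hx
  rcases he with he | he
  · obtain ⟨k1, k2, k3⟩ := key t rfl rfl
    refine ⟨(t, c), ⟨ht1.le, by simp only; linarith, hcabs⟩, k1, k2, ?_, k3⟩
    unfold esgn
    rw [if_pos, he]
    exact cos_pos_of_mem_Ioo ⟨by simp only; linarith, by simp only; linarith⟩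
  · obtain ⟨k1, k2, k3⟩ := key (t + 2 * π) (sin_add_two_pi t) (cos_add_two_pi t)
    refine ⟨(t + 2 * π, c), ⟨by simp only; linarith, by simp only; linarith, hcabs⟩, k1, k2, ?_, k3⟩
    unfold esgn
    rw [if_neg, he]
    rw [not_lt]
    simp only
    have : (t + 2 * π) / 2 = t / 2 + π := by ring
    rw [this, cos_add_pi]
    have : 0 < cos (t / 2) := cos_pos_of_mem_Ioo ⟨by linarith, by linarith⟩
    linarith

end CovqM

open CovqM in
theorem specCOVQ (hSURJ : SpecSURJ) (hFAMX : SpecFAMX) (hFAMQ : SpecFAMQ) (hFOLD : SpecFOLD)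
    (hKTH : SpecKTH) : SpecCOVQ := by
  intro C A hA v hv hvA hdeg hne hnu
  have hnu0 : nu v.1 ≠ 0 := by
    intro h
    exact hdeg (Or.inr (Or.inr (Or.inr (Or.inr (Or.inl h)))))
  obtain ⟨e, he, φ, hφ, Θ, u, hsin, h1, h2, h3⟩ := (hSURJ C v hv hne).2.2 hnu hnu0
  have hu2 : u.2 ≠ 0 := by
    intro h
    exact hdeg (Or.inr (Or.inr (Or.inr (Or.inr (Or.inr (Or.inr (Or.inl
      ⟨e, he, φ, hφ, Θ, u, h1, h2, h3, h⟩)))))))
  have hpi := pi_pos
  obtain ⟨x, Θ₀, hx0, hxs, -, hx⟩ := hFAMX C.Q φ Θ u ⟨hφ.1, by linarith [hφ.2]⟩ h3 hu2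
  obtain ⟨Ψ₀, τ, hτ, k1, k2, k3⟩ := hx hφ.2
  have hx5 : |x| < 5 / 13 := lt_of_le_of_lt hxs hsin
  have hx1 : |x| < 1 := by linarith
  obtain ⟨k, hk1, hk2⟩ := exK Ψ₀
  have hvq : vecQ C e (Ψ₀ + k * π) x τ = v := by
    rw [hFOLD.2.2 C x hx0 hx1 e Ψ₀ τ k]
    unfold vecQ
    rw [k1, k2, k3, h1, h2]
  have hk1' : π / 2 < Ψ₀ + k * π := by
    refine lt_of_le_of_ne hk1 fun h => ?_
    refine hdeg (Or.inr (Or.inr (Or.inr (Or.inr (Or.inr (Or.inr (Or.inr
      ⟨e, he, x, τ, hx0, hx1, hτ, ?_⟩)))))))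
    rw [h, hvq]
  obtain ⟨z, hz, z1, z2, z3, z4⟩ := state x (Ψ₀ + k * π) e hx5 hk1' hk2 he
  have hvz : v = vecQ C (esgn z) (Psi z) (xx z) τ := by
    rw [z1, z2, z3, hvq]
  refine ⟨z, hz, τ, ?_, Or.inr ⟨z4.1, by rw [z1]; exact hx0, hτ, hvz⟩⟩
  by_cases hbad : z ∈ Bad
  · exact Or.inl hbad
  refine Or.inr (Or.inl ?_)
  refine hFAMQ C A hA z hz.2.2 z4 hbad τ ?_ (by rw [← hvz]; exact hvA)
  have h7 := ((hKTH C.Q x hx0 hx1).2.2.2.2.2.2 τ).2.2
  rw [k1] at h7
  have hx2 : x ^ 2 < 1 := by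
    have := sq_abs x
    nlinarith [abs_nonneg x]
  have hsx : 0 < √(1 - x ^ 2) := sqrt_pos.2 (by linarith)
  have hsx2 : √(1 - x ^ 2) ^ 2 = 1 - x ^ 2 := sq_sqrt (by linarith)
  have hst : 0 < sin τ := sin_pos_of_mem_Ioo hτ
  have hsφ : 0 < sin φ := sin_pos_of_mem_Ioo ⟨hφ.1, by linarith [hφ.2]⟩
  have h8 : 12 / 13 < √(1 - x ^ 2) * sin τ := by
    refine lt_of_pow_lt_pow_left₀ 2 (by positivity) ?_
    rw [mul_pow, hsx2]
    nlinarith
  have h9 : 12 / 13 / √(1 - x ^ 2) < cos |τ - π / 2| := by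
    rw [cos_abs, cos_sub_pi_div_two, div_lt_iff₀ hsx]
    linarith
  have h10 : |τ - π / 2| ≤ π := by
    rw [abs_le]
    exact ⟨by linarith [hτ.1], by linarith [hτ.2]⟩
  unfold sigb
  rw [z1, ← arccos_cos (abs_nonneg _) h10]
  have h11 : 0 ≤ 12 / 13 / √(1 - x ^ 2) := by positivity
  exact arccos_lt_arccos (by linarith) h9 (cos_le_one _)

end Pool.Agent.Lib.MP_d2b992_gt.Erg
end

section
/-!
# The degenerate unit vectors are null
-/
namespace Pool.Agent.Lib.MP_d2b992_gt.Erg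

open Set Filter Topology MeasureTheory Real
open scoped ContDiff InnerProductSpace

namespace DegM

/-- A set whose vertical sections are finite is null. -/
theorem null_of_sections {S : Set (ℝ × ℝ)} (hS : MeasurableSet S) 
    (h : ∀ u, {v | (u, v) ∈ S}.Finite) : volume S = 0 := by
  rw [Measure.volume_eq_prod, Measure.measure_prod_null hS]
  filter_upwards with u
  exact (h u).measure_zero _

theorem null_quartic {a : ℝ} (ha : a ≠ 0) {b c : ℝ → ℝ} (hb : Continuous b) (hc : Continuous c) : 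
    volume {p : ℝ × ℝ | a * p.2 ^ 4 + b p.1 * p.2 ^ 2 + c p.1 = 0} = 0 := by
  apply null_of_sections
  · apply IsClosed.measurableSet
    exact isClosed_eq (by fun_prop) continuous_const
  · intro u
    have h1 : ((Polynomial.C a * Polynomial.X ^ 4 + Polynomial.C (b u) * Polynomial.X ^ 2 + 
        Polynomial.C (c u) : Polynomial ℝ)) ≠ 0 := by
      intro h2
      have h3 := congrArg (fun P : Polynomial ℝ => P.coeff 4) h2
      simp [Polynomial.coeff_X_pow] at h3
      exact ha h3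
    have h4 := Polynomial.finite_setOfPred_isRoot h1
    refine h4.subset ?_
    intro v hv
    simp only [Set.mem_ofPred_eq] at hv
    show Polynomial.IsRoot _ v
    unfold Polynomial.IsRoot
    simp only [Polynomial.eval_add, Polynomial.eval_mul, Polynomial.eval_C, Polynomial.eval_pow, 
      Polynomial.eval_X]
    exact hv

/-- The degenerate points of the chart. -/
def Z : Set (ℝ × ℝ) := 
  {p | 25 * p.2 ^ 4 + (50 * p.1 ^ 2 - 600) * p.2 ^ 2 + (25 * p.1 ^ 4 - 24 * p.1 ^ 2) = 0} ∪ 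
  {p | 1 * p.2 ^ 4 + (2 + 2 * p.1 ^ 2) * p.2 ^ 2 + ((1 - p.1 ^ 2) ^ 2 - 1 / 625) = 0} ∪ 
  {p | p.1 = 0} ∪ {p | p.2 = 0}

theorem volume_Z : volume Z = 0 := by
  unfold Z
  refine measure_union_null (measure_union_null (measure_union_null ?_ ?_) ?_) ?_
  · exact null_quartic (b := fun u => 50 * u ^ 2 - 600) (c := fun u => 25 * u ^ 4 - 24 * u ^ 2) 
      (by norm_num) (by fun_prop) (by fun_prop)
  · exact null_quartic (b := fun u => 2 + 2 * u ^ 2) (c := fun u => (1 - u ^ 2) ^ 2 - 1 / 625) 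
      (by norm_num) (by fun_prop) (by fun_prop)
  · have : {p : ℝ × ℝ | p.1 = 0} = {(0:ℝ)} ×ˢ (univ : Set ℝ) := by
      ext p; simp
    rw [this, Measure.volume_eq_prod, Measure.prod_prod, volume_singleton, zero_mul]
  · have : {p : ℝ × ℝ | p.2 = 0} = (univ : Set ℝ) ×ˢ {(0:ℝ)} := by
      ext p; simp
    rw [this, Measure.volume_eq_prod, Measure.prod_prod, volume_singleton, mul_zero]

theorem sq_formula (p : ℝ × ℝ) : ‖1 - cc p ^ 2‖ ^ 2 = 
    (1 - p.1 ^ 2) ^ 2 + (2 + 2 * p.1 ^ 2) * p.2 ^ 2 + p.2 ^ 4 := by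
  rw [norm_one_sub_sq]; ring

theorem mem_Z (p : ℝ × ℝ) (h : SS (stereo 1 p) = 12 / 13 ∨ 
    2 * nu (stereo 1 p) = 1 / 25 * (1 + stereo 1 p 2) ∨ stereo 1 p 2 = 1 ∨ stereo 1 p 2 = -1 ∨ 
    nu (stereo 1 p) = 0) : p ∈ Z := by
  have hI := II_pos p
  have hn := norm_nonneg (1 - cc p ^ 2)
  have hf := sq_formula p
  have hc := norm_cc_sq p
  rcases h with h | h | h | h | h
  · left; left; left
    rw [SS_stereo, div_eq_div_iff (by positivity) (by norm_num), hc] at h
    have h1 : 12 * ‖1 - cc p ^ 2‖ = 13 * (p.1 ^ 2 + p.2 ^ 2) - 12 := by linarith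
    have h2 : 144 * ‖1 - cc p ^ 2‖ ^ 2 = (13 * (p.1 ^ 2 + p.2 ^ 2) - 12) ^ 2 := by
      rw [← h1]; ring
    rw [hf] at h2
    simp only [Set.mem_ofPred_eq]
    linear_combination (-1) * h2
  · left; left; right
    rw [nu_stereo (Or.inl rfl), one_add_stereo] at h
    have h1 : ‖1 - cc p ^ 2‖ = 1 / 25 := by
      have h2 : (‖1 - cc p ^ 2‖ - 1 / 25) * II p = 0 := by linear_combination h / 2
      rcases mul_eq_zero.1 h2 with h3 | h3
      · linarith
      · exact absurd h3 hI.ne'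
    rw [h1] at hf
    simp only [Set.mem_ofPred_eq]
    linear_combination -hf
  · left; right
    have h1 := one_sub_stereo p
    rw [h, sub_self] at h1
    have h2 : ‖cc p‖ ^ 2 = 0 := by
      rcases mul_eq_zero.1 h1.symm with h3 | h3
      · linarith
      · exact h3
    rw [hc] at h2
    simp only [Set.mem_ofPred_eq]
    nlinarith [sq_nonneg p.1, sq_nonneg p.2]
  · exfalso
    have h1 := one_add_stereo p
    rw [h] at h1
    linarith
  · right
    rw [nu_stereo (Or.inl rfl)] at h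
    have h1 : ‖1 - cc p ^ 2‖ = 0 := by
      rcases mul_eq_zero.1 h with h3 | h3
      · exact h3
      · exact absurd h3 hI.ne'
    rw [h1] at hf
    simp only [Set.mem_ofPred_eq]
    have h5 := mul_nonneg (sq_nonneg p.1) (sq_nonneg p.2)
    have h4 : p.2 ^ 2 = 0 := by
      nlinarith [sq_nonneg p.1, sq_nonneg p.2, sq_nonneg (1 - p.1 ^ 2), sq_nonneg (p.2 ^ 2)]
    exact (pow_eq_zero_iff two_ne_zero).1 h4

/-- A two-parameter family of unit vectors is null. -/
theorem fam_null (C : Caps) {Φ : ℝ × ℝ → R3} {U : Set (ℝ × ℝ)} (hU : IsOpen U) 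
    (hΦ : ContDiffOn ℝ ∞ Φ U) {w : ℝ × ℝ → ℝ × ℝ} (hw : ∀ p ∈ U, DifferentiableAt ℝ w p) 
    {V : Set (R3 × R3)} (hV : ∀ v ∈ V, ∃ p ∈ U, Φ p = v.1 ∧ fderiv ℝ Φ p (w p) = v.2) : 
    volume (preim C V) = 0 := by
  set Ψ : (ℝ × ℝ) × ℝ → R3 × R3 := fun q => (Φ q.1, fderiv ℝ Φ q.1 (w q.1)) with hΨ
  set N : Set ((ℝ × ℝ) × ℝ) := U ×ˢ {0} with hN
  have hN0 : volume N = 0 := by
    rw [hN, Measure.volume_eq_prod, Measure.prod_prod, volume_singleton, mul_zero]
  have hd : ∀ n ∈ N, DifferentiableAt ℝ Ψ n := by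
    rintro n ⟨hn, -⟩
    have h1 : ContDiffAt ℝ ∞ Φ n.1 := hΦ.contDiffAt (hU.mem_nhds hn)
    have h2 : DifferentiableAt ℝ (fderiv ℝ Φ) n.1 := 
      (h1.fderiv_right (m := 1) (by norm_cast)).differentiableAt one_ne_zero
    have h3 : DifferentiableAt ℝ Φ n.1 := h1.differentiableAt (by simp)
    have h4 : DifferentiableAt ℝ (fun q : (ℝ × ℝ) × ℝ => Φ q.1) n := 
      DifferentiableAt.comp (g := Φ) n h3 differentiableAt_fst
    have h5 : DifferentiableAt ℝ (fun q : (ℝ × ℝ) × ℝ => fderiv ℝ Φ q.1) n := 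
      DifferentiableAt.comp (g := fderiv ℝ Φ) n h2 differentiableAt_fst
    have h6 : DifferentiableAt ℝ (fun q : (ℝ × ℝ) × ℝ => w q.1) n := 
      DifferentiableAt.comp (g := w) n (hw _ hn) differentiableAt_fst
    exact h4.prodMk (h5.clm_apply h6)
  refine measure_mono_null ?_ (null_image C hN0 hd)
  rintro q ⟨hq, h2⟩
  refine ⟨?_, h2⟩
  obtain ⟨p, hp, h3, h4⟩ := hV _ hq
  exact ⟨(p, 0), ⟨hp, rfl⟩, Prod.ext h3 h4⟩

theorem preim_union (C : Caps) {V W : Set (R3 × R3)} (hV : volume (preim C V) = 0) 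
    (hW : volume (preim C W) = 0) : volume (preim C (V ∪ W)) = 0 := by
  refine measure_mono_null ?_ (measure_union_null hV hW)
  rintro q ⟨hq, h2⟩
  rcases hq with h | h
  · left; exact ⟨h, h2⟩
  · right; exact ⟨h, h2⟩

theorem preim_mono (C : Caps) {V W : Set (R3 × R3)} (h : V ⊆ W) (hW : volume (preim C W) = 0) : 
    volume (preim C V) = 0 := 
  measure_mono_null (s := preim C V) (t := preim C W) (fun _ hq => ⟨h hq.1, hq.2⟩) hW

theorem unit_cases {a u : ℝ} (ha : 0 < a) (h : a ^ 2 * (u * u) = 1) : u = 1 / a ∨ u = -1 / a := by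
  have h1 : (a * u - 1) * (a * u + 1) = 0 := by linear_combination h
  rcases mul_eq_zero.1 h1 with h2 | h2
  · left; rw [eq_div_iff ha.ne']; linarith
  · right; rw [eq_div_iff ha.ne']; linarith

theorem open1 {b : ℝ} : IsOpen {p : ℝ × ℝ | p.1 ∈ Ioo 0 b} := 
  isOpen_Ioo.preimage continuous_fst

theorem dw1 (K : Cap) (e : ℝ) (p : ℝ × ℝ) : 
    DifferentiableAt ℝ (fun p : ℝ × ℝ => ((e / K.psi p.1, 0) : ℝ × ℝ)) p := by
  have h1 : ContDiffAt ℝ 1 (fun p : ℝ × ℝ => K.psi p.1) p := 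
    (((K.contDiff_psi).comp contDiff_fst).contDiffAt).of_le (by exact_mod_cast le_top)
  have h2 : ContDiffAt ℝ 1 (fun p : ℝ × ℝ => e / K.psi p.1) p := 
    contDiffAt_const.div h1 (K.psi_pos _).ne'
  exact (h2.prodMk contDiffAt_const).differentiableAt one_ne_zero

theorem dw2 (e : ℝ) {p : ℝ × ℝ} (hp : p.1 ∈ Ioo 0 π) : 
    DifferentiableAt ℝ (fun p : ℝ × ℝ => ((0, e / sin p.1) : ℝ × ℝ)) p := by
  have h1 : ContDiffAt ℝ 1 (fun p : ℝ × ℝ => sin p.1) p := 
    (contDiff_sin.comp contDiff_fst).contDiffAt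
  have h2 : ContDiffAt ℝ 1 (fun p : ℝ × ℝ => e / sin p.1) p := 
    contDiffAt_const.div h1 (sin_pos_of_pos_of_lt_pi hp.1 hp.2).ne'
  exact (contDiffAt_const.prodMk h2).differentiableAt one_ne_zero

end DegM

theorem specDEG (hS : SpecSMP) : SpecDEG := by
  intro C
  have h1 : volume (preim C {v : R3 × R3 | SS v.1 = 12 / 13 ∨ 2 * nu v.1 = 1 / 25 * (1 + v.1 2) ∨ 
      v.1 2 = 1 ∨ v.1 2 = -1 ∨ nu v.1 = 0}) = 0 := by
    have : volume (DegM.Z ×ˢ (univ : Set ℝ)) = 0 := by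
      rw [Measure.volume_eq_prod, Measure.prod_prod, DegM.volume_Z, zero_mul]
    refine measure_mono_null ?_ this
    rintro q ⟨hq, -⟩
    have h2 : (uvec C.metric q).1 = stereo 1 q.1 := by rw [uvec_metric]
    simp only [Set.mem_preimage, Set.mem_ofPred_eq, h2] at hq
    exact ⟨DegM.mem_Z q.1 hq, mem_univ _⟩
  have h2 : ∀ e : ℝ, volume (preim C {v : R3 × R3 | ∃ p ∈ {p : ℝ × ℝ | p.1 ∈ Ioo 0 π}, 
      chP C p = v.1 ∧ fderiv ℝ (chP C) p (e / C.P.psi p.1, 0) = v.2}) = 0 := fun e => 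
    DegM.fam_null C DegM.open1 (contDiffOn_chP C) (fun p _ => DegM.dw1 C.P e p) (fun v hv => hv)
  have h3 : ∀ e : ℝ, volume (preim C {v : R3 × R3 | ∃ p ∈ {p : ℝ × ℝ | p.1 ∈ Ioo 0 π}, 
      chP C p = v.1 ∧ fderiv ℝ (chP C) p (0, e / sin p.1) = v.2}) = 0 := fun e => 
    DegM.fam_null C DegM.open1 (contDiffOn_chP C) (fun p hp => DegM.dw2 e hp) (fun v hv => hv)
  have h4 : ∀ d e : ℝ, volume (preim C {v : R3 × R3 | ∃ p ∈ {p : ℝ × ℝ | p.1 ∈ Ioo 0 (π / 2)}, 
      chQ C d p = v.1 ∧ fderiv ℝ (chQ C d) p (e / C.Q.psi p.1, 0) = v.2}) = 0 := fun d e => 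
    DegM.fam_null C DegM.open1 (contDiffOn_chQ C d) (fun p _ => DegM.dw1 C.Q e p) (fun v hv => hv)
  have h5 : ∀ d : ℝ, (d = 1 ∨ d = -1) → volume (preim C {v : R3 × R3 | ∃ x τ : ℝ, x ≠ 0 ∧ 
      |x| < 1 ∧ τ ∈ Ioo 0 π ∧ v = vecQ C d (π / 2) x τ}) = 0 := by
    intro d hd
    set N : Set ((ℝ × ℝ) × ℝ) := {q | q.1.1 = π / 2 ∧ q.1.2 ≠ 0 ∧ |q.1.2| < 1 ∧ q.2 ∈ Ioo 0 π} 
      with hN
    have hN0 : volume N = 0 := by
      refine measure_mono_null (t := ({π / 2} ×ˢ (univ : Set ℝ)) ×ˢ (univ : Set ℝ)) ?_ ?_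
      · rintro q ⟨hq, -⟩
        exact ⟨⟨hq, mem_univ _⟩, mem_univ _⟩
      · rw [Measure.volume_eq_prod, Measure.prod_prod, Measure.volume_eq_prod, Measure.prod_prod, 
          volume_singleton, zero_mul, zero_mul]
    have hd := null_image C hN0 (Ψ := fun q => vecQ C d q.1.1 q.1.2 q.2) 
      (fun n hn => ((hS C).2 d hd).1 n hn.2.1 hn.2.2.1 hn.2.2.2)
    refine measure_mono_null ?_ hd
    rintro q ⟨hq, h2⟩
    refine ⟨?_, h2⟩
    obtain ⟨x, τ, hx, hx1, hτ, hv⟩ := hq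
    exact ⟨((π / 2, x), τ), ⟨rfl, hx, hx1, hτ⟩, hv.symm⟩
  refine DegM.preim_mono C ?_ (DegM.preim_union C (DegM.preim_union C h1 
    (DegM.preim_union C (DegM.preim_union C (h2 1) (h2 (-1))) 
      (DegM.preim_union C (h3 1) (h3 (-1))))) 
    (DegM.preim_union C (DegM.preim_union C (DegM.preim_union C (h4 1 1) (h4 1 (-1))) 
      (DegM.preim_union C (h4 (-1) 1) (h4 (-1) (-1)))) 
      (DegM.preim_union C (h5 1 (Or.inl rfl)) (h5 (-1) (Or.inr rfl)))))
  rintro v (h | h | h | h | h | h | h | h)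
  · left; left; exact Or.inl h
  · left; left; exact Or.inr (Or.inl h)
  · left; left; exact Or.inr (Or.inr (Or.inl h))
  · left; left; exact Or.inr (Or.inr (Or.inr (Or.inl h)))
  · left; left; exact Or.inr (Or.inr (Or.inr (Or.inr h)))
  · obtain ⟨φ, hφ, Θ, u, e1, e2, -, hB, hu⟩ := h
    obtain ⟨u1, u2⟩ := u
    have hs := sin_pos_of_pos_of_lt_pi hφ.1 hφ.2
    unfold BB at hB
    simp only at hB hu
    left; right
    rcases hu with rfl | rfl
    · right
      rcases DegM.unit_cases (u := u2) hs (by linear_combination hB) with rfl | rfl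
      · left; exact ⟨(φ, Θ), hφ, e1, e2⟩
      · right; exact ⟨(φ, Θ), hφ, e1, e2⟩
    · left
      rcases DegM.unit_cases (u := u1) (C.P.psi_pos φ) (by linear_combination hB) with rfl | rfl
      · left; exact ⟨(φ, Θ), hφ, e1, e2⟩
      · right; exact ⟨(φ, Θ), hφ, e1, e2⟩
  · obtain ⟨d, hd, φ, hφ, Θ, u, e1, e2, hB, hu⟩ := h
    obtain ⟨u1, u2⟩ := u
    unfold BB at hB
    simp only at hB hu
    subst hu
    right; left
    rcases DegM.unit_cases (u := u1) (C.Q.psi_pos φ) (by linear_combination hB) with rfl | rfl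
    · rcases hd with rfl | rfl
      · left; left; exact ⟨(φ, Θ), hφ, e1, e2⟩
      · right; left; exact ⟨(φ, Θ), hφ, e1, e2⟩
    · rcases hd with rfl | rfl
      · left; right; exact ⟨(φ, Θ), hφ, e1, e2⟩
      · right; right; exact ⟨(φ, Θ), hφ, e1, e2⟩
  · obtain ⟨d, hd, h⟩ := h
    right; right
    rcases hd with rfl | rfl
    · left; exact h
    · right; exact h

end Pool.Agent.Lib.MP_d2b992_gt.Erg
end

section
set_option autoImplicit false

/-!
Module FAMK: unit vectors over the round region.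
-/

namespace Pool.Agent.Lib.MP_d2b992_gt.Erg

open Set Real MeasureTheory Dyn
open scoped ContDiff InnerProductSpace

namespace FAMKM

/-- The point is in `DomP` in the round region, if `xK < 12/13`. -/
theorem domK (hKTH : SpecKTH) (C : Caps) (z : St) (hc : |z.2| < 1) (h0 : z.2 ≠ 0) {s : ℝ}
    (hx : xK z.1 z.2 s < 12 / 13)
    (hs : 12 / 13 ≤ |z.2| ∨ |s| ≤ π / 2 ∧ (1 - z.2 ^ 2) * sin s ^ 2 ≤ (5 / 13) ^ 2) :
    (phc z.2 s, C.P.th z.2 z.1 s) ∈ DomP := by
  obtain ⟨-, -, -, -, h5, -, h7⟩ := hKTH C.P z.2 h0 hc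
  refine ⟨(h7 s).2.1, ?_⟩
  have h : C.P.a ≤ |z.2| ∨ |s| ≤ π / 2 ∧ (1 - z.2 ^ 2) * sin s ^ 2 ≤ 1 - C.P.a ^ 2 := by
    rw [C.Pa]
    rcases hs with hs | ⟨h1, h2⟩
    · exact Or.inl hs
    · refine Or.inr ⟨h1, ?_⟩
      linarith
  show sin (phc z.2 s) * cos (C.P.th z.2 z.1 s) < 12 / 13
  rw [(h5 z.1 s h).1]
  exact hx

/-- The point is in `DomP` inside of the first cap. -/
theorem domIn (hKTH : SpecKTH) (C : Caps) (z : St) (hc : |z.2| < 1) (h0 : z.2 ≠ 0) {s : ℝ}
    (hs : (5 / 13) ^ 2 < (1 - z.2 ^ 2) * sin s ^ 2) :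
    (phc z.2 s, C.P.th z.2 z.1 s) ∈ DomP := by
  obtain ⟨-, h2, h3⟩ := (hKTH C.P z.2 h0 hc).2.2.2.2.2.2 s
  refine ⟨h2, ?_⟩
  have hp : 0 < sin (phc z.2 s) := Real.sin_pos_of_pos_of_lt_pi h2.1 h2.2
  have h4 : sin (phc z.2 s) < 12 / 13 := by
    rw [← sq_lt_sq₀ hp.le (by norm_num), h3]
    linarith
  show sin (phc z.2 s) * cos (C.P.th z.2 z.1 s) < 12 / 13
  calc sin (phc z.2 s) * cos (C.P.th z.2 z.1 s) ≤ sin (phc z.2 s) * 1 :=
        mul_le_mul_of_nonneg_left (Real.cos_le_one _) hp.le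
    _ < 12 / 13 := by rw [mul_one]; exact h4

/-- The points `|τ| ≤ tau3` outside of the first cap. -/
theorem dom3 (hKTH : SpecKTH) (hTRI : SpecTRI) (C : Caps) (z : St) (h0 : z.2 ≠ 0)
    (hc : |z.2| < 12 / 13) {s : ℝ} (hx : xK z.1 z.2 s < 12 / 13) (hs : |s| ≤ tau3 z.2) :
    (phc z.2 s, C.P.th z.2 z.1 s) ∈ DomP := by
  have hc1 : |z.2| < 1 := hc.trans (by norm_num)
  obtain ⟨t1, t2, t3, t4⟩ := (hTRI z hc1).2.2.2.2.2.1 hc
  refine domK hKTH C z hc1 h0 hx (Or.inr ⟨hs.trans t2.le, ?_⟩)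
  rcases hs.lt_or_eq with h | h
  · exact ((t4 s (hs.trans t2.le)).2 h).le
  · have h5 : (1 - z.2 ^ 2) * sin s ^ 2 = (√(1 - z.2 ^ 2) * sin (tau3 z.2)) ^ 2 := by
      have h6 : (0 : ℝ) ≤ 1 - z.2 ^ 2 := by
        have := (sq_lt_one_iff_abs_lt_one z.2).2 hc1
        linarith
      rw [mul_pow, Real.sq_sqrt h6, ← h]
      rcases abs_choice s with h7 | h7
      · rw [h7]
      · rw [h7, Real.sin_neg, neg_sq]
    rw [h5, t3]

/-- The cosine after the cap. -/
theorem cos_after {a θ : ℝ} (h0 : 0 < a) (h1 : a < θ) (h2 : θ < 2 * π - a) :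
    cos θ < cos a := by
  rcases le_or_gt θ π with h | h
  · exact Real.cos_lt_cos_of_nonneg_of_le_pi h0.le h h1
  · have h3 : cos θ = cos (2 * π - θ) := by
      rw [Real.cos_two_pi_sub]
    rw [h3]
    exact Real.cos_lt_cos_of_nonneg_of_le_pi h0.le (by linarith) (by linarith)

/-- States which do not meet the `Q`-cap. -/
theorem not_inQ (hTRI : SpecTRI) (z : St) (hc : |z.2| < 1) (hb : z ∉ Bad) (hq : ¬inQ z) :
    cos z.1 < 0 ∨ 0 < cos z.1 ∧ ∀ s, xK z.1 z.2 s < 12 / 13 := by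
  rcases lt_trichotomy (cos z.1) 0 with h | h | h
  · exact Or.inl h
  · exact absurd (Or.inr (Or.inr (Or.inr (Or.inr (Or.inl h))))) hb
  · right
    refine ⟨h, fun s => ?_⟩
    have h1 : ¬|xx z| < 5 / 13 := fun h1 => hq ⟨h, h1⟩
    have h2 : |xx z| ≠ 5 / 13 := fun h2 => hb (Or.inr (Or.inr (Or.inr (Or.inl h2))))
    have h3 : 5 / 13 < |xx z| := lt_of_le_of_ne (not_lt.1 h1) (Ne.symm h2)
    have h4 : (5 / 13 : ℝ) ^ 2 < xx z ^ 2 := by
      rw [← sq_abs (xx z)]
      exact pow_lt_pow_left₀ h3 (by norm_num) two_ne_zero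
    have h5 : √(1 - xx z ^ 2) < 12 / 13 := by
      rw [Real.sqrt_lt' (by norm_num)]
      linarith
    rw [(hTRI z hc).1 h s]
    calc √(1 - xx z ^ 2) * cos (s - tauc z) ≤ √(1 - xx z ^ 2) * 1 :=
          mul_le_mul_of_nonneg_left (Real.cos_le_one _) (Real.sqrt_nonneg _)
      _ < 12 / 13 := by rw [mul_one]; exact h5

/-- Meeting states: `xK < 12/13` outside of the cap. -/
theorem xK_out (hTRI : SpecTRI) (z : St) (hc : |z.2| < 1) (hq : inQ z) {s : ℝ}
    (h1 : sigb z < |s - tauc z|) (h2 : |s - tauc z| < 2 * π - sigb z) :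
    xK z.1 z.2 s < 12 / 13 := by
  obtain ⟨s1, s2, s3⟩ := (hTRI z hc).2.2.2.2.2.2.1 hq.2
  have hr : 0 < √(1 - xx z ^ 2) := by
    by_contra h
    have h4 : √(1 - xx z ^ 2) = 0 := le_antisymm (not_lt.1 h) (Real.sqrt_nonneg _)
    rw [h4] at s3
    norm_num at s3
  rw [(hTRI z hc).1 hq.1 s, ← s3, ← Real.cos_abs (s - tauc z)]
  exact mul_lt_mul_of_pos_left (cos_after s1 h1 h2) hr

/-- Meeting states: inside of the cap `xK ≥ 12/13`. -/
theorem out_of_xK (hTRI : SpecTRI) (z : St) (hc : |z.2| < 1) (hq : inQ z) {s : ℝ}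
    (h : xK z.1 z.2 s < 12 / 13) : sigb z < |s - tauc z| := by
  obtain ⟨s1, s2, s3⟩ := (hTRI z hc).2.2.2.2.2.2.1 hq.2
  by_contra h1
  have h2 := not_lt.1 h1
  have h3 : cos (sigb z) ≤ cos |s - tauc z| :=
    Real.cos_le_cos_of_nonneg_of_le_pi (abs_nonneg _) (by linarith [Real.pi_pos]) h2
  rw [(hTRI z hc).1 hq.1 s, ← s3, ← Real.cos_abs (s - tauc z)] at h
  exact absurd (mul_le_mul_of_nonneg_left h3 (Real.sqrt_nonneg (1 - xx z ^ 2))) (not_le.2 h)

end FAMKM

open FAMKM in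
theorem specFAMK (hPARC : SpecPARC) (hKTH : SpecKTH) (hTRI : SpecTRI) : SpecFAMK := by
  intro C A hA z hc hb τ hτ hτ3 hx hv
  have h0 : z.2 ≠ 0 := fun h => hb (Or.inl h)
  have hπ := Real.pi_pos
  obtain ⟨-, tf, tc, tfar, tend, t3, tsig, tbig⟩ := hTRI z hc
  have tc' := abs_lt.1 tc
  have hτ' := abs_le.1 hτ
  by_cases hq : inQ z
  · -- states which meet the `Q`-cap
    obtain ⟨s1, s2, s3⟩ := tsig hq.2
    have hout := out_of_xK hTRI z hc hq hx
    rcases lt_or_ge τ (tauc z) with hlt | hge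
    · -- before
      left
      have e1 : |τ - tauc z| = tauc z - τ := by rw [abs_of_neg (by linarith)]; ring
      rw [e1] at hout
      have hL1 : max (-t3' z.2) (tauc z - π / 2) < tauc z - sigb z := by
        refine max_lt ?_ (by linarith)
        unfold t3'
        split_ifs with h
        · exact (tend hq hb h).2
        · linarith
      have hM : tauM z = (tauc z - sigb z + max (-t3' z.2) (tauc z - π / 2)) / 2 := by
        unfold tauM
        rw [if_pos hq]
      have m1 : tauM z < tauc z - sigb z := by rw [hM]; linarith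
      have m2 : max (-t3' z.2) (tauc z - π / 2) < tauM z := by rw [hM]; linarith
      have m3 : -t3' z.2 < tauM z := (le_max_left _ _).trans_lt m2
      have m4 : tauc z - π / 2 < tauM z := (le_max_right _ _).trans_lt m2
      have k1 : -t3' z.2 < τ := by
        unfold t3'
        split_ifs with h
        · exact (abs_lt.1 (hτ3 h)).1
        · linarith
      refine hPARC C A hA z.2 h0 hc z.1 (max (-t3' z.2) (tauc z - 3 * π / 2)) (tauc z - sigb z) ?_
        τ ⟨max_lt k1 (by linarith), by linarith⟩ (tauM z) ⟨max_lt m3 (by linarith), m1⟩ hv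
      intro s hs
      have q1 : -t3' z.2 < s := (le_max_left _ _).trans_lt hs.1
      have q2 : tauc z - 3 * π / 2 < s := (le_max_right _ _).trans_lt hs.1
      have e2 : |s - tauc z| = tauc z - s := by rw [abs_of_neg (by linarith [hs.2])]; ring
      have q3 : xK z.1 z.2 s < 12 / 13 := by
        apply xK_out hTRI z hc hq
        · rw [e2]; linarith [hs.2]
        · rw [e2]; linarith
      by_cases hlt3 : |z.2| < 12 / 13
      · refine dom3 hKTH hTRI C z h0 hlt3 q3 ?_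
        rw [t3', if_pos hlt3] at q1
        obtain ⟨u1, u2⟩ := tend hq hb hlt3
        exact abs_le.2 ⟨q1.le, by linarith [hs.2]⟩
      · exact domK hKTH C z hc h0 q3 (Or.inl (not_lt.1 hlt3))
    · -- after
      right
      have e1 : |τ - tauc z| = τ - tauc z := abs_of_nonneg (by linarith)
      rw [e1] at hout
      have hL1 : tauc z + sigb z < min (t3' z.2) (tauc z + π / 2) := by
        refine lt_min ?_ (by linarith)
        unfold t3'
        split_ifs with h
        · exact (tend hq hb h).1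
        · linarith
      have hM : tauP z = (tauc z + sigb z + min (t3' z.2) (tauc z + π / 2)) / 2 := by
        unfold tauP
        rw [if_pos hq]
      have m1 : tauc z + sigb z < tauP z := by rw [hM]; linarith
      have m2 : tauP z < min (t3' z.2) (tauc z + π / 2) := by rw [hM]; linarith
      have m3 : tauP z < t3' z.2 := m2.trans_le (min_le_left _ _)
      have m4 : tauP z < tauc z + π / 2 := m2.trans_le (min_le_right _ _)
      have k1 : τ < t3' z.2 := by
        unfold t3'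
        split_ifs with h
        · exact (abs_lt.1 (hτ3 h)).2
        · linarith
      refine hPARC C A hA z.2 h0 hc z.1 (tauc z + sigb z) (min (t3' z.2) (tauc z + 3 * π / 2)) ?_
        τ ⟨by linarith, lt_min k1 (by linarith)⟩ (tauP z) ⟨m1, lt_min m3 (by linarith)⟩ hv
      intro s hs
      have q1 : s < t3' z.2 := hs.2.trans_le (min_le_left _ _)
      have q2 : s < tauc z + 3 * π / 2 := hs.2.trans_le (min_le_right _ _)
      have e2 : |s - tauc z| = s - tauc z := abs_of_nonneg (by linarith [hs.1])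
      have q3 : xK z.1 z.2 s < 12 / 13 := by
        apply xK_out hTRI z hc hq
        · rw [e2]; linarith [hs.1]
        · rw [e2]; linarith
      by_cases hlt3 : |z.2| < 12 / 13
      · refine dom3 hKTH hTRI C z h0 hlt3 q3 ?_
        rw [t3', if_pos hlt3] at q1
        obtain ⟨u1, u2⟩ := tend hq hb hlt3
        exact abs_le.2 ⟨by linarith [hs.1], q1.le⟩
      · exact domK hKTH C z hc h0 q3 (Or.inl (not_lt.1 hlt3))
  · -- states which do not meet the `Q`-cap
    left
    by_cases hlt3 : |z.2| < 12 / 13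
    · have hM : tauM z = 0 := by
        unfold tauM
        rw [if_neg hq, if_pos hlt3]
      have hxs : ∀ s, |s| ≤ tau3 z.2 → xK z.1 z.2 s < 12 / 13 := by
        intro s hs
        rcases not_inQ hTRI z hc hb hq with h | h
        · exact tfar h hlt3 s hs
        · exact h.2 s
      show vecP C z.1 z.2 (tauM z) ∈ A
      rw [hM]
      have t30 := (t3 hlt3).1
      have a1 := abs_lt.1 (hτ3 hlt3)
      refine hPARC C A hA z.2 h0 hc z.1 (-tau3 z.2) (tau3 z.2) ?_ τ ⟨a1.1, a1.2⟩ 0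
        ⟨by linarith, t30⟩ hv
      intro s hs
      have hs' : |s| ≤ tau3 z.2 := abs_le.2 ⟨hs.1.le, hs.2.le⟩
      exact dom3 hKTH hTRI C z h0 hlt3 (hxs s hs') hs'
    · have hge := not_lt.1 hlt3
      have hM : tauM z = tauc z := by
        unfold tauM
        rw [if_neg hq, if_neg hlt3]
      have hxx : |xx z| < 5 / 13 := lt_of_le_of_ne (tbig hge)
        fun h2 => hb (Or.inr (Or.inr (Or.inr (Or.inl h2))))
      have hneg : cos z.1 < 0 := by
        rcases not_inQ hTRI z hc hb hq with h | h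
        · exact h
        · exact absurd ⟨h.1, hxx⟩ hq
      obtain ⟨s1, s2, s3⟩ := tsig hxx
      have hr : 0 < √(1 - xx z ^ 2) := by
        by_contra h
        have h4 : √(1 - xx z ^ 2) = 0 := le_antisymm (not_lt.1 h) (Real.sqrt_nonneg _)
        rw [h4] at s3
        norm_num at s3
      show vecP C z.1 z.2 (tauM z) ∈ A
      rw [hM]
      have hτa : |τ - tauc z| < π := abs_lt.2 ⟨by linarith, by linarith⟩
      have hin : |τ - tauc z| < π - sigb z := by
        by_contra h1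
        have h2 := not_lt.1 h1
        have h3 : cos |τ - tauc z| ≤ cos (π - sigb z) :=
          Real.cos_le_cos_of_nonneg_of_le_pi (by linarith) hτa.le h2
        rw [Real.cos_pi_sub, Real.cos_abs] at h3
        rw [tf hneg τ, ← s3] at hx
        have h5 := mul_le_mul_of_nonneg_left h3 hr.le
        linarith
      have hin' := abs_lt.1 hin
      refine hPARC C A hA z.2 h0 hc z.1 (tauc z - (π - sigb z)) (tauc z + (π - sigb z)) ?_ τ
        ⟨by linarith, by linarith⟩ (tauc z) ⟨by linarith, by linarith⟩ hv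
      intro s hs
      refine domK hKTH C z hc h0 ?_ (Or.inl hge)
      have h6 : |s - tauc z| < π - sigb z := abs_lt.2 ⟨by linarith [hs.1], by linarith [hs.2]⟩
      have h7 : cos (π - sigb z) < cos |s - tauc z| :=
        Real.cos_lt_cos_of_nonneg_of_le_pi (abs_nonneg _) (by linarith) h6
      rw [Real.cos_pi_sub, Real.cos_abs] at h7
      rw [tf hneg s, ← s3]
      have h8 := mul_lt_mul_of_pos_left h7 hr
      linarith

end Pool.Agent.Lib.MP_d2b992_gt.Erg
end

section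
set_option autoImplicit false

/-!
Module FAMP: unit vectors over the first cap.
-/

namespace Pool.Agent.Lib.MP_d2b992_gt.Erg

open Set Real MeasureTheory Dyn
open scoped ContDiff InnerProductSpace

open FAMKM in
theorem specFAMP (hPARC : SpecPARC) (hKTH : SpecKTH) (hTRI : SpecTRI) : SpecFAMP := by
  intro C A hA z hb hlt τ hτ hv
  have hc : |z.2| < 1 := hlt.trans (by norm_num)
  have h0 : z.2 ≠ 0 := fun h => hb (Or.inl h)
  have hπ := Real.pi_pos
  obtain ⟨-, tf, tc, tfar, tend, t3, tsig, tbig⟩ := hTRI z hc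
  obtain ⟨u1, u2, u3, u4⟩ := t3 hlt
  have tc' := abs_lt.1 tc
  -- inside of the cap
  have hin : ∀ s ∈ Ioo (tau3 z.2) (π - tau3 z.2), (phc z.2 s, C.P.th z.2 z.1 s) ∈ DomP := by
    intro s hs
    refine domIn hKTH C z hc h0 ?_
    have h6 : (0 : ℝ) < 1 - z.2 ^ 2 := by
      have := (sq_lt_one_iff_abs_lt_one z.2).2 hc
      linarith
    have hs3 : sin (tau3 z.2) < sin s := by
      rcases le_or_gt s (π / 2) with h | h
      · exact Real.sin_lt_sin_of_lt_of_le_pi_div_two (by linarith) h hs.1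
      · rw [← Real.sin_pi_sub s]
        exact Real.sin_lt_sin_of_lt_of_le_pi_div_two (by linarith) (by linarith)
          (by linarith [hs.2])
    have hs0 : 0 < sin (tau3 z.2) := Real.sin_pos_of_pos_of_lt_pi u1 (by linarith)
    rw [← u3, mul_pow, Real.sq_sqrt h6.le]
    exact mul_lt_mul_of_pos_left (pow_lt_pow_left₀ hs3 hs0.le two_ne_zero) h6
  show vecP C z.1 z.2 (tauP z) ∈ A
  by_cases hq : inQ z
  · obtain ⟨s1, s2, s3⟩ := tsig hq.2
    obtain ⟨v1, v2⟩ := tend hq hb hlt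
    have hM : tauP z = (tauc z + sigb z + min (tau3 z.2) (tauc z + π / 2)) / 2 := by
      unfold tauP t3'
      rw [if_pos hq, if_pos hlt]
    have hL1 : tauc z + sigb z < min (tau3 z.2) (tauc z + π / 2) := lt_min v1 (by linarith)
    have m1 : tauc z + sigb z < tauP z := by rw [hM]; linarith
    have m2 : tauP z < min (tau3 z.2) (tauc z + π / 2) := by rw [hM]; linarith
    have m3 : tauP z < tau3 z.2 := m2.trans_le (min_le_left _ _)
    refine hPARC C A hA z.2 h0 hc z.1 (tauc z + sigb z) (π - tau3 z.2) ?_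
      τ ⟨by linarith [hτ.1], hτ.2⟩ (tauP z) ⟨m1, by linarith⟩ hv
    intro s hs
    rcases le_or_gt s (tau3 z.2) with h | h
    · have e2 : |s - tauc z| = s - tauc z := abs_of_nonneg (by linarith [hs.1])
      have q3 : xK z.1 z.2 s < 12 / 13 := by
        apply xK_out hTRI z hc hq
        · rw [e2]; linarith [hs.1]
        · rw [e2]; linarith
      exact dom3 hKTH hTRI C z h0 hlt q3 (abs_le.2 ⟨by linarith [hs.1], h⟩)
    · exact hin s ⟨h, hs.2⟩
  · have hM : tauP z = 0 := by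
      unfold tauP
      rw [if_neg hq, if_pos hlt]
    rw [hM]
    refine hPARC C A hA z.2 h0 hc z.1 (-tau3 z.2) (π - tau3 z.2) ?_ τ ⟨by linarith [hτ.1], hτ.2⟩ 0
      ⟨by linarith, by linarith⟩ hv
    intro s hs
    rcases le_or_gt s (tau3 z.2) with h | h
    · have hs' : |s| ≤ tau3 z.2 := abs_le.2 ⟨hs.1.le, h⟩
      refine dom3 hKTH hTRI C z h0 hlt ?_ hs'
      rcases not_inQ hTRI z hc hb hq with h5 | h5
      · exact tfar h5 hlt s hs'
      · exact h5.2 s
    · exact hin s ⟨h, hs.2⟩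

end Pool.Agent.Lib.MP_d2b992_gt.Erg
end

section
/-!
# Module FAMQ: unit vectors over the `Q`-caps
-/
set_option autoImplicit false

namespace Pool.Agent.Lib.MP_d2b992_gt.Erg

open Set Real MeasureTheory Dyn
open scoped ContDiff InnerProductSpace

namespace FamqM

/-- the signed distance to the pole `p` of a point of a near state, in the coordinates of the
second chart -/
theorem xK_psi (z : St) (hc : |z.2| < 1) (hn : 0 < cos z.1) (hx : |xx z| < 1) (τ' : ℝ) :
    xK (Psi z) (xx z) (τ' - tauc z + π / 2) = √(1 - z.2 ^ 2) * sin τ' := by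
  have hc2 : z.2 ^ 2 < 1 := by
    have := sq_lt_sq' (a := z.2) (b := 1) (by linarith [neg_abs_le z.2]) (by linarith [le_abs_self z.2])
    linarith
  have hx2 : xx z ^ 2 < 1 := by
    have := sq_lt_sq' (a := xx z) (b := 1) (by linarith [neg_abs_le (xx z)])
      (by linarith [le_abs_self (xx z)])
    linarith
  set c := z.2 with hcdef
  set x := xx z with hxdef
  set U := √(1 - c ^ 2) with hU
  set V := √(1 - x ^ 2) with hV
  have hU0 : 0 < U := sqrt_pos.2 (by linarith)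
  have hV0 : 0 < V := sqrt_pos.2 (by linarith)
  have hU2 : U ^ 2 = 1 - c ^ 2 := sq_sqrt (by linarith)
  have hV2 : V ^ 2 = 1 - x ^ 2 := sq_sqrt (by linarith)
  have hxU : x = U * sin z.1 := rfl
  -- the coordinate `D < 0`, here `d = - D > 0`
  set d := U * cos z.1 with hd
  have hd0 : 0 < d := mul_pos hU0 hn
  have hd2 : d ^ 2 = 1 - x ^ 2 - c ^ 2 := by
    have := sin_sq_add_cos_sq z.1
    rw [hd, hxU, mul_pow, mul_pow, hU2]
    linear_combination (1 - c ^ 2) * this
  -- Psi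
  have hcV : (c / V) ^ 2 < 1 := by
    rw [div_pow, hV2, div_lt_one (by linarith)]
    nlinarith
  have hcV' : -1 ≤ c / V ∧ c / V ≤ 1 := by
    constructor <;> nlinarith
  have hsP : sin (Psi z) = c / V := by
    unfold Psi
    rw [sin_pi_sub, sin_arcsin hcV'.1 hcV'.2]
  have hcP : cos (Psi z) = -(d / V) := by
    unfold Psi
    rw [cos_pi_sub, cos_arcsin]
    congr 1
    have h1 : 1 - (c / V) ^ 2 = (d / V) ^ 2 := by
      rw [div_pow, div_pow, hd2, ← hV2]
      field_simp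
    rw [show xx z = x from rfl, show z.2 = c from rfl, ← hV, h1, sqrt_sq (by positivity)]
  -- tauc
  have htan : z.2 * tan z.1 = c * x / d := by
    rw [tan_eq_sin_div_cos, hxU, hd]
    field_simp
    rw [hcdef]
    ring
  have htc : tauc z = -arctan (c * x / d) := by
    unfold tauc
    rw [htan]
  have hA : √(1 + (c * x / d) ^ 2) = U * V / d := by
    have h1 : (U * V / d) ^ 2 = (1 - c ^ 2) * (1 - x ^ 2) / d ^ 2 := by
      rw [div_pow, mul_pow U V 2, hU2, hV2]
    have h2 : 1 + (c * x / d) ^ 2 = (d ^ 2 + (c * x) ^ 2) / d ^ 2 := by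
      rw [div_pow, add_div, div_self (pow_ne_zero 2 hd0.ne')]
    rw [h2, hd2, show 1 - x ^ 2 - c ^ 2 + (c * x) ^ 2 = (1 - c ^ 2) * (1 - x ^ 2) by ring, ← hd2,
      ← h1]
    exact sqrt_sq (by positivity)
  have hcosc : cos (tauc z) = d / (U * V) := by
    rw [htc, cos_neg, cos_arctan, hA]
    field_simp
  have hsinc : sin (tauc z) = -(c * x / (U * V)) := by
    rw [htc, sin_neg, sin_arctan, hA]
    field_simp
  rw [xK, cos_add_pi_div_two, sin_add_pi_div_two, hcP, hsP]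
  have h1 : sin τ' = sin (τ' - tauc z) * cos (tauc z) + cos (τ' - tauc z) * sin (tauc z) := by
    rw [← sin_add]
    congr 1
    ring
  rw [h1, hcosc, hsinc]
  field_simp
  ring

end FamqM

open FamqM in
theorem specFAMQ (hQARC : SpecQARC) (hKTH : SpecKTH) (hTRI : SpecTRI) (hTRV : SpecTRV) :
    SpecFAMQ := by
  intro C A hA z hz hin hbad τ hτ hv
  obtain ⟨hn, hx⟩ := hin
  have hx0 : xx z ≠ 0 := fun h => hbad (Or.inr (Or.inr (Or.inl h)))
  have hc1 : |z.2| ≠ 12 / 13 := fun h => hbad (Or.inr (Or.inl h))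
  have hx1 : |xx z| < 1 := by linarith
  have hx2 : xx z ^ 2 < 1 := by
    have := sq_lt_sq' (a := xx z) (b := 1) (by linarith [neg_abs_le (xx z)])
      (by linarith [le_abs_self (xx z)])
    linarith
  have hc2 : z.2 ^ 2 < 1 := by
    have := sq_lt_sq' (a := z.2) (b := 1) (by linarith [neg_abs_le z.2]) (by linarith [le_abs_self z.2])
    linarith
  obtain ⟨-, -, htc, -, h5, h6, h7, -⟩ := hTRI z hz
  obtain ⟨hs0, hs1, hs2⟩ := h7 hx
  have htc' := abs_lt.1 htc
  set tc := tauc z with htcdef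
  set sg := sigb z with hsgdef
  -- the base point
  set l' := max (-t3' z.2) (tc - π / 2) with hl'
  have hl1 : tc - π / 2 ≤ l' := le_max_right _ _
  have hl2 : |z.2| < 12 / 13 → -tau3 z.2 ≤ l' := by
    intro h
    have : t3' z.2 = tau3 z.2 := by
      unfold t3'
      rw [if_pos h]
    rw [← this]
    exact le_max_left _ _
  have hl3 : l' < tc - sg := by
    rw [hl', max_lt_iff]
    refine ⟨?_, by linarith⟩
    unfold t3'
    split_ifs with h
    · exact (h5 ⟨hn, hx⟩ hbad h).2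
    · linarith
  have htM : tauM z = (tc - sg + l') / 2 := by
    unfold tauM
    rw [if_pos (show inQ z from ⟨hn, hx⟩)]
  have hM1 : l' < tauM z := by rw [htM]; linarith
  have hM2 : tauM z < tc - sg := by rw [htM]; linarith
  -- transition
  have hTR := (hTRV C z hz ⟨hn, hx⟩ hbad).1 (tauM z) (by linarith) hM2
    (fun h => lt_of_le_of_lt (hl2 h) hM1)
  unfold vM
  rw [hTR]
  -- the path in the second chart
  obtain ⟨-, -, -, -, hk5, -, hk7⟩ := hKTH C.Q (xx z) hx0 hx1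
  have hdom : ∀ t ∈ Ioo (l' - tc + π / 2) (π / 2 + sg),
      (phc (xx z) t, C.Q.th (xx z) (Psi z) t) ∈ DomQ := by
    intro t ht
    obtain ⟨hphc1, hphc2, hphc3⟩ := hk7 t
    have hU : 0 < √(1 - xx z ^ 2) := sqrt_pos.2 (by linarith)
    have hU2 : √(1 - xx z ^ 2) ^ 2 = 1 - xx z ^ 2 := sq_sqrt (by linarith)
    have ht0 : 0 < t := by linarith [ht.1]
    have htpi : t < π := by linarith [ht.2]
    have hst : 0 < sin t := sin_pos_of_pos_of_lt_pi ht0 htpi
    have hcos : 0 < cos (phc (xx z) t) := by rw [hphc1]; exact mul_pos hU hst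
    have hsin : 0 < sin (phc (xx z) t) := sin_pos_of_mem_Ioo hphc2
    refine ⟨⟨hphc2.1, ?_⟩, ?_⟩
    · by_contra hcon
      push Not at hcon
      have := cos_nonpos_of_pi_div_two_le_of_le hcon (by linarith [hphc2.2, pi_pos])
      simp only at this
      linarith
    · rcases lt_or_ge (π / 2 - sg) t with hin' | hout
      · -- inside the cap
        have h8 : cos sg < sin t := by
          rw [← cos_pi_div_two_sub, ← cos_abs (π / 2 - t)]
          apply cos_lt_cos_of_nonneg_of_le_pi (abs_nonneg _) (by linarith)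
          rw [abs_lt]
          constructor <;> linarith [ht.2]
        have h9 : 12 / 13 < √(1 - xx z ^ 2) * sin t := by
          rw [← hs2]
          exact mul_lt_mul_of_pos_left h8 hU
        have h10 : sin (phc (xx z) t) ^ 2 < (5 / 13) ^ 2 := by
          rw [hphc3, ← hU2, ← mul_pow]
          nlinarith
        have h11 : sin (phc (xx z) t) < 5 / 13 := lt_of_pow_lt_pow_left₀ 2 (by norm_num) h10
        simp only
        rw [abs_mul, abs_of_pos hsin]
        calc sin (phc (xx z) t) * |cos (C.Q.th (xx z) (Psi z) t)|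
            ≤ sin (phc (xx z) t) * 1 := mul_le_mul_of_nonneg_left (abs_cos_le_one _) hsin.le
          _ < 5 / 13 := by rw [mul_one]; exact h11
      · -- outside of the cap
        have h8 : sin t ≤ cos sg := by
          rw [← cos_pi_div_two_sub]
          exact cos_le_cos_of_nonneg_of_le_pi hs0.le (by linarith) (by linarith)
        have h9 : √(1 - xx z ^ 2) * sin t ≤ 12 / 13 := by
          rw [← hs2]
          exact mul_le_mul_of_nonneg_left h8 hU.le
        have h10 : (1 - xx z ^ 2) * sin t ^ 2 ≤ 1 - C.Q.a ^ 2 := by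
          rw [C.Qa, ← hU2, ← mul_pow]
          have : 0 ≤ √(1 - xx z ^ 2) * sin t := by positivity
          nlinarith
        have h11 := (hk5 (Psi z) t (Or.inr ⟨by rw [abs_of_pos ht0]; linarith, h10⟩)).1
        simp only
        rw [h11]
        have h12 := xK_psi z hz hn hx1 (t + tc - π / 2)
        rw [show t + tc - π / 2 - tauc z + π / 2 = t by rw [← htcdef]; ring] at h12
        rw [h12]
        have hW : 0 < √(1 - z.2 ^ 2) := sqrt_pos.2 (by linarith)
        have hW2 : √(1 - z.2 ^ 2) ^ 2 = 1 - z.2 ^ 2 := sq_sqrt (by linarith)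
        have h13 : (1 - z.2 ^ 2) * sin (t + tc - π / 2) ^ 2 < (5 / 13) ^ 2 := by
          rcases lt_or_ge |z.2| (12 / 13) with h | h
          · obtain ⟨ht1, ht2, -, ht4⟩ := h6 h
            have h14 := h5 ⟨hn, hx⟩ hbad h
            have h15 := hl2 h
            have h16 : |t + tc - π / 2| < tau3 z.2 := by
              rw [abs_lt]
              constructor
              · linarith [ht.1]
              · linarith [h14.1]
            exact (ht4 _ (by linarith)).2 h16
          · have h14 : 12 / 13 < |z.2| := lt_of_le_of_ne h (Ne.symm hc1)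
            have h15 : (12 / 13 : ℝ) ^ 2 < z.2 ^ 2 := by
              rw [← sq_abs z.2]
              exact pow_lt_pow_left₀ h14 (by norm_num) (by norm_num)
            have h16 : sin (t + tc - π / 2) ^ 2 ≤ 1 := sin_sq_le_one _
            nlinarith [sq_nonneg (sin (t + tc - π / 2))]
        apply abs_lt_of_sq_lt_sq _ (by norm_num)
        rw [mul_pow, hW2]
        exact h13
  have he : esgn z = 1 ∨ esgn z = -1 := by
    unfold esgn
    split_ifs
    · exact Or.inl rfl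
    · exact Or.inr rfl
  have hτ' := abs_lt.1 hτ
  exact hQARC C A hA (esgn z) he (xx z) hx0 hx1 (Psi z) (l' - tc + π / 2) (π / 2 + sg) hdom
    τ ⟨by linarith, by linarith⟩ (tauM z - tc + π / 2) ⟨by linarith, by linarith⟩ hv

end Pool.Agent.Lib.MP_d2b992_gt.Erg
end

section
/-!
# Module FAMX: a unit vector is the velocity of exactly one explicit geodesic
-/
set_option autoImplicit false

namespace Pool.Agent.Lib.MP_d2b992_gt.Erg

open Set Real MeasureTheory Dyn
open scoped ContDiff InnerProductSpace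

namespace FamxM

theorem key {K : Cap} {φ : ℝ} {u : ℝ × ℝ} {τ : ℝ} (hφ : φ ∈ Ioo 0 π)
    (h1 : √(1 - (sin φ ^ 2 * u.2) ^ 2) * sin τ = cos φ)
    (h2 : √(1 - (sin φ ^ 2 * u.2) ^ 2) * cos τ = -(K.psi φ * u.1 * sin φ)) :
    phc (sin φ ^ 2 * u.2) τ = φ ∧ velK K (sin φ ^ 2 * u.2) τ = u := by
  have hs : 0 < sin φ := sin_pos_of_mem_Ioo hφ
  have hp : 0 < K.psi φ := K.psi_pos φ
  have h3 : phc (sin φ ^ 2 * u.2) τ = φ := by
    unfold phc
    rw [h1, arccos_cos hφ.1.le hφ.2.le]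
  refine ⟨h3, ?_⟩
  unfold velK dphc
  rw [h3, h2]
  ext
  · simp only
    field_simp
  · simp only
    field_simp

theorem norm_sq {K : Cap} {φ Θ : ℝ} {u : ℝ × ℝ} (hu : BB K (φ, Θ) u u = 1) :
    (K.psi φ * u.1 * sin φ) ^ 2 + cos φ ^ 2 = 1 - (sin φ ^ 2 * u.2) ^ 2 := by
  unfold BB at hu
  simp only at hu
  have h := sin_sq_add_cos_sq φ
  linear_combination (sin φ ^ 2) * hu + h

end FamxM

open FamxM in
theorem specFAMX : SpecFAMX := by
  intro K φ Θ u hφ hu hu2
  have hs : 0 < sin φ := sin_pos_of_mem_Ioo hφ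
  have hp : 0 < K.psi φ := K.psi_pos φ
  have hn := norm_sq hu
  have hu' : K.psi φ ^ 2 * (u.1 * u.1) + sin φ ^ 2 * (u.2 * u.2) = 1 := hu
  set c := sin φ ^ 2 * u.2 with hc
  have hc0 : c ≠ 0 := mul_ne_zero (pow_ne_zero 2 hs.ne') hu2
  have hcsq : c ^ 2 = sin φ ^ 2 * (1 - K.psi φ ^ 2 * u.1 ^ 2) := by
    rw [hc]
    linear_combination (sin φ ^ 2) * hu'
  have hcs : |c| ≤ sin φ := by
    apply abs_le_of_sq_le_sq _ hs.le
    rw [hcsq]
    have : 0 ≤ sin φ ^ 2 * (K.psi φ ^ 2 * u.1 ^ 2) := by positivity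
    linarith
  refine ⟨c, Θ - K.th c 0 (arcsin (cos φ / √(1 - c ^ 2))), hc0, hcs, ?_, ?_⟩
  · intro hu1
    have hcs' : |c| < sin φ := by
      apply abs_lt_of_sq_lt_sq _ hs.le
      rw [hcsq]
      have h1 : 0 < u.1 ^ 2 := by
        have := hu1.ne
        positivity
      have : 0 < sin φ ^ 2 * (K.psi φ ^ 2 * u.1 ^ 2) := by positivity
      linarith
    have hc1 : 0 < 1 - c ^ 2 := by
      have h1 : |c| < 1 := lt_of_lt_of_le hcs' (sin_le_one φ)
      have := sq_lt_one_iff_abs_lt_one c |>.mpr h1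
      linarith
    have hr : 0 < √(1 - c ^ 2) := sqrt_pos.mpr hc1
    have hr2 : √(1 - c ^ 2) ^ 2 = 1 - c ^ 2 := sq_sqrt hc1.le
    have hneg : 0 < -(K.psi φ * u.1 * sin φ) := by
      have : 0 < K.psi φ * (-u.1) * sin φ := by
        have : 0 < -u.1 := by linarith
        positivity
      linarith
    have hlt : |cos φ| < √(1 - c ^ 2) := by
      apply abs_lt_of_sq_lt_sq _ hr.le
      rw [hr2]
      have : 0 < (K.psi φ * u.1 * sin φ) ^ 2 := by
        rw [← neg_sq]
        positivity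
      linarith
    have hq := abs_lt.mp hlt
    have h1 : -1 < cos φ / √(1 - c ^ 2) := by rw [lt_div_iff₀ hr]; linarith
    have h2 : cos φ / √(1 - c ^ 2) < 1 := by rw [div_lt_iff₀ hr]; linarith
    set τ := arcsin (cos φ / √(1 - c ^ 2)) with hτ
    have hsin : √(1 - c ^ 2) * sin τ = cos φ := by
      rw [hτ, sin_arcsin h1.le h2.le, mul_div_cancel₀ _ hr.ne']
    have hcos : √(1 - c ^ 2) * cos τ = -(K.psi φ * u.1 * sin φ) := by
      have h3 : 0 ≤ cos τ := cos_arcsin_nonneg _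
      have h4 : (√(1 - c ^ 2) * cos τ) ^ 2 = (-(K.psi φ * u.1 * sin φ)) ^ 2 := by
        have h5 := sin_sq_add_cos_sq τ
        have h6 : (√(1 - c ^ 2) * sin τ) ^ 2 = cos φ ^ 2 := by rw [hsin]
        have h7 : (√(1 - c ^ 2) * cos τ) ^ 2 = (1 - c ^ 2) - (√(1 - c ^ 2) * sin τ) ^ 2 := by
          linear_combination √(1 - c ^ 2) ^ 2 * h5 + hr2
        rw [h7, h6]
        linarith
      exact (sq_eq_sq₀ (by positivity) hneg.le).mp h4
    obtain ⟨h3, h4⟩ := key hφ hsin hcos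
    refine ⟨hcs', τ, ?_, h3, ?_, h4⟩
    · rw [abs_lt]
      exact ⟨neg_pi_div_two_lt_arcsin.mpr h1, arcsin_lt_pi_div_two.mpr h2⟩
    · simp only [Cap.th]
      ring
  · intro hφ2
    have hcosφ : 0 < cos φ := cos_pos_of_mem_Ioo ⟨by linarith [hφ.1, pi_pos], hφ2⟩
    have hc1 : 0 < 1 - c ^ 2 := by
      have h1 : 0 < cos φ ^ 2 := by positivity
      have h2 := sq_nonneg (K.psi φ * u.1 * sin φ)
      linarith
    have hr : 0 < √(1 - c ^ 2) := sqrt_pos.mpr hc1
    have hr2 : √(1 - c ^ 2) ^ 2 = 1 - c ^ 2 := sq_sqrt hc1.le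
    set y := -(K.psi φ * u.1 * sin φ) with hy
    have hy2 : y ^ 2 + cos φ ^ 2 = 1 - c ^ 2 := by
      rw [hy, neg_sq]
      exact hn
    have hlt : |y| < √(1 - c ^ 2) := by
      apply abs_lt_of_sq_lt_sq _ hr.le
      rw [hr2]
      have h1 : 0 < cos φ ^ 2 := by positivity
      linarith
    have hq := abs_lt.mp hlt
    have h1 : -1 < y / √(1 - c ^ 2) := by rw [lt_div_iff₀ hr]; linarith
    have h2 : y / √(1 - c ^ 2) < 1 := by rw [div_lt_iff₀ hr]; linarith
    set τ := arccos (y / √(1 - c ^ 2)) with hτ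
    have hcos : √(1 - c ^ 2) * cos τ = y := by
      rw [hτ, cos_arccos h1.le h2.le, mul_div_cancel₀ _ hr.ne']
    have hsin0 : 0 < sin τ := by
      rw [hτ, sin_arccos]
      apply sqrt_pos.mpr
      have : (y / √(1 - c ^ 2)) ^ 2 < 1 := by
        rw [sq_lt_one_iff_abs_lt_one, abs_lt]
        exact ⟨h1, h2⟩
      linarith
    have hsin : √(1 - c ^ 2) * sin τ = cos φ := by
      have h4 : (√(1 - c ^ 2) * sin τ) ^ 2 = cos φ ^ 2 := by
        have h5 := sin_sq_add_cos_sq τ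
        have h6 : (√(1 - c ^ 2) * cos τ) ^ 2 = y ^ 2 := by rw [hcos]
        have h7 : (√(1 - c ^ 2) * sin τ) ^ 2 = (1 - c ^ 2) - (√(1 - c ^ 2) * cos τ) ^ 2 := by
          linear_combination √(1 - c ^ 2) ^ 2 * h5 + hr2
        rw [h7, h6]
        linarith
      exact (sq_eq_sq₀ (by positivity) hcosφ.le).mp h4
    obtain ⟨h3, h4⟩ := key hφ hsin hcos
    refine ⟨Θ - K.th c 0 τ, τ, ⟨?_, ?_⟩, h3, ?_, h4⟩
    · exact arccos_pos.mpr h2
    · have h5 : arccos (y / √(1 - c ^ 2)) < arccos (-1) :=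
        arccos_lt_arccos (le_refl _) h1 h2.le
      rwa [arccos_neg_one] at h5
    · simp only [Cap.th]
      ring

end Pool.Agent.Lib.MP_d2b992_gt.Erg
end

section
/-!
# Module FOLD: the seam and the periods
-/
set_option autoImplicit false

namespace Pool.Agent.Lib.MP_d2b992_gt.Erg

open Set Real MeasureTheory Dyn
open scoped ContDiff InnerProductSpace

namespace FoldM

variable {E : Type*} [NormedAddCommGroup E] [NormedSpace ℝ E]

theorem fderiv_of_periodic {f : ℝ × ℝ → E} {a : ℝ × ℝ} (h : Function.Periodic f a) (q : ℝ × ℝ) :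
    fderiv ℝ f (q + a) = fderiv ℝ f q := by
  have h1 := fderiv_comp_add_right (𝕜 := ℝ) (f := f) (x := q) a
  have h2 : (fun x => f (x + a)) = f := funext h
  rw [h2] at h1
  exact h1.symm

theorem phc_neg (c τ : ℝ) : phc (-c) τ = phc c τ := by
  unfold phc
  rw [neg_sq]

theorem phc_pi_add (c τ : ℝ) : phc c (π + τ) = π - phc c τ := by
  unfold phc
  rw [add_comm, sin_add_pi, mul_neg, arccos_neg]

theorem psi_pi_sub (K : Cap) (φ : ℝ) : K.psi (π - φ) = K.psi φ := by
  unfold Cap.psi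
  rw [cos_pi_sub, sin_pi_sub, abs_neg]

/-- The integrand of `th`. -/
noncomputable def ig (K : Cap) (c s : ℝ) : ℝ :=
  K.psi (phc c s) * (c / (1 - (1 - c ^ 2) * sin s ^ 2))

theorem th_eq (K : Cap) (c Θ τ : ℝ) : K.th c Θ τ = Θ + ∫ s in (0 : ℝ)..τ, ig K c s := rfl

theorem ig_pi_add (K : Cap) (c s : ℝ) : ig K c (s + π) = ig K c s := by
  unfold ig
  rw [add_comm s π, phc_pi_add, psi_pi_sub, add_comm π s, sin_add_pi, neg_sq]

theorem ig_neg (K : Cap) (c s : ℝ) : ig K (-c) s = -ig K c s := by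
  unfold ig
  rw [phc_neg, neg_sq, neg_div, mul_neg]

theorem ig_cont (K : Cap) {c : ℝ} (hc0 : c ≠ 0) (hc1 : c ^ 2 < 1) : Continuous (ig K c) :=
  K.cont_th hc0 hc1

theorem th_pi_add (K : Cap) {c : ℝ} (hc0 : c ≠ 0) (hc1 : c ^ 2 < 1) (Θ τ : ℝ) :
    K.th c Θ (π + τ) = Θ + KW K c + K.th c 0 τ := by
  have hi : ∀ a b, IntervalIntegrable (ig K c) volume a b :=
    fun a b => (ig_cont K hc0 hc1).intervalIntegrable a b
  rw [KW, th_eq, th_eq, th_eq,
    ← intervalIntegral.integral_add_adjacent_intervals (hi 0 π) (hi π (π + τ))]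
  have h1 : ∫ s in π..(π + τ), ig K c s = ∫ s in (0 : ℝ)..τ, ig K c s := by
    have h2 := intervalIntegral.integral_comp_add_right (a := 0) (b := τ) (ig K c) π
    rw [zero_add, add_comm τ π] at h2
    rw [← h2]
    exact intervalIntegral.integral_congr fun s _ => ig_pi_add K c s
  rw [h1]
  ring

theorem th_neg (K : Cap) (c Θ τ : ℝ) : K.th (-c) (-Θ) τ = -K.th c Θ τ := by
  rw [th_eq, th_eq]
  have : ∫ s in (0 : ℝ)..τ, ig K (-c) s = -∫ s in (0 : ℝ)..τ, ig K c s := by
    rw [← intervalIntegral.integral_neg]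
    exact intervalIntegral.integral_congr fun s _ => ig_neg K c s
  rw [this]
  ring

theorem th_shift (K : Cap) (c Θ a τ : ℝ) : K.th c (Θ + a) τ = K.th c Θ τ + a := by
  rw [th_eq, th_eq]
  ring

theorem velK_pi_add (K : Cap) (c τ : ℝ) : velK K c (π + τ) = -velK K (-c) τ := by
  unfold velK dphc
  rw [phc_pi_add, psi_pi_sub, phc_neg, sin_pi_sub, neg_sq, add_comm π τ, cos_add_pi]
  refine Prod.ext ?_ ?_
  · simp only [Prod.fst_neg]
    ring
  · simp only [Prod.snd_neg]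
    ring

theorem per_P (C : Caps) (k : ℤ) : Function.Periodic (chP C) (0, k * (4 * π)) := by
  have h : Function.Periodic (chP C) (0, 4 * π) := by
    rintro ⟨φ, Θ⟩
    rw [Prod.mk_add_mk, add_zero]
    exact chP_period C φ Θ
  have h1 := h.zsmul k
  have h2 : k • ((0, 4 * π) : ℝ × ℝ) = (0, k * (4 * π)) := by
    simp [Prod.smul_mk, zsmul_eq_mul]
  rwa [h2] at h1

theorem per_Q (C : Caps) (e : ℝ) (k : ℤ) : Function.Periodic (chQ C e) (0, k * π) := by
  have h : Function.Periodic (chQ C e) (0, π) := by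
    rintro ⟨φ, Θ⟩
    rw [Prod.mk_add_mk, add_zero]
    exact chQ_period C e φ Θ
  have h1 := h.zsmul k
  have h2 : k • ((0, π) : ℝ × ℝ) = (0, k * π) := by
    simp [Prod.smul_mk, zsmul_eq_mul]
  rwa [h2] at h1

theorem fold_fderiv (C : Caps) (φ Θ : ℝ) (u : ℝ × ℝ) :
    fderiv ℝ (chP C) (π - φ, -Θ) (-u) = fderiv ℝ (chP C) (φ, Θ) u := by
  have h : (fun q : ℝ × ℝ => chP C ((π, 0) + q)) ∘ (ContinuousLinearEquiv.neg ℝ : (ℝ × ℝ) ≃L[ℝ] ℝ × ℝ)
      = chP C := by
    funext q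
    obtain ⟨a, b⟩ := q
    simp only [Function.comp_apply, ContinuousLinearEquiv.neg_apply, Prod.neg_mk, Prod.mk_add_mk,
      zero_add]
    exact chP_fold C a b
  have h1 := (ContinuousLinearEquiv.neg ℝ : (ℝ × ℝ) ≃L[ℝ] ℝ × ℝ).comp_right_fderiv
    (f := fun q : ℝ × ℝ => chP C ((π, 0) + q)) (x := (φ, Θ))
  rw [h, fderiv_comp_add_left] at h1
  rw [h1]
  simp only [ContinuousLinearMap.comp_apply, ContinuousLinearEquiv.coe_coe,
    ContinuousLinearEquiv.neg_apply, Prod.neg_mk, Prod.mk_add_mk, zero_add]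
  rfl

end FoldM

open FoldM in
theorem specFOLD : SpecFOLD := by
  refine ⟨fun C c hc0 hc1 Θ τ => ?_, fun C c hc0 hc1 Θ τ k => ?_, fun C x hx0 hx1 e Ψ τ k => ?_⟩
  · have hc2 : c ^ 2 < 1 := (sq_lt_one_iff_abs_lt_one c).2 hc1
    have hth : C.P.th c Θ (π + τ) = -C.P.th (-c) (-Θ - KW C.P c) τ := by
      rw [th_pi_add C.P hc0 hc2]
      have h1 : (-Θ - KW C.P c) = -(Θ + KW C.P c) := by ring
      rw [h1, th_neg, neg_neg]
      have h2 := th_shift C.P c 0 (Θ + KW C.P c) τ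
      rw [zero_add] at h2
      rw [h2]
      ring
    have hph : phc c (π + τ) = π - phc (-c) τ := by rw [phc_pi_add, phc_neg]
    unfold vecP
    rw [hth, hph, velK_pi_add, fold_fderiv, chP_fold]
  · unfold vecP
    rw [th_shift]
    have h1 := per_P C k (phc c τ, C.P.th c Θ τ)
    have h2 := fderiv_of_periodic (per_P C k) (phc c τ, C.P.th c Θ τ)
    rw [Prod.mk_add_mk, add_zero] at h1 h2
    rw [h1, h2]
  · unfold vecQ
    rw [th_shift]
    have h1 := per_Q C e k (phc x τ, C.Q.th x Ψ τ)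
    have h2 := fderiv_of_periodic (per_Q C e k) (phc x τ, C.Q.th x Ψ τ)
    rw [Prod.mk_add_mk, add_zero] at h1 h2
    rw [h1, h2]

end Pool.Agent.Lib.MP_d2b992_gt.Erg
end

section
/-!
# GEOM: reduction of the ergodicity of the geodesic flow to the one of `T = P ∘ Q`
-/
set_option autoImplicit false

namespace Pool.Agent.Lib.MP_d2b992_gt.Erg

namespace GeomM

open Set Real MeasureTheory Dyn
open scoped ContDiff InnerProductSpace

/-- The states whose base vector before the `Q`-event is in `A`. -/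
def EM (C : Caps) (A : Set (R3 × R3)) : Set St := {z : St | |z.2| < 1 ∧ z ∉ Bad ∧ vM C z ∈ A}

/-- The states whose base vector after the `Q`-event is in `A`. -/
def EP (C : Caps) (A : Set (R3 × R3)) : Set St := {z : St | |z.2| < 1 ∧ z ∉ Bad ∧ vPl C z ∈ A}

theorem invArc_compl {M : SphereMetric} {A : Set (R3 × R3)} (h : InvariantArc M A) :
    InvariantArc M Aᶜ := by
  intro γ a b hγ s hs t ht
  have := h γ a b hγ s hs t ht
  simp only [mem_compl_iff]
  exact not_congr this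

theorem measurableSet_Dom : MeasurableSet Dom := by
  have h : Dom = {z : St | -(π / 2) ≤ z.1} ∩ {z : St | z.1 < 7 * π / 2} ∩ {z : St | |z.2| < 1} := by
    ext z
    simp [Dom, and_assoc]
  rw [h]
  refine (MeasurableSet.inter ?_ ?_).inter ?_
  · exact measurableSet_le measurable_const measurable_fst
  · exact measurableSet_lt measurable_fst measurable_const
  · exact measurableSet_lt measurable_snd.abs measurable_const

theorem ae_Dom : ∀ᵐ z ∂muY, z ∈ Dom := by
  unfold muY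
  exact ae_restrict_mem measurableSet_Dom

theorem ae_not_Bad (hB : SpecBAD) : ∀ᵐ z ∂muY, z ∉ Bad := by
  rw [ae_iff]
  unfold muY
  have h1 : {z : St | ¬z ∉ Bad} = Bad := by
    ext z
    simp
  rw [h1, Measure.restrict_apply hB.2]
  refine measure_mono_null ?_ hB.1
  intro z hz
  exact ⟨hz.1, hz.2.2.2⟩

theorem vM_eq_vPl (C : Caps) {z : St} (h : ¬inQ z) : vM C z = vPl C z := by
  unfold vM vPl tauM tauP
  rw [if_neg h, if_neg h]

theorem qMap_of_not {G : ℝ → ℝ} {z : St} (h : ¬inQ z) : qMap (5 / 13) G z = z := by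
  have h' : ¬(0 < cos z.1 ∧ |√(1 - z.2 ^ 2) * sin z.1| < 5 / 13) := h
  unfold qMap
  rw [if_neg h']

theorem vM_iff_vPl (hQ : SpecLINKQ) {C : Caps} {F G : ℝ → ℝ} (hD : Defl C F G)
    {A : Set (R3 × R3)} (hA : InvariantArc C.metric A) {z : St} (h1 : |z.2| < 1) (h2 : z ∉ Bad)
    (h3 : qMap (5 / 13) G z ∉ Bad) : vM C z ∈ A ↔ vPl C (qMap (5 / 13) G z) ∈ A := by
  by_cases h : inQ z
  · exact hQ C F G hD A hA z h1 h h2 h3
  · rw [qMap_of_not h, vM_eq_vPl C h]

/-- The null set of the parameters. -/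
theorem null_prod {N : Set St} (hN : volume N = 0) : 
    volume ({q : (ℝ × ℝ) × ℝ | q.1 ∈ N}) = 0 := by
  have h : {q : (ℝ × ℝ) × ℝ | q.1 ∈ N} = N ×ˢ univ := by
    ext q
    simp
  rw [h, Measure.volume_eq_prod, Measure.prod_prod]
  have : (volume : Measure (ℝ × ℝ)) N = 0 := hN
  rw [this, zero_mul]

/-- A set of vectors whose states are null is null. -/
theorem null_of_EM (hC : SpecCOV) (hS : SpecSMP) (hL : SpecLNUL) (hDeg : SpecDEG) (hB : SpecBAD)
    {C : Caps} {A : Set (R3 × R3)} (hm : MeasurableSet A) (hA : InvariantArc C.metric A)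
    (h1 : muY (EM C A) = 0) (h2 : muY (EP C A) = 0) : liouville C.metric A = 0 := by
  set N0 : Set St := (Bad ∪ EM C A ∪ EP C A) ∩ Dom with hN0
  have hN : volume N0 = 0 := by
    have a1 : ∀ S : Set St, muY S = 0 → volume (S ∩ Dom) = 0 := by
      intro S hS
      unfold muY at hS
      rwa [Measure.restrict_apply' measurableSet_Dom] at hS
    rw [hN0, union_inter_distrib_right, union_inter_distrib_right]
    refine measure_union_null (measure_union_null ?_ (a1 _ h1)) (a1 _ h2)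
    refine measure_mono_null ?_ hB.1
    intro z hz
    exact ⟨hz.1, hz.2.2.2⟩
  refine (hL C).1 A hm ?_
  set N1 : Set ((ℝ × ℝ) × ℝ) := {q | q.1 ∈ N0 ∧ q.1.2 ≠ 0} with hN1
  set N2 : Set ((ℝ × ℝ) × ℝ) := {q | q.1 ∈ N0 ∧ 0 < cos q.1.1 ∧ xx q.1 ≠ 0 ∧ q.2 ∈ Ioo 0 π} with hN2
  have v1 : volume N1 = 0 := measure_mono_null (fun q hq => hq.1) (null_prod hN)
  have v2 : volume N2 = 0 := measure_mono_null (fun q hq => hq.1) (null_prod hN)
  have i1 := null_image C v1 (Ψ := fun q : (ℝ × ℝ) × ℝ => vecP C q.1.1 q.1.2 q.2) (by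
    intro q hq
    exact (hS C).1 q hq.2 hq.1.2.2.2)
  have i2 : ∀ e : ℝ, (e = 1 ∨ e = -1) → volume (uvec C.metric ⁻¹' 
      ((fun q : (ℝ × ℝ) × ℝ => vecQ C e (Psi q.1) (xx q.1) q.2) '' N2) ∩ 
        univ ×ˢ Ioo 0 (2 * π)) = 0 := by
    intro e he
    refine null_image C v2 ?_
    intro q hq
    exact ((hS C).2 e he).2 q hq.1.2.2.2 hq.2.1 hq.2.2.1 hq.2.2.2
  refine measure_mono_null ?_ (measure_union_null (hDeg C) (measure_union_null i1 
    (measure_union_null (i2 1 (Or.inl rfl)) (i2 (-1) (Or.inr rfl)))))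
  rintro q ⟨hq1, hq2⟩
  by_cases hd : uvec C.metric q ∈ Deg C
  · exact Or.inl ⟨hd, hq2⟩
  right
  obtain ⟨z, hz, τ, h3, h4⟩ := hC C A hA (uvec C.metric q) ((hL C).2 q) hq1 hd
  have hz0 : z ∈ N0 := by
    refine ⟨?_, hz⟩
    by_cases hb : z ∈ Bad
    · exact Or.inl (Or.inl hb)
    · rcases h3 with h3 | h3 | h3
      · exact absurd h3 hb
      · exact Or.inl (Or.inr ⟨hz.2.2, hb, h3⟩)
      · exact Or.inr ⟨hz.2.2, hb, h3⟩
  rcases h4 with ⟨h5, h6⟩ | ⟨h5, h6, h7, h8⟩
  · left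
    refine ⟨⟨(z, τ), ⟨hz0, h5⟩, ?_⟩, hq2⟩
    exact h6.symm
  · right
    have h9 : esgn z = 1 ∨ esgn z = -1 := by
      unfold esgn
      split_ifs
      · exact Or.inl rfl
      · exact Or.inr rfl
    rcases h9 with h9 | h9
    · left
      refine ⟨⟨(z, τ), ⟨hz0, h5, h6, h7⟩, ?_⟩, hq2⟩
      rw [h9] at h8
      exact h8.symm
    · right
      refine ⟨⟨(z, τ), ⟨hz0, h5, h6, h7⟩, ?_⟩, hq2⟩
      rw [h9] at h8
      exact h8.symm

theorem EP_null (hP : SpecLINKP) (hB : SpecBAD) (hM : SpecMEAS) {C : Caps} {F G : ℝ → ℝ} 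
    (hD : Defl C F G) (mP : MeasurePreserving (pMap F) muY muY) {A : Set (R3 × R3)} 
    (hm : MeasurableSet A) (hA : InvariantArc C.metric A) (h1 : muY (EM C A) = 0) : 
    muY (EP C A) = 0 := by
  have hpre : muY (pMap F ⁻¹' (EM C A)) = 0 := by
    have h0 : MeasurableSet (EM C A) := (hM C A hm).1
    rw [mP.measure_preimage h0.nullMeasurableSet]
    exact h1
  have hae : ∀ᵐ z ∂muY, z ∈ EP C A → z ∈ pMap F ⁻¹' (EM C A) := by
    have b1 := ae_not_Bad hB
    have b2 := mP.quasiMeasurePreserving.ae b1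
    have b3 := mP.quasiMeasurePreserving.ae ae_Dom
    filter_upwards [b1, b2, b3] with z c1 c2 c3 hz
    exact ⟨c3.2.2, c2, (hP C F G hD A hA z hz.1 c1 c2).1 hz.2.2⟩
  have h2 : muY (EP C A) ≤ muY (pMap F ⁻¹' (EM C A)) := measure_mono_ae hae
  rw [hpre] at h2
  exact le_antisymm h2 zero_le

end GeomM

open GeomM Set Real MeasureTheory Dyn

theorem specGEOM (hP : SpecLINKP) (hQ : SpecLINKQ) (hC : SpecCOV) (hS : SpecSMP) (hL : SpecLNUL) 
    (hDeg : SpecDEG) (hB : SpecBAD) (hM : SpecMEAS) : SpecGEOM := by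
  intro C F G hD mP mQ A hm hA
  have key : ∀ A' : Set (R3 × R3), MeasurableSet A' → InvariantArc C.metric A' → 
      muY (EM C A') = 0 → liouville C.metric A' = 0 := fun A' hm' hA' h => 
    null_of_EM hC hS hL hDeg hB hm' hA' h (EP_null hP hB hM hD mP hm' hA' h)
  refine ⟨EM C A, (hM C A hm).1, ?_, key A hm hA, ?_⟩
  · have b1 := ae_not_Bad hB
    have b2 := mQ.quasiMeasurePreserving.ae b1
    have b3 := mQ.quasiMeasurePreserving.ae ae_Dom
    have mT := mP.comp mQ
    have b4 := mT.quasiMeasurePreserving.ae b1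
    have b5 := mT.quasiMeasurePreserving.ae ae_Dom
    filter_upwards [b1, b2, b3, b4, b5, ae_Dom] with z c1 c2 c3 c4 c5 c6
    apply propext
    show tMap (5 / 13) F G z ∈ EM C A ↔ z ∈ EM C A
    have e1 : tMap (5 / 13) F G z = pMap F (qMap (5 / 13) G z) := rfl
    have l1 := vM_iff_vPl hQ hD hA c6.2.2 c1 c2
    have l2 := hP C F G hD A hA _ c3.2.2 c2 c4
    rw [e1]
    constructor
    · intro h
      exact ⟨c6.2.2, c1, l1.2 (l2.2 h.2.2)⟩
    · intro h
      exact ⟨c5.2.2, c4, l2.1 (l1.1 h.2.2)⟩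
  · intro h
    refine key Aᶜ hm.compl (invArc_compl hA) ?_
    refine measure_mono_null ?_ h
    intro z hz hz2
    exact hz.2.2 hz2.2.2

end Pool.Agent.Lib.MP_d2b992_gt.Erg
end

section
/-!
# The explicit geodesics where `psi = 1` are great circles
-/
set_option autoImplicit false

namespace Pool.Agent.Lib.MP_d2b992_gt.Erg

open Set Real MeasureTheory

namespace KthM

theorem sq_lt {c : ℝ} (h : |c| < 1) : c ^ 2 < 1 := (sq_lt_one_iff_abs_lt_one c).2 h

/-- A function with vanishing derivative on `uIcc 0 τ`. -/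
theorem const_of {f : ℝ → ℝ} {τ : ℝ} (h : ∀ s ∈ uIcc 0 τ, HasDerivAt f 0 s) : f τ = f 0 := by
  have h1 := (convex_uIcc (0 : ℝ) τ).norm_image_sub_le_of_norm_hasDerivWithin_le (f := f)
    (f' := fun _ => (0 : ℝ)) (C := 0) (x := 0) (y := τ)
    (fun s hs => (h s hs).hasDerivWithinAt) (fun s _ => by simp) left_mem_uIcc right_mem_uIcc
  rw [zero_mul] at h1
  have h2 := norm_le_zero_iff.1 h1
  linarith

theorem abs_le_of_mem {s τ : ℝ} (h : s ∈ uIcc 0 τ) : |s| ≤ |τ| := by
  rcases le_total 0 τ with h0 | h0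
  · rw [uIcc_of_le h0] at h
    rw [abs_of_nonneg h.1, abs_of_nonneg h0]
    exact h.2
  · rw [uIcc_of_ge h0] at h
    rw [abs_of_nonpos h.2, abs_of_nonpos h0]
    linarith [h.1]

theorem sin_sq_le {s τ : ℝ} (h : |s| ≤ |τ|) (hτ : |τ| ≤ π / 2) : sin s ^ 2 ≤ sin τ ^ 2 := by
  have e : ∀ x : ℝ, sin x ^ 2 = sin |x| ^ 2 := by
    intro x
    rcases abs_choice x with hx | hx
    · rw [hx]
    · rw [hx, sin_neg, neg_sq]
  rw [e s, e τ]
  have h1 : sin |s| ≤ sin |τ| := by
    apply sin_le_sin_of_le_of_le_pi_div_two _ hτ h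
    linarith [abs_nonneg s, pi_pos]
  have h2 : 0 ≤ sin |s| := by
    apply sin_nonneg_of_nonneg_of_le_pi (abs_nonneg s)
    linarith [pi_pos]
  nlinarith

theorem psi_one (K : Cap) {c : ℝ} (hc0 : c ≠ 0) (hc1 : c ^ 2 < 1) {s : ℝ}
    (h : (1 - c ^ 2) * sin s ^ 2 ≤ 1 - K.a ^ 2) : K.psi (phc c s) = 1 := by
  apply K.psi_eq_one
  rw [sin_phc_sq hc0 hc1]
  linarith

theorem good_of (K : Cap) {c : ℝ} (hc1 : c ^ 2 < 1) {τ : ℝ}
    (h : K.a ≤ |c| ∨ |τ| ≤ π / 2 ∧ (1 - c ^ 2) * sin τ ^ 2 ≤ 1 - K.a ^ 2) {s : ℝ}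
    (hs : s ∈ uIcc 0 τ) : (1 - c ^ 2) * sin s ^ 2 ≤ 1 - K.a ^ 2 := by
  rcases h with h | ⟨h1, h2⟩
  · have h3 : K.a ^ 2 ≤ c ^ 2 := by
      rw [← sq_abs c]
      have := K.a_pos
      nlinarith
    have h4 := sin_sq_le_one s
    nlinarith
  · have h3 := sin_sq_le (abs_le_of_mem hs) h1
    nlinarith

theorem sin_phc_deriv {c : ℝ} (hc0 : c ≠ 0) (hc1 : c ^ 2 < 1) (s : ℝ) :
    HasDerivAt (fun s => sin (phc c s)) (-((1 - c ^ 2) * sin s * cos s) / sin (phc c s)) s := by
  have h1 : HasDerivAt (fun s => sin (phc c s)) (cos (phc c s) * dphc c s) s :=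
    (hasDerivAt_sin (phc c s)).comp s (hasDerivAt_phc hc0 hc1 s)
  refine h1.congr_deriv ?_
  rw [cos_phc hc0 hc1]
  unfold dphc
  have h2 : √(1 - c ^ 2) * √(1 - c ^ 2) = 1 - c ^ 2 := mul_self_sqrt (by linarith)
  have h3 := (sin_phc_pos hc0 hc1 s).ne'
  field_simp
  linear_combination (-(sin s) * cos s) * h2

/-- Where `psi = 1` the developed point moves on a great circle. -/
theorem developed (K : Cap) {c : ℝ} (hc0 : c ≠ 0) (hc1 : c ^ 2 < 1) {τ : ℝ}
    (h : ∀ s ∈ uIcc 0 τ, K.psi (phc c s) = 1) :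
    sin (phc c τ) * cos (K.th c 0 τ) = cos τ ∧ sin (phc c τ) * sin (K.th c 0 τ) = c * sin τ := by
  have hr := fun s => (sin_phc_pos hc0 hc1 s).ne'
  have hη : ∀ s ∈ uIcc 0 τ, HasDerivAt (K.th c 0) (c / sin (phc c s) ^ 2) s := by
    intro s hs
    have h1 := K.hasDerivAt_th hc0 hc1 0 s
    rwa [h s hs, one_mul] at h1
  have key : ∀ s, sin (phc c s) ^ 2 = 1 - (1 - c ^ 2) * sin s ^ 2 := sin_phc_sq hc0 hc1
  -- the two constant functions
  have hU : (cos τ * sin (K.th c 0 τ) - c * sin τ * cos (K.th c 0 τ)) / sin (phc c τ) = 0 := by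
    have h1 := const_of (f := fun s => (cos s * sin (K.th c 0 s) - c * sin s * cos (K.th c 0 s)) /
      sin (phc c s)) (τ := τ) (by
        intro s hs
        have hs' := hη s hs
        have a1 : HasDerivAt (fun s => sin (K.th c 0 s)) (cos (K.th c 0 s) *
          (c / sin (phc c s) ^ 2)) s := (hasDerivAt_sin _).comp s hs'
        have a2 : HasDerivAt (fun s => cos (K.th c 0 s)) (-sin (K.th c 0 s) *
          (c / sin (phc c s) ^ 2)) s := (hasDerivAt_cos _).comp s hs'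
        have a3 := (((hasDerivAt_cos s).mul a1).sub (((hasDerivAt_sin s).const_mul c).mul a2)).div
          (sin_phc_deriv hc0 hc1 s) (hr s)
        refine a3.congr_deriv ?_
        have hk := key s
        have hcs := sin_sq_add_cos_sq s
        have hr' := hr s
        simp only [Pi.mul_apply, Pi.sub_apply]
        rw [div_eq_zero_iff]
        left
        field_simp
        set S := sin (K.th c 0 s)
        set T := cos (K.th c 0 s)
        set r := sin (phc c s)
        set p := sin s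
        set q := cos s
        linear_combination (-(p * S) - c * q * T) * hk + (p * S * (1 - c ^ 2)) * hcs)
    rw [h1]
    simp [Cap.th]
  have hV : (cos τ * cos (K.th c 0 τ) + c * sin τ * sin (K.th c 0 τ)) / sin (phc c τ) = 1 := by
    have h1 := const_of (f := fun s => (cos s * cos (K.th c 0 s) + c * sin s * sin (K.th c 0 s)) /
      sin (phc c s)) (τ := τ) (by
        intro s hs
        have hs' := hη s hs
        have a1 : HasDerivAt (fun s => sin (K.th c 0 s)) (cos (K.th c 0 s) *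
          (c / sin (phc c s) ^ 2)) s := (hasDerivAt_sin _).comp s hs'
        have a2 : HasDerivAt (fun s => cos (K.th c 0 s)) (-sin (K.th c 0 s) *
          (c / sin (phc c s) ^ 2)) s := (hasDerivAt_cos _).comp s hs'
        have a3 := (((hasDerivAt_cos s).mul a2).add (((hasDerivAt_sin s).const_mul c).mul a1)).div
          (sin_phc_deriv hc0 hc1 s) (hr s)
        refine a3.congr_deriv ?_
        have hk := key s
        have hcs := sin_sq_add_cos_sq s
        have hr' := hr s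
        simp only [Pi.mul_apply, Pi.add_apply]
        rw [div_eq_zero_iff]
        left
        field_simp
        set S := sin (K.th c 0 s)
        set T := cos (K.th c 0 s)
        set r := sin (phc c s)
        set p := sin s
        set q := cos s
        linear_combination (-(p * T) + c * q * S) * hk + (p * T * (1 - c ^ 2)) * hcs)
    rw [h1]
    have h2 : phc c 0 = π / 2 := by simp [phc]
    simp [Cap.th, h2]
  rw [div_eq_iff (hr τ)] at hU hV
  have h3 := sin_sq_add_cos_sq (K.th c 0 τ)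
  set S := sin (K.th c 0 τ)
  set T := cos (K.th c 0 τ)
  constructor
  · linear_combination -T * hV - S * hU + cos τ * h3
  · linear_combination -S * hV + T * hU + c * sin τ * h3

theorem th_add (K : Cap) (c Θ τ : ℝ) : K.th c Θ τ = Θ + K.th c 0 τ := by
  simp [Cap.th]

theorem phc_neg (c s : ℝ) : phc c (-s) = π - phc c s := by
  unfold phc
  rw [sin_neg, mul_neg, arccos_neg]

theorem phc_add_pi (c s : ℝ) : phc c (s + π) = π - phc c s := by
  unfold phc
  rw [sin_add_pi, mul_neg, arccos_neg]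

theorem phc_negc (c s : ℝ) : phc (-c) s = phc c s := by
  unfold phc
  rw [neg_sq]

/-- The integrand of `th`. -/
noncomputable def it (K : Cap) (c s : ℝ) : ℝ :=
  K.psi (phc c s) * (c / (1 - (1 - c ^ 2) * sin s ^ 2))

theorem th_eq (K : Cap) (c Θ τ : ℝ) : K.th c Θ τ = Θ + ∫ s in (0 : ℝ)..τ, it K c s := rfl

theorem it_neg (K : Cap) (c s : ℝ) : it K c (-s) = it K c s := by
  unfold it
  rw [phc_neg, K.psi_pi_sub, sin_neg, neg_sq]

theorem it_add_pi (K : Cap) (c s : ℝ) : it K c (s + π) = it K c s := by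
  unfold it
  rw [phc_add_pi, K.psi_pi_sub, sin_add_pi, neg_sq]

theorem it_negc (K : Cap) (c s : ℝ) : it K (-c) s = -it K c s := by
  unfold it
  rw [phc_negc, neg_sq, neg_div, mul_neg]

theorem it_int (K : Cap) {c : ℝ} (hc0 : c ≠ 0) (hc1 : c ^ 2 < 1) (x y : ℝ) :
    IntervalIntegrable (it K c) volume x y := (K.cont_th hc0 hc1).intervalIntegrable _ _

end KthM

open KthM

theorem specKTH : SpecKTH := by
  intro K c hc0 hc1'
  have hc1 := sq_lt hc1'
  refine ⟨?_, ?_, ?_, fun Θ τ => th_add K c Θ τ, ?_, ?_, ?_⟩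
  · -- (1)
    intro Θ τ hτ h
    have h1 := const_of (f := fun s => K.th c Θ s - arctan (c * tan s)) (τ := τ) (by
      intro s hs
      have g := good_of K hc1 (Or.inr ⟨hτ.le, h⟩) hs
      have a1 := K.hasDerivAt_th hc0 hc1 Θ s
      rw [psi_one K hc0 hc1 g, one_mul] at a1
      have hs' : |s| < π / 2 := (abs_le_of_mem hs).trans_lt hτ
      have hcos : 0 < cos s := cos_pos_of_mem_Ioo (abs_lt.1 hs')
      have a2 : HasDerivAt (fun s => arctan (c * tan s))
          (1 / (1 + (c * tan s) ^ 2) * (c * (1 / cos s ^ 2))) s :=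
        (hasDerivAt_arctan _).comp s ((hasDerivAt_tan hcos.ne').const_mul c)
      refine (a1.sub a2).congr_deriv ?_
      rw [sub_eq_zero, sin_phc_sq hc0 hc1, tan_eq_sin_div_cos]
      have h2 : 1 - (1 - c ^ 2) * sin s ^ 2 = cos s ^ 2 + c ^ 2 * sin s ^ 2 := by
        linear_combination -sin_sq_add_cos_sq s
      rw [h2]
      have h3 : 0 < cos s ^ 2 + c ^ 2 * sin s ^ 2 := by positivity
      field_simp)
    simp only [Cap.th] at h1 ⊢
    simp only [intervalIntegral.integral_same, tan_zero, mul_zero, arctan_zero] at h1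
    linarith
  · -- (2)
    intro Θ τ
    rw [KW, th_eq, th_eq, th_eq,
      ← intervalIntegral.integral_add_adjacent_intervals (it_int K hc0 hc1 0 π)
        (it_int K hc0 hc1 π (π + τ))]
    have h1 : ∫ s in (0 : ℝ)..τ, it K c (s + π) = ∫ s in π..(π + τ), it K c s := by
      rw [intervalIntegral.integral_comp_add_right (fun s => it K c s) π, zero_add, add_comm τ π]
    simp only [it_add_pi] at h1
    rw [← h1]
    ring
  · -- (3)
    intro Θ τ
    have h1 : ∀ Θ τ, K.th (-c) (-Θ) τ = -K.th c Θ τ := by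
      intro Θ τ
      rw [th_eq, th_eq]
      simp only [it_negc, intervalIntegral.integral_neg]
      ring
    refine ⟨h1 Θ τ, ?_, ?_⟩
    · rw [th_eq, th_eq]
      have h2 : ∫ s in (0 : ℝ)..(-τ), it K c s = -∫ s in (0 : ℝ)..τ, it K c s := by
        have h3 := intervalIntegral.integral_comp_neg (fun s => it K c s) (a := 0) (b := τ)
        simp only [it_neg, neg_zero] at h3
        rw [h3, intervalIntegral.integral_symm]
      rw [h2]
      ring
    · have := h1 0 π
      rw [neg_zero] at this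
      exact this
  · -- (5)
    intro Θ τ h
    obtain ⟨h1, h2⟩ := developed K hc0 hc1 (τ := τ)
      (fun s hs => psi_one K hc0 hc1 (good_of K hc1 h hs))
    rw [th_add, cos_add, sin_add, xK]
    constructor
    · linear_combination cos Θ * h1 - sin Θ * h2
    · linear_combination sin Θ * h1 + cos Θ * h2
  · -- (6)
    intro Θ
    exact (K.contDiff_th hc0 hc1 Θ).continuous
  · -- (7)
    intro τ
    exact ⟨cos_phc hc0 hc1 τ, phc_mem hc0 hc1 τ, sin_phc_sq hc0 hc1 τ⟩

end Pool.Agent.Lib.MP_d2b992_gt.Erg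
end

section
set_option autoImplicit false

/-!
Module LINKP: the base vectors of `z` after the `Q`-event and of `P z` before it are on one explicit
geodesic of the first chart.
-/

namespace Pool.Agent.Lib.MP_d2b992_gt.Erg

open Set Real MeasureTheory Dyn
open scoped ContDiff InnerProductSpace

namespace LINKPM

theorem red_eq (Θ : ℝ) : ∃ k : ℤ, red Θ = Θ + k * (4 * π) := by
  refine ⟨-(toIcoDiv four_pi_pos (-(π / 2)) Θ), ?_⟩
  unfold red
  rw [toIcoMod, zsmul_eq_mul]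
  push_cast
  ring

/-- The angle of the state after `P`. -/
theorem pMap_fst (C : Caps) (F G : ℝ → ℝ) (hD : Defl C F G) (z : St) (hc : |z.2| < 1)
    (hc0 : z.2 ≠ 0) : ∃ k : ℤ, (pMap F z).1 = -z.1 - KW C.P z.2 + k * (4 * π) := by
  obtain ⟨k, hk⟩ := red_eq (π - z.1 - F z.2)
  have h := abs_lt.1 hc
  rcases hc0.lt_or_gt with hneg | hpos
  · refine ⟨k, ?_⟩
    rw [hD.P_neg _ h.1 hneg]
    show red (π - z.1 - F z.2) = _
    rw [hk]
    ring
  · refine ⟨k + 1, ?_⟩
    rw [hD.P_pos _ hpos h.2]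
    show red (π - z.1 - F z.2) = _
    rw [hk]
    push_cast
    ring

theorem cos_per (x : ℝ) (k : ℤ) : cos (x + k * (4 * π)) = cos x := by
  have : x + k * (4 * π) = x + ((2 * k : ℤ) : ℝ) * (2 * π) := by push_cast; ring
  rw [this, Real.cos_add_int_mul_two_pi]

theorem sin_per (x : ℝ) (k : ℤ) : sin (x + k * (4 * π)) = sin x := by
  have : x + k * (4 * π) = x + ((2 * k : ℤ) : ℝ) * (2 * π) := by push_cast; ring
  rw [this, Real.sin_add_int_mul_two_pi]

theorem tau3_neg (c : ℝ) : tau3 (-c) = tau3 c := by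
  unfold tau3
  rw [neg_sq]

theorem cos_lt_of {σ t : ℝ} (h0 : 0 ≤ σ) (h1 : σ < t) (h2 : t ≤ π) : cos t < cos σ :=
  Real.cos_lt_cos_of_nonneg_of_le_pi h0 h2 h1

theorem sqrt_pos_of {x : ℝ} (h : |x| < 1) : 0 < √(1 - x ^ 2) := by
  apply Real.sqrt_pos.2
  have : x ^ 2 < 1 := by
    rw [← sq_abs]
    nlinarith [abs_nonneg x]
  linarith

/-- Near states which do not meet the cap `q`. -/
theorem xK_far_q {x : ℝ} (h : 5 / 13 < |x|) (t : ℝ) : √(1 - x ^ 2) * cos t < 12 / 13 := by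
  have h1 : √(1 - x ^ 2) < 12 / 13 := by
    rw [Real.sqrt_lt' (by norm_num)]
    have : (5 / 13 : ℝ) ^ 2 < x ^ 2 := by
      rw [← sq_abs x]
      exact pow_lt_pow_left₀ h (by norm_num) two_ne_zero
    linarith
  calc √(1 - x ^ 2) * cos t ≤ √(1 - x ^ 2) * 1 :=
        mul_le_mul_of_nonneg_left (Real.cos_le_one t) (Real.sqrt_nonneg _)
    _ < 12 / 13 := by rw [mul_one]; exact h1

/-- After the `Q`-event, `|c| < 12/13`. -/
theorem after (hTRI : SpecTRI) (z : St) (hc : |z.2| < 1) (hb : z ∉ Bad) (hlt : |z.2| < 12 / 13) :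
    ∃ l : ℝ, -tau3 z.2 ≤ l ∧ l < tauP z ∧ tauP z < tau3 z.2 ∧
      ∀ τ, l < τ → τ ≤ tau3 z.2 → xK z.1 z.2 τ < 12 / 13 := by
  obtain ⟨h1, -, h3, h4, h5, h6, h7, -⟩ := hTRI z hc
  obtain ⟨p1, p2, -, -⟩ := h6 hlt
  have h3' := abs_lt.1 h3
  have hb1 : cos z.1 ≠ 0 := fun h => hb (Or.inr (Or.inr (Or.inr (Or.inr (Or.inl h)))))
  have hb2 : |xx z| ≠ 5 / 13 := fun h => hb (Or.inr (Or.inr (Or.inr (Or.inl h))))
  by_cases hq : inQ z
  · obtain ⟨q1, q2⟩ := h5 hq hb hlt
    obtain ⟨s1, s2, s3⟩ := h7 hq.2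
    have ht3 : t3' z.2 = tau3 z.2 := by
      unfold t3'
      rw [if_pos hlt]
    have hP : tauP z = (tauc z + sigb z + min (tau3 z.2) (tauc z + π / 2)) / 2 := by
      unfold tauP
      rw [if_pos hq, ht3]
    have hmin : tauc z + sigb z < min (tau3 z.2) (tauc z + π / 2) :=
      lt_min q1 (by linarith)
    have hmin2 : min (tau3 z.2) (tauc z + π / 2) ≤ tau3 z.2 := min_le_left _ _
    refine ⟨tauc z + sigb z, by linarith, by rw [hP]; linarith, by rw [hP]; linarith, ?_⟩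
    intro τ hl hr
    rw [h1 hq.1, ← s3]
    refine mul_lt_mul_of_pos_left (cos_lt_of s1.le (by linarith) (by linarith)) ?_
    exact sqrt_pos_of (hq.2.trans (by norm_num))
  · have hP : tauP z = 0 := by
      unfold tauP
      rw [if_neg hq, if_pos hlt]
    refine ⟨-tau3 z.2, le_refl _, by rw [hP]; linarith, by rw [hP]; exact p1, ?_⟩
    intro τ hl hr
    rcases lt_or_gt_of_ne hb1 with hn | hp
    · exact h4 hn hlt τ (abs_le.2 ⟨hl.le, hr⟩)
    · rw [h1 hp]
      have hx : 5 / 13 < |xx z| := by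
        refine lt_of_le_of_ne (not_lt.1 fun h => hq ⟨hp, h⟩) (Ne.symm hb2)
      exact xK_far_q hx _

/-- Before the `Q`-event, `|c| < 12/13`. -/
theorem before (hTRI : SpecTRI) (z : St) (hc : |z.2| < 1) (hb : z ∉ Bad)
    (hlt : |z.2| < 12 / 13) :
    ∃ r : ℝ, r ≤ tau3 z.2 ∧ tauM z < r ∧ -tau3 z.2 < tauM z ∧
      ∀ τ, -tau3 z.2 ≤ τ → τ < r → xK z.1 z.2 τ < 12 / 13 := by
  obtain ⟨h1, -, h3, h4, h5, h6, h7, -⟩ := hTRI z hc
  obtain ⟨p1, p2, -, -⟩ := h6 hlt
  have h3' := abs_lt.1 h3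
  have hb1 : cos z.1 ≠ 0 := fun h => hb (Or.inr (Or.inr (Or.inr (Or.inr (Or.inl h)))))
  have hb2 : |xx z| ≠ 5 / 13 := fun h => hb (Or.inr (Or.inr (Or.inr (Or.inl h))))
  by_cases hq : inQ z
  · obtain ⟨q1, q2⟩ := h5 hq hb hlt
    obtain ⟨s1, s2, s3⟩ := h7 hq.2
    have ht3 : t3' z.2 = tau3 z.2 := by
      unfold t3'
      rw [if_pos hlt]
    have hP : tauM z = (tauc z - sigb z + max (-tau3 z.2) (tauc z - π / 2)) / 2 := by
      unfold tauM
      rw [if_pos hq, ht3]
    have hmax : max (-tau3 z.2) (tauc z - π / 2) < tauc z - sigb z :=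
      max_lt q2 (by linarith)
    have hmax2 : -tau3 z.2 ≤ max (-tau3 z.2) (tauc z - π / 2) := le_max_left _ _
    refine ⟨tauc z - sigb z, by linarith, by rw [hP]; linarith, by rw [hP]; linarith, ?_⟩
    intro τ hl hr
    rw [h1 hq.1, ← s3, ← Real.cos_neg (τ - tauc z)]
    refine mul_lt_mul_of_pos_left (cos_lt_of s1.le (by linarith) (by linarith)) ?_
    exact sqrt_pos_of (hq.2.trans (by norm_num))
  · have hP : tauM z = 0 := by
      unfold tauM
      rw [if_neg hq, if_pos hlt]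
    refine ⟨tau3 z.2, le_refl _, by rw [hP]; exact p1, by rw [hP]; linarith, ?_⟩
    intro τ hl hr
    rcases lt_or_gt_of_ne hb1 with hn | hp
    · exact h4 hn hlt τ (abs_le.2 ⟨hl, hr.le⟩)
    · rw [h1 hp]
      have hx : 5 / 13 < |xx z| := by
        refine lt_of_le_of_ne (not_lt.1 fun h => hq ⟨hp, h⟩) (Ne.symm hb2)
      exact xK_far_q hx _

end LINKPM

open LINKPM in
theorem specLINKP (hPARC : SpecPARC) (hKTH : SpecKTH) (hFOLD : SpecFOLD) (hTRI : SpecTRI) :
    SpecLINKP := by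
  intro C F G hD A hA z hc hb hb'
  set w : St := pMap F z with hw
  have hw2 : w.2 = -z.2 := rfl
  have hc0 : z.2 ≠ 0 := fun h => hb (Or.inl h)
  have hcw : |w.2| < 1 := by rw [hw2, abs_neg]; exact hc
  obtain ⟨k, hk⟩ : ∃ k : ℤ, w.1 = -z.1 - KW C.P z.2 + k * (4 * π) :=
    pMap_fst C F G hD z hc hc0
  have hπ := Real.pi_pos
  obtain ⟨k1, k2, k3, k4, k5, k6, k7⟩ := hKTH C.P z.2 hc0 hc
  -- the base vector of `w` on the geodesic of `z`
  have v2 : vM C w = vecP C z.1 z.2 (π + tauM w) := by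
    unfold vM
    rw [hFOLD.1 C z.2 hc0 hc, hw2, hk]
    exact hFOLD.2.1 C (-z.2) (neg_ne_zero.2 hc0) (by rw [abs_neg]; exact hc) _ _ k
  -- it is enough to find the interval
  suffices h : ∃ l r : ℝ, tauP z ∈ Ioo l r ∧ π + tauM w ∈ Ioo l r ∧
      ∀ τ ∈ Ioo l r, sin (phc z.2 τ) * cos (C.P.th z.2 z.1 τ) < 12 / 13 by
    obtain ⟨l, r, m1, m2, hdom⟩ := h
    have hdom' : ∀ τ ∈ Ioo l r, (phc z.2 τ, C.P.th z.2 z.1 τ) ∈ DomP := fun τ hτ =>
      ⟨(k7 τ).2.1, hdom τ hτ⟩
    rw [v2]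
    unfold vPl
    exact ⟨hPARC C A hA z.2 hc0 hc z.1 l r hdom' _ m1 _ m2,
      hPARC C A hA z.2 hc0 hc z.1 l r hdom' _ m2 _ m1⟩
  have hcne : |z.2| ≠ 12 / 13 := fun h => hb (Or.inr (Or.inl h))
  rcases lt_or_gt_of_ne hcne with hlt | hgt
  · -- the geodesic meets the first cap
    obtain ⟨l, l1, l2, l3, l4⟩ := after hTRI z hc hb hlt
    have hltw : |w.2| < 12 / 13 := by rw [hw2, abs_neg]; exact hlt
    obtain ⟨r, r1, r2, r3, r4⟩ := before hTRI w hcw hb' hltw
    rw [hw2, tau3_neg] at r1 r3 r4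
    obtain ⟨p1, p2, p3, p4⟩ := (hTRI z hc).2.2.2.2.2.1 hlt
    have hsq : 0 < √(1 - z.2 ^ 2) := sqrt_pos_of hc
    -- the size of `(1 - c²) sin² τ` near the seam
    have hsmall : ∀ τ, |τ| ≤ tau3 z.2 → (1 - z.2 ^ 2) * sin τ ^ 2 ≤ 1 - C.P.a ^ 2 := by
      intro τ hτ
      have e : (1 - z.2 ^ 2) * sin τ ^ 2 = (√(1 - z.2 ^ 2) * sin τ) ^ 2 := by
        rw [mul_pow, Real.sq_sqrt (Real.sqrt_pos.1 hsq).le]
      have hs : |sin τ| ≤ sin (tau3 z.2) := by
        rw [abs_le]
        have h := abs_le.1 hτ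
        constructor
        · rw [← Real.sin_neg]
          exact Real.sin_le_sin_of_le_of_le_pi_div_two (by linarith) (by linarith) h.1
        · exact Real.sin_le_sin_of_le_of_le_pi_div_two (by linarith) (by linarith) h.2
      have h2 : |√(1 - z.2 ^ 2) * sin τ| ≤ 5 / 13 := by
        rw [abs_mul, abs_of_pos hsq, ← p3]
        exact mul_le_mul_of_nonneg_left hs hsq.le
      rw [e, C.Pa, ← sq_abs]
      have h3 := abs_nonneg (√(1 - z.2 ^ 2) * sin τ)
      nlinarith
    refine ⟨l, π + r, ⟨l2, by linarith⟩, ⟨by linarith, by linarith⟩, ?_⟩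
    intro τ hτ
    rcases le_or_gt τ (tau3 z.2) with h1 | h1
    · -- before the cap
      have hab : |τ| ≤ tau3 z.2 := abs_le.2 ⟨l1.trans hτ.1.le, h1⟩
      rw [(k5 z.1 τ (Or.inr ⟨hab.trans p2.le, hsmall τ hab⟩)).1]
      exact l4 τ hτ.1 h1
    · rcases lt_or_ge τ (π - tau3 z.2) with h2 | h2
      · -- in the cap
        obtain ⟨-, c2, c3⟩ := k7 τ
        have hs : sin (tau3 z.2) < sin τ := by
          rcases le_or_gt τ (π / 2) with h3 | h3
          · exact Real.sin_lt_sin_of_lt_of_le_pi_div_two (by linarith) h3 h1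
          · rw [← Real.sin_pi_sub τ]
            exact Real.sin_lt_sin_of_lt_of_le_pi_div_two (by linarith) (by linarith) (by linarith)
        have h4 : 5 / 13 < √(1 - z.2 ^ 2) * sin τ := by
          rw [← p3]
          exact mul_lt_mul_of_pos_left hs hsq
        have e : (1 - z.2 ^ 2) * sin τ ^ 2 = (√(1 - z.2 ^ 2) * sin τ) ^ 2 := by
          rw [mul_pow, Real.sq_sqrt (Real.sqrt_pos.1 hsq).le]
        have hsp : 0 < sin (phc z.2 τ) := Real.sin_pos_of_pos_of_lt_pi c2.1 c2.2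
        have h5 : sin (phc z.2 τ) < 12 / 13 := by
          rw [← sq_lt_sq₀ hsp.le (by norm_num), c3, e]
          nlinarith
        calc sin (phc z.2 τ) * cos (C.P.th z.2 z.1 τ) ≤ sin (phc z.2 τ) * 1 :=
              mul_le_mul_of_nonneg_left (Real.cos_le_one _) hsp.le
          _ < 12 / 13 := by rw [mul_one]; exact h5
      · -- after the cap
        set τ' : ℝ := τ - π with hτ'
        have hτe : τ = π + τ' := by rw [hτ']; ring
        have ha : -tau3 z.2 ≤ τ' := by linarith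
        have hb2 : τ' < r := by linarith [hτ.2]
        have hab : |τ'| ≤ tau3 z.2 := abs_le.2 ⟨ha, (hb2.trans_le r1).le⟩
        obtain ⟨-, c2, c3⟩ := k7 τ
        obtain ⟨-, d2, d3⟩ := k7 τ'
        have hsq' : sin τ ^ 2 = sin τ' ^ 2 := by
          rw [hτe, Real.sin_add, Real.sin_pi, Real.cos_pi]
          ring
        have hss : sin (phc z.2 τ) = sin (phc z.2 τ') := by
          have p1 : 0 < sin (phc z.2 τ) := Real.sin_pos_of_pos_of_lt_pi c2.1 c2.2
          have p2 : 0 < sin (phc z.2 τ') := Real.sin_pos_of_pos_of_lt_pi d2.1 d2.2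
          rw [← sq_eq_sq₀ p1.le p2.le, c3, d3, hsq']
        have hph : phc z.2 τ' = phc (-z.2) τ' := by
          unfold phc
          rw [neg_sq]
        have hth : cos (C.P.th z.2 z.1 τ) = cos (C.P.th (-z.2) w.1 τ') := by
          have e1 : C.P.th (-z.2) w.1 τ' = -C.P.th z.2 (-w.1) τ' := by
            have := (k3 (-w.1) τ').1
            rwa [neg_neg] at this
          rw [e1, Real.cos_neg, k4 (-w.1) τ', hτe, k2 z.1 τ', hk]
          rw [← cos_per (-(-z.1 - KW C.P z.2 + k * (4 * π)) + C.P.th z.2 0 τ') k]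
          congr 1
          ring
        rw [hss, hth, hph]
        obtain ⟨-, -, -, -, j5, -, -⟩ := hKTH C.P (-z.2) (neg_ne_zero.2 hc0)
          (by rw [abs_neg]; exact hc)
        rw [(j5 w.1 τ' (Or.inr ⟨hab.trans p2.le, by rw [neg_sq]; exact hsmall τ' hab⟩)).1]
        exact r4 τ' ha hb2
  · -- the geodesic stays in the round region
    have hround : ∀ τ, sin (phc z.2 τ) * cos (C.P.th z.2 z.1 τ) = xK z.1 z.2 τ := fun τ =>
      (k5 z.1 τ (Or.inl (by rw [C.Pa]; exact hgt.le))).1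
    -- the half turn
    obtain ⟨m1, m2⟩ := k5 z.1 π (Or.inl (by rw [C.Pa]; exact hgt.le))
    have hs1 : sin (phc z.2 π) = 1 := by
      obtain ⟨-, c2, c3⟩ := k7 π
      rw [Real.sin_pi] at c3
      have p1 : 0 < sin (phc z.2 π) := Real.sin_pos_of_pos_of_lt_pi c2.1 c2.2
      nlinarith
    have hthπ : C.P.th z.2 z.1 π = z.1 + KW C.P z.2 := k4 z.1 π
    rw [hs1, one_mul, hthπ] at m1 m2
    have m1' : cos (z.1 + KW C.P z.2) = -cos z.1 := by
      rw [m1]
      unfold xK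
      rw [Real.cos_pi, Real.sin_pi]
      ring
    have m2' : sin (z.1 + KW C.P z.2) = -sin z.1 := by
      rw [m2, Real.cos_pi, Real.sin_pi]
      ring
    have hcosw : cos w.1 = -cos z.1 := by
      rw [hk, cos_per, ← m1', ← Real.cos_neg]
      congr 1
      ring
    have hsinw : sin w.1 = sin z.1 := by
      rw [hk, sin_per, show -z.1 - KW C.P z.2 = -(z.1 + KW C.P z.2) by ring, Real.sin_neg, m2',
        neg_neg]
    have hxw : xx w = xx z := by
      unfold xx
      rw [hsinw, hw2, neg_sq]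
    have htw : tauc w = tauc z := by
      unfold tauc
      rw [Real.tan_eq_sin_div_cos, Real.tan_eq_sin_div_cos, hsinw, hcosw, hw2]
      congr 2
      rw [div_neg]
      ring
    have hsw : sigb w = sigb z := by
      unfold sigb
      rw [hxw]
    obtain ⟨h1, h2, h3, -, -, -, h7, h8⟩ := hTRI z hc
    have h3' := abs_lt.1 h3
    have hx5 : |xx z| < 5 / 13 := by
      refine lt_of_le_of_ne (h8 hgt.le) fun h => hb (Or.inr (Or.inr (Or.inr (Or.inl h))))
    obtain ⟨s1, s2, s3⟩ := h7 hx5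
    have hsqx : 0 < √(1 - xx z ^ 2) := sqrt_pos_of (hx5.trans (by norm_num))
    have hb1 : cos z.1 ≠ 0 := fun h => hb (Or.inr (Or.inr (Or.inr (Or.inr (Or.inl h)))))
    have hnlt : ¬ |z.2| < 12 / 13 := not_lt.2 hgt.le
    have hnltw : ¬ |w.2| < 12 / 13 := by rw [hw2, abs_neg]; exact hnlt
    have ht3z : t3' z.2 = 2 * π := by
      unfold t3'
      rw [if_neg hnlt]
    have ht3w : t3' w.2 = 2 * π := by
      unfold t3'
      rw [if_neg hnltw]
    rcases lt_or_gt_of_ne hb1 with hn | hp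
    · -- `z` far, `w` near
      have hnq : ¬ inQ z := fun h => absurd h.1 (not_lt.2 hn.le)
      have hqw : inQ w := ⟨by rw [hcosw]; linarith, by rw [hxw]; exact hx5⟩
      have hP : tauP z = tauc z := by
        unfold tauP
        rw [if_neg hnq, if_neg hnlt]
      have hM : tauM w = (tauc z - sigb z + (tauc z - π / 2)) / 2 := by
        unfold tauM
        rw [if_pos hqw, ht3w, htw, hsw, max_eq_right (by linarith)]
      refine ⟨tauc z - (π - sigb z), tauc z + (π - sigb z), ⟨by rw [hP]; linarith,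
        by rw [hP]; linarith⟩, ⟨by rw [hM]; linarith, by rw [hM]; linarith⟩, ?_⟩
      intro τ hτ
      rw [hround, h2 hn, ← s3, ← mul_neg]
      refine mul_lt_mul_of_pos_left ?_ hsqx
      have h4 : cos (π - sigb z) < cos (τ - tauc z) := by
        rw [← Real.cos_abs (τ - tauc z)]
        refine Real.cos_lt_cos_of_nonneg_of_le_pi (abs_nonneg _) (by linarith) ?_
        rw [abs_lt]
        constructor <;> linarith [hτ.1, hτ.2]
      rw [Real.cos_pi_sub] at h4
      linarith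
    · -- `z` near, `w` far
      have hq : inQ z := ⟨hp, hx5⟩
      have hnq : ¬ inQ w := fun h => absurd h.1 (not_lt.2 (by rw [hcosw]; linarith))
      have hP : tauP z = (tauc z + sigb z + (tauc z + π / 2)) / 2 := by
        unfold tauP
        rw [if_pos hq, ht3z, min_eq_right (by linarith)]
      have hM : tauM w = tauc z := by
        unfold tauM
        rw [if_neg hnq, if_neg hnltw, htw]
      refine ⟨tauc z + sigb z, tauc z + (2 * π - sigb z), ⟨by rw [hP]; linarith,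
        by rw [hP]; linarith⟩, ⟨by rw [hM]; linarith, by rw [hM]; linarith⟩, ?_⟩
      intro τ hτ
      rw [hround, h1 hp, ← s3]
      refine mul_lt_mul_of_pos_left ?_ hsqx
      have h4 : cos (τ - tauc z) = -cos (τ - tauc z - π) := by
        rw [Real.cos_sub_pi, neg_neg]
      have h5 : cos (π - sigb z) < cos (τ - tauc z - π) := by
        rw [← Real.cos_abs (τ - tauc z - π)]
        refine Real.cos_lt_cos_of_nonneg_of_le_pi (abs_nonneg _) (by linarith) ?_
        rw [abs_lt]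
        constructor <;> linarith [hτ.1, hτ.2]
      rw [Real.cos_pi_sub] at h5
      linarith

end Pool.Agent.Lib.MP_d2b992_gt.Erg
end

section
set_option autoImplicit false

/-!
Module LINKQ: the base vectors of `z` before the `Q`-event and of `Q z` after it are on one explicit
geodesic of the second chart.
-/

namespace Pool.Agent.Lib.MP_d2b992_gt.Erg

open Set Real MeasureTheory Dyn
open scoped ContDiff InnerProductSpace

namespace LINKQM

theorem sq_lt_one {c : ℝ} (hc : |c| < 1) : c ^ 2 < 1 := by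
  rw [← sq_abs]
  nlinarith [abs_nonneg c]

theorem xx_sq (z : St) (hc : |z.2| < 1) : xx z ^ 2 = (1 - z.2 ^ 2) * sin z.1 ^ 2 := by
  unfold xx
  rw [mul_pow, Real.sq_sqrt (by linarith [sq_lt_one hc])]

theorem one_sub_xx (z : St) (hc : |z.2| < 1) :
    1 - xx z ^ 2 = cos z.1 ^ 2 + z.2 ^ 2 * sin z.1 ^ 2 := by
  rw [xx_sq z hc, Real.sin_sq]
  ring

theorem root_pos (z : St) (hc : |z.2| < 1) (h : 0 < cos z.1) : 0 < √(1 - xx z ^ 2) := by
  apply Real.sqrt_pos.2
  rw [one_sub_xx z hc]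
  positivity

theorem cos_tauc (z : St) (hc : |z.2| < 1) (h : 0 < cos z.1) :
    cos (tauc z) = cos z.1 / √(1 - xx z ^ 2) := by
  have hr := root_pos z hc h
  unfold tauc
  rw [Real.cos_neg, Real.cos_arctan]
  have h1 : 1 + (z.2 * tan z.1) ^ 2 = (1 - xx z ^ 2) / cos z.1 ^ 2 := by
    rw [one_sub_xx z hc, Real.tan_eq_sin_div_cos]
    field_simp
  rw [h1, Real.sqrt_div' _ (by positivity), Real.sqrt_sq h.le]
  field_simp

theorem sin_tauc (z : St) (hc : |z.2| < 1) (h : 0 < cos z.1) :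
    sin (tauc z) = -(z.2 * sin z.1) / √(1 - xx z ^ 2) := by
  have h1 : tan (tauc z) = -(z.2 * tan z.1) := by
    unfold tauc
    rw [Real.tan_neg, Real.tan_arctan]
  have h2 : 0 < cos (tauc z) := by
    unfold tauc
    rw [Real.cos_neg]
    exact Real.cos_arctan_pos _
  have h3 : sin (tauc z) = tan (tauc z) * cos (tauc z) := (Real.tan_mul_cos h2.ne').symm
  rw [h3, h1, cos_tauc z hc h, Real.tan_eq_sin_div_cos]
  have hr := root_pos z hc h
  field_simp

theorem ratio_mem (z : St) (hc : |z.2| < 1) (h : 0 < cos z.1) :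
    (z.2 / √(1 - xx z ^ 2)) ^ 2 + (√(1 - z.2 ^ 2) * cos z.1 / √(1 - xx z ^ 2)) ^ 2 = 1 := by
  have hr := root_pos z hc h
  have hc2 := sq_lt_one hc
  have h0 : (0 : ℝ) ≤ 1 - xx z ^ 2 := by
    rw [one_sub_xx z hc]; positivity
  rw [div_pow, div_pow, mul_pow, Real.sq_sqrt h0, Real.sq_sqrt (by linarith), ← add_div,
    div_eq_one_iff_eq (by rw [one_sub_xx z hc]; positivity), xx_sq z hc, Real.cos_sq']
  ring

theorem sin_Psi (z : St) (hc : |z.2| < 1) (h : 0 < cos z.1) :
    sin (Psi z) = z.2 / √(1 - xx z ^ 2) := by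
  have h1 := ratio_mem z hc h
  have h2 : (z.2 / √(1 - xx z ^ 2)) ^ 2 ≤ 1 := by
    have := sq_nonneg (√(1 - z.2 ^ 2) * cos z.1 / √(1 - xx z ^ 2))
    linarith
  have h3 := abs_le.1 ((sq_le_one_iff_abs_le_one _).1 h2)
  unfold Psi
  rw [Real.sin_pi_sub, Real.sin_arcsin h3.1 h3.2]

theorem cos_Psi (z : St) (hc : |z.2| < 1) (h : 0 < cos z.1) :
    cos (Psi z) = -(√(1 - z.2 ^ 2) * cos z.1 / √(1 - xx z ^ 2)) := by
  have h1 := ratio_mem z hc h
  have hr := root_pos z hc h
  have h2 : 1 - (z.2 / √(1 - xx z ^ 2)) ^ 2 =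
      (√(1 - z.2 ^ 2) * cos z.1 / √(1 - xx z ^ 2)) ^ 2 := by linarith
  unfold Psi
  rw [Real.cos_pi_sub, Real.cos_arcsin, h2, Real.sqrt_sq (by positivity)]

/-- The coordinate `p` along the great circle, in the second chart. -/
theorem xK_Psi (z : St) (hc : |z.2| < 1) (h : 0 < cos z.1) (τ : ℝ) :
    xK (Psi z) (xx z) τ = √(1 - z.2 ^ 2) * sin (τ + tauc z - π / 2) := by
  have hr := root_pos z hc h
  unfold xK
  rw [sin_Psi z hc h, cos_Psi z hc h, Real.sin_sub_pi_div_two, Real.cos_add, cos_tauc z hc h,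
    sin_tauc z hc h]
  have : xx z = √(1 - z.2 ^ 2) * sin z.1 := rfl
  field_simp
  rw [this]
  ring

/-- The first coordinate is small outside of the first cap. -/
theorem small (hTRI : SpecTRI) (z : St) (hc : |z.2| < 1) (hb : z ∉ Bad) {τ : ℝ}
    (h : |z.2| < 12 / 13 → |τ| < tau3 z.2) : |√(1 - z.2 ^ 2) * sin τ| < 5 / 13 := by
  have hc2 := sq_lt_one hc
  by_cases hlt : |z.2| < 12 / 13
  · obtain ⟨-, h2, -, h4⟩ := (hTRI z hc).2.2.2.2.2.1 hlt
    have h5 := (h4 τ ((h hlt).le.trans h2.le)).2 (h hlt)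
    rw [← sq_lt_sq₀ (abs_nonneg _) (by norm_num), sq_abs, mul_pow, Real.sq_sqrt (by linarith)]
    exact h5
  · have h1 : |z.2| ≠ 12 / 13 := fun h1 => hb (Or.inr (Or.inl h1))
    have h2 : 12 / 13 < |z.2| := lt_of_le_of_ne (not_lt.1 hlt) (Ne.symm h1)
    have h3 : (12 / 13 : ℝ) ^ 2 < z.2 ^ 2 := by
      rw [← sq_abs z.2]
      exact pow_lt_pow_left₀ h2 (by norm_num) two_ne_zero
    rw [abs_mul, abs_of_nonneg (Real.sqrt_nonneg _)]
    have h4 : √(1 - z.2 ^ 2) < 5 / 13 := by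
      rw [Real.sqrt_lt' (by norm_num)]
      linarith
    calc √(1 - z.2 ^ 2) * |sin τ| ≤ √(1 - z.2 ^ 2) * 1 :=
          mul_le_mul_of_nonneg_left (Real.abs_sin_le_one τ) (Real.sqrt_nonneg _)
      _ < 5 / 13 := by rw [mul_one]; exact h4

/-- Left end of the interval of parameters. -/
noncomputable def LEnd (z : St) : ℝ := max (-t3' z.2) (tauc z - π / 2)

/-- Right end of the interval of parameters. -/
noncomputable def REnd (z : St) : ℝ := min (t3' z.2) (tauc z + π / 2)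

theorem ends (hTRI : SpecTRI) (z : St) (hc : |z.2| < 1) (hq : inQ z) (hb : z ∉ Bad) :
    LEnd z < tauc z - sigb z ∧ tauc z + sigb z < REnd z ∧ 0 < sigb z ∧ sigb z < π / 2 ∧
      (∀ τ, LEnd z < τ → τ < REnd z → |z.2| < 12 / 13 → |τ| < tau3 z.2) := by
  obtain ⟨-, -, h3, -, h5, -, h7, -⟩ := hTRI z hc
  obtain ⟨s1, s2, -⟩ := h7 hq.2
  have h3' := abs_lt.1 h3
  have hπ := Real.pi_pos
  refine ⟨?_, ?_, s1, s2, ?_⟩
  · refine max_lt ?_ (by linarith)
    unfold t3'
    split_ifs with h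
    · exact (h5 hq hb h).2
    · linarith
  · refine lt_min ?_ (by linarith)
    unfold t3'
    split_ifs with h
    · exact (h5 hq hb h).1
    · linarith
  · intro τ h1 h2 h
    have h4 : -t3' z.2 < τ := (le_max_left _ _).trans_lt h1
    have h6 : τ < t3' z.2 := h2.trans_le (min_le_left _ _)
    unfold t3' at h4 h6
    rw [if_pos h] at h4 h6
    exact abs_lt.2 ⟨h4, h6⟩

theorem tauM_eq (z : St) (hq : inQ z) : tauM z = (tauc z - sigb z + LEnd z) / 2 := by
  unfold tauM LEnd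
  rw [if_pos hq]

theorem tauP_eq (z : St) (hq : inQ z) : tauP z = (tauc z + sigb z + REnd z) / 2 := by
  unfold tauP REnd
  rw [if_pos hq]

/-- Inside of the cap. -/
theorem in_cap (hKTH : SpecKTH) (K : Cap) (x : ℝ) (hx0 : x ≠ 0) (hx1 : |x| < 1) (τ : ℝ)
    (h : (12 / 13) ^ 2 < (1 - x ^ 2) * sin τ ^ 2) (Ψ : ℝ) :
    |sin (phc x τ) * cos (K.th x Ψ τ)| < 5 / 13 := by
  obtain ⟨-, h2, h3⟩ := (hKTH K x hx0 hx1).2.2.2.2.2.2 τ
  have hs : 0 < sin (phc x τ) := Real.sin_pos_of_pos_of_lt_pi h2.1 h2.2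
  have h4 : sin (phc x τ) < 5 / 13 := by
    rw [← sq_lt_sq₀ hs.le (by norm_num), h3]
    linarith
  rw [abs_mul, abs_of_pos hs]
  calc sin (phc x τ) * |cos (K.th x Ψ τ)| ≤ sin (phc x τ) * 1 :=
        mul_le_mul_of_nonneg_left (Real.abs_cos_le_one _) hs.le
    _ < 5 / 13 := by rw [mul_one]; exact h4

end LINKQM

open LINKQM in
theorem specLINKQ (hQARC : SpecQARC) (hKTH : SpecKTH) (hTRI : SpecTRI) (hTRV : SpecTRV)
    (hQKICK : SpecQKICK) : SpecLINKQ := by
  intro C F G hD A hA z hc hq hb hb'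
  obtain ⟨e1, e2, hq', hc', k, hk⟩ := hQKICK G z hc hq hb hb'
  set w : St := qMap (5 / 13) G z with hw
  have hx0 : xx z ≠ 0 := fun h => hb (Or.inr (Or.inr (Or.inl h)))
  have hx5 : |xx z| < 5 / 13 := hq.2
  have hx1 : |xx z| < 1 := hx5.trans (by norm_num)
  have hπ := Real.pi_pos
  -- the angle after the cap
  obtain ⟨k', hk'⟩ : ∃ k : ℤ, Psi z + KW C.Q (xx z) = Psi w + k * π := by
    rcases hx0.lt_or_gt with hneg | hpos
    · refine ⟨k - 1, ?_⟩
      rw [hD.Q_neg _ (abs_lt.1 hx1).1 hneg]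
      push_cast
      linarith
    · exact ⟨k, by rw [hD.Q_pos _ hpos (abs_lt.1 hx1).2]; exact hk⟩
  have hsig : sigb w = sigb z := by unfold sigb; rw [e1]
  obtain ⟨L1, R1, s0, s1, B1⟩ := ends hTRI z hc hq hb
  obtain ⟨L2, R2, -, -, B2⟩ := ends hTRI w hc' hq' hb'
  rw [hsig] at L2 R2
  have tz := abs_lt.1 (hTRI z hc).2.2.1
  have tw := abs_lt.1 (hTRI w hc').2.2.1
  have hLz : tauc z - π / 2 ≤ LEnd z := le_max_right _ _
  have hRw : REnd w ≤ tauc w + π / 2 := min_le_right _ _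
  have hLz' : |z.2| < 12 / 13 → -tau3 z.2 ≤ LEnd z := by
    intro h
    have : -t3' z.2 ≤ LEnd z := le_max_left _ _
    unfold t3' at this
    rwa [if_pos h] at this
  have hRw' : |w.2| < 12 / 13 → REnd w ≤ tau3 w.2 := by
    intro h
    have : REnd w ≤ t3' w.2 := min_le_left _ _
    unfold t3' at this
    rwa [if_pos h] at this
  -- the two base vectors in the second chart
  have v1 : vM C z = vecQ C (esgn z) (Psi z) (xx z) (tauM z - tauc z + π / 2) := by
    unfold vM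
    rw [tauM_eq z hq]
    refine (hTRV C z hc hq hb).1 _ (by linarith) (by linarith) fun h => ?_
    have := hLz' h
    linarith
  have v2 : vPl C w = vecQ C (esgn z) (Psi z) (xx z) (tauP w - tauc w + π / 2) := by
    unfold vPl
    rw [tauP_eq w hq', ← e2, ← e1]
    refine (hTRV C w hc' hq' hb').2 _ ⟨k', by rw [e1]; exact hk'⟩ _
      (by linarith) (by linarith) fun h => ?_
    have := hRw' h
    linarith
  -- the interval
  set l : ℝ := LEnd z - tauc z + π / 2 with hl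
  set r : ℝ := REnd w - tauc w + π / 2 with hr
  have hl0 : 0 ≤ l := by linarith
  have hrπ : r ≤ π := by linarith
  have hsg : √(1 - xx z ^ 2) * cos (sigb z) = 12 / 13 := ((hTRI z hc).2.2.2.2.2.2.1 hx5).2.2
  have h1x : 0 ≤ 1 - xx z ^ 2 := by linarith [sq_lt_one hx1]
  have h1x' : 0 < √(1 - xx z ^ 2) := Real.sqrt_pos.2 (by linarith [sq_lt_one hx1])
  have hsin : ∀ φ : ℝ, (1 - xx z ^ 2) * sin φ ^ 2 = (√(1 - xx z ^ 2) * sin φ) ^ 2 := by
    intro φ
    rw [mul_pow, Real.sq_sqrt h1x]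
  -- the part before the cap
  have hout : ∀ τ, 0 ≤ τ → τ ≤ π / 2 - sigb z → (1 - xx z ^ 2) * sin τ ^ 2 ≤ 1 - C.Q.a ^ 2 := by
    intro τ h0 h1
    rw [hsin, C.Qa]
    have h2 : sin τ ≤ cos (sigb z) := by
      rw [← Real.sin_pi_div_two_sub]
      exact Real.sin_le_sin_of_le_of_le_pi_div_two (by linarith) (by linarith) h1
    have h3 : 0 ≤ sin τ := Real.sin_nonneg_of_nonneg_of_le_pi h0 (by linarith)
    have h4 : √(1 - xx z ^ 2) * sin τ ≤ 12 / 13 := by
      rw [← hsg]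
      exact mul_le_mul_of_nonneg_left h2 h1x'.le
    have h5 : 0 ≤ √(1 - xx z ^ 2) * sin τ := mul_nonneg h1x'.le h3
    nlinarith
  have hdom : ∀ τ ∈ Ioo l r, (phc (xx z) τ, C.Q.th (xx z) (Psi z) τ) ∈ DomQ := by
    intro τ hτ
    have hτ0 : 0 < τ := hl0.trans_lt hτ.1
    have hτπ : τ < π := hτ.2.trans_le hrπ
    obtain ⟨c1, c2, c3⟩ := (hKTH C.Q (xx z) hx0 hx1).2.2.2.2.2.2 τ
    have hcos : 0 < cos (phc (xx z) τ) := by
      rw [c1]
      exact mul_pos h1x' (Real.sin_pos_of_pos_of_lt_pi hτ0 hτπ)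
    refine ⟨⟨c2.1, ?_⟩, ?_⟩
    · by_contra hcon
      have := Real.cos_nonpos_of_pi_div_two_le_of_le (not_lt.1 hcon) (by linarith [c2.2])
      linarith
    · show |sin (phc (xx z) τ) * cos (C.Q.th (xx z) (Psi z) τ)| < 5 / 13
      rcases le_or_gt τ (π / 2 - sigb z) with hle | hgt
      · -- before the cap
        have h5 := ((hKTH C.Q (xx z) hx0 hx1).2.2.2.2.1 (Psi z) τ
          (Or.inr ⟨by rw [abs_of_pos hτ0]; linarith, hout τ hτ0.le hle⟩)).1
        rw [h5, xK_Psi z hc hq.1]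
        refine small hTRI z hc hb (B1 _ ?_ ?_)
        · linarith [hτ.1]
        · linarith
      · rcases lt_or_ge τ (π / 2 + sigb z) with hlt | hge
        · -- in the cap
          refine in_cap hKTH C.Q (xx z) hx0 hx1 τ ?_ (Psi z)
          rw [hsin]
          have h2 : cos (sigb z) < sin τ := by
            rw [← Real.cos_pi_div_two_sub τ, ← Real.cos_abs (π / 2 - τ)]
            refine Real.cos_lt_cos_of_nonneg_of_le_pi (abs_nonneg _) (by linarith) ?_
            rw [abs_lt]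
            constructor <;> linarith
          have h4 : 12 / 13 < √(1 - xx z ^ 2) * sin τ := by
            rw [← hsg]
            exact mul_lt_mul_of_pos_left h2 h1x'
          exact pow_lt_pow_left₀ h4 (by norm_num) two_ne_zero
        · -- after the cap
          set τ' : ℝ := τ - π with hτ'
          have hτe : τ = π + τ' := by rw [hτ']; ring
          obtain ⟨-, d2, d3⟩ := (hKTH C.Q (xx z) hx0 hx1).2.2.2.2.2.2 τ'
          have hsq : sin τ ^ 2 = sin τ' ^ 2 := by
            rw [hτe, Real.sin_add, Real.sin_pi, Real.cos_pi]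
            ring
          have hss : sin (phc (xx z) τ) = sin (phc (xx z) τ') := by
            have p1 : 0 < sin (phc (xx z) τ) := Real.sin_pos_of_pos_of_lt_pi c2.1 c2.2
            have p2 : 0 < sin (phc (xx z) τ') := Real.sin_pos_of_pos_of_lt_pi d2.1 d2.2
            rw [← sq_eq_sq₀ p1.le p2.le, c3, d3, hsq]
          have hth : C.Q.th (xx z) (Psi z) τ = C.Q.th (xx z) (Psi w) τ' + k' * π := by
            rw [hτe, (hKTH C.Q (xx z) hx0 hx1).2.1 (Psi z) τ',
              (hKTH C.Q (xx z) hx0 hx1).2.2.2.1 (Psi w) τ', hk']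
            ring
          have hout' : (1 - xx z ^ 2) * sin τ' ^ 2 ≤ 1 - C.Q.a ^ 2 := by
            rw [← hsq, ← Real.sin_pi_sub τ]
            exact hout (π - τ) (by linarith) (by linarith)
          have hab : |τ'| ≤ π / 2 := by
            rw [abs_le]
            constructor <;> linarith
          have h5 := ((hKTH C.Q (xx z) hx0 hx1).2.2.2.2.1 (Psi w) τ' (Or.inr ⟨hab, hout'⟩)).1
          have hcosk : |cos (C.Q.th (xx z) (Psi w) τ' + k' * π)| =
              |cos (C.Q.th (xx z) (Psi w) τ')| := by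
            rw [Real.cos_add_int_mul_pi, abs_mul, abs_zpow]
            simp
          rw [hss, hth, abs_mul, hcosk, ← abs_mul, h5, ← e1, xK_Psi w hc' hq'.1]
          have hflip : sin (τ' + tauc w - π / 2) = -sin (τ + tauc w - π / 2) := by
            rw [hτe, show π + τ' + tauc w - π / 2 = (τ' + tauc w - π / 2) + π by ring,
              Real.sin_add_pi, neg_neg]
          rw [hflip, mul_neg, abs_neg]
          refine small hTRI w hc' hb' (B2 _ ?_ ?_)
          · linarith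
          · linarith [hτ.2]
  have he : esgn z = 1 ∨ esgn z = -1 := by
    unfold esgn
    split_ifs
    exacts [Or.inl rfl, Or.inr rfl]
  have m1 : tauM z - tauc z + π / 2 ∈ Ioo l r := by
    rw [tauM_eq z hq]
    constructor <;> linarith
  have m2 : tauP w - tauc w + π / 2 ∈ Ioo l r := by
    rw [tauP_eq w hq', hsig]
    constructor <;> linarith
  rw [v1, v2]
  exact ⟨hQARC C A hA (esgn z) he (xx z) hx0 hx1 (Psi z) l r hdom _ m1 _ m2,
    hQARC C A hA (esgn z) he (xx z) hx0 hx1 (Psi z) l r hdom _ m2 _ m1⟩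

end Pool.Agent.Lib.MP_d2b992_gt.Erg
end

section
/-!
# Null sets of the Liouville measure in terms of the parameters
-/
namespace Pool.Agent.Lib.MP_d2b992_gt.Erg

open Set Filter Topology MeasureTheory Real
open scoped ContDiff InnerProductSpace

namespace LnulM

theorem uvec_mem (C : Caps) (q : (ℝ × ℝ) × ℝ) : uvec C.metric q ∈ UM C.metric := by
  have hL := LL_pos C (Or.inl rfl) q.1
  have hs : √(LL C 1 q.1) ^ 2 = LL C 1 q.1 := sq_sqrt hL.le
  have hs0 : 0 < √(LL C 1 q.1) := sqrt_pos.2 hL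
  have hI := II_pos q.1
  rw [uvec_metric]
  have hnorm : ∀ p, ‖stereo 1 p‖ ^ 2 = 1 := fun p => by rw [norm_stereo (Or.inl rfl)]; norm_num
  have hort : ∀ w : ℝ × ℝ, ⟪stereo 1 q.1, fderiv ℝ (stereo 1) q.1 w⟫_ℝ = 0 := by
    intro w
    have h1 : HasFDerivAt (stereo 1) (fderiv ℝ (stereo 1) q.1) q.1 := 
      ((contDiff_stereo 1).differentiable (by simp) _).hasFDerivAt
    have h2 := h1.norm_sq
    have h3 : HasFDerivAt (fun p => ‖stereo 1 p‖ ^ 2) (0 : ℝ × ℝ →L[ℝ] ℝ) q.1 := by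
      have : (fun p => ‖stereo 1 p‖ ^ 2) = fun _ => (1:ℝ) := funext hnorm
      rw [this]; exact hasFDerivAt_const _ _
    have h4 := congrArg (fun L : ℝ × ℝ →L[ℝ] ℝ => L w) (h2.unique h3)
    simpa using h4
  refine ⟨norm_stereo (Or.inl rfl) _, ?_, ?_⟩
  · simp only [inner_add_right, real_inner_smul_right]
    have a1 : ⟪stereo 1 q.1, du (stereo 1) q.1⟫_ℝ = 0 := hort _
    have a2 : ⟪stereo 1 q.1, dv (stereo 1) q.1⟫_ℝ = 0 := hort _
    rw [a1, a2]
    ring
  · rw [Caps.metric_g]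
    simp only [inner_add_left, inner_add_right, real_inner_smul_left, real_inner_smul_right]
    have a3 : ⟪dv (stereo 1) q.1, du (stereo 1) q.1⟫_ℝ = 0 := by
      rw [real_inner_comm]; exact round_F (Or.inl rfl) q.1
    rw [round_E (Or.inl rfl), round_G (Or.inl rfl), round_F (Or.inl rfl), a3]
    have hlam : C.lam (stereo 1 q.1) * (4 * II q.1 ^ 2) = √(LL C 1 q.1) ^ 2 := by
      rw [hs]; rfl
    have e : C.lam (stereo 1 q.1) * (cos q.2 / √(LL C 1 q.1) * 
        (cos q.2 / √(LL C 1 q.1) * (4 * II q.1 ^ 2)) + sin q.2 / √(LL C 1 q.1) * 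
        (cos q.2 / √(LL C 1 q.1) * 0) + (cos q.2 / √(LL C 1 q.1) * 
        (sin q.2 / √(LL C 1 q.1) * 0) + sin q.2 / √(LL C 1 q.1) * 
        (sin q.2 / √(LL C 1 q.1) * (4 * II q.1 ^ 2)))) = 
        (C.lam (stereo 1 q.1) * (4 * II q.1 ^ 2)) * (sin q.2 ^ 2 + cos q.2 ^ 2) / 
          √(LL C 1 q.1) ^ 2 := by
      field_simp
      ring
    have e' := e
    rw [hlam, sin_sq_add_cos_sq, mul_one, div_self (by positivity)] at e'
    refine Eq.trans ?_ e'
    ring

end LnulM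

theorem specLNUL : SpecLNUL := by
  intro C
  refine ⟨?_, LnulM.uvec_mem C⟩
  intro A hA h0
  unfold liouville
  rw [Measure.map_apply (continuous_uvec C).measurable hA]
  apply withDensity_absolutelyContinuous
  rw [Measure.restrict_apply ((continuous_uvec C).measurable hA)]
  have h2 : uvec C.metric ⁻¹' A ∩ univ ×ˢ Ioc 0 (2 * π) ⊆ preim C A ∪ univ ×ˢ {2 * π} := by
    rintro q ⟨hq, -, hq2⟩
    rcases hq2.2.eq_or_lt with h3 | h3
    · right; exact ⟨mem_univ _, h3⟩
    · left; exact ⟨hq, mem_univ _, hq2.1, h3⟩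
  refine measure_mono_null h2 (measure_union_null h0 ?_)
  rw [Measure.volume_eq_prod, Measure.prod_prod, volume_singleton, mul_zero]

end Pool.Agent.Lib.MP_d2b992_gt.Erg
end

section
/-!
# MEAS: measurability of the set of states
-/
set_option autoImplicit false

namespace Pool.Agent.Lib.MP_d2b992_gt.Erg

open Set Real MeasureTheory Dyn
open scoped ContDiff InnerProductSpace

namespace MeasM

theorem meas_xx : Measurable xx := by
  unfold xx
  exact (Measurable.sqrt (by fun_prop)).mul (by fun_prop)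

theorem meas_tan : Measurable Real.tan := by
  have : Real.tan = fun x => Real.sin x / Real.cos x := by
    funext x; exact Real.tan_eq_sin_div_cos x
  rw [this]
  exact Real.measurable_sin.div Real.measurable_cos

theorem meas_tauc : Measurable tauc := by
  unfold tauc
  exact ((Real.measurable_arctan).comp (measurable_snd.mul (meas_tan.comp measurable_fst))).neg

theorem meas_sigb : Measurable sigb := by
  unfold sigb
  refine Real.continuous_arccos.measurable.comp ?_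
  exact measurable_const.div (Measurable.sqrt (measurable_const.sub (meas_xx.pow_const 2)))

theorem meas_t3' : Measurable t3' := by
  unfold t3' tau3
  refine Measurable.ite ?_ ?_ measurable_const
  · exact measurableSet_lt (by fun_prop) measurable_const
  · refine Real.continuous_arcsin.measurable.comp ?_
    exact measurable_const.div (Measurable.sqrt (measurable_const.sub (measurable_id.pow_const 2)))

theorem meas_inQ : MeasurableSet {z : St | inQ z} := by
  unfold inQ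
  have h1 : Measurable fun z : St => cos z.1 := by fun_prop
  exact (measurableSet_lt measurable_const h1).inter
    (measurableSet_lt (meas_xx.abs) measurable_const)

theorem meas_tauM : Measurable tauM := by
  unfold tauM
  refine Measurable.ite meas_inQ ?_ (Measurable.ite ?_ measurable_const meas_tauc)
  · refine Measurable.div_const (((meas_tauc.sub meas_sigb)).add (Measurable.max ?_ ?_)) 2
    · exact (meas_t3'.comp measurable_snd).neg
    · exact meas_tauc.sub measurable_const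
  · exact measurableSet_lt (by fun_prop) measurable_const

theorem meas_tauP : Measurable tauP := by
  unfold tauP
  refine Measurable.ite meas_inQ ?_ (Measurable.ite ?_ measurable_const meas_tauc)
  · refine Measurable.div_const (((meas_tauc.add meas_sigb)).add (Measurable.min ?_ ?_)) 2
    · exact meas_t3'.comp measurable_snd
    · exact meas_tauc.add measurable_const
  · exact measurableSet_lt (by fun_prop) measurable_const

theorem meas_Bad : MeasurableSet Bad := by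
  have h1 : Measurable (fun z : St => z.2) := measurable_snd
  have h2 := meas_xx
  have h3 : Measurable (fun z : St => cos z.1) := by fun_prop
  have e : Bad = {z : St | z.2 = 0} ∪ ({z : St | |z.2| = 12 / 13} ∪ ({z : St | xx z = 0} ∪
      ({z : St | |xx z| = 5 / 13} ∪ ({z : St | cos z.1 = 0} ∪ ({z : St | 12 * xx z = 5 * z.2} ∪
      {z : St | 12 * xx z = -(5 * z.2)}))))) := by
    ext z; simp only [Bad, Set.mem_ofPred_eq, Set.mem_union]
  rw [e]
  refine (measurableSet_eq_fun h1 measurable_const).union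
    ((measurableSet_eq_fun h1.abs measurable_const).union
    ((measurableSet_eq_fun h2 measurable_const).union
    ((measurableSet_eq_fun h2.abs measurable_const).union
    ((measurableSet_eq_fun h3 measurable_const).union
    ((measurableSet_eq_fun (h2.const_mul 12) (h1.const_mul 5)).union
    (measurableSet_eq_fun (h2.const_mul 12) (h1.const_mul 5).neg))))))

/-- composition of a function which is continuous on an open set with a measurable function -/
theorem meas_comp {E X Y : Type*} [TopologicalSpace X] [MeasurableSpace X] [OpensMeasurableSpace X]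
    [TopologicalSpace Y] [MeasurableSpace Y] [BorelSpace Y] [MeasurableSpace E]
    {f : X → Y} {U : Set X} (hU : IsOpen U) (hf : ContinuousOn f U) {g : E → X}
    (hg : Measurable g) {A : Set Y} (hA : MeasurableSet A) {S : Set E} (hS : MeasurableSet S)
    (hSU : ∀ z ∈ S, g z ∈ U) : MeasurableSet {z | z ∈ S ∧ f (g z) ∈ A} := by
  have h1 : MeasurableSet (U ∩ f ⁻¹' A) := by
    have h2 : Measurable (fun x : U => f x) :=
      (continuousOn_iff_continuous_domRestrict.1 hf).measurable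
    have h3 : MeasurableSet ((↑) '' ((fun x : U => f x) ⁻¹' A) : Set X) :=
      hU.measurableSet.subtype_image (h2 hA)
    have h4 : ((↑) '' ((fun x : U => f x) ⁻¹' A) : Set X) = U ∩ f ⁻¹' A := by
      ext x
      constructor
      · rintro ⟨y, hy, rfl⟩
        exact ⟨y.2, hy⟩
      · rintro ⟨hx, hx'⟩
        exact ⟨⟨x, hx⟩, hx', rfl⟩
    rwa [h4] at h3
  have h5 : {z | z ∈ S ∧ f (g z) ∈ A} = S ∩ g ⁻¹' (U ∩ f ⁻¹' A) := by
    ext z
    constructor
    · rintro ⟨hz, hA⟩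
      exact ⟨hz, hSU z hz, hA⟩
    · rintro ⟨hz, _, hA⟩
      exact ⟨hz, hA⟩
  rw [h5]
  exact hS.inter (hg h1)

end MeasM

open MeasM

/-- MEAS -/
theorem specMEAS (hSMP : SpecSMP) : SpecMEAS := by
  intro C A hA
  have hU : IsOpen {q : (ℝ × ℝ) × ℝ | q.1.2 ≠ 0 ∧ |q.1.2| < 1} := by
    have h1 : Continuous fun q : (ℝ × ℝ) × ℝ => q.1.2 := by fun_prop
    have h2 : Continuous fun q : (ℝ × ℝ) × ℝ => |q.1.2| := by fun_prop
    exact (isOpen_ne_fun h1 continuous_const).inter (isOpen_lt h2 continuous_const)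
  have hf : ContinuousOn (fun q : (ℝ × ℝ) × ℝ => vecP C q.1.1 q.1.2 q.2)
      {q : (ℝ × ℝ) × ℝ | q.1.2 ≠ 0 ∧ |q.1.2| < 1} := by
    intro q hq
    exact ((hSMP C).1 q hq.1 hq.2).continuousAt.continuousWithinAt
  have hS : MeasurableSet {z : St | |z.2| < 1 ∧ z ∉ Bad} := by
    have h1 : Measurable fun z : St => |z.2| := measurable_snd.abs
    exact (measurableSet_lt h1 measurable_const).inter meas_Bad.compl
  have key : ∀ t : St → ℝ, Measurable t →
      MeasurableSet {z : St | |z.2| < 1 ∧ z ∉ Bad ∧ vecP C z.1 z.2 (t z) ∈ A} := by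
    intro t ht
    have h := meas_comp hU hf (g := fun z : St => ((z, t z) : (ℝ × ℝ) × ℝ))
      (measurable_id.prodMk ht) hA hS (by
        rintro z ⟨hz1, hz2⟩
        exact ⟨fun h => hz2 (Or.inl h), hz1⟩)
    convert h using 1
    ext z
    exact and_assoc.symm
  exact ⟨key tauM meas_tauM, key tauP meas_tauP⟩

end Pool.Agent.Lib.MP_d2b992_gt.Erg
end

section
/-!
# PARC, QARC: invariance along the explicit geodesics
-/
set_option autoImplicit false

namespace Pool.Agent.Lib.MP_d2b992_gt.Erg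

open Set Filter Topology Real MeasureTheory Dyn
open scoped ContDiff InnerProductSpace

namespace ParcM

theorem mono {M : SphereMetric} {γ : ℝ → R3} {I J : Set ℝ} (h : IsGeodesicOn M γ I) (hJ : J ⊆ I) :
    IsGeodesicOn M γ J :=
  ⟨h.smooth.mono hJ, fun t ht => h.mem t (hJ ht), fun t ht => h.unit_speed t (hJ ht),
    fun t ht => h.euler t (hJ ht)⟩

theorem sq_lt {c : ℝ} (hc : |c| < 1) : c ^ 2 < 1 := (sq_lt_one_iff_abs_lt_one c).2 hc

theorem vel_eq (K : Cap) {c : ℝ} (hc0 : c ≠ 0) (hc1 : c ^ 2 < 1) (Θ τ : ℝ) :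
    deriv (K.arc c Θ) (K.tt c τ) = velK K c τ := by
  rw [(K.hasDerivAt_arc hc0 hc1 Θ _).deriv]
  unfold velK Cap.arc
  simp only [K.tau_tt hc0 hc1]

theorem pos_eq (K : Cap) {c : ℝ} (hc0 : c ≠ 0) (hc1 : c ^ 2 < 1) (Θ τ : ℝ) :
    K.arc c Θ (K.tt c τ) = (phc c τ, K.th c Θ τ) := by
  unfold Cap.arc
  simp only [K.tau_tt hc0 hc1]

theorem gen (K : Cap) {Φ : ℝ × ℝ → R3} {U : Set (ℝ × ℝ)} (M : SphereMetric) {c : ℝ} (hc0 : c ≠ 0)
    (hc1 : c ^ 2 < 1) {Θ : ℝ}
    (hgeo : IsGeodesicOn M (fun t => Φ (K.arc c Θ t)) {t | K.arc c Θ t ∈ U})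
    (hd : ∀ a ∈ U, DifferentiableAt ℝ Φ a) {A : Set (R3 × R3)} (hA : InvariantArc M A) {l r : ℝ}
    (hdom : ∀ τ ∈ Ioo l r, (phc c τ, K.th c Θ τ) ∈ U) {τ₁ τ₂ : ℝ} (h₁ : τ₁ ∈ Ioo l r)
    (h₂ : τ₂ ∈ Ioo l r)
    (h : (Φ (phc c τ₁, K.th c Θ τ₁), fderiv ℝ Φ (phc c τ₁, K.th c Θ τ₁) (velK K c τ₁)) ∈ A) :
    (Φ (phc c τ₂, K.th c Θ τ₂), fderiv ℝ Φ (phc c τ₂, K.th c Θ τ₂) (velK K c τ₂)) ∈ A := by
  have hmono := K.tt_strictMono hc0 hc1
  have hsub : Ioo (K.tt c l) (K.tt c r) ⊆ {t | K.arc c Θ t ∈ U} := by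
    intro t ht
    have h3 : K.tau c t ∈ Ioo l r := by
      constructor
      · rw [← hmono.lt_iff_lt, K.tt_tau hc0 hc1]
        exact ht.1
      · rw [← hmono.lt_iff_lt, K.tt_tau hc0 hc1]
        exact ht.2
    exact hdom _ h3
  have hg := mono hgeo hsub
  have hvec : ∀ τ ∈ Ioo l r, (Φ (phc c τ, K.th c Θ τ), fderiv ℝ Φ (phc c τ, K.th c Θ τ) (velK K c τ))
      = ((fun t => Φ (K.arc c Θ t)) (K.tt c τ), deriv (fun t => Φ (K.arc c Θ t)) (K.tt c τ)) := by
    intro τ hτ
    have h4 : HasDerivAt (fun t => Φ (K.arc c Θ t))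
        (fderiv ℝ Φ (K.arc c Θ (K.tt c τ)) (deriv (K.arc c Θ) (K.tt c τ))) (K.tt c τ) := by
      have h5 : DifferentiableAt ℝ Φ (K.arc c Θ (K.tt c τ)) := by
        apply hd
        rw [pos_eq K hc0 hc1]
        exact hdom τ hτ
      exact h5.hasFDerivAt.comp_hasDerivAt _
        (K.hasDerivAt_arc hc0 hc1 Θ _).differentiableAt.hasDerivAt
    rw [h4.deriv, vel_eq K hc0 hc1]
    simp only [pos_eq K hc0 hc1]
  have hmem : ∀ τ ∈ Ioo l r, K.tt c τ ∈ Ioo (K.tt c l) (K.tt c r) := fun τ hτ =>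
    ⟨hmono hτ.1, hmono hτ.2⟩
  rw [hvec τ₂ h₂]
  rw [hvec τ₁ h₁] at h
  exact (hA _ _ _ hg _ (hmem τ₁ h₁) _ (hmem τ₂ h₂)).1 h

end ParcM

open ParcM

theorem specPARC : SpecPARC := by
  intro C A hA c hc0 hc Θ l r hdom τ₁ h₁ τ₂ h₂ h
  exact gen C.P C.metric hc0 (sq_lt hc) (arcP C hc0 (sq_lt hc) Θ)
    (fun a ha => ((contDiffOn_chP C).contDiffAt ((isOpen_Ioo.preimage continuous_fst).mem_nhds
      ha.1)).differentiableAt (by simp)) hA hdom h₁ h₂ h

theorem specQARC : SpecQARC := by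
  intro C A hA e he x hx0 hx Ψ l r hdom τ₁ h₁ τ₂ h₂ h
  exact gen C.Q C.metric hx0 (sq_lt hx) (arcQ C he hx0 (sq_lt hx) Ψ)
    (fun a ha => ((contDiffOn_chQ C e).contDiffAt ((isOpen_Ioo.preimage continuous_fst).mem_nhds
      ha.1)).differentiableAt (by simp)) hA hdom h₁ h₂ h

end Pool.Agent.Lib.MP_d2b992_gt.Erg
end

section
/-!
# QKICK: the state after the `Q`-event
-/
set_option autoImplicit false

namespace Pool.Agent.Lib.MP_d2b992_gt.Erg.QkickM

open Set Real Dyn Erg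

/-- The square of the new height. -/
theorem qC_cases (G : ℝ → ℝ) (z : St) :
    (-(√(1 - z.2 ^ 2) * cos z.1) * cos (G (xx z)) - z.2 * sin (G (xx z)) ≤ 0 ∧
      qC G z = -(√(1 - z.2 ^ 2) * cos z.1) * sin (G (xx z)) + z.2 * cos (G (xx z))) ∨
    (0 < -(√(1 - z.2 ^ 2) * cos z.1) * cos (G (xx z)) - z.2 * sin (G (xx z)) ∧
      qC G z = -(-(√(1 - z.2 ^ 2) * cos z.1) * sin (G (xx z)) + z.2 * cos (G (xx z)))) := by
  have h : qC G z = if -(√(1 - z.2 ^ 2) * cos z.1) * cos (G (xx z)) - z.2 * sin (G (xx z)) ≤ 0 then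
      -(√(1 - z.2 ^ 2) * cos z.1) * sin (G (xx z)) + z.2 * cos (G (xx z))
      else -(-(√(1 - z.2 ^ 2) * cos z.1) * sin (G (xx z)) + z.2 * cos (G (xx z))) := rfl
  by_cases h1 : -(√(1 - z.2 ^ 2) * cos z.1) * cos (G (xx z)) - z.2 * sin (G (xx z)) ≤ 0
  · left
    rw [if_pos h1] at h
    exact ⟨h1, h⟩
  · right
    rw [if_neg h1] at h
    exact ⟨not_le.1 h1, h⟩

theorem all : SpecQKICK := by
  intro G z hz hq hb hb'
  have hcos := hq.1
  have hxb := hq.2
  have hc2 : z.2 ^ 2 < 1 := LINKQM.sq_lt_one hz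
  have hx0 : xx z ≠ 0 := fun h => hb (Or.inr (Or.inr (Or.inl h)))
  have hx2 : 0 < xx z ^ 2 := by positivity
  have hr := LINKQM.root_pos z hz hcos
  set g : ℝ := G (xx z) with hg
  set c₁ : ℝ := qC G z with hc₁
  set D : ℝ := -(√(1 - z.2 ^ 2) * cos z.1) with hD
  have hDc : D ^ 2 + z.2 ^ 2 = 1 - xx z ^ 2 := by
    rw [hD, neg_sq, mul_pow, Real.sq_sqrt (by linarith), LINKQM.one_sub_xx z hz, Real.cos_sq']
    ring
  have hcase := qC_cases G z
  rw [← hg, ← hc₁, ← hD] at hcase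
  -- the square of the new `D`
  have hDD : (D * cos g - z.2 * sin g) ^ 2 + c₁ ^ 2 = 1 - xx z ^ 2 := by
    have h1 : (D * cos g - z.2 * sin g) ^ 2 + (D * sin g + z.2 * cos g) ^ 2 = 1 - xx z ^ 2 := by
      have := Real.sin_sq_add_cos_sq g
      calc _ = (D ^ 2 + z.2 ^ 2) * (sin g ^ 2 + cos g ^ 2) := by ring
        _ = _ := by rw [this, mul_one, hDc]
    rcases hcase with ⟨-, h⟩ | ⟨-, h⟩
    · rw [h]; exact h1
    · rw [h, neg_sq]; exact h1
  have hc1x : xx z ^ 2 ≤ 1 - c₁ ^ 2 := by nlinarith [sq_nonneg (D * cos g - z.2 * sin g)]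
  have hpos : 0 < 1 - c₁ ^ 2 := by linarith
  have hs : 0 < √(1 - c₁ ^ 2) := Real.sqrt_pos.2 hpos
  have hs2 : √(1 - c₁ ^ 2) ^ 2 = 1 - c₁ ^ 2 := Real.sq_sqrt hpos.le
  set r : ℝ := xx z / √(1 - c₁ ^ 2) with hr_def
  have hr2 : r ^ 2 ≤ 1 := by
    rw [hr_def, div_pow, hs2, div_le_one hpos]
    exact hc1x
  have hrab := abs_le.1 ((sq_le_one_iff_abs_le_one _).1 hr2)
  -- the new state
  have hqM : qMap (5 / 13) G z =
      ((if 0 < cos (z.1 / 2) then 0 else 2 * π) + arcsin r, c₁) := by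
    unfold qMap
    rw [if_pos (show 0 < cos z.1 ∧ |√(1 - z.2 ^ 2) * sin z.1| < 5 / 13 from hq)]
    rfl
  set z₁ : St := qMap (5 / 13) G z with hz₁
  have hz₁2 : z₁.2 = c₁ := by rw [hqM]
  have hsin : sin z₁.1 = r := by
    rw [hqM]
    show sin ((if 0 < cos (z.1 / 2) then 0 else 2 * π) + arcsin r) = r
    split_ifs
    · rw [zero_add, Real.sin_arcsin hrab.1 hrab.2]
    · rw [add_comm, Real.sin_add_two_pi, Real.sin_arcsin hrab.1 hrab.2]
  have hcos1 : 0 ≤ cos z₁.1 := by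
    rw [hqM]
    show 0 ≤ cos ((if 0 < cos (z.1 / 2) then 0 else 2 * π) + arcsin r)
    split_ifs
    · rw [zero_add]; exact Real.cos_arcsin_nonneg _
    · rw [add_comm, Real.cos_add_two_pi]; exact Real.cos_arcsin_nonneg _
  have hcos2 : cos z₁.1 ≠ 0 := fun h => hb' (Or.inr (Or.inr (Or.inr (Or.inr (Or.inl h)))))
  have hcosp : 0 < cos z₁.1 := lt_of_le_of_ne hcos1 (Ne.symm hcos2)
  have hxx : xx z₁ = xx z := by
    show √(1 - z₁.2 ^ 2) * sin z₁.1 = xx z
    rw [hz₁2, hsin, hr_def]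
    field_simp
  have hz₁1 : |z₁.2| < 1 := by
    rw [hz₁2]
    apply abs_lt_of_sq_lt_sq _ (by norm_num)
    linarith
  have hes : esgn z₁ = esgn z := by
    have ha1 := Real.neg_pi_div_two_le_arcsin r
    have ha2 := Real.arcsin_le_pi_div_two r
    have hπ := Real.pi_pos
    have h0 : 0 < cos (arcsin r / 2) := by
      apply Real.cos_pos_of_mem_Ioo
      constructor <;> linarith
    unfold esgn
    by_cases h : 0 < cos (z.1 / 2)
    · have h1 : z₁.1 = arcsin r := by rw [hqM]; simp [h]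
      rw [h1, if_pos h, if_pos h0]
    · have h1 : z₁.1 = 2 * π + arcsin r := by rw [hqM]; simp [h]
      have h2 : cos (z₁.1 / 2) = -cos (arcsin r / 2) := by
        rw [h1, show (2 * π + arcsin r) / 2 = arcsin r / 2 + π by ring, Real.cos_add_pi]
      rw [if_neg h, if_neg (by rw [h2]; linarith)]
  refine ⟨hxx, hes, ⟨hcosp, by rw [hxx]; exact hxb⟩, hz₁1, ?_⟩
  -- the angle
  have hρ := Real.sq_sqrt (show (0 : ℝ) ≤ 1 - xx z ^ 2 by
    have := sq_nonneg D; have := sq_nonneg z.2; linarith)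
  have hsP := LINKQM.sin_Psi z hz hcos
  have hcP := LINKQM.cos_Psi z hz hcos
  have hsP1 := LINKQM.sin_Psi z₁ hz₁1 hcosp
  have hcP1 := LINKQM.cos_Psi z₁ hz₁1 hcosp
  rw [hxx, hz₁2] at hsP1 hcP1
  set ρ : ℝ := √(1 - xx z ^ 2) with hρ_def
  set D₁ : ℝ := -(√(1 - c₁ ^ 2) * cos z₁.1) with hD₁
  have hcPD : cos (Psi z) = D / ρ := by rw [hcP, hD]; ring
  have hcPD1 : cos (Psi z₁) = D₁ / ρ := by rw [hcP1, hD₁]; ring
  have hD1neg : D₁ < 0 := by
    rw [hD₁]
    have := mul_pos hs hcosp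
    linarith
  have hD1sq : D₁ ^ 2 = (D * cos g - z.2 * sin g) ^ 2 := by
    have h1 : D₁ ^ 2 = (1 - c₁ ^ 2) * (1 - r ^ 2) := by
      rw [hD₁, neg_sq, mul_pow, hs2, Real.cos_sq', hsin]
    have h2 : (1 - c₁ ^ 2) * r ^ 2 = xx z ^ 2 := by
      rw [hr_def, div_pow, hs2]
      field_simp
    nlinarith
  have hkey : sin (Psi z + g - Psi z₁) = 0 := by
    have h1 : sin (Psi z + g) = (D * sin g + z.2 * cos g) / ρ := by
      rw [Real.sin_add, hsP, hcPD]
      ring
    have h2 : cos (Psi z + g) = (D * cos g - z.2 * sin g) / ρ := by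
      rw [Real.cos_add, hsP, hcPD]
      ring
    rw [Real.sin_sub, h1, h2, hsP1, hcPD1]
    rcases hcase with ⟨h3, h4⟩ | ⟨h3, h4⟩
    · have h5 : D₁ = D * cos g - z.2 * sin g := by
        rcases sq_eq_sq_iff_eq_or_eq_neg.1 hD1sq with h | h
        · exact h
        · exfalso; linarith
      rw [h5, h4]
      ring
    · have h5 : D₁ = -(D * cos g - z.2 * sin g) := by
        rcases sq_eq_sq_iff_eq_or_eq_neg.1 hD1sq with h | h
        · exfalso; linarith
        · exact h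
      rw [h5, h4]
      ring
  obtain ⟨k, hk⟩ := Real.sin_eq_zero_iff.1 hkey
  exact ⟨k, by linarith⟩

end Pool.Agent.Lib.MP_d2b992_gt.Erg.QkickM

namespace Pool.Agent.Lib.MP_d2b992_gt.Erg

theorem specQKICK : SpecQKICK := QkickM.all

end Pool.Agent.Lib.MP_d2b992_gt.Erg
end
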